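import Pool.Agent.Lib.MP_69b2e4_nt.LB.Defs

/-! TASK A3. The regularised logarithm `g(x,y) = (1/2) log(‖f(x+iy)‖² + ε²)` of an analytic function. `N = ‖f‖² + ε² ≥ ε² > 0`. `∂_x f = f'`, `∂_y f = i f'`; `∂_x N = 2 Re(f' conj f)`, `∂_y N = -2 Im(f' conj f)`; `gx = Re(f' conj f)/N`, `gy = -Im(f' conj f)/N`.
`gxx = [Re(f'' conj f) + ‖f'‖²]/N - 2 (Re(f' conj f))²/N²`, `gyy = [-Re(f'' conj f) + ‖f'‖²]/N - 2 (Im (f' conj f))²/N²`; the sum is `2‖f'‖²/N - 2‖f'‖²‖f‖²/N² = 2ε²‖f'‖²/N²`. `f`, `f'`, `f''` are continuous (analytic, `DifferentiableOn.analyticAt`, `AnalyticAt.deriv`). -/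

set_option autoImplicit false

namespace Pool.Agent.LB

open Complex MeasureTheory Finset Pool.Agent.GH Pool.Agent.UH Pool.Agent.UV
open scoped Real ComplexConjugate

/-- The regularised logarithm. -/
noncomputable def gL (f : ℂ → ℂ) (ε x y : ℝ) : ℝ := 1 / 2 * Real.log (‖f (x + y * I)‖ ^ 2 + ε ^ 2)

/-- Its derivative in `x`. -/
noncomputable def gLx (f : ℂ → ℂ) (ε x y : ℝ) : ℝ :=
  (deriv f (x + y * I) * conj (f (x + y * I))).re / (‖f (x + y * I)‖ ^ 2 + ε ^ 2)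

private lemma A3_norm_sq {h : ℝ → ℂ} {h' : ℂ} {t : ℝ} (hh : HasDerivAt h h' t) :
    HasDerivAt (fun t => ‖h t‖ ^ 2) (2 * (h' * conj (h t)).re) t := by
  have h1 := hh.norm_sq
  have h2 : inner ℝ (h t) h' = (h' * conj (h t)).re := by
    rw [Complex.inner, mul_comm]
  rw [h2] at h1
  exact h1

private lemma A3_pos {ε : ℝ} (hε : 0 < ε) (z : ℂ) : 0 < ‖z‖ ^ 2 + ε ^ 2 := by positivity

private lemma A3_log {h : ℝ → ℂ} {h' : ℂ} {t ε : ℝ} (hε : 0 < ε) (hh : HasDerivAt h h' t) :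
    HasDerivAt (fun t => 1 / 2 * Real.log (‖h t‖ ^ 2 + ε ^ 2))
      ((h' * conj (h t)).re / (‖h t‖ ^ 2 + ε ^ 2)) t := by
  have h1 := ((A3_norm_sq hh).add_const (ε ^ 2)).log (A3_pos hε _).ne'
  have h2 := h1.const_mul (1 / 2)
  have e : 1 / 2 * (2 * (h' * conj (h t)).re / (‖h t‖ ^ 2 + ε ^ 2))
      = (h' * conj (h t)).re / (‖h t‖ ^ 2 + ε ^ 2) := by ring
  rw [e] at h2
  exact h2

private lemma A3_quot {h k : ℝ → ℂ} {h' k' : ℂ} {t ε : ℝ} (hε : 0 < ε) (hh : HasDerivAt h h' t)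
    (hk : HasDerivAt k k' t) :
    HasDerivAt (fun t => (k t * conj (h t)).re / (‖h t‖ ^ 2 + ε ^ 2))
      (((k' * conj (h t) + k t * conj h').re * (‖h t‖ ^ 2 + ε ^ 2)
        - (k t * conj (h t)).re * (2 * (h' * conj (h t)).re)) / (‖h t‖ ^ 2 + ε ^ 2) ^ 2) t := by
  have h1 : HasDerivAt (fun t => conj (h t)) (conj h') t := hh.star
  have h2 := hk.mul h1
  have h3 : HasDerivAt (fun t => (k t * conj (h t)).re) ((k' * conj (h t) + k t * conj h').re) t :=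
    Complex.reCLM.hasFDerivAt.comp_hasDerivAt t h2
  exact h3.div ((A3_norm_sq hh).add_const (ε ^ 2)) (A3_pos hε _).ne'

private lemma A3_alg (a b c : ℂ) (ε : ℝ) :
    ((c * conj a + b * conj b).re * (‖a‖ ^ 2 + ε ^ 2)
        - (b * conj a).re * (2 * (b * conj a).re)) / (‖a‖ ^ 2 + ε ^ 2) ^ 2
      + (((c * I * I) * conj a + (b * I) * conj (b * I)).re * (‖a‖ ^ 2 + ε ^ 2)
        - ((b * I) * conj a).re * (2 * ((b * I) * conj a).re)) / (‖a‖ ^ 2 + ε ^ 2) ^ 2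
      = 2 * ε ^ 2 * ‖b‖ ^ 2 / (‖a‖ ^ 2 + ε ^ 2) ^ 2 := by
  rw [← add_div]
  congr 1
  rw [Complex.sq_norm, Complex.sq_norm, Complex.normSq_apply, Complex.normSq_apply]
  simp only [Complex.mul_re, Complex.mul_im, Complex.add_re, Complex.conj_re, Complex.conj_im,
    Complex.I_re, Complex.I_im]
  ring

theorem reg_log {f : ℂ → ℂ} {U : Set ℂ} (hU : IsOpen U) (hf : DifferentiableOn ℂ f U) {ε : ℝ}
    (hε : 0 < ε) : ∃ gxx gy gyy : ℝ → ℝ → ℝ,
    ContinuousOn (fun q : ℝ × ℝ => gL f ε q.1 q.2) {q | ((q.1 : ℂ) + q.2 * I) ∈ U} ∧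
    ContinuousOn (fun q : ℝ × ℝ => gLx f ε q.1 q.2) {q | ((q.1 : ℂ) + q.2 * I) ∈ U} ∧
    ContinuousOn (fun q : ℝ × ℝ => gxx q.1 q.2) {q | ((q.1 : ℂ) + q.2 * I) ∈ U} ∧
    ContinuousOn (fun q : ℝ × ℝ => gy q.1 q.2) {q | ((q.1 : ℂ) + q.2 * I) ∈ U} ∧
    ContinuousOn (fun q : ℝ × ℝ => gyy q.1 q.2) {q | ((q.1 : ℂ) + q.2 * I) ∈ U} ∧
    ∀ x y : ℝ, ((x : ℂ) + y * I) ∈ U →
      HasDerivAt (fun x => gL f ε x y) (gLx f ε x y) x ∧
      HasDerivAt (fun x => gLx f ε x y) (gxx x y) x ∧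
      HasDerivAt (fun y => gL f ε x y) (gy x y) y ∧
      HasDerivAt (fun y => gy x y) (gyy x y) y ∧
      gxx x y + gyy x y = 2 * ε ^ 2 * ‖deriv f (x + y * I)‖ ^ 2 /
        (‖f (x + y * I)‖ ^ 2 + ε ^ 2) ^ 2 := by
  have hf' : DifferentiableOn ℂ (deriv f) U := hf.deriv hU
  have hf'' : DifferentiableOn ℂ (deriv (deriv f)) U := hf'.deriv hU
  have hz : Continuous (fun q : ℝ × ℝ => (q.1 : ℂ) + q.2 * I) := by fun_prop
  have hzm : Set.MapsTo (fun q : ℝ × ℝ => (q.1 : ℂ) + q.2 * I)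
      {q : ℝ × ℝ | ((q.1 : ℂ) + q.2 * I) ∈ U} U := fun q hq => hq
  have c0 : ContinuousOn (fun q : ℝ × ℝ => f ((q.1 : ℂ) + q.2 * I))
      {q : ℝ × ℝ | ((q.1 : ℂ) + q.2 * I) ∈ U} := hf.continuousOn.comp hz.continuousOn hzm
  have c1 : ContinuousOn (fun q : ℝ × ℝ => deriv f ((q.1 : ℂ) + q.2 * I))
      {q : ℝ × ℝ | ((q.1 : ℂ) + q.2 * I) ∈ U} := hf'.continuousOn.comp hz.continuousOn hzm
  have c2 : ContinuousOn (fun q : ℝ × ℝ => deriv (deriv f) ((q.1 : ℂ) + q.2 * I))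
      {q : ℝ × ℝ | ((q.1 : ℂ) + q.2 * I) ∈ U} := hf''.continuousOn.comp hz.continuousOn hzm
  have cc0 : ContinuousOn (fun q : ℝ × ℝ => conj (f ((q.1 : ℂ) + q.2 * I)))
      {q : ℝ × ℝ | ((q.1 : ℂ) + q.2 * I) ∈ U} := Complex.continuous_conj.comp_continuousOn c0
  have cc1 : ContinuousOn (fun q : ℝ × ℝ => conj (deriv f ((q.1 : ℂ) + q.2 * I)))
      {q : ℝ × ℝ | ((q.1 : ℂ) + q.2 * I) ∈ U} := Complex.continuous_conj.comp_continuousOn c1
  have cc1I : ContinuousOn (fun q : ℝ × ℝ => conj (deriv f ((q.1 : ℂ) + q.2 * I) * I))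
      {q : ℝ × ℝ | ((q.1 : ℂ) + q.2 * I) ∈ U} :=
    Complex.continuous_conj.comp_continuousOn (c1.mul continuousOn_const)
  have cN : ContinuousOn (fun q : ℝ × ℝ => ‖f ((q.1 : ℂ) + q.2 * I)‖ ^ 2 + ε ^ 2)
      {q : ℝ × ℝ | ((q.1 : ℂ) + q.2 * I) ∈ U} := (c0.norm.pow 2).add continuousOn_const
  have hN : ∀ z : ℂ, ‖f z‖ ^ 2 + ε ^ 2 ≠ 0 := fun z => (A3_pos hε _).ne'
  have hN2 : ∀ z : ℂ, (‖f z‖ ^ 2 + ε ^ 2) ^ 2 ≠ 0 := fun z => pow_ne_zero 2 (hN z)
  have re : ∀ {g : ℝ × ℝ → ℂ} {S : Set (ℝ × ℝ)}, ContinuousOn g S →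
      ContinuousOn (fun q => (g q).re) S := fun h => Complex.continuous_re.comp_continuousOn h
  refine ⟨fun x y => ((deriv (deriv f) (x + y * I) * conj (f (x + y * I))
        + deriv f (x + y * I) * conj (deriv f (x + y * I))).re * (‖f (x + y * I)‖ ^ 2 + ε ^ 2)
        - (deriv f (x + y * I) * conj (f (x + y * I))).re
          * (2 * (deriv f (x + y * I) * conj (f (x + y * I))).re))
        / (‖f (x + y * I)‖ ^ 2 + ε ^ 2) ^ 2,
    fun x y => ((deriv f (x + y * I) * I) * conj (f (x + y * I))).re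
      / (‖f (x + y * I)‖ ^ 2 + ε ^ 2),
    fun x y => (((deriv (deriv f) (x + y * I) * I * I) * conj (f (x + y * I))
        + (deriv f (x + y * I) * I) * conj (deriv f (x + y * I) * I)).re
          * (‖f (x + y * I)‖ ^ 2 + ε ^ 2)
        - ((deriv f (x + y * I) * I) * conj (f (x + y * I))).re
          * (2 * ((deriv f (x + y * I) * I) * conj (f (x + y * I))).re))
        / (‖f (x + y * I)‖ ^ 2 + ε ^ 2) ^ 2, ?_, ?_, ?_, ?_, ?_, ?_⟩
  · unfold gL
    exact continuousOn_const.mul (cN.log (fun q _ => hN _))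
  · unfold gLx
    exact (re (c1.mul cc0)).div cN (fun q _ => hN _)
  · exact (((re ((c2.mul cc0).add (c1.mul cc1))).mul cN).sub
      ((re (c1.mul cc0)).mul (continuousOn_const.mul (re (c1.mul cc0))))).div (cN.pow 2)
      (fun q _ => hN2 _)
  · exact (re ((c1.mul continuousOn_const).mul cc0)).div cN (fun q _ => hN _)
  · exact (((re ((((c2.mul continuousOn_const).mul continuousOn_const).mul cc0).add
      ((c1.mul continuousOn_const).mul cc1I))).mul cN).sub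
      ((re ((c1.mul continuousOn_const).mul cc0)).mul (continuousOn_const.mul
        (re ((c1.mul continuousOn_const).mul cc0))))).div (cN.pow 2)
      (fun q _ => hN2 _)
  · intro x y hxy
    have px : HasDerivAt (fun x : ℝ => (x : ℂ) + y * I) 1 x :=
      (Complex.ofRealCLM.hasDerivAt (x := x)).add_const ((y : ℂ) * I)
    have py : HasDerivAt (fun y : ℝ => (x : ℂ) + y * I) I y := by
      have h1 := ((Complex.ofRealCLM.hasDerivAt (x := y)).mul_const I).const_add (x : ℂ)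
      simpa using h1
    have d0 : HasDerivAt f (deriv f (x + y * I)) (x + y * I) :=
      (hf.differentiableAt (hU.mem_nhds hxy)).hasDerivAt
    have d1 : HasDerivAt (deriv f) (deriv (deriv f) (x + y * I)) (x + y * I) :=
      (hf'.differentiableAt (hU.mem_nhds hxy)).hasDerivAt
    have x0 : HasDerivAt (fun x : ℝ => f (x + y * I)) (deriv f (x + y * I)) x := by
      have h1 := HasDerivAt.comp x d0 px
      rw [mul_one] at h1
      exact h1
    have x1 : HasDerivAt (fun x : ℝ => deriv f (x + y * I)) (deriv (deriv f) (x + y * I)) x := by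
      have h1 := HasDerivAt.comp x d1 px
      rw [mul_one] at h1
      exact h1
    have y0 : HasDerivAt (fun y : ℝ => f (x + y * I)) (deriv f (x + y * I) * I) y :=
      HasDerivAt.comp y d0 py
    have y1 : HasDerivAt (fun y : ℝ => deriv f (x + y * I) * I)
        (deriv (deriv f) (x + y * I) * I * I) y := by
      have h0 := HasDerivAt.comp (h₂ := deriv f) y d1 py
      have h1 : HasDerivAt (fun y : ℝ => deriv f (x + y * I)) (deriv (deriv f) (x + y * I) * I) y :=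
        h0
      exact h1.mul_const I
    exact ⟨A3_log hε x0, A3_quot hε x0 x1, A3_log hε y0, A3_quot hε y0 y1, A3_alg _ _ _ ε⟩

end Pool.Agent.LB
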