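import Pool.Agent.Lib.MP_69b2e4_nt.Mg.G023

/-! TASK A5. The limit `ε → 0` in `det_reg`. `G = f1 f2²`. If one of the three lower integrals on the right is infinite there is nothing to prove (the constants are positive), so let them be finite. `ε ≤ 1`.
- `gLx f1 ε 0 y → Re(f1'/f1)(iy)` uniformly for `|y| ≤ W` (`‖f1(iy)‖ ≥ c > 0` by compactness), so the right side of `det_reg` tends to `∫ b Re(f1'/f1)`.
- `(gL f1 ε + 2 gL f2 ε)(-R0,y) = log √(‖f1‖²+ε²) + 2 log √(‖f2‖²+ε²) ≤ log c1 - 1 + √(‖f1‖²+ε²)(‖f2‖²+ε²)/c1` (`log u ≤ u - 1` for `u/c1`), and the last function converges uniformly to `‖G‖/c1`.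
- `gL f1 ε + 2 gL f2 ε → log ‖G‖` at every point with `G ≠ 0`, i.e. almost everywhere on the rectangle (`f1`, `f2` are analytic and not identically zero on the connected set `QW W`; the zeros of an analytic function which is not identically zero on a convex open neighbourhood form a countable set: `AnalyticOnNhd.eqOn_zero_of_preconnected_of_frequently_eq_zero`, or finitely many in a compact set; countable sets are null).
 Domination: `log‖G‖ ≤ gL f1 ε + 2 gL f2 ε ≤ C` (`ε ≤ 1`, `‖f1‖,‖f2‖` bounded on the compact rectangle), so `|gL f1 ε + 2 gL f2 ε| ≤ |log‖G‖| + C`; times `|Lh|` it is integrable since the lower integral of `|log‖G‖| |Lh|` is finite. The same for `gL f1 ε` and `|log‖f1‖ - κ| |Lp|`. Dominated convergence in the double integrals (go to `∫ z in rectangle` over `ℂ` with `Complex.volume_preserving_equiv_real_prod`).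
- `∫∫_{x>0} Lp = 0` (`Lp_int0`) allows to subtract `κ`.
Limit inequality: `-∫ b Re(f1'/f1) ≤ (1/R0)[(log c1 - 1) be0 W + (1/c1)∫ b‖G(-R0+iy)‖ + ∫∫ |log‖G‖||Lh|] + ∫∫ |log‖f1‖ - κ||Lp|`. -/

set_option autoImplicit false

namespace Pool.Agent.LB

open Complex MeasureTheory Finset Pool.Agent.GH Pool.Agent.UH Pool.Agent.UV
open scoped Real ComplexConjugate

/-- a rectangle -/
private def A5_S (a b W : ℝ) : Set ℂ := {z : ℂ | a ≤ z.re ∧ z.re ≤ b ∧ |z.im| ≤ W}

private lemma A5_S_eq (a b W : ℝ) :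
    A5_S a b W = Complex.measurableEquivRealProd ⁻¹' (Set.Icc a b ×ˢ Set.Icc (-W) W) := by
  ext z
  simp only [A5_S, Set.mem_ofPred_eq, Set.mem_preimage, Set.mem_prod, Set.mem_Icc,
    Complex.measurableEquivRealProd_apply, abs_le]
  tauto

private lemma A5_S_eq2 (a b W : ℝ) : A5_S a b W = Set.Icc a b ×ℂ Set.Icc (-W) W := by
  ext z
  rw [Complex.mem_reProdIm, Set.mem_Icc, Set.mem_Icc, ← abs_le]
  simp only [A5_S, Set.mem_ofPred_eq]
  tauto

private lemma A5_S_meas (a b W : ℝ) : MeasurableSet (A5_S a b W) := by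
  rw [A5_S_eq]
  exact Complex.measurableEquivRealProd.measurable (measurableSet_Icc.prod measurableSet_Icc)

private lemma A5_S_cpt (a b W : ℝ) : IsCompact (A5_S a b W) := by
  rw [A5_S_eq2]
  exact isCompact_Icc.reProdIm isCompact_Icc

private lemma A5_S_conv (a b W : ℝ) : Convex ℝ (A5_S a b W) := by
  have h1 : A5_S a b W = ({z : ℂ | a ≤ z.re} ∩ {z : ℂ | z.re ≤ b}) ∩
      ({z : ℂ | -W ≤ z.im} ∩ {z : ℂ | z.im ≤ W}) := by
    ext z
    simp only [A5_S, Set.mem_ofPred_eq, Set.mem_inter_iff, abs_le]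
    tauto
  rw [h1]
  exact ((convex_halfSpace_re_ge a).inter (convex_halfSpace_re_le b)).inter
    ((convex_halfSpace_im_ge (-W)).inter (convex_halfSpace_im_le W))

private lemma A5_dbl {a b W : ℝ} (hab : a ≤ b) (hW : 0 ≤ W) {F : ℝ → ℝ → ℝ}
    (hF : ContinuousOn (fun q : ℝ × ℝ => F q.1 q.2) (Set.Icc a b ×ˢ Set.Icc (-W) W)) :
    ∫ y in (-W)..W, ∫ x in a..b, F x y = ∫ z in A5_S a b W, F z.re z.im := by
  have hi : IntegrableOn (fun q : ℝ × ℝ => F q.1 q.2) (Set.Icc a b ×ˢ Set.Icc (-W) W) :=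
    hF.integrableOn_compact (isCompact_Icc.prod isCompact_Icc)
  have h1 : ∫ z in A5_S a b W, F z.re z.im =
      ∫ q in Set.Icc a b ×ˢ Set.Icc (-W) W, (fun q : ℝ × ℝ => F q.1 q.2) q := by
    rw [A5_S_eq, ← Complex.volume_preserving_equiv_real_prod.setIntegral_preimage_emb
      Complex.measurableEquivRealProd.measurableEmbedding]
    rfl
  rw [h1, Measure.volume_eq_prod, setIntegral_prod _ hi, intervalIntegral.integral_of_le (by linarith),
    ← integral_Icc_eq_integral_Ioc]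
  have h2 : ∀ y : ℝ, ∫ x in a..b, F x y = ∫ x in Set.Icc a b, F x y := by
    intro y
    rw [intervalIntegral.integral_of_le hab, ← integral_Icc_eq_integral_Ioc]
  simp_rw [h2]
  refine (integral_integral_swap (f := fun x y => F x y) ?_).symm
  rw [Measure.prod_restrict, ← Measure.volume_eq_prod]
  exact hi

private lemma A5_ae {f : ℂ → ℂ} {a b W : ℝ} (hf : AnalyticOnNhd ℂ f (A5_S a b W))
    (h : ∃ z ∈ A5_S a b W, f z ≠ 0) : ∀ᵐ z ∂(volume.restrict (A5_S a b W)), f z ≠ 0 := by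
  obtain ⟨z, hz, hfz⟩ := h
  have h1 := hf.preimage_zero_mem_codiscreteWithin hfz hz
    ⟨⟨z, hz⟩, (A5_S_conv a b W).isPreconnected⟩
  exact ae_restrict_le_codiscreteWithin (A5_S_meas a b W) h1

private lemma A5_gL (f : ℂ → ℂ) (ε : ℝ) (z : ℂ) :
    gL f ε z.re z.im = 1 / 2 * Real.log (‖f z‖ ^ 2 + ε ^ 2) := by
  unfold gL
  rw [Complex.re_add_im]

private lemma A5_gL_ge {f : ℂ → ℂ} {ε : ℝ} {z : ℂ} (hz : f z ≠ 0) :
    Real.log ‖f z‖ ≤ gL f ε z.re z.im := by
  rw [A5_gL]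
  have h1 : 0 < ‖f z‖ := norm_pos_iff.2 hz
  have h2 : Real.log (‖f z‖ ^ 2) ≤ Real.log (‖f z‖ ^ 2 + ε ^ 2) :=
    Real.log_le_log (by positivity) (by nlinarith [sq_nonneg ε])
  rw [Real.log_pow] at h2
  push_cast at h2
  linarith

private lemma A5_gL_le {f : ℂ → ℂ} {ε M : ℝ} {z : ℂ} (hε : 0 < ε) (hε1 : ε ≤ 1) (hM : ‖f z‖ ≤ M) :
    gL f ε z.re z.im ≤ M ^ 2 := by
  rw [A5_gL]
  have h0 := norm_nonneg (f z)
  have h1 : Real.log (‖f z‖ ^ 2 + ε ^ 2) ≤ (‖f z‖ ^ 2 + ε ^ 2) - 1 :=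
    Real.log_le_sub_one_of_pos (by positivity)
  have h2 : ‖f z‖ ^ 2 ≤ M ^ 2 := pow_le_pow_left₀ h0 hM 2
  nlinarith

private lemma A5_gL_lim {f : ℂ → ℂ} {z : ℂ} (hz : f z ≠ 0) {e : ℕ → ℝ}
    (he : Filter.Tendsto e Filter.atTop (nhds 0)) :
    Filter.Tendsto (fun n => gL f (e n) z.re z.im) Filter.atTop (nhds (Real.log ‖f z‖)) := by
  have h1 : 0 < ‖f z‖ := norm_pos_iff.2 hz
  have h2 : Filter.Tendsto (fun n => ‖f z‖ ^ 2 + e n ^ 2) Filter.atTop (nhds (‖f z‖ ^ 2 + 0 ^ 2)) :=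
    (he.pow 2).const_add _
  rw [zero_pow two_ne_zero, add_zero] at h2
  have h3 := (h2.log (by positivity)).const_mul (1 / 2)
  rw [Real.log_pow] at h3
  have h4 : 1 / 2 * (((2 : ℕ) : ℝ) * Real.log ‖f z‖) = Real.log ‖f z‖ := by
    push_cast
    ring
  rw [h4] at h3
  refine h3.congr fun n => ?_
  rw [A5_gL]

private lemma A5_gL_cont {f : ℂ → ℂ} {S : Set ℂ} {ε : ℝ} (hε : 0 < ε) (hf : ContinuousOn f S) :
    ContinuousOn (fun z : ℂ => gL f ε z.re z.im) S := by
  have h1 : (fun z : ℂ => gL f ε z.re z.im) = fun z => 1 / 2 * Real.log (‖f z‖ ^ 2 + ε ^ 2) :=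
    funext fun z => A5_gL f ε z
  rw [h1]
  refine continuousOn_const.mul (ContinuousOn.log ((hf.norm.pow 2).add continuousOn_const) fun z _ => ?_)
  positivity

/-- dominated convergence on a rectangle -/
private lemma A5_lim {a b W C : ℝ} {u : ℕ → ℂ → ℝ} {u0 K : ℂ → ℝ}
    (hu : ∀ n, ContinuousOn (u n) (A5_S a b W)) (hK : ContinuousOn K (A5_S a b W))
    (hu0 : AEMeasurable u0 (volume.restrict (A5_S a b W)))
    (hb : ∀ᵐ z ∂(volume.restrict (A5_S a b W)), ∀ n, |u n z| ≤ |u0 z| + C)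
    (hl : ∀ᵐ z ∂(volume.restrict (A5_S a b W)), Filter.Tendsto (fun n => u n z) Filter.atTop (nhds (u0 z)))
    (hfin : ∫⁻ z in A5_S a b W, ENNReal.ofReal (|u0 z| * |K z|) ≠ ⊤) :
    Filter.Tendsto (fun n => ∫ z in A5_S a b W, u n z * K z) Filter.atTop
      (nhds (∫ z in A5_S a b W, u0 z * K z)) ∧
    ENNReal.ofReal |∫ z in A5_S a b W, u0 z * K z| ≤
      ∫⁻ z in A5_S a b W, ENNReal.ofReal (|u0 z| * |K z|) := by
  have hKm : AEMeasurable K (volume.restrict (A5_S a b W)) := hK.aemeasurable (A5_S_meas a b W)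
  have hKi : IntegrableOn K (A5_S a b W) := hK.integrableOn_compact (A5_S_cpt a b W)
  have hm : AEStronglyMeasurable (fun z => |u0 z| * |K z|) (volume.restrict (A5_S a b W)) :=
    (hu0.norm.mul hKm.norm).aestronglyMeasurable
  have hi : IntegrableOn (fun z => |u0 z| * |K z|) (A5_S a b W) := by
    refine ⟨hm, ?_⟩
    rw [HasFiniteIntegral, lt_top_iff_ne_top]
    have h1 : ∀ z : ℂ, ‖|u0 z| * |K z|‖ₑ = ENNReal.ofReal (|u0 z| * |K z|) := fun z =>
      Real.enorm_of_nonneg (by positivity)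
    simp_rw [h1]
    exact hfin
  constructor
  · refine tendsto_integral_of_dominated_convergence (fun z => |u0 z| * |K z| + C * |K z|) ?_ ?_ ?_ ?_
    · intro n
      exact (((hu n).aemeasurable (A5_S_meas a b W)).mul hKm).aestronglyMeasurable
    · exact hi.add (hKi.abs.const_mul C)
    · intro n
      filter_upwards [hb] with z hz
      rw [Real.norm_eq_abs, abs_mul]
      have h1 := mul_le_mul_of_nonneg_right (hz n) (abs_nonneg (K z))
      linarith
    · filter_upwards [hl] with z hz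
      exact hz.mul_const _
  · have h1 := enorm_integral_le_lintegral_enorm (μ := volume.restrict (A5_S a b W)) (fun z => u0 z * K z)
    have h2 : ‖∫ z in A5_S a b W, u0 z * K z‖ₑ = ENNReal.ofReal |∫ z in A5_S a b W, u0 z * K z| := by
      rw [← Real.enorm_abs, Real.enorm_of_nonneg (abs_nonneg _)]
    rw [h2] at h1
    refine h1.trans (le_of_eq ?_)
    refine lintegral_congr fun z => ?_
    rw [← Real.enorm_abs, Real.enorm_of_nonneg (abs_nonneg _), abs_mul]

private lemma A5_exp (f1 f2 : ℂ → ℂ) {ε : ℝ} (hε : 0 < ε) (x y : ℝ) :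
    Real.exp (gL f1 ε x y + 2 * gL f2 ε x y) =
      Real.sqrt (‖f1 (x + y * I)‖ ^ 2 + ε ^ 2) * (‖f2 (x + y * I)‖ ^ 2 + ε ^ 2) := by
  have h1 : 0 < ‖f1 (x + y * I)‖ ^ 2 + ε ^ 2 := by positivity
  have h2 : 0 < ‖f2 (x + y * I)‖ ^ 2 + ε ^ 2 := by positivity
  rw [Real.exp_add]
  unfold gL
  congr 1
  · rw [Real.sqrt_eq_rpow, Real.rpow_def_of_pos h1, mul_comm]
  · have h3 : 2 * (1 / 2 * Real.log (‖f2 (x + y * I)‖ ^ 2 + ε ^ 2)) =
        Real.log (‖f2 (x + y * I)‖ ^ 2 + ε ^ 2) := by ring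
    rw [h3, Real.exp_log h2]

private lemma A5_tan {t c : ℝ} (hc : 0 < c) : t ≤ Real.log c - 1 + Real.exp t / c := by
  have h1 := Real.add_one_le_exp (t - Real.log c)
  rw [Real.exp_sub, Real.exp_log hc] at h1
  linarith

private lemma A5_gL_cont2 {f : ℂ → ℂ} {a b W ε : ℝ} (hε : 0 < ε) (hf : ContinuousOn f (A5_S a b W)) :
    ContinuousOn (fun q : ℝ × ℝ => gL f ε q.1 q.2) (Set.Icc a b ×ˢ Set.Icc (-W) W) := by
  have h1 : ContinuousOn (fun q : ℝ × ℝ => f ((q.1 : ℂ) + q.2 * I)) (Set.Icc a b ×ˢ Set.Icc (-W) W) := by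
    refine hf.comp (f := fun q : ℝ × ℝ => (q.1 : ℂ) + q.2 * I) (by fun_prop) ?_
    intro q hq
    have k1 : ((q.1 : ℂ) + q.2 * I).re = q.1 := by simp
    have k2 : ((q.1 : ℂ) + q.2 * I).im = q.2 := by simp
    refine ⟨?_, ?_, ?_⟩
    · rw [k1]; exact hq.1.1
    · rw [k1]; exact hq.1.2
    · rw [k2]; exact abs_le.2 hq.2
  unfold gL
  refine continuousOn_const.mul (ContinuousOn.log ((h1.norm.pow 2).add continuousOn_const) fun z _ => ?_)
  positivity

private lemma A5_curve {g : ℂ → ℂ} {W x : ℝ} (hg : AnalyticOnNhd ℂ g (QW W)) (hx : -R0 ≤ x) (hxW : x ≤ W) :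
    ContinuousOn (fun y : ℝ => g (x + y * I)) (Set.Icc (-W) W) := by
  intro y hy
  refine ContinuousAt.continuousWithinAt ?_
  refine ContinuousAt.comp (f := fun y : ℝ => (x : ℂ) + y * I) (g := g) ?_ (by fun_prop)
  refine (hg _ ?_).continuousAt
  have h1 : ((x : ℂ) + y * I).re = x := by simp
  have h2 : ((x : ℂ) + y * I).im = y := by simp
  refine ⟨?_, ?_, ?_⟩
  · rw [h1]; exact hx
  · rw [h1]; exact hxW
  · rw [h2]; exact abs_le.2 hy

theorem det_ineq {f1 f2 : ℂ → ℂ} {B W c1 κ : ℝ} (hB : 1 ≤ B) (hW : 8 * B ≤ W) (hc : 0 < c1)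
    (hf1 : AnalyticOnNhd ℂ f1 (QW W)) (hf2 : AnalyticOnNhd ℂ f2 (QW W))
    (h1 : ∀ y : ℝ, |y| ≤ W → f1 (y * I) ≠ 0) (h2 : ∃ z ∈ QW W, f2 z ≠ 0) :
    ENNReal.ofReal (-(∫ y in (-W)..W, bu (y / W) * (deriv f1 (y * I) / f1 (y * I)).re) -
      1 / R0 * ((Real.log c1 - 1) * (be0 * W))) ≤
    ENNReal.ofReal (1 / (R0 * c1)) * (∫⁻ y in Set.Icc (-W) W,
        ENNReal.ofReal (bu (y / W) * ‖f1 (-(R0 : ℂ) + y * I) * f2 (-(R0 : ℂ) + y * I) ^ 2‖)) +
    ENNReal.ofReal (1 / R0) * (∫⁻ z in QW W,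
        ENNReal.ofReal (|Real.log ‖f1 z * f2 z ^ 2‖| * |Lh B W z.re z.im|)) +
    ∫⁻ z in {z : ℂ | 0 ≤ z.re ∧ z.re ≤ W ∧ |z.im| ≤ W},
        ENNReal.ofReal (|Real.log ‖f1 z‖ - κ| * |Lp W z.re z.im|) := by
  have hR : 0 < R0 := by unfold R0; norm_num
  have hW0 : 0 < W := by linarith
  have hRc : (((-R0 : ℝ)) : ℂ) = -(R0 : ℂ) := by push_cast; rfl
  have hb1 : Continuous fun y : ℝ => bu (y / W) := bu_contDiff.continuous.comp (by fun_prop)
  -- trivial cases
  by_cases hI2 : ∫⁻ z in QW W, ENNReal.ofReal (|Real.log ‖f1 z * f2 z ^ 2‖| * |Lh B W z.re z.im|) = ⊤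
  · rw [hI2, ENNReal.mul_top (by simpa using hR)]
    simp
  by_cases hI3 : ∫⁻ z in {z : ℂ | 0 ≤ z.re ∧ z.re ≤ W ∧ |z.im| ≤ W},
        ENNReal.ofReal (|Real.log ‖f1 z‖ - κ| * |Lp W z.re z.im|) = ⊤
  · rw [hI3]
    simp
  have hQ : QW W = A5_S (-R0) W W := rfl
  have hsub : A5_S 0 W W ⊆ A5_S (-R0) W W := fun z hz => ⟨by linarith [hz.1], hz.2⟩
  have c1c : ContinuousOn f1 (QW W) := fun z hz => (hf1 z hz).continuousAt.continuousWithinAt
  have c2c : ContinuousOn f2 (QW W) := fun z hz => (hf2 z hz).continuousAt.continuousWithinAt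
  obtain ⟨M1, hM1⟩ := (A5_S_cpt (-R0) W W).exists_bound_of_continuousOn (hQ ▸ c1c)
  obtain ⟨M2, hM2⟩ := (A5_S_cpt (-R0) W W).exists_bound_of_continuousOn (hQ ▸ c2c)
  obtain ⟨e, hedef⟩ : ∃ e : ℕ → ℝ, e = fun n : ℕ => 1 / ((n : ℝ) + 1) := ⟨_, rfl⟩
  have he : Filter.Tendsto e Filter.atTop (nhds 0) := by
    rw [hedef]
    exact tendsto_one_div_add_atTop_nhds_zero_nat
  have he0 : ∀ n, 0 < e n := by
    intro n
    rw [hedef]
    positivity
  have he1 : ∀ n, e n ≤ 1 := by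
    intro n
    rw [hedef]
    beta_reduce
    rw [div_le_one (by positivity)]
    linarith [Nat.cast_nonneg (α := ℝ) n]
  have ae1 : ∀ᵐ z ∂(volume.restrict (A5_S (-R0) W W)), f1 z ≠ 0 := by
    refine A5_ae (hQ ▸ hf1) ⟨0, ⟨by simp [hR.le], by simp [hW0.le], by simp [hW0.le]⟩, ?_⟩
    have := h1 0 (by simp [hW0.le])
    simpa using this
  have ae2 : ∀ᵐ z ∂(volume.restrict (A5_S (-R0) W W)), f2 z ≠ 0 := A5_ae (hQ ▸ hf2) h2
  -- the middle term
  have hKB : ContinuousOn (fun z : ℂ => Lh B W z.re z.im) (A5_S (-R0) W W) := by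
    refine Continuous.continuousOn ?_
    exact (Lh_continuous B W).comp (Complex.continuous_re.prodMk Complex.continuous_im)
  have LB := A5_lim (a := -R0) (b := W) (W := W) (C := M1 ^ 2 + 2 * M2 ^ 2)
    (u := fun n z => gL f1 (e n) z.re z.im + 2 * gL f2 (e n) z.re z.im)
    (u0 := fun z => Real.log ‖f1 z * f2 z ^ 2‖) (K := fun z => Lh B W z.re z.im)
    (fun n => (A5_gL_cont (he0 n) (hQ ▸ c1c)).add (continuousOn_const.mul (A5_gL_cont (he0 n) (hQ ▸ c2c))))
    hKB ?_ ?_ ?_ (hQ ▸ hI2)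
  rotate_left
  · have hG : ContinuousOn (fun z => f1 z * f2 z ^ 2) (A5_S (-R0) W W) :=
      hQ ▸ (c1c.mul (c2c.pow 2))
    exact (hG.aemeasurable (A5_S_meas _ _ _)).norm.log
  · filter_upwards [ae1, ae2, ae_restrict_mem (A5_S_meas (-R0) W W)] with z g1 g2 hz n
    have k1 := A5_gL_ge (ε := e n) g1
    have k2 := A5_gL_ge (ε := e n) g2
    have k3 := A5_gL_le (he0 n) (he1 n) (hM1 z hz)
    have k4 := A5_gL_le (he0 n) (he1 n) (hM2 z hz)
    have k5 : Real.log ‖f1 z * f2 z ^ 2‖ = Real.log ‖f1 z‖ + 2 * Real.log ‖f2 z‖ := by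
      rw [norm_mul, norm_pow, Real.log_mul (norm_ne_zero_iff.2 g1) (pow_ne_zero _ (norm_ne_zero_iff.2 g2)),
        Real.log_pow]
      push_cast
      ring
    have k6 := neg_abs_le (Real.log ‖f1 z * f2 z ^ 2‖)
    have k7 := abs_nonneg (Real.log ‖f1 z * f2 z ^ 2‖)
    rw [abs_le]
    constructor
    · nlinarith [sq_nonneg M1, sq_nonneg M2]
    · linarith
  · filter_upwards [ae1, ae2] with z g1 g2
    have k5 : Real.log ‖f1 z * f2 z ^ 2‖ = Real.log ‖f1 z‖ + 2 * Real.log ‖f2 z‖ := by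
      rw [norm_mul, norm_pow, Real.log_mul (norm_ne_zero_iff.2 g1) (pow_ne_zero _ (norm_ne_zero_iff.2 g2)),
        Real.log_pow]
      push_cast
      ring
    rw [k5]
    exact (A5_gL_lim g1 he).add ((A5_gL_lim g2 he).const_mul 2)
  obtain ⟨LB1, LB2⟩ := LB
  -- the last term
  have hKA : ContinuousOn (fun z : ℂ => Lp W z.re z.im) (A5_S 0 W W) := by
    refine Continuous.continuousOn ?_
    exact (Lp_continuous W).comp (Complex.continuous_re.prodMk Complex.continuous_im)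
  have c1c' : ContinuousOn f1 (A5_S 0 W W) := (hQ ▸ c1c : ContinuousOn f1 (A5_S (-R0) W W)).mono hsub
  have ae1' : ∀ᵐ z ∂(volume.restrict (A5_S 0 W W)), f1 z ≠ 0 :=
    ae_restrict_of_ae_restrict_of_subset hsub ae1
  have LA := A5_lim (a := 0) (b := W) (W := W) (C := M1 ^ 2 + |κ|)
    (u := fun n z => gL f1 (e n) z.re z.im - κ)
    (u0 := fun z => Real.log ‖f1 z‖ - κ) (K := fun z => Lp W z.re z.im)
    (fun n => (A5_gL_cont (he0 n) c1c').sub continuousOn_const)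
    hKA ?_ ?_ ?_ hI3
  rotate_left
  · exact (c1c'.aemeasurable (A5_S_meas _ _ _)).norm.log.sub_const κ
  · filter_upwards [ae1', ae_restrict_mem (A5_S_meas 0 W W)] with z g1 hz n
    have k1 := A5_gL_ge (ε := e n) g1
    have k3 := A5_gL_le (he0 n) (he1 n) (hM1 z (hsub hz))
    have k6 := neg_abs_le (Real.log ‖f1 z‖ - κ)
    have k7 := abs_nonneg (Real.log ‖f1 z‖ - κ)
    have k8 := neg_abs_le κ
    have k9 := le_abs_self κ
    rw [abs_le]
    constructor
    · nlinarith [sq_nonneg M1]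
    · linarith
  · filter_upwards [ae1'] with z g1
    exact (A5_gL_lim g1 he).sub_const κ
  obtain ⟨LA1, LA2⟩ := LA
  have hLp0 : ∫ z in A5_S 0 W W, Lp W z.re z.im = 0 := by
    rw [← A5_dbl hW0.le hW0.le (Lp_continuous W).continuousOn]
    exact Lp_int0 hW0
  -- the left edge
  obtain ⟨N, hN⟩ : ∃ N : ℕ → ℝ → ℝ, N = fun (n : ℕ) (y : ℝ) =>
    Real.exp (gL f1 (e n) (-R0) y + 2 * gL f2 (e n) (-R0) y) := ⟨_, rfl⟩
  have hl1 : ContinuousOn (fun y : ℝ => f1 (((-R0 : ℝ) : ℂ) + y * I)) (Set.Icc (-W) W) :=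
    A5_curve hf1 le_rfl (by linarith)
  have hl2 : ContinuousOn (fun y : ℝ => f2 (((-R0 : ℝ) : ℂ) + y * I)) (Set.Icc (-W) W) :=
    A5_curve hf2 le_rfl (by linarith)
  have hQl : ∀ y ∈ Set.Icc (-W) W, ((-R0 : ℝ) : ℂ) + y * I ∈ A5_S (-R0) W W := by
    intro y hy
    have k1 : (((-R0 : ℝ) : ℂ) + y * I).re = -R0 := by simp
    have k2 : (((-R0 : ℝ) : ℂ) + y * I).im = y := by simp
    refine ⟨?_, ?_, ?_⟩
    · rw [k1]
    · rw [k1]; linarith
    · rw [k2]; exact abs_le.2 hy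
  have hgc : ∀ n, ContinuousOn (fun y : ℝ => gL f1 (e n) (-R0) y + 2 * gL f2 (e n) (-R0) y)
      (Set.Icc (-W) W) := by
    intro n
    have k1 : ∀ f : ℂ → ℂ, ContinuousOn (fun y : ℝ => f (((-R0 : ℝ) : ℂ) + y * I)) (Set.Icc (-W) W) →
        ContinuousOn (fun y : ℝ => gL f (e n) (-R0) y) (Set.Icc (-W) W) := by
      intro f hf
      unfold gL
      refine continuousOn_const.mul (ContinuousOn.log ((hf.norm.pow 2).add continuousOn_const) fun z _ => ?_)
      have := he0 n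
      positivity
    exact (k1 f1 hl1).add (continuousOn_const.mul (k1 f2 hl2))
  have hNc : ∀ n, ContinuousOn (N n) (Set.Icc (-W) W) := by
    intro n
    rw [hN]
    exact (hgc n).rexp
  have huI : Set.uIcc (-W) W = Set.Icc (-W) W := Set.uIcc_of_le (by linarith)
  have hCn : ∀ n, ∫ y in (-W)..W, bu (y / W) * (gL f1 (e n) (-R0) y + 2 * gL f2 (e n) (-R0) y) ≤
      (Real.log c1 - 1) * (be0 * W) + 1 / c1 * ∫ y in (-W)..W, bu (y / W) * N n y := by
    intro n
    have k1 : (Real.log c1 - 1) * (be0 * W) + 1 / c1 * ∫ y in (-W)..W, bu (y / W) * N n y =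
        ∫ y in (-W)..W, ((Real.log c1 - 1) * bu (y / W) + 1 / c1 * (bu (y / W) * N n y)) := by
      rw [intervalIntegral.integral_add, intervalIntegral.integral_const_mul,
        intervalIntegral.integral_const_mul, be0_scale hW0]
      · exact (continuous_const.mul hb1).intervalIntegrable _ _
      · refine ContinuousOn.intervalIntegrable ?_
        rw [huI]
        exact continuousOn_const.mul (hb1.continuousOn.mul (hNc n))
    rw [k1]
    refine intervalIntegral.integral_mono_on (by linarith) ?_ ?_ ?_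
    · refine ContinuousOn.intervalIntegrable ?_
      rw [huI]
      exact hb1.continuousOn.mul (hgc n)
    · refine ContinuousOn.intervalIntegrable ?_
      rw [huI]
      exact (continuousOn_const.mul hb1.continuousOn).add
        (continuousOn_const.mul (hb1.continuousOn.mul (hNc n)))
    · intro y _
      have k2 := A5_tan (t := gL f1 (e n) (-R0) y + 2 * gL f2 (e n) (-R0) y) hc
      have k3 := mul_le_mul_of_nonneg_left k2 (bu_mem (y / W)).1
      refine k3.trans (le_of_eq ?_)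
      rw [hN]
      ring
  have hNl : Filter.Tendsto (fun n => ∫ y in (-W)..W, bu (y / W) * N n y) Filter.atTop
      (nhds (∫ y in (-W)..W, bu (y / W) * ‖f1 (-(R0 : ℂ) + y * I) * f2 (-(R0 : ℂ) + y * I) ^ 2‖)) := by
    refine intervalIntegral.tendsto_integral_filter_of_dominated_convergence
      (fun _ => Real.sqrt (M1 ^ 2 + 1) * (M2 ^ 2 + 1)) ?_ ?_ intervalIntegrable_const ?_
    · refine Filter.Eventually.of_forall fun n => ?_
      refine ContinuousOn.aestronglyMeasurable ?_ measurableSet_uIoc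
      refine ContinuousOn.mono ?_ Set.uIoc_subset_uIcc
      rw [huI]
      exact hb1.continuousOn.mul (hNc n)
    · refine Filter.Eventually.of_forall fun n => Filter.Eventually.of_forall fun y hy => ?_
      have hy' : y ∈ Set.Icc (-W) W := by
        rw [← huI]
        exact Set.uIoc_subset_uIcc hy
      have m1 := hM1 _ (hQl y hy')
      have m2 := hM2 _ (hQl y hy')
      have hbm := bu_mem (y / W)
      rw [hN]
      beta_reduce
      rw [A5_exp f1 f2 (he0 n), Real.norm_eq_abs, abs_mul, abs_of_nonneg hbm.1, abs_of_nonneg (by positivity)]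
      have e1 : e n ^ 2 ≤ 1 := by
        have := he0 n
        have := he1 n
        nlinarith
      have k1 : ‖f1 (((-R0 : ℝ) : ℂ) + y * I)‖ ^ 2 ≤ M1 ^ 2 := pow_le_pow_left₀ (norm_nonneg _) m1 2
      have k2 : ‖f2 (((-R0 : ℝ) : ℂ) + y * I)‖ ^ 2 ≤ M2 ^ 2 := pow_le_pow_left₀ (norm_nonneg _) m2 2
      have k3 : Real.sqrt (‖f1 (((-R0 : ℝ) : ℂ) + y * I)‖ ^ 2 + e n ^ 2) ≤ Real.sqrt (M1 ^ 2 + 1) :=
        Real.sqrt_le_sqrt (by linarith)
      have k4 : ‖f2 (((-R0 : ℝ) : ℂ) + y * I)‖ ^ 2 + e n ^ 2 ≤ M2 ^ 2 + 1 := by linarith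
      have k5 : Real.sqrt (‖f1 (((-R0 : ℝ) : ℂ) + y * I)‖ ^ 2 + e n ^ 2) *
          (‖f2 (((-R0 : ℝ) : ℂ) + y * I)‖ ^ 2 + e n ^ 2) ≤ Real.sqrt (M1 ^ 2 + 1) * (M2 ^ 2 + 1) :=
        mul_le_mul k3 k4 (by positivity) (Real.sqrt_nonneg _)
      refine (mul_le_of_le_one_left (by positivity) hbm.2).trans k5
    · refine Filter.Eventually.of_forall fun y _ => ?_
      refine Filter.Tendsto.const_mul _ ?_
      rw [hN]
      have k1 : (fun n => Real.exp (gL f1 (e n) (-R0) y + 2 * gL f2 (e n) (-R0) y)) =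
          fun n => Real.sqrt (‖f1 (-(R0 : ℂ) + y * I)‖ ^ 2 + e n ^ 2) *
            (‖f2 (-(R0 : ℂ) + y * I)‖ ^ 2 + e n ^ 2) := by
        funext n
        rw [A5_exp f1 f2 (he0 n), hRc]
      beta_reduce
      rw [k1]
      have k2 : ‖f1 (-(R0 : ℂ) + y * I) * f2 (-(R0 : ℂ) + y * I) ^ 2‖ =
          Real.sqrt (‖f1 (-(R0 : ℂ) + y * I)‖ ^ 2 + 0 ^ 2) * (‖f2 (-(R0 : ℂ) + y * I)‖ ^ 2 + 0 ^ 2) := by
        rw [norm_mul, norm_pow, zero_pow two_ne_zero, add_zero, add_zero, Real.sqrt_sq (norm_nonneg _)]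
      rw [k2]
      exact (((he.pow 2).const_add _).sqrt).mul ((he.pow 2).const_add _)
  -- the right side
  have hz0 : ∀ y : ℝ, ((0 : ℝ) : ℂ) + y * I = y * I := by
    intro y
    simp
  have hi1 : ContinuousOn (fun y : ℝ => f1 (y * I)) (Set.Icc (-W) W) := by
    have := A5_curve (x := 0) hf1 (by linarith) hW0.le
    simp_rw [hz0] at this
    exact this
  have hi1' : ContinuousOn (fun y : ℝ => deriv f1 (y * I)) (Set.Icc (-W) W) := by
    have := A5_curve (x := 0) hf1.deriv (by linarith) hW0.le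
    simp_rw [hz0] at this
    exact this
  have hDl : Filter.Tendsto (fun n => ∫ y in (-W)..W, bu (y / W) * gLx f1 (e n) 0 y) Filter.atTop
      (nhds (∫ y in (-W)..W, bu (y / W) * (deriv f1 (y * I) / f1 (y * I)).re)) := by
    have hne : ∀ y ∈ Set.uIoc (-W) W, f1 (y * I) ≠ 0 := by
      intro y hy
      have hy' : y ∈ Set.Icc (-W) W := by
        rw [← huI]
        exact Set.uIoc_subset_uIcc hy
      exact h1 y (abs_le.2 hy')
    have hgx : ∀ n y, gLx f1 (e n) 0 y = (deriv f1 (y * I) * conj (f1 (y * I))).re /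
        (‖f1 (y * I)‖ ^ 2 + e n ^ 2) := by
      intro n y
      unfold gLx
      rw [hz0]
    refine intervalIntegral.tendsto_integral_filter_of_dominated_convergence
      (fun y => ‖deriv f1 (y * I)‖ / ‖f1 (y * I)‖) ?_ ?_ ?_ ?_
    · refine Filter.Eventually.of_forall fun n => ?_
      refine ContinuousOn.aestronglyMeasurable ?_ measurableSet_uIoc
      refine ContinuousOn.mono ?_ Set.uIoc_subset_uIcc
      rw [huI]
      refine hb1.continuousOn.mul ?_
      refine ContinuousOn.congr (f := fun y : ℝ => (deriv f1 (y * I) * conj (f1 (y * I))).re /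
        (‖f1 (y * I)‖ ^ 2 + e n ^ 2)) ?_ (fun y _ => hgx n y)
      refine ContinuousOn.div ?_ ((hi1.norm.pow 2).add continuousOn_const) fun y _ => ?_
      · exact Complex.continuous_re.comp_continuousOn
          (hi1'.mul (Complex.continuous_conj.comp_continuousOn hi1))
      · have := he0 n
        positivity
    · refine Filter.Eventually.of_forall fun n => Filter.Eventually.of_forall fun y hy => ?_
      have hbm := bu_mem (y / W)
      have hp : 0 < ‖f1 (y * I)‖ := norm_pos_iff.2 (hne y hy)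
      rw [hgx n, Real.norm_eq_abs, abs_mul, abs_of_nonneg hbm.1]
      refine (mul_le_of_le_one_left (abs_nonneg _) hbm.2).trans ?_
      rw [abs_div, abs_of_pos (by positivity : 0 < ‖f1 (y * I)‖ ^ 2 + e n ^ 2)]
      have k1 : |(deriv f1 (y * I) * conj (f1 (y * I))).re| ≤ ‖deriv f1 (y * I)‖ * ‖f1 (y * I)‖ := by
        refine (Complex.abs_re_le_norm _).trans (le_of_eq ?_)
        rw [norm_mul, Complex.norm_conj]
      rw [div_le_div_iff₀ (by positivity) hp]
      have k2 : |(deriv f1 (y * I) * conj (f1 (y * I))).re| * ‖f1 (y * I)‖ ≤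
          ‖deriv f1 (y * I)‖ * ‖f1 (y * I)‖ * ‖f1 (y * I)‖ := mul_le_mul_of_nonneg_right k1 hp.le
      have k3 : 0 ≤ ‖deriv f1 (y * I)‖ * e n ^ 2 := by positivity
      nlinarith
    · refine ContinuousOn.intervalIntegrable ?_
      rw [huI]
      exact hi1'.norm.div hi1.norm fun y hy => norm_ne_zero_iff.2 (h1 y (abs_le.2 hy))
    · refine Filter.Eventually.of_forall fun y hy => ?_
      refine Filter.Tendsto.const_mul _ ?_
      refine Filter.Tendsto.congr (fun n => (hgx n y).symm) ?_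
      have hp : 0 < ‖f1 (y * I)‖ := norm_pos_iff.2 (hne y hy)
      have k1 : (deriv f1 (y * I) / f1 (y * I)).re =
          (deriv f1 (y * I) * conj (f1 (y * I))).re / (‖f1 (y * I)‖ ^ 2 + 0 ^ 2) := by
        rw [div_eq_mul_inv, Complex.inv_def, ← mul_assoc, Complex.re_mul_ofReal, Complex.normSq_eq_norm_sq,
          zero_pow two_ne_zero, add_zero, div_eq_mul_inv]
      rw [k1]
      exact tendsto_const_nhds.div ((he.pow 2).const_add _) (by positivity)
  -- the inequality before the limit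
  have hreg : ∀ n, -(∫ y in (-W)..W, bu (y / W) * gLx f1 (e n) 0 y) ≤
      -(∫ z in A5_S 0 W W, (gL f1 (e n) z.re z.im - κ) * Lp W z.re z.im) +
      1 / R0 * ((∫ z in A5_S (-R0) W W, (gL f1 (e n) z.re z.im + 2 * gL f2 (e n) z.re z.im) *
        Lh B W z.re z.im) + ((Real.log c1 - 1) * (be0 * W) + 1 / c1 * ∫ y in (-W)..W, bu (y / W) * N n y)) := by
    intro n
    have k1 := det_reg hB hW (he0 n) hf1 hf2
    have k2 := hCn n
    rw [A5_dbl hW0.le hW0.le ((A5_gL_cont2 (he0 n) c1c').mul (Lp_continuous W).continuousOn),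
      A5_dbl (by linarith) hW0.le (((A5_gL_cont2 (he0 n) (hQ ▸ c1c)).add
        (continuousOn_const.mul (A5_gL_cont2 (he0 n) (hQ ▸ c2c)))).mul (Lh_continuous B W).continuousOn)] at k1
    have k3 : ∫ z in A5_S 0 W W, (gL f1 (e n) z.re z.im - κ) * Lp W z.re z.im =
        (∫ z in A5_S 0 W W, gL f1 (e n) z.re z.im * Lp W z.re z.im) -
          κ * ∫ z in A5_S 0 W W, Lp W z.re z.im := by
      rw [← integral_const_mul, ← integral_sub]
      · refine integral_congr_ae (Filter.Eventually.of_forall fun z => ?_)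
        ring
      · exact ((A5_gL_cont (he0 n) c1c').mul hKA).integrableOn_compact (A5_S_cpt 0 W W)
      · exact (hKA.integrableOn_compact (A5_S_cpt 0 W W)).const_mul κ
    rw [hLp0, mul_zero, sub_zero] at k3
    rw [k3]
    have k4 := mul_le_mul_of_nonneg_left k2 (show 0 ≤ 1 / R0 by positivity)
    linarith
  have hlim := le_of_tendsto_of_tendsto' hDl.neg
    (LA1.neg.add ((LB1.add ((hNl.const_mul (1 / c1)).const_add ((Real.log c1 - 1) * (be0 * W)))).const_mul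
      (1 / R0))) hreg
  obtain ⟨D0, hD0⟩ : ∃ D0, D0 = ∫ y in (-W)..W, bu (y / W) * (deriv f1 (y * I) / f1 (y * I)).re := ⟨_, rfl⟩
  obtain ⟨A0, hA0⟩ : ∃ A0, A0 = ∫ z in A5_S 0 W W, (Real.log ‖f1 z‖ - κ) * Lp W z.re z.im := ⟨_, rfl⟩
  obtain ⟨B0, hB0⟩ : ∃ B0, B0 = ∫ z in A5_S (-R0) W W, Real.log ‖f1 z * f2 z ^ 2‖ * Lh B W z.re z.im :=
    ⟨_, rfl⟩
  obtain ⟨N0, hN0⟩ : ∃ N0, N0 = ∫ y in (-W)..W, bu (y / W) *
    ‖f1 (-(R0 : ℂ) + y * I) * f2 (-(R0 : ℂ) + y * I) ^ 2‖ := ⟨_, rfl⟩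
  rw [← hD0, ← hA0, ← hB0, ← hN0] at hlim
  rw [← hA0] at LA2
  rw [← hB0] at LB2
  rw [← hD0]
  have hN0' : ENNReal.ofReal N0 = ∫⁻ y in Set.Icc (-W) W,
      ENNReal.ofReal (bu (y / W) * ‖f1 (-(R0 : ℂ) + y * I) * f2 (-(R0 : ℂ) + y * I) ^ 2‖) := by
    rw [hN0, intervalIntegral.integral_of_le (by linarith), ← integral_Icc_eq_integral_Ioc]
    refine ofReal_integral_eq_lintegral_ofReal ?_ (Filter.Eventually.of_forall fun y => ?_)
    · refine ContinuousOn.integrableOn_Icc ?_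
      refine hb1.continuousOn.mul ?_
      rw [hRc] at hl1 hl2
      exact (hl1.mul (hl2.pow 2)).norm
    · exact mul_nonneg (bu_mem _).1 (norm_nonneg _)
  have hfinal : -D0 - 1 / R0 * ((Real.log c1 - 1) * (be0 * W)) ≤
      1 / (R0 * c1) * N0 + 1 / R0 * |B0| + |A0| := by
    have k1 := neg_abs_le A0
    have k2 := le_abs_self B0
    have k3 := mul_le_mul_of_nonneg_left k2 (show 0 ≤ 1 / R0 by positivity)
    have k4 : 1 / (R0 * c1) * N0 = 1 / R0 * (1 / c1 * N0) := by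
      field_simp
    rw [k4]
    linarith
  refine (ENNReal.ofReal_le_ofReal hfinal).trans ?_
  refine ENNReal.ofReal_add_le.trans ?_
  refine add_le_add (ENNReal.ofReal_add_le.trans (add_le_add ?_ ?_)) LA2
  · rw [ENNReal.ofReal_mul (by positivity), hN0']
  · rw [ENNReal.ofReal_mul (by positivity)]
    exact mul_le_mul_right LB2 _

end Pool.Agent.LB
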