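import Pool.Agent.Lib.MP_69b2e4_nt.LB.F3

/-! More definitions for the sharp second moment (campaign LB). This file is complete (NOT a task). `b = true` is the part `y > -(9/20) log T`, `b = false` the part `y > (9/20) log T`. -/

set_option autoImplicit false

namespace Pool.Agent.LB

open Complex MeasureTheory Finset Pool.Agent.GH Pool.Agent.UH Pool.Agent.UV
open scoped Real ComplexConjugate

/-- The coefficients of `(c MO 0 + d MO 1) RT`. -/
noncomputable def be (T : ℝ) (r : ℕ → ℝ) (c d : ℝ) (n : ℕ) : ℝ := c * bt 0 T r n + d * bt 1 T r n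

/-- The smoothness bound. -/
noncomputable def M2 (T : ℝ) : ℕ := ⌊T ^ 2⌋₊

/-- The coefficient at the positive rational number `ρ`. -/
noncomputable def Sc (b : Bool) (T : ℝ) (r : ℕ → ℝ) (c d : ℝ) (ρ : ℚ) : ℂ :=
  fcs (Fb b T) (wb (be T r c d)) ρ

/-- The summand of `LS`. -/
noncomputable def lS (b : Bool) (T : ℝ) (r : ℕ → ℝ) (c d : ℝ) (Ψ : ℝ → ℝ) (ρ : ℚ) : ℝ :=
  if 0 < ρ then (ρ : ℝ)⁻¹ * Ψ (Real.log ρ / Real.log T) * ‖Sc b T r c d ρ‖ ^ 2 else 0

/-- The weighted sum of the squares of the coefficients. -/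
noncomputable def LS (b : Bool) (T : ℝ) (r : ℕ → ℝ) (c d : ℝ) (Ψ : ℝ → ℝ) : ℝ :=
  ∑' ρ : ℚ, lS b T r c d Ψ ρ

/-- The integral of one piece of the Gaussian. -/
noncomputable def Jp (T η1 η2 ρ : ℝ) : ℝ :=
  ∫ x in (T ^ η1)..(T ^ η2), 4 * Real.exp (-2 * π * (ρ * x) ^ 2 * Real.sin (1 / T))

/-- The left end of the range. -/
noncomputable def e0 (b : Bool) : ℝ := if b then -(9 / 20) else 9 / 20

/-- The end points of the pieces: `e0 b + m/(20 n)`, `m ≤ nP b n`; the last one is `1`. -/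
noncomputable def em (b : Bool) (n m : ℕ) : ℝ := e0 b + m / (20 * n)

/-- The number of the pieces. -/
def nP (b : Bool) (n : ℕ) : ℕ := if b then 29 * n else 11 * n

/-! ### The Euler products -/

/-- `p^{-1/2-α/log T}`. -/
noncomputable def yv (α T : ℝ) (p : ℕ) : ℝ := (p : ℝ) ^ (-(1 / 2 + α / Real.log T) : ℝ)

/-- The coefficient of the mollifier factor, shift `± α/log T`, `s0 = α + 1`. -/
noncomputable def bb (b : Bool) (α T ξ : ℝ) (p : ℕ) : ℂ :=
  bz (α + 1) T ξ ((sgn b * α / Real.log T : ℝ) : ℂ) p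

/-- The expectation of one factor. -/
noncomputable def Gp (b : Bool) (α T ξ1 ξ2 : ℝ) (p : ℕ) : ℂ :=
  1 + (yv α T p - bb b α T ξ1 p) * (yv α T p - conj (bb b α T ξ2 p)) / (1 - yv α T p ^ 2)

/-- The expectation over the primes of the blocks. -/
noncomputable def PhP (S : BS) (lam : ℝ) (b : Bool) (α ξ1 ξ2 : ℝ) : ℂ :=
  ∫ w, (((‖Zt S.P (1 / 2 + α / Real.log S.T) w‖ ^ 2 *
      ‖RT S lam (nX ((sgn b * α / Real.log S.T : ℝ) : ℂ) w)‖ ^ 2 : ℝ)) : ℂ) *
    ((∏ p ∈ S.P, (1 - bb b α S.T ξ1 p * X p w)) *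
      conj (∏ p ∈ S.P, (1 - bb b α S.T ξ2 p * X p w))) ∂mu

/-- The exponent `β` in the scale `1/log T`. -/
noncomputable def bx (b : Bool) (α ξ : ℝ) : ℂ := sgn b * α + α + 1 - 2 * π * ξ * I

/-- The limit of the Euler products. -/
noncomputable def Gl (b : Bool) (α ξ1 ξ2 : ℝ) : ℂ :=
  (α + bx b α ξ1) * (α + conj (bx b α ξ2)) / (2 * α * (bx b α ξ1 + conj (bx b α ξ2)))

/-! ### The constants -/

/-- The three weights of the quadratic form `‖(1 + sgn (1-2v)) A + 2B‖²`. -/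
noncomputable def Ps1 (b : Bool) (v : ℝ) : ℝ := Ps b v * (1 + sgn b * (1 - 2 * v)) ^ 2

noncomputable def Ps2 (b : Bool) (v : ℝ) : ℝ := Ps b v * (1 + sgn b * (1 - 2 * v))

/-- The value of the quadratic form. -/
noncomputable def Qc (b : Bool) : ℝ :=
  Mu b 1 0 (Ps1 b) + Mu b 1 1 (Ps2 b) - Mu b 1 (-1) (Ps2 b) + 4 * Mu b 0 1 (Ps b)

end Pool.Agent.LB
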