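import Pool.Agent.Lib.MP_69b2e4_nt.LB.C0
import Pool.Agent.Lib.MP_69b2e4_nt.Mg.G038

/-! TASK C4. Reassembly of the pieces, pointwise in `ρ` (pure analysis). `L = log T`, `s = sin(1/T) ≤ 1/T`, `T s → 1`, `v = log ρ/L ≥ -1/2`, `h = 1/(20n)`, `η_m = em b n m`, `J_m = Jp T η_m η_{m+1} ρ ≥ 0`.
`Jp_total`: `∑_m J_m = Jp T (e0 b) 1 ρ ≤ ∫_0^∞ 4 e^{-2π(ρx)² s} dx = √2/(ρ √s)`; and `√2/(ρ√s) ≤ (1+κ) √2 √T/ρ` for `T ≥ T0(κ)`.
Tails (`T ≥ T0(n)`): (a) if `T^{η_m} ≥ T^{1/2 + 1/1000}/ρ` then `J_m ≤ ∫_{T^{η_m}}^∞ 4e^{-2π(ρx)²s} dx ≤ (1/ρ) ∫_{T^{501/1000}}^∞ 4 e^{-π u²/T} du ≤ √T ρ^{-1} e^{-T^{1/1000}}`; (b) the same with the exponent `h/2` in place of `1/1000`: if `η_m ≥ 1/2 - v + h/2`; (c) if `η_{m+1} ≤ 1/2 - v - h/2` then `J_m ≤ 4 T^{η_{m+1}} ≤ 4 √T ρ^{-1} T^{-h/2}`.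
Case `v ≥ 953/1000` (`b = true`) resp. `v ≥ 53/1000` (`b = false`): `e0 b + v ≥ 503/1000`, all pieces are of type (a): the left side is at most `C(‖A‖²+‖B‖²) √T ρ^{-1} · (number of pieces) e^{-T^{1/1000}}`; `Ps ≥ 0`.
Case `v` smaller: `cu b v = 1` (`500·(2/1000) = 1`), `Ps b v = e^{-2R0 sgn (1/2 - v)}`. The pieces with `|η_m - (1/2 - v)| ≤ 2h` (the others are of type (b) or (c)): `‖(1+2 sgn η_m)A + 2B‖ ≤ ‖(1 + sgn(1-2v))A + 2B‖ + 4h‖A‖` (`2η_m` versus `1-2v`), squares: `≤ (1+κ)‖..‖² + (1+1/κ)16h²‖A‖²`; `e^{-2R0 sgn η_m} ≤ e^{4R0h} Ps b v`, and `∑ J_m ≤ (1+κ)√2√T/ρ`. `Ps b v ≤ e^{4}`-like bound (`v ∈ [-1/2, 1]`), so for given `ε` choose `κ`, then `n`, then `T0`. -/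

set_option autoImplicit false

namespace Pool.Agent.LB

open Complex MeasureTheory Finset Pool.Agent.GH Pool.Agent.UH Pool.Agent.UV
open scoped Real ComplexConjugate

private theorem C4_gauss {a K u w : ℝ} (ha : 0 < a) (hK : 0 ≤ K) (h : π ≤ a * K ^ 2)
    (hu : 0 ≤ u) (huw : u ≤ w) : ∫ x in u..w, 4 * Real.exp (-a * x ^ 2) ≤ 2 * K := by
  have hint : IntegrableOn (fun x : ℝ => 4 * Real.exp (-a * x ^ 2)) (Set.Ioi 0) :=
    ((integrable_exp_neg_mul_sq ha).const_mul 4).integrableOn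
  rw [intervalIntegral.integral_of_le huw]
  calc ∫ x in Set.Ioc u w, 4 * Real.exp (-a * x ^ 2)
      ≤ ∫ x in Set.Ioi (0 : ℝ), 4 * Real.exp (-a * x ^ 2) := by
        refine setIntegral_mono_set hint ?_ ?_
        · exact Filter.Eventually.of_forall fun x => by positivity
        · exact (Set.Ioc_subset_Ioi_self.trans (Set.Ioi_subset_Ioi hu)).eventuallyLE
    _ = 4 * (√(π / a) / 2) := by rw [integral_const_mul, integral_gaussian_Ioi]
    _ ≤ 2 * K := by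
        have h1 : √(π / a) ≤ K := by
          rw [Real.sqrt_le_iff]
          refine ⟨hK, ?_⟩
          rw [div_le_iff₀ ha]
          linarith
        linarith

private theorem C4_sin {T : ℝ} (hT : 1 ≤ T) : 0 < Real.sin (1 / T) ∧ 1 ≤ 2 * T * Real.sin (1 / T) := by
  have h1 := (sin_bounds hT).1
  have hT0 : 0 < T := by linarith
  have h2 : 0 < 1 / (2 * T) := by positivity
  refine ⟨by linarith, ?_⟩
  rw [div_le_iff₀ (by positivity)] at h1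
  linarith

private theorem C4_cont (T ρ : ℝ) :
    Continuous fun x : ℝ => 4 * Real.exp (-2 * π * (ρ * x) ^ 2 * Real.sin (1 / T)) := by
  fun_prop

private theorem C4_main {T η1 η2 ρ K : ℝ} (hT : 1 ≤ T) (h : η1 ≤ η2) (hρ : 0 < ρ) (hK : 0 ≤ K)
    (h1 : 1 ≤ 2 * ρ ^ 2 * Real.sin (1 / T) * K ^ 2) : Jp T η1 η2 ρ ≤ 2 * K := by
  have hT0 : 0 < T := by linarith
  have hs := (C4_sin hT).1
  have h2 : Jp T η1 η2 ρ =
      ∫ x in (T ^ η1)..(T ^ η2), 4 * Real.exp (-(2 * π * ρ ^ 2 * Real.sin (1 / T)) * x ^ 2) := by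
    unfold Jp
    congr 1
    funext x
    congr 2
    ring
  rw [h2]
  refine C4_gauss (by positivity) hK ?_ (Real.rpow_pos_of_pos hT0 _).le
    (Real.rpow_le_rpow_of_exponent_le hT h)
  have h3 := mul_le_mul_of_nonneg_left h1 Real.pi_pos.le
  linarith

private theorem C4_tail {T η1 η2 ρ q : ℝ} (hT : 1 ≤ T) (h : η1 ≤ η2) (hρ : 0 < ρ)
    (hq : q ≤ (ρ * T ^ η1) ^ 2 * Real.sin (1 / T)) :
    Jp T η1 η2 ρ ≤ Real.exp (-(π * q)) * (2 * (√2 * T ^ (1 / 2 : ℝ) / ρ)) := by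
  have hT0 : 0 < T := by linarith
  obtain ⟨hs, hs2⟩ := C4_sin hT
  have hu : 0 < T ^ η1 := Real.rpow_pos_of_pos hT0 _
  have huw : T ^ η1 ≤ T ^ η2 := Real.rpow_le_rpow_of_exponent_le hT h
  have h2 : Jp T η1 η2 ρ ≤ ∫ x in (T ^ η1)..(T ^ η2),
      Real.exp (-(π * q)) * (4 * Real.exp (-(π * ρ ^ 2 * Real.sin (1 / T)) * x ^ 2)) := by
    unfold Jp
    refine intervalIntegral.integral_mono_on huw ((C4_cont T ρ).intervalIntegrable _ _)
      (Continuous.intervalIntegrable (by fun_prop) _ _) ?_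
    intro x hx
    have hx1 : T ^ η1 ≤ x := hx.1
    have h3 : q ≤ (ρ * x) ^ 2 * Real.sin (1 / T) := by
      refine hq.trans (mul_le_mul_of_nonneg_right ?_ hs.le)
      exact pow_le_pow_left₀ (by positivity) (mul_le_mul_of_nonneg_left hx1 hρ.le) 2
    have h4 : Real.exp (-2 * π * (ρ * x) ^ 2 * Real.sin (1 / T)) ≤
        Real.exp (-(π * q)) * Real.exp (-(π * ρ ^ 2 * Real.sin (1 / T)) * x ^ 2) := by
      rw [← Real.exp_add, Real.exp_le_exp]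
      have h5 := mul_le_mul_of_nonneg_left h3 Real.pi_pos.le
      nlinarith
    linarith
  refine h2.trans ?_
  rw [intervalIntegral.integral_const_mul]
  refine mul_le_mul_of_nonneg_left ?_ (Real.exp_pos _).le
  refine C4_gauss (by positivity) (by positivity) ?_ hu.le huw
  have h6 : (T ^ (1 / 2 : ℝ)) ^ 2 = T := by
    rw [← Real.rpow_natCast, ← Real.rpow_mul hT0.le]
    norm_num
  have h7 : (√2) ^ 2 = 2 := Real.sq_sqrt (by norm_num)
  have h8 : π * ρ ^ 2 * Real.sin (1 / T) * (√2 * T ^ (1 / 2 : ℝ) / ρ) ^ 2 =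
      π * (2 * T * Real.sin (1 / T)) := by
    rw [div_pow, mul_pow, h6, h7]
    field_simp
  rw [h8]
  have := mul_le_mul_of_nonneg_left hs2 Real.pi_pos.le
  linarith

private theorem C4_small {T η1 η2 ρ : ℝ} (hT : 1 ≤ T) (h : η1 ≤ η2) :
    Jp T η1 η2 ρ ≤ 4 * T ^ η2 := by
  have hT0 : 0 < T := by linarith
  have hs := (C4_sin hT).1
  have hu : 0 < T ^ η1 := Real.rpow_pos_of_pos hT0 _
  have huw : T ^ η1 ≤ T ^ η2 := Real.rpow_le_rpow_of_exponent_le hT h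
  have h2 : Jp T η1 η2 ρ ≤ ∫ x in (T ^ η1)..(T ^ η2), (4 : ℝ) := by
    unfold Jp
    refine intervalIntegral.integral_mono_on huw ((C4_cont T ρ).intervalIntegrable _ _)
      (Continuous.intervalIntegrable (by fun_prop) _ _) ?_
    intro x _
    have h4 : Real.exp (-2 * π * (ρ * x) ^ 2 * Real.sin (1 / T)) ≤ 1 := by
      rw [Real.exp_le_one_iff]
      have : 0 ≤ 2 * π * (ρ * x) ^ 2 * Real.sin (1 / T) := by positivity
      linarith
    linarith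
  refine h2.trans ?_
  rw [intervalIntegral.integral_const, smul_eq_mul]
  nlinarith

private theorem C4_em (b : Bool) {n : ℕ} (hn : 1 ≤ n) :
    em b n 0 = e0 b ∧ em b n (nP b n) = 1 ∧
      (∀ m, em b n (m + 1) = em b n m + 1 / (20 * n)) ∧ (∀ m, em b n m ≤ em b n (m + 1)) ∧
      ∀ m, m ∈ range (nP b n) → |em b n m| ≤ 1 := by
  have hn0 : (0 : ℝ) < n := by exact_mod_cast hn
  have hend : em b n (nP b n) = 1 := by
    unfold em e0 nP
    cases b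
    · simp only [Bool.false_eq_true, if_false]
      push_cast
      field_simp
      norm_num
    · simp only [if_true]
      push_cast
      field_simp
      norm_num
  have hstep : ∀ m, em b n (m + 1) = em b n m + 1 / (20 * n) := by
    intro m
    unfold em
    push_cast
    ring
  have hpos : (0 : ℝ) < 1 / (20 * n) := by positivity
  refine ⟨?_, hend, hstep, fun m => by rw [hstep]; linarith, ?_⟩
  · unfold em
    simp
  · intro m hm
    have hm' : (m : ℝ) ≤ (nP b n : ℕ) := by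
      exact_mod_cast (mem_range.mp hm).le
    have h1 : em b n m ≤ 1 := by
      rw [← hend]
      unfold em
      have : (m : ℝ) / (20 * n) ≤ ((nP b n : ℕ) : ℝ) / (20 * n) :=
        div_le_div_of_nonneg_right hm' (by positivity)
      linarith
    have h2 : -1 ≤ em b n m := by
      unfold em
      have h3 : (0 : ℝ) ≤ (m : ℝ) / (20 * n) := by positivity
      have h4 : -1 ≤ e0 b := by
        unfold e0
        cases b
        · simp only [Bool.false_eq_true, if_false]; norm_num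
        · simp only [if_true]; norm_num
      linarith
    exact abs_le.mpr ⟨h2, h1⟩

private theorem C4_sum (b : Bool) {n : ℕ} (hn : 1 ≤ n) (T ρ : ℝ) :
    ∑ m ∈ range (nP b n), Jp T (em b n m) (em b n (m + 1)) ρ = Jp T (e0 b) 1 ρ := by
  obtain ⟨h0, h1, _⟩ := C4_em b hn
  have h2 := intervalIntegral.sum_integral_adjacent_intervals
    (f := fun x : ℝ => 4 * Real.exp (-2 * π * (ρ * x) ^ 2 * Real.sin (1 / T)))
    (μ := volume) (a := fun m : ℕ => T ^ em b n m) (n := nP b n)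
    (fun k _ => (C4_cont T ρ).intervalIntegrable _ _)
  unfold Jp
  rw [h2, h0, h1]

private theorem C4_e0 (b : Bool) : e0 b ≤ 1 := by
  unfold e0
  cases b
  · simp only [Bool.false_eq_true, if_false]; norm_num
  · simp only [if_true]; norm_num

private theorem C4_sgn (b : Bool) : |sgn b| = 1 := by
  unfold sgn
  cases b
  · simp
  · simp

private theorem C4_cf (b : Bool) {x : ℝ} (hx : |x| ≤ 2) (A B : ℂ) :
    ‖((1 + sgn b * x : ℝ) : ℂ) * A + 2 * B‖ ^ 2 ≤ 18 * (‖A‖ ^ 2 + ‖B‖ ^ 2) := by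
  have h1 : |1 + sgn b * x| ≤ 3 := by
    calc |1 + sgn b * x| ≤ |(1 : ℝ)| + |sgn b * x| := abs_add_le _ _
      _ = 1 + |x| := by rw [abs_one, abs_mul, C4_sgn, one_mul]
      _ ≤ 3 := by linarith
  have h2 : ‖((1 + sgn b * x : ℝ) : ℂ) * A + 2 * B‖ ≤ 3 * ‖A‖ + 2 * ‖B‖ := by
    calc ‖((1 + sgn b * x : ℝ) : ℂ) * A + 2 * B‖
        ≤ ‖((1 + sgn b * x : ℝ) : ℂ) * A‖ + ‖2 * B‖ := norm_add_le _ _
      _ = |1 + sgn b * x| * ‖A‖ + 2 * ‖B‖ := by
          rw [norm_mul, norm_mul, Complex.norm_real, Real.norm_eq_abs, Complex.norm_two]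
      _ ≤ 3 * ‖A‖ + 2 * ‖B‖ := by
          have := mul_le_mul_of_nonneg_right h1 (norm_nonneg A)
          linarith
  have h3 : ‖((1 + sgn b * x : ℝ) : ℂ) * A + 2 * B‖ ^ 2 ≤ (3 * ‖A‖ + 2 * ‖B‖) ^ 2 :=
    pow_le_pow_left₀ (norm_nonneg _) h2 2
  nlinarith [sq_nonneg (3 * ‖A‖ - 2 * ‖B‖), norm_nonneg A, norm_nonneg B, sq_nonneg ‖B‖]

private theorem C4_ex (b : Bool) {x : ℝ} (hx : |x| ≤ 1) :
    Real.exp (-(2 * R0 * sgn b * x)) ≤ Real.exp (2 * R0) := by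
  rw [Real.exp_le_exp]
  have h0 : (0 : ℝ) ≤ R0 := by unfold R0; norm_num
  have h1 : -(sgn b * x) ≤ 1 := by
    calc -(sgn b * x) ≤ |sgn b * x| := neg_le_abs _
      _ = |x| := by rw [abs_mul, C4_sgn, one_mul]
      _ ≤ 1 := hx
  nlinarith

theorem Jp_nonneg {T η1 η2 ρ : ℝ} (hT : 1 ≤ T) (h : η1 ≤ η2) : 0 ≤ Jp T η1 η2 ρ := by
  unfold Jp
  exact intervalIntegral.integral_nonneg (Real.rpow_le_rpow_of_exponent_le hT h)
    fun x _ => by positivity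

theorem Jp_total : ∃ T0 : ℝ, ∀ (b : Bool) (n : ℕ) (T ρ : ℝ), 1 ≤ n → T0 ≤ T → 0 < ρ →
    ∑ m ∈ range (nP b n), Jp T (em b n m) (em b n (m + 1)) ρ ≤ 2 * T ^ (1 / 2 : ℝ) / ρ := by
  refine ⟨1, fun b n T ρ hn hT hρ => ?_⟩
  rw [C4_sum b hn, mul_div_assoc]
  have hT0 : 0 < T := by linarith
  have h6 : (T ^ (1 / 2 : ℝ)) ^ 2 = T := by
    rw [← Real.rpow_natCast, ← Real.rpow_mul hT0.le]
    norm_num
  refine C4_main hT (C4_e0 b) hρ (by positivity) ?_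
  have h7 : 2 * ρ ^ 2 * Real.sin (1 / T) * (T ^ (1 / 2 : ℝ) / ρ) ^ 2 = 2 * T * Real.sin (1 / T) := by
    rw [div_pow, h6]
    field_simp
  rw [h7]
  exact (C4_sin hT).2

/-- the first case: all pieces are small -/
private theorem C4_case1 {b : Bool} {n : ℕ} (hn : 1 ≤ n) {T ρ v ε : ℝ} (hT : 1 < T) (hρ : 0 < ρ)
    (hv : T ^ v = ρ) (hbv : 503 / 1000 ≤ e0 b + v)
    (hε : 18 * Real.exp (2 * R0) * (2 * Real.exp (-(π * (T ^ (6 / 1000 : ℝ) / 2)))) ≤ ε) (A B : ℂ) :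
    ∑ m ∈ range (nP b n), Real.exp (-(2 * R0 * sgn b * em b n m)) *
      ‖(1 + 2 * sgn b * em b n m : ℝ) * A + 2 * B‖ ^ 2 * Jp T (em b n m) (em b n (m + 1)) ρ ≤
    √2 * T ^ (1 / 2 : ℝ) / ρ * (ε * (‖A‖ ^ 2 + ‖B‖ ^ 2)) := by
  have hT0 : 0 < T := by linarith
  obtain ⟨_, _, _, hmono, habs⟩ := C4_em b hn
  have hS : 0 ≤ ‖A‖ ^ 2 + ‖B‖ ^ 2 := by positivity
  have h1 : ∀ m ∈ range (nP b n), Real.exp (-(2 * R0 * sgn b * em b n m)) *
      ‖(1 + 2 * sgn b * em b n m : ℝ) * A + 2 * B‖ ^ 2 * Jp T (em b n m) (em b n (m + 1)) ρ ≤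
      18 * Real.exp (2 * R0) * (‖A‖ ^ 2 + ‖B‖ ^ 2) * Jp T (em b n m) (em b n (m + 1)) ρ := by
    intro m hm
    refine mul_le_mul_of_nonneg_right ?_ (Jp_nonneg hT.le (hmono m))
    have h2 : |2 * em b n m| ≤ 2 := by
      rw [abs_mul, abs_two]
      linarith [habs m hm]
    have h3 := C4_cf b h2 A B
    have h4 := C4_ex b (habs m hm)
    have h5 : (1 + 2 * sgn b * em b n m : ℝ) = 1 + sgn b * (2 * em b n m) := by ring
    rw [h5]
    calc Real.exp (-(2 * R0 * sgn b * em b n m)) *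
          ‖((1 + sgn b * (2 * em b n m) : ℝ) : ℂ) * A + 2 * B‖ ^ 2
        ≤ Real.exp (2 * R0) * (18 * (‖A‖ ^ 2 + ‖B‖ ^ 2)) :=
          mul_le_mul h4 h3 (by positivity) (Real.exp_pos _).le
      _ = 18 * Real.exp (2 * R0) * (‖A‖ ^ 2 + ‖B‖ ^ 2) := by ring
  refine (Finset.sum_le_sum h1).trans ?_
  rw [← Finset.mul_sum, C4_sum b hn]
  have hq : T ^ (6 / 1000 : ℝ) / 2 ≤ (ρ * T ^ e0 b) ^ 2 * Real.sin (1 / T) := by
    obtain ⟨hs, hs2⟩ := C4_sin hT.le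
    have h6 : ρ * T ^ e0 b = T ^ (e0 b + v) := by
      rw [← hv, Real.rpow_add hT0, mul_comm]
    have h7 : T ^ (503 / 1000 : ℝ) ≤ ρ * T ^ e0 b := by
      rw [h6]
      exact Real.rpow_le_rpow_of_exponent_le hT.le hbv
    have h8 : (T ^ (503 / 1000 : ℝ)) ^ 2 = T ^ (6 / 1000 : ℝ) * T := by
      rw [← Real.rpow_natCast, ← Real.rpow_mul hT0.le]
      nth_rewrite 3 [← Real.rpow_one T]
      rw [← Real.rpow_add hT0]
      norm_num
    have h9 : (T ^ (503 / 1000 : ℝ)) ^ 2 ≤ (ρ * T ^ e0 b) ^ 2 :=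
      pow_le_pow_left₀ (by positivity) h7 2
    have h10 : 0 < T ^ (6 / 1000 : ℝ) := Real.rpow_pos_of_pos hT0 _
    calc T ^ (6 / 1000 : ℝ) / 2 ≤ T ^ (6 / 1000 : ℝ) / 2 * (2 * T * Real.sin (1 / T)) := by
          nlinarith
      _ = (T ^ (503 / 1000 : ℝ)) ^ 2 * Real.sin (1 / T) := by rw [h8]; ring
      _ ≤ (ρ * T ^ e0 b) ^ 2 * Real.sin (1 / T) := mul_le_mul_of_nonneg_right h9 hs.le
  have h11 := C4_tail hT.le (C4_e0 b) hρ hq
  calc 18 * Real.exp (2 * R0) * (‖A‖ ^ 2 + ‖B‖ ^ 2) * Jp T (e0 b) 1 ρ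
      ≤ 18 * Real.exp (2 * R0) * (‖A‖ ^ 2 + ‖B‖ ^ 2) *
        (Real.exp (-(π * (T ^ (6 / 1000 : ℝ) / 2))) * (2 * (√2 * T ^ (1 / 2 : ℝ) / ρ))) :=
        mul_le_mul_of_nonneg_left h11 (by positivity)
    _ = √2 * T ^ (1 / 2 : ℝ) / ρ * ((18 * Real.exp (2 * R0) *
        (2 * Real.exp (-(π * (T ^ (6 / 1000 : ℝ) / 2))))) * (‖A‖ ^ 2 + ‖B‖ ^ 2)) := by ring
    _ ≤ √2 * T ^ (1 / 2 : ℝ) / ρ * (ε * (‖A‖ ^ 2 + ‖B‖ ^ 2)) := by
        refine mul_le_mul_of_nonneg_left (mul_le_mul_of_nonneg_right hε hS) ?_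
        positivity

/-- one term in the second case -/
private theorem C4_term {b : Bool} {n : ℕ} (hn : 1 ≤ n) {T ρ v κ : ℝ} (hT : 1 < T) (hρ : 0 < ρ)
    (hv : T ^ v = ρ) (hκ : 0 < κ) (A B : ℂ) {m : ℕ} (hm : m ∈ range (nP b n)) :
    Real.exp (-(2 * R0 * sgn b * em b n m)) *
      ‖(1 + 2 * sgn b * em b n m : ℝ) * A + 2 * B‖ ^ 2 * Jp T (em b n m) (em b n (m + 1)) ρ ≤
    Real.exp (4 * R0 * (1 / (20 * n))) * Real.exp (-(2 * R0 * sgn b * (1 / 2 - v))) *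
      ((1 + κ) * ‖(1 + sgn b * (1 - 2 * v) : ℝ) * A + 2 * B‖ ^ 2 +
        (1 + 1 / κ) * (16 * (1 / (20 * n)) ^ 2 * ‖A‖ ^ 2)) * Jp T (em b n m) (em b n (m + 1)) ρ +
    18 * Real.exp (2 * R0) * (‖A‖ ^ 2 + ‖B‖ ^ 2) *
      ((2 * √2 * Real.exp (-(π * (T ^ (1 / (20 * n) : ℝ) / 2))) + 4 * T ^ (-(1 / (40 * n)) : ℝ)) *
        (T ^ (1 / 2 : ℝ) / ρ)) := by
  have hT0 : 0 < T := by linarith
  have hn0 : (0 : ℝ) < n := by exact_mod_cast hn
  obtain ⟨_, _, hstep, hmono, habs⟩ := C4_em b hn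
  have hh : (0 : ℝ) < 1 / (20 * n) := by positivity
  have hhalf : (1 : ℝ) / (40 * n) = 1 / (20 * n) / 2 := by field_simp; norm_num
  have hJ := Jp_nonneg (ρ := ρ) hT.le (hmono m)
  have hS : 0 ≤ ‖A‖ ^ 2 + ‖B‖ ^ 2 := by positivity
  have hX : 0 < T ^ (1 / 2 : ℝ) := Real.rpow_pos_of_pos hT0 _
  have hT1 : 0 < T ^ (-(1 / (40 * n)) : ℝ) := Real.rpow_pos_of_pos hT0 _
  -- the far case
  have hfar : Jp T (em b n m) (em b n (m + 1)) ρ ≤
      (2 * √2 * Real.exp (-(π * (T ^ (1 / (20 * n) : ℝ) / 2))) + 4 * T ^ (-(1 / (40 * n)) : ℝ)) *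
        (T ^ (1 / 2 : ℝ) / ρ) →
      Real.exp (-(2 * R0 * sgn b * em b n m)) *
      ‖(1 + 2 * sgn b * em b n m : ℝ) * A + 2 * B‖ ^ 2 * Jp T (em b n m) (em b n (m + 1)) ρ ≤
      18 * Real.exp (2 * R0) * (‖A‖ ^ 2 + ‖B‖ ^ 2) *
      ((2 * √2 * Real.exp (-(π * (T ^ (1 / (20 * n) : ℝ) / 2))) + 4 * T ^ (-(1 / (40 * n)) : ℝ)) *
        (T ^ (1 / 2 : ℝ) / ρ)) := by
    intro hle
    have h2 : |2 * em b n m| ≤ 2 := by
      rw [abs_mul, abs_two]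
      linarith [habs m hm]
    have h3 := C4_cf b h2 A B
    have h4 := C4_ex b (habs m hm)
    have h5 : (1 + 2 * sgn b * em b n m : ℝ) = 1 + sgn b * (2 * em b n m) := by ring
    rw [h5]
    refine mul_le_mul ?_ hle hJ (by positivity)
    calc Real.exp (-(2 * R0 * sgn b * em b n m)) *
          ‖((1 + sgn b * (2 * em b n m) : ℝ) : ℂ) * A + 2 * B‖ ^ 2
        ≤ Real.exp (2 * R0) * (18 * (‖A‖ ^ 2 + ‖B‖ ^ 2)) :=
          mul_le_mul h4 h3 (by positivity) (Real.exp_pos _).le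
      _ = 18 * Real.exp (2 * R0) * (‖A‖ ^ 2 + ‖B‖ ^ 2) := by ring
  have hmain0 : 0 ≤ Real.exp (4 * R0 * (1 / (20 * n))) *
      Real.exp (-(2 * R0 * sgn b * (1 / 2 - v))) *
      ((1 + κ) * ‖(1 + sgn b * (1 - 2 * v) : ℝ) * A + 2 * B‖ ^ 2 +
        (1 + 1 / κ) * (16 * (1 / (20 * n)) ^ 2 * ‖A‖ ^ 2)) *
          Jp T (em b n m) (em b n (m + 1)) ρ := by
    refine mul_nonneg ?_ hJ
    positivity
  have hfar0 : 0 ≤ 18 * Real.exp (2 * R0) * (‖A‖ ^ 2 + ‖B‖ ^ 2) *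
      ((2 * √2 * Real.exp (-(π * (T ^ (1 / (20 * n) : ℝ) / 2))) + 4 * T ^ (-(1 / (40 * n)) : ℝ)) *
        (T ^ (1 / 2 : ℝ) / ρ)) := by positivity
  by_cases hb : 1 / 2 - v + 1 / (20 * n) / 2 ≤ em b n m
  · -- (b)
    have hq : T ^ (1 / (20 * n) : ℝ) / 2 ≤ (ρ * T ^ em b n m) ^ 2 * Real.sin (1 / T) := by
      obtain ⟨hs, hs2⟩ := C4_sin hT.le
      have h6 : ρ * T ^ em b n m = T ^ (em b n m + v) := by
        rw [← hv, Real.rpow_add hT0, mul_comm]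
      have h7 : T ^ (1 / 2 + 1 / (20 * n) / 2 : ℝ) ≤ ρ * T ^ em b n m := by
        rw [h6]
        exact Real.rpow_le_rpow_of_exponent_le hT.le (by linarith)
      have h8 : (T ^ (1 / 2 + 1 / (20 * n) / 2 : ℝ)) ^ 2 = T ^ (1 / (20 * n) : ℝ) * T := by
        rw [← Real.rpow_natCast, ← Real.rpow_mul hT0.le]
        have h9 : ((1 : ℝ) / 2 + 1 / (20 * n) / 2) * ((2 : ℕ) : ℝ) = 1 / (20 * n) + 1 := by
          push_cast
          ring
        rw [h9, Real.rpow_add hT0, Real.rpow_one]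
      have h9 : (T ^ (1 / 2 + 1 / (20 * n) / 2 : ℝ)) ^ 2 ≤ (ρ * T ^ em b n m) ^ 2 :=
        pow_le_pow_left₀ (by positivity) h7 2
      have h10 : 0 < T ^ (1 / (20 * n) : ℝ) := Real.rpow_pos_of_pos hT0 _
      calc T ^ (1 / (20 * n) : ℝ) / 2 ≤ T ^ (1 / (20 * n) : ℝ) / 2 * (2 * T * Real.sin (1 / T)) := by
            nlinarith
        _ = (T ^ (1 / 2 + 1 / (20 * n) / 2 : ℝ)) ^ 2 * Real.sin (1 / T) := by rw [h8]; ring
        _ ≤ (ρ * T ^ em b n m) ^ 2 * Real.sin (1 / T) := mul_le_mul_of_nonneg_right h9 hs.le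
    have h11 := C4_tail hT.le (hmono m) hρ hq
    have h12 := hfar (h11.trans (by
      have h13 : 0 ≤ 4 * T ^ (-(1 / (40 * n)) : ℝ) * (T ^ (1 / 2 : ℝ) / ρ) := by positivity
      have h14 : Real.exp (-(π * (T ^ (1 / (20 * n) : ℝ) / 2))) *
          (2 * (√2 * T ^ (1 / 2 : ℝ) / ρ)) =
          2 * √2 * Real.exp (-(π * (T ^ (1 / (20 * n) : ℝ) / 2))) * (T ^ (1 / 2 : ℝ) / ρ) := by
        ring
      rw [h14, add_mul]
      linarith))
    linarith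
  by_cases hc : em b n (m + 1) ≤ 1 / 2 - v - 1 / (20 * n) / 2
  · -- (c)
    have h11 := C4_small (ρ := ρ) hT.le (hmono m)
    have h12 : T ^ em b n (m + 1) ≤ T ^ (-(1 / (40 * n)) : ℝ) * (T ^ (1 / 2 : ℝ) / ρ) := by
      calc T ^ em b n (m + 1) ≤ T ^ (1 / 2 - v - 1 / (20 * n) / 2 : ℝ) :=
            Real.rpow_le_rpow_of_exponent_le hT.le hc
        _ = T ^ (-(1 / (40 * n)) : ℝ) * (T ^ (1 / 2 : ℝ) / ρ) := by
            rw [← hv, ← Real.rpow_sub hT0, ← Real.rpow_add hT0, hhalf]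
            congr 1
            ring
    have h13 := hfar (h11.trans (by
      have h14 : 0 ≤ 2 * √2 * Real.exp (-(π * (T ^ (1 / (20 * n) : ℝ) / 2))) *
          (T ^ (1 / 2 : ℝ) / ρ) := by positivity
      rw [add_mul]
      nlinarith))
    linarith
  · -- the near case
    rw [not_le] at hb hc
    rw [hstep] at hc
    have hd : |em b n m - (1 / 2 - v)| ≤ 2 * (1 / (20 * n)) := by
      rw [abs_le]
      constructor <;> linarith
    have h1 : Real.exp (-(2 * R0 * sgn b * em b n m)) ≤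
        Real.exp (4 * R0 * (1 / (20 * n))) * Real.exp (-(2 * R0 * sgn b * (1 / 2 - v))) := by
      rw [← Real.exp_add, Real.exp_le_exp]
      have h0 : (0 : ℝ) ≤ R0 := by unfold R0; norm_num
      have h2 : -(sgn b * (em b n m - (1 / 2 - v))) ≤ 2 * (1 / (20 * n)) := by
        calc -(sgn b * (em b n m - (1 / 2 - v))) ≤ |sgn b * (em b n m - (1 / 2 - v))| := neg_le_abs _
          _ = |em b n m - (1 / 2 - v)| := by rw [abs_mul, C4_sgn, one_mul]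
          _ ≤ _ := hd
      nlinarith
    have h2 : ‖((1 + 2 * sgn b * em b n m : ℝ) : ℂ) * A + 2 * B‖ ≤
        ‖((1 + sgn b * (1 - 2 * v) : ℝ) : ℂ) * A + 2 * B‖ + 4 * (1 / (20 * n)) * ‖A‖ := by
      have h3 : ((1 + 2 * sgn b * em b n m : ℝ) : ℂ) * A + 2 * B =
          (((1 + sgn b * (1 - 2 * v) : ℝ) : ℂ) * A + 2 * B) +
            ((2 * (sgn b * (em b n m - (1 / 2 - v))) : ℝ) : ℂ) * A := by
        push_cast
        ring
      rw [h3]
      refine (norm_add_le _ _).trans (add_le_add_right ?_ _)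
      rw [norm_mul, Complex.norm_real, Real.norm_eq_abs, abs_mul, abs_mul, C4_sgn, one_mul, abs_two]
      refine mul_le_mul_of_nonneg_right ?_ (norm_nonneg _)
      linarith
    have h3 : ‖((1 + 2 * sgn b * em b n m : ℝ) : ℂ) * A + 2 * B‖ ^ 2 ≤
        (1 + κ) * ‖((1 + sgn b * (1 - 2 * v) : ℝ) : ℂ) * A + 2 * B‖ ^ 2 +
        (1 + 1 / κ) * (16 * (1 / (20 * n)) ^ 2 * ‖A‖ ^ 2) := by
      refine (pow_le_pow_left₀ (norm_nonneg _) h2 2).trans ?_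
      obtain ⟨x, hx⟩ : ∃ x, x = ‖((1 + sgn b * (1 - 2 * v) : ℝ) : ℂ) * A + 2 * B‖ := ⟨_, rfl⟩
      obtain ⟨y, hy⟩ : ∃ y : ℝ, y = 4 * (1 / (20 * n)) * ‖A‖ := ⟨_, rfl⟩
      have h5 : 16 * (1 / (20 * (n : ℝ))) ^ 2 * ‖A‖ ^ 2 = y ^ 2 := by rw [hy]; ring
      rw [h5, ← hx, ← hy]
      have h6 : 0 ≤ (κ * x - y) ^ 2 / κ := by positivity
      have h7 : (κ * x - y) ^ 2 / κ = κ * x ^ 2 - 2 * x * y + 1 / κ * y ^ 2 := by
        field_simp
        ring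
      rw [h7] at h6
      nlinarith
    have h4 : Real.exp (-(2 * R0 * sgn b * em b n m)) *
        ‖((1 + 2 * sgn b * em b n m : ℝ) : ℂ) * A + 2 * B‖ ^ 2 ≤
        Real.exp (4 * R0 * (1 / (20 * n))) * Real.exp (-(2 * R0 * sgn b * (1 / 2 - v))) *
      ((1 + κ) * ‖((1 + sgn b * (1 - 2 * v) : ℝ) : ℂ) * A + 2 * B‖ ^ 2 +
        (1 + 1 / κ) * (16 * (1 / (20 * n)) ^ 2 * ‖A‖ ^ 2)) :=
      mul_le_mul h1 h3 (by positivity) (by positivity)
    have h5 := mul_le_mul_of_nonneg_right h4 hJ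
    linarith

private theorem C4_n (κ ε : ℝ) (hκ : 0 < κ) (hε : 0 < ε) : ∃ n0 : ℕ, ∀ n : ℕ, n0 ≤ n →
    Real.exp (4 * R0 * (1 / (20 * n))) ≤ 1 + κ ∧
    (1 + κ) ^ 2 * (1 + 1 / κ) * 16 * (1 / (20 * (n : ℝ))) ^ 2 * Real.exp (2 * R0) ≤ ε / 3 := by
  have hn : Filter.Tendsto (fun n : ℕ => (1 : ℝ) / (20 * n)) Filter.atTop (nhds 0) := by
    have h1 : Filter.Tendsto (fun n : ℕ => (20 : ℝ) * n) Filter.atTop Filter.atTop :=
      Filter.Tendsto.const_mul_atTop (by norm_num) tendsto_natCast_atTop_atTop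
    have h2 := h1.inv_tendsto_atTop
    refine h2.congr fun n => ?_
    rw [Pi.inv_apply, one_div]
  have h1 : Filter.Tendsto (fun n : ℕ => Real.exp (4 * R0 * (1 / (20 * n)))) Filter.atTop
      (nhds 1) := by
    have h2 := (Real.continuous_exp.tendsto _).comp (hn.const_mul (4 * R0))
    rw [mul_zero, Real.exp_zero] at h2
    exact h2
  have h2 : Filter.Tendsto (fun n : ℕ => (1 + κ) ^ 2 * (1 + 1 / κ) * 16 *
      (1 / (20 * (n : ℝ))) ^ 2 * Real.exp (2 * R0)) Filter.atTop (nhds 0) := by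
    have h3 := ((hn.pow 2).const_mul ((1 + κ) ^ 2 * (1 + 1 / κ) * 16)).mul_const
      (Real.exp (2 * R0))
    have h4 : (1 + κ) ^ 2 * (1 + 1 / κ) * 16 * (0 : ℝ) ^ 2 * Real.exp (2 * R0) = 0 := by ring
    rw [h4] at h3
    exact h3
  have h3 := (h1.eventually (eventually_le_nhds (show (1 : ℝ) < 1 + κ by linarith))).and
    (h2.eventually (eventually_le_nhds (show (0 : ℝ) < ε / 3 by positivity)))
  exact Filter.eventually_atTop.mp h3

private theorem C4_T (κ ε C : ℝ) (hκ : 0 < κ) (hε : 0 < ε) (n : ℕ) (hn : 1 ≤ n) : ∃ T0 : ℝ,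
    ∀ T : ℝ, T0 ≤ T → 1 < T ∧ 1 ≤ (1 + κ) ^ 2 * (T * Real.sin (1 / T)) ∧
    C * (2 * Real.exp (-(π * (T ^ (6 / 1000 : ℝ) / 2)))) ≤ ε ∧
    29 * n * C * (2 * √2 * Real.exp (-(π * (T ^ (1 / (20 * n) : ℝ) / 2))) +
      4 * T ^ (-(1 / (40 * n)) : ℝ)) ≤ ε / 3 := by
  have hn0 : (0 : ℝ) < n := by exact_mod_cast hn
  have hexp : ∀ e : ℝ, 0 < e → Filter.Tendsto (fun T : ℝ => Real.exp (-(π * (T ^ e / 2))))
      Filter.atTop (nhds 0) := by
    intro e he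
    have h1 : Filter.Tendsto (fun T : ℝ => π * (T ^ e / 2)) Filter.atTop Filter.atTop :=
      Filter.Tendsto.const_mul_atTop Real.pi_pos
        (Filter.Tendsto.atTop_div_const (by norm_num) (tendsto_rpow_atTop he))
    exact Real.tendsto_exp_neg_atTop_nhds_zero.comp h1
  have h1 : ∀ᶠ T : ℝ in Filter.atTop, C * (2 * Real.exp (-(π * (T ^ (6 / 1000 : ℝ) / 2)))) ≤ ε := by
    have h2 := ((hexp (6 / 1000) (by norm_num)).const_mul 2).const_mul C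
    rw [mul_zero, mul_zero] at h2
    exact h2.eventually (eventually_le_nhds hε)
  have h2 : ∀ᶠ T : ℝ in Filter.atTop, 29 * n * C *
      (2 * √2 * Real.exp (-(π * (T ^ (1 / (20 * n) : ℝ) / 2))) +
        4 * T ^ (-(1 / (40 * n)) : ℝ)) ≤ ε / 3 := by
    have h3 := (hexp (1 / (20 * n)) (by positivity)).const_mul (2 * √2)
    have h4 := (tendsto_rpow_neg_atTop (show (0 : ℝ) < 1 / (40 * n) by positivity)).const_mul 4
    have h5 := (h3.add h4).const_mul (29 * n * C)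
    rw [mul_zero, mul_zero, add_zero, mul_zero] at h5
    exact h5.eventually (eventually_le_nhds (by positivity))
  have h3 : ∀ᶠ T : ℝ in Filter.atTop, 1 ≤ (1 + κ) ^ 2 * (1 - (T ^ 2)⁻¹ / 6) := by
    have h4 : Filter.Tendsto (fun T : ℝ => (T ^ 2)⁻¹) Filter.atTop (nhds 0) :=
      (Filter.tendsto_pow_atTop (by norm_num)).inv_tendsto_atTop
    have h5 := ((h4.div_const 6).const_sub 1).const_mul ((1 + κ) ^ 2)
    rw [zero_div, sub_zero, mul_one] at h5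
    exact h5.eventually (eventually_ge_nhds (by nlinarith))
  obtain ⟨T0, hT0⟩ := Filter.eventually_atTop.mp
    (((h1.and h2).and h3).and (Filter.eventually_gt_atTop (1 : ℝ)))
  refine ⟨T0, fun T hT => ?_⟩
  obtain ⟨⟨⟨h5, h6⟩, h7⟩, h8⟩ := hT0 T hT
  refine ⟨h8, ?_, h5, h6⟩
  refine h7.trans (mul_le_mul_of_nonneg_left ?_ (by positivity))
  have hTp : 0 < T := by linarith
  have h9 := Real.sin_gt_sub_cube (x := 1 / T) (by positivity)
  have h10 : T * (1 / T - (1 / T) ^ 3 / 6) = 1 - (T ^ 2)⁻¹ / 6 := by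
    field_simp
  rw [← h10]
  exact mul_le_mul_of_nonneg_left h9.le hTp.le

theorem reassembly (ε : ℝ) (hε : 0 < ε) : ∃ n0 : ℕ, 1 ≤ n0 ∧ ∀ n : ℕ, n0 ≤ n → ∃ T0 : ℝ,
    ∀ (b : Bool) (T ρ : ℝ) (A B : ℂ), T0 ≤ T → T ^ (-(1 / 2) : ℝ) ≤ ρ →
    ∑ m ∈ range (nP b n), Real.exp (-(2 * R0 * sgn b * em b n m)) *
      ‖(1 + 2 * sgn b * em b n m : ℝ) * A + 2 * B‖ ^ 2 * Jp T (em b n m) (em b n (m + 1)) ρ ≤
    √2 * T ^ (1 / 2 : ℝ) / ρ * (Ps b (Real.log ρ / Real.log T) *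
      ‖(1 + sgn b * (1 - 2 * (Real.log ρ / Real.log T)) : ℝ) * A + 2 * B‖ ^ 2 +
      ε * (‖A‖ ^ 2 + ‖B‖ ^ 2)) := by
  obtain ⟨C, hC⟩ : ∃ C : ℝ, C = 18 * Real.exp (2 * R0) := ⟨_, rfl⟩
  have hC0 : 0 < C := by rw [hC]; positivity
  obtain ⟨κ, hκd⟩ : ∃ κ : ℝ, κ = min 1 (ε / (21 * C)) := ⟨_, rfl⟩
  have hκ : 0 < κ := by rw [hκd]; positivity
  have hκ1 : κ ≤ 1 := by rw [hκd]; exact min_le_left _ _
  have hκ2 : κ * (21 * C) ≤ ε := by
    have h1 : κ ≤ ε / (21 * C) := by rw [hκd]; exact min_le_right _ _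
    rwa [le_div_iff₀ (by positivity)] at h1
  have hκ3 : ((1 + κ) ^ 3 - 1) * C ≤ ε / 3 := by
    have h1 : (1 + κ) ^ 3 - 1 ≤ 7 * κ := by nlinarith [mul_pos hκ hκ]
    have h2 := mul_le_mul_of_nonneg_right h1 hC0.le
    nlinarith
  obtain ⟨n0, hn0⟩ := C4_n κ ε hκ hε
  refine ⟨max n0 1, le_max_right _ _, fun n hn => ?_⟩
  have hn1 : 1 ≤ n := (le_max_right _ _).trans hn
  have hnp : (0 : ℝ) < n := by exact_mod_cast hn1
  obtain ⟨hE, hh⟩ := hn0 n ((le_max_left _ _).trans hn)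
  obtain ⟨T0, hT0⟩ := C4_T κ ε C hκ hε n hn1
  refine ⟨T0, fun b T ρ A B hT hρT => ?_⟩
  obtain ⟨hT1, hsin, hc1, hc2⟩ := hT0 T hT
  have hTp : 0 < T := by linarith
  have hρ : 0 < ρ := lt_of_lt_of_le (Real.rpow_pos_of_pos hTp _) hρT
  have hlog : 0 < Real.log T := Real.log_pos hT1
  obtain ⟨v, hvd⟩ : ∃ v : ℝ, v = Real.log ρ / Real.log T := ⟨_, rfl⟩
  rw [← hvd]
  have hv : T ^ v = ρ := by
    rw [Real.rpow_def_of_pos hTp, hvd, mul_div_cancel₀ _ hlog.ne', Real.exp_log hρ]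
  have hv1 : -(1 / 2) ≤ v := by
    rw [← hv] at hρT
    exact (Real.rpow_le_rpow_left_iff hT1).mp hρT
  have hS : 0 ≤ ‖A‖ ^ 2 + ‖B‖ ^ 2 := by positivity
  have hX : 0 < T ^ (1 / 2 : ℝ) := Real.rpow_pos_of_pos hTp _
  have hPs0 : 0 ≤ Ps b v := by
    unfold Ps cu
    exact mul_nonneg (Real.exp_pos _).le (Real.smoothTransition.nonneg _)
  by_cases hbv : 503 / 1000 ≤ e0 b + v
  · rw [hC] at hc1
    refine (C4_case1 hn1 hT1 hρ hv hbv hc1 A B).trans ?_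
    refine mul_le_mul_of_nonneg_left ?_ (by positivity)
    have : 0 ≤ Ps b v * ‖((1 + sgn b * (1 - 2 * v) : ℝ) : ℂ) * A + 2 * B‖ ^ 2 := by positivity
    linarith
  · rw [not_le] at hbv
    have hcu : cu b v = 1 := by
      unfold cu
      apply Real.smoothTransition.one_of_one_le
      unfold e0 at hbv
      cases b
      · simp only [Bool.false_eq_true, if_false] at hbv ⊢
        linarith
      · simp only [if_true] at hbv ⊢
        linarith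
    have hv2 : v ≤ 1 := by
      unfold e0 at hbv
      cases b
      · simp only [Bool.false_eq_true, if_false] at hbv
        linarith
      · simp only [if_true] at hbv
        linarith
    have hPs : Ps b v = Real.exp (-(2 * R0 * sgn b * (1 / 2 - v))) := by
      unfold Ps
      rw [hcu, mul_one]
    have habs : |1 / 2 - v| ≤ 1 := by
      rw [abs_le]
      constructor <;> linarith
    have hPs1 : Ps b v ≤ Real.exp (2 * R0) := by
      rw [hPs]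
      exact C4_ex b habs
    have hX0 : ‖((1 + sgn b * (1 - 2 * v) : ℝ) : ℂ) * A + 2 * B‖ ^ 2 ≤
        18 * (‖A‖ ^ 2 + ‖B‖ ^ 2) := by
      refine C4_cf b ?_ A B
      rw [abs_le]
      constructor <;> linarith
    have hterm : ∀ m ∈ range (nP b n), _ := fun m hm => C4_term hn1 hT1 hρ hv hκ A B hm
    refine (Finset.sum_le_sum hterm).trans ?_
    rw [Finset.sum_add_distrib, ← Finset.mul_sum, C4_sum b hn1, Finset.sum_const, card_range,
      nsmul_eq_mul, ← hPs, ← hC]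
    have h6 : (T ^ (1 / 2 : ℝ)) ^ 2 = T := by
      rw [← Real.rpow_natCast, ← Real.rpow_mul hTp.le]
      norm_num
    have h2s : (√2) ^ 2 = 2 := Real.sq_sqrt (by norm_num)
    have h2p : 0 < √2 := by positivity
    have h2g : 1 ≤ √2 := by
      rw [Real.one_le_sqrt]
      norm_num
    have hJ : Jp T (e0 b) 1 ρ ≤ (1 + κ) * (√2 * T ^ (1 / 2 : ℝ) / ρ) := by
      have h1 := C4_main (K := (1 + κ) * T ^ (1 / 2 : ℝ) / (√2 * ρ)) hT1.le (C4_e0 b) hρ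
        (by positivity) (by
          have h7 : 2 * ρ ^ 2 * Real.sin (1 / T) * ((1 + κ) * T ^ (1 / 2 : ℝ) / (√2 * ρ)) ^ 2 =
              (1 + κ) ^ 2 * (T * Real.sin (1 / T)) := by
            rw [div_pow, mul_pow, mul_pow, h6, h2s]
            field_simp
          rw [h7]
          exact hsin)
      refine h1.trans (le_of_eq ?_)
      rw [show (2 : ℝ) * ((1 + κ) * T ^ (1 / 2 : ℝ) / (√2 * ρ)) =
        (√2) ^ 2 * ((1 + κ) * T ^ (1 / 2 : ℝ) / (√2 * ρ)) by rw [h2s]]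
      field_simp
    obtain ⟨J, hJd⟩ : ∃ J : ℝ, J = Jp T (e0 b) 1 ρ := ⟨_, rfl⟩
    have hJ0 : 0 ≤ J := by
      rw [hJd]
      exact Jp_nonneg hT1.le (C4_e0 b)
    rw [← hJd] at hJ ⊢
    obtain ⟨X0, hX0d⟩ : ∃ X0 : ℝ, X0 = ‖((1 + sgn b * (1 - 2 * v) : ℝ) : ℂ) * A + 2 * B‖ ^ 2 :=
      ⟨_, rfl⟩
    have hX00 : 0 ≤ X0 := by rw [hX0d]; positivity
    rw [← hX0d] at hX0 ⊢
    obtain ⟨p, hpd⟩ : ∃ p : ℝ, p = Ps b v := ⟨_, rfl⟩
    rw [← hpd] at hPs0 hPs1 ⊢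
    obtain ⟨S, hSd⟩ : ∃ S : ℝ, S = ‖A‖ ^ 2 + ‖B‖ ^ 2 := ⟨_, rfl⟩
    have hAS : ‖A‖ ^ 2 ≤ S := by rw [hSd]; nlinarith [norm_nonneg B]
    rw [← hSd] at hS hX0 ⊢
    obtain ⟨τ, hτd⟩ : ∃ τ : ℝ, τ = 2 * √2 * Real.exp (-(π * (T ^ (1 / (20 * n) : ℝ) / 2))) +
      4 * T ^ (-(1 / (40 * n)) : ℝ) := ⟨_, rfl⟩
    have hτ0 : 0 ≤ τ := by rw [hτd]; positivity
    rw [← hτd] at hc2 ⊢
    obtain ⟨Y, hYd⟩ : ∃ Y : ℝ, Y = T ^ (1 / 2 : ℝ) / ρ := ⟨_, rfl⟩
    have hY0 : 0 ≤ Y := by rw [hYd]; positivity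
    rw [mul_div_assoc, ← hYd] at hJ
    rw [mul_div_assoc, ← hYd]
    obtain ⟨a2, ha2d⟩ : ∃ a2 : ℝ, a2 = ‖A‖ ^ 2 := ⟨_, rfl⟩
    have ha20 : 0 ≤ a2 := by rw [ha2d]; positivity
    rw [← ha2d] at hAS ⊢
    obtain ⟨η, hηd⟩ : ∃ η : ℝ, η = (1 / (20 * (n : ℝ))) ^ 2 := ⟨_, rfl⟩
    have hη0 : 0 ≤ η := by rw [hηd]; positivity
    rw [← hηd] at hh ⊢
    obtain ⟨E, hEd⟩ : ∃ E : ℝ, E = Real.exp (4 * R0 * (1 / (20 * n))) := ⟨_, rfl⟩
    rw [← hEd] at hE ⊢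
    obtain ⟨ex, hexd⟩ : ∃ ex : ℝ, ex = Real.exp (2 * R0) := ⟨_, rfl⟩
    rw [← hexd] at hh hPs1 hC
    have hex0 : 0 < ex := by rw [hexd]; positivity
    have hκi : 0 ≤ 1 + 1 / κ := by positivity
    -- the near part
    have hD : E * p * ((1 + κ) * X0 + (1 + 1 / κ) * (16 * η * a2)) * J ≤
        √2 * Y * (p * X0 + ε / 3 * S + ε / 3 * S) := by
      have hW : 0 ≤ (1 + κ) * X0 + (1 + 1 / κ) * (16 * η * a2) := by positivity
      calc E * p * ((1 + κ) * X0 + (1 + 1 / κ) * (16 * η * a2)) * J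
          ≤ (1 + κ) * p * ((1 + κ) * X0 + (1 + 1 / κ) * (16 * η * a2)) *
            ((1 + κ) * (√2 * Y)) := by
            refine mul_le_mul ?_ hJ hJ0 (by positivity)
            refine mul_le_mul_of_nonneg_right ?_ hW
            exact mul_le_mul_of_nonneg_right hE hPs0
        _ = √2 * Y * (p * X0 + ((1 + κ) ^ 3 - 1) * (p * X0) +
              (1 + κ) ^ 2 * (1 + 1 / κ) * 16 * η * p * a2) := by ring
        _ ≤ √2 * Y * (p * X0 + ε / 3 * S + ε / 3 * S) := by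
            refine mul_le_mul_of_nonneg_left ?_ (by positivity)
            have h1 : 0 ≤ (1 + κ) ^ 3 - 1 := by nlinarith [mul_pos hκ hκ]
            have h2 : p * X0 ≤ C * S := by
              calc p * X0 ≤ ex * (18 * S) := mul_le_mul hPs1 hX0 hX00 hex0.le
                _ = C * S := by rw [hC]; ring
            have h3 : ((1 + κ) ^ 3 - 1) * (p * X0) ≤ ε / 3 * S := by
              calc ((1 + κ) ^ 3 - 1) * (p * X0) ≤ ((1 + κ) ^ 3 - 1) * (C * S) :=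
                    mul_le_mul_of_nonneg_left h2 h1
                _ = (((1 + κ) ^ 3 - 1) * C) * S := by ring
                _ ≤ ε / 3 * S := mul_le_mul_of_nonneg_right hκ3 hS
            have h4 : (1 + κ) ^ 2 * (1 + 1 / κ) * 16 * η * p * a2 ≤ ε / 3 * S := by
              calc (1 + κ) ^ 2 * (1 + 1 / κ) * 16 * η * p * a2
                  ≤ (1 + κ) ^ 2 * (1 + 1 / κ) * 16 * η * ex * S := by
                    refine mul_le_mul ?_ hAS ha20 (by positivity)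
                    exact mul_le_mul_of_nonneg_left hPs1 (by positivity)
                _ ≤ ε / 3 * S := mul_le_mul_of_nonneg_right hh hS
            linarith
    -- the far part
    have hF : ((nP b n : ℕ) : ℝ) * (C * S * (τ * Y)) ≤ √2 * Y * (ε / 3 * S) := by
      have h1 : ((nP b n : ℕ) : ℝ) ≤ 29 * n := by
        unfold nP
        cases b
        · simp only [Bool.false_eq_true, if_false]
          push_cast
          linarith
        · simp only [if_true]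
          push_cast
          linarith
      calc ((nP b n : ℕ) : ℝ) * (C * S * (τ * Y)) ≤ 29 * n * (C * S * (τ * Y)) :=
            mul_le_mul_of_nonneg_right h1 (by positivity)
        _ = (29 * n * C * τ) * (S * Y) := by ring
        _ ≤ ε / 3 * (S * Y) := mul_le_mul_of_nonneg_right hc2 (by positivity)
        _ = 1 * (Y * (ε / 3 * S)) := by ring
        _ ≤ √2 * (Y * (ε / 3 * S)) := mul_le_mul_of_nonneg_right h2g (by positivity)
        _ = √2 * Y * (ε / 3 * S) := by ring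
    calc E * p * ((1 + κ) * X0 + (1 + 1 / κ) * (16 * η * a2)) * J +
          ((nP b n : ℕ) : ℝ) * (C * S * (τ * Y))
        ≤ √2 * Y * (p * X0 + ε / 3 * S + ε / 3 * S) + √2 * Y * (ε / 3 * S) := add_le_add hD hF
      _ = √2 * Y * (p * X0 + ε * S) := by ring

end Pool.Agent.LB
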