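import Pool.Agent.Lib.MP_69b2e4_nt.LB.Defs

/-! TASK F1. The cut-off function `Pf`. `rho` is smooth (`Real.smoothTransition.contDiff`), `0 ≤ rho ≤ 1`, `rho s = 0` for `s ≤ 1/500` (`smoothTransition.zero_of_nonpos`) and for `s ≥ 9/20`, `rho s = 1` for `3/500 ≤ s ≤ 223/500` (`one_of_one_le`); so `I0 ≥ 220/500 = 11/25`.
`Pf x = (∫_x^1 rho)/I0` is smooth with `Pf' = -rho/I0` (`intervalIntegral.integral_hasDerivAt_left` or `∫_x^1 = ∫_0^1 - ∫_0^x`; smoothness by `contDiff_succ_iff_deriv`/`contDiff_infty_iff_deriv`), `Pf 0 = 1` (`rho = 0` on `[x,0]`), antitone. `Pf x ≤ (25/11)(9/20 - x)` for `x ≤ 9/20`: `∫_x^{9/20} rho ≤ 9/20 - x`.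
`pf c d x = (c + d x) Pf x`. `am`: `|μ| ≤ 1`, `0 ≤ log m/log T ≤ 1` for `1 ≤ m ≤ T`. -/

set_option autoImplicit false

namespace Pool.Agent.LB

open Complex MeasureTheory Finset Pool.Agent.GH Pool.Agent.UH Pool.Agent.UV
open scoped Real ComplexConjugate ContDiff

theorem rho_contDiff : ContDiff ℝ ∞ rho := by
  have h1 : ContDiff ℝ ∞ (fun s : ℝ => Real.smoothTransition (250 * (s - 1 / 500))) :=
    Real.smoothTransition.contDiff.comp (by fun_prop)
  have h2 : ContDiff ℝ ∞ (fun s : ℝ => Real.smoothTransition (250 * (9 / 20 - s))) :=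
    Real.smoothTransition.contDiff.comp (by fun_prop)
  exact h1.mul h2

theorem F1_cont : Continuous rho := rho_contDiff.continuous

theorem F1_int (a b : ℝ) : IntervalIntegrable rho volume a b := F1_cont.intervalIntegrable a b

theorem rho_mem (s : ℝ) : 0 ≤ rho s ∧ rho s ≤ 1 :=
  ⟨mul_nonneg (Real.smoothTransition.nonneg _) (Real.smoothTransition.nonneg _),
    mul_le_one₀ (Real.smoothTransition.le_one _) (Real.smoothTransition.nonneg _)
      (Real.smoothTransition.le_one _)⟩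

theorem rho_zero {s : ℝ} (hs : s ≤ 1 / 500 ∨ 9 / 20 ≤ s) : rho s = 0 := by
  rcases hs with hs | hs
  · rw [rho, Real.smoothTransition.zero_of_nonpos (by linarith), zero_mul]
  · rw [rho, Real.smoothTransition.zero_of_nonpos (x := 250 * (9 / 20 - s)) (by linarith), mul_zero]

theorem F1_rho_one {s : ℝ} (h1 : 3 / 500 ≤ s) (h2 : s ≤ 223 / 500) : rho s = 1 := by
  rw [rho, Real.smoothTransition.one_of_one_le (by linarith),
    Real.smoothTransition.one_of_one_le (by linarith), mul_one]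

theorem I0_ge : 11 / 25 ≤ I0 := by
  have e1 := intervalIntegral.integral_add_adjacent_intervals (F1_int 0 (3 / 500))
    (F1_int (3 / 500) (223 / 500))
  have e2 := intervalIntegral.integral_add_adjacent_intervals (F1_int 0 (223 / 500))
    (F1_int (223 / 500) 1)
  have n1 : 0 ≤ ∫ s in (0 : ℝ)..(3 / 500), rho s :=
    intervalIntegral.integral_nonneg (by norm_num) fun s _ => (rho_mem s).1
  have n2 : 0 ≤ ∫ s in (223 / 500 : ℝ)..1, rho s :=
    intervalIntegral.integral_nonneg (by norm_num) fun s _ => (rho_mem s).1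
  have m : ∫ s in (3 / 500 : ℝ)..(223 / 500), rho s = 11 / 25 := by
    have h : ∫ s in (3 / 500 : ℝ)..(223 / 500), rho s = ∫ _s in (3 / 500 : ℝ)..(223 / 500), (1 : ℝ) := by
      apply intervalIntegral.integral_congr
      intro s hs
      rw [Set.uIcc_of_le (by norm_num)] at hs
      exact F1_rho_one hs.1 hs.2
    rw [h, intervalIntegral.integral_const]
    norm_num
  rw [I0]
  linarith

theorem F1_I0_pos : 0 < I0 := lt_of_lt_of_le (by norm_num) I0_ge

theorem F1_deriv (x : ℝ) : HasDerivAt Pf (-(rho x / I0)) x := by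
  have h := intervalIntegral.integral_hasDerivAt_left (F1_int x 1)
    (F1_cont.stronglyMeasurableAtFilter _ _) F1_cont.continuousAt
  have h2 := h.div_const I0
  rwa [neg_div] at h2

theorem Pf_contDiff : ContDiff ℝ ∞ Pf := by
  rw [contDiff_infty_iff_deriv]
  refine ⟨fun x => (F1_deriv x).differentiableAt, ?_⟩
  have h : deriv Pf = fun x => -(rho x / I0) := funext fun x => (F1_deriv x).deriv
  rw [h]
  exact (rho_contDiff.div_const I0).neg

theorem Pf_deriv (x : ℝ) : HasDerivAt Pf (-(rho x / I0)) x := F1_deriv x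

theorem Pf_zero {x : ℝ} (hx : 9 / 20 ≤ x) : Pf x = 0 := by
  have h : ∫ s in x..1, rho s = ∫ _s in x..1, (0 : ℝ) := by
    apply intervalIntegral.integral_congr
    intro s hs
    have hs1 : min x 1 ≤ s := hs.1
    exact rho_zero (Or.inr ((le_min hx (by norm_num)).trans hs1))
  rw [Pf, h, intervalIntegral.integral_zero, zero_div]

theorem Pf_one {x : ℝ} (hx : x ≤ 1 / 500) : Pf x = 1 := by
  have e := intervalIntegral.integral_add_adjacent_intervals (F1_int x 0) (F1_int 0 1)
  have h : ∫ s in x..0, rho s = ∫ _s in x..0, (0 : ℝ) := by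
    apply intervalIntegral.integral_congr
    intro s hs
    have hs1 : s ≤ max x 0 := hs.2
    exact rho_zero (Or.inl (hs1.trans (max_le hx (by norm_num))))
  rw [h, intervalIntegral.integral_zero, zero_add] at e
  rw [Pf, ← e]
  exact div_self F1_I0_pos.ne'

theorem F1_anti : Antitone Pf := by
  apply antitone_of_deriv_nonpos (fun x => (F1_deriv x).differentiableAt)
  intro x
  rw [(F1_deriv x).deriv]
  exact neg_nonpos.2 (div_nonneg (rho_mem x).1 F1_I0_pos.le)

theorem Pf_mem (x : ℝ) : 0 ≤ Pf x ∧ Pf x ≤ 1 := by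
  constructor
  · rw [← Pf_zero (le_max_right x (9 / 20))]
    exact F1_anti (le_max_left _ _)
  · rw [← Pf_one (min_le_right x (1 / 500))]
    exact F1_anti (min_le_left _ _)

theorem Pf_le {x : ℝ} (hx : x ≤ 9 / 20) : Pf x ≤ 25 / 11 * (9 / 20 - x) := by
  have e := intervalIntegral.integral_add_adjacent_intervals (F1_int x (9 / 20)) (F1_int (9 / 20) 1)
  have h : ∫ s in (9 / 20 : ℝ)..1, rho s = 0 := by
    have h1 := Pf_zero (le_refl (9 / 20 : ℝ))
    rw [Pf, div_eq_zero_iff] at h1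
    exact h1.resolve_right F1_I0_pos.ne'
  have h2 : ∫ s in x..(9 / 20), rho s ≤ 9 / 20 - x := by
    have h3 := intervalIntegral.integral_mono_on hx (F1_int x (9 / 20))
      (intervalIntegrable_const (c := (1 : ℝ))) (fun s _ => (rho_mem s).2)
    rw [intervalIntegral.integral_const] at h3
    simpa using h3
  rw [h, add_zero] at e
  rw [Pf, ← e, div_le_iff₀ F1_I0_pos]
  have h4 : 0 ≤ 9 / 20 - x := by linarith
  nlinarith [I0_ge, mul_nonneg h4 (sub_nonneg.2 I0_ge)]

theorem Pf_slope (x : ℝ) : -(25 / 11) ≤ deriv Pf x ∧ deriv Pf x ≤ 0 := by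
  rw [(F1_deriv x).deriv]
  constructor
  · rw [neg_le_neg_iff, div_le_iff₀ F1_I0_pos]
    nlinarith [I0_ge, (rho_mem x).2]
  · exact neg_nonpos.2 (div_nonneg (rho_mem x).1 F1_I0_pos.le)

theorem pf_contDiff (c d : ℝ) : ContDiff ℝ ∞ (pf c d) :=
  (contDiff_const.mul Pf_contDiff).add (contDiff_const.mul (contDiff_id.mul Pf_contDiff))

theorem pf_deriv (c d x : ℝ) : deriv (pf c d) x = (c + d * x) * deriv Pf x + d * Pf x := by
  have h1 := ((F1_deriv x).const_mul c).add
    (((hasDerivAt_id x).mul (F1_deriv x)).const_mul d)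
  have h2 : HasDerivAt (pf c d) _ x := h1
  rw [h2.deriv, (F1_deriv x).deriv]
  simp only [id]
  ring

theorem am_le {T : ℝ} (hT : 1 < T) {i m : ℕ} (hm : (m : ℝ) ≤ T) : |am i T m| ≤ 1 := by
  have hL : 0 < Real.log T := Real.log_pos hT
  have h0 : 0 ≤ Real.log m := Real.log_natCast_nonneg m
  have h1 : Real.log m ≤ Real.log T := by
    rcases Nat.eq_zero_or_pos m with rfl | hp
    · simpa using hL.le
    · exact Real.log_le_log (by exact_mod_cast hp) hm
  have hx0 : 0 ≤ Real.log m / Real.log T := div_nonneg h0 hL.le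
  have hx1 : Real.log m / Real.log T ≤ 1 := (div_le_one hL).2 h1
  have hmu : |((ArithmeticFunction.moebius m : ℤ) : ℝ)| ≤ 1 := by
    have := ArithmeticFunction.abs_moebius_le_one (n := m)
    exact_mod_cast this
  have hb : |(Real.log m / Real.log T) ^ i * Pf (Real.log m / Real.log T)| ≤ 1 := by
    rw [abs_of_nonneg (mul_nonneg (pow_nonneg hx0 _) (Pf_mem _).1)]
    exact mul_le_one₀ (pow_le_one₀ hx0 hx1) (Pf_mem _).1 (Pf_mem _).2
  rw [am, abs_mul]
  exact mul_le_one₀ hmu (abs_nonneg _) hb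

theorem am_zero {T : ℝ} (hT : 1 < T) {i m : ℕ} (hm : T ^ (9 / 20 : ℝ) ≤ m) : am i T m = 0 := by
  have hL : 0 < Real.log T := Real.log_pos hT
  have hT0 : 0 < T := by linarith
  have h1 : 9 / 20 * Real.log T ≤ Real.log m := by
    rw [← Real.log_rpow hT0]
    exact Real.log_le_log (Real.rpow_pos_of_pos hT0 _) hm
  rw [am, Pf_zero ((le_div_iff₀ hL).2 h1), mul_zero, mul_zero]

/-- `c MO 0 + d MO 1` as one sum. -/
theorem MO_pf {T : ℝ} (c d : ℝ) (χ : ℕ →*₀ ℂ) : c * MO 0 T χ + d * MO 1 T χ =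
    ∑ n ∈ Finset.Icc 1 ⌊T ^ (9 / 20 : ℝ)⌋₊, ((((ArithmeticFunction.moebius n : ℤ) : ℝ) *
      pf c d (Real.log n / Real.log T) : ℝ) : ℂ) * χ n := by
  rw [MO, MO, Finset.mul_sum, Finset.mul_sum, ← Finset.sum_add_distrib]
  refine Finset.sum_congr rfl fun n _ => ?_
  rw [am, am, pf]
  push_cast
  ring

end Pool.Agent.LB
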