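import Pool.Agent.Lib.MP_69b2e4_nt.LB.F1
import Pool.Agent.Lib.MP_69b2e4_nt.UV.F2

/-! TASK F3. The mollifier in the random model as an integral of Euler products. COPY the proof of `Mx_eq` (UV/F2.lean; its lemmas are private, copy them): `∏_{p<M} (1 - b_p X_p) = ∑_{n squarefree, M-smooth} μ(n) b_n XX w n` with the completely multiplicative
`b_n = n^{-1/2-z} e^{-(s0 - 2πiξ) log n/log T}`; multiply by `φ(ξ)` and integrate: `∫ φ(ξ) e^{-(s0-2πiξ) u} dξ = p(u)`, `u = log n/log T ≥ 0`. The terms with `n > T^{9/20}` vanish since `p u = 0` for `u ≥ 9/20` (`hp0`), all squarefree `n ≤ T^{9/20}` are `M`-smooth since `T^{9/20} ≤ M`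
(if `n = M` is prime then `n = T^{9/20}`, `p = 0`). `nX z w n = n^{-(1/2+z)} XX w n`. -/

set_option autoImplicit false

namespace Pool.Agent.LB

open Complex MeasureTheory Finset Pool.Agent.GH Pool.Agent.UH Pool.Agent.UV
open scoped Real ComplexConjugate

/-- The coefficient of the Euler product of the mollifier with the frequency `ξ` and the shift `z`. -/
noncomputable def bz (s0 T ξ : ℝ) (z : ℂ) (p : ℕ) : ℂ :=
  (((p : ℝ) ^ (-(1 / 2) : ℝ) : ℝ) : ℂ) *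
    cexp (-((z + (s0 - 2 * π * ξ * I) / (Real.log T : ℝ)) * (Real.log p : ℝ)))

private theorem F3_mul (s0 T ξ : ℝ) (z : ℂ) {m n : ℕ} (hm : m ≠ 0) (hn : n ≠ 0) :
    bz s0 T ξ z (m * n) = bz s0 T ξ z m * bz s0 T ξ z n := by
  unfold bz
  have h1 : ((m * n : ℕ) : ℝ) ^ (-(1 / 2) : ℝ) = (m : ℝ) ^ (-(1 / 2) : ℝ) * (n : ℝ) ^ (-(1 / 2) : ℝ) := by
    rw [Nat.cast_mul, Real.mul_rpow (Nat.cast_nonneg m) (Nat.cast_nonneg n)]
  have h2 : Real.log ((m * n : ℕ) : ℝ) = Real.log m + Real.log n := by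
    rw [Nat.cast_mul, Real.log_mul (Nat.cast_ne_zero.2 hm) (Nat.cast_ne_zero.2 hn)]
  rw [h1, h2]
  push_cast
  rw [mul_add, neg_add, Complex.exp_add]
  ring

private theorem F3_one (s0 T ξ : ℝ) (z : ℂ) : bz s0 T ξ z 1 = 1 := by
  simp [bz]

private theorem F3_prod (s0 T ξ : ℝ) (z : ℂ) (U : Finset ℕ) (hU : ∀ p ∈ U, p ≠ 0) :
    ∏ p ∈ U, bz s0 T ξ z p = bz s0 T ξ z (∏ p ∈ U, p) := by
  induction U using Finset.induction_on with
  | empty => simp [F3_one]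
  | insert p U hp ih =>
    rw [prod_insert hp, prod_insert hp, ih fun q hq => hU q (mem_insert_of_mem hq),
      F3_mul s0 T ξ z (hU p (mem_insert_self p U))
        (prod_ne_zero_iff.2 fun q hq => hU q (mem_insert_of_mem hq))]

private theorem F3_bz (s0 T ξ : ℝ) (z : ℂ) (n : ℕ) : bz s0 T ξ z n =
    ((((n : ℝ) ^ (-(1 / 2) : ℝ) : ℝ) : ℂ) * cexp (-(z * (Real.log n : ℝ)))) *
    (Real.exp (-(s0 * (Real.log n / Real.log T))) : ℂ) *
      cexp (2 * π * (Real.log n / Real.log T : ℝ) * ξ * I) := by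
  have h : cexp (-((z + (s0 - 2 * π * ξ * I) / (Real.log T : ℝ)) * (Real.log n : ℝ))) =
      cexp (-(z * (Real.log n : ℝ))) * (Real.exp (-(s0 * (Real.log n / Real.log T))) : ℂ) *
        cexp (2 * π * (Real.log n / Real.log T : ℝ) * ξ * I) := by
    rw [Complex.ofReal_exp, ← Complex.exp_add, ← Complex.exp_add]
    congr 1
    push_cast
    ring
  unfold bz
  rw [h]
  ring

private theorem F3_int (φ : ℝ → ℂ) (hφ : Continuous φ)
    (hφi : ∀ m : ℕ, Integrable (fun ξ : ℝ => (1 + |ξ|) ^ m * ‖φ ξ‖)) : Integrable φ := by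
  refine Integrable.mono' (hφi 0) hφ.aestronglyMeasurable (Filter.Eventually.of_forall fun ξ => ?_)
  rw [pow_zero, one_mul]

private theorem F3_int2 (φ : ℝ → ℂ) (hφ : Continuous φ) (h : Integrable φ) (u : ℝ) :
    Integrable (fun ξ : ℝ => φ ξ * cexp (2 * π * u * ξ * I)) := by
  refine Integrable.mono' h.norm ?_ (Filter.Eventually.of_forall fun ξ => ?_)
  · exact (hφ.mul (by fun_prop)).aestronglyMeasurable
  · have h1 : (2 * π * u * ξ * I : ℂ) = ((2 * π * u * ξ : ℝ) : ℂ) * I := by push_cast; ring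
    rw [norm_mul, h1, Complex.norm_exp_ofReal_mul_I, mul_one]

private theorem F3_mu (U : Finset ℕ) (hU : ∀ p ∈ U, p.Prime) :
    (ArithmeticFunction.moebius (∏ p ∈ U, p) : ℤ) = (-1) ^ U.card := by
  rw [ArithmeticFunction.isMultiplicative_moebius.map_prod_of_prime U hU,
    Finset.prod_congr rfl fun p hp => ArithmeticFunction.moebius_apply_prime (hU p hp), prod_const]

private theorem F3_XX (w : Om) (U : Finset ℕ) (hU : ∀ p ∈ U, p.Prime) :
    XX w (∏ p ∈ U, p) = ∏ p ∈ U, X p w := by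
  rw [map_prod]
  exact prod_congr rfl fun p hp => XX_prime w (hU p hp)

private theorem F3_cpow (z : ℂ) {n : ℕ} (hn : n ≠ 0) : ((n : ℂ) ^ (-(1 / 2 + z) : ℂ)) =
    (((n : ℝ) ^ (-(1 / 2) : ℝ) : ℝ) : ℂ) * cexp (-(z * (Real.log n : ℝ))) := by
  have hn' : (n : ℂ) ≠ 0 := Nat.cast_ne_zero.2 hn
  have h1 : Complex.log (n : ℂ) = ((Real.log n : ℝ) : ℂ) := (Complex.natCast_log).symm
  have h2 : (((n : ℝ) ^ (-(1 / 2) : ℝ) : ℝ) : ℂ) = cexp (((Real.log n : ℝ) : ℂ) * (-(1 / 2))) := by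
    rw [Real.rpow_def_of_pos (by exact_mod_cast Nat.pos_of_ne_zero hn), Complex.ofReal_exp]
    push_cast
    rfl
  rw [Complex.cpow_def_of_ne_zero hn', h1, h2, ← Complex.exp_add]
  congr 1
  ring

private theorem F3_exp {ζ : ℂ} (h : 0 ≤ ζ.re) : ‖1 - cexp (-ζ)‖ ≤ min 2 ‖ζ‖ := by
  refine le_min ?_ ?_
  · have h1 : ‖cexp (-ζ)‖ ≤ 1 := by
      rw [Complex.norm_exp, Complex.neg_re]
      exact Real.exp_le_one_iff.2 (by linarith)
    calc ‖1 - cexp (-ζ)‖ ≤ ‖(1 : ℂ)‖ + ‖cexp (-ζ)‖ := norm_sub_le _ _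
      _ ≤ 1 + 1 := by rw [norm_one]; linarith
      _ = 2 := by norm_num
  · have hs : Convex ℝ {w : ℂ | w.re ≤ 0} := convex_halfSpace_re_le 0
    have h1 := Convex.norm_image_sub_le_of_norm_deriv_le (𝕜 := ℂ) (f := cexp) (C := 1)
      (s := {w : ℂ | w.re ≤ 0}) (x := 0) (y := -ζ) (fun x _ => Complex.differentiableAt_exp)
      (fun x hx => by
        rw [Complex.deriv_exp, Complex.norm_exp]
        exact Real.exp_le_one_iff.2 hx) hs (by simp) (by simpa using h)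
    rw [Complex.exp_zero, sub_zero, norm_neg, one_mul, norm_sub_rev] at h1
    exact h1

private theorem F3_re (s0 T ξ : ℝ) (z : ℂ) :
    (z + (s0 - 2 * π * ξ * I) / (Real.log T : ℝ)).re = z.re + s0 / Real.log T := by
  rw [Complex.add_re, Complex.div_ofReal_re]
  congr 2
  simp

theorem MO_eq (p : ℝ → ℝ) (hp0 : ∀ u : ℝ, 9 / 20 ≤ u → p u = 0) (s0 : ℝ) (φ : ℝ → ℂ)
    (hφ : Continuous φ) (hφi : ∀ m : ℕ, Integrable (fun ξ : ℝ => (1 + |ξ|) ^ m * ‖φ ξ‖))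
    (hF : ∀ u : ℝ, 0 ≤ u → (p u : ℂ) =
      (Real.exp (-(s0 * u)) : ℂ) * ∫ ξ : ℝ, φ ξ * cexp (2 * π * u * ξ * I))
    {T : ℝ} (hT : Real.exp 3 ≤ T) {M : ℕ} (hM : T ^ (9 / 20 : ℝ) ≤ M) (z : ℂ) (w : Om) :
    ∑ n ∈ Finset.Icc 1 ⌊T ^ (9 / 20 : ℝ)⌋₊, ((((ArithmeticFunction.moebius n : ℤ) : ℝ) *
      p (Real.log n / Real.log T) : ℝ) : ℂ) * nX z w n =
    ∫ ξ : ℝ, φ ξ * ∏ q ∈ Nat.primesBelow M, (1 - bz s0 T ξ z q * X q w) := by
  have hL : 0 < Real.log T := by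
    have h1 : (3 : ℝ) ≤ Real.log T := by
      rw [Real.le_log_iff_exp_le ((Real.exp_pos 3).trans_le hT)]; exact hT
    linarith
  have hT0 : 0 < T := (Real.exp_pos 3).trans_le hT
  have hφ1 := F3_int φ hφ hφi
  have hP : ∀ U ∈ (Nat.primesBelow M).powerset, ∀ p ∈ U, p.Prime := fun U hU p hp =>
    Nat.prime_of_mem_primesBelow (mem_powerset.1 hU hp)
  -- the integrals
  have hI : ∀ n : ℕ, n ≠ 0 → ∫ ξ : ℝ, φ ξ * bz s0 T ξ z n =
      ((((n : ℝ) ^ (-(1 / 2) : ℝ) : ℝ) : ℂ) * cexp (-(z * (Real.log n : ℝ)))) *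
        (p (Real.log n / Real.log T) : ℂ) := by
    intro n hn
    have hu : 0 ≤ Real.log n / Real.log T :=
      div_nonneg (Real.log_nonneg (by exact_mod_cast Nat.one_le_iff_ne_zero.2 hn)) hL.le
    rw [hF _ hu, ← mul_assoc, ← integral_const_mul]
    refine integral_congr_ae (Filter.Eventually.of_forall fun ξ => ?_)
    show φ ξ * bz s0 T ξ z n = _
    rw [F3_bz]
    ring
  have hII : ∀ n : ℕ, Integrable (fun ξ : ℝ => φ ξ * bz s0 T ξ z n) := by
    intro n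
    have h1 := (F3_int2 φ hφ hφ1 (Real.log n / Real.log T)).const_mul
      (((((n : ℝ) ^ (-(1 / 2) : ℝ) : ℝ) : ℂ) * cexp (-(z * (Real.log n : ℝ)))) *
        (Real.exp (-(s0 * (Real.log n / Real.log T))) : ℂ))
    refine h1.congr (Filter.Eventually.of_forall fun ξ => ?_)
    show _ = φ ξ * bz s0 T ξ z n
    rw [F3_bz]
    ring
  -- the integrand
  have hE : ∀ ξ : ℝ, φ ξ * ∏ q ∈ Nat.primesBelow M, (1 - bz s0 T ξ z q * X q w) =
      ∑ U ∈ (Nat.primesBelow M).powerset,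
        ((((-1) ^ U.card : ℤ) : ℂ) * XX w (∏ q ∈ U, q)) * (φ ξ * bz s0 T ξ z (∏ q ∈ U, q)) := by
    intro ξ
    have h1 : ∏ q ∈ Nat.primesBelow M, (1 - bz s0 T ξ z q * X q w) =
        ∏ q ∈ Nat.primesBelow M, (1 + -(bz s0 T ξ z q * X q w)) :=
      prod_congr rfl fun q _ => sub_eq_add_neg _ _
    rw [h1, Finset.prod_one_add, mul_sum]
    refine sum_congr rfl fun U hU => ?_
    rw [prod_neg, prod_mul_distrib, F3_prod s0 T ξ z U fun q hq => (hP U hU q hq).ne_zero,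
      F3_XX w U (hP U hU)]
    push_cast
    ring
  have hS : ∫ ξ : ℝ, φ ξ * ∏ q ∈ Nat.primesBelow M, (1 - bz s0 T ξ z q * X q w) =
      ∑ U ∈ (Nat.primesBelow M).powerset, ((((-1) ^ U.card : ℤ) : ℂ) * XX w (∏ q ∈ U, q)) *
        (((((((∏ q ∈ U, q : ℕ) : ℝ) ^ (-(1 / 2) : ℝ) : ℝ)) : ℂ) *
          cexp (-(z * (Real.log ((∏ q ∈ U, q : ℕ) : ℝ) : ℝ)))) *
          (p (Real.log ((∏ q ∈ U, q : ℕ) : ℝ) / Real.log T) : ℂ)) := by
    simp_rw [hE]
    rw [integral_finsetSum _ fun U _ => (hII _).const_mul _]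
    refine sum_congr rfl fun U hU => ?_
    rw [integral_const_mul, hI _ (prod_ne_zero_iff.2 fun q hq => (hP U hU q hq).ne_zero)]
  rw [hS]
  symm
  have hz : ∀ n : ℕ, T ^ (9 / 20 : ℝ) ≤ n → p (Real.log n / Real.log T) = 0 := by
    intro n hn
    refine hp0 _ ?_
    rw [le_div_iff₀ hL, ← Real.log_rpow hT0]
    exact Real.log_le_log (Real.rpow_pos_of_pos hT0 _) hn
  refine sum_bij_ne_zero (fun U _ _ => ∏ q ∈ U, q) ?_ ?_ ?_ ?_
  · intro U hU h0
    have hne : (∏ q ∈ U, q) ≠ 0 := prod_ne_zero_iff.2 fun q hq => (hP U hU q hq).ne_zero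
    refine mem_Icc.2 ⟨Nat.one_le_iff_ne_zero.2 hne, Nat.le_floor ?_⟩
    by_contra h1
    push Not at h1
    refine h0 ?_
    rw [hz _ h1.le]
    simp
  · intro U hU _ V hV _ h
    rw [← Nat.primeFactors_prod (hP U hU), ← Nat.primeFactors_prod (hP V hV)]
    exact congrArg Nat.primeFactors h
  · intro n hn h0
    have hn1 := mem_Icc.1 hn
    have hsq : Squarefree n := by
      by_contra h1
      refine h0 ?_
      rw [ArithmeticFunction.moebius_eq_zero_of_not_squarefree h1]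
      simp
    have hlt : (n : ℝ) < T ^ (9 / 20 : ℝ) := by
      by_contra h1
      push Not at h1
      refine h0 ?_
      rw [hz _ h1]
      simp
    have hmem : n.primeFactors ∈ (Nat.primesBelow M).powerset := by
      refine mem_powerset.2 fun q hq => Nat.mem_primesBelow.2 ⟨?_, Nat.prime_of_mem_primeFactors hq⟩
      have h1 : q ≤ n := Nat.le_of_mem_primeFactors hq
      have h2 : (n : ℝ) < M := hlt.trans_le hM
      exact h1.trans_lt (by exact_mod_cast h2)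
    have hprod := Nat.prod_primeFactors_of_squarefree hsq
    refine ⟨n.primeFactors, hmem, ?_, hprod⟩
    intro h1
    refine h0 ?_
    rw [hprod] at h1
    have h2 := F3_mu n.primeFactors fun q hq => Nat.prime_of_mem_primeFactors hq
    rw [hprod] at h2
    rw [h2, nX_apply z w (by omega), F3_cpow z (by omega), ← h1]
    push_cast
    ring
  · intro U hU _
    have hne : (∏ q ∈ U, q) ≠ 0 := prod_ne_zero_iff.2 fun q hq => (hP U hU q hq).ne_zero
    have h2 := F3_mu U (hP U hU)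
    rw [nX_apply z w hne, h2, F3_cpow z hne]
    push_cast
    ring

/-- The size of the coefficients. Here `1/2 + Re z + s0/log T ≥ 1/2` is used. -/
theorem bz_le {s0 T : ℝ} (hT : 1 < T) {z : ℂ} (hz : 0 ≤ z.re + s0 / Real.log T) (ξ : ℝ) {p : ℕ}
    (hp : p.Prime) : ‖bz s0 T ξ z p‖ ≤ (p : ℝ) ^ (-(1 / 2) : ℝ) := by
  have hp0 : (0 : ℝ) ≤ (p : ℝ) ^ (-(1 / 2) : ℝ) := Real.rpow_nonneg (Nat.cast_nonneg p) _
  unfold bz
  rw [norm_mul, Complex.norm_real, Real.norm_of_nonneg hp0]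
  refine mul_le_of_le_one_right hp0 ?_
  rw [Complex.norm_exp]
  refine Real.exp_le_one_iff.2 ?_
  rw [Complex.neg_re, Complex.re_mul_ofReal, F3_re]
  have := mul_nonneg hz (Real.log_nonneg (by exact_mod_cast hp.one_le : (1 : ℝ) ≤ p))
  linarith

/-- Distance from `p^{-1/2}`: `‖1 - e^{-ζ}‖ ≤ min 2 ‖ζ‖` for `Re ζ ≥ 0`. -/
theorem bz_sub {s0 T : ℝ} (hT : 1 < T) {z : ℂ} (hz : 0 ≤ z.re + s0 / Real.log T) (ξ : ℝ) {p : ℕ}
    (hp : p.Prime) : ‖(((p : ℝ) ^ (-(1 / 2) : ℝ) : ℝ) : ℂ) - bz s0 T ξ z p‖ ≤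
      min 2 ((|s0| + 7 * |ξ| + Real.log T * ‖z‖) * (Real.log p / Real.log T)) *
        (p : ℝ) ^ (-(1 / 2) : ℝ) := by
  have hL : 0 < Real.log T := Real.log_pos hT
  have hp0 : (0 : ℝ) ≤ (p : ℝ) ^ (-(1 / 2) : ℝ) := Real.rpow_nonneg (Nat.cast_nonneg p) _
  have hlp : 0 ≤ Real.log p := Real.log_nonneg (by exact_mod_cast hp.one_le)
  have h1 : (((p : ℝ) ^ (-(1 / 2) : ℝ) : ℝ) : ℂ) - bz s0 T ξ z p =
      (((p : ℝ) ^ (-(1 / 2) : ℝ) : ℝ) : ℂ) *
        (1 - cexp (-((z + (s0 - 2 * π * ξ * I) / (Real.log T : ℝ)) * (Real.log p : ℝ)))) := by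
    unfold bz; ring
  rw [h1, norm_mul, Complex.norm_real, Real.norm_of_nonneg hp0, mul_comm]
  refine mul_le_mul_of_nonneg_right ((F3_exp ?_).trans (min_le_min le_rfl ?_)) hp0
  · rw [Complex.re_mul_ofReal, F3_re]
    exact mul_nonneg hz hlp
  · rw [norm_mul, Complex.norm_real, Real.norm_of_nonneg hlp]
    have h2 : ‖z + (s0 - 2 * π * ξ * I) / (Real.log T : ℝ)‖ ≤ ‖z‖ + (|s0| + 7 * |ξ|) / Real.log T := by
      refine (norm_add_le _ _).trans ?_
      gcongr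
      rw [norm_div, Complex.norm_real, Real.norm_of_nonneg hL.le]
      gcongr
      refine (norm_sub_le _ _).trans ?_
      have h3 : ‖(s0 : ℂ)‖ = |s0| := by rw [Complex.norm_real, Real.norm_eq_abs]
      have h4 : ‖(2 * π * ξ * I : ℂ)‖ = 2 * π * |ξ| := by
        rw [show (2 * π * ξ * I : ℂ) = ((2 * π * ξ : ℝ) : ℂ) * I by push_cast; ring, norm_mul,
          Complex.norm_I, mul_one, Complex.norm_real, Real.norm_eq_abs, abs_mul,
          abs_of_pos (by positivity : (0 : ℝ) < 2 * π)]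
      rw [h3, h4]
      have h5 : 2 * π ≤ 7 := by
        have := Real.pi_lt_d2
        linarith
      gcongr
    calc ‖z + (s0 - 2 * π * ξ * I) / (Real.log T : ℝ)‖ * Real.log p
        ≤ (‖z‖ + (|s0| + 7 * |ξ|) / Real.log T) * Real.log p := by gcongr
      _ = (|s0| + 7 * |ξ| + Real.log T * ‖z‖) * (Real.log p / Real.log T) := by
        field_simp
        ring

theorem bz_continuous (s0 T : ℝ) (z : ℂ) (p : ℕ) : Continuous fun ξ : ℝ => bz s0 T ξ z p := by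
  unfold bz
  fun_prop

end Pool.Agent.LB
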