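import Pool.Agent.Lib.MP_69b2e4_nt.Mg.G026
import Pool.Agent.Lib.MP_69b2e4_nt.LB.C4
import Pool.Agent.Lib.MP_69b2e4_nt.Mg.G029
import Pool.Agent.Lib.MP_69b2e4_nt.Mg.G024

/-! TASK C5. The sharp half line. `L = log T`, `h = 1/(20n)`, `η_m = em b n m`, `m < N = nP b n`, `η_0 = e0 b`, `η_N = 1`. Split `(e0 b · L, ∞) = ⋃_m (η_m L, η_{m+1} L] ∪ (L, ∞)`. The last part: `HH_tail` and `wa_sum` (`≤ C T^{-1} T^{12/25 + 9/20}.. ≤ √T·small`; `HH_tail` for `β = bt 0 = be 1 0`).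
On a piece: `e^{-2 sgn (R0/L) y} ≤ e^{2R0h} e^{-2R0 sgn η_m}`, `HH_frozen` with `κ`, then `piece` for `β = be (1+2 sgn η_m) 2`, for `be 1 0` and for `bt2` (`|1+2 sgn η_m| ≤ 3`).
Main part: `∑_m e^{2R0h} e^{-2R0 sgn η_m} (1+κ)² ∑_ρ ‖cs(be c_m 2)(ρ)‖² J_m(ρ)`, `cs (be c 2) = c A(ρ) + 2 B(ρ)` (`cs_lin`), `A, B` vanish for `ρ < T^{-23/50}` (`cs_small`): `reassembly` with `ε'`: `≤ e^{2R0h}(1+κ)² √2√T ∑_ρ ρ^{-1}(Ps ‖(1+sgn(1-2v))A+2B‖² + ε'(‖A‖²+‖B‖²))`. Where `Ps b v ≠ 0` we have `v ≤ 955/1000 ≤ 24/25`, so `A, B` are `Sc b T r 1 0 ρ`, `Sc b T r 0 1 ρ` (`cs_eq_fcs`); `∑_ρ ρ^{-1}(‖A‖²+‖B‖²) ≤ 2K Lam` (`bessel` with `η = 0`, `BB_be`).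
 `Ps ‖..‖² ≤ C(‖A‖²+‖B‖²)`, so replacing `e^{2R0h}(1+κ)²` by `1` costs `C (h+κ) K Lam √T`.
Error parts: `∑_m ∑_ρ ‖cs‖² J_m(ρ) ≤ ∑_ρ ‖cs‖² 2√T/ρ ≤ 2√T K Lam` (`Jp_total`, `bessel`), with the factor `(1+1/κ)(1+κ) 8(h+1/L)² e^{..}` for `be 1 0`, and `(1+1/κ) 8 K θ^6` for `bt2` (`BB_bt2`). The terms with `T^{12/25}` (number of pieces `≤ 29 n`, `T^{-η_m} ≤ T^{-e0 b}`, `wa_sum`) are `≤ ε √T` for `T ≥ T0`. Choose `κ`, `ε'`, then `n`, then `θ1`, then `T0`. -/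

set_option autoImplicit false

namespace Pool.Agent.LB

open Complex MeasureTheory Finset Pool.Agent.GH Pool.Agent.UH Pool.Agent.UV
open scoped Real ComplexConjugate

private lemma C5_split (g : ℝ → ENNReal) (a : ℕ → ℝ) (N : ℕ) :
    ∫⁻ y in Set.Ioi (a 0), g y ≤ (∑ m ∈ range N, ∫⁻ y in Set.Ioc (a m) (a (m + 1)), g y) +
      ∫⁻ y in Set.Ioi (a N), g y := by
  induction N with
  | zero => simp
  | succ N ih =>
    refine ih.trans ?_
    rw [Finset.sum_range_succ, add_assoc]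
    gcongr
    have h : Set.Ioi (a N) ⊆ Set.Ioc (a N) (a (N + 1)) ∪ Set.Ioi (a (N + 1)) := by
      intro y hy
      rcases le_or_gt y (a (N + 1)) with h1 | h1
      · exact Or.inl ⟨hy, h1⟩
      · exact Or.inr h1
    exact (lintegral_mono_set h).trans (lintegral_union_le _ _ _)

private lemma C5_sgn (b : Bool) : sgn b = 1 ∨ sgn b = -1 := by
  cases b
  · right; simp [sgn]
  · left; simp [sgn]

private lemma C5_em0 (b : Bool) (n : ℕ) : em b n 0 = e0 b := by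
  simp [em]

private lemma C5_emS {n : ℕ} (b : Bool) (m : ℕ) :
    em b n (m + 1) = em b n m + 1 / (20 * n) := by
  unfold em
  push_cast
  ring

private lemma C5_emN {n : ℕ} (hn : 1 ≤ n) (b : Bool) : em b n (nP b n) = 1 := by
  have hn0 : (n : ℝ) ≠ 0 := by
    have : (1 : ℝ) ≤ n := by exact_mod_cast hn
    linarith
  unfold em nP e0
  cases b
  · simp only [Bool.false_eq_true, if_false]
    push_cast
    field_simp
    norm_num
  · simp only [if_true]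
    push_cast
    field_simp
    norm_num

private lemma C5_em_ge (b : Bool) (n m : ℕ) : e0 b ≤ em b n m := by
  unfold em
  have : (0 : ℝ) ≤ m / (20 * n) := by positivity
  linarith

private lemma C5_em_le {n m : ℕ} (hn : 1 ≤ n) (b : Bool) (hm : m ≤ nP b n) : em b n m ≤ 1 := by
  rw [← C5_emN hn b]
  unfold em
  have h1 : (m : ℝ) ≤ nP b n := by exact_mod_cast hm
  have h2 : (0 : ℝ) ≤ 20 * n := by positivity
  have := div_le_div_of_nonneg_right h1 h2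
  linarith

private lemma C5_e0 (b : Bool) : -(9 / 20) ≤ e0 b ∧ e0 b ≤ 9 / 20 := by
  cases b <;> simp [e0] <;> norm_num

private lemma C5_GG_meas {T : ℝ} (hT : 1 ≤ T) (F : Finset (ℕ × ℕ)) (w : ℕ × ℕ → ℂ) :
    Measurable fun y : ℝ => ENNReal.ofReal (‖GG T F w y‖ ^ 2) := by
  have h1 : Continuous fun y : ℝ => GG T F w y := by
    unfold GG
    exact continuous_finsetSum _ fun q _ =>
      continuous_const.mul ((continuous_gg hT).comp (continuous_id.add continuous_const))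
  exact (h1.norm.pow 2).measurable.ennreal_ofReal

private lemma C5_frozen {b : Bool} {T κ η h : ℝ} (hT : Real.exp 1000 ≤ T) (r : ℕ → ℝ) (hκ : 0 < κ)
    (hh : 0 ≤ h) :
    ∫⁻ y in Set.Ioc (η * Real.log T) ((η + h) * Real.log T), ENNReal.ofReal
      (Real.exp (-(2 * sgn b * (R0 / Real.log T) * y)) * ‖HH b T (bt 0 T r) y‖ ^ 2) ≤
    ENNReal.ofReal (Real.exp (2 * R0 * h) * Real.exp (-(2 * R0 * sgn b * η))) *
      (ENNReal.ofReal (1 + κ) * (∫⁻ y in Set.Ioc (η * Real.log T) ((η + h) * Real.log T),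
        ENNReal.ofReal (‖GG T (Fb b T) (wb (be T r (1 + 2 * sgn b * η) 2)) y‖ ^ 2)) +
      ENNReal.ofReal ((1 + 1 / κ) * (8 * (h + 1 / Real.log T) ^ 2)) *
        (∫⁻ y in Set.Ioc (η * Real.log T) ((η + h) * Real.log T),
        ENNReal.ofReal (‖GG T (Fb b T) (wb (be T r 1 0)) y‖ ^ 2)) +
      ENNReal.ofReal ((1 + 1 / κ) * 8) *
        (∫⁻ y in Set.Ioc (η * Real.log T) ((η + h) * Real.log T),
        ENNReal.ofReal (‖GG T (Fb b T) (wb (bt2 T r)) y‖ ^ 2))) := by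
  have hT1 : 1 ≤ T := (Real.one_le_exp (by norm_num)).trans hT
  have hL : 1000 ≤ Real.log T := by
    have := Real.log_le_log (Real.exp_pos 1000) hT
    rwa [Real.log_exp] at this
  have hL0 : 0 < Real.log T := by linarith
  have hR : R0 = 6 / 5 := rfl
  have m1 := C5_GG_meas hT1 (Fb b T) (wb (be T r (1 + 2 * sgn b * η) 2))
  have m2 := C5_GG_meas hT1 (Fb b T) (wb (be T r 1 0))
  have m3 := C5_GG_meas hT1 (Fb b T) (wb (bt2 T r))
  have hk1 : 0 ≤ (1 + 1 / κ) * (8 * (h + 1 / Real.log T) ^ 2) := by positivity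
  have hk2 : 0 ≤ (1 + 1 / κ) * 8 := by positivity
  have m12 : Measurable fun y : ℝ => ENNReal.ofReal (1 + κ) *
      ENNReal.ofReal (‖GG T (Fb b T) (wb (be T r (1 + 2 * sgn b * η) 2)) y‖ ^ 2) +
      ENNReal.ofReal ((1 + 1 / κ) * (8 * (h + 1 / Real.log T) ^ 2)) *
      ENNReal.ofReal (‖GG T (Fb b T) (wb (be T r 1 0)) y‖ ^ 2) :=
    (m1.const_mul _).add (m2.const_mul _)
  have m123 : Measurable fun y : ℝ => ENNReal.ofReal (1 + κ) *
      ENNReal.ofReal (‖GG T (Fb b T) (wb (be T r (1 + 2 * sgn b * η) 2)) y‖ ^ 2) +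
      ENNReal.ofReal ((1 + 1 / κ) * (8 * (h + 1 / Real.log T) ^ 2)) *
      ENNReal.ofReal (‖GG T (Fb b T) (wb (be T r 1 0)) y‖ ^ 2) +
      ENNReal.ofReal ((1 + 1 / κ) * 8) *
      ENNReal.ofReal (‖GG T (Fb b T) (wb (bt2 T r)) y‖ ^ 2) := m12.add (m3.const_mul _)
  rw [← lintegral_const_mul _ m1, ← lintegral_const_mul _ m2, ← lintegral_const_mul _ m3,
    ← lintegral_add_left (m1.const_mul _), ← lintegral_add_left m12,
    ← lintegral_const_mul _ m123]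
  refine setLIntegral_mono' measurableSet_Ioc fun y hy => ?_
  rw [← ENNReal.ofReal_mul (by positivity), ← ENNReal.ofReal_mul hk1, ← ENNReal.ofReal_mul hk2,
    ← ENNReal.ofReal_add (by positivity) (by positivity),
    ← ENNReal.ofReal_add (by positivity) (by positivity), ← ENNReal.ofReal_mul (by positivity)]
  refine ENNReal.ofReal_le_ofReal ?_
  have h1 := HH_frozen (b := b) hT r hκ hh hy.1.le hy.2
  have h2 : Real.exp (-(2 * sgn b * (R0 / Real.log T) * y)) ≤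
      Real.exp (2 * R0 * h) * Real.exp (-(2 * R0 * sgn b * η)) := by
    rw [← Real.exp_add]
    apply Real.exp_le_exp.2
    have h3 : η ≤ y / Real.log T := by
      rw [le_div_iff₀ hL0]
      exact hy.1.le
    have h4 : y / Real.log T ≤ η + h := by
      rw [div_le_iff₀ hL0]
      exact hy.2
    have h5 : 2 * sgn b * (R0 / Real.log T) * y = 2 * R0 * sgn b * (y / Real.log T) := by ring
    rw [h5, hR]
    rcases C5_sgn b with h6 | h6 <;> rw [h6] <;> linarith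
  calc Real.exp (-(2 * sgn b * (R0 / Real.log T) * y)) * ‖HH b T (bt 0 T r) y‖ ^ 2
      ≤ (Real.exp (2 * R0 * h) * Real.exp (-(2 * R0 * sgn b * η))) *
        ((1 + κ) * ‖GG T (Fb b T) (wb (be T r (1 + 2 * sgn b * η) 2)) y‖ ^ 2 +
      (1 + 1 / κ) * (8 * (h + 1 / Real.log T) ^ 2 * ‖GG T (Fb b T) (wb (be T r 1 0)) y‖ ^ 2 +
        8 * ‖GG T (Fb b T) (wb (bt2 T r)) y‖ ^ 2)) :=
        mul_le_mul h2 h1 (by positivity) (by positivity)
    _ = _ := by ring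

/-- The diagonal sum of a piece. -/
private noncomputable def C5_D (b : Bool) (T : ℝ) (β : ℕ → ℝ) (η1 η2 : ℝ) : ENNReal :=
  ∑' ρ : ℚ, if 0 < ρ then ENNReal.ofReal
    (‖cs (M2 T) (Fb b T) (wb β) ρ‖ ^ 2 * Jp T η1 η2 ρ) else 0

private lemma C5_BB_nonneg (M : ℕ) (F : Finset (ℕ × ℕ)) (w : ℕ × ℕ → ℂ) (η : ℝ) :
    0 ≤ BB M F w η := by
  unfold BB
  exact integral_nonneg fun v => by positivity

private lemma C5_smooth {b : Bool} {T : ℝ} (hT : Real.exp 1000 ≤ T) :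
    ∀ q ∈ Fb b T, q.1 ∈ Nat.smoothNumbers (M2 T) ∧ q.2 ∈ Nat.smoothNumbers (M2 T) := by
  intro q hq
  have hT2 : 2 ≤ T := by
    have h1 : (1000 : ℝ) + 1 ≤ Real.exp 1000 := Real.add_one_le_exp 1000
    linarith
  have key : ∀ n : ℕ, 1 ≤ n → (n : ℝ) ≤ T ^ (23 / 50 : ℝ) → n ∈ Nat.smoothNumbers (M2 T) := by
    intro n hn1 hn2
    apply Nat.mem_smoothNumbers_of_lt (by omega)
    unfold M2
    apply Nat.lt_of_succ_le
    apply Nat.le_floor
    push_cast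
    have h3 : T ^ (23 / 50 : ℝ) ≤ T ^ (1 : ℝ) :=
      Real.rpow_le_rpow_of_exponent_le (by linarith) (by norm_num)
    rw [Real.rpow_one] at h3
    nlinarith
  have h1m : 1 ∈ Nat.smoothNumbers (M2 T) := by
    apply key 1 le_rfl
    push_cast
    exact Real.one_le_rpow (by linarith) (by norm_num)
  unfold Fb at hq
  rw [Finset.mem_image] at hq
  obtain ⟨n, hn, rfl⟩ := hq
  unfold GT at hn
  rw [Finset.mem_Icc] at hn
  have hn2 : (n : ℝ) ≤ T ^ (23 / 50 : ℝ) :=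
    (Nat.le_floor_iff (Real.rpow_nonneg (by linarith) _)).1 hn.2
  have h2 := key n hn.1 hn2
  unfold qs
  cases b
  · exact ⟨h1m, h2⟩
  · exact ⟨h2, h1m⟩

private lemma C5_Dsum {T1 : ℝ} (hJ : ∀ (b : Bool) (n : ℕ) (T ρ : ℝ), 1 ≤ n → T1 ≤ T → 0 < ρ →
      ∑ m ∈ range (nP b n), Jp T (em b n m) (em b n (m + 1)) ρ ≤ 2 * T ^ (1 / 2 : ℝ) / ρ)
    {n : ℕ} (hn : 1 ≤ n) {b : Bool} {T : ℝ} (hT : Real.exp 1000 ≤ T) (hT1 : T1 ≤ T) (β : ℕ → ℝ) :
    ∑ m ∈ range (nP b n), C5_D b T β (em b n m) (em b n (m + 1)) ≤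
      ENNReal.ofReal (2 * T ^ (1 / 2 : ℝ) * BB (M2 T) (Fb b T) (wb β) 0) := by
  have hT0 : 1 ≤ T := (Real.one_le_exp (by norm_num)).trans hT
  have hTp : 0 < T := by linarith
  unfold C5_D
  rw [← Summable.tsum_finsetSum (fun i _ => ENNReal.summable)]
  calc ∑' ρ : ℚ, ∑ m ∈ range (nP b n), (if 0 < ρ then ENNReal.ofReal
        (‖cs (M2 T) (Fb b T) (wb β) ρ‖ ^ 2 * Jp T (em b n m) (em b n (m + 1)) ρ) else 0)
      ≤ ∑' ρ : ℚ, ENNReal.ofReal (2 * T ^ (1 / 2 : ℝ)) *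
          ENNReal.ofReal (‖cs (M2 T) (Fb b T) (wb β) ρ‖ ^ 2 * (ρ : ℝ) ^ (-1 + 0 : ℝ)) := by
        refine ENNReal.tsum_le_tsum fun ρ => ?_
        by_cases hρ : 0 < ρ
        · have hρ1 : (0 : ℝ) < ρ := by exact_mod_cast hρ
          simp only [if_pos hρ]
          rw [← ENNReal.ofReal_sum_of_nonneg (fun m _ => mul_nonneg (by positivity)
            (Jp_nonneg hT0 (by rw [C5_emS]; linarith [show (0 : ℝ) ≤ 1 / (20 * n) by positivity]))),
            ← ENNReal.ofReal_mul (by positivity), ← Finset.mul_sum]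
          refine ENNReal.ofReal_le_ofReal ?_
          rw [add_zero, Real.rpow_neg_one]
          calc ‖cs (M2 T) (Fb b T) (wb β) ρ‖ ^ 2 *
                ∑ m ∈ range (nP b n), Jp T (em b n m) (em b n (m + 1)) ρ
              ≤ ‖cs (M2 T) (Fb b T) (wb β) ρ‖ ^ 2 * (2 * T ^ (1 / 2 : ℝ) / ρ) :=
                mul_le_mul_of_nonneg_left (hJ b n T ρ hn hT1 hρ1) (by positivity)
            _ = 2 * T ^ (1 / 2 : ℝ) * (‖cs (M2 T) (Fb b T) (wb β) ρ‖ ^ 2 * (ρ : ℝ)⁻¹) := by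
                rw [div_eq_mul_inv]
                ring
        · simp only [if_neg hρ, Finset.sum_const_zero]
          exact zero_le
    _ = ENNReal.ofReal (2 * T ^ (1 / 2 : ℝ)) * ∑' ρ : ℚ,
          ENNReal.ofReal (‖cs (M2 T) (Fb b T) (wb β) ρ‖ ^ 2 * (ρ : ℝ) ^ (-1 + 0 : ℝ)) :=
        ENNReal.tsum_mul_left
    _ ≤ ENNReal.ofReal (2 * T ^ (1 / 2 : ℝ)) * ENNReal.ofReal (BB (M2 T) (Fb b T) (wb β) 0) := by
        gcongr
        exact bessel le_rfl (by norm_num) (C5_smooth hT)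
    _ = ENNReal.ofReal (2 * T ^ (1 / 2 : ℝ) * BB (M2 T) (Fb b T) (wb β) 0) :=
        (ENNReal.ofReal_mul (by positivity)).symm

/-- The summand of the main term. -/
private noncomputable def C5_M (b : Bool) (T : ℝ) (r : ℕ → ℝ) (ρ : ℚ) : ℝ :=
  if 0 < ρ then (ρ : ℝ)⁻¹ * (Ps b (Real.log ρ / Real.log T) *
    ‖(1 + sgn b * (1 - 2 * (Real.log ρ / Real.log T)) : ℝ) * Sc b T r 1 0 ρ +
      2 * Sc b T r 0 1 ρ‖ ^ 2) else 0

/-- The summand of the error term. -/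
private noncomputable def C5_X (b : Bool) (T : ℝ) (r : ℕ → ℝ) (ρ : ℚ) : ℝ :=
  if 0 < ρ then (ρ : ℝ)⁻¹ * (‖cs (M2 T) (Fb b T) (wb (be T r 1 0)) ρ‖ ^ 2 +
    ‖cs (M2 T) (Fb b T) (wb (be T r 0 1)) ρ‖ ^ 2) else 0

private lemma C5_Ps_nonneg (b : Bool) (v : ℝ) : 0 ≤ Ps b v := by
  unfold Ps cu
  exact mul_nonneg (Real.exp_pos _).le (Real.smoothTransition.nonneg _)

private lemma C5_Ps_zero (b : Bool) {v : ℝ} (hv : 955 / 1000 ≤ v) : Ps b v = 0 := by
  unfold Ps cu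
  have h1 : Real.smoothTransition (500 * ((if b then 955 / 1000 else 55 / 1000) - v)) = 0 := by
    apply Real.smoothTransition.zero_of_nonpos
    cases b
    · simp only [Bool.false_eq_true, if_false]
      linarith
    · simp only [if_true]
      linarith
  rw [h1, mul_zero]

private lemma C5_M_nonneg (b : Bool) (T : ℝ) (r : ℕ → ℝ) (ρ : ℚ) : 0 ≤ C5_M b T r ρ := by
  unfold C5_M
  split_ifs with h
  · have h1 : (0 : ℝ) < ρ := by exact_mod_cast h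
    have := C5_Ps_nonneg b (Real.log ρ / Real.log T)
    positivity
  · exact le_rfl

private lemma C5_X_nonneg (b : Bool) (T : ℝ) (r : ℕ → ℝ) (ρ : ℚ) : 0 ≤ C5_X b T r ρ := by
  unfold C5_X
  split_ifs with h
  · have h1 : (0 : ℝ) < ρ := by exact_mod_cast h
    positivity
  · exact le_rfl

/-- The main term with the smooth coefficients. -/
private lemma C5_M_eq {b : Bool} {T : ℝ} (hT : Real.exp 1000 ≤ T) (r : ℕ → ℝ) {ρ : ℚ}
    (hρ : 0 < ρ) : C5_M b T r ρ = (ρ : ℝ)⁻¹ * (Ps b (Real.log ρ / Real.log T) *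
    ‖(1 + sgn b * (1 - 2 * (Real.log ρ / Real.log T)) : ℝ) *
      cs (M2 T) (Fb b T) (wb (be T r 1 0)) ρ +
      2 * cs (M2 T) (Fb b T) (wb (be T r 0 1)) ρ‖ ^ 2) := by
  have hT0 : 1 ≤ T := (Real.one_le_exp (by norm_num)).trans hT
  have hL : 1000 ≤ Real.log T := by
    have := Real.log_le_log (Real.exp_pos 1000) hT
    rwa [Real.log_exp] at this
  have hρ1 : (0 : ℝ) < ρ := by exact_mod_cast hρ
  unfold C5_M
  rw [if_pos hρ]
  by_cases h : (ρ : ℝ) ≤ T ^ (24 / 25 : ℝ)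
  · rw [cs_eq_fcs hT _ h, cs_eq_fcs hT _ h]
    rfl
  · push Not at h
    have h1 : 24 / 25 ≤ Real.log ρ / Real.log T := by
      rw [le_div_iff₀ (by linarith), ← Real.log_rpow (by linarith)]
      exact Real.log_le_log (by positivity) h.le
    rw [C5_Ps_zero b (by linarith), zero_mul, zero_mul]

private lemma C5_X_tsum {b : Bool} {T : ℝ} (hT : Real.exp 1000 ≤ T) (r : ℕ → ℝ) :
    ∑' ρ : ℚ, ENNReal.ofReal (C5_X b T r ρ) ≤
      ENNReal.ofReal (BB (M2 T) (Fb b T) (wb (be T r 1 0)) 0 +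
        BB (M2 T) (Fb b T) (wb (be T r 0 1)) 0) := by
  rw [ENNReal.ofReal_add (C5_BB_nonneg _ _ _ _) (C5_BB_nonneg _ _ _ _)]
  refine le_trans ?_ (add_le_add
    (bessel (w := wb (be T r 1 0)) le_rfl (by norm_num) (C5_smooth (b := b) hT))
    (bessel (w := wb (be T r 0 1)) le_rfl (by norm_num) (C5_smooth (b := b) hT)))
  rw [← ENNReal.tsum_add]
  refine ENNReal.tsum_le_tsum fun ρ => ?_
  unfold C5_X
  split_ifs with h
  · have h1 : (0 : ℝ) < ρ := by exact_mod_cast h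
    rw [← ENNReal.ofReal_add (by positivity) (by positivity)]
    refine ENNReal.ofReal_le_ofReal (le_of_eq ?_)
    rw [add_zero, Real.rpow_neg_one]
    ring
  · rw [ENNReal.ofReal_zero]
    exact zero_le

private lemma C5_small {b : Bool} {T : ℝ} (hT : Real.exp 1000 ≤ T) (β : ℕ → ℝ) {ρ : ℚ}
    (hρ : (ρ : ℝ) < T ^ (-(23 / 50) : ℝ)) : cs (M2 T) (Fb b T) (wb β) ρ = 0 :=
  (cs_small hT β hρ).1

/-- The main term is bounded by the error term. -/
private lemma C5_M_le {b : Bool} {T : ℝ} (hT : Real.exp 1000 ≤ T) (r : ℕ → ℝ) (ρ : ℚ) :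
    C5_M b T r ρ ≤ 18 * Real.exp (12 / 5) * C5_X b T r ρ := by
  have hT0 : 1 ≤ T := (Real.one_le_exp (by norm_num)).trans hT
  have hL : 1000 ≤ Real.log T := by
    have := Real.log_le_log (Real.exp_pos 1000) hT
    rwa [Real.log_exp] at this
  have hX := C5_X_nonneg b T r ρ
  by_cases hρ : 0 < ρ
  · have hρ1 : (0 : ℝ) < ρ := by exact_mod_cast hρ
    rw [C5_M_eq hT r hρ]
    by_cases hs : (ρ : ℝ) < T ^ (-(23 / 50) : ℝ)
    · rw [C5_small hT _ hs, C5_small hT _ hs]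
      simp only [mul_zero, add_zero, norm_zero]
      have : (0 : ℝ) ^ 2 = 0 := by norm_num
      rw [this, mul_zero, mul_zero]
      positivity
    · push Not at hs
      set v := Real.log ρ / Real.log T with hv
      have hv1 : -(23 / 50) ≤ v := by
        rw [hv, le_div_iff₀ (by linarith), ← Real.log_rpow (by linarith)]
        exact Real.log_le_log (by positivity) hs
      by_cases hv2 : 955 / 1000 ≤ v
      · rw [C5_Ps_zero b hv2, zero_mul, mul_zero]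
        positivity
      · push Not at hv2
        set A := cs (M2 T) (Fb b T) (wb (be T r 1 0)) ρ with hA
        set B := cs (M2 T) (Fb b T) (wb (be T r 0 1)) ρ with hB
        have hP : Ps b v ≤ Real.exp (12 / 5) := by
          unfold Ps cu
          have h1 : Real.exp (-(2 * R0 * sgn b * (1 / 2 - v))) ≤ Real.exp (12 / 5) := by
            apply Real.exp_le_exp.2
            have hR : R0 = 6 / 5 := rfl
            rw [hR]
            rcases C5_sgn b with h6 | h6 <;> rw [h6] <;> linarith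
          calc _ ≤ Real.exp (12 / 5) * 1 := mul_le_mul h1 (Real.smoothTransition.le_one _)
                (Real.smoothTransition.nonneg _) (Real.exp_pos _).le
            _ = Real.exp (12 / 5) := mul_one _
        have hc : |1 + sgn b * (1 - 2 * v)| ≤ 3 := by
          rcases C5_sgn b with h6 | h6 <;> rw [h6, abs_le] <;> constructor <;> linarith
        have hn : ‖((1 + sgn b * (1 - 2 * v) : ℝ) : ℂ) * A + 2 * B‖ ^ 2 ≤
            18 * (‖A‖ ^ 2 + ‖B‖ ^ 2) := by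
          have h1 : ‖((1 + sgn b * (1 - 2 * v) : ℝ) : ℂ) * A + 2 * B‖ ≤ 3 * ‖A‖ + 2 * ‖B‖ := by
            refine (norm_add_le _ _).trans ?_
            rw [norm_mul, norm_mul, Complex.norm_real, Real.norm_eq_abs, Complex.norm_ofNat]
            have := mul_le_mul_of_nonneg_right hc (norm_nonneg A)
            linarith
          have h2 : 0 ≤ ‖((1 + sgn b * (1 - 2 * v) : ℝ) : ℂ) * A + 2 * B‖ := norm_nonneg _
          have h3 := norm_nonneg A
          have h4 := norm_nonneg B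
          nlinarith [sq_nonneg (3 * ‖A‖ - 2 * ‖B‖), sq_nonneg ‖B‖]
        have hX2 : C5_X b T r ρ = (ρ : ℝ)⁻¹ * (‖A‖ ^ 2 + ‖B‖ ^ 2) := by
          unfold C5_X
          rw [if_pos hρ]
        rw [hX2]
        calc (ρ : ℝ)⁻¹ * (Ps b v * ‖((1 + sgn b * (1 - 2 * v) : ℝ) : ℂ) * A + 2 * B‖ ^ 2)
            ≤ (ρ : ℝ)⁻¹ * (Real.exp (12 / 5) * (18 * (‖A‖ ^ 2 + ‖B‖ ^ 2))) :=
              mul_le_mul_of_nonneg_left (mul_le_mul hP hn (by positivity) (by positivity))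
                (by positivity)
          _ = 18 * Real.exp (12 / 5) * ((ρ : ℝ)⁻¹ * (‖A‖ ^ 2 + ‖B‖ ^ 2)) := by ring
  · unfold C5_M
    rw [if_neg hρ]
    positivity

private lemma C5_M_tsum {b : Bool} {T : ℝ} (hT : Real.exp 1000 ≤ T) (r : ℕ → ℝ) :
    Summable (C5_M b T r) ∧ ∑' ρ : ℚ, C5_M b T r ρ ≤ 18 * Real.exp (12 / 5) *
      (BB (M2 T) (Fb b T) (wb (be T r 1 0)) 0 + BB (M2 T) (Fb b T) (wb (be T r 0 1)) 0) := by
  have hBB : 0 ≤ BB (M2 T) (Fb b T) (wb (be T r 1 0)) 0 + BB (M2 T) (Fb b T) (wb (be T r 0 1)) 0 :=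
    add_nonneg (C5_BB_nonneg _ _ _ _) (C5_BB_nonneg _ _ _ _)
  have h1 : ∑' ρ : ℚ, ENNReal.ofReal (C5_M b T r ρ) ≤ ENNReal.ofReal (18 * Real.exp (12 / 5) *
      (BB (M2 T) (Fb b T) (wb (be T r 1 0)) 0 + BB (M2 T) (Fb b T) (wb (be T r 0 1)) 0)) := by
    calc ∑' ρ : ℚ, ENNReal.ofReal (C5_M b T r ρ)
        ≤ ∑' ρ : ℚ, ENNReal.ofReal (18 * Real.exp (12 / 5)) * ENNReal.ofReal (C5_X b T r ρ) := by
          refine ENNReal.tsum_le_tsum fun ρ => ?_
          rw [← ENNReal.ofReal_mul (by positivity)]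
          exact ENNReal.ofReal_le_ofReal (C5_M_le hT r ρ)
      _ = ENNReal.ofReal (18 * Real.exp (12 / 5)) * ∑' ρ : ℚ, ENNReal.ofReal (C5_X b T r ρ) :=
          ENNReal.tsum_mul_left
      _ ≤ _ := by
          rw [ENNReal.ofReal_mul (p := 18 * Real.exp (12 / 5)) (by positivity)]
          gcongr
          exact C5_X_tsum hT r
  have hs : Summable (C5_M b T r) := by
    have h2 := ENNReal.summable_toReal (ne_top_of_le_ne_top ENNReal.ofReal_ne_top h1)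
    refine h2.congr fun ρ => ?_
    rw [ENNReal.toReal_ofReal (C5_M_nonneg b T r ρ)]
  refine ⟨hs, ?_⟩
  rw [← ENNReal.ofReal_tsum_of_nonneg (C5_M_nonneg b T r) hs] at h1
  exact (ENNReal.ofReal_le_ofReal_iff (by positivity)).1 h1

/-- The main parts of all the pieces. -/
private lemma C5_main {ε' : ℝ} (hε' : 0 ≤ ε') {n : ℕ} {T2 : ℝ}
    (hre : ∀ (b : Bool) (T ρ : ℝ) (A B : ℂ), T2 ≤ T → T ^ (-(1 / 2) : ℝ) ≤ ρ →
    ∑ m ∈ range (nP b n), Real.exp (-(2 * R0 * sgn b * em b n m)) *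
      ‖(1 + 2 * sgn b * em b n m : ℝ) * A + 2 * B‖ ^ 2 * Jp T (em b n m) (em b n (m + 1)) ρ ≤
    √2 * T ^ (1 / 2 : ℝ) / ρ * (Ps b (Real.log ρ / Real.log T) *
      ‖(1 + sgn b * (1 - 2 * (Real.log ρ / Real.log T)) : ℝ) * A + 2 * B‖ ^ 2 +
      ε' * (‖A‖ ^ 2 + ‖B‖ ^ 2)))
    {b : Bool} {T : ℝ} (hT : Real.exp 1000 ≤ T) (hT2 : T2 ≤ T) (r : ℕ → ℝ) :
    ∑ m ∈ range (nP b n), ENNReal.ofReal (Real.exp (-(2 * R0 * sgn b * em b n m))) *
      C5_D b T (be T r (1 + 2 * sgn b * em b n m) 2) (em b n m) (em b n (m + 1)) ≤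
    ENNReal.ofReal (√2 * T ^ (1 / 2 : ℝ)) * (ENNReal.ofReal (∑' ρ : ℚ, C5_M b T r ρ) +
      ENNReal.ofReal (ε' * (BB (M2 T) (Fb b T) (wb (be T r 1 0)) 0 +
        BB (M2 T) (Fb b T) (wb (be T r 0 1)) 0))) := by
  have hT0 : 1 ≤ T := (Real.one_le_exp (by norm_num)).trans hT
  have hTp : 0 < T := by linarith
  unfold C5_D
  simp_rw [← ENNReal.tsum_mul_left]
  rw [← Summable.tsum_finsetSum (fun i _ => ENNReal.summable)]
  calc ∑' ρ : ℚ, ∑ m ∈ range (nP b n), ENNReal.ofReal (Real.exp (-(2 * R0 * sgn b * em b n m))) *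
        (if 0 < ρ then ENNReal.ofReal
        (‖cs (M2 T) (Fb b T) (wb (be T r (1 + 2 * sgn b * em b n m) 2)) ρ‖ ^ 2 *
          Jp T (em b n m) (em b n (m + 1)) ρ) else 0)
      ≤ ∑' ρ : ℚ, ENNReal.ofReal (√2 * T ^ (1 / 2 : ℝ)) *
          (ENNReal.ofReal (C5_M b T r ρ) + ENNReal.ofReal ε' * ENNReal.ofReal (C5_X b T r ρ)) := by
        refine ENNReal.tsum_le_tsum fun ρ => ?_
        by_cases hρ : 0 < ρ
        · have hρ1 : (0 : ℝ) < ρ := by exact_mod_cast hρ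
          simp only [if_pos hρ]
          have hJ0 : ∀ m : ℕ, 0 ≤ Jp T (em b n m) (em b n (m + 1)) ρ := fun m =>
            Jp_nonneg hT0 (by rw [C5_emS]; linarith [show (0 : ℝ) ≤ 1 / (20 * n) by positivity])
          simp_rw [← ENNReal.ofReal_mul (Real.exp_pos _).le]
          rw [← ENNReal.ofReal_sum_of_nonneg (fun m _ => mul_nonneg (Real.exp_pos _).le
            (mul_nonneg (by positivity) (hJ0 m))),
            ← ENNReal.ofReal_mul hε', ← ENNReal.ofReal_add (C5_M_nonneg b T r ρ)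
            (mul_nonneg hε' (C5_X_nonneg b T r ρ)), ← ENNReal.ofReal_mul (by positivity)]
          refine ENNReal.ofReal_le_ofReal ?_
          have hcs : ∀ m : ℕ, cs (M2 T) (Fb b T) (wb (be T r (1 + 2 * sgn b * em b n m) 2)) ρ =
              ((1 + 2 * sgn b * em b n m : ℝ) : ℂ) * cs (M2 T) (Fb b T) (wb (be T r 1 0)) ρ +
              2 * cs (M2 T) (Fb b T) (wb (be T r 0 1)) ρ := by
            intro m
            rw [cs_lin, Complex.ofReal_ofNat]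
          by_cases hs : (ρ : ℝ) < T ^ (-(1 / 2) : ℝ)
          · have hs2 : (ρ : ℝ) < T ^ (-(23 / 50) : ℝ) :=
              hs.trans_le (Real.rpow_le_rpow_of_exponent_le hT0 (by norm_num))
            have h0 : ∀ m ∈ range (nP b n), Real.exp (-(2 * R0 * sgn b * em b n m)) *
                (‖cs (M2 T) (Fb b T) (wb (be T r (1 + 2 * sgn b * em b n m) 2)) ρ‖ ^ 2 *
                Jp T (em b n m) (em b n (m + 1)) ρ) = 0 := by
              intro m _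
              rw [C5_small hT _ hs2, norm_zero]
              norm_num
            rw [Finset.sum_eq_zero h0]
            have := C5_M_nonneg b T r ρ
            have := C5_X_nonneg b T r ρ
            positivity
          · push Not at hs
            have h1 := hre b T ρ (cs (M2 T) (Fb b T) (wb (be T r 1 0)) ρ)
              (cs (M2 T) (Fb b T) (wb (be T r 0 1)) ρ) hT2 hs
            have h2 : ∑ m ∈ range (nP b n), Real.exp (-(2 * R0 * sgn b * em b n m)) *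
                (‖cs (M2 T) (Fb b T) (wb (be T r (1 + 2 * sgn b * em b n m) 2)) ρ‖ ^ 2 *
                Jp T (em b n m) (em b n (m + 1)) ρ) =
                ∑ m ∈ range (nP b n), Real.exp (-(2 * R0 * sgn b * em b n m)) *
                ‖((1 + 2 * sgn b * em b n m : ℝ) : ℂ) *
                  cs (M2 T) (Fb b T) (wb (be T r 1 0)) ρ +
                  2 * cs (M2 T) (Fb b T) (wb (be T r 0 1)) ρ‖ ^ 2 *
                  Jp T (em b n m) (em b n (m + 1)) ρ := by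
              refine Finset.sum_congr rfl fun m _ => ?_
              rw [hcs]
              ring
            rw [h2]
            refine h1.trans (le_of_eq ?_)
            rw [C5_M_eq hT r hρ]
            unfold C5_X
            rw [if_pos hρ, div_eq_mul_inv]
            ring
        · simp only [if_neg hρ, mul_zero, Finset.sum_const_zero]
          exact zero_le
    _ = ENNReal.ofReal (√2 * T ^ (1 / 2 : ℝ)) * (∑' ρ : ℚ, ENNReal.ofReal (C5_M b T r ρ) +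
          ENNReal.ofReal ε' * ∑' ρ : ℚ, ENNReal.ofReal (C5_X b T r ρ)) := by
        rw [ENNReal.tsum_mul_left, ENNReal.tsum_add, ENNReal.tsum_mul_left]
    _ ≤ _ := by
        gcongr
        · rw [ENNReal.ofReal_tsum_of_nonneg (C5_M_nonneg b T r) (C5_M_tsum hT r).1]
        · rw [ENNReal.ofReal_mul hε']
          gcongr
          exact C5_X_tsum hT r

private lemma C5_Pm {D1 D2 D3 I1 I2 I3 R : ENNReal} {eh e k1 k2 κ Wc : ℝ} (heh : 0 ≤ eh) (he : 0 ≤ e)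
    (hk1 : 0 ≤ k1) (hk2 : 0 ≤ k2) (hκ : 0 ≤ κ) (hW : eh * e ≤ Wc)
    (h1 : I1 ≤ ENNReal.ofReal (1 + κ) * D1 + R) (h2 : I2 ≤ ENNReal.ofReal (1 + κ) * D2 + R)
    (h3 : I3 ≤ ENNReal.ofReal (1 + κ) * D3 + R) :
    ENNReal.ofReal (eh * e) * (ENNReal.ofReal (1 + κ) * I1 + ENNReal.ofReal k1 * I2 +
      ENNReal.ofReal k2 * I3) ≤
    ENNReal.ofReal (eh * ((1 + κ) * (1 + κ))) * (ENNReal.ofReal e * D1) +
      ENNReal.ofReal (Wc * (k1 * (1 + κ))) * D2 + ENNReal.ofReal (Wc * (k2 * (1 + κ))) * D3 +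
      ENNReal.ofReal (Wc * ((1 + κ) + k1 + k2)) * R := by
  have hWc : 0 ≤ Wc := (mul_nonneg heh he).trans hW
  have h1κ : 0 ≤ 1 + κ := by linarith
  have e0 : ENNReal.ofReal eh * ENNReal.ofReal e ≤ ENNReal.ofReal Wc := by
    rw [← ENNReal.ofReal_mul heh]
    exact ENNReal.ofReal_le_ofReal hW
  rw [ENNReal.ofReal_mul heh, ENNReal.ofReal_mul heh, ENNReal.ofReal_mul h1κ,
    ENNReal.ofReal_mul hWc, ENNReal.ofReal_mul hWc, ENNReal.ofReal_mul hWc,
    ENNReal.ofReal_mul hk1, ENNReal.ofReal_mul hk2, ENNReal.ofReal_add (by linarith) hk2,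
    ENNReal.ofReal_add h1κ hk1]
  set a := ENNReal.ofReal eh
  set c := ENNReal.ofReal e
  set k := ENNReal.ofReal (1 + κ)
  set l1 := ENNReal.ofReal k1
  set l2 := ENNReal.ofReal k2
  set w := ENNReal.ofReal Wc
  calc a * c * (k * I1 + l1 * I2 + l2 * I3)
      ≤ a * c * (k * (k * D1 + R) + l1 * (k * D2 + R) + l2 * (k * D3 + R)) := by gcongr
    _ = a * (k * k) * (c * D1) + (a * c) * (l1 * k) * D2 + (a * c) * (l2 * k) * D3 +
        (a * c) * (k + l1 + l2) * R := by ring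
    _ ≤ a * (k * k) * (c * D1) + w * (l1 * k) * D2 + w * (l2 * k) * D3 +
        w * (k + l1 + l2) * R := by gcongr

private lemma C5_real {ε κ ε' K1 K2 CM Wc h iL θ t u Λ Ms B1 B2 B3 q k1 k2 N n Ct : ℝ}
    (hε : 0 < ε) (hκ : 0 < κ) (hκ1 : κ ≤ 1) (hK1 : 1 ≤ K1) (hK2 : 1 ≤ K2) (hCM : 0 < CM)
    (hWc : 0 < Wc) (hκ2 : 160 * CM * K1 * κ ≤ ε) (hε' : ε' = ε / (200 * K1))
    (hh : 0 ≤ h) (hiL : 0 ≤ iL) (hhL : h + iL ≤ 1)
    (hhG : Wc * (1 + 1 / κ) * (1 + κ) * 128 * K1 * (h + iL) ≤ ε) (hθ0 : 0 ≤ θ) (hθ1 : θ ≤ 1)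
    (hθG : Wc * (1 + 1 / κ) * (1 + κ) * 128 * K2 * θ ≤ ε) (ht : 0 ≤ t) (hu : 0 ≤ u) (hΛ : 1 ≤ Λ)
    (hMs : 0 ≤ Ms) (hB1 : 0 ≤ B1) (hB2 : 0 ≤ B2) (hB3 : 0 ≤ B3) (hB1' : B1 ≤ K1 * Λ)
    (hB2' : B2 ≤ K1 * Λ) (hB3' : B3 ≤ K2 * θ ^ 6 * Λ) (hMs' : Ms ≤ CM * (B1 + B2))
    (hq0 : 0 ≤ q) (hq : q ≤ 1 + 7 * κ) (hk1 : k1 = (1 + 1 / κ) * (8 * (h + iL) ^ 2))
    (hk2 : k2 = (1 + 1 / κ) * 8) (hN0 : 0 ≤ N) (hN : N ≤ 29 * n)
    (hG3 : 29 * n * Wc * ((1 + κ) + 16 * (1 + 1 / κ)) * (K1 + K2 + 1 + 1 / κ) * 8 * u ≤ ε * t)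
    (hCt : 8 * Ct ≤ ε * t) :
    q * (√2 * t * (Ms + ε' * (B1 + B2))) + Wc * (k1 * (1 + κ)) * (2 * t * B1) +
      Wc * (k2 * (1 + κ)) * (2 * t * B3) +
      N * (Wc * ((1 + κ) + k1 + k2) * (u * ((K1 + K2) * Λ + 1 + 1 / κ))) + Ct ≤
    √2 * t * Ms + ε * (t * Λ) := by
  have hiκ : 0 < 1 / κ := by positivity
  have hs : √2 ≤ 3 / 2 := by
    rw [Real.sqrt_le_left (by norm_num)]
    norm_num
  have hs0 : 0 ≤ √2 := Real.sqrt_nonneg 2
  have htΛ : 0 ≤ t * Λ := by positivity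
  have hBs : B1 + B2 ≤ 2 * K1 * Λ := by linarith
  have hBs0 : 0 ≤ B1 + B2 := by linarith
  have hε'0 : 0 ≤ ε' := by
    rw [hε']
    positivity
  have hε'2 : ε' * K1 = ε / 200 := by
    rw [hε']
    field_simp
  -- (1)
  have t1 : q * (√2 * t * Ms) ≤ √2 * t * Ms + ε / 7 * (t * Λ) := by
    have a1 : q * (√2 * t * Ms) ≤ (1 + 7 * κ) * (√2 * t * Ms) :=
      mul_le_mul_of_nonneg_right hq (by positivity)
    have a2 : √2 * t * Ms ≤ 3 / 2 * t * (CM * (2 * K1 * Λ)) := by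
      refine mul_le_mul (mul_le_mul_of_nonneg_right hs ht)
        (hMs'.trans (mul_le_mul_of_nonneg_left hBs hCM.le)) hMs (by positivity)
    have a3 : 7 * κ * (√2 * t * Ms) ≤ 7 * κ * (3 / 2 * t * (CM * (2 * K1 * Λ))) :=
      mul_le_mul_of_nonneg_left a2 (by positivity)
    have a4 : 7 * κ * (3 / 2 * t * (CM * (2 * K1 * Λ))) = 21 / 160 * (160 * CM * K1 * κ) * (t * Λ) := by
      ring
    have a5 : 21 / 160 * (160 * CM * K1 * κ) * (t * Λ) ≤ ε / 7 * (t * Λ) := by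
      refine mul_le_mul_of_nonneg_right ?_ htΛ
      linarith
    linarith
  -- (2)
  have t2 : q * (√2 * t * (ε' * (B1 + B2))) ≤ ε / 8 * (t * Λ) := by
    have a1 : q ≤ 8 := by linarith
    have a2 : √2 * t * (ε' * (B1 + B2)) ≤ 3 / 2 * t * (ε' * (2 * K1 * Λ)) :=
      mul_le_mul (mul_le_mul_of_nonneg_right hs ht) (mul_le_mul_of_nonneg_left hBs hε'0)
        (by positivity) (by positivity)
    have a3 : q * (√2 * t * (ε' * (B1 + B2))) ≤ 8 * (3 / 2 * t * (ε' * (2 * K1 * Λ))) :=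
      mul_le_mul a1 a2 (by positivity) (by norm_num)
    have a4 : 8 * (3 / 2 * t * (ε' * (2 * K1 * Λ))) = 24 * (ε' * K1) * (t * Λ) := by ring
    rw [a4, hε'2] at a3
    refine a3.trans (mul_le_mul_of_nonneg_right ?_ htΛ)
    linarith
  -- (3)
  have t3 : Wc * (k1 * (1 + κ)) * (2 * t * B1) ≤ ε / 8 * (t * Λ) := by
    have a0 : 0 ≤ Wc * (k1 * (1 + κ)) := by
      rw [hk1]
      positivity
    have a1 : Wc * (k1 * (1 + κ)) * (2 * t * B1) ≤ Wc * (k1 * (1 + κ)) * (2 * t * (K1 * Λ)) :=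
      mul_le_mul_of_nonneg_left (mul_le_mul_of_nonneg_left hB1' (by positivity)) a0
    have a2 : Wc * (k1 * (1 + κ)) * (2 * t * (K1 * Λ)) =
        (Wc * (1 + 1 / κ) * (1 + κ) * 128 * K1 * (h + iL) ^ 2) / 8 * (t * Λ) := by
      rw [hk1]
      ring
    have a3 : Wc * (1 + 1 / κ) * (1 + κ) * 128 * K1 * (h + iL) ^ 2 ≤
        Wc * (1 + 1 / κ) * (1 + κ) * 128 * K1 * (h + iL) := by
      refine mul_le_mul_of_nonneg_left ?_ (by positivity)
      have : 0 ≤ h + iL := by linarith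
      nlinarith
    rw [a2] at a1
    refine a1.trans (mul_le_mul_of_nonneg_right ?_ htΛ)
    linarith
  -- (4)
  have t4 : Wc * (k2 * (1 + κ)) * (2 * t * B3) ≤ ε / 8 * (t * Λ) := by
    have a0 : 0 ≤ Wc * (k2 * (1 + κ)) := by
      rw [hk2]
      positivity
    have a1 : Wc * (k2 * (1 + κ)) * (2 * t * B3) ≤ Wc * (k2 * (1 + κ)) * (2 * t * (K2 * θ ^ 6 * Λ)) :=
      mul_le_mul_of_nonneg_left (mul_le_mul_of_nonneg_left hB3' (by positivity)) a0
    have a2 : Wc * (k2 * (1 + κ)) * (2 * t * (K2 * θ ^ 6 * Λ)) =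
        (Wc * (1 + 1 / κ) * (1 + κ) * 128 * K2 * θ ^ 6) / 8 * (t * Λ) := by
      rw [hk2]
      ring
    have a3 : Wc * (1 + 1 / κ) * (1 + κ) * 128 * K2 * θ ^ 6 ≤
        Wc * (1 + 1 / κ) * (1 + κ) * 128 * K2 * θ := by
      refine mul_le_mul_of_nonneg_left ?_ (by positivity)
      calc θ ^ 6 ≤ θ ^ 1 := pow_le_pow_of_le_one hθ0 hθ1 (by norm_num)
        _ = θ := pow_one θ
    rw [a2] at a1
    refine a1.trans (mul_le_mul_of_nonneg_right ?_ htΛ)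
    linarith
  -- (5)
  have t5 : N * (Wc * ((1 + κ) + k1 + k2) * (u * ((K1 + K2) * Λ + 1 + 1 / κ))) ≤ ε / 8 * (t * Λ) := by
    have a0 : 0 ≤ k1 := by
      rw [hk1]
      positivity
    have a0' : 0 ≤ k2 := by
      rw [hk2]
      positivity
    have a1 : (1 + κ) + k1 + k2 ≤ (1 + κ) + 16 * (1 + 1 / κ) := by
      rw [hk1, hk2]
      have b1 : (h + iL) ^ 2 ≤ 1 := by
        have : 0 ≤ h + iL := by linarith
        nlinarith
      have b2 : (1 + 1 / κ) * (8 * (h + iL) ^ 2) ≤ (1 + 1 / κ) * (8 * 1) :=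
        mul_le_mul_of_nonneg_left (by linarith) (by positivity)
      linarith
    have a2 : (K1 + K2) * Λ + 1 + 1 / κ ≤ (K1 + K2 + 1 + 1 / κ) * Λ := by
      nlinarith
    have hn0 : 0 ≤ 29 * n := hN0.trans hN
    have a3 : N * (Wc * ((1 + κ) + k1 + k2) * (u * ((K1 + K2) * Λ + 1 + 1 / κ))) ≤
        29 * n * (Wc * ((1 + κ) + 16 * (1 + 1 / κ)) * (u * ((K1 + K2 + 1 + 1 / κ) * Λ))) := by
      refine mul_le_mul hN ?_ (by positivity) hn0
      refine mul_le_mul (mul_le_mul_of_nonneg_left a1 hWc.le)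
        (mul_le_mul_of_nonneg_left a2 hu) (by positivity) (by positivity)
    have a4 : 29 * n * (Wc * ((1 + κ) + 16 * (1 + 1 / κ)) * (u * ((K1 + K2 + 1 + 1 / κ) * Λ))) =
        (29 * n * Wc * ((1 + κ) + 16 * (1 + 1 / κ)) * (K1 + K2 + 1 + 1 / κ) * 8 * u) / 8 * Λ := by
      ring
    rw [a4] at a3
    refine a3.trans ?_
    have a5 : (29 * n * Wc * ((1 + κ) + 16 * (1 + 1 / κ)) * (K1 + K2 + 1 + 1 / κ) * 8 * u) / 8 * Λ ≤
        (ε * t) / 8 * Λ :=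
      mul_le_mul_of_nonneg_right (by linarith) (by linarith)
    refine a5.trans (le_of_eq ?_)
    ring
  -- (6)
  have t6 : Ct ≤ ε / 8 * (t * Λ) := by
    have a1 : ε * t ≤ ε * (t * Λ) := by
      refine mul_le_mul_of_nonneg_left ?_ hε.le
      exact le_mul_of_one_le_right ht hΛ
    linarith
  have t0 : q * (√2 * t * (Ms + ε' * (B1 + B2))) = q * (√2 * t * Ms) +
      q * (√2 * t * (ε' * (B1 + B2))) := by ring
  rw [t0]
  have hεtΛ : 0 ≤ ε * (t * Λ) := by positivity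
  linarith

theorem sharp_half (lam : ℝ) (h0 : 0 < lam) (ε : ℝ) (hε : 0 < ε) : ∃ C0 θ1 : ℝ, 0 < θ1 ∧
    ∀ {Ct θ D1 : ℝ} {N0 : ℕ}, C0 ≤ Ct → θ ≤ θ1 → ∃ T0 : ℝ, ∀ {S : BS}, TG S Ct θ D1 N0 → T0 ≤ S.T →
    ∀ r : ℕ → ℝ, Rp S lam θ r → ∀ b : Bool,
    ∫⁻ y in Set.Ioi (e0 b * Real.log S.T), ENNReal.ofReal
      (Real.exp (-(2 * sgn b * (R0 / Real.log S.T) * y)) * ‖HH b S.T (bt 0 S.T r) y‖ ^ 2) ≤
    ENNReal.ofReal (√2 * S.T ^ (1 / 2 : ℝ) * (∑' ρ : ℚ, if 0 < ρ then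
      (ρ : ℝ)⁻¹ * (Ps b (Real.log ρ / Real.log S.T) *
        ‖(1 + sgn b * (1 - 2 * (Real.log ρ / Real.log S.T)) : ℝ) * Sc b S.T r 1 0 ρ +
          2 * Sc b S.T r 0 1 ρ‖ ^ 2) else 0) + ε * (S.T ^ (1 / 2 : ℝ) * Lam S lam)) := by
  obtain ⟨Ca, K1, hK1, hBe⟩ := BB_be lam h0
  obtain ⟨Cb, K2, hK2, hB2⟩ := BB_bt2 lam h0
  obtain ⟨TJ, hJ⟩ := Jp_total
  obtain ⟨Ctl, TT, hCtl, htail⟩ := HH_tail
  obtain ⟨TW, hW⟩ := wa_sum
  have hCM : 0 < 18 * Real.exp (12 / 5) := by positivity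
  obtain ⟨κ, hκ, hκ1, hκ2⟩ : ∃ κ : ℝ, 0 < κ ∧ κ ≤ 1 ∧
      160 * (18 * Real.exp (12 / 5)) * K1 * κ ≤ ε := by
    refine ⟨min 1 (ε / (160 * (18 * Real.exp (12 / 5)) * K1)), lt_min one_pos (by positivity),
      min_le_left _ _, ?_⟩
    have h1 := min_le_right 1 (ε / (160 * (18 * Real.exp (12 / 5)) * K1))
    rw [le_div_iff₀ (by positivity)] at h1
    linarith
  have hε' : 0 < ε / (200 * K1) := by positivity
  obtain ⟨n0, hn0, hre0⟩ := reassembly (ε / (200 * K1)) hε'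
  have hG : 0 < Real.exp 4 * (1 + 1 / κ) * (1 + κ) * 128 * K1 := by positivity
  have hG2 : 0 < Real.exp 4 * (1 + 1 / κ) * (1 + κ) * 128 * K2 := by positivity
  obtain ⟨m0, hm0, hm1, hm2, hm3⟩ : ∃ m0 : ℝ, 0 < m0 ∧ m0 ≤ κ / 5 ∧ m0 ≤ 1 / 2 ∧
      Real.exp 4 * (1 + 1 / κ) * (1 + κ) * 128 * K1 * (2 * m0) ≤ ε := by
    refine ⟨min (κ / 5) (min (1 / 2)
      (ε / (2 * (Real.exp 4 * (1 + 1 / κ) * (1 + κ) * 128 * K1)))),
      lt_min (by positivity) (lt_min (by norm_num) (by positivity)), min_le_left _ _,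
      (min_le_right _ _).trans (min_le_left _ _), ?_⟩
    have h1 := (min_le_right (κ / 5) (min (1 / 2)
      (ε / (2 * (Real.exp 4 * (1 + 1 / κ) * (1 + κ) * 128 * K1))))).trans (min_le_right _ _)
    rw [le_div_iff₀ (by positivity)] at h1
    linarith
  obtain ⟨n1, hn1⟩ := exists_nat_ge (1 / m0)
  obtain ⟨n, hn, hnm, TR, hre⟩ : ∃ n : ℕ, 1 ≤ n ∧ 1 / (20 * (n : ℝ)) ≤ m0 ∧ ∃ T0 : ℝ,
      ∀ (b : Bool) (T ρ : ℝ) (A B : ℂ), T0 ≤ T → T ^ (-(1 / 2) : ℝ) ≤ ρ →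
      ∑ m ∈ range (nP b n), Real.exp (-(2 * R0 * sgn b * em b n m)) *
        ‖(1 + 2 * sgn b * em b n m : ℝ) * A + 2 * B‖ ^ 2 * Jp T (em b n m) (em b n (m + 1)) ρ ≤
      √2 * T ^ (1 / 2 : ℝ) / ρ * (Ps b (Real.log ρ / Real.log T) *
        ‖(1 + sgn b * (1 - 2 * (Real.log ρ / Real.log T)) : ℝ) * A + 2 * B‖ ^ 2 +
        ε / (200 * K1) * (‖A‖ ^ 2 + ‖B‖ ^ 2)) := by
    have h1 : 1 ≤ max n0 n1 := hn0.trans (le_max_left _ _)
    refine ⟨max n0 n1, h1, ?_, hre0 _ (le_max_left _ _)⟩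
    have h2 : (1 : ℝ) ≤ ((max n0 n1 : ℕ) : ℝ) := by exact_mod_cast h1
    have h3 : (n1 : ℝ) ≤ ((max n0 n1 : ℕ) : ℝ) := by exact_mod_cast le_max_right n0 n1
    rw [div_le_iff₀ hm0] at hn1
    rw [div_le_iff₀ (by linarith)]
    have h4 : (n1 : ℝ) * m0 ≤ ((max n0 n1 : ℕ) : ℝ) * m0 := mul_le_mul_of_nonneg_right h3 hm0.le
    nlinarith
  obtain ⟨TP, hpiece⟩ := piece κ hκ hκ1
  refine ⟨max Ca Cb, min 1 (ε / (Real.exp 4 * (1 + 1 / κ) * (1 + κ) * 128 * K2)),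
    lt_min one_pos (by positivity), ?_⟩
  intro Ct θ D1 N0 hCt hθ
  obtain ⟨G3, hG3⟩ : ∃ G3 : ℝ, G3 = 29 * (n : ℝ) * Real.exp 4 * ((1 + κ) + 16 * (1 + 1 / κ)) *
      (K1 + K2 + 1 + 1 / κ) * 8 := ⟨_, rfl⟩
  have hG30 : 0 ≤ G3 := by
    rw [hG3]
    positivity
  refine ⟨max (max (max TJ TT) (max TW TR)) (max (max TP (Real.exp (1 / m0)))
    (((G3 + 8 * Ctl) / ε) ^ (50 : ℝ))), ?_⟩
  intro S hS hTS r hr b
  have hTJ : TJ ≤ S.T := ((le_max_left _ _).trans (le_max_left _ _)).trans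
    ((le_max_left _ _).trans hTS)
  have hTT : TT ≤ S.T := ((le_max_right _ _).trans (le_max_left _ _)).trans
    ((le_max_left _ _).trans hTS)
  have hTW : TW ≤ S.T := ((le_max_left _ _).trans (le_max_right _ _)).trans
    ((le_max_left _ _).trans hTS)
  have hTR : TR ≤ S.T := ((le_max_right _ _).trans (le_max_right _ _)).trans
    ((le_max_left _ _).trans hTS)
  have hTP : TP ≤ S.T := ((le_max_left _ _).trans (le_max_left _ _)).trans
    ((le_max_right _ _).trans hTS)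
  have hTm : Real.exp (1 / m0) ≤ S.T := ((le_max_right _ _).trans (le_max_left _ _)).trans
    ((le_max_right _ _).trans hTS)
  have hTG : ((G3 + 8 * Ctl) / ε) ^ (50 : ℝ) ≤ S.T := (le_max_right _ _).trans
    ((le_max_right _ _).trans hTS)
  have hT := hS.T_ge
  obtain ⟨T, hTdef⟩ : ∃ T : ℝ, T = S.T := ⟨_, rfl⟩
  rw [← hTdef] at hTJ hTT hTW hTR hTP hTm hTG hT
  have hT1 : 1 ≤ T := (Real.one_le_exp (by norm_num)).trans hT
  have hT0 : 0 < T := by linarith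
  have hL : 1000 ≤ Real.log T := by
    have := Real.log_le_log (Real.exp_pos 1000) hT
    rwa [Real.log_exp] at this
  have hL0 : 0 < Real.log T := by linarith
  have hLm : 1 / Real.log T ≤ m0 := by
    have h1 := Real.log_le_log (Real.exp_pos _) hTm
    rw [Real.log_exp] at h1
    rw [div_le_iff₀ hm0] at h1
    rw [div_le_iff₀ hL0]
    linarith
  have hΛ : 1 ≤ Lam S lam := one_le_Lam S lam
  obtain ⟨h, hhdef⟩ : ∃ h : ℝ, h = 1 / (20 * (n : ℝ)) := ⟨_, rfl⟩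
  rw [← hhdef] at hnm
  have hh : 0 ≤ h := by
    rw [hhdef]
    positivity
  have hCa : Ca ≤ Ct := (le_max_left _ _).trans hCt
  have hCb : Cb ≤ Ct := (le_max_right _ _).trans hCt
  have hbe : ∀ c d : ℝ, |c| ≤ 10 → |d| ≤ 10 →
      BB (M2 T) (Fb b T) (wb (be T r c d)) 0 ≤ K1 * Lam S lam := by
    intro c d hc hd
    rw [hTdef]
    exact hBe hS hCa r hr b c d hc hd
  have hb2 : BB (M2 T) (Fb b T) (wb (bt2 T r)) 0 ≤ K2 * θ ^ 6 * Lam S lam := by
    rw [hTdef]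
    exact hB2 hS hCb r hr b
  have hθ0 : 0 ≤ θ := hS.th_pos.le
  have hθ1 : θ ≤ 1 := hθ.trans (min_le_left _ _)
  have hθG : Real.exp 4 * (1 + 1 / κ) * (1 + κ) * 128 * K2 * θ ≤ ε := by
    have h1 := hθ.trans (min_le_right _ _)
    rw [le_div_iff₀ hG2] at h1
    linarith
  have hb2' : BB (M2 T) (Fb b T) (wb (bt2 T r)) 0 ≤ K2 * Lam S lam := by
    refine hb2.trans ?_
    refine mul_le_mul_of_nonneg_right ?_ (by linarith)
    calc K2 * θ ^ 6 ≤ K2 * 1 := mul_le_mul_of_nonneg_left (pow_le_one₀ hθ0 hθ1) (by linarith)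
      _ = K2 := mul_one _
  have hwa : ∀ β : ℕ → ℝ, (β = bt2 T r ∨ ∃ c d : ℝ, |c| ≤ 10 ∧ |d| ≤ 10 ∧ β = be T r c d) →
      T ^ (-e0 b) * (∑ q ∈ Fb b T, ‖wa (-1 / 2) (wb β) q‖) ^ 2 ≤ T ^ (12 / 25 : ℝ) := by
    intro β hβ
    rw [hTdef] at hβ hTW ⊢
    exact hW hS hTW r hr b β hβ
  have hu0 : 0 ≤ T ^ (12 / 25 : ℝ) := Real.rpow_nonneg hT0.le _
  have hiκ : 0 < 1 / κ := by positivity
  -- the pieces
  have hI : ∀ (m : ℕ) (β : ℕ → ℝ), m < nP b n →
      (β = bt2 T r ∨ ∃ c d : ℝ, |c| ≤ 10 ∧ |d| ≤ 10 ∧ β = be T r c d) →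
      BB (M2 T) (Fb b T) (wb β) 0 ≤ (K1 + K2) * Lam S lam →
      ∫⁻ y in Set.Ioc (em b n m * Real.log T) ((em b n m + h) * Real.log T),
        ENNReal.ofReal (‖GG T (Fb b T) (wb β) y‖ ^ 2) ≤
      ENNReal.ofReal (1 + κ) * C5_D b T β (em b n m) (em b n (m + 1)) +
        ENNReal.ofReal (T ^ (12 / 25 : ℝ) * ((K1 + K2) * Lam S lam + 1 + 1 / κ)) := by
    intro m β hm hβ hBB
    have e1 : em b n m + h = em b n (m + 1) := by
      rw [C5_emS, hhdef]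
    have e2 := C5_em_le hn b (Nat.succ_le_of_lt hm)
    have e3 : em b n m ≤ em b n (m + 1) := by
      rw [← e1]
      linarith
    rw [e1]
    refine (hpiece b T β (em b n m) (em b n (m + 1)) hTP (C5_em_ge b n m) e3 e2).trans ?_
    refine add_le_add le_rfl (ENNReal.ofReal_le_ofReal ?_)
    have e4 : T ^ (-em b n m) * (∑ q ∈ Fb b T, ‖wa (-1 / 2) (wb β) q‖) ^ 2 ≤
        T ^ (12 / 25 : ℝ) := by
      refine le_trans ?_ (hwa β hβ)
      refine mul_le_mul_of_nonneg_right ?_ (by positivity)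
      exact Real.rpow_le_rpow_of_exponent_le hT1 (by linarith [C5_em_ge b n m])
    have e5 : T ^ (12 / 25 : ℝ) * BB (M2 T) (Fb b T) (wb β) 0 ≤
        T ^ (12 / 25 : ℝ) * ((K1 + K2) * Lam S lam) := mul_le_mul_of_nonneg_left hBB hu0
    have e6 : (1 + 1 / κ) * (T ^ (-em b n m) * (∑ q ∈ Fb b T, ‖wa (-1 / 2) (wb β) q‖) ^ 2) ≤
        (1 + 1 / κ) * T ^ (12 / 25 : ℝ) := mul_le_mul_of_nonneg_left e4 (by positivity)
    calc _ ≤ T ^ (12 / 25 : ℝ) * ((K1 + K2) * Lam S lam) + (1 + 1 / κ) * T ^ (12 / 25 : ℝ) :=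
          add_le_add e5 e6
      _ = _ := by ring
  have hkk : ∀ x : ℝ, x ≤ K1 * Lam S lam ∨ x ≤ K2 * Lam S lam → x ≤ (K1 + K2) * Lam S lam := by
    intro x hx
    have h1 : 0 ≤ K1 * Lam S lam := by positivity
    have h2 : 0 ≤ K2 * Lam S lam := by positivity
    rcases hx with hx | hx <;> linarith
  obtain ⟨k1, hk1⟩ : ∃ k1 : ℝ, k1 = (1 + 1 / κ) * (8 * (h + 1 / Real.log T) ^ 2) := ⟨_, rfl⟩
  obtain ⟨k2, hk2⟩ : ∃ k2 : ℝ, k2 = (1 + 1 / κ) * 8 := ⟨_, rfl⟩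
  have hk10 : 0 ≤ k1 := by
    rw [hk1]
    positivity
  have hk20 : 0 ≤ k2 := by
    rw [hk2]
    positivity
  have hR : R0 = 6 / 5 := rfl
  have hP : ∀ m ∈ range (nP b n), ∫⁻ y in Set.Ioc (em b n m * Real.log T)
      (em b n (m + 1) * Real.log T), ENNReal.ofReal
      (Real.exp (-(2 * sgn b * (R0 / Real.log T) * y)) * ‖HH b T (bt 0 T r) y‖ ^ 2) ≤
      ENNReal.ofReal (Real.exp (2 * R0 * h) * ((1 + κ) * (1 + κ))) *
        (ENNReal.ofReal (Real.exp (-(2 * R0 * sgn b * em b n m))) *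
        C5_D b T (be T r (1 + 2 * sgn b * em b n m) 2) (em b n m) (em b n (m + 1))) +
      ENNReal.ofReal (Real.exp 4 * (k1 * (1 + κ))) *
        C5_D b T (be T r 1 0) (em b n m) (em b n (m + 1)) +
      ENNReal.ofReal (Real.exp 4 * (k2 * (1 + κ))) *
        C5_D b T (bt2 T r) (em b n m) (em b n (m + 1)) +
      ENNReal.ofReal (Real.exp 4 * ((1 + κ) + k1 + k2)) *
        ENNReal.ofReal (T ^ (12 / 25 : ℝ) * ((K1 + K2) * Lam S lam + 1 + 1 / κ)) := by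
    intro m hm
    rw [Finset.mem_range] at hm
    have e1 : em b n (m + 1) = em b n m + h := by
      rw [C5_emS, hhdef]
    have e2 := C5_em_le hn b (Nat.succ_le_of_lt hm)
    have e3 := C5_em_ge b n m
    have e4 := C5_e0 b
    have hη1 : em b n m ≤ 1 := by
      have : em b n m + h ≤ 1 := by
        rw [← e1]
        exact e2
      linarith
    have hη2 : -1 ≤ em b n m := by linarith [e4.1]
    have hc : |1 + 2 * sgn b * em b n m| ≤ 10 := by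
      rcases C5_sgn b with h6 | h6 <;> rw [h6, abs_le] <;> constructor <;> linarith
    have i1 := hI m (be T r (1 + 2 * sgn b * em b n m) 2) hm
      (Or.inr ⟨_, _, hc, by norm_num, rfl⟩) (hkk _ (Or.inl (hbe _ _ hc (by norm_num))))
    have i2 := hI m (be T r 1 0) hm (Or.inr ⟨1, 0, by norm_num, by norm_num, rfl⟩)
      (hkk _ (Or.inl (hbe 1 0 (by norm_num) (by norm_num))))
    have i3 := hI m (bt2 T r) hm (Or.inl rfl) (hkk _ (Or.inr hb2'))
    have hWc : Real.exp (2 * R0 * h) * Real.exp (-(2 * R0 * sgn b * em b n m)) ≤ Real.exp 4 := by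
      rw [← Real.exp_add]
      apply Real.exp_le_exp.2
      rw [hR]
      have : h ≤ 1 / 2 := hnm.trans hm2
      rcases C5_sgn b with h6 | h6 <;> rw [h6] <;> linarith
    have f1 := C5_frozen (b := b) (η := em b n m) (h := h) hT r hκ hh
    rw [e1]
    refine f1.trans ?_
    rw [← hk1, ← hk2]
    rw [e1] at i1 i2 i3
    exact C5_Pm (Real.exp_pos _).le (Real.exp_pos _).le hk10 hk20 hκ.le hWc i1 i2 i3
  -- the tail
  have htl : ∫⁻ y in Set.Ioi (Real.log T), ENNReal.ofReal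
      (Real.exp (-(2 * sgn b * (R0 / Real.log T) * y)) * ‖HH b T (bt 0 T r) y‖ ^ 2) ≤
      ENNReal.ofReal Ctl := by
    refine (htail b T (bt 0 T r) hTT).trans (ENNReal.ofReal_le_ofReal ?_)
    have e1 : bt 0 T r = be T r 1 0 := by
      funext k
      simp [be]
    have e2 := hwa (bt 0 T r) (Or.inr ⟨1, 0, by norm_num, by norm_num, e1⟩)
    set W := (∑ q ∈ Fb b T, ‖wa (-1 / 2) (wb (bt 0 T r)) q‖) ^ 2 with hWdef
    have e3 : W ≤ T := by
      have e4 : W = T ^ (e0 b) * (T ^ (-e0 b) * W) := by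
        rw [← mul_assoc, ← Real.rpow_add hT0, add_neg_cancel, Real.rpow_zero, one_mul]
      rw [e4]
      calc T ^ (e0 b) * (T ^ (-e0 b) * W) ≤ T ^ (9 / 20 : ℝ) * T ^ (12 / 25 : ℝ) := by
            refine mul_le_mul ?_ e2 (by positivity) (by positivity)
            exact Real.rpow_le_rpow_of_exponent_le hT1 (C5_e0 b).2
        _ = T ^ (9 / 20 + 12 / 25 : ℝ) := (Real.rpow_add hT0 _ _).symm
        _ ≤ T ^ (1 : ℝ) := Real.rpow_le_rpow_of_exponent_le hT1 (by norm_num)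
        _ = T := Real.rpow_one _
    calc Ctl / T * W ≤ Ctl / T * T := mul_le_mul_of_nonneg_left e3 (by positivity)
      _ = Ctl := div_mul_cancel₀ _ hT0.ne'
  -- powers of T
  have hpow : (G3 + 8 * Ctl) * T ^ (12 / 25 : ℝ) ≤ ε * T ^ (1 / 2 : ℝ) := by
    have e1 : (G3 + 8 * Ctl) / ε ≤ T ^ (1 / 50 : ℝ) := by
      have e2 : 0 ≤ (G3 + 8 * Ctl) / ε := by positivity
      calc (G3 + 8 * Ctl) / ε = (((G3 + 8 * Ctl) / ε) ^ (50 : ℝ)) ^ (1 / 50 : ℝ) := by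
            rw [← Real.rpow_mul e2]
            norm_num
        _ ≤ T ^ (1 / 50 : ℝ) := Real.rpow_le_rpow (Real.rpow_nonneg e2 _) hTG (by norm_num)
    rw [div_le_iff₀ hε] at e1
    have e3 : T ^ (1 / 2 : ℝ) = T ^ (1 / 50 : ℝ) * T ^ (12 / 25 : ℝ) := by
      rw [← Real.rpow_add hT0]
      norm_num
    rw [e3]
    have := mul_le_mul_of_nonneg_right e1 hu0
    linarith
  have hu1 : 1 ≤ T ^ (12 / 25 : ℝ) := Real.one_le_rpow hT1 (by norm_num)
  have ht0 : 0 ≤ T ^ (1 / 2 : ℝ) := Real.rpow_nonneg hT0.le _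
  -- the sum
  have hsum : ∫⁻ y in Set.Ioi (e0 b * Real.log T), ENNReal.ofReal
      (Real.exp (-(2 * sgn b * (R0 / Real.log T) * y)) * ‖HH b T (bt 0 T r) y‖ ^ 2) ≤
      ENNReal.ofReal (Real.exp (2 * R0 * h) * ((1 + κ) * (1 + κ))) *
        (ENNReal.ofReal (√2 * T ^ (1 / 2 : ℝ)) * (ENNReal.ofReal (∑' ρ : ℚ, C5_M b T r ρ) +
        ENNReal.ofReal (ε / (200 * K1) * (BB (M2 T) (Fb b T) (wb (be T r 1 0)) 0 +
          BB (M2 T) (Fb b T) (wb (be T r 0 1)) 0)))) +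
      ENNReal.ofReal (Real.exp 4 * (k1 * (1 + κ))) *
        ENNReal.ofReal (2 * T ^ (1 / 2 : ℝ) * BB (M2 T) (Fb b T) (wb (be T r 1 0)) 0) +
      ENNReal.ofReal (Real.exp 4 * (k2 * (1 + κ))) *
        ENNReal.ofReal (2 * T ^ (1 / 2 : ℝ) * BB (M2 T) (Fb b T) (wb (bt2 T r)) 0) +
      ENNReal.ofReal (nP b n) * (ENNReal.ofReal (Real.exp 4 * ((1 + κ) + k1 + k2)) *
        ENNReal.ofReal (T ^ (12 / 25 : ℝ) * ((K1 + K2) * Lam S lam + 1 + 1 / κ))) +
      ENNReal.ofReal Ctl := by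
    have e1 := C5_split (fun y => ENNReal.ofReal
      (Real.exp (-(2 * sgn b * (R0 / Real.log T) * y)) * ‖HH b T (bt 0 T r) y‖ ^ 2))
      (fun m => em b n m * Real.log T) (nP b n)
    simp only [C5_em0, C5_emN hn, one_mul] at e1
    refine e1.trans (add_le_add ((Finset.sum_le_sum hP).trans ?_) htl)
    rw [Finset.sum_add_distrib, Finset.sum_add_distrib, Finset.sum_add_distrib, ← Finset.mul_sum,
      ← Finset.mul_sum, ← Finset.mul_sum, Finset.sum_const, Finset.card_range, nsmul_eq_mul,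
      ENNReal.ofReal_natCast]
    refine add_le_add (add_le_add (add_le_add ?_ ?_) ?_) le_rfl
    · gcongr
      exact C5_main hε'.le hre hT hTR r
    · gcongr
      exact C5_Dsum hJ hn hT hTJ _
    · gcongr
      exact C5_Dsum hJ hn hT hTJ _
  have hMs0 : 0 ≤ ∑' ρ : ℚ, C5_M b T r ρ := tsum_nonneg (C5_M_nonneg b T r)
  have hMs1 := (C5_M_tsum (b := b) hT r).2
  have hB10 := C5_BB_nonneg (M2 T) (Fb b T) (wb (be T r 1 0)) 0
  have hB20 := C5_BB_nonneg (M2 T) (Fb b T) (wb (be T r 0 1)) 0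
  have hB30 := C5_BB_nonneg (M2 T) (Fb b T) (wb (bt2 T r)) 0
  have hΛ0 : 0 ≤ Lam S lam := by linarith
  have hfin : ∫⁻ y in Set.Ioi (e0 b * Real.log T), ENNReal.ofReal
      (Real.exp (-(2 * sgn b * (R0 / Real.log T) * y)) * ‖HH b T (bt 0 T r) y‖ ^ 2) ≤
      ENNReal.ofReal (√2 * T ^ (1 / 2 : ℝ) * (∑' ρ : ℚ, C5_M b T r ρ) +
        ε * (T ^ (1 / 2 : ℝ) * Lam S lam)) := by
    refine hsum.trans ?_
    rw [← ENNReal.ofReal_add hMs0 (by positivity), ← ENNReal.ofReal_mul (by positivity),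
      ← ENNReal.ofReal_mul (by positivity), ← ENNReal.ofReal_mul (by positivity),
      ← ENNReal.ofReal_mul (by positivity), ← ENNReal.ofReal_mul (by positivity),
      ← ENNReal.ofReal_mul (by positivity), ← ENNReal.ofReal_add (by positivity) (by positivity),
      ← ENNReal.ofReal_add (by positivity) (by positivity),
      ← ENNReal.ofReal_add (by positivity) (by positivity),
      ← ENNReal.ofReal_add (by positivity) (by positivity)]
    refine ENNReal.ofReal_le_ofReal ?_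
    have hq : Real.exp (2 * R0 * h) * ((1 + κ) * (1 + κ)) ≤ 1 + 7 * κ := by
      have e1 : Real.exp (2 * R0 * h) ≤ 1 + κ := by
        have e2 : 1 - (1 + κ)⁻¹ ≤ Real.log (1 + κ) :=
          Real.one_sub_inv_le_log_of_pos (by linarith)
        have e3 : 2 * R0 * h ≤ 1 - (1 + κ)⁻¹ := by
          have e4 : 1 - (1 + κ)⁻¹ = κ / (1 + κ) := by
            field_simp
            ring
          rw [e4, le_div_iff₀ (by linarith), hR]
          have e5 : h ≤ κ / 5 := hnm.trans hm1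
          nlinarith
        calc Real.exp (2 * R0 * h) ≤ Real.exp (Real.log (1 + κ)) :=
              Real.exp_le_exp.2 (e3.trans e2)
          _ = 1 + κ := Real.exp_log (by linarith)
      calc Real.exp (2 * R0 * h) * ((1 + κ) * (1 + κ)) ≤ (1 + κ) * ((1 + κ) * (1 + κ)) :=
            mul_le_mul_of_nonneg_right e1 (by positivity)
        _ ≤ 1 + 7 * κ := by nlinarith [mul_pos hκ hκ, mul_pos hκ (mul_pos hκ hκ)]
    have hNn : ((nP b n : ℕ) : ℝ) ≤ 29 * (n : ℝ) := by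
      unfold nP
      cases b
      · simp only [Bool.false_eq_true, if_false]
        push_cast
        have : (0 : ℝ) ≤ n := Nat.cast_nonneg n
        linarith
      · simp only [if_true]
        push_cast
        exact le_rfl
    refine C5_real (CM := 18 * Real.exp (12 / 5)) (θ := θ) (h := h) (iL := 1 / Real.log T)
      (n := (n : ℝ)) (K1 := K1) (K2 := K2) hε hκ hκ1 hK1 hK2 hCM (Real.exp_pos 4) hκ2 rfl hh
      (by positivity) (by linarith) ?_ hθ0 hθ1 hθG ht0 hu0 hΛ hMs0 hB10 hB20 hB30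
      (hbe 1 0 (by norm_num) (by norm_num)) (hbe 0 1 (by norm_num) (by norm_num)) hb2 hMs1
      (by positivity) hq hk1 hk2 (Nat.cast_nonneg _) hNn ?_ ?_
    · refine le_trans ?_ hm3
      refine mul_le_mul_of_nonneg_left ?_ hG.le
      linarith
    · rw [← hG3]
      have : 0 ≤ 8 * Ctl * T ^ (12 / 25 : ℝ) := by positivity
      linarith
    · have e1 : 0 ≤ G3 * T ^ (12 / 25 : ℝ) := by positivity
      have e2 : 8 * Ctl ≤ 8 * Ctl * T ^ (12 / 25 : ℝ) :=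
        le_mul_of_one_le_right (by positivity) hu1
      linarith
  rw [hTdef] at hfin
  exact hfin

end Pool.Agent.LB
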