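import Pool.Agent.Lib.MP_69b2e4_nt.LB.T1
import Pool.Agent.Lib.MP_69b2e4_nt.Mg.G029
import Pool.Agent.Lib.MP_69b2e4_nt.Mg.G028
import Pool.Agent.Lib.MP_69b2e4_nt.Mg.G024

/-! TASK T3. The mollified second moment with the tilt. `L = log T`.
`TR1`: `twist5` with `A = 3` and `g(χ) = MO i T (χ nC z1) · RT S lam (χ nC z2)`: `MO_dp`, `RT_dp`, `IsP2.shift` (`(T^{9/20})^{|Re z1|} ≤ e^{3}`, `(T^{7θ³})^{|Re z2|} ≤ e`), `IsP2.mul`: `IsP2 (T^{9/20 + 7θ³}) 1 (e^4 (1+L) T^{7θ³})`, `7θ³ ≤ 7·10^{-6}`, so `≤ T^{47/100}` and `≤ T^{1/1600}` for `T ≥ T0`.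
 `nC (1/2+tI) * nC z = nC (1/2+tI+z)` (`nC_mul_nC`), `nX (-a) v * nC z = nX (-a+z) v`. `E = K Lam` from `XR1` (`‖-a+z1‖ ≤ 6/L`, `|Re(-a+z2)| ≤ 3/L + 1/(7θ³L) ≤ 2/(7θ³L)`), `T^{399/400} ≤ T Lam` (`Lam ≥ 1`).
`TR2`: Cauchy: `ζ'(s)/L = (1/2π) ∫ ζ(s + e^{iϑ}/L) e^{-iϑ} dϑ`, so `‖ζ'(s)/L‖² ≤ (1/2π) ∫_0^{2π} ‖ζ(s+e^{iϑ}/L)‖² dϑ`; Tonelli; for each `ϑ` with `h = e^{iϑ}/L` substitute `t' = t + Im h`: the integrand becomes that of `TR1` with `a + Re h`, `z1 - i Im h`, `z2 - i Im h` on `Dm (η/2) T`, with `|a + Re h| ≤ 3/L`, `‖z1 - i Im h‖ ≤ 3/L`. So use `TR1` for `η/2`. -/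

set_option autoImplicit false

namespace Pool.Agent.LB

open Complex MeasureTheory Finset Pool.Agent.GH Pool.Agent.UH Pool.Agent.UV
open scoped Real ComplexConjugate

/-- The mean square over a circle. -/
private theorem T3_circle {f : ℂ → ℂ} {z0 : ℂ} {R r : ℝ} (hr : 0 < r) (hrR : r < R)
    (hf : DifferentiableOn ℂ f (Metric.ball z0 R)) :
    2 * π * r ^ 2 * ‖deriv f z0‖ ^ 2 ≤
      ∫ φ in (-π)..π, ‖f (circleMap z0 r φ)‖ ^ 2 := by
  have hsub : Metric.closedBall z0 r ⊆ Metric.ball z0 R := Metric.closedBall_subset_ball hrR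
  have hC := Complex.two_pi_I_inv_smul_circleIntegral_sub_sq_inv_smul_of_differentiable
    Metric.isOpen_ball hsub hf (Metric.mem_ball_self hr)
  have hcont : Continuous fun φ : ℝ => f (circleMap z0 r φ) := by
    refine hf.continuousOn.comp_continuous (continuous_circleMap z0 r) fun φ => ?_
    exact hsub (circleMap_mem_closedBall z0 hr.le φ)
  have hI : ∀ a b : ℝ, IntervalIntegrable (fun φ : ℝ => ‖f (circleMap z0 r φ)‖) volume a b :=
    fun a b => hcont.norm.intervalIntegrable a b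
  have hI2 : ∀ a b : ℝ, IntervalIntegrable (fun φ : ℝ => ‖f (circleMap z0 r φ)‖ ^ 2) volume a b :=
    fun a b => (hcont.norm.pow 2).intervalIntegrable a b
  have hper : ∫ φ in (-π)..π, ‖f (circleMap z0 r φ)‖ ^ 2 =
      ∫ φ in (0 : ℝ)..(2 * π), ‖f (circleMap z0 r φ)‖ ^ 2 := by
    have hp : Function.Periodic (fun φ : ℝ => ‖f (circleMap z0 r φ)‖ ^ 2) (2 * π) := by
      intro φ
      simp only [periodic_circleMap z0 r φ]
    have h := hp.intervalIntegral_add_eq (-π) 0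
    rw [show -π + 2 * π = π by ring, zero_add] at h
    exact h
  rw [hper]
  -- the first power
  have h1 : 2 * π * r * ‖deriv f z0‖ ≤ ∫ φ in (0 : ℝ)..(2 * π), ‖f (circleMap z0 r φ)‖ := by
    have h2 : ‖∮ z in C(z0, r), ((z - z0) ^ 2)⁻¹ • f z‖ ≤
        ∫ φ in (0 : ℝ)..(2 * π), r⁻¹ * ‖f (circleMap z0 r φ)‖ := by
      unfold circleIntegral
      refine (intervalIntegral.norm_integral_le_integral_norm (by positivity)).trans (le_of_eq ?_)
      congr 1
      ext φ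
      rw [norm_smul, norm_smul, deriv_circleMap, norm_mul, norm_circleMap_zero, Complex.norm_I,
        norm_inv, norm_pow, circleMap_sub_center, norm_circleMap_zero, abs_of_pos hr, mul_one]
      field_simp
    rw [intervalIntegral.integral_const_mul] at h2
    rw [← hC, norm_smul, norm_inv]
    have h3 : ‖(2 * π * I : ℂ)‖ = 2 * π := by
      rw [norm_mul, norm_mul, Complex.norm_I, Complex.norm_real,
        Real.norm_of_nonneg Real.pi_pos.le]
      norm_num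
    rw [h3]
    calc 2 * π * r * ((2 * π)⁻¹ * ‖∮ z in C(z0, r), ((z - z0) ^ 2)⁻¹ • f z‖)
        = r * ‖∮ z in C(z0, r), ((z - z0) ^ 2)⁻¹ • f z‖ := by
          have := Real.pi_pos
          field_simp
      _ ≤ r * (r⁻¹ * ∫ φ in (0 : ℝ)..(2 * π), ‖f (circleMap z0 r φ)‖) := by gcongr
      _ = ∫ φ in (0 : ℝ)..(2 * π), ‖f (circleMap z0 r φ)‖ := by
          field_simp
  -- the second power
  obtain ⟨c, hc⟩ : ∃ c : ℝ, c = r * ‖deriv f z0‖ := ⟨_, rfl⟩
  have hc0 : 0 ≤ c := by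
    rw [hc]
    positivity
  have h4 : ∫ φ in (0 : ℝ)..(2 * π), (2 * c * ‖f (circleMap z0 r φ)‖ - c ^ 2) ≤
      ∫ φ in (0 : ℝ)..(2 * π), ‖f (circleMap z0 r φ)‖ ^ 2 := by
    refine intervalIntegral.integral_mono_on (by positivity)
      (((hI _ _).const_mul _).sub intervalIntegrable_const) (hI2 _ _) fun φ _ => ?_
    nlinarith [sq_nonneg (‖f (circleMap z0 r φ)‖ - c)]
  rw [intervalIntegral.integral_sub ((hI _ _).const_mul _) intervalIntegrable_const,
    intervalIntegral.integral_const_mul, intervalIntegral.integral_const, smul_eq_mul,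
    sub_zero] at h4
  refine le_trans ?_ h4
  have h5 : 2 * π * c ≤ ∫ φ in (0 : ℝ)..(2 * π), ‖f (circleMap z0 r φ)‖ := by
    rw [hc]
    calc 2 * π * (r * ‖deriv f z0‖) = 2 * π * r * ‖deriv f z0‖ := by ring
      _ ≤ _ := h1
  have h6 : 2 * π * r ^ 2 * ‖deriv f z0‖ ^ 2 = 2 * π * c ^ 2 := by
    rw [hc]
    ring
  rw [h6]
  nlinarith [mul_le_mul_of_nonneg_left h5 (by positivity : 0 ≤ 2 * c)]

private theorem T3_zeta_meas : Measurable riemannZeta := by
  refine measurable_of_continuousOn_compl_singleton 1 ?_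
  intro z hz
  exact (differentiableAt_riemannZeta hz).continuousAt.continuousWithinAt

private theorem T3_logT {S : BS} {Ct θ D1 : ℝ} {N0 : ℕ} (hS : TG S Ct θ D1 N0) :
    1000 ≤ Real.log S.T ∧ 1 ≤ S.T := by
  have h1 : 1000 ≤ Real.log S.T := by
    have := Real.log_le_log (Real.exp_pos 1000) hS.T_ge
    rwa [Real.log_exp] at this
  exact ⟨h1, (Real.one_le_exp (by norm_num)).trans hS.T_ge⟩

private theorem T3_rpow {T x : ℝ} (hT : 0 < T) : T ^ x = Real.exp (x * Real.log T) := by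
  rw [Real.rpow_def_of_pos hT, mul_comm]

theorem TR1 (lam η : ℝ) (h0 : 0 < lam) (h1 : 0 < η) (h2 : η ≤ 1) : ∃ C0 K : ℝ, 1 ≤ K ∧
    ∀ {Ct θ D1 : ℝ} {N0 : ℕ}, C0 ≤ Ct → ∃ T0 : ℝ, ∀ {S : BS}, TG S Ct θ D1 N0 → T0 ≤ S.T →
    ∀ i ≤ 1, ∀ (a : ℝ) (z1 z2 : ℂ), |a| ≤ 3 / Real.log S.T → ‖z1‖ ≤ 3 / Real.log S.T →
    |z2.re| ≤ 1 / (7 * θ ^ 3 * Real.log S.T) →
    ∫⁻ t in Dm η S.T, ENNReal.ofReal (‖riemannZeta (1 / 2 + a + t * I)‖ ^ 2 *
      ‖MO i S.T (nC (1 / 2 + t * I + z1))‖ ^ 2 * ‖RT S lam (nC (1 / 2 + t * I + z2))‖ ^ 2) ≤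
    ENNReal.ofReal (K * (S.T * Lam S lam)) := by
  obtain ⟨C, T0', hC, htw⟩ := twist5 η 3 h1 h2 (by norm_num)
  obtain ⟨C0', K', hK', hX⟩ := XR1 lam h0
  refine ⟨max C0' lam, C * (K' + 1), by nlinarith, ?_⟩
  intro Ct θ D1 N0 hCt
  refine ⟨max T0' (Real.exp 10000000000), ?_⟩
  intro S hS hT i hi a z1 z2 ha hz1 hz2
  have hCt1 : C0' ≤ Ct := (le_max_left _ _).trans hCt
  have hCt2 : lam ≤ Ct := (le_max_right _ _).trans hCt
  have hT0 : T0' ≤ S.T := (le_max_left _ _).trans hT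
  have hTe : Real.exp 10000000000 ≤ S.T := (le_max_right _ _).trans hT
  obtain ⟨-, hT1⟩ := T3_logT hS
  obtain ⟨L, hL⟩ : ∃ L : ℝ, L = Real.log S.T := ⟨_, rfl⟩
  have hTp : 0 < S.T := by linarith
  have hLb : 10000000000 ≤ L := by
    have := Real.log_le_log (Real.exp_pos _) hTe
    rwa [Real.log_exp, ← hL] at this
  have hL0 : 0 < L := by linarith
  have hTe1 : Real.exp 1 ≤ S.T := (Real.exp_le_exp.mpr (by norm_num)).trans hTe
  have hθ := hS.th_pos
  have hθ1 := hS.th_le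
  have hθ3 : θ ^ 3 ≤ 1 / 1000000 := by
    calc θ ^ 3 ≤ (1 / 100) ^ 3 := pow_le_pow_left₀ hθ.le hθ1 3
      _ = _ := by norm_num
  have hθ3p : 0 < θ ^ 3 := by positivity
  rw [← hL] at ha hz1 hz2
  have hre1 : |z1.re| ≤ 3 / L := (Complex.abs_re_le_norm z1).trans hz1
  have hLam := one_le_Lam S lam
  -- the polynomial
  have hM := (MO_dp hTe1 i).shift (Real.one_le_rpow hT1 (by norm_num)) le_rfl z1 0
  have hR := (RT_dp hS (κ := lam) (by rw [abs_of_pos h0]; exact hCt2)).shift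
    (Real.one_le_rpow hT1 (by positivity)) le_rfl z2 0
  have hMR := hM.mul hR
  have e1 : (S.T ^ (9 / 20 : ℝ)) ^ |z1.re| ≤ Real.exp 3 := by
    rw [← Real.rpow_mul hTp.le, T3_rpow hTp, ← hL]
    apply Real.exp_le_exp.mpr
    have : |z1.re| * L ≤ 3 := by
      rwa [le_div_iff₀ hL0] at hre1
    nlinarith [abs_nonneg z1.re]
  have e2 : (S.T ^ (7 * θ ^ 3)) ^ |z2.re| ≤ Real.exp 1 := by
    rw [← Real.rpow_mul hTp.le, T3_rpow hTp, ← hL]
    apply Real.exp_le_exp.mpr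
    rw [le_div_iff₀ (by positivity)] at hz2
    linarith
  have e3 : (1 + L) * Real.exp 4 ≤ S.T ^ (1 / 3200 : ℝ) := by
    rw [T3_rpow hTp, ← hL]
    have q1 : Real.exp 4 ≤ 81 := by
      have := Real.exp_one_lt_d9
      have h3 : Real.exp 1 ≤ 3 := by linarith
      calc Real.exp 4 = Real.exp 1 ^ 4 := by rw [← Real.exp_nat_mul]; norm_num
        _ ≤ 3 ^ 4 := pow_le_pow_left₀ (Real.exp_pos 1).le h3 4
        _ = 81 := by norm_num
    have q2 : (1 / 3200 * L) ^ 2 / 2 ≤ Real.exp (1 / 3200 * L) := by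
      have := Real.quadratic_le_exp_of_nonneg (x := 1 / 3200 * L) (by positivity)
      nlinarith
    refine le_trans ?_ q2
    have q3 : (1 + L) * Real.exp 4 ≤ (1 + L) * 81 := mul_le_mul_of_nonneg_left q1 (by linarith)
    have q4 : 10000000000 * L ≤ L * L := mul_le_mul_of_nonneg_right hLb hL0.le
    have q5 : (1 / 3200 * L) ^ 2 / 2 = L * L / 20480000 := by ring
    rw [q5]
    linarith
  have hQ : S.T ^ (9 / 20 : ℝ) * S.T ^ (7 * θ ^ 3) ≤ S.T ^ (47 / 100 : ℝ) := by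
    rw [← Real.rpow_add hTp]
    exact Real.rpow_le_rpow_of_exponent_le hT1 (by linarith)
  have hB : (1 + Real.log S.T) * ((S.T ^ (9 / 20 : ℝ)) ^ |z1.re| * (1 : ℝ) ^ |(0 : ℂ).re|) *
      (S.T ^ (7 * θ ^ 3) * ((S.T ^ (7 * θ ^ 3)) ^ |z2.re| * (1 : ℝ) ^ |(0 : ℂ).re|)) ≤
      S.T ^ (1 / 1600 : ℝ) := by
    rw [← hL, Real.one_rpow, mul_one, mul_one]
    calc (1 + L) * (S.T ^ (9 / 20 : ℝ)) ^ |z1.re| *
          (S.T ^ (7 * θ ^ 3) * (S.T ^ (7 * θ ^ 3)) ^ |z2.re|)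
        ≤ (1 + L) * Real.exp 3 * (S.T ^ (7 * θ ^ 3) * Real.exp 1) := by gcongr
      _ = (1 + L) * Real.exp 4 * S.T ^ (7 * θ ^ 3) := by
          rw [show (4 : ℝ) = 3 + 1 by norm_num, Real.exp_add]
          ring
      _ ≤ S.T ^ (1 / 3200 : ℝ) * S.T ^ (1 / 3200 : ℝ) := by
          refine mul_le_mul e3 ?_ (by positivity) (by positivity)
          exact Real.rpow_le_rpow_of_exponent_le hT1 (by linarith)
      _ = S.T ^ (1 / 1600 : ℝ) := by
          rw [← Real.rpow_add hTp]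
          norm_num
  have hg : IsP2 (S.T ^ (47 / 100 : ℝ)) 1 (S.T ^ (1 / 1600 : ℝ))
      (fun χ _ => MO i S.T (χ * nC z1) * RT S lam (χ * nC z2)) :=
    hMR.mono hQ (by norm_num) hB
  -- the random side
  have hE : ∀ M : ℕ, S.T ^ (9 / 20 : ℝ) ≤ M → (M : ℝ) ≤ S.T ^ 2 →
      ∫ v, ‖Zt (Nat.primesBelow M) (1 / 2) v‖ ^ 2 *
        ‖MO i S.T (nX (-a) v * nC z1) * RT S lam (nX (-a) v * nC z2)‖ ^ 2 ∂mu ≤
      K' * Lam S lam := by
    intro M hM1 hM2
    have := hX hS hCt1 M hM1 hM2 i hi (-a + z1) (-a + z2) ?_ ?_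
    · refine le_trans (le_of_eq ?_) this
      congr 1
      funext v
      rw [nX_mul_nC, nX_mul_nC, norm_mul, mul_pow]
      ring
    · rw [← hL]
      calc ‖-(a : ℂ) + z1‖ ≤ ‖-(a : ℂ)‖ + ‖z1‖ := norm_add_le _ _
        _ = |a| + ‖z1‖ := by rw [norm_neg, Complex.norm_real, Real.norm_eq_abs]
        _ ≤ 3 / L + 3 / L := add_le_add ha hz1
        _ = 6 / L := by ring
    · rw [← hL, Complex.add_re, Complex.neg_re, Complex.ofReal_re]
      calc |-a + z2.re| ≤ |-a| + |z2.re| := abs_add_le _ _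
        _ = |a| + |z2.re| := by rw [abs_neg]
        _ ≤ 3 / L + 1 / (7 * θ ^ 3 * L) := add_le_add ha hz2
        _ ≤ 1 / (7 * θ ^ 3 * L) + 1 / (7 * θ ^ 3 * L) := by
            have : 3 / L ≤ 1 / (7 * θ ^ 3 * L) := by
              rw [div_le_div_iff₀ hL0 (by positivity)]
              nlinarith
            linarith
        _ = 2 / (7 * θ ^ 3 * L) := by ring
  have hfin := htw hT0 (by rw [← hL]; exact ha) hg (by positivity) hE
  refine le_trans (le_of_eq ?_) (hfin.trans (ENNReal.ofReal_le_ofReal ?_))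
  · refine lintegral_congr fun t => ?_
    rw [nC_mul_nC, nC_mul_nC, norm_mul, mul_pow]
    congr 1
    ring
  · have q1 : S.T ^ (399 / 400 : ℝ) ≤ S.T := by
      calc S.T ^ (399 / 400 : ℝ) ≤ S.T ^ (1 : ℝ) :=
            Real.rpow_le_rpow_of_exponent_le hT1 (by norm_num)
        _ = S.T := Real.rpow_one _
    have q2 : S.T * 1 ≤ S.T * Lam S lam := mul_le_mul_of_nonneg_left hLam hTp.le
    calc C * (S.T * (K' * Lam S lam) + S.T ^ (399 / 400 : ℝ))
        ≤ C * (S.T * (K' * Lam S lam) + S.T * Lam S lam) := by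
          apply mul_le_mul_of_nonneg_left _ (by linarith)
          linarith
      _ = C * (K' + 1) * (S.T * Lam S lam) := by ring

theorem TR2 (lam η : ℝ) (h0 : 0 < lam) (h1 : 0 < η) (h2 : η ≤ 1) : ∃ C0 K : ℝ, 1 ≤ K ∧
    ∀ {Ct θ D1 : ℝ} {N0 : ℕ}, C0 ≤ Ct → ∃ T0 : ℝ, ∀ {S : BS}, TG S Ct θ D1 N0 → T0 ≤ S.T →
    ∀ i ≤ 1, ∀ (a : ℝ) (z1 z2 : ℂ), |a| ≤ 2 / Real.log S.T → ‖z1‖ ≤ 2 / Real.log S.T →
    |z2.re| ≤ 1 / (7 * θ ^ 3 * Real.log S.T) →
    ∫⁻ t in Dm η S.T, ENNReal.ofReal (‖deriv riemannZeta (1 / 2 + a + t * I) /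
        (Real.log S.T : ℝ)‖ ^ 2 *
      ‖MO i S.T (nC (1 / 2 + t * I + z1))‖ ^ 2 * ‖RT S lam (nC (1 / 2 + t * I + z2))‖ ^ 2) ≤
    ENNReal.ofReal (K * (S.T * Lam S lam)) := by
  obtain ⟨C0, K, hK, h⟩ := TR1 lam (η / 2) h0 (by positivity) (by linarith)
  refine ⟨max C0 lam, K, hK, ?_⟩
  intro Ct θ D1 N0 hCt
  obtain ⟨T0, hT0⟩ := h (Ct := Ct) (θ := θ) (D1 := D1) (N0 := N0) ((le_max_left _ _).trans hCt)
  refine ⟨max T0 (2 / η), ?_⟩
  intro S hS hT i hi a z1 z2 ha hz1 hz2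
  obtain ⟨hL1, hT1⟩ := T3_logT hS
  have hTT0 : T0 ≤ S.T := (le_max_left _ _).trans hT
  have hTη : 2 ≤ η * S.T := by
    have h3 : 2 / η ≤ S.T := (le_max_right _ _).trans hT
    rw [div_le_iff₀ h1] at h3
    linarith
  obtain ⟨L, hL⟩ : ∃ L : ℝ, L = Real.log S.T := ⟨_, rfl⟩
  rw [← hL] at hL1 ha hz1 hz2
  have hL0 : 0 < L := by linarith
  have hr0 : 0 < 1 / L := by positivity
  have hr1 : 1 / L < 1 := by
    rw [div_lt_one hL0]
    linarith
  have hTp : 0 < S.T := by linarith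
  obtain ⟨w, hw⟩ : ∃ w : ℝ → ℝ, w = fun t : ℝ => ‖MO i S.T (nC (1 / 2 + t * I + z1))‖ ^ 2 *
      ‖RT S lam (nC (1 / 2 + t * I + z2))‖ ^ 2 := ⟨_, rfl⟩
  have hw0 : ∀ t, 0 ≤ w t := fun t => by rw [hw]; positivity
  have hcont1 : Continuous fun t : ℝ => MO i S.T (nC (1 / 2 + t * I + z1)) := by
    have h3 := (((MO_dp (T := S.T) ((Real.exp_le_exp.mpr (by norm_num)).trans hS.T_ge) i).shift
      (Real.one_le_rpow hT1 (by norm_num)) le_rfl z1 0)).continuous_line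
    refine h3.congr fun t => ?_
    rw [nC_mul_nC]
  have hcont2 : Continuous fun t : ℝ => RT S lam (nC (1 / 2 + t * I + z2)) := by
    have h3 := (((RT_dp hS (κ := lam)
      (by rw [abs_of_pos h0]; exact (le_max_right _ _).trans hCt)).shift
      (Real.one_le_rpow hT1 (by have := hS.th_pos; positivity)) le_rfl z2 0)).continuous_line
    refine h3.congr fun t => ?_
    rw [nC_mul_nC]
  have hwc : Continuous w := by
    rw [hw]
    exact (hcont1.norm.pow 2).mul (hcont2.norm.pow 2)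
  obtain ⟨Z, hZ⟩ : ∃ Z : ℝ → ℝ → ℝ, Z = fun (φ t : ℝ) =>
      ‖riemannZeta (circleMap (1 / 2 + a + t * I) (1 / L) φ)‖ ^ 2 := ⟨_, rfl⟩
  have hZm : Measurable fun q : ℝ × ℝ => ENNReal.ofReal (Z q.2 q.1) := by
    rw [hZ]
    refine ENNReal.measurable_ofReal.comp ((T3_zeta_meas.comp ?_).norm.pow_const 2)
    unfold circleMap
    fun_prop
  -- pointwise
  have hpt : ∀ t ∈ Dm η S.T, ENNReal.ofReal (‖deriv riemannZeta (1 / 2 + a + t * I) /
      (Real.log S.T : ℝ)‖ ^ 2 * ‖MO i S.T (nC (1 / 2 + t * I + z1))‖ ^ 2 *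
      ‖RT S lam (nC (1 / 2 + t * I + z2))‖ ^ 2) ≤
      ENNReal.ofReal (1 / (2 * π)) * (∫⁻ φ in Set.Ioc (-π) π,
        ENNReal.ofReal (Z φ t) * ENNReal.ofReal (w t)) := by
    intro t ht
    have hne : ∀ z ∈ Metric.ball (1 / 2 + a + t * I : ℂ) 1, z ≠ 1 := by
      intro z hz hz1'
      rw [hz1', Metric.mem_ball, dist_eq_norm] at hz
      have h4 := (Complex.abs_im_le_norm _).trans_lt hz
      have h5 : ((1 : ℂ) - (1 / 2 + a + t * I)).im = -t := by simp
      rw [h5, abs_neg] at h4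
      have h6 : η * S.T ≤ t := ht.1
      rw [abs_of_nonneg (by linarith)] at h4
      linarith
    have hd : DifferentiableOn ℂ riemannZeta (Metric.ball (1 / 2 + a + t * I : ℂ) 1) :=
      fun z hz => (differentiableAt_riemannZeta (hne z hz)).differentiableWithinAt
    have h3 := T3_circle hr0 hr1 hd
    have hcc : Continuous fun φ : ℝ => riemannZeta (circleMap (1 / 2 + a + t * I) (1 / L) φ) := by
      refine hd.continuousOn.comp_continuous (continuous_circleMap _ _) fun φ => ?_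
      exact Metric.closedBall_subset_ball hr1 (circleMap_mem_closedBall _ hr0.le φ)
    have h4 : ‖deriv riemannZeta (1 / 2 + a + t * I) / (Real.log S.T : ℝ)‖ ^ 2 ≤
        1 / (2 * π) * ∫ φ in (-π)..π, Z φ t := by
      rw [← hL, norm_div, Complex.norm_real, Real.norm_of_nonneg hL0.le, div_pow]
      have hpi := Real.pi_pos
      rw [div_le_iff₀ (by positivity)]
      have h5 : ∫ φ in (-π)..π, Z φ t =
          ∫ φ in (-π)..π, ‖riemannZeta (circleMap (1 / 2 + a + t * I) (1 / L) φ)‖ ^ 2 := by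
        rw [hZ]
      rw [h5]
      have h6 : 2 * π * (1 / L) ^ 2 * ‖deriv riemannZeta (1 / 2 + a + t * I)‖ ^ 2 * (L ^ 2 / (2 * π))
          = ‖deriv riemannZeta (1 / 2 + a + t * I)‖ ^ 2 := by
        field_simp
      rw [← h6]
      calc _ ≤ (∫ φ in (-π)..π, ‖riemannZeta (circleMap (1 / 2 + a + t * I) (1 / L) φ)‖ ^ 2) *
            (L ^ 2 / (2 * π)) := mul_le_mul_of_nonneg_right h3 (by positivity)
        _ = _ := by ring
    have hcZ : Continuous fun φ => Z φ t := by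
      rw [hZ]
      exact hcc.norm.pow 2
    have h7 : ENNReal.ofReal (∫ φ in (-π)..π, Z φ t) = ∫⁻ φ in Set.Ioc (-π) π,
        ENNReal.ofReal (Z φ t) := by
      rw [intervalIntegral.integral_of_le (by linarith [Real.pi_pos])]
      rw [ofReal_integral_eq_lintegral_ofReal]
      · exact (hcZ.integrableOn_Icc (a := -π) (b := π)).mono_set Set.Ioc_subset_Icc_self
      · exact Filter.Eventually.of_forall fun φ => by rw [hZ]; positivity
    rw [lintegral_mul_const' _ _ ENNReal.ofReal_ne_top, ← h7, ← mul_assoc,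
      ← ENNReal.ofReal_mul (by positivity), ← ENNReal.ofReal_mul (by
        apply mul_nonneg (by positivity)
        apply intervalIntegral.integral_nonneg (by linarith [Real.pi_pos])
        intro φ _
        rw [hZ]
        positivity)]
    apply ENNReal.ofReal_le_ofReal
    rw [mul_assoc]
    have h8 : w t = ‖MO i S.T (nC (1 / 2 + t * I + z1))‖ ^ 2 *
      ‖RT S lam (nC (1 / 2 + t * I + z2))‖ ^ 2 := by rw [hw]
    rw [← h8]
    exact mul_le_mul_of_nonneg_right h4 (hw0 t)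
  have hDm : MeasurableSet (Dm η S.T) := measurableSet_Icc
  -- the inner integral
  have hin : ∀ φ : ℝ, ∫⁻ t in Dm η S.T, ENNReal.ofReal (Z φ t) * ENNReal.ofReal (w t) ≤
      ENNReal.ofReal (K * (S.T * Lam S lam)) := by
    intro φ
    obtain ⟨h, hh⟩ : ∃ h : ℂ, h = circleMap 0 (1 / L) φ := ⟨_, rfl⟩
    have hhn : ‖h‖ = 1 / L := by rw [hh, norm_circleMap_zero, abs_of_pos hr0]
    obtain ⟨x, hx⟩ : ∃ x : ℝ, x = h.re := ⟨_, rfl⟩
    obtain ⟨v, hv⟩ : ∃ v : ℝ, v = h.im := ⟨_, rfl⟩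
    have hxv : h = x + v * I := by
      rw [hx, hv]
      exact (Complex.re_add_im h).symm
    have hxb : |x| ≤ 1 / L := by
      rw [hx, ← hhn]
      exact Complex.abs_re_le_norm h
    have hvb : |v| ≤ 1 / L := by
      rw [hv, ← hhn]
      exact Complex.abs_im_le_norm h
    have hbd := hT0 hS hTT0 i hi (a + x) (z1 - v * I) (z2 - v * I) ?_ ?_ ?_
    · refine le_trans ?_ hbd
      obtain ⟨F, hF⟩ : ∃ F : ℝ → ENNReal, F = fun t : ℝ =>
        ENNReal.ofReal (‖riemannZeta (1 / 2 + ((a + x : ℝ) : ℂ) + t * I)‖ ^ 2 *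
        ‖MO i S.T (nC (1 / 2 + t * I + (z1 - v * I)))‖ ^ 2 *
        ‖RT S lam (nC (1 / 2 + t * I + (z2 - v * I)))‖ ^ 2) := ⟨_, rfl⟩
      have hFt : ∀ t : ℝ, ENNReal.ofReal (Z φ t) * ENNReal.ofReal (w t) = F (t + v) := by
        intro t
        rw [hF, hZ, hw]
        beta_reduce
        rw [← ENNReal.ofReal_mul (by positivity)]
        have q1 : circleMap (1 / 2 + a + t * I) (1 / L) φ =
            1 / 2 + ((a + x : ℝ) : ℂ) + ((t + v : ℝ) : ℂ) * I := by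
          have q2 : circleMap (1 / 2 + a + t * I) (1 / L) φ = (1 / 2 + a + t * I) + h := by
            rw [hh]
            simp [circleMap]
          rw [q2, hxv]
          push_cast
          ring
        have q3 : ∀ z : ℂ, 1 / 2 + ((t + v : ℝ) : ℂ) * I + (z - v * I) = 1 / 2 + t * I + z := by
          intro z
          push_cast
          ring
        rw [q1, q3, q3]
        congr 1
        ring
      simp only [hFt]
      have hFF : ∫⁻ t in Dm (η / 2) S.T, F t =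
          ∫⁻ t in Dm (η / 2) S.T, ENNReal.ofReal
            (‖riemannZeta (1 / 2 + ((a + x : ℝ) : ℂ) + t * I)‖ ^ 2 *
            ‖MO i S.T (nC (1 / 2 + t * I + (z1 - v * I)))‖ ^ 2 *
            ‖RT S lam (nC (1 / 2 + t * I + (z2 - v * I)))‖ ^ 2) := by rw [hF]
      rw [← hFF, ← lintegral_indicator hDm]
      have h5 : ∫⁻ t in Dm (η / 2) S.T, F t =
          ∫⁻ t, (Dm (η / 2) S.T).indicator F (t + v) := by
        have hDm2 : MeasurableSet (Dm (η / 2) S.T) := measurableSet_Icc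
        rw [lintegral_add_right_eq_self, lintegral_indicator hDm2]
      rw [h5]
      refine lintegral_mono fun t => ?_
      by_cases htm : t ∈ Dm η S.T
      · have htm2 : t + v ∈ Dm (η / 2) S.T := by
          have hvb2 : |v| ≤ 1 := hvb.trans hr1.le
          rw [abs_le] at hvb2
          have k1 : η * S.T ≤ t := htm.1
          have k2 : t ≤ S.T / η := htm.2
          have k3 : S.T / (η / 2) = 2 * (S.T / η) := by field_simp
          have k4 : 1 ≤ S.T / η := by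
            rw [le_div_iff₀ h1]
            linarith
          refine ⟨?_, ?_⟩
          · linarith [hvb2.1]
          · rw [k3]
            linarith [hvb2.2]
        rw [Set.indicator_of_mem htm, Set.indicator_of_mem htm2]
      · rw [Set.indicator_of_notMem htm]
        exact zero_le
    · rw [← hL]
      calc |a + x| ≤ |a| + |x| := abs_add_le _ _
        _ ≤ 2 / L + 1 / L := add_le_add ha hxb
        _ = 3 / L := by ring
    · rw [← hL]
      calc ‖z1 - v * I‖ ≤ ‖z1‖ + ‖(v : ℂ) * I‖ := norm_sub_le _ _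
        _ = ‖z1‖ + |v| := by rw [norm_mul, Complex.norm_I, mul_one, Complex.norm_real,
            Real.norm_eq_abs]
        _ ≤ 2 / L + 1 / L := add_le_add hz1 hvb
        _ = 3 / L := by ring
    · rw [← hL]
      have : (z2 - v * I).re = z2.re := by simp
      rw [this]
      exact hz2
  -- Tonelli
  calc ∫⁻ t in Dm η S.T, ENNReal.ofReal (‖deriv riemannZeta (1 / 2 + a + t * I) /
        (Real.log S.T : ℝ)‖ ^ 2 *
      ‖MO i S.T (nC (1 / 2 + t * I + z1))‖ ^ 2 * ‖RT S lam (nC (1 / 2 + t * I + z2))‖ ^ 2)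
      ≤ ∫⁻ t in Dm η S.T, ENNReal.ofReal (1 / (2 * π)) * (∫⁻ φ in Set.Ioc (-π) π,
        ENNReal.ofReal (Z φ t) * ENNReal.ofReal (w t)) := setLIntegral_mono' hDm hpt
    _ = ENNReal.ofReal (1 / (2 * π)) * ∫⁻ t in Dm η S.T, ∫⁻ φ in Set.Ioc (-π) π,
        ENNReal.ofReal (Z φ t) * ENNReal.ofReal (w t) := by
        rw [lintegral_const_mul' _ _ ENNReal.ofReal_ne_top]
    _ = ENNReal.ofReal (1 / (2 * π)) * ∫⁻ φ in Set.Ioc (-π) π, ∫⁻ t in Dm η S.T,
        ENNReal.ofReal (Z φ t) * ENNReal.ofReal (w t) := by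
        congr 1
        refine lintegral_lintegral_swap ?_
        exact (hZm.mul (ENNReal.measurable_ofReal.comp
          (hwc.measurable.comp measurable_fst))).aemeasurable
    _ ≤ ENNReal.ofReal (1 / (2 * π)) * ∫⁻ _φ in Set.Ioc (-π) π,
        ENNReal.ofReal (K * (S.T * Lam S lam)) := by
        gcongr with φ
        exact hin φ
    _ = ENNReal.ofReal (K * (S.T * Lam S lam)) := by
        rw [setLIntegral_const, Real.volume_Ioc, mul_comm (ENNReal.ofReal (K * _)), ← mul_assoc,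
          ← ENNReal.ofReal_mul (by positivity)]
        have hpi := Real.pi_pos
        rw [show 1 / (2 * π) * (π - -π) = 1 by field_simp; ring, ENNReal.ofReal_one, one_mul]

end Pool.Agent.LB
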