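import Pool.Agent.Lib.MP_69b2e4_nt.LB.G2
import Pool.Agent.Lib.MP_69b2e4_nt.Mg.G043
import Pool.Agent.Lib.MP_69b2e4_nt.Mg.G038

/-! TASK G3. The weight `Kw T t = ‖Gammaℝ(sg0 T + it)‖² e^{ang T t}`, `ang T = π/2 - 1/T`, `sg0 T = 1/2 - (6/5)/log T ∈ [2/5, 1/2]` for `T ≥ e^1000`. `‖Gammaℝ(σ+it)‖² = π^{-σ} ‖Γ((σ+it)/2)‖²`, `x = σ/2 ∈ [1/5,1/4]`, `y = t/2`.
Upper bound: `‖Γ(x+iy)‖ = ‖Γ(1+x+iy)‖/‖x+iy‖ ≤ C (1+|y|)^{x-1/2} e^{-π|y|/2}`: `Gam_upper` (GH/Gam.lean, private: copy; or by `gamma_ub`/other known bounds, `1 + x = 1/2 + τ`, `τ = 1/2 + x ≤ 3/4`). Lower bound: `gamma_lb`.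
So `c (1+|t|)^{σ-1} e^{-π|t|/2} ≤ ‖Gammaℝ‖² ≤ C (1+|t|)^{σ-1} e^{-π|t|/2}`, `σ - 1 = -1/2 - (6/5)/log T ≤ -1/2`, and for `t ≥ 0` `e^{-πt/2} e^{ang t} = e^{-t/T}`; for `t ≤ 0` it is `e^{-(π - 1/T)|t|} ≤ e^{-2|t|}`.
`Kw_dm`: `(1+t)^{-(6/5)/log T} ≥ c` for `t ≤ 2T/η`.
`Kw_ratio`: `log Kw(t)` has the derivative `-2 Im psiR(sg0+it) + ang T`, bounded by an absolute constant for `t ≥ 1` (`psiR_bound`: `|Im psiR| ≤ C`); mean value theorem on the segment.
`psiR_pt`: `psiR_bound` at `s = pt T t z`, `Im s = t + Im z/L ∈ [ηT/2, 2T/η]`, `|log Im s - L| ≤ C_η`. -/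

set_option autoImplicit false

namespace Pool.Agent.LB

open Complex MeasureTheory Finset Pool.Agent.GH Pool.Agent.UH Pool.Agent.UV
open scoped Real ComplexConjugate

private theorem G3_Gam_norm_le {w : ℂ} (hw : 0 < w.re) : ‖Complex.Gamma w‖ ≤ Real.Gamma w.re := by
  rw [Complex.Gamma_eq_integral hw, Real.Gamma_eq_integral hw, Complex.GammaIntegral]
  refine (norm_integral_le_integral_norm _).trans (le_of_eq ?_)
  refine setIntegral_congr_fun measurableSet_Ioi fun x hx => ?_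
  have hx' : (0 : ℝ) < x := hx
  show ‖((Real.exp (-x) : ℝ) : ℂ) * (x : ℂ) ^ (w - 1)‖ = Real.exp (-x) * x ^ (w.re - 1)
  rw [norm_mul, Complex.norm_real, Real.norm_of_nonneg (Real.exp_pos _).le,
    Complex.norm_cpow_eq_rpow_re_of_pos hx']
  simp

private theorem G3_Gam_bdd : ∃ M : ℝ, 0 ≤ M ∧ ∀ w : ℂ, 1 / 2 ≤ w.re → w.re ≤ 3 / 2 →
    ‖Complex.Gamma w‖ ≤ M := by
  have hc : ContinuousOn Real.Gamma (Set.Icc (1 / 2) (3 / 2)) := fun x hx => by
    refine (Real.differentiableAt_Gamma fun m => ?_).continuousAt.continuousWithinAt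
    have h1 : (1 / 2 : ℝ) ≤ x := hx.1
    have h2 : (0 : ℝ) ≤ m := Nat.cast_nonneg m
    intro h
    linarith
  obtain ⟨M, hM⟩ := isCompact_Icc.exists_bound_of_continuousOn hc
  refine ⟨|M|, abs_nonneg _, fun w h1 h2 => ?_⟩
  have h3 := hM w.re ⟨h1, h2⟩
  rw [Real.norm_eq_abs] at h3
  exact (G3_Gam_norm_le (by linarith)).trans ((le_abs_self _).trans (h3.trans (le_abs_self _)))

private theorem G3_Gam_half (y : ℝ) :
    ‖Complex.Gamma (1 / 2 + y * I)‖ ≤ 3 * Real.exp (-(π * |y| / 2)) := by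
  have h1 := Complex.Gamma_mul_Gamma_one_sub (1 / 2 + y * I)
  have h2 : (1 : ℂ) - (1 / 2 + y * I) = conj (1 / 2 + y * I : ℂ) := by
    simp only [map_add, map_mul, Complex.conj_ofReal, Complex.conj_I, map_div₀, map_one, map_ofNat]
    ring
  rw [h2, Complex.Gamma_conj] at h1
  have h3 := congrArg norm h1
  rw [norm_mul, RCLike.norm_conj, norm_div, Complex.norm_real, Real.norm_of_nonneg Real.pi_pos.le]
    at h3
  have h4 : Complex.sin (π * (1 / 2 + y * I)) = ((Real.cosh (π * y) : ℝ) : ℂ) := by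
    rw [show (π : ℂ) * (1 / 2 + y * I) = ((π * y : ℝ) : ℂ) * I + π / 2 by push_cast; ring,
      Complex.sin_add_pi_div_two, Complex.cos_mul_I, Complex.ofReal_cosh]
  rw [h4, Complex.norm_real, Real.norm_of_nonneg (Real.cosh_pos _).le, ← sq] at h3
  have h5 : Real.exp (π * |y|) / 2 ≤ Real.cosh (π * y) := by
    rw [← Real.cosh_abs, abs_mul, abs_of_pos Real.pi_pos, Real.cosh_eq]
    have := Real.exp_pos (-(π * |y|))
    linarith
  have h6 : π / Real.cosh (π * y) ≤ 9 * Real.exp (-(π * |y|)) := by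
    rw [div_le_iff₀ (Real.cosh_pos _)]
    have e1 : Real.exp (-(π * |y|)) * Real.exp (π * |y|) = 1 := by
      rw [← Real.exp_add]; simp
    have := Real.pi_lt_d2
    have e2 : 9 * Real.exp (-(π * |y|)) * (Real.exp (π * |y|) / 2) ≤
        9 * Real.exp (-(π * |y|)) * Real.cosh (π * y) :=
      mul_le_mul_of_nonneg_left h5 (by positivity)
    nlinarith
  have h7 : (3 * Real.exp (-(π * |y| / 2))) ^ 2 = 9 * Real.exp (-(π * |y|)) := by
    rw [mul_pow, ← Real.exp_nat_mul]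
    norm_num
    ring_nf
  refine le_of_sq_le_sq ?_ (by positivity)
  rw [h7, h3]
  exact h6

private theorem G3_Gam_three_half (y : ℝ) :
    ‖Complex.Gamma (3 / 2 + y * I)‖ ≤ 3 * (1 + |y|) * Real.exp (-(π * |y| / 2)) := by
  have h0 : (1 / 2 + y * I : ℂ) ≠ 0 := by
    intro h
    have := congrArg Complex.re h
    simp at this
  rw [show (3 / 2 + y * I : ℂ) = (1 / 2 + y * I) + 1 by ring, Complex.Gamma_add_one _ h0, norm_mul]
  have h1 : ‖(1 / 2 + y * I : ℂ)‖ ≤ 1 + |y| := by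
    refine (norm_add_le _ _).trans ?_
    rw [norm_mul, Complex.norm_I, Complex.norm_real, mul_one, Real.norm_eq_abs]
    have : ‖(1 / 2 : ℂ)‖ ≤ 1 := by norm_num
    linarith
  calc _ ≤ (1 + |y|) * (3 * Real.exp (-(π * |y| / 2))) :=
        mul_le_mul h1 (G3_Gam_half y) (norm_nonneg _) (by positivity)
    _ = _ := by ring

private theorem G3_Gam_upper (y τ : ℝ) (h0 : 0 ≤ τ) (h1 : τ ≤ 1) :
    ‖Complex.Gamma (1 / 2 + τ + y * I)‖ ≤
      3 * Real.exp 3 * (1 + |y|) ^ τ * Real.exp (-(π * |y| / 2)) := by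
  obtain ⟨M, hM0, hM⟩ := G3_Gam_bdd
  set F : ℂ → ℂ := fun w => Complex.Gamma (w + (1 / 2 + y * I)) * Complex.exp (w ^ 2) with hF
  have hnexp : ∀ w : ℂ, ‖Complex.exp (w ^ 2)‖ = Real.exp (w.re ^ 2 - w.im ^ 2) := by
    intro w
    rw [Complex.norm_exp]
    congr 1
    simp [sq]
  set A : ℝ := 3 * Real.exp 3 * Real.exp (-(π * |y| / 2)) with hA
  have hA0 : 0 < A := by positivity
  have hcl : closure (Complex.HadamardThreeLines.verticalStrip 0 1) ⊆ {w : ℂ | 0 ≤ w.re} := by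
    refine closure_minimal (fun w hw => ?_) (isClosed_le continuous_const Complex.continuous_re)
    exact (Set.mem_preimage.1 hw).1.le
  have hd : DiffContOnCl ℂ F (Complex.HadamardThreeLines.verticalStrip 0 1) := by
    refine DifferentiableOn.diffContOnCl fun w hw => ?_
    have hw' : 0 ≤ w.re := hcl hw
    have hG : DifferentiableAt ℂ Complex.Gamma (w + (1 / 2 + y * I)) := by
      refine Complex.differentiableAt_Gamma _ fun m => ?_
      intro h
      have := congrArg Complex.re h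
      simp at this
      have hm : (0 : ℝ) ≤ m := Nat.cast_nonneg m
      linarith
    refine DifferentiableAt.differentiableWithinAt ?_
    have e1 : DifferentiableAt ℂ (fun w : ℂ => Complex.Gamma (w + (1 / 2 + y * I))) w :=
      DifferentiableAt.fun_comp' w hG (by fun_prop)
    exact e1.mul (by fun_prop)
  have hB : BddAbove ((norm ∘ F) '' Complex.HadamardThreeLines.verticalClosedStrip 0 1) := by
    refine ⟨M * Real.exp 1, ?_⟩
    rintro _ ⟨w, hw, rfl⟩
    have hw' : w.re ∈ Set.Icc (0 : ℝ) 1 := hw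
    show ‖F w‖ ≤ _
    rw [hF]
    simp only [norm_mul]
    refine mul_le_mul (hM _ ?_ ?_) ?_ (norm_nonneg _) hM0
    · simp; exact hw'.1
    · simp; linarith [hw'.2]
    · rw [hnexp]
      refine Real.exp_le_exp.2 ?_
      have := hw'.1
      have := hw'.2
      nlinarith [sq_nonneg w.im]
  have key : ∀ v : ℝ, Real.exp (-(π * |v + y| / 2)) ≤
      Real.exp (-(π * |y| / 2)) * Real.exp (π * |v| / 2) := by
    intro v
    rw [← Real.exp_add]
    refine Real.exp_le_exp.2 ?_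
    have h1 : |y| ≤ |v + y| + |v| := by
      have := abs_sub (v + y) v
      simpa using this
    have := mul_le_mul_of_nonneg_left h1 Real.pi_pos.le
    linarith
  have ha : ∀ w ∈ Complex.re ⁻¹' {(0 : ℝ)}, ‖F w‖ ≤ A := by
    intro w hw
    have hw0 : w.re = 0 := hw
    have e : w + (1 / 2 + y * I) = 1 / 2 + ((w.im + y : ℝ) : ℂ) * I := by
      conv_lhs => rw [← Complex.re_add_im w, hw0]
      push_cast
      ring
    rw [hF]
    simp only [norm_mul]
    rw [hnexp, e, hw0]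
    have h2 := G3_Gam_half (w.im + y)
    have h3 := key w.im
    have h4 : Real.exp (π * |w.im| / 2) * Real.exp (0 ^ 2 - w.im ^ 2) ≤ Real.exp 3 := by
      rw [← Real.exp_add]
      refine Real.exp_le_exp.2 ?_
      have := Real.pi_lt_d2
      rw [← sq_abs w.im]
      nlinarith [sq_nonneg (|w.im| - 1), abs_nonneg w.im]
    calc _ ≤ (3 * Real.exp (-(π * |w.im + y| / 2))) * Real.exp (0 ^ 2 - w.im ^ 2) :=
          mul_le_mul_of_nonneg_right h2 (Real.exp_pos _).le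
      _ ≤ (3 * (Real.exp (-(π * |y| / 2)) * Real.exp (π * |w.im| / 2))) *
          Real.exp (0 ^ 2 - w.im ^ 2) := by gcongr
      _ = 3 * Real.exp (-(π * |y| / 2)) *
          (Real.exp (π * |w.im| / 2) * Real.exp (0 ^ 2 - w.im ^ 2)) := by ring
      _ ≤ 3 * Real.exp (-(π * |y| / 2)) * Real.exp 3 := by gcongr
      _ = A := by rw [hA]; ring
  have hb : ∀ w ∈ Complex.re ⁻¹' {(1 : ℝ)}, ‖F w‖ ≤ A * (1 + |y|) := by
    intro w hw
    have hw0 : w.re = 1 := hw
    have e : w + (1 / 2 + y * I) = 3 / 2 + ((w.im + y : ℝ) : ℂ) * I := by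
      conv_lhs => rw [← Complex.re_add_im w, hw0]
      push_cast
      ring
    rw [hF]
    simp only [norm_mul]
    rw [hnexp, e, hw0]
    have h2 := G3_Gam_three_half (w.im + y)
    have h3 := key w.im
    have h5 : 1 + |w.im + y| ≤ (1 + |y|) * Real.exp |w.im| := by
      have e1 : |w.im + y| ≤ |w.im| + |y| := abs_add_le _ _
      have e2 : |w.im| + 1 ≤ Real.exp |w.im| := Real.add_one_le_exp _
      nlinarith [abs_nonneg y, abs_nonneg w.im]
    have h4 : Real.exp |w.im| * Real.exp (π * |w.im| / 2) * Real.exp (1 ^ 2 - w.im ^ 2) ≤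
        Real.exp 3 := by
      rw [← Real.exp_add, ← Real.exp_add]
      refine Real.exp_le_exp.2 ?_
      have := Real.pi_lt_d2
      rw [← sq_abs w.im]
      nlinarith [sq_nonneg (|w.im| - 1.3), abs_nonneg w.im]
    calc _ ≤ (3 * (1 + |w.im + y|) * Real.exp (-(π * |w.im + y| / 2))) *
          Real.exp (1 ^ 2 - w.im ^ 2) :=
          mul_le_mul_of_nonneg_right h2 (Real.exp_pos _).le
      _ ≤ (3 * ((1 + |y|) * Real.exp |w.im|) *
            (Real.exp (-(π * |y| / 2)) * Real.exp (π * |w.im| / 2))) *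
          Real.exp (1 ^ 2 - w.im ^ 2) := by gcongr
      _ = 3 * (1 + |y|) * Real.exp (-(π * |y| / 2)) *
          (Real.exp |w.im| * Real.exp (π * |w.im| / 2) * Real.exp (1 ^ 2 - w.im ^ 2)) := by ring
      _ ≤ 3 * (1 + |y|) * Real.exp (-(π * |y| / 2)) * Real.exp 3 := by gcongr
      _ = A * (1 + |y|) := by rw [hA]; ring
  have hz : ((τ : ℝ) : ℂ) ∈ Complex.HadamardThreeLines.verticalClosedStrip 0 1 := by
    show ((τ : ℝ) : ℂ).re ∈ Set.Icc (0 : ℝ) 1
    rw [Complex.ofReal_re]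
    exact ⟨h0, h1⟩
  have h := Complex.HadamardThreeLines.norm_le_interp_of_mem_verticalClosedStrip₀₁' F hz hd hB ha hb
  rw [Complex.ofReal_re, Real.mul_rpow hA0.le (by positivity), ← mul_assoc,
    ← Real.rpow_add hA0, show 1 - τ + τ = 1 by ring, Real.rpow_one] at h
  have h8 : ‖Complex.Gamma (1 / 2 + τ + y * I)‖ ≤ ‖F τ‖ := by
    rw [hF]
    simp only [norm_mul]
    rw [hnexp, show (τ : ℂ) + (1 / 2 + y * I) = 1 / 2 + τ + y * I by ring]
    refine le_mul_of_one_le_right (norm_nonneg _) (Real.one_le_exp ?_)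
    simp
    positivity
  refine h8.trans (h.trans (le_of_eq ?_))
  rw [hA]
  ring

theorem sg0_mem {T : ℝ} (hT : Real.exp 1000 ≤ T) : 2 / 5 ≤ sg0 T ∧ sg0 T < 1 / 2 := by
  have hL : 1000 ≤ Real.log T := (Real.le_log_iff_exp_le (lt_of_lt_of_le (Real.exp_pos _) hT)).2 hT
  have hL0 : 0 < Real.log T := by linarith
  unfold sg0 R0
  have h1 : 6 / 5 / Real.log T ≤ 1 / 10 := by
    rw [div_le_iff₀ hL0]
    linarith
  have h2 : 0 < 6 / 5 / Real.log T := by positivity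
  constructor <;> linarith

theorem Kw_pos {T : ℝ} (hT : Real.exp 1000 ≤ T) (t : ℝ) : 0 < Kw T t := by
  have h := sg0_mem hT
  have h1 : Gammaℝ ((sg0 T : ℝ) + t * I) ≠ 0 := by
    refine Gammaℝ_ne_zero_of_re_pos ?_
    simp
    linarith [h.1]
  have h2 : 0 < ‖Gammaℝ ((sg0 T : ℝ) + t * I)‖ := norm_pos_iff.2 h1
  unfold Kw
  positivity

theorem Kw_continuous {T : ℝ} (hT : Real.exp 1000 ≤ T) : Continuous (Kw T) := by
  have h := sg0_mem hT
  have h1 : ∀ t : ℝ, Gammaℝ ((sg0 T : ℝ) + t * I) ≠ 0 := fun t => by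
    refine Gammaℝ_ne_zero_of_re_pos ?_
    simp
    linarith [h.1]
  have h2 : Continuous fun t : ℝ => Gammaℝ ((sg0 T : ℝ) + t * I) := by
    have e : (fun t : ℝ => Gammaℝ ((sg0 T : ℝ) + t * I)) =
        fun t : ℝ => ((Gammaℝ ((sg0 T : ℝ) + t * I))⁻¹)⁻¹ := by
      funext t
      rw [inv_inv]
    rw [e]
    refine Continuous.inv₀ ?_ fun t => inv_ne_zero (h1 t)
    exact differentiable_Gammaℝ_inv.continuous.comp (by fun_prop)
  unfold Kw
  exact (h2.norm.pow 2).mul (by fun_prop)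

/-- Two-sided bounds for the Gamma factor. -/
private theorem G3_two : ∃ c C : ℝ, 0 < c ∧ 1 ≤ C ∧ ∀ σ t : ℝ, 2 / 5 ≤ σ → σ < 1 / 2 →
    c * (1 + |t|) ^ (σ - 1) * Real.exp (-(π * |t| / 2)) ≤ ‖Gammaℝ ((σ : ℝ) + t * I)‖ ^ 2 ∧
    ‖Gammaℝ ((σ : ℝ) + t * I)‖ ^ 2 ≤ C * (1 + |t|) ^ (σ - 1) * Real.exp (-(π * |t| / 2)) := by
  obtain ⟨c, hc, hlb⟩ := gamma_lb
  refine ⟨c ^ 2 / 4, 2 * (18 * Real.exp 3) ^ 2, by positivity, ?_, fun σ t h1 h2 => ?_⟩
  · have := Real.one_le_exp (show (0 : ℝ) ≤ 3 by norm_num)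
    nlinarith
  have hn : ‖Gammaℝ ((σ : ℝ) + t * I)‖ ^ 2 =
      π ^ (-σ) * ‖Complex.Gamma (((σ / 2 : ℝ) : ℂ) + ((t / 2 : ℝ) : ℂ) * I)‖ ^ 2 := by
    rw [Gammaℝ_def, norm_mul, mul_pow, Complex.norm_cpow_eq_rpow_re_of_pos Real.pi_pos]
    congr 1
    · rw [← Real.rpow_natCast, ← Real.rpow_mul Real.pi_pos.le]
      congr 1
      simp
    · congr 3
      push_cast
      ring
  have hpi1 : π ^ (-σ) ≤ 1 := Real.rpow_le_one_of_one_le_of_nonpos
    (by linarith [Real.pi_gt_three]) (by linarith)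
  have hpi2 : 1 / 4 ≤ π ^ (-σ) := by
    have e1 : π ^ (-1 : ℝ) ≤ π ^ (-σ) := Real.rpow_le_rpow_of_exponent_le
      (by linarith [Real.pi_gt_three]) (by linarith)
    rw [Real.rpow_neg_one] at e1
    refine le_trans ?_ e1
    rw [one_div]
    exact inv_anti₀ Real.pi_pos Real.pi_lt_four.le
  set x : ℝ := σ / 2 with hx
  set y : ℝ := t / 2 with hy
  set G := ‖Complex.Gamma ((x : ℂ) + (y : ℂ) * I)‖ with hG
  have hG0 : 0 ≤ G := norm_nonneg _
  have hy1 : |y| = |t| / 2 := by rw [hy, abs_div]; norm_num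
  have hexp : Real.exp (-(π * |y| / 2)) ^ 2 = Real.exp (-(π * |t| / 2)) := by
    rw [← Real.exp_nat_mul, hy1]
    congr 1
    push_cast
    ring
  have hpw : ((1 + |y|) ^ (x - 1 / 2)) ^ 2 = (1 + |y|) ^ (σ - 1) := by
    rw [← Real.rpow_natCast, ← Real.rpow_mul (by positivity)]
    congr 1
    rw [hx]
    push_cast
    ring
  have habs : 0 ≤ |t| := abs_nonneg t
  rw [hn]
  constructor
  · have e1 := hlb x y (by rw [hx]; linarith) (by rw [hx]; linarith)
    have e2 : (c * (1 + |y|) ^ (x - 1 / 2) * Real.exp (-(π * |y| / 2))) ^ 2 ≤ G ^ 2 :=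
      pow_le_pow_left₀ (by positivity) e1 2
    rw [mul_pow, mul_pow, hexp, hpw] at e2
    have e3 : (1 + |t|) ^ (σ - 1) ≤ (1 + |y|) ^ (σ - 1) :=
      Real.rpow_le_rpow_of_nonpos (by positivity) (by rw [hy1]; linarith) (by linarith)
    calc c ^ 2 / 4 * (1 + |t|) ^ (σ - 1) * Real.exp (-(π * |t| / 2))
        = 1 / 4 * (c ^ 2 * (1 + |t|) ^ (σ - 1) * Real.exp (-(π * |t| / 2))) := by ring
      _ ≤ π ^ (-σ) * (c ^ 2 * (1 + |y|) ^ (σ - 1) * Real.exp (-(π * |t| / 2))) := by gcongr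
      _ ≤ π ^ (-σ) * G ^ 2 := by gcongr
  · have e0 : (x : ℂ) + (y : ℂ) * I ≠ 0 := by
      intro h
      have := congrArg Complex.re h
      simp at this
      rw [hx] at this
      linarith
    have e1 := G3_Gam_upper y (1 / 2 + x) (by rw [hx]; linarith) (by rw [hx]; linarith)
    have e2 : (1 / 2 : ℂ) + ((1 / 2 + x : ℝ) : ℂ) + (y : ℂ) * I = ((x : ℂ) + (y : ℂ) * I) + 1 := by
      push_cast
      ring
    rw [e2, Complex.Gamma_add_one _ e0, norm_mul, ← hG] at e1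
    have e3 : (1 + |y|) / 6 ≤ ‖(x : ℂ) + (y : ℂ) * I‖ := by
      have f1 : |y| ≤ ‖(x : ℂ) + (y : ℂ) * I‖ := by
        have := Complex.abs_im_le_norm ((x : ℂ) + (y : ℂ) * I)
        simpa using this
      have f2 : |x| ≤ ‖(x : ℂ) + (y : ℂ) * I‖ := by
        have := Complex.abs_re_le_norm ((x : ℂ) + (y : ℂ) * I)
        simpa using this
      have f3 : 1 / 5 ≤ |x| := by
        rw [abs_of_nonneg (by rw [hx]; linarith), hx]
        linarith
      linarith
    have hyp : 0 < 1 + |y| := by positivity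
    have e4 : (1 + |y|) ^ (1 / 2 + x) = (1 + |y|) * (1 + |y|) ^ (x - 1 / 2) := by
      rw [show (1 / 2 + x) = 1 + (x - 1 / 2) by ring, Real.rpow_add hyp, Real.rpow_one]
    have e5 : G ≤ 18 * Real.exp 3 * (1 + |y|) ^ (x - 1 / 2) * Real.exp (-(π * |y| / 2)) := by
      rw [e4] at e1
      have f1 : (1 + |y|) / 6 * G ≤ (1 + |y|) / 6 *
          (18 * Real.exp 3 * (1 + |y|) ^ (x - 1 / 2) * Real.exp (-(π * |y| / 2))) := by
        calc (1 + |y|) / 6 * G ≤ ‖(x : ℂ) + (y : ℂ) * I‖ * G := by gcongr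
          _ ≤ _ := e1
          _ = _ := by ring
      exact le_of_mul_le_mul_left f1 (by positivity)
    have e6 : G ^ 2 ≤ (18 * Real.exp 3 * (1 + |y|) ^ (x - 1 / 2) *
        Real.exp (-(π * |y| / 2))) ^ 2 := pow_le_pow_left₀ hG0 e5 2
    rw [mul_pow, mul_pow, hexp, hpw] at e6
    have e7 : (1 + |y|) ^ (σ - 1) ≤ 2 * (1 + |t|) ^ (σ - 1) := by
      have f1 : (1 + |y|) ^ (σ - 1) ≤ ((1 + |t|) * (1 / 2)) ^ (σ - 1) :=
        Real.rpow_le_rpow_of_nonpos (by positivity) (by rw [hy1]; linarith) (by linarith)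
      rw [Real.mul_rpow (by positivity) (by norm_num)] at f1
      have f2 : (1 / 2 : ℝ) ^ (σ - 1) ≤ 2 := by
        have : (1 / 2 : ℝ) ^ (σ - 1) ≤ (1 / 2 : ℝ) ^ (-1 : ℝ) :=
          Real.rpow_le_rpow_of_exponent_ge (by norm_num) (by norm_num) (by linarith)
        rw [Real.rpow_neg_one] at this
        norm_num at this
        norm_num
        exact this
      calc _ ≤ _ := f1
        _ ≤ (1 + |t|) ^ (σ - 1) * 2 := by gcongr
        _ = _ := by ring
    calc π ^ (-σ) * G ^ 2 ≤ 1 * G ^ 2 := by gcongr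
      _ = G ^ 2 := one_mul _
      _ ≤ (18 * Real.exp 3) ^ 2 * (1 + |y|) ^ (σ - 1) * Real.exp (-(π * |t| / 2)) := e6
      _ ≤ (18 * Real.exp 3) ^ 2 * (2 * (1 + |t|) ^ (σ - 1)) * Real.exp (-(π * |t| / 2)) := by
          gcongr
      _ = _ := by ring

private theorem G3_T {T : ℝ} (hT : Real.exp 1000 ≤ T) : 1000 ≤ T :=
  le_trans (by linarith [Real.add_one_le_exp 1000]) hT

/-- The exponential factor. -/
private theorem G3_exp_pos {T t : ℝ} (ht : 0 ≤ t) :
    Real.exp (-(π * |t| / 2)) * Real.exp (ang T * t) = Real.exp (-(|t| / T)) := by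
  rw [← Real.exp_add, abs_of_nonneg ht]
  congr 1
  unfold ang
  ring

private theorem G3_exp_neg {T t : ℝ} (hT : Real.exp 1000 ≤ T) (ht : t ≤ 0) :
    Real.exp (-(π * |t| / 2)) * Real.exp (ang T * t) ≤ Real.exp (-(2 * |t|)) := by
  rw [← Real.exp_add]
  refine Real.exp_le_exp.2 ?_
  have h1 := G3_T hT
  have h2 : 1 / T ≤ 1 / 10 := by
    rw [div_le_div_iff₀ (by linarith) (by norm_num)]
    linarith
  rw [abs_of_nonpos ht]
  unfold ang
  have h3 := Real.pi_gt_three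
  nlinarith

theorem Kw_le : ∃ C : ℝ, 1 ≤ C ∧ ∀ T t : ℝ, Real.exp 1000 ≤ T →
    Kw T t ≤ C * (1 + |t|) ^ (-(1 / 2) : ℝ) * Real.exp (-(|t| / T)) ∧
    (t ≤ 0 → Kw T t ≤ C * Real.exp (-|t|)) := by
  obtain ⟨c, C, hc, hC, h⟩ := G3_two
  refine ⟨C, hC, fun T t hT => ?_⟩
  have hs := sg0_mem hT
  obtain ⟨-, h2⟩ := h (sg0 T) t hs.1 hs.2
  have h0 : 0 ≤ |t| := abs_nonneg t
  have hTT := G3_T hT
  have e1 : (1 + |t|) ^ (sg0 T - 1) ≤ (1 + |t|) ^ (-(1 / 2) : ℝ) :=
    Real.rpow_le_rpow_of_exponent_le (by linarith) (by linarith [hs.2])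
  have e1' : (1 + |t|) ^ (sg0 T - 1) ≤ 1 :=
    Real.rpow_le_one_of_one_le_of_nonpos (by linarith) (by linarith [hs.2])
  have e2 : Real.exp (-(π * |t| / 2)) * Real.exp (ang T * t) ≤ Real.exp (-(|t| / T)) := by
    rcases le_total 0 t with h3 | h3
    · exact (G3_exp_pos h3).le
    · refine (G3_exp_neg hT h3).trans (Real.exp_le_exp.2 ?_)
      have : |t| / T ≤ 2 * |t| := by
        rw [div_le_iff₀ (by linarith)]
        nlinarith
      linarith
  have e3 : Kw T t ≤ C * (1 + |t|) ^ (sg0 T - 1) *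
      (Real.exp (-(π * |t| / 2)) * Real.exp (ang T * t)) := by
    unfold Kw
    calc _ ≤ (C * (1 + |t|) ^ (sg0 T - 1) * Real.exp (-(π * |t| / 2))) *
          Real.exp (ang T * t) := mul_le_mul_of_nonneg_right h2 (Real.exp_pos _).le
      _ = _ := by ring
  constructor
  · calc _ ≤ _ := e3
      _ ≤ C * (1 + |t|) ^ (-(1 / 2) : ℝ) * Real.exp (-(|t| / T)) := by gcongr
  · intro h3
    have e4 := G3_exp_neg hT h3
    have e5 : Real.exp (-(2 * |t|)) ≤ Real.exp (-|t|) := Real.exp_le_exp.2 (by linarith)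
    calc _ ≤ _ := e3
      _ ≤ C * 1 * Real.exp (-|t|) := by
          gcongr
          exact e4.trans e5
      _ = _ := by ring

theorem Kw_dm (η : ℝ) (h0 : 0 < η) (h1 : η ≤ 1) : ∃ c C T0 : ℝ, 0 < c ∧ 1 ≤ C ∧
    ∀ T t : ℝ, T0 ≤ T → t ∈ Dm (η / 2) T →
    c * T ^ (-(1 / 2) : ℝ) ≤ Kw T t ∧ Kw T t ≤ C * T ^ (-(1 / 2) : ℝ) := by
  obtain ⟨c, C, hc, hC, h⟩ := G3_two
  obtain ⟨C', hC', h'⟩ := Kw_le
  have hp : 1 ≤ (η / 2) ^ (-(1 / 2) : ℝ) :=
    Real.one_le_rpow_of_pos_of_le_one_of_nonpos (by linarith) (by linarith) (by norm_num)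
  refine ⟨c * (η / 3) * Real.exp (-(6 / 5)) * Real.exp (-(2 / η)),
    C' * (η / 2) ^ (-(1 / 2) : ℝ), Real.exp 1000, by positivity, by nlinarith,
    fun T t hT ht => ?_⟩
  have hs := sg0_mem hT
  have hTT := G3_T hT
  have hT0 : 0 < T := by linarith
  have hL : 1000 ≤ Real.log T := (Real.le_log_iff_exp_le hT0).2 hT
  have ht1 : η / 2 * T ≤ t := ht.1
  have ht2 : t ≤ T / (η / 2) := ht.2
  have ht0 : 0 < t := lt_of_lt_of_le (by positivity) ht1
  have ht3 : t / T ≤ 2 / η := by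
    rw [div_le_iff₀ hT0]
    calc t ≤ _ := ht2
      _ = _ := by field_simp
  constructor
  · obtain ⟨h2, -⟩ := h (sg0 T) t hs.1 hs.2
    have e1 : (3 * T / η) ^ (sg0 T - 1) ≤ (1 + |t|) ^ (sg0 T - 1) := by
      refine Real.rpow_le_rpow_of_nonpos (by positivity) ?_ (by linarith [hs.2])
      rw [abs_of_pos ht0]
      have f1 : 1 ≤ T / η := by
        rw [le_div_iff₀ h0]
        linarith
      calc 1 + t ≤ T / η + T / (η / 2) := add_le_add f1 ht2
        _ = _ := by field_simp; ring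
    have e2 : (3 * T / η) ^ (sg0 T - 1) = (3 / η) ^ (sg0 T - 1) * T ^ (sg0 T - 1) := by
      rw [← Real.mul_rpow (by positivity) hT0.le]
      congr 1
      ring
    have e3 : η / 3 ≤ (3 / η) ^ (sg0 T - 1) := by
      have f1 : (3 / η) ^ (-1 : ℝ) ≤ (3 / η) ^ (sg0 T - 1) := by
        refine Real.rpow_le_rpow_of_exponent_le ?_ (by linarith [hs.1])
        rw [le_div_iff₀ h0]
        linarith
      rw [Real.rpow_neg_one, inv_div] at f1
      exact f1
    have e4 : T ^ (sg0 T - 1) = Real.exp (-(6 / 5)) * T ^ (-(1 / 2) : ℝ) := by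
      have f1 : sg0 T - 1 = -(6 / 5) / Real.log T + -(1 / 2) := by
        unfold sg0 R0
        ring
      rw [f1, Real.rpow_add hT0]
      congr 1
      rw [Real.rpow_def_of_pos hT0]
      congr 1
      field_simp
    have e5 : Real.exp (-(2 / η)) ≤ Real.exp (-(|t| / T)) := by
      refine Real.exp_le_exp.2 ?_
      rw [abs_of_pos ht0]
      linarith
    have e6 : c * (1 + |t|) ^ (sg0 T - 1) * Real.exp (-(|t| / T)) ≤ Kw T t := by
      rw [← G3_exp_pos ht0.le]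
      unfold Kw
      calc _ = (c * (1 + |t|) ^ (sg0 T - 1) * Real.exp (-(π * |t| / 2))) *
            Real.exp (ang T * t) := by ring
        _ ≤ _ := mul_le_mul_of_nonneg_right h2 (Real.exp_pos _).le
    refine le_trans ?_ e6
    calc c * (η / 3) * Real.exp (-(6 / 5)) * Real.exp (-(2 / η)) * T ^ (-(1 / 2) : ℝ)
        = c * ((η / 3) * T ^ (sg0 T - 1)) * Real.exp (-(2 / η)) := by rw [e4]; ring
      _ ≤ c * ((3 / η) ^ (sg0 T - 1) * T ^ (sg0 T - 1)) * Real.exp (-(|t| / T)) := by gcongr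
      _ ≤ c * (1 + |t|) ^ (sg0 T - 1) * Real.exp (-(|t| / T)) := by
          rw [← e2]
          gcongr
  · obtain ⟨h2, -⟩ := h' T t hT
    have e1 : (1 + |t|) ^ (-(1 / 2) : ℝ) ≤ (η / 2 * T) ^ (-(1 / 2) : ℝ) := by
      refine Real.rpow_le_rpow_of_nonpos (by positivity) ?_ (by norm_num)
      rw [abs_of_pos ht0]
      linarith
    rw [Real.mul_rpow (by positivity) hT0.le] at e1
    have e2 : Real.exp (-(|t| / T)) ≤ 1 := Real.exp_le_one_iff.2 (by
      have : 0 ≤ |t| / T := by positivity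
      linarith)
    calc _ ≤ _ := h2
      _ ≤ C' * ((η / 2) ^ (-(1 / 2) : ℝ) * T ^ (-(1 / 2) : ℝ)) * 1 := by gcongr
      _ = _ := by ring

private theorem G3_hasDeriv {σ t : ℝ} (hσ : |σ| ≤ 20) (ht : 1 ≤ t) {C : ℝ}
    (hC : ∀ s : ℂ, |s.re| ≤ 20 → 1 ≤ s.im → ‖psiR s - (Real.log s.im / 2 : ℝ)‖ ≤ C) (a : ℝ) :
    ∃ d : ℝ, |d| ≤ 2 * C + |a| ∧ HasDerivAt
      (fun u : ℝ => Real.log (‖Gammaℝ ((σ : ℝ) + u * I)‖ ^ 2 * Real.exp (a * u))) d t := by
  set s : ℂ := (σ : ℝ) + t * I with hs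
  have hre : s.re = σ := by simp [hs]
  have him : s.im = t := by simp [hs]
  have him0 : s.im ≠ 0 := by rw [him]; linarith
  have hne : Gammaℝ s ≠ 0 := GR_ne him0
  have hd : HasDerivAt Gammaℝ (deriv Gammaℝ s) s := (GR_an him0).differentiableAt.hasDerivAt
  have hl : HasDerivAt (fun u : ℝ => ((σ : ℝ) : ℂ) + (u : ℂ) * I) I t := by
    have := ((Complex.ofRealCLM.hasDerivAt (x := t)).mul_const I).const_add ((σ : ℝ) : ℂ)
    simpa using this
  have hf : HasDerivAt (fun u : ℝ => Gammaℝ ((σ : ℝ) + u * I)) (deriv Gammaℝ s * I) t := by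
    have := HasDerivAt.comp (h₂ := Gammaℝ) (h := fun u : ℝ => ((σ : ℝ) : ℂ) + (u : ℂ) * I) t
      (h₂' := deriv Gammaℝ s) hd hl
    exact this
  have hq := hf.norm_sq
  have hin : inner ℝ (Gammaℝ s) (deriv Gammaℝ s * I) = -(‖Gammaℝ s‖ ^ 2 * (psiR s).im) := by
    have e1 : deriv Gammaℝ s = psiR s * Gammaℝ s := by
      rw [psiR, logDeriv_apply, div_mul_cancel₀ _ hne]
    rw [e1, Complex.inner, ← Complex.normSq_eq_norm_sq, Complex.normSq_apply]
    simp
    ring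
  have hn0 : ‖Gammaℝ s‖ ^ 2 ≠ 0 := by
    have := norm_pos_iff.2 hne
    positivity
  have hlog : HasDerivAt (fun u : ℝ => Real.log (‖Gammaℝ ((σ : ℝ) + u * I)‖ ^ 2) + a * u)
      (2 * inner ℝ (Gammaℝ s) (deriv Gammaℝ s * I) / ‖Gammaℝ s‖ ^ 2 + a) t := by
    refine HasDerivAt.add (hq.log hn0) ?_
    simpa using (hasDerivAt_id t).const_mul a
  refine ⟨_, ?_, hlog.congr_of_eventuallyEq ?_⟩
  · rw [hin]
    have e1 : 2 * -(‖Gammaℝ s‖ ^ 2 * (psiR s).im) / ‖Gammaℝ s‖ ^ 2 = -(2 * (psiR s).im) := by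
      field_simp
    rw [e1]
    have e2 := hC s (by rw [hre]; exact hσ) (by rw [him]; exact ht)
    have e3 := Complex.abs_im_le_norm (psiR s - (Real.log s.im / 2 : ℝ))
    rw [Complex.sub_im, Complex.ofReal_im, sub_zero] at e3
    calc |(-(2 * (psiR s).im) + a)| ≤ |(-(2 * (psiR s).im))| + |a| := abs_add_le _ _
      _ = 2 * |(psiR s).im| + |a| := by rw [abs_neg, abs_mul]; norm_num
      _ ≤ 2 * C + |a| := by linarith
  · filter_upwards [Ioi_mem_nhds (show (0 : ℝ) < t by linarith)] with u hu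
    have hu0 : (0 : ℝ) < u := hu
    have : Gammaℝ ((σ : ℝ) + u * I) ≠ 0 := GR_ne (by simp; exact hu0.ne')
    have h3 := norm_pos_iff.2 this
    rw [Real.log_mul (by positivity) (Real.exp_pos _).ne', Real.log_exp]

theorem Kw_ratio : ∃ C : ℝ, 0 ≤ C ∧ ∀ T t t' : ℝ, Real.exp 1000 ≤ T → 1 ≤ t → 1 ≤ t' →
    Kw T t ≤ Real.exp (C * |t - t'|) * Kw T t' := by
  obtain ⟨C, hC0, hC⟩ := psiR_bound
  refine ⟨2 * C + 2, by linarith, fun T t t' hT ht ht' => ?_⟩
  have hs := sg0_mem hT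
  have hTT := G3_T hT
  have hang : |ang T| ≤ 2 := by
    have h1 : 0 < 1 / T := by positivity
    have h2 : 1 / T ≤ 1 / 10 := by
      rw [div_le_div_iff₀ (by linarith) (by norm_num)]
      linarith
    have h3 := Real.pi_gt_three
    have h4 := Real.pi_lt_four
    unfold ang
    rw [abs_le]
    constructor <;> linarith
  have hσ : |sg0 T| ≤ 20 := by
    rw [abs_le]
    constructor <;> linarith [hs.1, hs.2]
  have key : ∀ u ∈ Set.Ici (1 : ℝ), ∃ d : ℝ, |d| ≤ 2 * C + 2 ∧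
      HasDerivAt (fun u : ℝ => Real.log (Kw T u)) d u := by
    intro u hu
    obtain ⟨d, hd1, hd2⟩ := G3_hasDeriv hσ hu hC (ang T)
    exact ⟨d, by linarith, hd2⟩
  choose! d hd1 hd2 using key
  have hm := (convex_Ici (1 : ℝ)).norm_image_sub_le_of_norm_hasDerivWithin_le
    (f := fun u : ℝ => Real.log (Kw T u)) (f' := d) (C := 2 * C + 2) (x := t') (y := t)
    (fun u hu => (hd2 u hu).hasDerivWithinAt) (fun u hu => hd1 u hu) ht' ht
  rw [Real.norm_eq_abs, Real.norm_eq_abs] at hm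
  have h1 : Real.log (Kw T t) ≤ (2 * C + 2) * |t - t'| + Real.log (Kw T t') := by
    have := le_abs_self (Real.log (Kw T t) - Real.log (Kw T t'))
    linarith
  calc Kw T t = Real.exp (Real.log (Kw T t)) := (Real.exp_log (Kw_pos hT t)).symm
    _ ≤ Real.exp ((2 * C + 2) * |t - t'| + Real.log (Kw T t')) := Real.exp_le_exp.2 h1
    _ = _ := by rw [Real.exp_add, Real.exp_log (Kw_pos hT t')]

theorem psiR_pt (η : ℝ) (h0 : 0 < η) (h1 : η ≤ 1) : ∃ C T0 : ℝ, 1 ≤ C ∧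
    ∀ (T t : ℝ) (z : ℂ), T0 ≤ T → t ∈ Dm η T → |z.re| ≤ 15 * Real.log T →
    |z.im| ≤ Real.log T ^ 2 →
    1 ≤ (pt T t z).im ∧ ‖psiR (pt T t z) / (Real.log T : ℝ) - 1 / 2‖ ≤ C / Real.log T := by
  obtain ⟨C, hC0, hC⟩ := psiR_bound
  have hlogη : 0 ≤ Real.log (2 / η) := Real.log_nonneg (by
    rw [le_div_iff₀ h0]
    linarith)
  refine ⟨1 + C + Real.log (2 / η), max (Real.exp 1000) (16 / η ^ 2), by linarith,
    fun T t z hT ht hz1 hz2 => ?_⟩
  have hT1 : Real.exp 1000 ≤ T := (le_max_left _ _).trans hT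
  have hT2 : 16 / η ^ 2 ≤ T := (le_max_right _ _).trans hT
  have hTT := G3_T hT1
  have hT0 : 0 < T := by linarith
  have hL : 1000 ≤ Real.log T := (Real.le_log_iff_exp_le hT0).2 hT1
  set L := Real.log T with hLdef
  have hL0 : 0 < L := by linarith
  have hsq : L ≤ η * T / 2 := by
    have e1 : L = 2 * Real.log (Real.sqrt T) := by
      rw [Real.log_sqrt hT0.le]
      ring
    have e2 : Real.log (Real.sqrt T) ≤ Real.sqrt T := by
      have := Real.log_le_sub_one_of_pos (Real.sqrt_pos.2 hT0)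
      linarith
    have e3 : 4 / η ≤ Real.sqrt T := by
      refine Real.le_sqrt_of_sq_le ?_
      rw [div_pow]
      norm_num
      exact hT2
    have e4 : 4 ≤ η * Real.sqrt T := by
      rw [div_le_iff₀ h0] at e3
      linarith
    have e5 : Real.sqrt T * Real.sqrt T = T := Real.mul_self_sqrt hT0.le
    have e6 : 4 * Real.sqrt T ≤ η * Real.sqrt T * Real.sqrt T :=
      mul_le_mul_of_nonneg_right e4 (Real.sqrt_nonneg T)
    rw [mul_assoc, e5] at e6
    linarith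
  have hre : (pt T t z).re = 1 / 2 + z.re / L := by
    unfold pt
    rw [← hLdef]
    simp [Complex.div_ofReal_re]
  have him : (pt T t z).im = t + z.im / L := by
    unfold pt
    rw [← hLdef]
    simp [Complex.div_ofReal_im]
  have hq : |z.im / L| ≤ L := by
    rw [abs_div, abs_of_pos hL0, div_le_iff₀ hL0]
    nlinarith
  have hq' : |z.re / L| ≤ 15 := by
    rw [abs_div, abs_of_pos hL0, div_le_iff₀ hL0]
    linarith
  rw [abs_le] at hq hq'
  have ht1 : η * T ≤ t := ht.1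
  have ht2 : t ≤ T / η := ht.2
  have hlow : η * T / 2 ≤ (pt T t z).im := by
    rw [him]
    linarith [hq.1]
  have hTη : T ≤ T / η := by
    rw [le_div_iff₀ h0]
    nlinarith
  have hhigh : (pt T t z).im ≤ 2 * T / η := by
    rw [him]
    have : L ≤ T / η := by
      have : η * T / 2 ≤ T := by nlinarith
      linarith
    calc t + z.im / L ≤ T / η + T / η := by linarith [hq.2]
      _ = _ := by ring
  have hone : 1 ≤ (pt T t z).im := by linarith
  refine ⟨hone, ?_⟩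
  have hb := hC (pt T t z) (by rw [hre, abs_le]; constructor <;> linarith [hq'.1, hq'.2]) hone
  have hl1 : Real.log (pt T t z).im ≤ L + Real.log (2 / η) := by
    rw [hLdef, ← Real.log_mul hT0.ne' (by positivity)]
    refine Real.log_le_log (by linarith) ?_
    calc _ ≤ _ := hhigh
      _ = _ := by ring
  have hl2 : L - Real.log (2 / η) ≤ Real.log (pt T t z).im := by
    rw [hLdef, ← Real.log_div hT0.ne' (by positivity)]
    refine Real.log_le_log (by positivity) ?_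
    calc T / (2 / η) = η * T / 2 := by field_simp
      _ ≤ _ := hlow
  have hLc : (L : ℂ) ≠ 0 := by exact_mod_cast hL0.ne'
  have e1 : psiR (pt T t z) / (L : ℝ) - 1 / 2 =
      (psiR (pt T t z) - (Real.log (pt T t z).im / 2 : ℝ) +
        (((Real.log (pt T t z).im - L) / 2 : ℝ) : ℂ)) / (L : ℝ) := by
    field_simp
    push_cast
    ring
  rw [e1, norm_div, Complex.norm_real, Real.norm_of_nonneg hL0.le]
  refine div_le_div_of_nonneg_right ?_ hL0.le
  refine (norm_add_le _ _).trans ?_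
  have e2 : ‖(((Real.log (pt T t z).im - L) / 2 : ℝ) : ℂ)‖ ≤ Real.log (2 / η) := by
    rw [Complex.norm_real, Real.norm_eq_abs, abs_le]
    constructor <;> linarith
  linarith

end Pool.Agent.LB
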