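import Pool.Agent.Lib.MP_69b2e4_nt.LB.Defs
import Pool.Agent.Lib.MP_69b2e4_nt.Mg.G016
import Pool.Agent.Lib.MP_69b2e4_nt.Mg.G008
import Pool.Agent.Lib.MP_69b2e4_nt.Mg.G014
import Pool.Agent.Lib.MP_69b2e4_nt.Mg.G015

/-! TASK T1. Mean values over `Dm η T = [ηT, T/η]`. Cover it by the intervals `[X_k, 3X_k]`, `X_k = 3^k η T`, `k < n`, `3^n ≥ 1/η²`.
`mean5`: `mean4` (UV/MV.lean) with `Q2 = 1` on each of them, `X_k ≤ T/η`.
`twist5`: `twist4` (UV/TW.lean) with `κ = 1/100` on each of them (with `T := X_k`): for `T ≥ T0(η, A)`: `T^{47/100} ≤ X^{1/2-1/50}`, `T^{1/1600} ≤ X^{1/800}`, `|a| ≤ A/log T ≤ 2A/log X` (so use `twist4` with `2A`), `MM X = ⌊X^{1/2}⌋ + 1` satisfies `T^{9/20} ≤ MM X ≤ T²`, the error `X^{1-1/400} ≤ C T^{399/400}`. -/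

set_option autoImplicit false

namespace Pool.Agent.LB

open Complex MeasureTheory Finset Pool.Agent.GH Pool.Agent.UH Pool.Agent.UV
open scoped Real ComplexConjugate

private lemma T1_exists_n (η : ℝ) : ∃ n : ℕ, 1 / η ^ 2 ≤ (3 : ℝ) ^ n := by
  obtain ⟨n, hn⟩ := pow_unbounded_of_one_lt (1 / η ^ 2) (by norm_num : (1 : ℝ) < 3)
  exact ⟨n, hn.le⟩

private lemma T1_cover {η T : ℝ} (h0 : 0 < η) (hT : 0 < T) {n : ℕ} (hn : 1 / η ^ 2 ≤ (3 : ℝ) ^ n)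
    (f : ℝ → ENNReal) :
    ∫⁻ t in Dm η T, f t ≤
      ∑ k ∈ range (n + 1), ∫⁻ t in Set.Icc ((3 : ℝ) ^ k * (η * T)) (3 * ((3 : ℝ) ^ k * (η * T))), f t := by
  have hsub : Dm η T ⊆ ⋃ k : Fin (n + 1),
      Set.Icc ((3 : ℝ) ^ (k : ℕ) * (η * T)) (3 * ((3 : ℝ) ^ (k : ℕ) * (η * T))) := by
    intro t ht
    obtain ⟨h1, h2⟩ := ht
    have hpos : 0 < η * T := mul_pos h0 hT
    have hx : 1 ≤ t / (η * T) := by
      rw [le_div_iff₀ hpos, one_mul]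
      exact h1
    obtain ⟨k, hk1, hk2⟩ := exists_nat_pow_near hx (by norm_num : (1 : ℝ) < 3)
    rw [le_div_iff₀ hpos] at hk1
    rw [div_lt_iff₀ hpos, pow_succ] at hk2
    have hkn : k ≤ n := by
      have h3 : (3 : ℝ) ^ k ≤ (3 : ℝ) ^ n := by
        refine le_trans ?_ hn
        have h4 : (3 : ℝ) ^ k * (η * T) ≤ T / η := hk1.trans h2
        rw [le_div_iff₀ h0] at h4
        rw [le_div_iff₀ (by positivity)]
        have h5 : ((3 : ℝ) ^ k * η ^ 2) * T ≤ 1 * T := by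
          calc ((3 : ℝ) ^ k * η ^ 2) * T = (3 : ℝ) ^ k * (η * T) * η := by ring
            _ ≤ T := h4
            _ = 1 * T := (one_mul T).symm
        exact le_of_mul_le_mul_right h5 hT
      exact (pow_le_pow_iff_right₀ (by norm_num : (1 : ℝ) < 3)).1 h3
    refine Set.mem_iUnion.2 ⟨⟨k, by omega⟩, hk1, ?_⟩
    show t ≤ 3 * ((3 : ℝ) ^ k * (η * T))
    calc t ≤ (3 : ℝ) ^ k * 3 * (η * T) := hk2.le
      _ = 3 * ((3 : ℝ) ^ k * (η * T)) := by ring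
  refine (lintegral_mono_set hsub).trans ?_
  refine (lintegral_iUnion_le _ _).trans ?_
  rw [tsum_fintype]
  exact (Fin.sum_univ_eq_sum_range (fun k => ∫⁻ t in Set.Icc ((3 : ℝ) ^ k * (η * T))
    (3 * ((3 : ℝ) ^ k * (η * T))), f t) (n + 1)).le

private lemma T1_sum {η T : ℝ} (h0 : 0 < η) (hT : 0 < T) {n : ℕ} (hn : 1 / η ^ 2 ≤ (3 : ℝ) ^ n)
    (f : ℝ → ENNReal) {K : ℝ} (hK : 0 ≤ K)
    (h : ∀ k ≤ n, ∫⁻ t in Set.Icc ((3 : ℝ) ^ k * (η * T)) (3 * ((3 : ℝ) ^ k * (η * T))), f t ≤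
      ENNReal.ofReal K) :
    ∫⁻ t in Dm η T, f t ≤ ENNReal.ofReal ((n + 1) * K) := by
  refine (T1_cover h0 hT hn f).trans ?_
  calc ∑ k ∈ range (n + 1), ∫⁻ t in Set.Icc ((3 : ℝ) ^ k * (η * T)) (3 * ((3 : ℝ) ^ k * (η * T))), f t
      ≤ ∑ k ∈ range (n + 1), ENNReal.ofReal K :=
        Finset.sum_le_sum fun k hk => h k (Nat.lt_succ_iff.1 (Finset.mem_range.1 hk))
    _ = ENNReal.ofReal (∑ k ∈ range (n + 1), K) :=
        (ENNReal.ofReal_sum_of_nonneg fun _ _ => hK).symm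
    _ = ENNReal.ofReal ((n + 1) * K) := by
        rw [Finset.sum_const, Finset.card_range, nsmul_eq_mul]
        push_cast
        rfl

private lemma T1_X {η T : ℝ} (h0 : 0 < η) (h1 : η ≤ 1) (hT : 0 < T) {n k : ℕ} (hk : k ≤ n) :
    η * T ≤ (3 : ℝ) ^ k * (η * T) ∧ (3 : ℝ) ^ k * (η * T) ≤ (3 : ℝ) ^ n * T := by
  have hpos : 0 < η * T := mul_pos h0 hT
  refine ⟨le_mul_of_one_le_left hpos.le (one_le_pow₀ (by norm_num)), ?_⟩
  refine mul_le_mul (pow_le_pow_right₀ (by norm_num) hk) ?_ hpos.le (by positivity)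
  calc η * T ≤ 1 * T := mul_le_mul_of_nonneg_right h1 hT.le
    _ = T := one_mul T

theorem mean5 (η : ℝ) (h0 : 0 < η) (h1 : η ≤ 1) : ∃ C : ℝ, 1 ≤ C ∧
    ∀ {Q B T : ℝ} {g : (ℕ →*₀ ℂ) → ℂ}, 1 ≤ Q → 1 ≤ T → IsP2 Q 1 B (fun χ _ => g χ) →
    ∫⁻ t in Dm η T, ENNReal.ofReal (‖g (nC (1 / 2 + t * I))‖ ^ 2) ≤
      ENNReal.ofReal (C * (T * (∫ v, ‖g (nX 0 v)‖ ^ 2 ∂mu) + Q ^ 2 * B ^ 2)) := by
  obtain ⟨n, hn⟩ := T1_exists_n η
  have h3n : (1 : ℝ) ≤ (3 : ℝ) ^ n := one_le_pow₀ (by norm_num)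
  have hn0 : (0 : ℝ) ≤ n := Nat.cast_nonneg n
  refine ⟨(n + 1) * (4 * (3 : ℝ) ^ n), ?_, ?_⟩
  · nlinarith
  intro Q B T g hQ hT hg
  have hT0 : 0 < T := by linarith
  set E : ℝ := ∫ v, ‖g (nX 0 v)‖ ^ 2 ∂mu with hE
  have hE0 : 0 ≤ E := integral_nonneg fun v => by positivity
  have hK : 0 ≤ 4 * (3 : ℝ) ^ n * (T * E + Q ^ 2 * B ^ 2) := by positivity
  have key : ∀ k ≤ n, ∫⁻ t in Set.Icc ((3 : ℝ) ^ k * (η * T)) (3 * ((3 : ℝ) ^ k * (η * T))),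
      ENNReal.ofReal (‖g (nC (1 / 2 + t * I))‖ ^ 2) ≤
      ENNReal.ofReal (4 * (3 : ℝ) ^ n * (T * E + Q ^ 2 * B ^ 2)) := by
    intro k hk
    obtain ⟨hX1, hX2⟩ := T1_X h0 h1 hT0 hk
    have hpos : 0 < η * T := mul_pos h0 hT0
    set X : ℝ := (3 : ℝ) ^ k * (η * T) with hX
    have hX0 : 0 ≤ X := hpos.le.trans hX1
    have h4 := mean4 hg hQ le_rfl hX0
    have hc : Continuous fun t : ℝ => ‖g (nC (1 / 2 + t * I))‖ ^ 2 := hg.continuous_line.norm.pow 2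
    have h5 : ∫⁻ t in Set.Icc X (3 * X), ENNReal.ofReal (‖g (nC (1 / 2 + t * I))‖ ^ 2) =
        ENNReal.ofReal (∫ t in X..(3 * X), ‖g (nC (1 / 2 + t * I))‖ ^ 2) := by
      rw [intervalIntegral.integral_of_le (by linarith), ← integral_Icc_eq_integral_Ioc]
      refine (ofReal_integral_eq_lintegral_ofReal ?_ (Filter.Eventually.of_forall fun t => ?_)).symm
      · exact hc.continuousOn.integrableOn_Icc
      · positivity
    rw [h5]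
    refine ENNReal.ofReal_le_ofReal (h4.trans ?_)
    have h6 : 2 * X * E ≤ 2 * ((3 : ℝ) ^ n * T) * E := by
      have := mul_le_mul_of_nonneg_right hX2 hE0
      nlinarith
    have h7 : 0 ≤ Q ^ 2 * B ^ 2 := by positivity
    have h8 : 0 ≤ (3 : ℝ) ^ n * T * E := by positivity
    have h9 : Q ^ 2 * B ^ 2 ≤ (3 : ℝ) ^ n * (Q ^ 2 * B ^ 2) := le_mul_of_one_le_left h7 h3n
    calc 2 * X * E + 4 * Q ^ 2 * 1 * B ^ 2
        ≤ 2 * ((3 : ℝ) ^ n * T) * E + 4 * (Q ^ 2 * B ^ 2) := by linarith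
      _ ≤ 4 * (3 : ℝ) ^ n * (T * E + Q ^ 2 * B ^ 2) := by nlinarith
  refine (T1_sum h0 hT0 hn _ hK key).trans (ENNReal.ofReal_le_ofReal (le_of_eq ?_))
  ring

private lemma T1_rpow_le {T Y c : ℝ} (hc : 0 < c) (h : Y ^ (1 / c) ≤ T) (hY : 0 ≤ Y) :
    Y ≤ T ^ c := by
  have h1 : (Y ^ (1 / c)) ^ c ≤ T ^ c := Real.rpow_le_rpow (Real.rpow_nonneg hY _) h hc.le
  rwa [← Real.rpow_mul hY, one_div_mul_cancel hc.ne', Real.rpow_one] at h1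

theorem twist5 (η A : ℝ) (h0 : 0 < η) (h1 : η ≤ 1) (hA : 0 ≤ A) : ∃ C T0 : ℝ, 1 ≤ C ∧
    ∀ {T a E : ℝ} {g : (ℕ →*₀ ℂ) → ℂ}, T0 ≤ T → |a| ≤ A / Real.log T →
    IsP2 (T ^ (47 / 100 : ℝ)) 1 (T ^ (1 / 1600 : ℝ)) (fun χ _ => g χ) → 0 ≤ E →
    (∀ M : ℕ, T ^ (9 / 20 : ℝ) ≤ M → (M : ℝ) ≤ T ^ 2 →
      ∫ v, ‖Zt (Nat.primesBelow M) (1 / 2) v‖ ^ 2 * ‖g (nX (-a) v)‖ ^ 2 ∂mu ≤ E) →
    ∫⁻ t in Dm η T, ENNReal.ofReal (‖riemannZeta (1 / 2 + a + t * I)‖ ^ 2 *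
      ‖g (nC (1 / 2 + t * I))‖ ^ 2) ≤
    ENNReal.ofReal (C * (T * E + T ^ (399 / 400 : ℝ))) := by
  obtain ⟨n, hn⟩ := T1_exists_n η
  have h3n : (1 : ℝ) ≤ (3 : ℝ) ^ n := one_le_pow₀ (by norm_num)
  have hn0 : (0 : ℝ) ≤ n := Nat.cast_nonneg n
  obtain ⟨C, T1, hC, hT1, htw⟩ := twist4 (κ := 1 / 100) (A := 2 * A) (by norm_num) (by norm_num)
    (by positivity)
  refine ⟨(n + 1) * (C * (3 : ℝ) ^ n), max (T1 / η) (max ((3 : ℝ) ^ n + 1) ((1 / η) ^ (48 : ℝ))),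
    ?_, ?_⟩
  · have : 1 ≤ C * (3 : ℝ) ^ n := one_le_mul_of_one_le_of_one_le hC h3n
    nlinarith
  intro T a E g hT ha hg hE0 hM
  have hTa : T1 / η ≤ T := (le_max_left _ _).trans hT
  have hTb : (3 : ℝ) ^ n + 1 ≤ T := (le_max_left _ _).trans ((le_max_right _ _).trans hT)
  have hTc : (1 / η) ^ (48 : ℝ) ≤ T := (le_max_right _ _).trans ((le_max_right _ _).trans hT)
  have hT2 : 2 ≤ T := by linarith
  have hT0 : 0 < T := by linarith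
  have hT1' : 1 ≤ T := by linarith
  have hlog : 0 < Real.log T := Real.log_pos (by linarith)
  have hpos : 0 < η * T := mul_pos h0 hT0
  have hηT1 : T1 ≤ η * T := by
    rw [div_le_iff₀ h0] at hTa
    linarith
  -- `T^{47/48} ≤ η T`
  have hηT : T ^ (47 / 48 : ℝ) ≤ η * T := by
    have h2 : 1 / η ≤ T ^ (1 / 48 : ℝ) := by
      refine T1_rpow_le (by norm_num) ?_ (by positivity)
      norm_num
      simpa using hTc
    have h3 : T = T ^ (47 / 48 : ℝ) * T ^ (1 / 48 : ℝ) := by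
      rw [← Real.rpow_add hT0]
      norm_num
    have h4 : T ^ (47 / 48 : ℝ) * 1 ≤ T ^ (47 / 48 : ℝ) * (η * T ^ (1 / 48 : ℝ)) := by
      refine mul_le_mul_of_nonneg_left ?_ (Real.rpow_nonneg hT0.le _)
      rw [div_le_iff₀ h0] at h2
      linarith
    calc T ^ (47 / 48 : ℝ) = T ^ (47 / 48 : ℝ) * 1 := (mul_one _).symm
      _ ≤ T ^ (47 / 48 : ℝ) * (η * T ^ (1 / 48 : ℝ)) := h4
      _ = η * (T ^ (47 / 48 : ℝ) * T ^ (1 / 48 : ℝ)) := by ring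
      _ = η * T := by rw [← h3]
  have hK : 0 ≤ C * (3 : ℝ) ^ n * (T * E + T ^ (399 / 400 : ℝ)) := by positivity
  have key : ∀ k ≤ n, ∫⁻ t in Set.Icc ((3 : ℝ) ^ k * (η * T)) (3 * ((3 : ℝ) ^ k * (η * T))),
      ENNReal.ofReal (‖riemannZeta (1 / 2 + a + t * I)‖ ^ 2 * ‖g (nC (1 / 2 + t * I))‖ ^ 2) ≤
      ENNReal.ofReal (C * (3 : ℝ) ^ n * (T * E + T ^ (399 / 400 : ℝ))) := by
    intro k hk
    obtain ⟨hX1, hX2⟩ := T1_X h0 h1 hT0 hk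
    set X : ℝ := (3 : ℝ) ^ k * (η * T) with hX
    have hX0 : 0 < X := hpos.trans_le hX1
    have hXT1 : T1 ≤ X := hηT1.trans hX1
    have hX2' : 2 ≤ X := hT1.trans hXT1
    have hX47 : T ^ (47 / 48 : ℝ) ≤ X := hηT.trans hX1
    have hXsq : X + 1 ≤ T ^ 2 := by
      have : ((3 : ℝ) ^ n + 1) * T ≤ T * T := mul_le_mul_of_nonneg_right hTb hT0.le
      nlinarith
    have hlogX : 0 < Real.log X := Real.log_pos (by linarith)
    have hlogX2 : Real.log X ≤ 2 * Real.log T := by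
      have h2 : Real.log X ≤ Real.log (T ^ 2) := Real.log_le_log hX0 (by linarith)
      rwa [Real.log_pow, Nat.cast_ofNat] at h2
    have haX : |a| ≤ 2 * A / Real.log X := by
      refine ha.trans ?_
      rw [div_le_div_iff₀ hlog hlogX]
      nlinarith
    have hpow : ∀ {c d : ℝ}, 0 ≤ d → c ≤ 47 / 48 * d → T ^ c ≤ X ^ d := by
      intro c d hd hcd
      calc T ^ c ≤ T ^ (47 / 48 * d) := Real.rpow_le_rpow_of_exponent_le hT1' hcd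
        _ = (T ^ (47 / 48 : ℝ)) ^ d := Real.rpow_mul hT0.le _ _
        _ ≤ X ^ d := Real.rpow_le_rpow (Real.rpow_nonneg hT0.le _) hX47 hd
    have hP : IsP2 (X ^ (1 / 2 - 2 * (1 / 100) : ℝ)) (X ^ ((1 / 100 : ℝ) / 8)) (X ^ ((1 / 100 : ℝ) / 8))
        (fun χ _ => g χ) :=
      hg.mono (hpow (by norm_num) (by norm_num))
        (Real.one_le_rpow (by linarith) (by norm_num)) (hpow (by norm_num) (by norm_num))
    have h4 := htw X a (fun χ _ => g χ) hXT1 haX hP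
    refine h4.trans (ENNReal.ofReal_le_ofReal ?_)
    have hMM1 : T ^ (9 / 20 : ℝ) ≤ (MM X : ℝ) := by
      have h5 : T ^ (9 / 20 : ℝ) ≤ X ^ (1 / 2 : ℝ) := hpow (by norm_num) (by norm_num)
      refine h5.trans ?_
      unfold MM Mof
      push_cast
      exact (Nat.lt_floor_add_one _).le
    have hMM2 : (MM X : ℝ) ≤ T ^ 2 := by
      refine le_trans ?_ hXsq
      unfold MM Mof
      push_cast
      have h6 : (⌊X ^ (1 / 2 : ℝ)⌋₊ : ℝ) ≤ X ^ (1 / 2 : ℝ) := Nat.floor_le (Real.rpow_nonneg hX0.le _)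
      have h7 : X ^ (1 / 2 : ℝ) ≤ X ^ (1 : ℝ) :=
        Real.rpow_le_rpow_of_exponent_le (by linarith) (by norm_num)
      rw [Real.rpow_one] at h7
      linarith
    have h8 : ∫ v, ‖Zt (Nat.primesBelow (MM X)) (1 / 2) v‖ ^ 2 * ‖g (nX (-a) v)‖ ^ 2 ∂mu ≤ E :=
      hM (MM X) hMM1 hMM2
    have h9 : X ^ (1 - (1 / 100 : ℝ) / 4) ≤ (3 : ℝ) ^ n * T ^ (399 / 400 : ℝ) := by
      calc X ^ (1 - (1 / 100 : ℝ) / 4) ≤ ((3 : ℝ) ^ n * T) ^ (1 - (1 / 100 : ℝ) / 4) :=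
            Real.rpow_le_rpow hX0.le hX2 (by norm_num)
        _ = ((3 : ℝ) ^ n) ^ (1 - (1 / 100 : ℝ) / 4) * T ^ (1 - (1 / 100 : ℝ) / 4) :=
            Real.mul_rpow (by positivity) hT0.le
        _ ≤ (3 : ℝ) ^ n * T ^ (399 / 400 : ℝ) := by
            refine mul_le_mul ?_ (le_of_eq (by norm_num)) (Real.rpow_nonneg hT0.le _) (by positivity)
            calc ((3 : ℝ) ^ n) ^ (1 - (1 / 100 : ℝ) / 4) ≤ ((3 : ℝ) ^ n) ^ (1 : ℝ) :=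
                  Real.rpow_le_rpow_of_exponent_le h3n (by norm_num)
              _ = (3 : ℝ) ^ n := Real.rpow_one _
    have h10 : X * (∫ v, ‖Zt (Nat.primesBelow (MM X)) (1 / 2) v‖ ^ 2 * ‖g (nX (-a) v)‖ ^ 2 ∂mu) ≤
        (3 : ℝ) ^ n * T * E :=
      (mul_le_mul_of_nonneg_left h8 hX0.le).trans (mul_le_mul_of_nonneg_right hX2 hE0)
    calc C * (X * (∫ v, ‖Zt (Nat.primesBelow (MM X)) (1 / 2) v‖ ^ 2 * ‖g (nX (-a) v)‖ ^ 2 ∂mu) +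
          X ^ (1 - (1 / 100 : ℝ) / 4))
        ≤ C * ((3 : ℝ) ^ n * T * E + (3 : ℝ) ^ n * T ^ (399 / 400 : ℝ)) :=
          mul_le_mul_of_nonneg_left (add_le_add h10 h9) (by linarith)
      _ = C * (3 : ℝ) ^ n * (T * E + T ^ (399 / 400 : ℝ)) := by ring
  refine (T1_sum h0 hT0 hn _ hK key).trans (ENNReal.ofReal_le_ofReal (le_of_eq ?_))
  ring

end Pool.Agent.LB
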