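import Pool.Agent.Lib.MP_69b2e4_nt.Mg.G032
import Pool.Agent.Lib.MP_69b2e4_nt.Mg.G035
import Pool.Agent.Lib.MP_69b2e4_nt.LB.T3

/-! TASK C7. The shift. `L = log T`, `t' = t + y/L`, `s1 = 1/2 + it`, `s2 = sg0 T + it' = pt T t (-R0 + iy)`, `‖s1 - s2‖ ≤ (R0 + W)/L`. `uu(t) = ‖R(s1)‖²`, `R(s) = RT S lam (nC s)` entire. `(a+b)² ≤ (1+κ)a² + (1+1/κ)b²` with `a = ‖R(s2)‖`, `b = ‖R(s1) - R(s2)‖`.
Main term: `Kw T t ≤ e^{CW/L} Kw T t'` (`Kw_ratio`), substitute `t' = t + y/L`, `T1p`: `≤ (1+κ) e^{CW/L} (14/5) Kt ER`.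
Error term: `ρ = 1/(14θ³L)`; for `7θ³W ≤ κ0 ≤ 1/100`, `θ ≤ θ1`: `‖s1-s2‖ ≤ ρ/2`. Cauchy on `|ζ - s2| = ρ`: `R(s1) - R(s2) = (1/2πi)∮ R(ζ)[1/(ζ-s1) - 1/(ζ-s2)]dζ`, so `‖R(s1)-R(s2)‖² ≤ (2‖s1-s2‖/ρ)² (1/2π)∫_0^{2π} ‖R(s2+ρe^{iϑ})‖² dϑ`, `2‖s1-s2‖/ρ ≤ 28θ³(R0+W) ≤ 4κ0 + 34θ³`.
 `∫_{Dm η} Kw(t) ‖VV(s2)‖² ‖MO(s2)‖² ‖R(s2+ρe^{iϑ})‖² dt ≤ C_η T^{-1/2} ∫_{Dm (η/2)} ..dt'` (`Kw_dm`), `‖VV‖ ≤ 2‖ζ‖ + ‖ζ'/L‖` (`psiR_pt`), `TR1`, `TR2` for `η/2` with `i = 0`, `a = -R0/L`, `z1 = -R0/L` (`MO` at `1/2 + it' - R0/L`), `z2 = -R0/L + ρe^{iϑ}` (`|Re z2| ≤ R0/L + ρ ≤ 1/(7θ³L)`): `≤ K T Lam`. So the error term is at most `(1+1/κ)(4κ0+34θ³)² K' √T Lam ≤ (1+1/κ)(4κ0+34θ1³)² K'' Kt ER` (`m0_bounds`). Choose `κ = 1/1000`, then `κ0, θ1` small, then `T0` (`e^{CW/L} ≤ 1.001`): total `≤ 57/20`. -/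

set_option autoImplicit false

namespace Pool.Agent.LB

open Complex MeasureTheory Finset Pool.Agent.GH Pool.Agent.UH Pool.Agent.UV
open scoped Real ComplexConjugate

private theorem C7_circle {f : ℂ → ℂ} (hf : Differentiable ℂ f) {s w : ℂ} {ρ : ℝ} (hρ : 0 < ρ)
    (hw : ‖w - s‖ ≤ ρ / 2) :
    2 * π * ‖f w - f s‖ ^ 2 ≤
      (2 * ‖w - s‖ / ρ) ^ 2 * ∫ φ in (0 : ℝ)..(2 * π), ‖f (circleMap s ρ φ)‖ ^ 2 := by
  have hd : DiffContOnCl ℂ f (Metric.ball s ρ) := hf.diffContOnCl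
  have hws : w ∈ Metric.ball s ρ := by
    rw [mem_ball_iff_norm]; linarith
  have hCw := hd.two_pi_i_inv_smul_circleIntegral_sub_inv_smul hws
  have hCs := hd.two_pi_i_inv_smul_circleIntegral_sub_inv_smul (Metric.mem_ball_self hρ)
  have hcont : Continuous fun φ : ℝ => f (circleMap s ρ φ) :=
    hf.continuous.comp (continuous_circleMap s ρ)
  have hI : ∀ a b : ℝ, IntervalIntegrable (fun φ : ℝ => ‖f (circleMap s ρ φ)‖) volume a b :=
    fun a b => hcont.norm.intervalIntegrable a b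
  have hI2 : ∀ a b : ℝ, IntervalIntegrable (fun φ : ℝ => ‖f (circleMap s ρ φ)‖ ^ 2) volume a b :=
    fun a b => (hcont.norm.pow 2).intervalIntegrable a b
  have hneφ : ∀ φ : ℝ, circleMap s ρ φ - s ≠ 0 := fun φ => by
    rw [circleMap_sub_center]; exact circleMap_ne_center hρ.ne'
  have hnormφ : ∀ φ : ℝ, ‖circleMap s ρ φ - s‖ = ρ := fun φ => by
    rw [circleMap_sub_center, norm_circleMap_zero, abs_of_pos hρ]
  have hlow : ∀ φ : ℝ, ρ / 2 ≤ ‖circleMap s ρ φ - w‖ := fun φ => by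
    have h1 : ‖circleMap s ρ φ - s‖ ≤ ‖circleMap s ρ φ - w‖ + ‖w - s‖ := by
      have h2 : circleMap s ρ φ - s = (circleMap s ρ φ - w) + (w - s) := by ring
      rw [h2]; exact norm_add_le _ _
    rw [hnormφ] at h1
    linarith
  have hnew : ∀ φ : ℝ, circleMap s ρ φ - w ≠ 0 := fun φ h0 => by
    have := hlow φ
    rw [h0, norm_zero] at this
    linarith
  have hci : ∀ u : ℂ, (∀ φ : ℝ, circleMap s ρ φ - u ≠ 0) →
      CircleIntegrable (fun z => (z - u)⁻¹ • f z) s ρ := by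
    intro u hu
    unfold CircleIntegrable
    apply Continuous.intervalIntegrable
    exact (((continuous_circleMap s ρ).sub continuous_const).inv₀ hu).smul hcont
  have hdiff : f w - f s = (2 * π * I : ℂ)⁻¹ • ∮ z in C(s, ρ), ((z - w)⁻¹ • f z - (z - s)⁻¹ • f z) := by
    rw [circleIntegral.integral_sub (hci w hnew) (hci s hneφ), smul_sub, hCw, hCs]
  have h1 : 2 * π * ‖f w - f s‖ ≤ (2 * ‖w - s‖ / ρ) * ∫ φ in (0 : ℝ)..(2 * π), ‖f (circleMap s ρ φ)‖ := by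
    have h2 : ‖∮ z in C(s, ρ), ((z - w)⁻¹ • f z - (z - s)⁻¹ • f z)‖ ≤
        ∫ φ in (0 : ℝ)..(2 * π), (2 * ‖w - s‖ / ρ) * ‖f (circleMap s ρ φ)‖ := by
      unfold circleIntegral
      refine (intervalIntegral.norm_integral_le_integral_norm (by positivity)).trans ?_
      refine intervalIntegral.integral_mono_on (by positivity) ?_ ((hI _ _).const_mul _) fun φ _ => ?_
      · apply Continuous.intervalIntegrable
        refine Continuous.norm ?_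
        have hdc : Continuous fun φ : ℝ => deriv (circleMap s ρ) φ := by
          simp only [deriv_circleMap]
          exact (continuous_circleMap 0 ρ).mul continuous_const
        refine hdc.smul ?_
        exact ((((continuous_circleMap s ρ).sub continuous_const).inv₀ hnew).smul hcont).sub
          ((((continuous_circleMap s ρ).sub continuous_const).inv₀ hneφ).smul hcont)
      · have h3 : (circleMap s ρ φ - w)⁻¹ • f (circleMap s ρ φ) - (circleMap s ρ φ - s)⁻¹ • f (circleMap s ρ φ) =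
            ((w - s) * (circleMap s ρ φ - w)⁻¹ * (circleMap s ρ φ - s)⁻¹) * f (circleMap s ρ φ) := by
          have e1 := hnew φ
          have e2 := hneφ φ
          rw [smul_eq_mul, smul_eq_mul]
          field_simp
          ring
        beta_reduce
        rw [h3, norm_smul, deriv_circleMap, norm_mul, norm_circleMap_zero, Complex.norm_I, mul_one,
          abs_of_pos hρ, norm_mul, norm_mul, norm_mul, norm_inv, norm_inv, hnormφ]
        have h4 : ‖circleMap s ρ φ - w‖⁻¹ ≤ (ρ / 2)⁻¹ := by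
          apply inv_anti₀ (by positivity) (hlow φ)
        calc ρ * (‖w - s‖ * ‖circleMap s ρ φ - w‖⁻¹ * ρ⁻¹ * ‖f (circleMap s ρ φ)‖)
            ≤ ρ * (‖w - s‖ * (ρ / 2)⁻¹ * ρ⁻¹ * ‖f (circleMap s ρ φ)‖) := by gcongr
          _ = (2 * ‖w - s‖ / ρ) * ‖f (circleMap s ρ φ)‖ := by
            field_simp
    rw [intervalIntegral.integral_const_mul] at h2
    rw [hdiff, norm_smul, norm_inv]
    have h3 : ‖(2 * π * I : ℂ)‖ = 2 * π := by
      rw [norm_mul, norm_mul, Complex.norm_I, Complex.norm_real,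
        Real.norm_of_nonneg Real.pi_pos.le]
      norm_num
    rw [h3, ← mul_assoc, mul_inv_cancel₀ (by positivity), one_mul]
    exact h2
  obtain ⟨c, hc⟩ : ∃ c : ℝ, c = ‖f w - f s‖ := ⟨_, rfl⟩
  obtain ⟨a, ha⟩ : ∃ a : ℝ, a = 2 * ‖w - s‖ / ρ := ⟨_, rfl⟩
  have hc0 : 0 ≤ c := by rw [hc]; positivity
  have ha0 : 0 ≤ a := by rw [ha]; positivity
  rw [← hc, ← ha] at h1 ⊢
  obtain ⟨J1, hJ1⟩ : ∃ J : ℝ, J = ∫ φ in (0 : ℝ)..(2 * π), ‖f (circleMap s ρ φ)‖ := ⟨_, rfl⟩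
  obtain ⟨J2, hJ2⟩ : ∃ J : ℝ, J = ∫ φ in (0 : ℝ)..(2 * π), ‖f (circleMap s ρ φ)‖ ^ 2 := ⟨_, rfl⟩
  have hCS : ∀ e : ℝ, 2 * e * J1 - e ^ 2 * (2 * π) ≤ J2 := by
    intro e
    have h4 : ∫ φ in (0 : ℝ)..(2 * π), (2 * e * ‖f (circleMap s ρ φ)‖ - e ^ 2) ≤ J2 := by
      rw [hJ2]
      refine intervalIntegral.integral_mono_on (by positivity)
        (((hI _ _).const_mul _).sub intervalIntegrable_const) (hI2 _ _) fun φ _ => ?_
      nlinarith [sq_nonneg (‖f (circleMap s ρ φ)‖ - e)]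
    rw [intervalIntegral.integral_sub ((hI _ _).const_mul _) intervalIntegrable_const,
      intervalIntegral.integral_const_mul, intervalIntegral.integral_const, smul_eq_mul,
      sub_zero, ← hJ1] at h4
    linarith
  rw [← hJ1] at h1
  rw [← hJ2]
  have hpi : 0 < 2 * π := by positivity
  have h5 := hCS (J1 / (2 * π))
  have h6 : J1 ^ 2 / (2 * π) ≤ J2 := by
    have h7 : 2 * (J1 / (2 * π)) * J1 - (J1 / (2 * π)) ^ 2 * (2 * π) = J1 ^ 2 / (2 * π) := by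
      field_simp
      ring
    rw [h7] at h5
    exact h5
  have h8 : (2 * π * c) ^ 2 ≤ (a * J1) ^ 2 := pow_le_pow_left₀ (by positivity) h1 2
  have h9 : J1 ^ 2 ≤ J2 * (2 * π) := by rwa [div_le_iff₀ hpi] at h6
  have h10 : (2 * π) * (2 * π * c ^ 2) ≤ (2 * π) * (a ^ 2 * J2) := by
    calc (2 * π) * (2 * π * c ^ 2) = (2 * π * c) ^ 2 := by ring
      _ ≤ (a * J1) ^ 2 := h8
      _ = a ^ 2 * J1 ^ 2 := by ring
      _ ≤ a ^ 2 * (J2 * (2 * π)) := by gcongr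
      _ = (2 * π) * (a ^ 2 * J2) := by ring
  exact le_of_mul_le_mul_left h10 hpi

private theorem C7_circleL {f : ℂ → ℂ} (hf : Differentiable ℂ f) {s w : ℂ} {ρ : ℝ} (hρ : 0 < ρ)
    (hw : ‖w - s‖ ≤ ρ / 2) :
    ENNReal.ofReal (‖f w - f s‖ ^ 2) ≤ ENNReal.ofReal ((2 * ‖w - s‖ / ρ) ^ 2 / (2 * π)) *
      ∫⁻ φ in Set.Ioc (0 : ℝ) (2 * π), ENNReal.ofReal (‖f (circleMap s ρ φ)‖ ^ 2) := by
  have h1 := C7_circle hf hρ hw
  have hcont : Continuous fun φ : ℝ => ‖f (circleMap s ρ φ)‖ ^ 2 :=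
    (hf.continuous.comp (continuous_circleMap s ρ)).norm.pow 2
  rw [← ofReal_integral_eq_lintegral_ofReal]
  · rw [← intervalIntegral.integral_of_le (by positivity), ← ENNReal.ofReal_mul (by positivity)]
    apply ENNReal.ofReal_le_ofReal
    have hpi : 0 < 2 * π := by positivity
    rw [div_mul_eq_mul_div, le_div_iff₀ hpi]
    linarith
  · exact (hcont.integrableOn_Icc).mono_set Set.Ioc_subset_Icc_self
  · exact Filter.Eventually.of_forall fun φ => by positivity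

private theorem C7_shift {A B : Set ℝ} (hA : MeasurableSet A) (hB : MeasurableSet B) (c : ℝ)
    (h : ∀ t ∈ A, t + c ∈ B) (g : ℝ → ENNReal) :
    ∫⁻ t in A, g (t + c) ≤ ∫⁻ t in B, g t := by
  rw [← lintegral_indicator hA, ← lintegral_indicator hB,
    ← lintegral_add_right_eq_self (B.indicator g) c]
  apply lintegral_mono
  intro t
  beta_reduce
  by_cases ht : t ∈ A
  · rw [Set.indicator_of_mem ht, Set.indicator_of_mem (h t ht)]
  · rw [Set.indicator_of_notMem ht]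
    exact zero_le

private theorem C7_nC_diff (n : ℕ) : Differentiable ℂ fun s : ℂ => nC s n := by
  rcases eq_or_ne n 0 with rfl | hn
  · have h : (fun s : ℂ => nC s 0) = fun _ => 0 := by
      funext s
      exact map_zero (nC s)
    rw [h]
    exact differentiable_const 0
  · have h : (fun s : ℂ => nC s n) = fun s => (n : ℂ) ^ (-s) := by
      funext s
      exact nC_apply s hn
    rw [h]
    intro s
    exact (differentiableAt_id.neg).const_cpow (Or.inl (by exact_mod_cast hn))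

private theorem C7_RT_diff (S : BS) (κ : ℝ) : Differentiable ℂ fun s : ℂ => RT S κ (nC s) := by
  unfold RT
  refine Differentiable.fun_finsetProd fun j _ => ?_
  unfold Ex
  refine Differentiable.fun_sum fun i _ => ?_
  refine Differentiable.div_const (Differentiable.pow ?_ i) _
  refine Differentiable.const_mul ?_ _
  unfold PS
  exact Differentiable.fun_sum fun p _ => C7_nC_diff p

private theorem C7_meas_GR : Measurable Gammaℝ := by
  have h : Gammaℝ = fun s => ((Gammaℝ s)⁻¹)⁻¹ := by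
    funext s; rw [inv_inv]
  rw [h]
  exact (differentiable_Gammaℝ_inv.continuous.measurable).inv

private theorem C7_meas_zeta : Measurable riemannZeta := by
  apply measurable_of_continuousOn_compl_singleton 1
  intro s hs
  exact (differentiableAt_riemannZeta hs).continuousAt.continuousWithinAt

private theorem C7_meas_VV (T : ℝ) : Measurable (VV T) := by
  unfold VV psiR logDeriv
  have h1 := C7_meas_zeta
  have h2 : Measurable (deriv riemannZeta) := measurable_deriv _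
  have h3 : Measurable (deriv Gammaℝ) := measurable_deriv _
  have h4 := C7_meas_GR
  exact (h1.mul (measurable_const.add ((h3.div h4).div_const _))).add (h2.div_const _)

/-- the integrand of the error term -/
private noncomputable def C7_H (h : ℂ → ℂ) (S : BS) (lam ρ : ℝ) (φ t : ℝ) : ENNReal :=
  ENNReal.ofReal (‖h (1 / 2 + ((-R0 / Real.log S.T : ℝ) : ℂ) + t * I)‖ ^ 2 *
      ‖MO 0 S.T (nC (1 / 2 + t * I + ((-R0 / Real.log S.T : ℝ) : ℂ)))‖ ^ 2 *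
      ‖RT S lam (nC (1 / 2 + t * I + (((-R0 / Real.log S.T : ℝ) : ℂ) + circleMap 0 ρ φ)))‖ ^ 2)

private theorem C7_H_meas {h : ℂ → ℂ} (hh : Measurable h) (S : BS) (lam ρ : ℝ) :
    Measurable (fun q : ℝ × ℝ => C7_H h S lam ρ q.1 q.2) := by
  have hR := (C7_RT_diff S lam).continuous
  have hM := (MO_an 0 S.T).continuous
  have hc : Continuous (fun φ : ℝ => circleMap 0 ρ φ) := continuous_circleMap 0 ρ
  have h1 : Measurable (fun q : ℝ × ℝ => 1 / 2 + ((-R0 / Real.log S.T : ℝ) : ℂ) + (q.2 : ℂ) * I) := by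
    apply Continuous.measurable
    fun_prop
  have h2 : Measurable (fun q : ℝ × ℝ =>
      ‖MO 0 S.T (nC (1 / 2 + (q.2 : ℂ) * I + ((-R0 / Real.log S.T : ℝ) : ℂ)))‖ ^ 2) := by
    apply Continuous.measurable
    refine ((hM.comp ?_).norm).pow 2
    fun_prop
  have h3 : Measurable (fun q : ℝ × ℝ =>
      ‖RT S lam (nC (1 / 2 + (q.2 : ℂ) * I + (((-R0 / Real.log S.T : ℝ) : ℂ) + circleMap 0 ρ q.1)))‖ ^ 2) := by
    apply Continuous.measurable
    refine ((hR.comp ?_).norm).pow 2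
    have h4 : Continuous (fun q : ℝ × ℝ => circleMap 0 ρ q.1) := hc.comp continuous_fst
    fun_prop
  unfold C7_H
  exact ENNReal.measurable_ofReal.comp ((((hh.comp h1).norm.pow_const 2).mul h2).mul h3)

attribute [local irreducible] C7_H

private theorem C7_tonelli {h : ℂ → ℂ} (hh : Measurable h) {S : BS} {lam ρ : ℝ} {A B : Set ℝ}
    (hA : MeasurableSet A) (hB : MeasurableSet B) (c : ℝ) (hAB : ∀ t ∈ A, t + c ∈ B) {E : ENNReal}
    (hE : ∀ φ : ℝ, ∫⁻ t in B, C7_H h S lam ρ φ t ≤ E) :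
    ∫⁻ t in A, ∫⁻ φ in Set.Ioc (0 : ℝ) (2 * π), C7_H h S lam ρ φ (t + c) ≤
      E * ENNReal.ofReal (2 * π) := by
  have h1 := C7_shift hA hB c hAB (fun t => ∫⁻ φ in Set.Ioc (0 : ℝ) (2 * π), C7_H h S lam ρ φ t)
  refine h1.trans ?_
  rw [lintegral_lintegral_swap]
  · calc ∫⁻ φ in Set.Ioc (0 : ℝ) (2 * π), ∫⁻ t in B, C7_H h S lam ρ φ t
        ≤ ∫⁻ _ in Set.Ioc (0 : ℝ) (2 * π), E := lintegral_mono fun φ => hE φ
      _ = E * ENNReal.ofReal (2 * π) := by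
        rw [setLIntegral_const, Real.volume_Ioc, sub_zero]
  · have h2 : Measurable (Function.uncurry fun t φ : ℝ => C7_H h S lam ρ φ t) :=
      (C7_H_meas hh S lam ρ).comp (measurable_snd.prodMk measurable_fst)
    exact h2.aemeasurable

private theorem C7_sq {a b u : ℝ} (hu : 0 ≤ u) (h : u ≤ a + b) :
    u ^ 2 ≤ 1001 / 1000 * a ^ 2 + 1001 * b ^ 2 := by
  have h1 : u ^ 2 ≤ (a + b) ^ 2 := pow_le_pow_left₀ hu h 2
  nlinarith [sq_nonneg (a - 1000 * b)]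

private theorem C7_exp {x : ℝ} (hx : x ≤ 1 / 2000) : Real.exp x ≤ 1001 / 1000 := by
  have h1 : Real.exp x ≤ Real.exp (1 / 2000) := Real.exp_le_exp.2 hx
  have h2 : 1 - 1 / 2000 ≤ Real.exp (-(1 / 2000)) := by
    have := Real.add_one_le_exp (-(1 / 2000 : ℝ))
    linarith
  rw [Real.exp_neg] at h2
  have h3 : 0 < Real.exp (1 / 2000) := Real.exp_pos _
  have h4 : Real.exp (1 / 2000) * (1 - 1 / 2000) ≤ 1 := by
    calc Real.exp (1 / 2000) * (1 - 1 / 2000) ≤ Real.exp (1 / 2000) * (Real.exp (1 / 2000))⁻¹ := by gcongr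
      _ = 1 := mul_inv_cancel₀ h3.ne'
  nlinarith

/-- the pointwise bound for `VV` -/
private theorem C7_VVle {T Cp : ℝ} {s : ℂ} (hT : 1 ≤ Real.log T) (hCp : Cp ≤ Real.log T)
    (h : ‖psiR s / (Real.log T : ℝ) - 1 / 2‖ ≤ Cp / Real.log T) :
    ‖VV T s‖ ^ 2 ≤ 8 * ‖riemannZeta s‖ ^ 2 + 2 * ‖deriv riemannZeta s / (Real.log T : ℝ)‖ ^ 2 := by
  have hL : 0 < Real.log T := by linarith
  have h1 : ‖(1 / 2 : ℂ) + psiR s / (Real.log T : ℝ)‖ ≤ 2 := by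
    have e : (1 / 2 : ℂ) + psiR s / (Real.log T : ℝ) = 1 + (psiR s / (Real.log T : ℝ) - 1 / 2) := by ring
    rw [e]
    have h2 : Cp / Real.log T ≤ 1 := by rw [div_le_one hL]; exact hCp
    calc ‖(1 : ℂ) + (psiR s / (Real.log T : ℝ) - 1 / 2)‖ ≤ ‖(1 : ℂ)‖ + ‖psiR s / (Real.log T : ℝ) - 1 / 2‖ :=
          norm_add_le _ _
      _ ≤ 1 + 1 := by
          rw [norm_one]
          linarith
      _ = 2 := by norm_num
  have h3 : ‖VV T s‖ ≤ 2 * ‖riemannZeta s‖ + ‖deriv riemannZeta s / (Real.log T : ℝ)‖ := by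
    unfold VV
    refine (norm_add_le _ _).trans ?_
    rw [norm_mul]
    have := mul_le_mul_of_nonneg_left h1 (norm_nonneg (riemannZeta s))
    linarith
  have h4 := pow_le_pow_left₀ (norm_nonneg _) h3 2
  nlinarith [sq_nonneg (2 * ‖riemannZeta s‖ - ‖deriv riemannZeta s / (Real.log T : ℝ)‖)]

private theorem C7_point {S : BS} {lam ρ x m Ck Cp t y L : ℝ}
    (hLdef : L = Real.log S.T) (hL : 1 ≤ L) (hρ : 0 < ρ)
    (hk0 : 0 ≤ Kw S.T t) (hk1 : 0 ≤ Kw S.T (t + y / L)) (hkm : Kw S.T t ≤ Ck * m)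
    (hkr : Kw S.T t ≤ 1001 / 1000 * Kw S.T (t + y / L)) (hCp : Cp ≤ L)
    (hψ : ‖psiR (pt S.T t (-(R0 : ℂ) + y * I)) / (Real.log S.T : ℝ) - 1 / 2‖ ≤ Cp / Real.log S.T)
    (hδ : ‖(1 / 2 + (t : ℂ) * I) - (((sg0 S.T : ℝ) : ℂ) + ((t + y / L : ℝ) : ℂ) * I)‖ ≤ ρ / 2)
    (hx : 2 * ‖(1 / 2 + (t : ℂ) * I) - (((sg0 S.T : ℝ) : ℂ) + ((t + y / L : ℝ) : ℂ) * I)‖ / ρ ≤ x) :
    ENNReal.ofReal (Kw S.T t * uu S lam t * ‖Fz S t (-(R0 : ℂ) + y * I)‖ ^ 2) ≤
      ENNReal.ofReal (1001 / 1000 * (1001 / 1000)) * ENNReal.ofReal (Kw S.T (t + y / L) *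
      ‖VV S.T ((sg0 S.T : ℝ) + ((t + y / L : ℝ) : ℂ) * I)‖ ^ 2 *
      ‖MO 0 S.T (nC ((sg0 S.T : ℝ) + ((t + y / L : ℝ) : ℂ) * I))‖ ^ 2 *
      ‖RT S lam (nC ((sg0 S.T : ℝ) + ((t + y / L : ℝ) : ℂ) * I))‖ ^ 2) +
      ENNReal.ofReal (1001 * (Ck * m) * (x ^ 2 / (2 * π))) *
        (ENNReal.ofReal 8 * (∫⁻ φ in Set.Ioc (0 : ℝ) (2 * π), C7_H riemannZeta S lam ρ φ (t + y / L)) +
        ENNReal.ofReal 2 * ∫⁻ φ in Set.Ioc (0 : ℝ) (2 * π),
          C7_H (fun s : ℂ => deriv riemannZeta s / (Real.log S.T : ℝ)) S lam ρ φ (t + y / L)) := by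
  have hCm : 0 ≤ Ck * m := hk0.trans hkm
  obtain ⟨s1, hs1⟩ : ∃ s1 : ℂ, s1 = 1 / 2 + (t : ℂ) * I := ⟨_, rfl⟩
  obtain ⟨s2, hs2⟩ : ∃ s2 : ℂ, s2 = ((sg0 S.T : ℝ) : ℂ) + ((t + y / L : ℝ) : ℂ) * I := ⟨_, rfl⟩
  rw [← hs1, ← hs2] at hδ hx
  rw [← hs2]
  have hpt : pt S.T t (-(R0 : ℂ) + y * I) = s2 := by
    rw [hs2]
    unfold pt sg0
    rw [← hLdef]
    push_cast
    ring
  have e1 : 1 / 2 + ((-R0 / Real.log S.T : ℝ) : ℂ) + ((t + y / L : ℝ) : ℂ) * I = s2 := by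
    rw [hs2]
    unfold sg0
    push_cast
    ring
  have e2 : 1 / 2 + ((t + y / L : ℝ) : ℂ) * I + ((-R0 / Real.log S.T : ℝ) : ℂ) = s2 := by
    rw [← e1]; ring
  have e3 : ∀ φ : ℝ, 1 / 2 + ((t + y / L : ℝ) : ℂ) * I +
      (((-R0 / Real.log S.T : ℝ) : ℂ) + circleMap 0 ρ φ) = circleMap s2 ρ φ := by
    intro φ
    rw [← add_assoc, e2]
    unfold circleMap
    ring
  rw [hpt] at hψ
  obtain ⟨X, hX⟩ : ∃ X : ENNReal, X = ∫⁻ φ in Set.Ioc (0 : ℝ) (2 * π),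
      ENNReal.ofReal (‖RT S lam (nC (circleMap s2 ρ φ))‖ ^ 2) := ⟨_, rfl⟩
  have hH : ∀ h : ℂ → ℂ, ∫⁻ φ in Set.Ioc (0 : ℝ) (2 * π), C7_H h S lam ρ φ (t + y / L) =
      ENNReal.ofReal (‖h s2‖ ^ 2 * ‖MO 0 S.T (nC s2)‖ ^ 2) * X := by
    intro h
    rw [hX, ← lintegral_const_mul' _ _ ENNReal.ofReal_ne_top]
    apply lintegral_congr
    intro φ
    unfold C7_H
    rw [e1, e2, e3, ENNReal.ofReal_mul (by positivity)]
  rw [hH, hH]
  have hcirc := C7_circleL (C7_RT_diff S lam) (s := s2) (w := s1) hρ hδ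
  beta_reduce at hcirc
  rw [← hX] at hcirc
  have hcirc2 : ENNReal.ofReal (‖RT S lam (nC s1) - RT S lam (nC s2)‖ ^ 2) ≤
      ENNReal.ofReal (x ^ 2 / (2 * π)) * X := by
    refine hcirc.trans ?_
    gcongr
  have hV := C7_VVle (T := S.T) (Cp := Cp) (s := s2) (by rw [← hLdef]; exact hL) (by rw [← hLdef]; exact hCp) hψ
  obtain ⟨V, hVd⟩ : ∃ V : ℝ, V = ‖VV S.T s2‖ ^ 2 := ⟨_, rfl⟩
  obtain ⟨Mo, hMo⟩ : ∃ Mo : ℝ, Mo = ‖MO 0 S.T (nC s2)‖ ^ 2 := ⟨_, rfl⟩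
  obtain ⟨Z, hZ⟩ : ∃ Z : ℝ, Z = ‖riemannZeta s2‖ ^ 2 := ⟨_, rfl⟩
  obtain ⟨Z', hZ'⟩ : ∃ Z' : ℝ, Z' = ‖deriv riemannZeta s2 / (Real.log S.T : ℝ)‖ ^ 2 := ⟨_, rfl⟩
  obtain ⟨a2, ha2⟩ : ∃ a2 : ℝ, a2 = ‖RT S lam (nC s2)‖ ^ 2 := ⟨_, rfl⟩
  obtain ⟨b2, hb2⟩ : ∃ b2 : ℝ, b2 = ‖RT S lam (nC s1) - RT S lam (nC s2)‖ ^ 2 := ⟨_, rfl⟩
  have hV0 : 0 ≤ V := by rw [hVd]; positivity
  have hMo0 : 0 ≤ Mo := by rw [hMo]; positivity
  have hZ0 : 0 ≤ Z := by rw [hZ]; positivity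
  have hZ'0 : 0 ≤ Z' := by rw [hZ']; positivity
  have ha20 : 0 ≤ a2 := by rw [ha2]; positivity
  have hb20 : 0 ≤ b2 := by rw [hb2]; positivity
  have huu : uu S lam t ≤ 1001 / 1000 * a2 + 1001 * b2 := by
    have h1 : uu S lam t = ‖RT S lam (nC s1)‖ ^ 2 := by rw [hs1]; rfl
    rw [h1, ha2, hb2]
    refine C7_sq (norm_nonneg _) ?_
    have h2 : RT S lam (nC s1) = RT S lam (nC s2) + (RT S lam (nC s1) - RT S lam (nC s2)) := by ring
    calc ‖RT S lam (nC s1)‖ = ‖RT S lam (nC s2) + (RT S lam (nC s1) - RT S lam (nC s2))‖ := by rw [← h2]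
      _ ≤ _ := norm_add_le _ _
  have huu0 : 0 ≤ uu S lam t := by unfold uu; positivity
  have hFz : ‖Fz S t (-(R0 : ℂ) + y * I)‖ ^ 2 = V * Mo := by
    unfold Fz
    rw [hpt, norm_mul, mul_pow, hVd, hMo]
  rw [← hVd, ← hZ, ← hZ'] at hV
  rw [← hb2] at hcirc2
  rw [hFz, ← hVd, ← hMo, ← ha2, ← hZ, ← hZ']
  have hreal : Kw S.T t * uu S lam t * (V * Mo) ≤
      1001 / 1000 * (1001 / 1000) * (Kw S.T (t + y / L) * V * Mo * a2) +
      1001 * (Ck * m) * ((8 * Z + 2 * Z') * Mo) * b2 := by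
    have g1 : Kw S.T t * uu S lam t * (V * Mo) ≤ Kw S.T t * (1001 / 1000 * a2 + 1001 * b2) * (V * Mo) := by
      gcongr
    have g2 : Kw S.T t * (1001 / 1000 * a2) * (V * Mo) ≤
        (1001 / 1000 * Kw S.T (t + y / L)) * (1001 / 1000 * a2) * (V * Mo) := by
      gcongr
    have g3 : Kw S.T t * (1001 * b2) * (V * Mo) ≤ (Ck * m) * (1001 * b2) * ((8 * Z + 2 * Z') * Mo) := by
      gcongr
    calc Kw S.T t * uu S lam t * (V * Mo) ≤ Kw S.T t * (1001 / 1000 * a2 + 1001 * b2) * (V * Mo) := g1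
      _ = Kw S.T t * (1001 / 1000 * a2) * (V * Mo) + Kw S.T t * (1001 * b2) * (V * Mo) := by ring
      _ ≤ (1001 / 1000 * Kw S.T (t + y / L)) * (1001 / 1000 * a2) * (V * Mo) +
          (Ck * m) * (1001 * b2) * ((8 * Z + 2 * Z') * Mo) := add_le_add g2 g3
      _ = _ := by ring
  refine (ENNReal.ofReal_le_ofReal hreal).trans ?_
  rw [ENNReal.ofReal_add (by positivity) (by positivity)]
  refine add_le_add ?_ ?_
  · rw [ENNReal.ofReal_mul (by positivity)]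
  · have g4 : ENNReal.ofReal (1001 * (Ck * m) * ((8 * Z + 2 * Z') * Mo) * b2) ≤
        ENNReal.ofReal (1001 * (Ck * m)) * ENNReal.ofReal ((8 * Z + 2 * Z') * Mo) *
          (ENNReal.ofReal (x ^ 2 / (2 * π)) * X) := by
      rw [ENNReal.ofReal_mul (by positivity), ENNReal.ofReal_mul (by positivity)]
      gcongr
    refine g4.trans (le_of_eq ?_)
    have g5 : ENNReal.ofReal ((8 * Z + 2 * Z') * Mo) =
        ENNReal.ofReal 8 * ENNReal.ofReal (Z * Mo) + ENNReal.ofReal 2 * ENNReal.ofReal (Z' * Mo) := by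
      rw [← ENNReal.ofReal_mul (by norm_num), ← ENNReal.ofReal_mul (by norm_num),
        ← ENNReal.ofReal_add (by positivity) (by positivity)]
      congr 1
      ring
    rw [g5, ENNReal.ofReal_mul (by positivity : (0 : ℝ) ≤ 1001 * (Ck * m))]
    ring

private theorem C7_split {μ : Measure ℝ} {F G H : ℝ → ENNReal} {a b c d : ℝ}
    (hF : Measurable F) (hG : Measurable G) :
    ∫⁻ t, (ENNReal.ofReal a * F t + ENNReal.ofReal b * (ENNReal.ofReal c * G t + ENNReal.ofReal d * H t)) ∂μ =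
      ENNReal.ofReal a * (∫⁻ t, F t ∂μ) + ENNReal.ofReal b * (ENNReal.ofReal c * (∫⁻ t, G t ∂μ) +
        ENNReal.ofReal d * (∫⁻ t, H t ∂μ)) := by
  rw [lintegral_add_left (hF.const_mul _), lintegral_const_mul' _ _ ENNReal.ofReal_ne_top,
    lintegral_const_mul' _ _ ENNReal.ofReal_ne_top, lintegral_add_left (hG.const_mul _),
    lintegral_const_mul' _ _ ENNReal.ofReal_ne_top, lintegral_const_mul' _ _ ENNReal.ofReal_ne_top]

private theorem C7_final {I0 I1 I2 : ENNReal} {Ck m x K1 K2 TL KE c A : ℝ} (hA : A = 1001 * Ck * (8 * K1 + 2 * K2) / c)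
    (hCk : 0 < Ck) (hm : 0 < m) (hx : 0 < x) (hK1 : 0 < K1) (hK2 : 0 < K2) (hTL : 0 < TL) (hKE : 0 ≤ KE)
    (hc : 0 < c) (hAx : A * x ^ 2 ≤ 1 / 50) (hm1 : c * (m * TL) ≤ KE)
    (h0 : I0 ≤ ENNReal.ofReal (14 / 5 * KE))
    (h1 : I1 ≤ ENNReal.ofReal (K1 * TL) * ENNReal.ofReal (2 * π))
    (h2 : I2 ≤ ENNReal.ofReal (K2 * TL) * ENNReal.ofReal (2 * π)) :
    ENNReal.ofReal (1001 / 1000 * (1001 / 1000)) * I0 +
      ENNReal.ofReal (1001 * (Ck * m) * (x ^ 2 / (2 * π))) *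
        (ENNReal.ofReal 8 * I1 + ENNReal.ofReal 2 * I2) ≤ ENNReal.ofReal (57 / 20 * KE) := by
  have hpi := Real.pi_pos
  calc ENNReal.ofReal (1001 / 1000 * (1001 / 1000)) * I0 +
      ENNReal.ofReal (1001 * (Ck * m) * (x ^ 2 / (2 * π))) *
        (ENNReal.ofReal 8 * I1 + ENNReal.ofReal 2 * I2)
      ≤ ENNReal.ofReal (1001 / 1000 * (1001 / 1000)) * ENNReal.ofReal (14 / 5 * KE) +
      ENNReal.ofReal (1001 * (Ck * m) * (x ^ 2 / (2 * π))) *
        (ENNReal.ofReal 8 * (ENNReal.ofReal (K1 * TL) * ENNReal.ofReal (2 * π)) +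
        ENNReal.ofReal 2 * (ENNReal.ofReal (K2 * TL) * ENNReal.ofReal (2 * π))) := by gcongr
    _ = ENNReal.ofReal (1001 / 1000 * (1001 / 1000) * (14 / 5 * KE) +
        1001 * (Ck * m) * (x ^ 2 / (2 * π)) * (8 * (K1 * TL * (2 * π)) + 2 * (K2 * TL * (2 * π)))) := by
      rw [← ENNReal.ofReal_mul (by positivity), ← ENNReal.ofReal_mul (by positivity),
        ← ENNReal.ofReal_mul (by positivity), ← ENNReal.ofReal_mul (by positivity),
        ← ENNReal.ofReal_mul (by positivity), ← ENNReal.ofReal_add (by positivity) (by positivity),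
        ← ENNReal.ofReal_mul (by positivity), ← ENNReal.ofReal_add (by positivity) (by positivity)]
    _ ≤ ENNReal.ofReal (57 / 20 * KE) := by
      apply ENNReal.ofReal_le_ofReal
      have e1 : 1001 * (Ck * m) * (x ^ 2 / (2 * π)) * (8 * (K1 * TL * (2 * π)) + 2 * (K2 * TL * (2 * π))) =
          (A * x ^ 2) * (c * (m * TL)) := by
        rw [hA]
        field_simp
      rw [e1]
      have e2 : (A * x ^ 2) * (c * (m * TL)) ≤ 1 / 50 * KE := by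
        apply mul_le_mul hAx hm1 (by positivity) (by norm_num)
      linarith

private theorem C7_g3 {θ L ρ r : ℝ} (hr : r = 6 / 5) (hL : 0 < L) (hθ : 0 < θ) (hθ1 : θ ≤ 1 / 100) (hρ : ρ = 1 / (14 * θ ^ 3 * L)) :
    r / L ≤ ρ := by
  subst hr
  have hθ3 : θ ^ 3 ≤ 1 / 100 := by
    calc θ ^ 3 ≤ (1 / 100) ^ 3 := by gcongr
      _ ≤ 1 / 100 := by norm_num
  rw [hρ, div_le_div_iff₀ hL (by positivity)]
  calc 6 / 5 * (14 * θ ^ 3 * L) ≤ 6 / 5 * (14 * (1 / 100) * L) := by gcongr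
    _ ≤ 1 * L := by linarith

private theorem C7_d2 {θ W x : ℝ} (hθ : 0 < θ) (hθ1 : θ ≤ 1 / 100) (hx : θ ≤ x / 68) (hW : 7 * θ ^ 3 * W ≤ x / 8) :
    4 * (7 * θ ^ 3 * W) + 28 * (6 / 5) * θ ^ 3 ≤ x := by
  have hθ3 : θ ^ 3 ≤ θ := by
    calc θ ^ 3 = θ * θ ^ 2 := by ring
      _ ≤ θ * 1 ^ 2 := by gcongr; linarith
      _ = θ := by ring
  linarith

private theorem C7_dr {δ0 δ ρ x : ℝ} (hρ : 0 < ρ) (hx : x ≤ 1) (h : 2 * δ0 / ρ ≤ x) (hδ : δ ≤ δ0) : δ ≤ ρ / 2 := by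
  rw [div_le_iff₀ hρ] at h
  have : x * ρ ≤ 1 * ρ := by gcongr
  linarith

theorem T1 (lam η : ℝ) (h0 : 0 < lam) (h1 : 0 < η) (h2 : η ≤ 1) : ∃ C0 κ0 θ1 : ℝ, 0 < κ0 ∧ 0 < θ1 ∧
    ∀ {Ct θ D1 : ℝ} {N0 : ℕ}, C0 ≤ Ct → 0 < θ → θ ≤ θ1 → ∀ W : ℝ, 1 ≤ W → 7 * θ ^ 3 * W ≤ κ0 →
    ∃ T0 : ℝ, ∀ {S : BS}, TG S Ct θ D1 N0 → T0 ≤ S.T → ∀ y : ℝ, |y| ≤ W →
    ∫⁻ t in Dm η S.T, ENNReal.ofReal (Kw S.T t * uu S lam t *
      ‖Fz S t (-(R0 : ℂ) + y * I)‖ ^ 2) ≤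
    ENNReal.ofReal (57 / 20 * (Kt S.T * ER S lam)) := by
  obtain ⟨C0a, θ1a, hθ1a, hT1p⟩ := T1p lam h0
  obtain ⟨C0b, K1, hK1, hTR1⟩ := TR1 lam (η / 2) h0 (by positivity) (by linarith)
  obtain ⟨C0c, K2, hK2, hTR2⟩ := TR2 lam (η / 2) h0 (by positivity) (by linarith)
  obtain ⟨C0d, c, C, hc, hC, hm0⟩ := m0_bounds lam h0
  obtain ⟨ck, Ck, T0k, hck, hCk, hKw⟩ := Kw_dm η h1 h2
  obtain ⟨Cr, hCr, hratio⟩ := Kw_ratio
  obtain ⟨Cp, T0p, hCp, hpsi⟩ := psiR_pt η h1 h2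
  obtain ⟨A, hA⟩ : ∃ A : ℝ, A = 1001 * Ck * (8 * K1 + 2 * K2) / c := ⟨_, rfl⟩
  have hA0 : 0 < A := by rw [hA]; positivity
  obtain ⟨x, hx⟩ : ∃ x : ℝ, x = 1 / (50 * (A + 1)) := ⟨_, rfl⟩
  have hx0 : 0 < x := by rw [hx]; positivity
  have hxA : x * (50 * (A + 1)) = 1 := by
    rw [hx]; field_simp
  have hx1 : x ≤ 1 := by nlinarith
  have hAx : A * x ^ 2 ≤ 1 / 50 := by
    have : A * x ≤ 1 / 50 := by nlinarith
    nlinarith
  refine ⟨max (max C0a C0b) (max C0c C0d), x / 8, min θ1a (x / 68), by positivity,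
    lt_min hθ1a (by positivity), ?_⟩
  intro Ct θ D1 N0 hCt hθ hθ1 W hW hθW
  have hCa : C0a ≤ Ct := (le_max_left _ _).trans ((le_max_left _ _).trans hCt)
  have hCb : C0b ≤ Ct := (le_max_right _ _).trans ((le_max_left _ _).trans hCt)
  have hCc : C0c ≤ Ct := (le_max_left _ _).trans ((le_max_right _ _).trans hCt)
  have hCd : C0d ≤ Ct := (le_max_right _ _).trans ((le_max_right _ _).trans hCt)
  have hθa : θ ≤ θ1a := hθ1.trans (min_le_left _ _)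
  have hθx : θ ≤ x / 68 := hθ1.trans (min_le_right _ _)
  obtain ⟨T0a, hT1p'⟩ := hT1p (D1 := D1) (N0 := N0) hCa hθ hθa
  obtain ⟨T0b, hTR1'⟩ := hTR1 (θ := θ) (D1 := D1) (N0 := N0) hCb
  obtain ⟨T0c, hTR2'⟩ := hTR2 (θ := θ) (D1 := D1) (N0 := N0) hCc
  obtain ⟨M, hM⟩ : ∃ M : ℝ, M = W + Cp + 2000 * Cr * W := ⟨_, rfl⟩
  refine ⟨max (max (max T0a T0b) (max T0c T0k)) (max (max T0p (Real.exp M)) (4 * (W + 1) / η)), ?_⟩
  intro S hS hST y hy
  have hTa : T0a ≤ S.T := (le_max_left _ _).trans ((le_max_left _ _).trans ((le_max_left _ _).trans hST))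
  have hTb : T0b ≤ S.T := (le_max_right _ _).trans ((le_max_left _ _).trans ((le_max_left _ _).trans hST))
  have hTc : T0c ≤ S.T := (le_max_left _ _).trans ((le_max_right _ _).trans ((le_max_left _ _).trans hST))
  have hTk : T0k ≤ S.T := (le_max_right _ _).trans ((le_max_right _ _).trans ((le_max_left _ _).trans hST))
  have hTp : T0p ≤ S.T := (le_max_left _ _).trans ((le_max_left _ _).trans ((le_max_right _ _).trans hST))
  have hTM : Real.exp M ≤ S.T := (le_max_right _ _).trans ((le_max_left _ _).trans ((le_max_right _ _).trans hST))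
  have hTη : 4 * (W + 1) / η ≤ S.T := (le_max_right _ _).trans ((le_max_right _ _).trans hST)
  have hT0 : 0 < S.T := (Real.exp_pos _).trans_le hTM
  obtain ⟨L, hLdef⟩ : ∃ L : ℝ, L = Real.log S.T := ⟨_, rfl⟩
  have hL1000 : 1000 ≤ L := by
    rw [hLdef, Real.le_log_iff_exp_le hT0]; exact hS.T_ge
  have hLM : M ≤ L := by
    rw [hLdef, Real.le_log_iff_exp_le hT0]; exact hTM
  have hL0 : 0 < L := by linarith
  have hCrW : 0 ≤ 2000 * Cr * W := by positivity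
  have hLW : W ≤ L := by linarith
  have hLp : Cp ≤ L := by linarith
  have hLr : 2000 * Cr * W ≤ L := by linarith
  have hηT : 4 * (W + 1) ≤ η * S.T := by
    rw [div_le_iff₀ h1] at hTη; linarith
  have hTη' : η * S.T ≤ S.T / η := by
    rw [le_div_iff₀ h1]
    have : η * S.T * η = η ^ 2 * S.T := by ring
    rw [this]
    have h3 : η ^ 2 ≤ 1 := by nlinarith
    nlinarith
  have hyL : |y / L| ≤ W / L := by
    rw [abs_div, abs_of_pos hL0]; gcongr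
  have hWL : W / L ≤ 1 := by rw [div_le_one hL0]; exact hLW
  have hyL1 : |y / L| ≤ 1 := hyL.trans hWL
  have hyL2 := abs_le.1 hyL1
  have hsub : ∀ t ∈ Dm η S.T, t + y / L ∈ Dm (η / 2) S.T := by
    intro t ht
    have ht1 : η * S.T ≤ t := ht.1
    have ht2 : t ≤ S.T / η := ht.2
    refine ⟨by linarith [hyL2.1], ?_⟩
    have h3 : S.T / (η / 2) = 2 * (S.T / η) := by field_simp
    rw [h3]
    linarith [hyL2.2]
  have hsub2 : ∀ t ∈ Dm η S.T, t ∈ Dm (η / 2) S.T := by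
    intro t ht
    have ht1 : η * S.T ≤ t := ht.1
    have ht2 : t ≤ S.T / η := ht.2
    refine ⟨by linarith, ?_⟩
    have h3 : S.T / (η / 2) = 2 * (S.T / η) := by field_simp
    rw [h3]
    linarith
  obtain ⟨ρ, hρdef⟩ : ∃ ρ : ℝ, ρ = 1 / (14 * θ ^ 3 * L) := ⟨_, rfl⟩
  have hρ : 0 < ρ := by rw [hρdef]; positivity
  have hθ100 : θ ≤ 1 / 100 := hS.th_le
  have hθ3' : 0 < θ ^ 3 := by positivity
  have hR0 : R0 = 6 / 5 := rfl
  -- the distance
  have hδ : ∀ t : ℝ, ‖(1 / 2 + (t : ℂ) * I) - (((sg0 S.T : ℝ) : ℂ) + ((t + y / L : ℝ) : ℂ) * I)‖ ≤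
      (R0 + W) / L := by
    intro t
    have e : (1 / 2 + (t : ℂ) * I) - (((sg0 S.T : ℝ) : ℂ) + ((t + y / L : ℝ) : ℂ) * I) =
        ((R0 / L : ℝ) : ℂ) - ((y / L : ℝ) : ℂ) * I := by
      unfold sg0
      rw [← hLdef]
      push_cast
      ring
    rw [e]
    refine (norm_sub_le _ _).trans ?_
    rw [norm_mul, Complex.norm_I, mul_one, Complex.norm_real, Complex.norm_real, Real.norm_eq_abs,
      Real.norm_eq_abs, abs_of_pos (by rw [hR0]; positivity), add_div]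
    linarith
  have hδ2 : 2 * ((R0 + W) / L) / ρ ≤ x := by
    have e : 2 * ((R0 + W) / L) / ρ = 4 * (7 * θ ^ 3 * W) + 28 * R0 * θ ^ 3 := by
      rw [hρdef]
      field_simp
      ring
    rw [e, hR0]
    exact C7_d2 hθ hθ100 hθx hθW
  have hδρ : ∀ t : ℝ, ‖(1 / 2 + (t : ℂ) * I) - (((sg0 S.T : ℝ) : ℂ) + ((t + y / L : ℝ) : ℂ) * I)‖ ≤ ρ / 2 := by
    intro t
    exact C7_dr hρ hx1 hδ2 (hδ t)
  obtain ⟨m, hm⟩ : ∃ m : ℝ, m = S.T ^ (-(1 / 2) : ℝ) := ⟨_, rfl⟩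
  have hm0' : 0 < m := by rw [hm]; positivity
  obtain ⟨F1, hF1⟩ : ∃ F1 : ℝ → ENNReal, F1 = fun t : ℝ => ENNReal.ofReal (Kw S.T t *
      ‖VV S.T ((sg0 S.T : ℝ) + t * I)‖ ^ 2 * ‖MO 0 S.T (nC ((sg0 S.T : ℝ) + t * I))‖ ^ 2 *
      ‖RT S lam (nC ((sg0 S.T : ℝ) + t * I))‖ ^ 2) := ⟨_, rfl⟩
  have hF1m : Measurable F1 := by
    rw [hF1]
    have hc1 : Measurable (fun t : ℝ => ((sg0 S.T : ℝ) : ℂ) + (t : ℂ) * I) := by
      apply Continuous.measurable; fun_prop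
    have hk := (Kw_continuous hS.T_ge).measurable
    have hv := (C7_meas_VV S.T).comp hc1
    have hmo := (MO_an 0 S.T).continuous.measurable.comp hc1
    have hrt := (C7_RT_diff S lam).continuous.measurable.comp hc1
    exact ENNReal.measurable_ofReal.comp ((((hk.mul (hv.norm.pow_const 2)).mul (hmo.norm.pow_const 2))).mul
      (hrt.norm.pow_const 2))
  have hζm := C7_meas_zeta
  have hζ'm : Measurable (fun s : ℂ => deriv riemannZeta s / (Real.log S.T : ℝ)) :=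
    (measurable_deriv _).div_const _
  -- the pointwise bound
  have hpoint : ∀ t ∈ Dm η S.T, ENNReal.ofReal (Kw S.T t * uu S lam t *
      ‖Fz S t (-(R0 : ℂ) + y * I)‖ ^ 2) ≤
      ENNReal.ofReal (1001 / 1000 * (1001 / 1000)) * F1 (t + y / L) +
      ENNReal.ofReal (1001 * (Ck * m) * (x ^ 2 / (2 * π))) *
        (ENNReal.ofReal 8 * (∫⁻ φ in Set.Ioc (0 : ℝ) (2 * π), C7_H riemannZeta S lam ρ φ (t + y / L)) +
        ENNReal.ofReal 2 * ∫⁻ φ in Set.Ioc (0 : ℝ) (2 * π),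
          C7_H (fun s : ℂ => deriv riemannZeta s / (Real.log S.T : ℝ)) S lam ρ φ (t + y / L)) := by
    intro t ht
    have ht1 : η * S.T ≤ t := ht.1
    have ht1' : 1 ≤ t := by linarith
    have ht2' : 1 ≤ t + y / L := by linarith [hyL2.1]
    rw [hF1]
    refine C7_point hLdef (by linarith) hρ (Kw_pos hS.T_ge _).le (Kw_pos hS.T_ge _).le ?_ ?_ hLp ?_ (hδρ t) ?_
    · rw [hm]
      exact (hKw S.T t hTk (hsub2 t ht)).2
    · have g1 := hratio S.T t (t + y / L) hS.T_ge ht1' ht2'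
      have g2 : |t - (t + y / L)| ≤ W / L := by
        have : t - (t + y / L) = -(y / L) := by ring
        rw [this, abs_neg]; exact hyL
      have g3 : Cr * |t - (t + y / L)| ≤ 1 / 2000 := by
        calc Cr * |t - (t + y / L)| ≤ Cr * (W / L) := by gcongr
          _ = 2000 * Cr * W / (2000 * L) := by field_simp
          _ ≤ L / (2000 * L) := by gcongr
          _ = 1 / 2000 := by field_simp
      have g4 := C7_exp g3
      have g5 := (Kw_pos hS.T_ge (t + y / L)).le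
      exact g1.trans (by gcongr)
    · refine (hpsi S.T t _ hTp ht ?_ ?_).2
      · rw [← hLdef]
        simp only [Complex.add_re, Complex.neg_re, Complex.ofReal_re, Complex.mul_re, Complex.I_re, mul_zero,
          Complex.ofReal_im, Complex.I_im, mul_one, sub_self, add_zero]
        rw [abs_neg, hR0, abs_of_pos (by norm_num)]
        linarith
      · rw [← hLdef]
        simp only [Complex.add_im, Complex.neg_im, Complex.ofReal_im, neg_zero, Complex.mul_im, Complex.ofReal_re,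
          Complex.I_im, mul_one, Complex.I_re, mul_zero, add_zero, zero_add]
        nlinarith
    · refine le_trans ?_ hδ2
      have := hδ t
      gcongr
  -- the integrals
  have hDm : ∀ e : ℝ, MeasurableSet (Dm e S.T) := fun e => measurableSet_Icc
  have hz2 : ∀ φ : ℝ, |(((-R0 / Real.log S.T : ℝ) : ℂ) + circleMap 0 ρ φ).re| ≤
      1 / (7 * θ ^ 3 * Real.log S.T) := by
    intro φ
    rw [Complex.add_re, Complex.ofReal_re, ← hLdef]
    have g1 : |(circleMap 0 ρ φ).re| ≤ ρ := by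
      refine (Complex.abs_re_le_norm _).trans ?_
      rw [norm_circleMap_zero, abs_of_pos hρ]
    have g2 : |-R0 / L| = R0 / L := by
      rw [neg_div, abs_neg, abs_of_pos (by rw [hR0]; positivity)]
    have g3 : R0 / L ≤ ρ := C7_g3 hR0 hL0 hθ hθ100 hρdef
    have g4 : 1 / (7 * θ ^ 3 * L) = 2 * ρ := by
      rw [hρdef]; field_simp; norm_num
    rw [g4]
    refine (abs_add_le _ _).trans ?_
    rw [g2]
    linarith
  have ha3 : |-R0 / Real.log S.T| ≤ 3 / Real.log S.T := by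
    rw [← hLdef, neg_div, abs_neg, abs_of_pos (by rw [hR0]; positivity), hR0]
    gcongr
    norm_num
  have ha2 : |-R0 / Real.log S.T| ≤ 2 / Real.log S.T := by
    rw [← hLdef, neg_div, abs_neg, abs_of_pos (by rw [hR0]; positivity), hR0]
    gcongr
    norm_num
  have hz3 : ‖((-R0 / Real.log S.T : ℝ) : ℂ)‖ ≤ 3 / Real.log S.T := by
    rw [Complex.norm_real, Real.norm_eq_abs]; exact ha3
  have hz2' : ‖((-R0 / Real.log S.T : ℝ) : ℂ)‖ ≤ 2 / Real.log S.T := by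
    rw [Complex.norm_real, Real.norm_eq_abs]; exact ha2
  have hE1 : ∀ φ : ℝ, ∫⁻ t in Dm (η / 2) S.T, C7_H riemannZeta S lam ρ φ t ≤
      ENNReal.ofReal (K1 * (S.T * Lam S lam)) := by
    intro φ
    have g := hTR1' hS hTb 0 zero_le_one (-R0 / Real.log S.T) ((-R0 / Real.log S.T : ℝ) : ℂ)
      (((-R0 / Real.log S.T : ℝ) : ℂ) + circleMap 0 ρ φ) ha3 hz3 (hz2 φ)
    unfold C7_H
    exact g
  have hE2 : ∀ φ : ℝ, ∫⁻ t in Dm (η / 2) S.T,
      C7_H (fun s : ℂ => deriv riemannZeta s / (Real.log S.T : ℝ)) S lam ρ φ t ≤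
      ENNReal.ofReal (K2 * (S.T * Lam S lam)) := by
    intro φ
    have g := hTR2' hS hTc 0 zero_le_one (-R0 / Real.log S.T) ((-R0 / Real.log S.T : ℝ) : ℂ)
      (((-R0 / Real.log S.T : ℝ) : ℂ) + circleMap 0 ρ φ) ha2 hz2' (hz2 φ)
    unfold C7_H
    exact g
  have hI1 := C7_tonelli hζm (hDm η) (hDm (η / 2)) (y / L) hsub hE1
  have hI2 := C7_tonelli hζ'm (hDm η) (hDm (η / 2)) (y / L) hsub hE2
  have hI0 : ∫⁻ t in Dm η S.T, F1 (t + y / L) ≤ ENNReal.ofReal (14 / 5 * (Kt S.T * ER S lam)) := by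
    refine (C7_shift (hDm η) MeasurableSet.univ (y / L) (fun _ _ => Set.mem_univ _) F1).trans ?_
    rw [Measure.restrict_univ, hF1]
    exact hT1p' hS hTa
  have hmeasH : ∀ h : ℂ → ℂ, Measurable h → Measurable (fun t : ℝ =>
      ∫⁻ φ in Set.Ioc (0 : ℝ) (2 * π), C7_H h S lam ρ φ (t + y / L)) := by
    intro h hh
    have g : Measurable (fun q : ℝ × ℝ => C7_H h S lam ρ q.2 (q.1 + y / L)) :=
      (C7_H_meas hh S lam ρ).comp (measurable_snd.prodMk (measurable_fst.add_const _))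
    exact g.lintegral_prod_right'
  refine (setLIntegral_mono' (hDm η) hpoint).trans ?_
  refine le_trans (le_of_eq (C7_split (F := fun t : ℝ => F1 (t + y / L)) (hF1m.comp (measurable_id.add_const (y / L)))
    (hmeasH _ hζm))) ?_
  obtain ⟨hm1, _⟩ := hm0 hS hCd
  obtain ⟨TL, hTL⟩ : ∃ TL : ℝ, TL = S.T * Lam S lam := ⟨_, rfl⟩
  obtain ⟨KE, hKE⟩ : ∃ KE : ℝ, KE = Kt S.T * ER S lam := ⟨_, rfl⟩
  rw [← hTL] at hI1 hI2
  rw [← hKE] at hI0 hm1
  rw [← hKE]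
  have hLam : 0 < Lam S lam := Real.exp_pos _
  have hTL0 : 0 < TL := by rw [hTL]; positivity
  have hmT : m * TL = S.T ^ (1 / 2 : ℝ) * Lam S lam := by
    rw [hTL, hm, ← mul_assoc]
    congr 1
    have : S.T ^ (-(1 / 2) : ℝ) * S.T = S.T ^ (-(1 / 2) : ℝ) * S.T ^ (1 : ℝ) := by rw [Real.rpow_one]
    rw [this, ← Real.rpow_add hT0]
    norm_num
  rw [← hmT] at hm1
  have hKE0 : 0 ≤ KE := le_trans (by positivity) hm1
  exact C7_final hA (one_pos.trans_le hCk) hm0' hx0 (one_pos.trans_le hK1) (one_pos.trans_le hK2) hTL0 hKE0 hc hAx hm1 hI0 hI1 hI2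

end Pool.Agent.LB
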