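import Pool.Agent.Lib.MP_69b2e4_nt.LB.Defs

/-! TASK D1. The decay lemma (deterministic). `s1 = 1/2 + x/L + i t1`, `a = x + 2 ∈ [3/10, 7L/2 + 2]`, `Re s1 ≤ 4`. Rectangle `Q = [1/2 - 2/L, 5] × [t1 - L, t1 + L]` (`Im ≥ L ≥ 1` in it). `s1' = s1 - 2a/L` (the reflection of `s1` in the left edge, outside `Q`; `Re s1 - a/L = 1/2 - 2/L`).
Cauchy's integral formula (`Complex.integral_boundary_rect_of_differentiableOn_off_countable` for the function `(φ(s) k(s) - φ(s1))/(s - s1)`-like quotient (`dslope`), or for `φ k` minus the pole; any form of Cauchy's formula for rectangles; if a ready one for a point inside a rectangle is missing: the integral of `1/(s - s1)` over the boundary is `2πi`):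
 `2πi φ(s1) = ∮_{∂Q} φ(s) e^{vL(s-s1)} e^{(s-s1)²} (w/(w + L(s-s1)))^m [1/(s-s1) - 1/(s-s1')] ds`. On `Q`: `Re(w + L(s-s1)) ≥ w - a > 0` (`m = 0`, or `2a ≤ w`: then `≥ w/2`).
 `‖1/(s-s1) - 1/(s-s1')‖ = (2a/L)/(‖s-s1‖‖s-s1'‖)`.
LEFT edge, `s = 1/2 - 2/L + i(t1 + τ/L)`, `|τ| ≤ L²`: `s - s1 = (-a + iτ)/L`, `‖s-s1‖ = ‖s-s1'‖ = √(a²+τ²)/L`, `e^{vL Re} = e^{-va}`, `‖e^{(s-s1)²}‖ ≤ e^{a²/L²} ≤ e^{16}`, `‖w/(w-a+iτ)‖^m ≤ (4/(1+|τ|/w))^m`, `|ds| = dτ/L`: at most `C e^{-va} ∫ ‖φ‖ a/(a²+τ²) (1+|τ|/w)^{-m} dτ`; Cauchy-Schwarz, `∫ a/(a²+τ²) dτ = π`.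
RIGHT edge: `‖s-s1‖, ‖s-s1'‖ ≥ max(1, |Im|)`: `≤ (2a/L)/max(1,τ²)`; `e^{vL(5 - Re s1)} ≤ e^{5vL}` (`Re s1 ≥ 1/2 - 2/L ≥ 0`), `‖e^{(s-s1)²}‖ ≤ e^{25}`, `‖w/(w+L(s-s1))‖ ≤ w/(w+L)` (`Re (s-s1) ≥ 1`): total `≤ C e^{5vL} (a/L)(1+L/w)^{-m} B5`.
TOP, BOTTOM: `‖e^{(s-s1)²}‖ ≤ e^{25 - L²}`, `‖s-s1‖, ‖s - s1'‖ ≥ L`, `‖w/(..)‖ ≤ 2`, `e^{5vL} ≤ e^{5L}`: total `≤ C e^{-L²+5L} Bt ≤ C e^{-L²/2} Bt`.
Square with `(A+B+C)² ≤ 3(A²+B²+C²)`. -/

set_option autoImplicit false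

namespace Pool.Agent.LB

open Complex MeasureTheory Finset Pool.Agent.GH Pool.Agent.UH Pool.Agent.UV
open scoped Real ComplexConjugate

/-- integral over the boundary of a rectangle -/
private noncomputable def D1_RI (f : ℂ → ℂ) (a b c d : ℝ) : ℂ :=
  (∫ x : ℝ in a..b, f (x + c * I)) - (∫ x : ℝ in a..b, f (x + d * I)) +
    I * (∫ y : ℝ in c..d, f (b + y * I)) - I * (∫ y : ℝ in c..d, f (a + y * I))

private lemma D1_RI_zero {f : ℂ → ℂ} {a b c d : ℝ}
    (h : DifferentiableOn ℂ f (Set.uIcc a b ×ℂ Set.uIcc c d)) : D1_RI f a b c d = 0 :=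
  Complex.integral_boundary_rect_eq_zero_of_differentiableOn f (⟨a, c⟩ : ℂ) (⟨b, d⟩ : ℂ) h

private lemma D1_log_pos {z : ℂ} (hz : 0 < z.im) : Complex.log z - Complex.log (-z) = π * I := by
  rw [Complex.log, Complex.log, norm_neg, Complex.arg_neg_eq_arg_sub_pi_of_im_pos hz]
  push_cast
  ring

private lemma D1_log_neg {z : ℂ} (hz : z.im < 0) : Complex.log (-z) - Complex.log z = π * I := by
  rw [Complex.log, Complex.log, norm_neg, Complex.arg_neg_eq_arg_add_pi_of_im_neg hz]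
  push_cast
  ring

private lemma D1_cont_h {a b c : ℝ} {f : ℂ → ℂ} (h : ∀ x ∈ Set.uIcc a b, ContinuousAt f (x + c * I)) :
    IntervalIntegrable (fun x : ℝ => f (x + c * I)) volume a b := by
  refine ContinuousOn.intervalIntegrable fun x hx => ContinuousAt.continuousWithinAt ?_
  exact (h x hx).comp (f := fun x : ℝ => (x : ℂ) + c * I) (by fun_prop)

private lemma D1_cont_v {a c d : ℝ} {f : ℂ → ℂ} (h : ∀ y ∈ Set.uIcc c d, ContinuousAt f (a + y * I)) :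
    IntervalIntegrable (fun y : ℝ => f (a + y * I)) volume c d := by
  refine ContinuousOn.intervalIntegrable fun x hx => ContinuousAt.continuousWithinAt ?_
  exact (h x hx).comp (f := fun y : ℝ => (a : ℂ) + y * I) (by fun_prop)

private lemma D1_RI_inv {a b c d : ℝ} (ha : a < 0) (hb : 0 < b) (hc : c < 0) (hd : 0 < d) :
    D1_RI (fun z => 1 / z) a b c d = 2 * π * I := by
  have h1 : ∀ e : ℝ, e ≠ 0 → ∫ x : ℝ in a..b, 1 / ((x : ℂ) + e * I) =
      Complex.log (b + e * I) - Complex.log (a + e * I) := by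
    intro e he
    refine intervalIntegral.integral_eq_sub_of_hasDerivAt
      (f := fun x : ℝ => Complex.log ((x : ℂ) + e * I)) (fun x _ => ?_) ?_
    · have h2 : HasDerivAt (fun x : ℝ => (x : ℂ) + e * I) 1 x := by
        simpa using (Complex.ofRealCLM.hasDerivAt (x := x)).add_const (e * I)
      refine h2.clog_real ?_
      right
      simpa using he
    · refine D1_cont_h (f := fun z => 1 / z) fun x _ => ?_
      refine ContinuousAt.div continuousAt_const continuousAt_id ?_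
      intro h
      have := congrArg Complex.im h
      simp at this
      exact he this
  have h3 : I * ∫ y : ℝ in c..d, 1 / ((b : ℂ) + y * I) =
      Complex.log (b + d * I) - Complex.log (b + c * I) := by
    rw [← intervalIntegral.integral_const_mul]
    refine intervalIntegral.integral_eq_sub_of_hasDerivAt
      (f := fun y : ℝ => Complex.log ((b : ℂ) + y * I)) (fun y _ => ?_) ?_
    · have h2 : HasDerivAt (fun y : ℝ => (b : ℂ) + y * I) I y := by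
        simpa using ((Complex.ofRealCLM.hasDerivAt (x := y)).mul_const I).const_add (b : ℂ)
      rw [mul_one_div]
      refine h2.clog_real ?_
      left
      simpa using hb
    · refine IntervalIntegrable.const_mul ?_ I
      refine D1_cont_v (f := fun z => 1 / z) fun x _ => ?_
      refine ContinuousAt.div continuousAt_const continuousAt_id ?_
      intro h
      have := congrArg Complex.re h
      simp at this
      exact hb.ne' this
  have h4 : I * ∫ y : ℝ in c..d, 1 / ((a : ℂ) + y * I) =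
      Complex.log (-(a + d * I)) - Complex.log (-(a + c * I)) := by
    rw [← intervalIntegral.integral_const_mul]
    refine intervalIntegral.integral_eq_sub_of_hasDerivAt
      (f := fun y : ℝ => Complex.log (-((a : ℂ) + y * I))) (fun y _ => ?_) ?_
    · have h2' : HasDerivAt (fun y : ℝ => (a : ℂ) + y * I) I y := by
        simpa using ((Complex.ofRealCLM.hasDerivAt (x := y)).mul_const I).const_add (a : ℂ)
      have h2 : HasDerivAt (fun y : ℝ => -((a : ℂ) + y * I)) (-I) y := h2'.neg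
      have h5 : I * (1 / ((a : ℂ) + y * I)) = (-I) / (-((a : ℂ) + y * I)) := by
        rw [neg_div_neg_eq, mul_one_div]
      rw [h5]
      refine h2.clog_real ?_
      left
      simpa using ha
    · refine IntervalIntegrable.const_mul ?_ I
      refine D1_cont_v (f := fun z => 1 / z) fun x _ => ?_
      refine ContinuousAt.div continuousAt_const continuousAt_id ?_
      intro h
      have := congrArg Complex.re h
      simp at this
      exact ha.ne this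
  unfold D1_RI
  rw [h1 c hc.ne, h1 d hd.ne', h3, h4]
  have h6 := D1_log_pos (z := (a : ℂ) + d * I) (by simpa using hd)
  have h7 := D1_log_neg (z := (a : ℂ) + c * I) (by simpa using hc)
  linear_combination h6 + h7

/-- Cauchy's formula for a rectangle with the kernel `1 / z - 1 / (z + 2 δ)` -/
private lemma D1_cauchy {f : ℂ → ℂ} {δ b c d : ℝ} (hδ : 0 < δ) (hb : 0 < b) (hc : c < 0) (hd : 0 < d)
    (hf : ∀ z : ℂ, c ≤ z.im → z.im ≤ d → -δ ≤ z.re → z.re ≤ b → DifferentiableAt ℂ f z) :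
    D1_RI (fun z => f z * (1 / z - 1 / (z + 2 * δ))) (-δ) b c d = 2 * π * I * f 0 := by
  have hδb : -δ ≤ b := by linarith
  have hcd : c ≤ d := by linarith
  have hmem : ∀ z : ℂ, z ∈ Set.uIcc (-δ) b ×ℂ Set.uIcc c d ↔
      c ≤ z.im ∧ z.im ≤ d ∧ -δ ≤ z.re ∧ z.re ≤ b := by
    intro z
    rw [Complex.mem_reProdIm, Set.uIcc_of_le hδb, Set.uIcc_of_le hcd, Set.mem_Icc, Set.mem_Icc]
    tauto
  have hfo : DifferentiableOn ℂ f (Set.uIcc (-δ) b ×ℂ Set.uIcc c d) := fun z hz =>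
    (hf z ((hmem z).1 hz).1 ((hmem z).1 hz).2.1 ((hmem z).1 hz).2.2.1
      ((hmem z).1 hz).2.2.2).differentiableWithinAt
  have hnh : Set.uIcc (-δ) b ×ℂ Set.uIcc c d ∈ nhds (0 : ℂ) := by
    rw [Set.uIcc_of_le hδb, Set.uIcc_of_le hcd]
    have h1 : Set.Ioo (-δ) b ×ℂ Set.Ioo c d ∈ nhds (0 : ℂ) := by
      refine (isOpen_Ioo.reProdIm isOpen_Ioo).mem_nhds ?_
      rw [Complex.mem_reProdIm]
      exact ⟨⟨by simpa using hδ, by simpa using hb⟩, ⟨by simpa using hc, by simpa using hd⟩⟩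
    refine Filter.mem_of_superset h1 fun z hz => ?_
    rw [Complex.mem_reProdIm] at hz ⊢
    exact ⟨Set.Ioo_subset_Icc_self hz.1, Set.Ioo_subset_Icc_self hz.2⟩
  have hds : DifferentiableOn ℂ (dslope f 0) (Set.uIcc (-δ) b ×ℂ Set.uIcc c d) :=
    (Complex.differentiableOn_dslope hnh).2 hfo
  have hne : ∀ z : ℂ, -δ ≤ z.re → z + 2 * δ ≠ 0 := by
    intro z hz h
    have h1 := congrArg Complex.re h
    simp at h1
    linarith
  have hg : DifferentiableOn ℂ (fun z => dslope f 0 z - f z / (z + 2 * δ))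
      (Set.uIcc (-δ) b ×ℂ Set.uIcc c d) := by
    refine hds.sub (hfo.div (by fun_prop) fun z hz => hne z ((hmem z).1 hz).2.2.1)
  have h0 := D1_RI_zero hg
  have hinv := D1_RI_inv (a := -δ) (b := b) (by linarith) hb hc hd
  have hcont : ∀ z : ℂ, c ≤ z.im → z.im ≤ d → -δ ≤ z.re → z.re ≤ b → z ≠ 0 →
      ContinuousAt (fun z => f z * (1 / z - 1 / (z + 2 * δ))) z := by
    intro z h1 h2 h3 h4 h5
    refine (hf z h1 h2 h3 h4).continuousAt.mul ?_
    refine ContinuousAt.sub (continuousAt_const.div continuousAt_id h5) ?_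
    exact continuousAt_const.div (by fun_prop) (hne z h3)
  have hcont1 : ∀ z : ℂ, z ≠ 0 → ContinuousAt (fun z : ℂ => 1 / z) z := fun z h5 =>
    continuousAt_const.div continuousAt_id h5
  have heq : ∀ z : ℂ, z ≠ 0 → dslope f 0 z - f z / (z + 2 * δ) =
      f z * (1 / z - 1 / (z + 2 * δ)) - f 0 * (1 / z) := by
    intro z hz
    rw [dslope_of_ne _ hz, slope_def_field]
    rw [sub_zero]
    ring
  have hh : ∀ e : ℝ, e ≠ 0 → c ≤ e → e ≤ d →
      ∫ x : ℝ in (-δ)..b, (fun z => dslope f 0 z - f z / (z + 2 * δ)) (x + e * I) =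
      (∫ x : ℝ in (-δ)..b, (fun z => f z * (1 / z - 1 / (z + 2 * δ))) (x + e * I)) -
        f 0 * ∫ x : ℝ in (-δ)..b, (fun z => 1 / z) ((x : ℂ) + e * I) := by
    intro e he h1 h2
    have hz : ∀ x : ℝ, (x : ℂ) + e * I ≠ 0 := by
      intro x h
      have := congrArg Complex.im h
      simp at this
      exact he this
    rw [← intervalIntegral.integral_const_mul, ← intervalIntegral.integral_sub]
    · exact intervalIntegral.integral_congr fun x _ => heq _ (hz x)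
    · refine D1_cont_h (f := fun z => f z * (1 / z - 1 / (z + 2 * δ))) fun x hx => ?_
      rw [Set.uIcc_of_le hδb, Set.mem_Icc] at hx
      refine hcont _ ?_ ?_ ?_ ?_ (hz x) <;> simp <;> tauto
    · exact (D1_cont_h (f := fun z => 1 / z) fun x _ => hcont1 _ (hz x)).const_mul _
  have hv : ∀ e : ℝ, e ≠ 0 → -δ ≤ e → e ≤ b →
      ∫ y : ℝ in c..d, (fun z => dslope f 0 z - f z / (z + 2 * δ)) (e + y * I) =
      (∫ y : ℝ in c..d, (fun z => f z * (1 / z - 1 / (z + 2 * δ))) (e + y * I)) -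
        f 0 * ∫ y : ℝ in c..d, (fun z => 1 / z) ((e : ℂ) + y * I) := by
    intro e he h1 h2
    have hz : ∀ y : ℝ, (e : ℂ) + y * I ≠ 0 := by
      intro x h
      have := congrArg Complex.re h
      simp at this
      exact he this
    rw [← intervalIntegral.integral_const_mul, ← intervalIntegral.integral_sub]
    · exact intervalIntegral.integral_congr fun x _ => heq _ (hz x)
    · refine D1_cont_v (f := fun z => f z * (1 / z - 1 / (z + 2 * δ))) fun x hx => ?_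
      rw [Set.uIcc_of_le hcd, Set.mem_Icc] at hx
      refine hcont _ ?_ ?_ ?_ ?_ (hz x) <;> simp <;> tauto
    · exact (D1_cont_v (f := fun z => 1 / z) fun x _ => hcont1 _ (hz x)).const_mul _
  unfold D1_RI at h0 hinv ⊢
  rw [hh c hc.ne le_rfl hcd, hh d hd.ne' hcd le_rfl, hv b hb.ne' hδb le_rfl,
    hv (-δ) (by linarith [hδ]) le_rfl hδb] at h0
  linear_combination h0 + f 0 * hinv

/-- the function in the centered coordinates -/
private noncomputable def D1_F (m : ℕ) (L v w : ℝ) (ψ : ℂ → ℂ) (z : ℂ) : ℂ :=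
  ψ z * Complex.exp ((v * L : ℝ) * z) * Complex.exp (z ^ 2) * ((w : ℂ) / (w + L * z)) ^ m

private lemma D1_norm_F (m : ℕ) (L v w : ℝ) (ψ : ℂ → ℂ) (z : ℂ) :
    ‖D1_F m L v w ψ z‖ = ‖ψ z‖ * Real.exp (v * L * z.re) * Real.exp (z.re ^ 2 - z.im ^ 2) *
      ‖(w : ℂ) / (w + L * z)‖ ^ m := by
  unfold D1_F
  rw [norm_mul, norm_mul, norm_mul, norm_pow, Complex.norm_exp, Complex.norm_exp]
  congr 4
  · rw [Complex.re_ofReal_mul]
  · rw [sq, Complex.mul_re]
    ring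

private lemma D1_norm_K {z : ℂ} {δ : ℝ} (hδ : 0 < δ) (hz : z ≠ 0) (hz' : z + 2 * δ ≠ 0) :
    ‖1 / z - 1 / (z + 2 * δ)‖ = 2 * δ / (‖z‖ * ‖z + 2 * δ‖) := by
  have h1 : 1 / z - 1 / (z + 2 * δ) = ((2 * δ : ℝ) : ℂ) / (z * (z + 2 * δ)) := by
    push_cast
    field_simp
    ring
  rw [h1, norm_div, norm_mul, Complex.norm_real, Real.norm_eq_abs, abs_of_pos (by positivity)]

private lemma D1_ratio {m : ℕ} {L w : ℝ} {z : ℂ} {q : ℝ} (hw : 0 < w)
    (h : m = 0 ∨ w / q ≤ ‖(w : ℂ) + L * z‖) (hq : 0 < q) : ‖(w : ℂ) / (w + L * z)‖ ^ m ≤ q ^ m := by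
  rcases h with h | h
  · rw [h, pow_zero, pow_zero]
  · refine pow_le_pow_left₀ (norm_nonneg _) ?_ m
    have h1 : 0 < w / q := by positivity
    rw [norm_div, Complex.norm_real, Real.norm_eq_abs, abs_of_pos hw, div_le_iff₀ (by linarith)]
    rw [div_le_iff₀ hq] at h
    linarith

private lemma D1_diff {m : ℕ} {L v w δ : ℝ} {ψ : ℂ → ℂ} (hL : 0 < L) (hw : 0 < w)
    (hm : m = 0 ∨ 2 * (δ * L) ≤ w) {z : ℂ} (hz : -δ ≤ z.re) (hd : DifferentiableAt ℂ ψ z) :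
    DifferentiableAt ℂ (D1_F m L v w ψ) z := by
  unfold D1_F
  refine DifferentiableAt.mul ?_ ?_
  · refine DifferentiableAt.mul ?_ (by fun_prop)
    exact hd.mul (by fun_prop)
  · rcases hm with h | h
    · subst h
      simp only [pow_zero]
      exact differentiableAt_const _
    · refine DifferentiableAt.pow ?_ m
      refine DifferentiableAt.div (differentiableAt_const _) (by fun_prop) ?_
      intro h1
      have h2 := congrArg Complex.re h1
      rw [Complex.add_re, Complex.re_ofReal_mul, Complex.ofReal_re, Complex.zero_re] at h2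
      nlinarith [mul_le_mul_of_nonneg_left hz hL.le]

private lemma D1_right {m : ℕ} {L v w δ β P : ℝ} {ψ : ℂ → ℂ} (hL : 1 ≤ L) (hv : 0 ≤ v) (hw : 0 < w)
    (hδ : 0 < δ) (hβ : 1 ≤ β) (hβ5 : β ≤ 5) (h5 : ∀ y : ℝ, |y| ≤ L → ‖ψ (β + y * I)‖ ≤ P) :
    ‖∫ y : ℝ in (-L)..L, (fun z => D1_F m L v w ψ z * (1 / z - 1 / (z + 2 * δ))) (β + y * I)‖ ≤
      2 * π * Real.exp 25 * (Real.exp (5 * v * L) * δ / (1 + L / w) ^ m * P) := by
  have hP : 0 ≤ P := (norm_nonneg _).trans (h5 0 (by rw [abs_zero]; linarith))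
  have h1 : ∀ y : ℝ, |y| ≤ L → ‖(fun z => D1_F m L v w ψ z * (1 / z - 1 / (z + 2 * δ))) (β + y * I)‖ ≤
      (2 * Real.exp 25 * (Real.exp (5 * v * L) * δ / (1 + L / w) ^ m * P)) * (1 + y ^ 2)⁻¹ := by
    intro y hy
    have hre : ((β : ℂ) + y * I).re = β := by simp
    have him : ((β : ℂ) + y * I).im = y := by simp
    have hz0 : (β : ℂ) + y * I ≠ 0 := by
      intro h
      rw [h, Complex.zero_re] at hre
      linarith
    have hz1 : (β : ℂ) + y * I + 2 * δ ≠ 0 := by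
      intro h
      have := congrArg Complex.re h
      simp at this
      linarith
    beta_reduce
    rw [norm_mul, D1_norm_K hδ hz0 hz1, D1_norm_F, hre, him]
    have e1 : Real.exp (v * L * β) ≤ Real.exp (5 * v * L) := by
      refine Real.exp_le_exp.2 ?_
      nlinarith [mul_nonneg hv (by linarith : (0:ℝ) ≤ L)]
    have e2 : Real.exp (β ^ 2 - y ^ 2) ≤ Real.exp 25 := by
      refine Real.exp_le_exp.2 ?_
      nlinarith [sq_nonneg y]
    have e3 : ‖(w : ℂ) / (w + L * ((β : ℂ) + y * I))‖ ^ m ≤ (1 / (1 + L / w)) ^ m := by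
      refine D1_ratio hw (Or.inr ?_) (by positivity)
      have h2 : w / (1 / (1 + L / w)) = w + L := by
        field_simp
      rw [h2]
      refine le_trans ?_ (Complex.re_le_norm _)
      rw [Complex.add_re, Complex.re_ofReal_mul, Complex.ofReal_re, hre]
      nlinarith
    rw [one_div, inv_pow] at e3
    have hn : 1 + y ^ 2 ≤ ‖(β : ℂ) + y * I‖ * ‖(β : ℂ) + y * I + 2 * δ‖ := by
      have g1 : Real.sqrt (1 + y ^ 2) ≤ ‖(β : ℂ) + y * I‖ := by
        rw [Complex.norm_def]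
        refine Real.sqrt_le_sqrt ?_
        rw [Complex.normSq_apply, hre, him]
        nlinarith
      have g2 : Real.sqrt (1 + y ^ 2) ≤ ‖(β : ℂ) + y * I + 2 * δ‖ := by
        rw [Complex.norm_def]
        refine Real.sqrt_le_sqrt ?_
        have hre2 : ((β : ℂ) + y * I + 2 * δ).re = β + 2 * δ := by simp
        have him2 : ((β : ℂ) + y * I + 2 * δ).im = y := by simp
        rw [Complex.normSq_apply, hre2, him2]
        nlinarith
      have g3 := mul_le_mul g1 g2 (Real.sqrt_nonneg _) (norm_nonneg _)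
      rwa [Real.mul_self_sqrt (by positivity)] at g3
    have e4 : 2 * δ / (‖(β : ℂ) + y * I‖ * ‖(β : ℂ) + y * I + 2 * δ‖) ≤ 2 * δ * (1 + y ^ 2)⁻¹ := by
      rw [← div_eq_mul_inv]
      exact div_le_div_of_nonneg_left (by positivity) (by positivity) hn
    have e5 := h5 y hy
    calc ‖ψ (β + y * I)‖ * Real.exp (v * L * β) * Real.exp (β ^ 2 - y ^ 2) *
          ‖(w : ℂ) / (w + L * ((β : ℂ) + y * I))‖ ^ m *
          (2 * δ / (‖(β : ℂ) + y * I‖ * ‖(β : ℂ) + y * I + 2 * δ‖))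
        ≤ P * Real.exp (5 * v * L) * Real.exp 25 * ((1 + L / w) ^ m)⁻¹ * (2 * δ * (1 + y ^ 2)⁻¹) := by
          gcongr
      _ = (2 * Real.exp 25 * (Real.exp (5 * v * L) * δ / (1 + L / w) ^ m * P)) * (1 + y ^ 2)⁻¹ := by
          rw [div_eq_mul_inv]
          ring
  have hint : IntervalIntegrable (fun y : ℝ =>
      (2 * Real.exp 25 * (Real.exp (5 * v * L) * δ / (1 + L / w) ^ m * P)) * (1 + y ^ 2)⁻¹) volume (-L) L := by
    refine Continuous.intervalIntegrable ?_ _ _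
    refine continuous_const.mul (Continuous.inv₀ (by fun_prop) fun y => ?_)
    positivity
  refine (intervalIntegral.norm_integral_le_of_norm_le (by linarith) ?_ hint).trans ?_
  · refine Filter.Eventually.of_forall fun y hy => h1 y ?_
    rw [Set.mem_Ioc] at hy
    exact abs_le.2 ⟨hy.1.le, hy.2⟩
  · rw [intervalIntegral.integral_const_mul, integral_inv_one_add_sq]
    have h2 : Real.arctan L - Real.arctan (-L) ≤ π := by
      have g1 := Real.arctan_lt_pi_div_two L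
      have g2 := Real.neg_pi_div_two_lt_arctan (-L)
      linarith
    have h3 : 0 ≤ 2 * Real.exp 25 * (Real.exp (5 * v * L) * δ / (1 + L / w) ^ m * P) := by positivity
    refine (mul_le_mul_of_nonneg_left h2 h3).trans (le_of_eq ?_)
    ring

private lemma D1_horiz {m : ℕ} {L v w δ β P e : ℝ} {ψ : ℂ → ℂ} (hL : 1000 ≤ L) (hv : 0 ≤ v) (hv1 : v ≤ 1)
    (hw : 0 < w) (hδ : 0 < δ) (hδ4 : δ ≤ 4) (hβ : 1 ≤ β) (hβ5 : β ≤ 5) (hm : m = 0 ∨ 2 * (δ * L) ≤ w)
    (he : |e| = L) (ht : ∀ z : ℂ, -δ ≤ z.re → z.re ≤ β → |z.im| ≤ L → ‖ψ z‖ ≤ P) :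
    ‖∫ x : ℝ in (-δ)..β, (fun z => D1_F m L v w ψ z * (1 / z - 1 / (z + 2 * δ))) (x + e * I)‖ ≤
      72 * 2 ^ m * (Real.exp (-(L ^ 2 / 2)) * P) := by
  have hP : 0 ≤ P := (norm_nonneg _).trans (ht 0 (by simp; linarith) (by simp; linarith)
    (by simp; linarith))
  have he2 : e ^ 2 = L ^ 2 := by rw [← sq_abs, he]
  have h1 : ∀ x ∈ Set.uIoc (-δ) β, ‖(fun z => D1_F m L v w ψ z * (1 / z - 1 / (z + 2 * δ))) (x + e * I)‖ ≤
      8 * 2 ^ m * (Real.exp (-(L ^ 2 / 2)) * P) := by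
    intro x hx
    rw [Set.uIoc_of_le (by linarith), Set.mem_Ioc] at hx
    have hre : ((x : ℂ) + e * I).re = x := by simp
    have him : ((x : ℂ) + e * I).im = e := by simp
    have he0 : e ≠ 0 := by
      rintro rfl
      rw [abs_zero] at he
      linarith
    have hz0 : (x : ℂ) + e * I ≠ 0 := by
      intro h
      rw [h, Complex.zero_im] at him
      exact he0 him.symm
    have him2 : ((x : ℂ) + e * I + 2 * δ).im = e := by simp
    have hz1 : (x : ℂ) + e * I + 2 * δ ≠ 0 := by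
      intro h
      rw [h, Complex.zero_im] at him2
      exact he0 him2.symm
    beta_reduce
    rw [norm_mul, D1_norm_K hδ hz0 hz1, D1_norm_F, hre, him]
    have e1 : Real.exp (v * L * x) ≤ Real.exp (5 * L) := by
      refine Real.exp_le_exp.2 ?_
      have g1 : v * L * x ≤ v * L * 5 := mul_le_mul_of_nonneg_left (by linarith) (by positivity)
      have g2 : v * L ≤ 1 * L := mul_le_mul_of_nonneg_right hv1 (by linarith)
      linarith
    have e2 : Real.exp (x ^ 2 - e ^ 2) ≤ Real.exp (25 - L ^ 2) := by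
      refine Real.exp_le_exp.2 ?_
      rw [he2]
      nlinarith
    have e3 : ‖(w : ℂ) / (w + L * ((x : ℂ) + e * I))‖ ^ m ≤ 2 ^ m := by
      refine D1_ratio hw ?_ (by norm_num)
      rcases hm with h | h
      · exact Or.inl h
      · right
        refine le_trans ?_ (Complex.re_le_norm _)
        rw [Complex.add_re, Complex.re_ofReal_mul, Complex.ofReal_re, hre]
        nlinarith
    have hn1 : 1 ≤ ‖(x : ℂ) + e * I‖ := by
      refine le_trans ?_ (Complex.abs_im_le_norm _)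
      rw [him, he]
      linarith
    have hn2 : 1 ≤ ‖(x : ℂ) + e * I + 2 * δ‖ := by
      refine le_trans ?_ (Complex.abs_im_le_norm _)
      rw [him2, he]
      linarith
    have hn : 1 ≤ ‖(x : ℂ) + e * I‖ * ‖(x : ℂ) + e * I + 2 * δ‖ := one_le_mul_of_one_le_of_one_le hn1 hn2
    have e4 : 2 * δ / (‖(x : ℂ) + e * I‖ * ‖(x : ℂ) + e * I + 2 * δ‖) ≤ 8 := by
      refine (div_le_self (by positivity) hn).trans ?_
      linarith
    have e5 : ‖ψ (x + e * I)‖ ≤ P := ht _ (by rw [hre]; exact hx.1.le) (by rw [hre]; exact hx.2)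
      (by rw [him, he])
    calc ‖ψ (x + e * I)‖ * Real.exp (v * L * x) * Real.exp (x ^ 2 - e ^ 2) *
          ‖(w : ℂ) / (w + L * ((x : ℂ) + e * I))‖ ^ m *
          (2 * δ / (‖(x : ℂ) + e * I‖ * ‖(x : ℂ) + e * I + 2 * δ‖))
        ≤ P * Real.exp (5 * L) * Real.exp (25 - L ^ 2) * 2 ^ m * 8 := by
          gcongr
      _ = 8 * 2 ^ m * (Real.exp (5 * L + (25 - L ^ 2)) * P) := by
          rw [Real.exp_add]
          ring
      _ ≤ 8 * 2 ^ m * (Real.exp (-(L ^ 2 / 2)) * P) := by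
          gcongr
          nlinarith
  refine (intervalIntegral.norm_integral_le_of_norm_le_const h1).trans ?_
  have h2 : |β - -δ| ≤ 9 := by
    rw [abs_of_nonneg (by linarith)]
    linarith
  have h3 : 0 ≤ 8 * 2 ^ m * (Real.exp (-(L ^ 2 / 2)) * P) := by positivity
  refine (mul_le_mul_of_nonneg_left h2 h3).trans (le_of_eq ?_)
  ring

private noncomputable def D1_W (m : ℕ) (L w δ y : ℝ) : ℝ := δ / (δ ^ 2 + y ^ 2) / (1 + L * |y| / w) ^ m

private lemma D1_W_cont (m : ℕ) {L w δ : ℝ} (hL : 0 < L) (hw : 0 < w) (hδ : 0 < δ) :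
    Continuous (D1_W m L w δ) := by
  unfold D1_W
  refine Continuous.div ?_ (by fun_prop) fun y => ?_
  · refine continuous_const.div (by fun_prop) fun y => ?_
    positivity
  · positivity

private lemma D1_left {m : ℕ} {L v w δ : ℝ} {ψ : ℂ → ℂ} (hL : 1 ≤ L)
    (hw : 0 < w) (hδ : 0 < δ) (hδ4 : δ ≤ 4) (hm : m = 0 ∨ 2 * (δ * L) ≤ w)
    (hd : ∀ z : ℂ, |z.im| ≤ L → DifferentiableAt ℂ ψ z) :
    ‖∫ y : ℝ in (-L)..L, (fun z => D1_F m L v w ψ z * (1 / z - 1 / (z + 2 * δ))) (((-δ : ℝ) : ℂ) + y * I)‖ ≤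
      2 * Real.exp 16 * 4 ^ m * Real.exp (-(v * L * δ)) *
        ∫ y : ℝ in (-L)..L, ‖ψ (((-δ : ℝ) : ℂ) + y * I)‖ * D1_W m L w δ y := by
  have h1 : ∀ y : ℝ, |y| ≤ L →
      ‖(fun z => D1_F m L v w ψ z * (1 / z - 1 / (z + 2 * δ))) (((-δ : ℝ) : ℂ) + y * I)‖ ≤
      2 * Real.exp 16 * 4 ^ m * Real.exp (-(v * L * δ)) *
        (‖ψ (((-δ : ℝ) : ℂ) + y * I)‖ * D1_W m L w δ y) := by
    intro y hy
    have hre : (((-δ : ℝ) : ℂ) + y * I).re = -δ := by simp
    have him : (((-δ : ℝ) : ℂ) + y * I).im = y := by simp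
    have hre2 : (((-δ : ℝ) : ℂ) + y * I + 2 * δ).re = δ := by
      simp
      ring
    have him2 : (((-δ : ℝ) : ℂ) + y * I + 2 * δ).im = y := by simp
    have hz0 : ((-δ : ℝ) : ℂ) + y * I ≠ 0 := by
      intro h
      rw [h, Complex.zero_re] at hre
      linarith
    have hz1 : ((-δ : ℝ) : ℂ) + y * I + 2 * δ ≠ 0 := by
      intro h
      rw [h, Complex.zero_re] at hre2
      linarith
    beta_reduce
    rw [norm_mul, D1_norm_K hδ hz0 hz1, D1_norm_F, hre, him]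
    have e1 : v * L * -δ = -(v * L * δ) := by ring
    have e2 : Real.exp ((-δ) ^ 2 - y ^ 2) ≤ Real.exp 16 := by
      refine Real.exp_le_exp.2 ?_
      nlinarith [sq_nonneg y]
    have hq : 0 < 4 / (1 + L * |y| / w) := by positivity
    have e3 : ‖(w : ℂ) / (w + L * (((-δ : ℝ) : ℂ) + y * I))‖ ^ m ≤ (4 / (1 + L * |y| / w)) ^ m := by
      refine D1_ratio hw ?_ hq
      rcases hm with h | h
      · exact Or.inl h
      · right
        have g0 : w / (4 / (1 + L * |y| / w)) = (w + L * |y|) / 4 := by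
          field_simp
        have g1 : w / 2 ≤ ‖(w : ℂ) + L * (((-δ : ℝ) : ℂ) + y * I)‖ := by
          refine le_trans ?_ (Complex.re_le_norm _)
          rw [Complex.add_re, Complex.re_ofReal_mul, Complex.ofReal_re, hre]
          linarith
        have g2 : L * |y| ≤ ‖(w : ℂ) + L * (((-δ : ℝ) : ℂ) + y * I)‖ := by
          refine le_trans ?_ (Complex.abs_im_le_norm _)
          rw [Complex.add_im, Complex.im_ofReal_mul, Complex.ofReal_im, him, zero_add, abs_mul,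
            abs_of_pos (by linarith : 0 < L)]
        rw [g0]
        linarith
    rw [div_pow] at e3
    have hn : ‖((-δ : ℝ) : ℂ) + y * I‖ * ‖((-δ : ℝ) : ℂ) + y * I + 2 * δ‖ = δ ^ 2 + y ^ 2 := by
      have g1 : ‖((-δ : ℝ) : ℂ) + y * I‖ = Real.sqrt (δ ^ 2 + y ^ 2) := by
        rw [Complex.norm_def, Complex.normSq_apply, hre, him]
        congr 1
        ring
      have g2 : ‖((-δ : ℝ) : ℂ) + y * I + 2 * δ‖ = Real.sqrt (δ ^ 2 + y ^ 2) := by
        rw [Complex.norm_def, Complex.normSq_apply, hre2, him2]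
        congr 1
        ring
      rw [g1, g2, Real.mul_self_sqrt (by positivity)]
    rw [hn, e1]
    unfold D1_W
    calc ‖ψ (((-δ : ℝ) : ℂ) + y * I)‖ * Real.exp (-(v * L * δ)) * Real.exp ((-δ) ^ 2 - y ^ 2) *
          ‖(w : ℂ) / (w + L * (((-δ : ℝ) : ℂ) + y * I))‖ ^ m * (2 * δ / (δ ^ 2 + y ^ 2))
        ≤ ‖ψ (((-δ : ℝ) : ℂ) + y * I)‖ * Real.exp (-(v * L * δ)) * Real.exp 16 *
          (4 ^ m / (1 + L * |y| / w) ^ m) * (2 * δ / (δ ^ 2 + y ^ 2)) := by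
          gcongr
      _ = _ := by
          field_simp
  have hcont : ContinuousOn (fun y : ℝ => ‖ψ (((-δ : ℝ) : ℂ) + y * I)‖ * D1_W m L w δ y)
      (Set.uIcc (-L) L) := by
    refine ContinuousOn.mul ?_ (D1_W_cont m (by linarith) hw hδ).continuousOn
    intro y hy
    rw [Set.uIcc_of_le (by linarith), Set.mem_Icc] at hy
    refine ContinuousAt.continuousWithinAt ?_
    refine ContinuousAt.norm ?_
    refine ContinuousAt.comp (f := fun y : ℝ => ((-δ : ℝ) : ℂ) + y * I) (g := ψ) ?_ (by fun_prop)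
    refine (hd _ ?_).continuousAt
    have him : (((-δ : ℝ) : ℂ) + y * I).im = y := by simp
    rw [him]
    exact abs_le.2 hy
  rw [← intervalIntegral.integral_const_mul]
  refine intervalIntegral.norm_integral_le_of_norm_le (by linarith) ?_ ?_
  · refine Filter.Eventually.of_forall fun y hy => h1 y ?_
    rw [Set.mem_Ioc] at hy
    exact abs_le.2 ⟨hy.1.le, hy.2⟩
  · exact (continuousOn_const.mul hcont).intervalIntegrable

private lemma D1_core {m : ℕ} {L v w δ β P5 Pt : ℝ} {ψ : ℂ → ℂ} (hL : 1000 ≤ L) (hv : 0 ≤ v) (hv1 : v ≤ 1)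
    (hw : 0 < w) (hδ : 0 < δ) (hδ4 : δ ≤ 4) (hβ : 1 ≤ β) (hβ5 : β ≤ 5) (hm : m = 0 ∨ 2 * (δ * L) ≤ w)
    (hd : ∀ z : ℂ, |z.im| ≤ L → DifferentiableAt ℂ ψ z)
    (h5 : ∀ y : ℝ, |y| ≤ L → ‖ψ (β + y * I)‖ ≤ P5)
    (ht : ∀ z : ℂ, -δ ≤ z.re → z.re ≤ β → |z.im| ≤ L → ‖ψ z‖ ≤ Pt) :
    2 * π * ‖ψ 0‖ ≤ 2 * Real.exp 16 * 4 ^ m * (Real.exp (-(v * L * δ)) *
        ∫ y : ℝ in (-L)..L, ‖ψ (((-δ : ℝ) : ℂ) + y * I)‖ * D1_W m L w δ y) +
      2 * π * Real.exp 25 * (Real.exp (5 * v * L) * δ / (1 + L / w) ^ m * P5) +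
      144 * 2 ^ m * (Real.exp (-(L ^ 2 / 2)) * Pt) := by
  have hc := D1_cauchy (f := D1_F m L v w ψ) (δ := δ) (b := β) (c := -L) (d := L) hδ (by linarith)
    (by linarith) (by linarith) (fun z h1 h2 h3 h4 =>
      D1_diff (by linarith) hw hm h3 (hd z (abs_le.2 ⟨h1, h2⟩)))
  have h0 : D1_F m L v w ψ 0 = ψ 0 := by
    unfold D1_F
    have hwc : (w : ℂ) ≠ 0 := Complex.ofReal_ne_zero.2 hw.ne'
    simp [hwc]
  rw [h0] at hc
  have h1 : ‖2 * π * I * ψ 0‖ = 2 * π * ‖ψ 0‖ := by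
    rw [norm_mul, norm_mul, norm_mul, Complex.norm_I, Complex.norm_real, Real.norm_eq_abs,
      abs_of_pos Real.pi_pos]
    simp
  rw [← h1, ← hc]
  unfold D1_RI
  have b1 := D1_horiz (β := β) (e := -L) hL hv hv1 hw hδ hδ4 hβ hβ5 hm
    (by rw [abs_neg, abs_of_pos]; linarith) ht
  have b2 := D1_horiz (β := β) (e := L) hL hv hv1 hw hδ hδ4 hβ hβ5 hm
    (by rw [abs_of_pos]; linarith) ht
  have b3 := D1_right (m := m) (by linarith : 1 ≤ L) hv hw hδ hβ hβ5 h5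
  have b4 := D1_left (m := m) (v := v) (by linarith : 1 ≤ L) hw hδ hδ4 hm hd
  refine (norm_sub_le _ _).trans ?_
  refine (add_le_add (norm_add_le _ _) le_rfl).trans ?_
  refine (add_le_add (add_le_add (norm_sub_le _ _) le_rfl) le_rfl).trans ?_
  rw [norm_mul, norm_mul, Complex.norm_I, one_mul, one_mul]
  linarith

private lemma D1_pint {a r : ℝ} (ha : 0 < a) : ∫ τ : ℝ in (-r)..r, a / (a ^ 2 + τ ^ 2) ≤ π := by
  have h1 : ∫ τ : ℝ in (-r)..r, a / (a ^ 2 + τ ^ 2) = Real.arctan (r / a) - Real.arctan (-r / a) := by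
    refine intervalIntegral.integral_eq_sub_of_hasDerivAt (f := fun τ : ℝ => Real.arctan (τ / a))
      (fun τ _ => ?_) ?_
    · have h2 : HasDerivAt (fun τ : ℝ => τ / a) (1 / a) τ := (hasDerivAt_id τ).div_const a
      have h3 := h2.arctan
      have h4 : a / (a ^ 2 + τ ^ 2) = 1 / (1 + (τ / a) ^ 2) * (1 / a) := by
        field_simp
      rw [h4]
      exact h3
    · refine Continuous.intervalIntegrable ?_ _ _
      refine continuous_const.div (by fun_prop) fun y => ?_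
      positivity
  rw [h1]
  have g1 := Real.arctan_lt_pi_div_two (r / a)
  have g2 := Real.neg_pi_div_two_lt_arctan (-r / a)
  linarith

private lemma D1_CS {g p : ℝ → ℝ} {r : ℝ} (hr : 0 ≤ r) (hg : ContinuousOn g (Set.uIcc (-r) r))
    (hp : ContinuousOn p (Set.uIcc (-r) r)) (hp0 : ∀ τ, 0 ≤ p τ) (hpi : ∫ τ : ℝ in (-r)..r, p τ ≤ π) :
    (∫ τ : ℝ in (-r)..r, g τ * p τ) ^ 2 ≤ π * ∫ τ : ℝ in (-r)..r, g τ ^ 2 * p τ := by
  obtain ⟨J, hJ⟩ : ∃ J, J = ∫ τ : ℝ in (-r)..r, g τ * p τ := ⟨_, rfl⟩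
  obtain ⟨S, hS⟩ : ∃ S, S = ∫ τ : ℝ in (-r)..r, g τ ^ 2 * p τ := ⟨_, rfl⟩
  obtain ⟨P, hP⟩ : ∃ P, P = ∫ τ : ℝ in (-r)..r, p τ := ⟨_, rfl⟩
  rw [← hJ, ← hS]
  rw [← hP] at hpi
  have i1 : IntervalIntegrable (fun τ => g τ ^ 2 * p τ) volume (-r) r := ((hg.pow 2).mul hp).intervalIntegrable
  have i2 : IntervalIntegrable (fun τ => g τ * p τ) volume (-r) r := (hg.mul hp).intervalIntegrable
  have i3 : IntervalIntegrable p volume (-r) r := hp.intervalIntegrable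
  have h1 : 0 ≤ ∫ τ : ℝ in (-r)..r, (g τ - J / π) ^ 2 * p τ :=
    intervalIntegral.integral_nonneg (by linarith) fun τ _ => mul_nonneg (sq_nonneg _) (hp0 τ)
  have h2 : ∫ τ : ℝ in (-r)..r, (g τ - J / π) ^ 2 * p τ = S - 2 * (J / π) * J + (J / π) ^ 2 * P := by
    have h3 : (fun τ => (g τ - J / π) ^ 2 * p τ) =
        fun τ => g τ ^ 2 * p τ - 2 * (J / π) * (g τ * p τ) + (J / π) ^ 2 * p τ := by
      funext τ
      ring
    rw [h3, intervalIntegral.integral_add (i1.sub (i2.const_mul _)) (i3.const_mul _),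
      intervalIntegral.integral_sub i1 (i2.const_mul _), intervalIntegral.integral_const_mul,
      intervalIntegral.integral_const_mul, ← hJ, ← hS, ← hP]
  rw [h2] at h1
  have h4 : (J / π) ^ 2 * P ≤ (J / π) ^ 2 * π := mul_le_mul_of_nonneg_left hpi (sq_nonneg _)
  have h5 : 2 * (J / π) * J - (J / π) ^ 2 * π = J ^ 2 / π := by
    field_simp
    ring
  have h6 : J ^ 2 / π ≤ S := by linarith
  rw [div_le_iff₀ Real.pi_pos] at h6
  linarith

theorem dec (m : ℕ) : ∃ C : ℝ, 1 ≤ C ∧ ∀ (L v w x t1 B5 Bt : ℝ) (φ : ℂ → ℂ), 1000 ≤ L →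
    2 * L ≤ t1 → 0 ≤ v → v ≤ 1 → 0 < w → -(17 / 10) ≤ x → x ≤ 7 / 2 * L →
    (m = 0 ∨ 2 * (x + 2) ≤ w) → (∀ s : ℂ, 1 ≤ s.im → DifferentiableAt ℂ φ s) →
    (∀ τ : ℝ, |τ - t1| ≤ L → ‖φ (5 + τ * I)‖ ≤ B5) →
    (∀ s : ℂ, 1 / 4 ≤ s.re → s.re ≤ 5 → |s.im - t1| ≤ L → ‖φ s‖ ≤ Bt) →
    ‖φ (1 / 2 + (x / L : ℝ) + t1 * I)‖ ^ 2 ≤ C *
      (Real.exp (-(2 * v * (x + 2))) * (∫ τ in (-L ^ 2)..(L ^ 2),
        ‖φ ((1 / 2 - 2 / L : ℝ) + (t1 + τ / L : ℝ) * I)‖ ^ 2 *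
          ((x + 2) / ((x + 2) ^ 2 + τ ^ 2) / (1 + |τ| / w) ^ m)) +
      (Real.exp (5 * v * L) * ((x + 2) / L) / (1 + L / w) ^ m * B5) ^ 2 +
      (Real.exp (-(L ^ 2 / 2)) * Bt) ^ 2) := by
  obtain ⟨c1, hc1⟩ : ∃ c1 : ℝ, c1 = 2 * Real.exp 16 * 4 ^ m := ⟨_, rfl⟩
  obtain ⟨c2, hc2⟩ : ∃ c2 : ℝ, c2 = 2 * π * Real.exp 25 := ⟨_, rfl⟩
  obtain ⟨c3, hc3⟩ : ∃ c3 : ℝ, c3 = 144 * 2 ^ m := ⟨_, rfl⟩
  have hc3' : 1 ≤ c3 := by
    rw [hc3]
    have : (1 : ℝ) ≤ 2 ^ m := one_le_pow₀ (by norm_num)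
    linarith
  have hc1' : 0 ≤ c1 := by rw [hc1]; positivity
  have hc2' : 0 ≤ c2 := by rw [hc2]; positivity
  have hpi := Real.pi_pos
  refine ⟨3 * (c1 ^ 2 * π + c2 ^ 2 + c3 ^ 2), ?_, ?_⟩
  · have h1 : 0 ≤ c1 ^ 2 * π := by positivity
    nlinarith [sq_nonneg c2]
  intro L v w x t1 B5 Bt φ hL ht1 hv hv1 hw hx hx2 hm hd h5 ht
  have hL0 : 0 < L := by linarith
  obtain ⟨a, ha⟩ : ∃ a, a = x + 2 := ⟨_, rfl⟩
  have ha0 : 0 < a := by rw [ha]; linarith
  obtain ⟨δ, hδ⟩ : ∃ δ, δ = a / L := ⟨_, rfl⟩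
  have hδL : δ * L = a := by rw [hδ]; field_simp
  have hδ0 : 0 < δ := by rw [hδ]; positivity
  have hδ4 : δ ≤ 4 := by
    rw [hδ, div_le_iff₀ hL0, ha]
    linarith
  have hxL : x / L ≤ 7 / 2 := by
    rw [div_le_iff₀ hL0]
    exact hx2
  have hxL2 : -(1 / 2) ≤ x / L := by
    rw [le_div_iff₀ hL0]
    linarith
  have hδx : x / L = δ - 2 / L := by
    rw [hδ, ha]
    ring
  have h2L : 2 / L ≤ 1 / 4 := by
    rw [div_le_iff₀ hL0]
    linarith
  have h2L0 : 0 < 2 / L := by positivity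
  obtain ⟨β, hβ⟩ : ∃ β, β = 9 / 2 - x / L := ⟨_, rfl⟩
  obtain ⟨ψ, hψ⟩ : ∃ ψ : ℂ → ℂ, ψ = fun z => φ (1 / 2 + (x / L : ℝ) + t1 * I + z) := ⟨_, rfl⟩
  have hre : ∀ z : ℂ, (1 / 2 + (x / L : ℝ) + t1 * I + z).re = 1 / 2 + x / L + z.re := by
    intro z
    rw [Complex.add_re, Complex.add_re, Complex.add_re, Complex.ofReal_re, Complex.re_ofReal_mul, Complex.I_re]
    norm_num
  have him : ∀ z : ℂ, (1 / 2 + (x / L : ℝ) + t1 * I + z).im = t1 + z.im := by
    intro z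
    rw [Complex.add_im, Complex.add_im, Complex.add_im, Complex.ofReal_im, Complex.im_ofReal_mul, Complex.I_im]
    norm_num
  have hcore := D1_core (m := m) (L := L) (v := v) (w := w) (δ := δ) (β := β) (P5 := B5) (Pt := Bt) (ψ := ψ)
    hL hv hv1 hw hδ0 hδ4 (by rw [hβ]; linarith) (by rw [hβ]; linarith) (by rw [hδL, ha]; exact hm) ?_ ?_ ?_
  rotate_left
  · intro z hz
    rw [hψ]
    refine DifferentiableAt.comp (f := fun z : ℂ => 1 / 2 + (x / L : ℝ) + t1 * I + z) (g := φ) z ?_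
      (by fun_prop)
    refine hd _ ?_
    rw [him]
    have := (abs_le.1 hz).1
    linarith
  · intro y hy
    rw [hψ]
    have h1 : 1 / 2 + (x / L : ℝ) + t1 * I + ((β : ℂ) + y * I) = 5 + ((t1 + y : ℝ) : ℂ) * I := by
      rw [hβ]
      push_cast
      ring
    beta_reduce
    rw [h1]
    refine h5 (t1 + y) ?_
    rw [add_sub_cancel_left]
    exact hy
  · intro z hz1 hz2 hz3
    rw [hψ]
    refine ht _ ?_ ?_ ?_
    · rw [hre, hδx]
      linarith
    · rw [hre]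
      rw [hβ] at hz2
      linarith
    · rw [him, add_sub_cancel_left]
      exact hz3
  have hψ0 : ψ 0 = φ (1 / 2 + (x / L : ℝ) + t1 * I) := by
    rw [hψ]
    beta_reduce
    rw [add_zero]
  rw [← hψ0]
  -- the integral
  obtain ⟨g, hg⟩ : ∃ g : ℝ → ℝ, g = fun τ => ‖φ ((1 / 2 - 2 / L : ℝ) + (t1 + τ / L : ℝ) * I)‖ := ⟨_, rfl⟩
  obtain ⟨p, hp⟩ : ∃ p : ℝ → ℝ, p = fun τ => a / (a ^ 2 + τ ^ 2) / (1 + |τ| / w) ^ m := ⟨_, rfl⟩
  have hint : ∫ y : ℝ in (-L)..L, ‖ψ (((-δ : ℝ) : ℂ) + y * I)‖ * D1_W m L w δ y =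
      ∫ τ : ℝ in (-L ^ 2)..(L ^ 2), g τ * p τ := by
    have h1 := intervalIntegral.integral_comp_div (a := -L ^ 2) (b := L ^ 2)
      (fun y : ℝ => ‖ψ (((-δ : ℝ) : ℂ) + y * I)‖ * D1_W m L w δ y) hL0.ne'
    have h2 : -L ^ 2 / L = -L := by field_simp
    have h3 : L ^ 2 / L = L := by field_simp
    rw [h2, h3, smul_eq_mul] at h1
    have h4 : ∀ τ : ℝ, ‖ψ (((-δ : ℝ) : ℂ) + ((τ / L : ℝ) : ℂ) * I)‖ * D1_W m L w δ (τ / L) =
        L * (g τ * p τ) := by
      intro τ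
      have h5 : ψ (((-δ : ℝ) : ℂ) + ((τ / L : ℝ) : ℂ) * I) =
          φ ((1 / 2 - 2 / L : ℝ) + (t1 + τ / L : ℝ) * I) := by
        rw [hψ]
        beta_reduce
        congr 1
        rw [hδx]
        push_cast
        ring
      have h6 : D1_W m L w δ (τ / L) = L * p τ := by
        rw [hp]
        unfold D1_W
        rw [abs_div, abs_of_pos hL0, hδ]
        have h7 : L * (|τ| / L) / w = |τ| / w := by field_simp
        rw [h7]
        field_simp
      rw [h5, h6, hg]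
      ring
    have h8 : ∫ τ : ℝ in (-L ^ 2)..(L ^ 2), L * (g τ * p τ) =
        L * ∫ y : ℝ in (-L)..L, ‖ψ (((-δ : ℝ) : ℂ) + y * I)‖ * D1_W m L w δ y := by
      rw [← h1]
      refine intervalIntegral.integral_congr fun τ _ => ?_
      exact (h4 τ).symm
    rw [intervalIntegral.integral_const_mul] at h8
    exact (mul_left_cancel₀ hL0.ne' h8).symm
  have hp0 : ∀ τ, 0 ≤ p τ := by
    intro τ
    rw [hp]
    positivity
  have hpc : Continuous p := by
    rw [hp]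
    refine Continuous.div ?_ (by fun_prop) fun y => ?_
    · refine continuous_const.div (by fun_prop) fun y => ?_
      positivity
    · positivity
  have hgc : ContinuousOn g (Set.uIcc (-L ^ 2) (L ^ 2)) := by
    intro τ hτ
    rw [Set.uIcc_of_le (by nlinarith), Set.mem_Icc] at hτ
    rw [hg]
    refine ContinuousAt.continuousWithinAt ?_
    refine ContinuousAt.norm ?_
    refine ContinuousAt.comp (f := fun τ : ℝ => ((1 / 2 - 2 / L : ℝ) : ℂ) + ((t1 + τ / L : ℝ) : ℂ) * I)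
      (g := φ) ?_ (by fun_prop)
    refine (hd _ ?_).continuousAt
    rw [Complex.add_im, Complex.ofReal_im, Complex.im_ofReal_mul, Complex.I_im]
    have h1 : -L ≤ τ / L := by
      rw [le_div_iff₀ hL0]
      nlinarith [hτ.1]
    linarith
  have hpint : ∫ τ : ℝ in (-L ^ 2)..(L ^ 2), p τ ≤ π := by
    refine le_trans ?_ (D1_pint (r := L ^ 2) ha0)
    refine intervalIntegral.integral_mono_on (by nlinarith) (hpc.intervalIntegrable _ _) ?_ ?_
    · refine Continuous.intervalIntegrable ?_ _ _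
      refine continuous_const.div (by fun_prop) fun y => ?_
      positivity
    · intro τ _
      rw [hp]
      refine div_le_self (by positivity) ?_
      refine one_le_pow₀ ?_
      have : 0 ≤ |τ| / w := by positivity
      linarith
  have hCS := D1_CS (r := L ^ 2) (by positivity) hgc hpc.continuousOn hp0 hpint
  rw [hint] at hcore
  obtain ⟨J, hJ⟩ : ∃ J, J = ∫ τ : ℝ in (-L ^ 2)..(L ^ 2), g τ * p τ := ⟨_, rfl⟩
  obtain ⟨S, hS⟩ : ∃ S, S = ∫ τ : ℝ in (-L ^ 2)..(L ^ 2), g τ ^ 2 * p τ := ⟨_, rfl⟩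
  have hS' : (∫ τ in (-L ^ 2)..(L ^ 2), ‖φ ((1 / 2 - 2 / L : ℝ) + (t1 + τ / L : ℝ) * I)‖ ^ 2 *
      ((x + 2) / ((x + 2) ^ 2 + τ ^ 2) / (1 + |τ| / w) ^ m)) = S := by
    rw [hS, hg, hp, ha]
  rw [← hJ, ← hS] at hCS
  rw [← hJ] at hcore
  rw [hS', ← ha, ← hδ]
  have hS0 : 0 ≤ S := by
    have := (sq_nonneg J).trans hCS
    by_contra hcon
    push Not at hcon
    nlinarith
  have hvLδ : v * L * δ = v * a := by rw [← hδL]; ring
  rw [hvLδ, ← hc1, ← hc2, ← hc3] at hcore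
  obtain ⟨B, hB⟩ : ∃ B, B = Real.exp (5 * v * L) * δ / (1 + L / w) ^ m * B5 := ⟨_, rfl⟩
  obtain ⟨T, hT⟩ : ∃ T, T = Real.exp (-(L ^ 2 / 2)) * Bt := ⟨_, rfl⟩
  rw [← hB, ← hT] at hcore ⊢
  have hexp : Real.exp (-(2 * v * a)) = Real.exp (-(v * a)) ^ 2 := by
    rw [← Real.exp_nat_mul]
    congr 1
    push_cast
    ring
  rw [hexp]
  obtain ⟨E, hE⟩ : ∃ E, E = Real.exp (-(v * a)) := ⟨_, rfl⟩
  rw [← hE] at hcore ⊢
  have hN : ‖ψ 0‖ ≤ c1 * (E * J) + c2 * B + c3 * T := by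
    have h1 : 1 ≤ 2 * π := by linarith [Real.pi_gt_three]
    have h2 : 1 * ‖ψ 0‖ ≤ 2 * π * ‖ψ 0‖ := mul_le_mul_of_nonneg_right h1 (norm_nonneg _)
    linarith
  have h1 : ‖ψ 0‖ ^ 2 ≤ (c1 * (E * J) + c2 * B + c3 * T) ^ 2 := pow_le_pow_left₀ (norm_nonneg _) hN 2
  have h2 : (c1 * (E * J) + c2 * B + c3 * T) ^ 2 ≤
      3 * ((c1 * (E * J)) ^ 2 + (c2 * B) ^ 2 + (c3 * T) ^ 2) := by
    nlinarith [sq_nonneg (c1 * (E * J) - c2 * B), sq_nonneg (c1 * (E * J) - c3 * T),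
      sq_nonneg (c2 * B - c3 * T)]
  have h3 : (c1 * (E * J)) ^ 2 ≤ c1 ^ 2 * π * (E ^ 2 * S) := by
    have h4 : (c1 * (E * J)) ^ 2 = c1 ^ 2 * E ^ 2 * J ^ 2 := by ring
    have h5 : c1 ^ 2 * E ^ 2 * J ^ 2 ≤ c1 ^ 2 * E ^ 2 * (π * S) :=
      mul_le_mul_of_nonneg_left hCS (by positivity)
    rw [h4]
    linarith
  have hE0 : 0 ≤ E ^ 2 * S := by positivity
  have hB0 := sq_nonneg B
  have hT0 := sq_nonneg T
  have k1 : 0 ≤ c1 ^ 2 * π := by positivity
  have k2 : 0 ≤ c2 ^ 2 := sq_nonneg _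
  have k3 : 0 ≤ c3 ^ 2 := sq_nonneg _
  have h6 : c1 ^ 2 * π * (E ^ 2 * S) + (c2 * B) ^ 2 + (c3 * T) ^ 2 ≤
      (c1 ^ 2 * π + c2 ^ 2 + c3 ^ 2) * (E ^ 2 * S + B ^ 2 + T ^ 2) := by
    nlinarith [mul_nonneg k1 hB0, mul_nonneg k1 hT0, mul_nonneg k2 hE0, mul_nonneg k2 hT0,
      mul_nonneg k3 hE0, mul_nonneg k3 hB0]
  linarith

end Pool.Agent.LB
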