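import Pool.Agent.Lib.MP_69b2e4_nt.LB.G5
import Pool.Agent.Lib.MP_69b2e4_nt.LB.F1

/-! TASK D2. Bounds for `ph1`, `ph2` far to the right. COPY the method of UH/B1.lean. `Y = T^{1/500}`, `Re s = σ ≥ 4`.
`ζ(s) M(s) = ∑_n c(n) n^{-s}`, `c(n) = ∑_{d | n, d ≤ T^{9/20}} μ(d) Pf(log d/L)` (`LSeries` product/convolution, `M = MO 0 T (nC s)` is a finite Dirichlet polynomial), `c(1) = 1`, `c(n) = 0` for `2 ≤ n ≤ Y` (`Pf = 1` on `[0,1/500]`, `∑_{d|n} μ(d) = 0`), `|c(n)| ≤ τ(n) ≤ n`... use `|c(n)| ≤ 2√n` (divisors `d ≤ √n` in pairs). So `‖ph1‖ ≤ ∑_{n>Y} 2 n^{1/2-σ} ≤ 8 Y^{3/2-σ}`: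
 for `σ ≥ 4`: `≤ C Y^{-5/2} = C T^{-1/200}`; for `σ = 5`: `C Y^{-7/2} = C T^{-7/1000}`.
`ζ' M + D = ∑ e(n) n^{-s}`, `e(n) = -∑_{d|n} μ(d) Pf(..) log(n/d) + Λ(n) 1[n ≤ Y] = 0` for `n ≤ Y` (`∑_{d|n} μ(d) log(n/d) = Λ(n)`, `ArithmeticFunction.vonMangoldt`: `moebius_mul_log` or `log_mul_moebius_eq_vonMangoldt`), `|e(n)| ≤ 2√n log n ≤ 8 n^{3/4}` for `n > Y`. So `‖ph2‖ ≤ (1/L) ∑_{n>Y} 8 n^{3/4-σ} ≤ C Y^{7/4-σ}`: for `σ ≥ 4` `≤ C Y^{-9/4} = C T^{-9/2000}`, for `σ = 5` `≤ C Y^{-13/4} = C T^{-13/2000}`. (The zeta derivative is the LSeries of `-log`: `LSeries_deriv`, or termwise differentiation.)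
`-1/250 = -8/2000`, `-3/500 = -12/2000`. -/

set_option autoImplicit false

namespace Pool.Agent.LB

open Complex MeasureTheory Finset Pool.Agent.GH Pool.Agent.UH Pool.Agent.UV
open scoped Real ComplexConjugate

/-- Tail lemma: a Dirichlet series with coefficients `O(n)` and vanishing coefficients up to `Y`. -/
private theorem tail_lem {f : ℕ → ℂ} {A Y σ : ℝ} {s a : ℂ} (hA : 0 ≤ A) (hY : 1 ≤ Y)
    (hσ : s.re = σ) (hσ3 : 3 ≤ σ) (hf : ∀ n : ℕ, n ≠ 0 → ‖f n‖ ≤ A * n)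
    (h0 : ∀ n : ℕ, n ≠ 0 → (n : ℝ) ≤ Y → f n = 0) (hs : LSeriesHasSum f s a) :
    ‖a‖ ≤ 2 * A * Y ^ (2 - σ) := by
  have hY0 : 0 < Y := by linarith
  have hterm : ∀ n : ℕ, ‖LSeries.term f s n‖ ≤
      if ⌊Y⌋₊ < n then A * Y ^ (3 - σ) * ((n : ℝ) ^ 2)⁻¹ else 0 := by
    intro n
    rcases eq_or_ne n 0 with rfl | hn
    · simp
    rw [LSeries.term_of_ne_zero hn]
    split_ifs with h
    · have hnY : Y < n := (Nat.floor_lt hY0.le).mp h
      have hnpos : (0 : ℝ) < n := hY0.trans hnY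
      rw [norm_div, Complex.norm_natCast_cpow_of_pos (Nat.pos_of_ne_zero hn), hσ]
      have h1 : (n : ℝ) ^ σ = (n : ℝ) * ((n : ℝ) ^ (σ - 3) * (n : ℝ) ^ 2) := by
        rw [← Real.rpow_natCast (n : ℝ) 2, ← Real.rpow_add hnpos]
        nth_rewrite 2 [← Real.rpow_one (n : ℝ)]
        rw [← Real.rpow_add hnpos]
        congr 1
        push_cast
        ring
      have h2 : (n : ℝ) ^ (3 - σ) ≤ Y ^ (3 - σ) :=
        Real.rpow_le_rpow_of_nonpos hY0 hnY.le (by linarith)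
      have h3 : (n : ℝ) ^ (3 - σ) = ((n : ℝ) ^ (σ - 3))⁻¹ := by
        rw [← Real.rpow_neg hnpos.le]
        congr 1
        ring
      calc ‖f n‖ / (n : ℝ) ^ σ ≤ (A * n) / (n : ℝ) ^ σ := by
            gcongr
            exact hf n hn
        _ = A * (n : ℝ) ^ (3 - σ) * ((n : ℝ) ^ 2)⁻¹ := by
            rw [h1, h3]
            field_simp
        _ ≤ A * Y ^ (3 - σ) * ((n : ℝ) ^ 2)⁻¹ := by gcongr
    · have hnY : (n : ℝ) ≤ Y := (Nat.le_floor_iff hY0.le).mp (not_lt.mp h)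
      rw [h0 n hn hnY]
      simp
  have hpart : ∀ N : ℕ, ‖∑ n ∈ Finset.range N, LSeries.term f s n‖ ≤ 2 * A * Y ^ (2 - σ) := by
    intro N
    have hsum : ∑ n ∈ Finset.range N, (if ⌊Y⌋₊ < n then A * Y ^ (3 - σ) * ((n : ℝ) ^ 2)⁻¹ else 0)
        = A * Y ^ (3 - σ) * ∑ n ∈ Finset.Ioo ⌊Y⌋₊ N, ((n : ℝ) ^ 2)⁻¹ := by
      rw [← Finset.sum_filter, Finset.mul_sum]
      refine Finset.sum_congr ?_ fun _ _ => rfl
      ext n
      simp only [Finset.mem_filter, Finset.mem_range, Finset.mem_Ioo]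
      tauto
    have h4 : (∑ n ∈ Finset.Ioo ⌊Y⌋₊ N, ((n : ℝ) ^ 2)⁻¹) ≤ 2 / Y := by
      refine (sum_Ioo_inv_sq_le (α := ℝ) ⌊Y⌋₊ N).trans ?_
      have := (Nat.lt_floor_add_one Y).le
      gcongr
    have h5 : Y ^ (3 - σ) * (2 / Y) = 2 * Y ^ (2 - σ) := by
      have : Y ^ (3 - σ) = Y ^ (2 - σ) * Y := by
        rw [← Real.rpow_add_one hY0.ne']
        congr 1
        ring
      rw [this]
      field_simp
    calc ‖∑ n ∈ Finset.range N, LSeries.term f s n‖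
        ≤ ∑ n ∈ Finset.range N, ‖LSeries.term f s n‖ := norm_sum_le _ _
      _ ≤ ∑ n ∈ Finset.range N,
          (if ⌊Y⌋₊ < n then A * Y ^ (3 - σ) * ((n : ℝ) ^ 2)⁻¹ else 0) :=
          Finset.sum_le_sum fun n _ => hterm n
      _ = A * Y ^ (3 - σ) * ∑ n ∈ Finset.Ioo ⌊Y⌋₊ N, ((n : ℝ) ^ 2)⁻¹ := hsum
      _ ≤ A * Y ^ (3 - σ) * (2 / Y) := by
          refine mul_le_mul_of_nonneg_left h4 ?_
          exact mul_nonneg hA (Real.rpow_nonneg hY0.le _)
      _ = 2 * A * Y ^ (2 - σ) := by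
          rw [mul_assoc, h5]
          ring
  exact le_of_tendsto (HasSum.tendsto_sum_nat hs).norm (Filter.Eventually.of_forall hpart)

private noncomputable def gD (T : ℝ) (n : ℕ) : ℂ :=
  if n ∈ Finset.Icc 1 ⌊T ^ (9 / 20 : ℝ)⌋₊ then ((am 0 T n : ℝ) : ℂ) else 0

private theorem gD_hasSum (T : ℝ) (s : ℂ) : LSeriesHasSum (gD T) s (MO 0 T (nC s)) := by
  have e : MO 0 T (nC s) = ∑ n ∈ Finset.Icc 1 ⌊T ^ (9 / 20 : ℝ)⌋₊, LSeries.term (gD T) s n := by
    unfold MO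
    refine Finset.sum_congr rfl fun n hn => ?_
    have hn0 : n ≠ 0 := by
      have := (Finset.mem_Icc.mp hn).1
      omega
    rw [LSeries.term_of_ne_zero hn0, nC_apply s hn0, gD, if_pos hn, Complex.cpow_neg]
    rfl
  rw [e]
  refine hasSum_sum_of_ne_finset_zero fun n hn => ?_
  rcases eq_or_ne n 0 with rfl | hn0
  · simp
  · rw [LSeries.term_of_ne_zero hn0, gD, if_neg hn, zero_div]

private theorem norm_gD_le {T : ℝ} (hT : 1 < T) (n : ℕ) : ‖gD T n‖ ≤ 1 := by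
  unfold gD
  split_ifs with h
  · rw [Complex.norm_real, Real.norm_eq_abs]
    refine am_le hT ?_
    have h1 : (n : ℝ) ≤ T ^ (9 / 20 : ℝ) :=
      (Nat.le_floor_iff (Real.rpow_nonneg (by linarith) _)).mp (Finset.mem_Icc.mp h).2
    refine h1.trans ?_
    calc T ^ (9 / 20 : ℝ) ≤ T ^ (1 : ℝ) :=
          Real.rpow_le_rpow_of_exponent_le hT.le (by norm_num)
      _ = T := Real.rpow_one T
  · simp

private theorem gD_eq {T : ℝ} (hT : 1 < T) {n : ℕ} (hn : n ≠ 0)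
    (hn' : (n : ℝ) ≤ T ^ (1 / 500 : ℝ)) :
    gD T n = ((ArithmeticFunction.moebius n : ℤ) : ℂ) := by
  have hn1 : (1 : ℝ) ≤ n := by exact_mod_cast Nat.one_le_iff_ne_zero.mpr hn
  have hle : (n : ℝ) ≤ T ^ (9 / 20 : ℝ) :=
    hn'.trans (Real.rpow_le_rpow_of_exponent_le hT.le (by norm_num))
  have hmem : n ∈ Finset.Icc 1 ⌊T ^ (9 / 20 : ℝ)⌋₊ := by
    rw [Finset.mem_Icc]
    exact ⟨Nat.one_le_iff_ne_zero.mpr hn, Nat.le_floor hle⟩
  have hlog : Real.log n / Real.log T ≤ 1 / 500 := by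
    rw [div_le_iff₀ (Real.log_pos hT)]
    calc Real.log n ≤ Real.log (T ^ (1 / 500 : ℝ)) := Real.log_le_log (by linarith) hn'
      _ = 1 / 500 * Real.log T := Real.log_rpow (by linarith) _
  rw [gD, if_pos hmem, am, Pf_one hlog]
  simp

private theorem conv_apply (T : ℝ) {n : ℕ} (_ : n ≠ 0) :
    LSeries.convolution 1 (gD T) n = ∑ d ∈ n.divisors, gD T d := by
  rw [LSeries.convolution_def]
  simp only [Pi.one_apply, one_mul]
  exact Nat.sum_divisorsAntidiagonal' (f := fun _ b => gD T b)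

private theorem conv_one {T : ℝ} (hT : 1 < T) : LSeries.convolution 1 (gD T) 1 = 1 := by
  rw [conv_apply T one_ne_zero, Nat.divisors_one, Finset.sum_singleton, gD_eq hT one_ne_zero]
  · simp
  · rw [Nat.cast_one]
    exact Real.one_le_rpow hT.le (by norm_num)

private theorem conv_zero {T : ℝ} (hT : 1 < T) {n : ℕ} (hn : 2 ≤ n)
    (hn' : (n : ℝ) ≤ T ^ (1 / 500 : ℝ)) : LSeries.convolution 1 (gD T) n = 0 := by
  rw [conv_apply T (by omega)]
  have h1 : ∑ d ∈ n.divisors, gD T d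
      = ∑ d ∈ n.divisors, ((ArithmeticFunction.moebius d : ℤ) : ℂ) := by
    refine Finset.sum_congr rfl fun d hd => ?_
    have hdn := Nat.mem_divisors.mp hd
    have hd0 : d ≠ 0 := by
      rintro rfl
      exact hdn.2 (Nat.eq_zero_of_zero_dvd hdn.1)
    have hle : (d : ℝ) ≤ n := by exact_mod_cast Nat.le_of_dvd (by omega) hdn.1
    exact gD_eq hT hd0 (hle.trans hn')
  have h2 : ∑ d ∈ n.divisors, ArithmeticFunction.moebius d = 0 := by
    have h3 := ArithmeticFunction.coe_mul_zeta_apply (f := ArithmeticFunction.moebius) (x := n)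
    rw [ArithmeticFunction.moebius_mul_coe_zeta, ArithmeticFunction.one_apply_ne (by omega)] at h3
    exact h3.symm
  rw [h1, ← Int.cast_sum, h2, Int.cast_zero]

private theorem norm_conv_le {T : ℝ} (hT : 1 < T) {n : ℕ} (hn : n ≠ 0) :
    ‖LSeries.convolution 1 (gD T) n‖ ≤ n := by
  rw [conv_apply T hn]
  calc ‖∑ d ∈ n.divisors, gD T d‖ ≤ ∑ d ∈ n.divisors, ‖gD T d‖ := norm_sum_le _ _
    _ ≤ ∑ d ∈ n.divisors, (1 : ℝ) := Finset.sum_le_sum fun d _ => norm_gD_le hT d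
    _ = (n.divisors.card : ℝ) := by simp
    _ ≤ n := by exact_mod_cast Nat.card_divisors_le_self n

/-- `ph1` far to the right. -/
private theorem ph1_bound {T : ℝ} (hT : 1 < T) {s : ℂ} (hs : 3 ≤ s.re) :
    ‖ph1 T s‖ ≤ 4 * (T ^ (1 / 500 : ℝ)) ^ (2 - s.re) := by
  have hY : 1 ≤ T ^ (1 / 500 : ℝ) := Real.one_le_rpow hT.le (by norm_num)
  have hz : LSeriesHasSum 1 s (riemannZeta s) := LSeriesHasSum_one (by linarith)
  have hc : LSeriesHasSum (LSeries.convolution 1 (gD T)) s (riemannZeta s * MO 0 T (nC s)) :=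
    hz.convolution (gD_hasSum T s)
  have hd : LSeriesHasSum LSeries.delta s 1 := by
    have e : LSeries.term LSeries.delta s = fun n => if n = 1 then (1 : ℂ) else 0 := by
      funext n
      exact LSeries.term_delta s n
    unfold LSeriesHasSum
    rw [e]
    exact hasSum_ite_eq 1 1
  have hsub : LSeriesHasSum (LSeries.convolution 1 (gD T) - LSeries.delta) s (ph1 T s) :=
    hc.sub hd
  have hb := tail_lem (A := 2) (by norm_num) hY rfl hs (f := LSeries.convolution 1 (gD T) -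
    LSeries.delta) ?_ ?_ hsub
  · refine hb.trans (le_of_eq ?_)
    norm_num
  · intro n hn
    have hn1 : (1 : ℝ) ≤ n := by exact_mod_cast Nat.one_le_iff_ne_zero.mpr hn
    rw [Pi.sub_apply]
    refine (norm_sub_le _ _).trans ?_
    have h1 := norm_conv_le hT hn
    have h2 : ‖LSeries.delta n‖ ≤ 1 := by
      unfold LSeries.delta
      split_ifs <;> simp
    linarith
  · intro n hn hnY
    rw [Pi.sub_apply]
    rcases eq_or_ne n 1 with rfl | hn1
    · rw [conv_one hT]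
      simp [LSeries.delta]
    · rw [conv_zero hT (by omega) hnY]
      simp [LSeries.delta, hn1]

/-! ### The second function -/

private noncomputable def gL (T : ℝ) (n : ℕ) : ℂ :=
  if n ∈ Finset.Icc 1 ⌊T ^ (1 / 500 : ℝ)⌋₊ then (ArithmeticFunction.vonMangoldt n : ℂ) else 0

private theorem gL_hasSum (T : ℝ) (s : ℂ) : LSeriesHasSum (gL T) s (DD T (nC s)) := by
  have e : DD T (nC s) = ∑ n ∈ Finset.Icc 1 ⌊T ^ (1 / 500 : ℝ)⌋₊, LSeries.term (gL T) s n := by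
    unfold DD
    refine Finset.sum_congr rfl fun n hn => ?_
    have hn0 : n ≠ 0 := by
      have := (Finset.mem_Icc.mp hn).1
      omega
    rw [LSeries.term_of_ne_zero hn0, nC_apply s hn0, gL, if_pos hn, Complex.cpow_neg]
    rfl
  rw [e]
  refine hasSum_sum_of_ne_finset_zero fun n hn => ?_
  rcases eq_or_ne n 0 with rfl | hn0
  · simp
  · rw [LSeries.term_of_ne_zero hn0, gL, if_neg hn, zero_div]

private theorem log_le_two_sqrt (n : ℕ) : Real.log n ≤ 2 * Real.sqrt n := by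
  rcases Nat.eq_zero_or_pos n with rfl | hn
  · simp
  have hn0 : (0 : ℝ) < n := by exact_mod_cast hn
  have hs : 0 < Real.sqrt n := Real.sqrt_pos.mpr hn0
  have h1 : Real.log n = 2 * Real.log (Real.sqrt n) := by
    rw [Real.log_sqrt hn0.le]
    ring
  have h2 := Real.log_le_sub_one_of_pos hs
  linarith

private theorem sum_inv_sqrt (n : ℕ) :
    ∑ d ∈ Finset.Icc 1 n, (Real.sqrt d)⁻¹ ≤ 2 * Real.sqrt n := by
  induction n with
  | zero => simp
  | succ n ih =>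
    rw [Finset.sum_Icc_succ_top (by omega)]
    have h1 : (0 : ℝ) ≤ n := Nat.cast_nonneg n
    have ha : 0 ≤ Real.sqrt n := Real.sqrt_nonneg _
    have hb : 0 < Real.sqrt ((n + 1 : ℕ) : ℝ) := Real.sqrt_pos.mpr (by positivity)
    have ha2 : Real.sqrt n ^ 2 = n := Real.sq_sqrt h1
    have hb2 : Real.sqrt ((n + 1 : ℕ) : ℝ) ^ 2 = n + 1 := by
      rw [Real.sq_sqrt (by positivity)]
      push_cast
      ring
    have h3 : (Real.sqrt ((n + 1 : ℕ) : ℝ))⁻¹ ≤
        2 * Real.sqrt ((n + 1 : ℕ) : ℝ) - 2 * Real.sqrt n := by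
      rw [inv_le_iff_one_le_mul₀ hb]
      nlinarith [sq_nonneg (Real.sqrt ((n + 1 : ℕ) : ℝ) - Real.sqrt n)]
    linarith

private theorem sum_log_le {n : ℕ} (hn : n ≠ 0) :
    ∑ x ∈ n.divisorsAntidiagonal, Real.log x.1 ≤ 4 * n := by
  have hn0 : (0 : ℝ) < n := by exact_mod_cast Nat.pos_of_ne_zero hn
  have h1 : ∀ x ∈ n.divisorsAntidiagonal,
      Real.log x.1 ≤ 2 * Real.sqrt n * (Real.sqrt x.2)⁻¹ := by
    intro x hx
    obtain ⟨hx1, _⟩ := Nat.mem_divisorsAntidiagonal.mp hx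
    have hx2 : x.2 ≠ 0 := by
      intro h
      rw [h, mul_zero] at hx1
      exact hn hx1.symm
    have hx2' : (0 : ℝ) < x.2 := by exact_mod_cast Nat.pos_of_ne_zero hx2
    have h2 : Real.sqrt n = Real.sqrt x.1 * Real.sqrt x.2 := by
      rw [← Real.sqrt_mul (Nat.cast_nonneg _), ← Nat.cast_mul, hx1]
    have h3 : 0 < Real.sqrt x.2 := Real.sqrt_pos.mpr hx2'
    rw [h2]
    refine (log_le_two_sqrt x.1).trans (le_of_eq ?_)
    field_simp
  calc ∑ x ∈ n.divisorsAntidiagonal, Real.log x.1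
      ≤ ∑ x ∈ n.divisorsAntidiagonal, 2 * Real.sqrt n * (Real.sqrt x.2)⁻¹ :=
        Finset.sum_le_sum h1
    _ = ∑ d ∈ n.divisors, 2 * Real.sqrt n * (Real.sqrt d)⁻¹ :=
        Nat.sum_divisorsAntidiagonal' (f := fun _ b => 2 * Real.sqrt n * (Real.sqrt b)⁻¹)
    _ = 2 * Real.sqrt n * ∑ d ∈ n.divisors, (Real.sqrt d)⁻¹ := by rw [Finset.mul_sum]
    _ ≤ 2 * Real.sqrt n * ∑ d ∈ Finset.Icc 1 n, (Real.sqrt d)⁻¹ := by
        refine mul_le_mul_of_nonneg_left ?_ (by positivity)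
        refine Finset.sum_le_sum_of_subset_of_nonneg ?_ fun _ _ _ => by positivity
        intro d hd
        have hdn := Nat.mem_divisors.mp hd
        rw [Finset.mem_Icc]
        exact ⟨Nat.pos_of_mem_divisors hd, Nat.le_of_dvd (Nat.pos_of_ne_zero hn) hdn.1⟩
    _ ≤ 2 * Real.sqrt n * (2 * Real.sqrt n) :=
        mul_le_mul_of_nonneg_left (sum_inv_sqrt n) (by positivity)
    _ = 4 * n := by
        have := Real.mul_self_sqrt hn0.le
        nlinarith

private theorem conv2_apply (T : ℝ) (n : ℕ) :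
    LSeries.convolution (LSeries.logMul 1) (gD T) n =
      ∑ x ∈ n.divisorsAntidiagonal, (Real.log x.1 : ℂ) * gD T x.2 := by
  rw [LSeries.convolution_def]
  refine Finset.sum_congr rfl fun x _ => ?_
  simp [LSeries.logMul, Complex.natCast_log]

private theorem norm_conv2_le {T : ℝ} (hT : 1 < T) {n : ℕ} (hn : n ≠ 0) :
    ‖LSeries.convolution (LSeries.logMul 1) (gD T) n‖ ≤ 4 * n := by
  rw [conv2_apply]
  calc ‖∑ x ∈ n.divisorsAntidiagonal, (Real.log x.1 : ℂ) * gD T x.2‖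
      ≤ ∑ x ∈ n.divisorsAntidiagonal, ‖(Real.log x.1 : ℂ) * gD T x.2‖ := norm_sum_le _ _
    _ ≤ ∑ x ∈ n.divisorsAntidiagonal, Real.log x.1 := by
        refine Finset.sum_le_sum fun x _ => ?_
        rw [norm_mul, Complex.norm_real, Real.norm_of_nonneg (Real.log_natCast_nonneg _)]
        have := norm_gD_le hT x.2
        have h2 := Real.log_natCast_nonneg x.1
        nlinarith
    _ ≤ 4 * n := sum_log_le hn

private theorem conv2_eq {T : ℝ} (hT : 1 < T) {n : ℕ} (hn : n ≠ 0)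
    (hn' : (n : ℝ) ≤ T ^ (1 / 500 : ℝ)) :
    LSeries.convolution (LSeries.logMul 1) (gD T) n = (ArithmeticFunction.vonMangoldt n : ℂ) := by
  rw [conv2_apply]
  have h1 : ∑ x ∈ n.divisorsAntidiagonal, (Real.log x.1 : ℂ) * gD T x.2
      = ∑ x ∈ n.divisorsAntidiagonal,
        (Real.log x.1 : ℂ) * ((ArithmeticFunction.moebius x.2 : ℤ) : ℂ) := by
    refine Finset.sum_congr rfl fun x hx => ?_
    obtain ⟨hx1, _⟩ := Nat.mem_divisorsAntidiagonal.mp hx
    have hx2 : x.2 ≠ 0 := by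
      intro h
      rw [h, mul_zero] at hx1
      exact hn hx1.symm
    have hx3 : x.2 ≤ n := Nat.le_of_dvd (Nat.pos_of_ne_zero hn) ⟨x.1, by rw [← hx1, mul_comm]⟩
    have hx4 : (x.2 : ℝ) ≤ n := by exact_mod_cast hx3
    rw [gD_eq hT hx2 (hx4.trans hn')]
  rw [h1, ← ArithmeticFunction.log_mul_moebius_eq_vonMangoldt, ArithmeticFunction.mul_apply]
  push_cast
  refine Finset.sum_congr rfl fun x _ => ?_
  simp [ArithmeticFunction.log_apply]

private theorem deriv_hasSum {s : ℂ} (hs : 1 < s.re) :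
    LSeriesHasSum (LSeries.logMul 1) s (-deriv riemannZeta s) := by
  have hab : LSeries.abscissaOfAbsConv 1 < s.re := by
    rw [LSeries.abscissaOfAbsConv_one]
    exact_mod_cast hs
  have h1 : deriv (LSeries 1) s = deriv riemannZeta s := by
    refine Filter.EventuallyEq.deriv_eq <| Filter.eventuallyEq_iff_exists_mem.mpr ?_
    exact ⟨{z | 1 < z.re}, (isOpen_lt continuous_const continuous_re).mem_nhds hs,
      fun _ ↦ LSeries_one_eq_riemannZeta⟩
  have h2 : -deriv riemannZeta s = LSeries (LSeries.logMul 1) s := by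
    rw [← h1, LSeries_deriv hab, neg_neg]
  rw [h2]
  exact (LSeriesSummable_logMul_of_lt_re hab).LSeriesHasSum

/-- `ph2` far to the right. -/
private theorem ph2_bound {T : ℝ} (hT : Real.exp 1000 ≤ T) {s : ℂ} (hs : 3 ≤ s.re) :
    ‖ph2 T s‖ ≤ 12 * (T ^ (1 / 500 : ℝ)) ^ (2 - s.re) := by
  have hT1 : 1 < T := by
    have : (1 : ℝ) < Real.exp 1000 := Real.one_lt_exp_iff.mpr (by norm_num)
    linarith
  have hL : 1 ≤ Real.log T := by
    have := Real.log_le_log (Real.exp_pos 1000) hT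
    rw [Real.log_exp] at this
    linarith
  have hY : 1 ≤ T ^ (1 / 500 : ℝ) := Real.one_le_rpow hT1.le (by norm_num)
  have hc : LSeriesHasSum (LSeries.convolution (LSeries.logMul 1) (gD T)) s
      (-deriv riemannZeta s * MO 0 T (nC s)) :=
    (deriv_hasSum (by linarith)).convolution (gD_hasSum T s)
  have hsub : LSeriesHasSum (gL T - LSeries.convolution (LSeries.logMul 1) (gD T)) s
      (DD T (nC s) - -deriv riemannZeta s * MO 0 T (nC s)) :=
    (gL_hasSum T s).sub hc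
  have hb := tail_lem (A := 6) (by norm_num) hY rfl hs
    (f := gL T - LSeries.convolution (LSeries.logMul 1) (gD T)) ?_ ?_ hsub
  · have e : ph2 T s = (DD T (nC s) - -deriv riemannZeta s * MO 0 T (nC s)) /
        (Real.log T : ℝ) := by
      unfold ph2
      congr 1
      ring
    rw [e, norm_div, Complex.norm_real, Real.norm_of_nonneg (by linarith)]
    refine (div_le_self (norm_nonneg _) hL).trans (hb.trans (le_of_eq ?_))
    norm_num
  · intro n hn
    have hn1 : (1 : ℝ) ≤ n := by exact_mod_cast Nat.one_le_iff_ne_zero.mpr hn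
    rw [Pi.sub_apply]
    refine (norm_sub_le _ _).trans ?_
    have h1 := norm_conv2_le hT1 hn
    have h2 : ‖gL T n‖ ≤ 2 * n := by
      unfold gL
      split_ifs
      · rw [Complex.norm_real, Real.norm_of_nonneg ArithmeticFunction.vonMangoldt_nonneg]
        refine ArithmeticFunction.vonMangoldt_le_log.trans ((log_le_two_sqrt n).trans ?_)
        have : Real.sqrt n ≤ n := Real.sqrt_le_iff.mpr ⟨by linarith, by nlinarith⟩
        linarith
      · rw [norm_zero]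
        linarith
    linarith
  · intro n hn hnY
    rw [Pi.sub_apply, conv2_eq hT1 hn hnY, gL, if_pos, sub_self]
    rw [Finset.mem_Icc]
    exact ⟨Nat.one_le_iff_ne_zero.mpr hn, Nat.le_floor hnY⟩

theorem ph_far : ∃ C : ℝ, 1 ≤ C ∧ ∀ (T : ℝ) (s : ℂ), Real.exp 1000 ≤ T → 4 ≤ s.re →
    ‖ph1 T s‖ ≤ C * T ^ (-(1 / 250) : ℝ) ∧ ‖ph2 T s‖ ≤ C * T ^ (-(1 / 250) : ℝ) := by
  refine ⟨12, by norm_num, fun T s hT hs => ?_⟩
  have hT1 : 1 < T := by
    have : (1 : ℝ) < Real.exp 1000 := Real.one_lt_exp_iff.mpr (by norm_num)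
    linarith
  have h : (T ^ (1 / 500 : ℝ)) ^ (2 - s.re) ≤ T ^ (-(1 / 250) : ℝ) := by
    rw [← Real.rpow_mul (by linarith)]
    exact Real.rpow_le_rpow_of_exponent_le hT1.le (by linarith)
  have h0 : 0 ≤ (T ^ (1 / 500 : ℝ)) ^ (2 - s.re) := by positivity
  have h1 := ph1_bound hT1 (s := s) (by linarith)
  have h2 := ph2_bound hT (s := s) (by linarith)
  constructor <;> linarith

theorem ph_five : ∃ C : ℝ, 1 ≤ C ∧ ∀ (T : ℝ) (s : ℂ), Real.exp 1000 ≤ T → s.re = 5 →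
    ‖ph1 T s‖ ≤ C * T ^ (-(3 / 500) : ℝ) ∧ ‖ph2 T s‖ ≤ C * T ^ (-(3 / 500) : ℝ) := by
  refine ⟨12, by norm_num, fun T s hT hs => ?_⟩
  have hT1 : 1 < T := by
    have : (1 : ℝ) < Real.exp 1000 := Real.one_lt_exp_iff.mpr (by norm_num)
    linarith
  have h : (T ^ (1 / 500 : ℝ)) ^ (2 - s.re) ≤ T ^ (-(3 / 500) : ℝ) := by
    rw [← Real.rpow_mul (by linarith)]
    exact Real.rpow_le_rpow_of_exponent_le hT1.le (by linarith)
  have h0 : 0 ≤ (T ^ (1 / 500 : ℝ)) ^ (2 - s.re) := by positivity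
  have h1 := ph1_bound hT1 (s := s) (by linarith)
  have h2 := ph2_bound hT (s := s) (by linarith)
  constructor <;> linarith

end Pool.Agent.LB
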