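import Pool.Agent.Lib.MP_69b2e4_nt.LB.G2
import Pool.Agent.Lib.MP_69b2e4_nt.LB.F1
import Pool.Agent.Lib.MP_69b2e4_nt.Mg.G038
import Pool.Agent.Lib.MP_69b2e4_nt.UH.B2

/-! TASK G5. Zeta, `VV`, `fL`. For `Im s ≠ 0`: `riemannZeta s = completedRiemannZeta s / Gammaℝ s` (`riemannZeta_def_of_ne_zero`), so `Λ = Gammaℝ ζ`, `Λ' = Gammaℝ' ζ + Gammaℝ ζ'` and `fL = 2 Gammaℝ VV`. `VV` is analytic for `Im s ≠ 0`.
`Lam_real`: `completedRiemannZeta (conj s) = conj (completedRiemannZeta s)` and `completedRiemannZeta_one_sub`, so it is real on the line, and its derivative in direction `i` is real: `Λ'(1/2+it)` is purely imaginary.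
`ph1`, `ph2` are analytic for `Im s ≠ 0`; `MO`, `DD` are finite Dirichlet polynomials, hence entire (`χ n = n^{-s}`, `nC_apply`).
`zeta_grow`: for `1/4 ≤ Re s ≤ 6`, `Im s ≥ 1/2`: `‖ζ(s)‖ ≤ C (Im s)^2`-like crude bound: from UH/B2 (`‖(s-1)ζ(s)/(s+1)‖ ≤ C(1+|Im s|)`-type bounds for `Re s ≥ 1/2`), `zeta_growth`, `zeta_left` (UH/G2, `0 ≤ σ ≤ 1/2`), and `‖ζ‖ ≤ 2` for `Re s ≥ 2` (`norm_zeta_le_two`, UH/B1). `ζ'`: Cauchy estimate on the radius `1/8` (`1/4 ≤ Re s` becomes `1/8 ≤ Re`).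
`MO_growth`: `‖MO 0 T (nC s)‖ ≤ ∑_{n ≤ T^{9/20}} 1 ≤ T` for `Re s ≥ 0`; `‖DD‖ ≤ ∑_{n≤T^{1/500}} log n ≤ T`. -/

set_option autoImplicit false

namespace Pool.Agent.LB

open Complex MeasureTheory Finset Pool.Agent.GH Pool.Agent.UH Pool.Agent.UV
open scoped Real ComplexConjugate

private theorem G5_ne1 {s : ℂ} (hs : s.im ≠ 0) : s ≠ 1 := by
  rintro rfl
  simp at hs

private theorem G5_ne0 {s : ℂ} (hs : s.im ≠ 0) : s ≠ 0 := by
  rintro rfl
  simp at hs

private theorem G5_zan {s : ℂ} (hs : s ≠ 1) : AnalyticAt ℂ riemannZeta s :=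
  (DifferentiableOn.analyticOnNhd differentiableOn_riemannZeta isOpen_compl_singleton) s hs

private theorem G5_eq {s : ℂ} (hs : s.im ≠ 0) :
    completedRiemannZeta s = Gammaℝ s * riemannZeta s := by
  rw [riemannZeta_def_of_ne_zero (G5_ne0 hs), mul_div_cancel₀ _ (GR_ne hs)]

theorem fL_eq (T : ℝ) {s : ℂ} (hs : s.im ≠ 0) : fL T s = 2 * Gammaℝ s * VV T s := by
  have hopen : IsOpen {z : ℂ | z.im ≠ 0} := isOpen_ne_fun Complex.continuous_im continuous_const
  have hev : completedRiemannZeta =ᶠ[nhds s] fun z => Gammaℝ z * riemannZeta z := by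
    filter_upwards [hopen.mem_nhds hs] with z hz
    exact G5_eq hz
  have h1 : HasDerivAt Gammaℝ (deriv Gammaℝ s) s := (GR_an hs).differentiableAt.hasDerivAt
  have h2 : HasDerivAt riemannZeta (deriv riemannZeta s) s :=
    (differentiableAt_riemannZeta (G5_ne1 hs)).hasDerivAt
  have h3 := (h1.mul h2).deriv
  have h4 : deriv completedRiemannZeta s =
      deriv Gammaℝ s * riemannZeta s + Gammaℝ s * deriv riemannZeta s := by
    rw [hev.deriv_eq]
    exact h3
  have hg := GR_ne hs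
  unfold fL VV psiR
  rw [G5_eq hs, h4, logDeriv_apply]
  push_cast
  field_simp
  ring

theorem VV_an (T : ℝ) {s : ℂ} (hs : s.im ≠ 0) : AnalyticAt ℂ (VV T) s := by
  have h1 := G5_zan (G5_ne1 hs)
  have h2 := h1.deriv
  have h3 := psiR_an hs
  unfold VV
  simp only [div_eq_mul_inv]
  exact (h1.mul (analyticAt_const.add (h3.mul analyticAt_const))).add (h2.mul analyticAt_const)

theorem VV_zero (T : ℝ) {s : ℂ} (hs : riemannZeta s = 0) :
    VV T s = deriv riemannZeta s / (Real.log T : ℝ) := by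
  rw [VV, hs, zero_mul, zero_add]

theorem Lam_real (t : ℝ) : (completedRiemannZeta (1 / 2 + t * I)).im = 0 ∧
    (deriv completedRiemannZeta (1 / 2 + t * I)).re = 0 := by
  have hG : ∀ z : ℂ, Gammaℝ (conj z) = conj (Gammaℝ z) := by
    intro z
    have e1 : -conj z / 2 = conj (-z / 2) := by rw [map_div₀, map_neg, map_ofNat]
    have e2 : conj z / 2 = conj (z / 2) := by rw [map_div₀, map_ofNat]
    have h3 : ((π : ℝ) : ℂ).arg ≠ π := by
      rw [Complex.arg_ofReal_of_nonneg Real.pi_pos.le]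
      exact Real.pi_pos.ne
    rw [Gammaℝ_def, Gammaℝ_def, e1, e2, Complex.cpow_conj _ _ h3, Complex.Gamma_conj, map_mul,
      Complex.conj_ofReal]
  have hL : ∀ z : ℂ, 0 < z.re → completedRiemannZeta z = Gammaℝ z * riemannZeta z := by
    intro z hz
    have hz0 : z ≠ 0 := by
      rintro rfl
      simp at hz
    rw [riemannZeta_def_of_ne_zero hz0, mul_div_cancel₀ _ (Gammaℝ_ne_zero_of_re_pos hz)]
  have hreal : ∀ τ : ℝ, (completedRiemannZeta (1 / 2 + τ * I)).im = 0 := by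
    intro τ
    have hre : 0 < ((1 / 2 : ℂ) + τ * I).re := by simp
    have h1 : (1 : ℂ) - (1 / 2 + τ * I) = conj (1 / 2 + τ * I) := by
      rw [map_add, map_mul, Complex.conj_ofReal, Complex.conj_I]
      have : conj (1 / 2 : ℂ) = 1 / 2 := by
        rw [map_div₀, map_one, map_ofNat]
      rw [this]
      ring
    have h2 := completedRiemannZeta_one_sub (1 / 2 + τ * I)
    rw [h1, hL _ (by rw [Complex.conj_re]; exact hre), hG, riemannZeta_conj, ← map_mul,
      ← hL _ hre] at h2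
    exact Complex.conj_eq_iff_im.1 h2
  refine ⟨hreal t, ?_⟩
  have hs0 : (1 / 2 : ℂ) + t * I ≠ 0 := by
    intro h
    have := congrArg Complex.re h
    simp at this
  have hs1 : (1 / 2 : ℂ) + t * I ≠ 1 := by
    intro h
    have := congrArg Complex.re h
    simp at this
  have h1 := (differentiableAt_completedZeta hs0 hs1).hasDerivAt
  have h2 : HasDerivAt (fun τ : ℝ => (1 / 2 : ℂ) + τ * I) I t := by
    have h3 : HasDerivAt (fun τ : ℝ => (τ : ℂ)) 1 t := Complex.ofRealCLM.hasDerivAt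
    have h4 := (h3.mul_const I).const_add (1 / 2 : ℂ)
    rwa [one_mul] at h4
  have h3 := HasDerivAt.comp t h1 h2
  have h4 := Complex.imCLM.hasFDerivAt.comp_hasDerivAt t h3
  have h5 : (Complex.imCLM ∘ (completedRiemannZeta ∘ fun τ : ℝ => (1 / 2 : ℂ) + τ * I)) =
      fun _ => (0 : ℝ) := by
    funext τ
    exact hreal τ
  rw [h5] at h4
  have h6 := h4.unique (hasDerivAt_const t (0 : ℝ))
  simpa using h6

theorem MO_an (i : ℕ) (T : ℝ) : Differentiable ℂ (fun s => MO i T (nC s)) := by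
  unfold MO
  refine Differentiable.fun_sum fun n hn => ?_
  have hn0 : n ≠ 0 := by
    have := (Finset.mem_Icc.1 hn).1
    omega
  have hnc : (n : ℂ) ≠ 0 := by exact_mod_cast hn0
  simp only [nC_apply _ hn0]
  refine Differentiable.const_mul ?_ _
  intro s
  exact (differentiableAt_id.neg).const_cpow (Or.inl hnc)

private theorem G5_DD (T : ℝ) : Differentiable ℂ (fun s => DD T (nC s)) := by
  unfold DD
  refine Differentiable.fun_sum fun n hn => ?_
  have hn0 : n ≠ 0 := by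
    have := (Finset.mem_Icc.1 hn).1
    omega
  have hnc : (n : ℂ) ≠ 0 := by exact_mod_cast hn0
  simp only [nC_apply _ hn0]
  refine Differentiable.const_mul ?_ _
  intro s
  exact (differentiableAt_id.neg).const_cpow (Or.inl hnc)

theorem ph_an (T : ℝ) {s : ℂ} (hs : s ≠ 1) : DifferentiableAt ℂ (ph1 T) s ∧
    DifferentiableAt ℂ (ph2 T) s := by
  have h1 := (G5_zan hs).differentiableAt
  have h2 := (G5_zan hs).deriv.differentiableAt
  have h3 := (MO_an 0 T) s
  have h4 := (G5_DD T) s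
  constructor
  · exact (h1.mul h3).sub_const 1
  · exact ((h2.mul h3).add h4).div_const _

private theorem G5_growth : ∃ C : ℝ, 1 ≤ C ∧ ∀ s : ℂ, 0 ≤ s.re → s.re ≤ 7 → 1 / 2 ≤ s.im →
    ‖riemannZeta s‖ ≤ C * (1 + s.im) := by
  obtain ⟨C1, hC1, hg⟩ := zeta_growth
  obtain ⟨C3, hC3, hl⟩ := zeta_left
  have hK : IsCompact (Set.Icc (0 : ℝ) 7 ×ℂ Set.Icc (1 / 2 : ℝ) 1) :=
    isCompact_Icc.reProdIm isCompact_Icc
  have hcont : ContinuousOn riemannZeta (Set.Icc (0 : ℝ) 7 ×ℂ Set.Icc (1 / 2 : ℝ) 1) := by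
    intro z hz
    rw [Complex.mem_reProdIm] at hz
    have hz1 : z ≠ 1 := by
      rintro rfl
      have := hz.2.1
      simp at this
      norm_num at this
    exact (differentiableAt_riemannZeta hz1).continuousAt.continuousWithinAt
  obtain ⟨C2, hC2⟩ := hK.exists_bound_of_continuousOn hcont
  obtain ⟨C, hC⟩ : ∃ C : ℝ, C = C1 * C3 + C1 + |C2| + 2 := ⟨_, rfl⟩
  have hC13 : 0 ≤ C1 * C3 := by positivity
  have hC2' : 0 ≤ |C2| := abs_nonneg _
  refine ⟨C, by linarith, ?_⟩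
  intro s h0 h7 him
  have hC0 : 0 ≤ C := by linarith
  by_cases h1 : s.im ≤ 1
  · have h2 := hC2 s (by rw [Complex.mem_reProdIm]; exact ⟨⟨h0, h7⟩, ⟨him, h1⟩⟩)
    have h3 := le_abs_self C2
    nlinarith
  · have him1 : 1 ≤ s.im := by linarith
    have habs : |s.im| = s.im := abs_of_pos (by linarith)
    have hhalf : s.im ^ (1 / 2 : ℝ) ≤ s.im := by
      calc s.im ^ (1 / 2 : ℝ) ≤ s.im ^ (1 : ℝ) :=
            Real.rpow_le_rpow_of_exponent_le him1 (by norm_num)
        _ = s.im := Real.rpow_one _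
    by_cases h2 : 2 ≤ s.re
    · have h3 := norm_zeta_le_two h2
      nlinarith
    · by_cases h3 : 1 / 2 ≤ s.re
      · have h4 := hg s h3 (by linarith) (by rw [habs]; exact him1)
        rw [habs] at h4
        have h5 : C1 * s.im ^ (1 / 2 : ℝ) ≤ C1 * s.im := mul_le_mul_of_nonneg_left hhalf (by linarith)
        have h6 : C1 * s.im ≤ C * s.im := mul_le_mul_of_nonneg_right (by linarith) (by linarith)
        nlinarith
      · have h4 := hl s.re s.im h0 (by linarith) him1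
        rw [Complex.re_add_im] at h4
        have h5 : ((((1 - s.re : ℝ) : ℂ) + s.im * I)).re = 1 - s.re := by simp
        have h6 : ((((1 - s.re : ℝ) : ℂ) + s.im * I)).im = s.im := by simp
        have h7' := hg (((1 - s.re : ℝ) : ℂ) + s.im * I) (by rw [h5]; linarith)
          (by rw [h5]; linarith) (by rw [h6, habs]; exact him1)
        rw [h6, habs] at h7'
        have h8 : s.im ^ (1 / 2 - s.re) * s.im ^ (1 / 2 : ℝ) ≤ s.im := by
          rw [← Real.rpow_add (by linarith)]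
          calc s.im ^ (1 / 2 - s.re + 1 / 2) ≤ s.im ^ (1 : ℝ) :=
                Real.rpow_le_rpow_of_exponent_le him1 (by linarith)
            _ = s.im := Real.rpow_one _
        have h9 : 0 ≤ s.im ^ (1 / 2 - s.re) := Real.rpow_nonneg (by linarith) _
        calc ‖riemannZeta s‖ ≤ C3 * s.im ^ (1 / 2 - s.re) * (C1 * s.im ^ (1 / 2 : ℝ)) :=
              h4.trans (mul_le_mul_of_nonneg_left h7' (by positivity))
          _ = C1 * C3 * (s.im ^ (1 / 2 - s.re) * s.im ^ (1 / 2 : ℝ)) := by ring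
          _ ≤ C1 * C3 * s.im := mul_le_mul_of_nonneg_left h8 hC13
          _ ≤ C * (1 + s.im) := by nlinarith

theorem zeta_grow : ∃ C : ℝ, 1 ≤ C ∧ ∀ s : ℂ, 1 / 4 ≤ s.re → s.re ≤ 6 → 1 ≤ s.im →
    ‖riemannZeta s‖ ≤ C * s.im ^ 2 ∧ ‖deriv riemannZeta s‖ ≤ C * s.im ^ 2 := by
  obtain ⟨C, hC, h⟩ := G5_growth
  refine ⟨32 * C, by linarith, fun s h1 h2 h3 => ?_⟩
  have hsq : s.im ≤ s.im ^ 2 := by nlinarith
  have hone : 1 ≤ s.im ^ 2 := by nlinarith
  constructor
  · refine (h s (by linarith) (by linarith) (by linarith)).trans ?_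
    nlinarith
  · have hne : ∀ z ∈ Metric.closedBall s (1 / 4), z ≠ 1 ∧ 0 ≤ z.re ∧ z.re ≤ 7 ∧
        1 / 2 ≤ z.im ∧ z.im ≤ s.im + 1 / 4 := by
      intro z hz
      rw [mem_closedBall_iff_norm] at hz
      have e1 := (Complex.abs_re_le_norm (z - s)).trans hz
      have e2 := (Complex.abs_im_le_norm (z - s)).trans hz
      rw [Complex.sub_re] at e1
      rw [Complex.sub_im] at e2
      have e3 := abs_le.1 e1
      have e4 := abs_le.1 e2
      have e5 : 1 / 2 ≤ z.im := by linarith [e4.1]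
      refine ⟨?_, by linarith [e3.1], by linarith [e3.2], e5, by linarith [e4.2]⟩
      rintro rfl
      rw [Complex.one_im] at e5
      linarith
    have hd : DiffContOnCl ℂ riemannZeta (Metric.ball s (1 / 4)) := by
      apply DifferentiableOn.diffContOnCl
      rw [closure_ball _ (by norm_num)]
      intro z hz
      exact (differentiableAt_riemannZeta (hne z hz).1).differentiableWithinAt
    have h4 := Complex.norm_deriv_le_of_forall_mem_sphere_norm_le (c := s) (R := 1 / 4)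
      (C := C * (2 + s.im)) (by norm_num) hd (by
        intro z hz
        have h5 := hne z (Metric.sphere_subset_closedBall hz)
        refine (h z h5.2.1 h5.2.2.1 h5.2.2.2.1).trans ?_
        exact mul_le_mul_of_nonneg_left (by linarith [h5.2.2.2.2]) (by linarith))
    refine h4.trans ?_
    rw [div_le_iff₀ (by norm_num)]
    nlinarith

private theorem G5_MO {T : ℝ} (hT : 1 ≤ T) {s : ℂ} (hs : 0 ≤ s.re) :
    ‖MO 0 T (nC s)‖ ≤ T ^ (9 / 20 : ℝ) := by
  have hy0 : 0 ≤ T ^ (9 / 20 : ℝ) := Real.rpow_nonneg (by linarith) _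
  have h1 : ‖MO 0 T (nC s)‖ ≤ ∑ n ∈ Finset.Icc 1 ⌊T ^ (9 / 20 : ℝ)⌋₊, (1 : ℝ) := by
    unfold MO
    refine norm_sum_le_of_le _ fun n hn => ?_
    have hn0 : n ≠ 0 := by
      have := (Finset.mem_Icc.1 hn).1
      omega
    have hn1 : (1 : ℝ) ≤ n := by exact_mod_cast (Finset.mem_Icc.1 hn).1
    rw [norm_mul, norm_nC s hn0]
    have e1 : |((ArithmeticFunction.moebius n : ℤ) : ℝ)| ≤ 1 := by
      exact_mod_cast (ArithmeticFunction.abs_moebius_le_one (n := n))
    have e2 : ‖((am 0 T n : ℝ) : ℂ)‖ ≤ 1 := by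
      rw [Complex.norm_real, Real.norm_eq_abs, am, abs_mul, pow_zero, one_mul]
      have e3 := Pf_mem (Real.log n / Real.log T)
      rw [abs_of_nonneg e3.1]
      have e4 := mul_le_mul e1 e3.2 e3.1 (by norm_num)
      simpa using e4
    have e3 : (n : ℝ) ^ (-s.re) ≤ 1 := Real.rpow_le_one_of_one_le_of_nonpos hn1 (by linarith)
    have e3' : 0 ≤ (n : ℝ) ^ (-s.re) := Real.rpow_nonneg (by linarith) _
    have e4 := mul_le_mul e2 e3 e3' (by norm_num)
    simpa using e4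
  refine h1.trans ?_
  rw [Finset.sum_const, Nat.card_Icc, Nat.add_sub_cancel, nsmul_eq_mul, mul_one]
  exact Nat.floor_le hy0

private theorem G5_DDn {T : ℝ} (hT : 1 ≤ T) {s : ℂ} (hs : 0 ≤ s.re) :
    ‖DD T (nC s)‖ ≤ T ^ (9 / 20 : ℝ) := by
  obtain ⟨Y, hY⟩ : ∃ Y : ℝ, Y = T ^ (1 / 500 : ℝ) := ⟨_, rfl⟩
  have hy0 : 0 ≤ Y := by rw [hY]; exact Real.rpow_nonneg (by linarith) _
  have h1 : ‖DD T (nC s)‖ ≤ ∑ n ∈ Finset.Icc 1 ⌊Y⌋₊, Y := by
    unfold DD
    rw [← hY]
    refine norm_sum_le_of_le _ fun n hn => ?_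
    have hn0 : n ≠ 0 := by
      have := (Finset.mem_Icc.1 hn).1
      omega
    have hn1 : (1 : ℝ) ≤ n := by exact_mod_cast (Finset.mem_Icc.1 hn).1
    have hnY : (n : ℝ) ≤ Y := by
      have h2 : (n : ℝ) ≤ (⌊Y⌋₊ : ℝ) := by exact_mod_cast (Finset.mem_Icc.1 hn).2
      exact h2.trans (Nat.floor_le hy0)
    rw [norm_mul, norm_nC s hn0]
    have e1 : ‖((ArithmeticFunction.vonMangoldt n : ℝ) : ℂ)‖ ≤ Y := by
      rw [Complex.norm_real, Real.norm_of_nonneg ArithmeticFunction.vonMangoldt_nonneg]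
      refine ArithmeticFunction.vonMangoldt_le_log.trans ?_
      have := Real.log_le_sub_one_of_pos (by linarith : (0 : ℝ) < n)
      linarith
    have e3 : (n : ℝ) ^ (-s.re) ≤ 1 := Real.rpow_le_one_of_one_le_of_nonpos hn1 (by linarith)
    have e3' : 0 ≤ (n : ℝ) ^ (-s.re) := Real.rpow_nonneg (by linarith) _
    have e4 := mul_le_mul e1 e3 e3' hy0
    simpa using e4
  refine h1.trans ?_
  rw [Finset.sum_const, Nat.card_Icc, Nat.add_sub_cancel, nsmul_eq_mul]
  calc (⌊Y⌋₊ : ℝ) * Y ≤ Y * Y := mul_le_mul_of_nonneg_right (Nat.floor_le hy0) hy0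
    _ = T ^ (1 / 500 + 1 / 500 : ℝ) := by rw [hY, ← Real.rpow_add (by linarith)]
    _ ≤ T ^ (9 / 20 : ℝ) := Real.rpow_le_rpow_of_exponent_le hT (by norm_num)

theorem ph_grow (η : ℝ) (h0 : 0 < η) (h1 : η ≤ 1) : ∃ T0 : ℝ, ∀ (T : ℝ) (s : ℂ), T0 ≤ T →
    1 / 4 ≤ s.re → s.re ≤ 6 → 1 ≤ s.im → s.im ≤ 2 * T / η →
    ‖ph1 T s‖ ≤ T ^ 4 ∧ ‖ph2 T s‖ ≤ T ^ 4 ∧ ‖riemannZeta s‖ ≤ T ^ 3 := by
  obtain ⟨C, hC, h⟩ := zeta_grow
  obtain ⟨D, hD⟩ : ∃ D : ℝ, D = C * (2 / η) ^ 2 := ⟨_, rfl⟩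
  have hD0 : 0 ≤ D := by rw [hD]; positivity
  refine ⟨max (Real.exp 1) (2 * D + 2), fun T s hT h2 h3 h4 h5 => ?_⟩
  have hTe : Real.exp 1 ≤ T := (le_max_left _ _).trans hT
  have hTD : 2 * D + 2 ≤ T := (le_max_right _ _).trans hT
  have hT1 : 1 ≤ T := by linarith
  have hT2 : 2 ≤ T := by linarith
  have hlog : 1 ≤ Real.log T := by
    rw [Real.le_log_iff_exp_le (by linarith)]
    exact hTe
  obtain ⟨hz, hz'⟩ := h s h2 h3 h4
  have him : C * s.im ^ 2 ≤ D * T ^ 2 := by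
    have h6 : s.im ^ 2 ≤ (2 * T / η) ^ 2 := pow_le_pow_left₀ (by linarith) h5 2
    calc C * s.im ^ 2 ≤ C * (2 * T / η) ^ 2 := mul_le_mul_of_nonneg_left h6 (by linarith)
      _ = D * T ^ 2 := by rw [hD]; ring
  have hM := G5_MO hT1 (s := s) (by linarith)
  have hDD := G5_DDn hT1 (s := s) (by linarith)
  have hP : T ^ (9 / 20 : ℝ) ≤ T := by
    calc T ^ (9 / 20 : ℝ) ≤ T ^ (1 : ℝ) := Real.rpow_le_rpow_of_exponent_le hT1 (by norm_num)
      _ = T := Real.rpow_one T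
  have hM' := hM.trans hP
  have hDD' := hDD.trans hP
  have hT0 : 0 ≤ T := by linarith
  have hzT : ‖riemannZeta s‖ ≤ D * T ^ 2 := hz.trans him
  have hzT' : ‖deriv riemannZeta s‖ ≤ D * T ^ 2 := hz'.trans him
  have hT3 : 0 ≤ T ^ 3 := by positivity
  have hT13 : T ≤ T ^ 3 := by
    have : T * 1 ≤ T * T ^ 2 := mul_le_mul_of_nonneg_left (by nlinarith) hT0
    nlinarith
  have hkey : D * T ^ 3 + T ≤ T ^ 4 := by
    have h7 : (2 * D + 2) * T ^ 3 ≤ T * T ^ 3 := mul_le_mul_of_nonneg_right hTD hT3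
    have h8 : 0 ≤ D * T ^ 3 := by positivity
    nlinarith
  refine ⟨?_, ?_, ?_⟩
  · unfold ph1
    refine (norm_sub_le _ _).trans ?_
    rw [norm_mul, norm_one]
    have h6 : ‖riemannZeta s‖ * ‖MO 0 T (nC s)‖ ≤ D * T ^ 2 * T :=
      mul_le_mul hzT hM' (norm_nonneg _) (by positivity)
    nlinarith
  · unfold ph2
    rw [norm_div, Complex.norm_real, Real.norm_of_nonneg (by linarith)]
    have h6 : ‖deriv riemannZeta s‖ * ‖MO 0 T (nC s)‖ ≤ D * T ^ 2 * T :=
      mul_le_mul hzT' hM' (norm_nonneg _) (by positivity)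
    have h7 : ‖deriv riemannZeta s * MO 0 T (nC s) + DD T (nC s)‖ ≤ T ^ 4 := by
      refine (norm_add_le _ _).trans ?_
      rw [norm_mul]
      nlinarith
    calc ‖deriv riemannZeta s * MO 0 T (nC s) + DD T (nC s)‖ / Real.log T
        ≤ ‖deriv riemannZeta s * MO 0 T (nC s) + DD T (nC s)‖ / 1 :=
          div_le_div_of_nonneg_left (norm_nonneg _) one_pos hlog
      _ ≤ T ^ 4 := by rw [div_one]; exact h7
  · refine hzT.trans ?_
    have h7 : (2 * D + 2) * T ^ 2 ≤ T * T ^ 2 := mul_le_mul_of_nonneg_right hTD (by positivity)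
    have h8 : 0 ≤ D * T ^ 2 := by positivity
    nlinarith

end Pool.Agent.LB
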