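import Pool.Agent.Lib.MP_69b2e4_nt.Mg.G028
import Pool.Agent.Lib.MP_69b2e4_nt.LB.G3
import Pool.Agent.Lib.MP_69b2e4_nt.LB.G5
import Pool.Agent.Lib.MP_69b2e4_nt.Mg.G024
import Pool.Agent.Lib.MP_69b2e4_nt.LB.D2

/-! TASK D3. Deterministic facts. `L = log T`, `x = Re z`, `s = pt T t z = 1/2 + x/L + i(t + Im z/L)`.
`DD_DP`: `DD - DP = ∑_{p^k ≤ T^{1/500}, k ≥ 2} log p p^{-ks}`. `k = 2`: `∑_{p ≤ T^{1/1000}} log p p^{-1} e^{-2x v}`, `v = log p/L`: `≤ e^{2·2v}.. ≤ C L/(3+x)` by `ps_x1` (`e^{-2xv} ≤ e^{-xv}` for `x ≥ 0`, `e^{-2xv} ≤ e^4 ` for `x < 0`, where `∑ log p/p ≤ L + C ≤ ..`; use `ps_x1` with `M = ⌊T⌋₊`). `k ≥ 3`: `∑ log p p^{-k(1/2 - 2/L)} ≤ C` (`1/2 - 2/L ≥ 49/100`: `∑_p log p p^{-1.47}` times a geometric series), and `C ≤ C·30 L/(3+x)`.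
`DD_far`: `∑ Λ(n) n^{-4} ≤ C`.
`gd_x0`: `|x0| ≤ ∑_j ‖P_j‖`; if `R j = ∅` then `P_j = 0`, otherwise `N_j ≥ 2` and `‖P_j‖ ≤ l_j/(8(lam+2)) ≤ l_j log N_j/(16 log 2)`; `TG.len`: `≤ 7θ³L/(16 log 2) ≤ θ³ L`.
`ch_pt`: `ch_le` with `|Im s| ∈ [ηT/2, 2T/η]` (`T ≥ T0(η)`): `‖ch s‖ ≤ e^{C|x|/L} exp(-(x/L) log Im s) ≤ exp(-x + C_η |x|/L)`; for `x ≥ 0` this is `≤ e^{-x/2}` if `L ≥ 2 C_η`, for `-5/2 ≤ x < 0` it is `≤ e^{3}`.
`far_good`: `z.re ≥ 7L/2`, so `Re s ≥ 4`: `Gz = (V M)² + δ² e^{2 x0} ch M²`, `VM - 1 = (1/2+psiR/L) ph1 + (psiR/L - 1/2) + ph2 - DD/L` (definitions), all terms are `→ 0` (`ph_far`, `psiR_pt`, `DD_far`); `‖M‖ ≤ ∑ n^{-4} ≤ 2`, `e^{2|x0|} ≤ T^{2θ³} ≤ T^{1/1000}` (`gd_x0`), `‖ch‖ ≤ C e^{-7L/4}`. -/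

set_option autoImplicit false

namespace Pool.Agent.LB

open Complex MeasureTheory Finset Pool.Agent.GH Pool.Agent.UH Pool.Agent.UV
open scoped Real ComplexConjugate

private lemma D3_Lpos {T : ℝ} (hT : Real.exp 1000 ≤ T) : 1000 ≤ Real.log T := by
  have h0 : 0 < T := (Real.exp_pos _).trans_le hT
  rwa [Real.le_log_iff_exp_le h0]

theorem Fz_sub (S : BS) (t : ℝ) (z : ℂ) : Fz S t z - 1 =
    (1 / 2 + psiR (pt S.T t z) / (Real.log S.T : ℝ)) * ph1 S.T (pt S.T t z) +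
      (psiR (pt S.T t z) / (Real.log S.T : ℝ) - 1 / 2) + ph2 S.T (pt S.T t z) -
      DD S.T (nC (pt S.T t z)) / (Real.log S.T : ℝ) := by
  unfold Fz VV ph1 ph2
  ring

theorem Gz_eq (S : BS) (δ t : ℝ) (z : ℂ) : Gz S δ t z = Fz S t z ^ 2 +
    (δ ^ 2 * Real.exp (2 * x0 S t) : ℝ) * ch (pt S.T t z) * MO 0 S.T (nC (pt S.T t z)) ^ 2 := by
  unfold Gz Vd Fz
  ring

private lemma D3_pt_re {T : ℝ} (t : ℝ) (z : ℂ) : (pt T t z).re = 1 / 2 + z.re / Real.log T := by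
  unfold pt
  have h1 : (z / (Real.log T : ℝ)).re = z.re / Real.log T := by
    rw [Complex.div_ofReal_re]
  rw [Complex.add_re, h1]
  simp

private lemma D3_pt_im {T : ℝ} (t : ℝ) (z : ℂ) : (pt T t z).im = t + z.im / Real.log T := by
  unfold pt
  have h1 : (z / (Real.log T : ℝ)).im = z.im / Real.log T := by
    rw [Complex.div_ofReal_im]
  rw [Complex.add_im, h1]
  simp

theorem DD_far : ∃ C : ℝ, 1 ≤ C ∧ ∀ (T : ℝ) (s : ℂ), 4 ≤ s.re → ‖DD T (nC s)‖ ≤ C := by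
  have hs : Summable (fun n : ℕ => (n : ℝ) ^ (-3 : ℝ)) := Real.summable_nat_rpow.mpr (by norm_num)
  refine ⟨1 + ∑' n : ℕ, (n : ℝ) ^ (-3 : ℝ), ?_, ?_⟩
  · have : 0 ≤ ∑' n : ℕ, (n : ℝ) ^ (-3 : ℝ) := tsum_nonneg fun n => by positivity
    linarith
  intro T s h4
  have h1 : ‖DD T (nC s)‖ ≤ ∑ n ∈ Finset.Icc 1 ⌊T ^ (1 / 500 : ℝ)⌋₊, (n : ℝ) ^ (-3 : ℝ) := by
    unfold DD
    refine (norm_sum_le _ _).trans (Finset.sum_le_sum fun n hn => ?_)
    have hn1 : 1 ≤ n := (Finset.mem_Icc.mp hn).1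
    have hn0 : n ≠ 0 := by omega
    have hn' : (1 : ℝ) ≤ n := by exact_mod_cast hn1
    rw [norm_mul, norm_nC s hn0, Complex.norm_real, Real.norm_of_nonneg ArithmeticFunction.vonMangoldt_nonneg]
    have h2 : ArithmeticFunction.vonMangoldt n ≤ n :=
      ArithmeticFunction.vonMangoldt_le_log.trans ((Real.log_le_sub_one_of_pos (by linarith)).trans (by linarith))
    have h3 : (n : ℝ) ^ (-s.re) ≤ (n : ℝ) ^ (-4 : ℝ) :=
      Real.rpow_le_rpow_of_exponent_le hn' (by linarith)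
    calc ArithmeticFunction.vonMangoldt n * (n : ℝ) ^ (-s.re) ≤ n * (n : ℝ) ^ (-4 : ℝ) :=
          mul_le_mul h2 h3 (by positivity) (by positivity)
      _ = (n : ℝ) ^ (-3 : ℝ) := by
          nth_rewrite 1 [← Real.rpow_one (n : ℝ)]
          rw [← Real.rpow_add (by linarith)]
          norm_num
  have h2 := hs.sum_le_tsum (Finset.Icc 1 ⌊T ^ (1 / 500 : ℝ)⌋₊) (fun n _ => by positivity)
  linarith

theorem gd_x0 {S : BS} {Ct θ D1 : ℝ} {N0 : ℕ} (hS : TG S Ct θ D1 N0) {lam t : ℝ} (h0 : 0 ≤ lam)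
    (hg : Gd S lam t) : |x0 S t| ≤ θ ^ 3 * Real.log S.T := by
  have hL := D3_Lpos hS.T_ge
  have hC := hS.Ct_ge
  have h1 : |x0 S t| ≤ ∑ j ∈ range (S.J + 1), (1 / (16 * Real.log 2)) * ((S.l j : ℝ) * Real.log (S.N j) + Ct) := by
    unfold x0
    refine (Finset.abs_sum_le_sum_abs _ _).trans (Finset.sum_le_sum fun j hj => ?_)
    have hj' : j ≤ S.J := by rw [Finset.mem_range] at hj; omega
    have h2 := (Complex.abs_re_le_norm (PS (S.R j) (nC (1 / 2 + t * I))))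
    have hl2 := Real.log_two_gt_d9
    have hlN : 0 ≤ Real.log (S.N j) := Real.log_nonneg (hS.N_ge j hj')
    have hl0 : (0 : ℝ) ≤ S.l j := Nat.cast_nonneg _
    rcases (S.R j).eq_empty_or_nonempty with he | ⟨p, hp⟩
    · rw [he] at h2 ⊢
      have h3 : PS ∅ (nC (1 / 2 + t * I)) = 0 := by unfold PS; simp
      rw [h3]
      simp only [Complex.zero_re, abs_zero]
      positivity
    · obtain ⟨hpp, hpN⟩ := hS.prime j hj' p hp
      have h3 : Real.log 2 ≤ Real.log (S.N j) := by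
        apply Real.log_le_log (by norm_num)
        have : (2 : ℝ) ≤ p := by exact_mod_cast hpp.two_le
        linarith
      have h4 := hg j hj'
      have h5 : (S.l j : ℝ) / (8 * (lam + 2)) ≤ S.l j / 16 := by
        apply div_le_div_of_nonneg_left hl0 (by norm_num) (by linarith)
      have h6 : (S.l j : ℝ) / 16 ≤ (1 / (16 * Real.log 2)) * ((S.l j : ℝ) * Real.log (S.N j) + Ct) := by
        rw [div_mul_eq_mul_div, one_mul, div_le_div_iff₀ (by norm_num) (by linarith)]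
        nlinarith [mul_le_mul_of_nonneg_left h3 hl0]
      linarith
  rw [← Finset.mul_sum] at h1
  have h2 := hS.len
  have hl2 := Real.log_two_gt_d9
  have h3 : (1 / (16 * Real.log 2)) * (∑ j ∈ range (S.J + 1), ((S.l j : ℝ) * Real.log (S.N j) + Ct)) ≤
      (1 / (16 * Real.log 2)) * (7 * θ ^ 3 * Real.log S.T) :=
    mul_le_mul_of_nonneg_left h2 (by positivity)
  refine h1.trans (h3.trans ?_)
  have h4 : 0 ≤ θ ^ 3 * Real.log S.T := by have := hS.th_pos; positivity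
  have h5 : 7 / (16 * Real.log 2) ≤ 1 := by
    rw [div_le_one (by linarith)]; linarith
  calc (1 / (16 * Real.log 2)) * (7 * θ ^ 3 * Real.log S.T) = 7 / (16 * Real.log 2) * (θ ^ 3 * Real.log S.T) := by ring
    _ ≤ 1 * (θ ^ 3 * Real.log S.T) := mul_le_mul_of_nonneg_right h5 h4
    _ = _ := one_mul _

theorem ch_pt (η : ℝ) (h1 : 0 < η) (h2 : η ≤ 1) : ∃ T0 : ℝ, ∀ (T t : ℝ) (z : ℂ), T0 ≤ T →
    t ∈ Dm η T → -(5 / 2) ≤ z.re → z.re ≤ 15 * Real.log T → |z.im| ≤ Real.log T ^ 2 →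
    ‖ch (pt T t z)‖ ≤ 30 * Real.exp (-(z.re / 2)) := by
  obtain ⟨C, hC0, hC⟩ := ch_le
  have hηl : 0 ≤ Real.log (2 / η) := Real.log_nonneg (by rw [le_div_iff₀ h1]; linarith)
  have hE : ∃ T1 : ℝ, ∀ T : ℝ, T1 ≤ T → Real.log T ≤ η / 2 * T := by
    have h := Real.isLittleO_log_id_atTop.bound (show (0 : ℝ) < η / 2 by positivity)
    rw [Filter.eventually_atTop] at h
    obtain ⟨T1, hT1⟩ := h
    refine ⟨max T1 1, fun T hT => ?_⟩
    have h3 := hT1 T ((le_max_left _ _).trans hT)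
    have h4 : (1 : ℝ) ≤ T := (le_max_right _ _).trans hT
    rw [Real.norm_of_nonneg (Real.log_nonneg h4), id, Real.norm_of_nonneg (by linarith)] at h3
    exact h3
  obtain ⟨T1, hT1⟩ := hE
  refine ⟨max (max T1 (2 / η)) (max (Real.exp 1000) (Real.exp (2 * (C + Real.log (2 / η))))), ?_⟩
  intro T t z hT ht hx1 hx2 hy
  have hTa : T1 ≤ T := (le_max_left _ _).trans ((le_max_left _ _).trans hT)
  have hTb : 2 / η ≤ T := (le_max_right _ _).trans ((le_max_left _ _).trans hT)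
  have hTc : Real.exp 1000 ≤ T := (le_max_left _ _).trans ((le_max_right _ _).trans hT)
  have hTd : Real.exp (2 * (C + Real.log (2 / η))) ≤ T := (le_max_right _ _).trans ((le_max_right _ _).trans hT)
  have hL := D3_Lpos hTc
  have hT0 : 0 < T := (Real.exp_pos _).trans_le hTc
  have hLd : 2 * (C + Real.log (2 / η)) ≤ Real.log T := by
    rwa [Real.le_log_iff_exp_le hT0]
  set L := Real.log T with hLdef
  have hL0 : 0 < L := by linarith
  have hLT := hT1 T hTa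
  have him := D3_pt_im (T := T) t z
  have hre := D3_pt_re (T := T) t z
  rw [← hLdef] at him hre
  have hyL : |z.im / L| ≤ L := by
    rw [abs_div, abs_of_pos hL0, div_le_iff₀ hL0]
    nlinarith
  have hyL' := abs_le.mp hyL
  obtain ⟨ht1, ht2⟩ := ht
  have hlow : η / 2 * T ≤ (pt T t z).im := by
    rw [him]
    linarith [hyL'.1]
  have hup : (pt T t z).im ≤ 2 / η * T := by
    rw [him]
    have h3 : L ≤ T / η := by
      rw [le_div_iff₀ h1]
      have h5 : L ≤ T := by nlinarith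
      nlinarith
    have h4 : 2 / η * T = T / η + T / η := by ring
    linarith [hyL'.2]
  have hone : 1 ≤ (pt T t z).im := by
    refine le_trans ?_ hlow
    rw [div_le_iff₀ h1] at hTb
    linarith
  have hxL1 : z.re / L ≤ 15 := by rw [div_le_iff₀ hL0]; linarith
  have hxL2 : -1 ≤ z.re / L := by rw [le_div_iff₀ hL0]; linarith
  have habs : |(pt T t z).re| ≤ 18 := by
    rw [hre, abs_le]; constructor <;> linarith
  have hmain := hC (pt T t z) habs hone
  have him0 : 0 < (pt T t z).im := by linarith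
  have hexp : (1 / 2 - (pt T t z).re) = -(z.re / L) := by rw [hre]; ring
  have hexp2 : |(pt T t z).re - 1 / 2| = |z.re| / L := by
    rw [hre, show 1 / 2 + z.re / L - 1 / 2 = z.re / L by ring, abs_div, abs_of_pos hL0]
  rw [hexp, hexp2, Real.rpow_def_of_pos him0, ← Real.exp_add] at hmain
  have hlog1 : L - Real.log (2 / η) ≤ Real.log (pt T t z).im := by
    have h3 : Real.log (η / 2 * T) = L - Real.log (2 / η) := by
      rw [Real.log_mul (by positivity) hT0.ne', ← inv_div 2 η, Real.log_inv]; ring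
    rw [← h3]
    exact Real.log_le_log (by positivity) hlow
  have hlog2 : Real.log (pt T t z).im ≤ L + Real.log (2 / η) := by
    have h3 : Real.log (2 / η * T) = L + Real.log (2 / η) := by
      rw [Real.log_mul (by positivity) hT0.ne']; ring
    rw [← h3]
    exact Real.log_le_log him0 hup
  refine hmain.trans ?_
  rcases le_total 0 z.re with hx | hx
  · rw [abs_of_nonneg hx]
    have h3 : C * (z.re / L) + Real.log (pt T t z).im * -(z.re / L) ≤ -(z.re / 2) := by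
      have h5 : 0 ≤ z.re / L := by positivity
      have h4 : C * (z.re / L) + Real.log (pt T t z).im * -(z.re / L) ≤
          (z.re / L) * (C + Real.log (2 / η) - L) := by nlinarith
      have h6 : (z.re / L) * (C + Real.log (2 / η) - L) ≤ (z.re / L) * (-(L / 2)) :=
        mul_le_mul_of_nonneg_left (by linarith) h5
      have h7 : (z.re / L) * (-(L / 2)) = -(z.re / 2) := by field_simp
      linarith
    calc _ ≤ Real.exp (-(z.re / 2)) := Real.exp_le_exp.mpr h3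
      _ ≤ _ := by have := Real.exp_pos (-(z.re / 2)); linarith
  · rw [abs_of_nonpos hx]
    have h3 : C * (-z.re / L) + Real.log (pt T t z).im * -(z.re / L) ≤ 5 / 2 + -(z.re / 2) := by
      have h5 : 0 ≤ -z.re / L := by apply div_nonneg <;> linarith
      have h4 : C * (-z.re / L) + Real.log (pt T t z).im * -(z.re / L) ≤
          (-z.re / L) * (C + Real.log (2 / η) + L) := by
        rw [show -(z.re / L) = -z.re / L by ring]; nlinarith
      have h6 : (-z.re / L) * (C + Real.log (2 / η) + L) ≤ (-z.re / L) * (3 / 2 * L) :=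
        mul_le_mul_of_nonneg_left (by linarith) h5
      have h7 : (-z.re / L) * (3 / 2 * L) = -(3 / 2 * z.re) := by field_simp
      linarith
    calc _ ≤ Real.exp (5 / 2 + -(z.re / 2)) := Real.exp_le_exp.mpr h3
      _ = Real.exp (5 / 2) * Real.exp (-(z.re / 2)) := Real.exp_add _ _
      _ ≤ 30 * Real.exp (-(z.re / 2)) := by
        apply mul_le_mul_of_nonneg_right _ (Real.exp_pos _).le
        have h8 : Real.exp (5 / 2) ≤ Real.exp 3 := Real.exp_le_exp.mpr (by norm_num)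
        have h9 : Real.exp 3 = Real.exp 1 ^ 3 := by rw [← Real.exp_nat_mul]; norm_num
        have h10 := Real.exp_one_lt_d9
        have h11 := Real.exp_pos 1
        have h12 : Real.exp 1 ^ 3 ≤ 2.7182818286 ^ 3 := pow_le_pow_left₀ h11.le h10.le 3
        rw [h9] at h8
        refine h8.trans (h12.trans ?_)
        norm_num

private lemma D3_MO : ∃ C : ℝ, 1 ≤ C ∧ ∀ (T : ℝ) (s : ℂ), Real.exp 1000 ≤ T → 4 ≤ s.re →
    ‖MO 0 T (nC s)‖ ≤ C := by
  have hs : Summable (fun n : ℕ => (n : ℝ) ^ (-4 : ℝ)) := Real.summable_nat_rpow.mpr (by norm_num)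
  refine ⟨1 + ∑' n : ℕ, (n : ℝ) ^ (-4 : ℝ), ?_, ?_⟩
  · have : 0 ≤ ∑' n : ℕ, (n : ℝ) ^ (-4 : ℝ) := tsum_nonneg fun n => by positivity
    linarith
  intro T s hT h4
  have hL := D3_Lpos hT
  have hT1 : 1 < T := lt_of_lt_of_le (by rw [← Real.exp_zero]; exact Real.exp_lt_exp.mpr (by norm_num)) hT
  have h1 : ‖MO 0 T (nC s)‖ ≤ ∑ n ∈ Finset.Icc 1 ⌊T ^ (9 / 20 : ℝ)⌋₊, (n : ℝ) ^ (-4 : ℝ) := by
    unfold MO
    refine (norm_sum_le _ _).trans (Finset.sum_le_sum fun n hn => ?_)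
    obtain ⟨hn1, hn2⟩ := Finset.mem_Icc.mp hn
    have hn0 : n ≠ 0 := by omega
    have hn' : (1 : ℝ) ≤ n := by exact_mod_cast hn1
    have hnT : (n : ℝ) ≤ T := by
      have h5 : (n : ℝ) ≤ T ^ (9 / 20 : ℝ) :=
        (Nat.le_floor_iff (by positivity)).mp hn2
      refine h5.trans ?_
      calc T ^ (9 / 20 : ℝ) ≤ T ^ (1 : ℝ) := Real.rpow_le_rpow_of_exponent_le hT1.le (by norm_num)
        _ = T := Real.rpow_one T
    rw [norm_mul, norm_nC s hn0, Complex.norm_real, Real.norm_eq_abs]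
    have h2 := am_le hT1 (i := 0) hnT
    have h3 : (n : ℝ) ^ (-s.re) ≤ (n : ℝ) ^ (-4 : ℝ) :=
      Real.rpow_le_rpow_of_exponent_le hn' (by linarith)
    calc |am 0 T n| * (n : ℝ) ^ (-s.re) ≤ 1 * (n : ℝ) ^ (-4 : ℝ) :=
          mul_le_mul h2 h3 (by positivity) (by positivity)
      _ = _ := one_mul _
  have h2 := hs.sum_le_tsum (Finset.Icc 1 ⌊T ^ (9 / 20 : ℝ)⌋₊) (fun n _ => by positivity)
  linarith

theorem far_good (lam η : ℝ) (h0 : 0 < lam) (h1 : 0 < η) (h2 : η ≤ 1) : ∃ T0 : ℝ,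
    ∀ {S : BS} {Ct θ D1 : ℝ} {N0 : ℕ}, TG S Ct θ D1 N0 → T0 ≤ S.T → ∀ t ∈ EE S lam η,
    ∀ δ : ℝ, 0 ≤ δ → δ ≤ 1 → ∀ z : ℂ, 7 / 2 * Real.log S.T ≤ z.re → z.re ≤ 15 * Real.log S.T →
    |z.im| ≤ Real.log S.T ^ 2 → ‖Gz S δ t z - 1‖ ≤ 1 / 2 := by
  obtain ⟨C1, Ta, hC1, hpsi⟩ := psiR_pt η h1 h2
  obtain ⟨Tb, hch⟩ := ch_pt η h1 h2
  obtain ⟨C2, hC2, hph⟩ := ph_far
  obtain ⟨C3, hC3, hDD⟩ := DD_far
  obtain ⟨C4, hC4, hMO⟩ := D3_MO
  have hlim1 : Filter.Tendsto (fun T : ℝ => 3 * (C2 * T ^ (-(1 / 250) : ℝ)) + (C1 + C3) / Real.log T)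
      Filter.atTop (nhds (3 * (C2 * 0) + 0)) := by
    apply Filter.Tendsto.add
    · apply Filter.Tendsto.const_mul
      apply Filter.Tendsto.const_mul
      exact tendsto_rpow_neg_atTop (by norm_num)
    · exact Filter.Tendsto.div_atTop tendsto_const_nhds Real.tendsto_log_atTop
  have hlim2 : Filter.Tendsto (fun T : ℝ => 30 * C4 ^ 2 / T) Filter.atTop (nhds 0) :=
    Filter.Tendsto.div_atTop tendsto_const_nhds Filter.tendsto_id
  have he1 : ∀ᶠ T : ℝ in Filter.atTop, 3 * (C2 * T ^ (-(1 / 250) : ℝ)) + (C1 + C3) / Real.log T < 1 / 10 :=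
    hlim1.eventually_lt_const (by norm_num)
  have he2 : ∀ᶠ T : ℝ in Filter.atTop, 30 * C4 ^ 2 / T < 1 / 10 :=
    hlim2.eventually_lt_const (by norm_num)
  have he3 : ∀ᶠ T : ℝ in Filter.atTop, C1 / Real.log T < 1 :=
    (Filter.Tendsto.div_atTop tendsto_const_nhds Real.tendsto_log_atTop).eventually_lt_const (by norm_num)
  obtain ⟨Tc, hTc⟩ := Filter.eventually_atTop.mp (he1.and (he2.and he3))
  refine ⟨max (max Ta Tb) Tc, ?_⟩
  intro S Ct θ D1 N0 hS hT t ht δ hδ0 hδ1 z hx1 hx2 hy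
  have hTa : Ta ≤ S.T := (le_max_left _ _).trans ((le_max_left _ _).trans hT)
  have hTb : Tb ≤ S.T := (le_max_right _ _).trans ((le_max_left _ _).trans hT)
  obtain ⟨e1, e2, e3⟩ := hTc S.T ((le_max_right _ _).trans hT)
  have hL := D3_Lpos hS.T_ge
  have hT0 : 0 < S.T := (Real.exp_pos _).trans_le hS.T_ge
  set L := Real.log S.T with hLdef
  have hL0 : 0 < L := by linarith
  have hre : 4 ≤ (pt S.T t z).re := by
    rw [D3_pt_re, ← hLdef]
    have h5 : 7 / 2 ≤ z.re / L := by rw [le_div_iff₀ hL0]; linarith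
    linarith
  obtain ⟨-, hps⟩ := hpsi S.T t z hTa ht.1 (by
    rw [abs_of_nonneg (by nlinarith)]; exact hx2) hy
  have hchb := hch S.T t z hTb ht.1 (by nlinarith) hx2 hy
  obtain ⟨hp1, hp2⟩ := hph S.T (pt S.T t z) hS.T_ge hre
  have hD := hDD S.T (pt S.T t z) hre
  have hM := hMO S.T (pt S.T t z) hS.T_ge hre
  have hx0 := gd_x0 hS h0.le ht.2
  rw [← hLdef] at hps hx0
  -- the bound of `F - 1`
  have hF : ‖Fz S t z - 1‖ ≤ 1 / 10 := by
    rw [Fz_sub, ← hLdef]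
    have a1 : ‖(1 / 2 + psiR (pt S.T t z) / (L : ℝ))‖ ≤ 2 := by
      have : (1 / 2 + psiR (pt S.T t z) / (L : ℝ)) = 1 + (psiR (pt S.T t z) / (L : ℝ) - 1 / 2) := by ring
      rw [this]
      refine (norm_add_le _ _).trans ?_
      rw [norm_one]
      linarith
    have a2 : ‖(1 / 2 + psiR (pt S.T t z) / (L : ℝ)) * ph1 S.T (pt S.T t z)‖ ≤ 2 * (C2 * S.T ^ (-(1 / 250) : ℝ)) := by
      rw [norm_mul]
      exact mul_le_mul a1 hp1 (norm_nonneg _) (by norm_num)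
    have a3 : ‖DD S.T (nC (pt S.T t z)) / (L : ℝ)‖ ≤ C3 / L := by
      rw [norm_div, Complex.norm_real, Real.norm_of_nonneg hL0.le]
      exact div_le_div_of_nonneg_right hD hL0.le
    refine (norm_sub_le _ _).trans ?_
    have a4 := norm_add_le ((1 / 2 + psiR (pt S.T t z) / (L : ℝ)) * ph1 S.T (pt S.T t z) +
      (psiR (pt S.T t z) / (L : ℝ) - 1 / 2)) (ph2 S.T (pt S.T t z))
    have a5 := norm_add_le ((1 / 2 + psiR (pt S.T t z) / (L : ℝ)) * ph1 S.T (pt S.T t z))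
      (psiR (pt S.T t z) / (L : ℝ) - 1 / 2)
    have a6 : (C1 + C3) / L = C1 / L + C3 / L := add_div _ _ _
    linarith
  rw [Gz_eq]
  have hsq : ‖Fz S t z ^ 2 - 1‖ ≤ 21 / 100 := by
    have : Fz S t z ^ 2 - 1 = (Fz S t z - 1) * (2 + (Fz S t z - 1)) := by ring
    rw [this, norm_mul]
    have b1 : ‖2 + (Fz S t z - 1)‖ ≤ 2 + 1 / 10 := by
      refine (norm_add_le _ _).trans ?_
      have : ‖(2 : ℂ)‖ = 2 := by simp
      rw [this]; linarith
    calc ‖Fz S t z - 1‖ * ‖2 + (Fz S t z - 1)‖ ≤ 1 / 10 * (2 + 1 / 10) :=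
          mul_le_mul hF b1 (norm_nonneg _) (by norm_num)
      _ = 21 / 100 := by norm_num
  have hsec : ‖(δ ^ 2 * Real.exp (2 * x0 S t) : ℝ) * ch (pt S.T t z) * MO 0 S.T (nC (pt S.T t z)) ^ 2‖ ≤ 1 / 10 := by
    rw [norm_mul, norm_mul, norm_pow, Complex.norm_real, Real.norm_of_nonneg (by positivity)]
    have c1 : δ ^ 2 * Real.exp (2 * x0 S t) ≤ Real.exp (L / 4) := by
      have c2 : Real.exp (2 * x0 S t) ≤ Real.exp (L / 4) := by
        apply Real.exp_le_exp.mpr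
        have c3 := le_abs_self (x0 S t)
        have c4 : θ ^ 3 ≤ (1 / 100) ^ 3 := pow_le_pow_left₀ hS.th_pos.le hS.th_le 3
        have c5 : θ ^ 3 * L ≤ (1 / 100) ^ 3 * L := mul_le_mul_of_nonneg_right c4 hL0.le
        have c6 : (1 / 100 : ℝ) ^ 3 * L ≤ L / 8 := by norm_num; linarith
        linarith
      have c3 : δ ^ 2 ≤ 1 := pow_le_one₀ hδ0 hδ1
      calc δ ^ 2 * Real.exp (2 * x0 S t) ≤ 1 * Real.exp (2 * x0 S t) :=
            mul_le_mul_of_nonneg_right c3 (Real.exp_pos _).le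
        _ ≤ _ := by rw [one_mul]; exact c2
    have c7 : ‖ch (pt S.T t z)‖ ≤ 30 * Real.exp (-(7 / 4 * L)) := by
      refine hchb.trans (mul_le_mul_of_nonneg_left (Real.exp_le_exp.mpr (by linarith)) (by norm_num))
    have c8 : ‖MO 0 S.T (nC (pt S.T t z))‖ ^ 2 ≤ C4 ^ 2 := pow_le_pow_left₀ (norm_nonneg _) hM 2
    have c9 : Real.exp (L / 4) * (30 * Real.exp (-(7 / 4 * L))) ≤ 30 / S.T := by
      have d1 : Real.exp (L / 4) * (30 * Real.exp (-(7 / 4 * L))) = 30 * Real.exp (-(3 / 2 * L)) := by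
        rw [mul_left_comm, ← Real.exp_add]; congr 2; ring
      have d2 : Real.exp (-(3 / 2 * L)) ≤ Real.exp (-L) := Real.exp_le_exp.mpr (by linarith)
      have d3 : Real.exp (-L) = 1 / S.T := by rw [Real.exp_neg, hLdef, Real.exp_log hT0, one_div]
      rw [d1, show (30 : ℝ) / S.T = 30 * (1 / S.T) by ring, ← d3]
      exact mul_le_mul_of_nonneg_left d2 (by norm_num)
    calc δ ^ 2 * Real.exp (2 * x0 S t) * ‖ch (pt S.T t z)‖ * ‖MO 0 S.T (nC (pt S.T t z))‖ ^ 2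
        ≤ Real.exp (L / 4) * (30 * Real.exp (-(7 / 4 * L))) * C4 ^ 2 := by
          apply mul_le_mul (mul_le_mul c1 c7 (norm_nonneg _) (Real.exp_pos _).le) c8 (by positivity) (by positivity)
      _ ≤ 30 / S.T * C4 ^ 2 := mul_le_mul_of_nonneg_right c9 (by positivity)
      _ = 30 * C4 ^ 2 / S.T := by ring
      _ ≤ 1 / 10 := e2.le
  have hfin : Fz S t z ^ 2 + (δ ^ 2 * Real.exp (2 * x0 S t) : ℝ) * ch (pt S.T t z) * MO 0 S.T (nC (pt S.T t z)) ^ 2 - 1 =
      (Fz S t z ^ 2 - 1) + (δ ^ 2 * Real.exp (2 * x0 S t) : ℝ) * ch (pt S.T t z) * MO 0 S.T (nC (pt S.T t z)) ^ 2 := by ring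
  rw [hfin]
  refine (norm_add_le _ _).trans ?_
  linarith

/-- the sum over the proper prime powers -/
private lemma D3_pp (σ : ℝ) (N : ℕ) :
    ∑ n ∈ (Finset.Icc 1 N).filter (fun n => ¬ n.Prime), ArithmeticFunction.vonMangoldt n * (n : ℝ) ^ (-σ) ≤
      ∑ p ∈ Nat.primesBelow (N + 1), ∑ k ∈ Finset.Icc 2 N, Real.log p * ((p : ℝ) ^ (-σ)) ^ k := by
  classical
  rw [← Finset.sum_product' (Nat.primesBelow (N + 1)) (Finset.Icc 2 N)
    (fun p k => Real.log p * ((p : ℝ) ^ (-σ)) ^ k)]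
  have h1 : ∑ n ∈ (Finset.Icc 1 N).filter (fun n => ¬ n.Prime), ArithmeticFunction.vonMangoldt n * (n : ℝ) ^ (-σ) =
      ∑ n ∈ ((Finset.Icc 1 N).filter (fun n => ¬ n.Prime)).filter (fun n => IsPrimePow n),
        ArithmeticFunction.vonMangoldt n * (n : ℝ) ^ (-σ) := by
    symm
    apply Finset.sum_filter_of_ne
    intro n _ hne
    by_contra hnp
    apply hne
    rw [ArithmeticFunction.vonMangoldt_eq_zero_iff.mpr hnp, zero_mul]
  rw [h1]
  have hdata : ∀ n ∈ ((Finset.Icc 1 N).filter (fun n => ¬ n.Prime)).filter (fun n => IsPrimePow n),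
      ∃ k, n.minFac.Prime ∧ n.minFac ^ k = n ∧ 2 ≤ k ∧ k = n.factorization n.minFac ∧ n ≤ N := by
    intro n hn
    rw [Finset.mem_filter, Finset.mem_filter, Finset.mem_Icc] at hn
    obtain ⟨⟨⟨hn1, hnN⟩, hnp⟩, hpp⟩ := hn
    have hn1' : n ≠ 1 := hpp.ne_one
    have hmp := Nat.minFac_prime hn1'
    have h2 := hpp.minFac_pow_factorization_eq
    refine ⟨n.factorization n.minFac, hmp, h2, ?_, rfl, hnN⟩
    by_contra hk
    have h3 : n.factorization n.minFac = 0 ∨ n.factorization n.minFac = 1 := by omega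
    rcases h3 with h3 | h3
    · rw [h3, pow_zero] at h2; exact hn1' h2.symm
    · rw [h3, pow_one] at h2; rw [h2] at hmp; exact hnp hmp
  have h4 : ∑ n ∈ ((Finset.Icc 1 N).filter (fun n => ¬ n.Prime)).filter (fun n => IsPrimePow n),
        ArithmeticFunction.vonMangoldt n * (n : ℝ) ^ (-σ) =
      ∑ q ∈ (((Finset.Icc 1 N).filter (fun n => ¬ n.Prime)).filter (fun n => IsPrimePow n)).image
        (fun n : ℕ => ((n.minFac, n.factorization n.minFac) : ℕ × ℕ)), Real.log (q.1 : ℝ) * ((q.1 : ℝ) ^ (-σ)) ^ q.2 := by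
    rw [Finset.sum_image]
    · refine Finset.sum_congr rfl fun n hn => ?_
      obtain ⟨k, hp, hpk, hk2, hk, -⟩ := hdata n hn
      dsimp only
      rw [← hk]
      have e1 : ArithmeticFunction.vonMangoldt n = Real.log n.minFac := by
        conv_lhs => rw [← hpk]
        rw [ArithmeticFunction.vonMangoldt_apply_pow (by omega), ArithmeticFunction.vonMangoldt_apply_prime hp]
      have e2 : (n : ℝ) ^ (-σ) = ((n.minFac : ℝ) ^ (-σ)) ^ k := by
        conv_lhs => rw [← hpk]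
        rw [Nat.cast_pow, ← Real.rpow_natCast, ← Real.rpow_mul (by positivity), mul_comm,
          Real.rpow_mul (by positivity), Real.rpow_natCast]
      rw [e1, e2]
    · intro a ha b hb hab
      obtain ⟨k, hp, hpk, hk2, hk, -⟩ := hdata a ha
      obtain ⟨k', hp', hpk', hk2', hk', -⟩ := hdata b hb
      simp only [Prod.mk.injEq] at hab
      rw [← hpk, ← hpk', hk, hk', hab.2, hab.1]
  rw [h4]
  apply Finset.sum_le_sum_of_subset_of_nonneg
  · intro q hq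
    rw [Finset.mem_image] at hq
    obtain ⟨n, hn, rfl⟩ := hq
    obtain ⟨k, hp, hpk, hk2, hk, hnN⟩ := hdata n hn
    rw [Finset.mem_product, Nat.mem_primesBelow, Finset.mem_Icc]
    dsimp only
    rw [← hk]
    have h5 : n.minFac ≤ n := by
      conv_rhs => rw [← hpk]
      exact Nat.le_self_pow (by omega) _
    have h6 : k ≤ n := by
      conv_rhs => rw [← hpk]
      exact (Nat.lt_pow_self hp.one_lt).le
    exact ⟨⟨by omega, hp⟩, hk2, by omega⟩
  · intro q hq _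
    rw [Finset.mem_product, Nat.mem_primesBelow] at hq
    have : (1 : ℝ) ≤ q.1 := by exact_mod_cast hq.1.2.one_lt.le
    have := Real.log_nonneg this
    positivity

private lemma D3_geom {r : ℝ} (h0 : 0 ≤ r) (h1 : r ≤ 3 / 4) (N : ℕ) :
    ∑ k ∈ Finset.Icc 2 N, r ^ k ≤ r ^ 2 + 4 * r ^ 3 := by
  have h2 : ∀ n : ℕ, (1 - r) * ∑ k ∈ Finset.Icc 2 (n + 1), r ^ k ≤ r ^ 2 - r ^ (n + 2) := by
    intro n
    induction n with
    | zero => simp
    | succ n ih =>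
      rw [Finset.sum_Icc_succ_top (by omega), mul_add]
      have : (1 - r) * r ^ (n + 1 + 1) = r ^ (n + 2) - r ^ (n + 1 + 2) := by ring
      linarith
  have h3 : (1 - r) * ∑ k ∈ Finset.Icc 2 N, r ^ k ≤ r ^ 2 := by
    rcases N with _ | n
    · simp; positivity
    · have := h2 n
      have : 0 ≤ r ^ (n + 2) := by positivity
      linarith
  have h4 : r ^ 2 ≤ (1 - r) * (r ^ 2 + 4 * r ^ 3) := by
    have : (1 - r) * (r ^ 2 + 4 * r ^ 3) - r ^ 2 = r ^ 3 * (3 - 4 * r) := by ring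
    have h5 : 0 ≤ r ^ 3 * (3 - 4 * r) := mul_nonneg (by positivity) (by linarith)
    linarith
  exact le_of_mul_le_mul_left (h3.trans h4) (by linarith)

private lemma D3_r {p : ℕ} (hp : 2 ≤ p) {σ : ℝ} (hσ : 498 / 1000 ≤ σ) : (p : ℝ) ^ (-σ) ≤ 3 / 4 := by
  have hp' : (2 : ℝ) ≤ p := by exact_mod_cast hp
  have h1 : (p : ℝ) ^ (-σ) ≤ (p : ℝ) ^ (-(498 / 1000) : ℝ) :=
    Real.rpow_le_rpow_of_exponent_le (by linarith) (by linarith)
  have h2 : (p : ℝ) ^ (-(498 / 1000) : ℝ) ≤ (2 : ℝ) ^ (-(498 / 1000) : ℝ) :=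
    Real.rpow_le_rpow_of_nonpos (by norm_num) hp' (by norm_num)
  have h3 : (2 : ℝ) ^ (-(498 / 1000) : ℝ) ≤ 3 / 4 := by
    rw [← Real.log_le_log_iff (by positivity) (by norm_num), Real.log_rpow (by norm_num)]
    have h4 : Real.log (4 / 3) ≤ 4 / 3 - 1 := Real.log_le_sub_one_of_pos (by norm_num)
    have h5 : Real.log (3 / 4) = -Real.log (4 / 3) := by
      rw [← Real.log_inv]; norm_num
    have h6 := Real.log_two_gt_d9
    rw [h5]
    linarith
  linarith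

theorem DD_DP : ∃ C : ℝ, 1 ≤ C ∧ ∀ (T t : ℝ) (z : ℂ), Real.exp 1000 ≤ T → -2 ≤ z.re →
    z.re ≤ 15 * Real.log T →
    ‖(DD T (nC (pt T t z)) - DP T (nC (pt T t z))) / (Real.log T : ℝ)‖ ≤ C / (3 + z.re) := by
  obtain ⟨C6, hC6, hps⟩ := ps_x1
  have hsum : Summable (fun n : ℕ => (n : ℝ) ^ (-(1294 / 1000) : ℝ)) :=
    Real.summable_nat_rpow.mpr (by norm_num)
  set C5 : ℝ := 20 * ∑' n : ℕ, (n : ℝ) ^ (-(1294 / 1000) : ℝ) with hC5def
  have hC5 : 0 ≤ C5 := by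
    have : 0 ≤ ∑' n : ℕ, (n : ℝ) ^ (-(1294 / 1000) : ℝ) := tsum_nonneg fun n => by positivity
    positivity
  refine ⟨1 + Real.exp 2 * C6 + 16 * C5, by have := Real.exp_pos 2; nlinarith [mul_nonneg this.le hC6], ?_⟩
  intro T t z hT hx1 hx2
  have hL := D3_Lpos hT
  have hT0 : 0 < T := (Real.exp_pos _).trans_le hT
  have hT1 : 4 ≤ T := by
    have := Real.add_one_le_exp (1000 : ℝ)
    linarith
  obtain ⟨L, hLdef⟩ : ∃ L, L = Real.log T := ⟨_, rfl⟩
  obtain ⟨x, hx⟩ : ∃ x, x = z.re := ⟨_, rfl⟩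
  rw [← hLdef] at hL hx2 ⊢
  rw [← hx] at hx1 hx2 ⊢
  have hL0 : 0 < L := by linarith
  obtain ⟨N, hN⟩ : ∃ N, N = ⌊T ^ (1 / 500 : ℝ)⌋₊ := ⟨_, rfl⟩
  have hNT : ((N + 1 : ℕ) : ℝ) ≤ T := by
    have h1 : (N : ℝ) ≤ T ^ (1 / 500 : ℝ) := by rw [hN]; exact Nat.floor_le (by positivity)
    have h2 : T ^ (1 / 500 : ℝ) ≤ T ^ (1 / 2 : ℝ) :=
      Real.rpow_le_rpow_of_exponent_le (by linarith) (by norm_num)
    rw [← Real.sqrt_eq_rpow] at h2
    have h3 : 2 ≤ Real.sqrt T := by rw [Real.le_sqrt (by norm_num) hT0.le]; linarith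
    have h4 := Real.mul_self_sqrt hT0.le
    push_cast
    nlinarith
  have hσ : (pt T t z).re = 1 / 2 + x / L := by rw [D3_pt_re, ← hLdef, ← hx]
  have hσ1 : 498 / 1000 ≤ (pt T t z).re := by
    rw [hσ]
    have : -(2 / 1000) ≤ x / L := by rw [le_div_iff₀ hL0]; linarith
    linarith
  -- the difference
  have hdiff : DD T (nC (pt T t z)) - DP T (nC (pt T t z)) =
      ∑ n ∈ (Finset.Icc 1 N).filter (fun n => ¬ n.Prime),
        (ArithmeticFunction.vonMangoldt n : ℂ) * nC (pt T t z) n := by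
    unfold DD DP
    rw [← hN, ← Finset.sum_filter_add_sum_filter_not (Finset.Icc 1 N) Nat.Prime
      (fun n => (ArithmeticFunction.vonMangoldt n : ℂ) * nC (pt T t z) n)]
    have : ∑ n ∈ (Finset.Icc 1 N).filter Nat.Prime, (ArithmeticFunction.vonMangoldt n : ℂ) * nC (pt T t z) n =
        ∑ p ∈ (Finset.Icc 1 N).filter Nat.Prime, (Real.log p : ℂ) * nC (pt T t z) p := by
      refine Finset.sum_congr rfl fun p hp => ?_
      rw [ArithmeticFunction.vonMangoldt_apply_prime (Finset.mem_filter.mp hp).2]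
    rw [this, add_sub_cancel_left]
  have hb1 : ‖DD T (nC (pt T t z)) - DP T (nC (pt T t z))‖ ≤
      ∑ n ∈ (Finset.Icc 1 N).filter (fun n => ¬ n.Prime),
        ArithmeticFunction.vonMangoldt n * (n : ℝ) ^ (-(pt T t z).re) := by
    rw [hdiff]
    refine (norm_sum_le _ _).trans (Finset.sum_le_sum fun n hn => ?_)
    have hn0 : n ≠ 0 := by
      have := (Finset.mem_Icc.mp (Finset.mem_filter.mp hn).1).1
      omega
    rw [norm_mul, norm_nC _ hn0, Complex.norm_real, Real.norm_of_nonneg ArithmeticFunction.vonMangoldt_nonneg]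
  have hb2 := hb1.trans (D3_pp (pt T t z).re N)
  -- termwise
  have hterm : ∀ p ∈ Nat.primesBelow (N + 1), ∑ k ∈ Finset.Icc 2 N, Real.log p * ((p : ℝ) ^ (-(pt T t z).re)) ^ k ≤
      Real.exp 2 * (L / (3 + x)) * ((3 + x) * (Real.log p / L) * Real.exp (-(x * (Real.log p / L))) / (p : ℝ)) +
        20 * (p : ℝ) ^ (-(1294 / 1000) : ℝ) := by
    intro p hp
    rw [Nat.mem_primesBelow] at hp
    obtain ⟨hpN, hpp⟩ := hp
    have hp2 : (2 : ℝ) ≤ p := by exact_mod_cast hpp.two_le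
    have hp0 : (0 : ℝ) < p := by linarith
    have hlog : 0 ≤ Real.log p := Real.log_nonneg (by linarith)
    have hpT : (p : ℝ) ≤ T := by
      have : (p : ℝ) ≤ ((N + 1 : ℕ) : ℝ) := by exact_mod_cast hpN.le
      linarith
    have hv1 : Real.log p / L ≤ 1 := by
      rw [div_le_one hL0, hLdef]; exact Real.log_le_log hp0 hpT
    have hv0 : 0 ≤ Real.log p / L := by positivity
    rw [← Finset.mul_sum]
    have hr0 : 0 ≤ (p : ℝ) ^ (-(pt T t z).re) := by positivity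
    have hg := D3_geom hr0 (D3_r hpp.two_le hσ1) N
    refine (mul_le_mul_of_nonneg_left hg hlog).trans ?_
    rw [mul_add]
    have hr2 : ((p : ℝ) ^ (-(pt T t z).re)) ^ 2 = Real.exp (-(2 * x * (Real.log p / L))) / p := by
      rw [← Real.rpow_natCast, ← Real.rpow_mul hp0.le, hσ, Real.rpow_def_of_pos hp0,
        show Real.log p * (-(1 / 2 + x / L) * ((2 : ℕ) : ℝ)) = -(2 * x * (Real.log p / L)) - Real.log p by
          push_cast; field_simp; ring,
        Real.exp_sub, Real.exp_log hp0]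
    have hr3 : ((p : ℝ) ^ (-(pt T t z).re)) ^ 3 ≤ (p : ℝ) ^ (-(1494 / 1000) : ℝ) := by
      rw [← Real.rpow_natCast, ← Real.rpow_mul hp0.le]
      apply Real.rpow_le_rpow_of_exponent_le (by linarith)
      push_cast
      linarith
    have hexp : Real.exp (-(2 * x * (Real.log p / L))) ≤ Real.exp 2 * Real.exp (-(x * (Real.log p / L))) := by
      rw [← Real.exp_add]
      apply Real.exp_le_exp.mpr
      nlinarith
    have hlp : Real.log p ≤ 5 * (p : ℝ) ^ (1 / 5 : ℝ) := by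
      have := Real.log_le_rpow_div hp0.le (show (0 : ℝ) < 1 / 5 by norm_num)
      linarith
    apply add_le_add
    · rw [hr2]
      have h3x : 0 < 3 + x := by linarith
      have e1 : Real.exp 2 * (L / (3 + x)) * ((3 + x) * (Real.log p / L) * Real.exp (-(x * (Real.log p / L))) / (p : ℝ)) =
          Real.log p * (Real.exp 2 * Real.exp (-(x * (Real.log p / L))) / p) := by
        field_simp
      rw [e1]
      exact mul_le_mul_of_nonneg_left (div_le_div_of_nonneg_right hexp hp0.le) hlog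
    · calc Real.log p * (4 * ((p : ℝ) ^ (-(pt T t z).re)) ^ 3) ≤
            (5 * (p : ℝ) ^ (1 / 5 : ℝ)) * (4 * (p : ℝ) ^ (-(1494 / 1000) : ℝ)) := by
            apply mul_le_mul hlp (by linarith) (by positivity) (by positivity)
        _ = 20 * ((p : ℝ) ^ (1 / 5 : ℝ) * (p : ℝ) ^ (-(1494 / 1000) : ℝ)) := by ring
        _ = _ := by rw [← Real.rpow_add hp0]; norm_num
  have hb3 := hb2.trans (Finset.sum_le_sum hterm)
  rw [Finset.sum_add_distrib, ← Finset.mul_sum, ← Finset.mul_sum] at hb3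
  have hps' := hps T x (N + 1) hT hx1 (by rw [← hLdef]; linarith) hNT
  rw [← hLdef] at hps'
  have h3x : 0 < 3 + x := by linarith
  have hb4 : ∑ p ∈ Nat.primesBelow (N + 1), (p : ℝ) ^ (-(1294 / 1000) : ℝ) ≤
      ∑' n : ℕ, (n : ℝ) ^ (-(1294 / 1000) : ℝ) :=
    hsum.sum_le_tsum _ (fun n _ => by positivity)
  have hb5 : ‖DD T (nC (pt T t z)) - DP T (nC (pt T t z))‖ ≤ Real.exp 2 * (L / (3 + x)) * C6 + C5 := by
    have e1 : Real.exp 2 * (L / (3 + x)) * (∑ p ∈ Nat.primesBelow (N + 1),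
        (3 + x) * (Real.log p / L) * Real.exp (-(x * (Real.log p / L))) / (p : ℝ)) ≤
        Real.exp 2 * (L / (3 + x)) * C6 :=
      mul_le_mul_of_nonneg_left hps' (by positivity)
    linarith
  rw [norm_div, Complex.norm_real, Real.norm_of_nonneg hL0.le, div_le_div_iff₀ hL0 h3x]
  have h16 : 3 + x ≤ 16 * L := by linarith
  have e2 : Real.exp 2 * (L / (3 + x)) * C6 * (3 + x) = Real.exp 2 * C6 * L := by field_simp
  have e3 : C5 * (3 + x) ≤ 16 * C5 * L := by nlinarith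
  calc ‖DD T (nC (pt T t z)) - DP T (nC (pt T t z))‖ * (3 + x) ≤
        (Real.exp 2 * (L / (3 + x)) * C6 + C5) * (3 + x) := mul_le_mul_of_nonneg_right hb5 h3x.le
    _ = Real.exp 2 * C6 * L + C5 * (3 + x) := by rw [add_mul, e2]
    _ ≤ (1 + Real.exp 2 * C6 + 16 * C5) * L := by nlinarith

end Pool.Agent.LB
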