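import Pool.Agent.Lib.MP_69b2e4_nt.LB.D1
import Pool.Agent.Lib.MP_69b2e4_nt.LB.D2
import Pool.Agent.Lib.MP_69b2e4_nt.LB.D3
import Pool.Agent.Lib.MP_69b2e4_nt.LB.T3
import Pool.Agent.Lib.MP_69b2e4_nt.Mg.G035

/-! TASK D4. Decay of the second moments of `ph1`, `ph2` to the right. `L = log T`, `x = Re z`, `y = Im z`, `d = x + 11/5`; `T ≥ T0` (which may depend on everything but `S`, `z`).
Case `x ≥ 7L/2`: `Re s ≥ 4`: `ph_far`: `‖ph‖² ≤ C T^{-1/125}`, `TMass`, and `d^6 ≤ (16L)^6 ≤ T^{1/125}`.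
Case `x ≤ 7L/2`: `dec 0` (`m = 0`) with `v = 1/1000`, `w = 1`, `t1 = t + y/L ≥ ηT - 15 ≥ 2L`, `φ = ph1 T` resp. `ph2 T` (`ph_an`; `s ≠ 1` as `Im s ≥ 1`), `B5 = C T^{-3/500}` (`ph_five`), `Bt = T^4` (`ph_grow` for `η`: `t1 + L ≤ 2T/η`; `1/4 ≤ Re s ≤ 5`). Multiply by `uu(t)` and integrate over `Dm η T` (Tonelli; everything is nonnegative and continuous):
 first term: `C e^{-(x+2)/500} ∫_τ [∫_{Dm η} ‖φ(1/2-2/L + i(t + (y+τ)/L))‖² uu(t) dt] a/(a²+τ²) dτ`, `a = x+2`, `|y+τ| ≤ 2L²`, `∫ a/(a²+τ²) dτ ≤ π`. Inner integral `≤ K T Lam`: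
   `ph1 = ζM - 1`: `‖ph1‖² ≤ 2‖ζM‖² + 2`; substitute `t' = t + (y+τ)/L ∈ Dm (η/2) T`: `TR1` for `η/2`, `i = 0`, `a = -2/L`, `z1 = -2/L`, `z2 = -i(y+τ)/L` (`Re z2 = 0`); the term `2`: `TMass`.
   `ph2 = ζ'M/L + DD/L`: `TR2` in the same way; `DD/L = DP/L + (DD-DP)/L` at `pt T t (-2 + i(y+τ))`: `TDM` with `k = 1` (`(3+z.re) = 1`) and `DD_DP` (`≤ C`), `TMass`.
 `e^{-(x+2)/500} ≤ C'/(x+11/5)^6`.
 second term: `(e^{5vL} ((x+2)/L) B5)² ≤ (T^{1/200} · 4 · C T^{-3/500})² ≤ C T^{-1/500} ≤ 1/(16L)^6`, `TMass`. Third term: `e^{-L²} T^8 ≤ 1/(16L)^6`. -/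

set_option autoImplicit false

namespace Pool.Agent.LB

open Complex MeasureTheory Finset Pool.Agent.GH Pool.Agent.UH Pool.Agent.UV
open scoped Real ComplexConjugate

private theorem D4_ker_eq {a : ℝ} (ha : 0 < a) (τ : ℝ) :
    a / (a ^ 2 + τ ^ 2) = a⁻¹ * (1 + (τ / a) ^ 2)⁻¹ := by
  have h1 : 0 < a ^ 2 + τ ^ 2 := by positivity
  have h2 : 0 < 1 + (τ / a) ^ 2 := by positivity
  field_simp

private theorem D4_ker {a : ℝ} (ha : 0 < a) :
    ∫⁻ τ : ℝ, ENNReal.ofReal (a / (a ^ 2 + τ ^ 2)) = ENNReal.ofReal π := by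
  have h1 : Integrable fun τ : ℝ => a⁻¹ * (1 + (τ / a) ^ 2)⁻¹ :=
    (integrable_inv_one_add_sq.comp_div ha.ne').const_mul a⁻¹
  simp_rw [D4_ker_eq ha]
  rw [← ofReal_integral_eq_lintegral_ofReal h1 (Filter.Eventually.of_forall fun τ => by positivity)]
  congr 1
  rw [integral_const_mul, Measure.integral_comp_div (fun y : ℝ => (1 + y ^ 2)⁻¹) a,
    integral_univ_inv_one_add_sq, abs_of_pos ha, smul_eq_mul]
  field_simp

private theorem D4_cont {φ : ℂ → ℂ} (hφ : ∀ s : ℂ, s ≠ 1 → DifferentiableAt ℂ φ s) {σ : ℝ}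
    (hσ : σ ≠ 1) : Continuous fun t : ℝ => φ ((σ : ℂ) + (t : ℂ) * I) := by
  rw [continuous_iff_continuousAt]
  intro t
  have h1 : ((σ : ℂ) + (t : ℂ) * I) ≠ 1 := by
    intro h
    have := congrArg Complex.re h
    simp at this
    exact hσ this
  exact ContinuousAt.comp (f := fun t : ℝ => (σ : ℂ) + (t : ℂ) * I) (hφ _ h1).continuousAt
    (by fun_prop)

private theorem D4_core : ∃ C : ℝ, 1 ≤ C ∧ ∀ (T L η x y : ℝ) (u : ℝ → ℝ) (φ : ℂ → ℂ)
    (B5 M M' : ℝ), Real.log T = L → 0 < η → 1000 ≤ L → 2 * L + 15 ≤ η * T →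
    15 + L ≤ T / η → -(17 / 10) ≤ x → x ≤ 7 / 2 * L →
    |y| ≤ 15 * L → Continuous u → (∀ t, 0 ≤ u t) →
    (∀ s : ℂ, s ≠ 1 → DifferentiableAt ℂ φ s) →
    (∀ τ : ℝ, ‖φ (5 + τ * I)‖ ≤ B5) →
    (∀ s : ℂ, 1 / 4 ≤ s.re → s.re ≤ 6 → 1 ≤ s.im → s.im ≤ 2 * T / η → ‖φ s‖ ≤ T ^ 4) →
    0 ≤ M → 0 ≤ M' →
    (∀ y' : ℝ, |y'| ≤ 2 * L → ∫⁻ t in Dm η T, ENNReal.ofReal
      (‖φ ((1 / 2 - 2 / L : ℝ) + (t + y' : ℝ) * I)‖ ^ 2 * u t) ≤ ENNReal.ofReal M) →
    ∫⁻ t in Dm η T, ENNReal.ofReal (u t) ≤ ENNReal.ofReal M' →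
    ∫⁻ t in Dm η T, ENNReal.ofReal (‖φ (pt T t (x + y * I))‖ ^ 2 * u t) ≤
      ENNReal.ofReal (C * (Real.exp (-((x + 2) / 500)) * (π * M) +
        ((Real.exp (L / 200) * ((x + 2) / L) * B5) ^ 2 +
          (Real.exp (-(L ^ 2 / 2)) * T ^ 4) ^ 2) * M')) := by
  obtain ⟨C, hC, hdec⟩ := dec 0
  refine ⟨C, hC, ?_⟩
  intro T L η x y u φ B5 M M' hLd hη hL0 hη1 hη2 hx hx2 hy hu hu0 hφ hB5 hBt hM hM' hmean hmass
  have hL : 0 < L := by linarith
  have hT : 0 < T := by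
    by_contra h
    push Not at h
    have : η * T ≤ 0 := mul_nonpos_of_nonneg_of_nonpos hη.le h
    linarith
  have ha : 0 < x + 2 := by linarith
  have hσ : (1 / 2 - 2 / L : ℝ) ≠ 1 := by
    have : 0 < 2 / L := by positivity
    intro h
    linarith
  have hc0 : Continuous fun t : ℝ => φ (((1 / 2 - 2 / L : ℝ) : ℂ) + (t : ℂ) * I) :=
    D4_cont hφ hσ
  obtain ⟨G, hG⟩ : ∃ G : ℝ → ℝ → ℝ, G = fun t τ =>
      ‖φ (((1 / 2 - 2 / L : ℝ) : ℂ) + ((t + (y + τ) / L : ℝ) : ℂ) * I)‖ ^ 2 := ⟨_, rfl⟩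
  have hGc : Continuous fun q : ℝ × ℝ => G q.1 q.2 := by
    rw [hG]
    exact (hc0.comp (f := fun q : ℝ × ℝ => q.1 + (y + q.2) / L) (by fun_prop)).norm.pow 2
  have hG0 : ∀ t τ, 0 ≤ G t τ := fun t τ => by rw [hG]; positivity
  obtain ⟨k, hk⟩ : ∃ k : ℝ → ℝ, k = fun τ => (x + 2) / ((x + 2) ^ 2 + τ ^ 2) := ⟨_, rfl⟩
  have hk0 : ∀ τ, 0 ≤ k τ := fun τ => by rw [hk]; positivity
  have hkc : Continuous k := by
    rw [hk]
    refine continuous_const.div (by fun_prop) fun τ => ?_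
    positivity
  obtain ⟨E2, hE2⟩ : ∃ E2 : ℝ, E2 = (Real.exp (L / 200) * ((x + 2) / L) * B5) ^ 2 +
      (Real.exp (-(L ^ 2 / 2)) * T ^ 4) ^ 2 := ⟨_, rfl⟩
  have hE20 : 0 ≤ E2 := by rw [hE2]; positivity
  obtain ⟨e, he⟩ : ∃ e : ℝ, e = Real.exp (-((x + 2) / 500)) := ⟨_, rfl⟩
  have he0 : 0 < e := by rw [he]; exact Real.exp_pos _
  rw [← hE2, ← he]
  have hLL : -L ^ 2 ≤ L ^ 2 := by nlinarith
  -- the pointwise bound
  have hpt : ∀ t ∈ Dm η T, ENNReal.ofReal (‖φ (pt T t (x + y * I))‖ ^ 2 * u t) ≤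
      ENNReal.ofReal (C * e) * (∫⁻ τ in Set.Ioc (-L ^ 2) (L ^ 2),
        ENNReal.ofReal (k τ) * ENNReal.ofReal (G t τ * u t)) +
      ENNReal.ofReal (C * E2) * ENNReal.ofReal (u t) := by
    intro t ht
    have hyL : |y / L| ≤ 15 := by
      rw [abs_div, abs_of_pos hL, div_le_iff₀ hL]
      exact hy
    have hyL' := abs_le.1 hyL
    have ht1 : 2 * L ≤ t + y / L := by linarith [ht.1]
    have ht2 : t + y / L + L ≤ 2 * T / η := by
      have h1 := ht.2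
      have h2 : 2 * T / η = T / η + T / η := by ring
      linarith
    have h := hdec L (1 / 1000) 1 x (t + y / L) B5 (T ^ 4) φ hL0 ht1 (by norm_num) (by norm_num)
      (by norm_num) hx hx2 (Or.inl rfl)
      (fun s hs => hφ s fun h => by rw [h] at hs; norm_num at hs) (fun τ _ => hB5 τ)
      (fun s h1 h2 h3 => hBt s h1 (by linarith) (by linarith [(abs_le.1 h3).1])
        (by linarith [(abs_le.1 h3).2]))
    have h5 : (∫ τ in (-L ^ 2)..(L ^ 2), ‖φ ((1 / 2 - 2 / L : ℝ) + (t + y / L + τ / L : ℝ) * I)‖ ^ 2 *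
        ((x + 2) / ((x + 2) ^ 2 + τ ^ 2) / (1 + |τ| / 1) ^ 0)) =
        ∫ τ in (-L ^ 2)..(L ^ 2), G t τ * k τ := by
      congr 1
      ext τ
      rw [hG, hk, pow_zero, div_one]
      congr 5
      rw [add_div]
      push_cast
      ring
    have h6 : (1 / 2 + ((x / L : ℝ) : ℂ) + ((t + y / L : ℝ) : ℂ) * I) = pt T t (x + y * I) := by
      rw [pt, hLd]
      push_cast
      ring
    rw [h5, h6] at h
    have h7 : Real.exp (-(2 * (1 / 1000) * (x + 2))) = e := by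
      rw [he]; congr 1; ring
    have h8 : (Real.exp (5 * (1 / 1000) * L) * ((x + 2) / L) / (1 + L / 1) ^ 0 * B5) =
        Real.exp (L / 200) * ((x + 2) / L) * B5 := by
      rw [pow_zero, div_one]
      congr 3
      ring
    rw [h7, h8, add_assoc, ← hE2] at h
    have h9 : ENNReal.ofReal (∫ τ in (-L ^ 2)..(L ^ 2), G t τ * k τ) * ENNReal.ofReal (u t) =
        ∫⁻ τ in Set.Ioc (-L ^ 2) (L ^ 2), ENNReal.ofReal (k τ) * ENNReal.ofReal (G t τ * u t) := by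
      have hc1 : Continuous fun τ => G t τ * k τ :=
        (hGc.comp (f := fun τ : ℝ => (t, τ)) (by fun_prop)).mul hkc
      rw [intervalIntegral.integral_of_le hLL, ofReal_integral_eq_lintegral_ofReal
        hc1.integrableOn_Ioc (Filter.Eventually.of_forall fun τ => mul_nonneg (hG0 _ _) (hk0 _)),
        ← lintegral_mul_const _ hc1.measurable.ennreal_ofReal]
      refine lintegral_congr fun τ => ?_
      rw [← ENNReal.ofReal_mul (mul_nonneg (hG0 _ _) (hk0 _)), ← ENNReal.ofReal_mul (hk0 _)]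
      congr 1
      ring
    have hI0 : 0 ≤ ∫ τ in (-L ^ 2)..(L ^ 2), G t τ * k τ :=
      intervalIntegral.integral_nonneg hLL fun τ _ => mul_nonneg (hG0 _ _) (hk0 _)
    rw [← h9, ← ENNReal.ofReal_mul hI0, ← ENNReal.ofReal_mul (by positivity),
      ← ENNReal.ofReal_mul (by positivity), ← ENNReal.ofReal_add
        (mul_nonneg (by positivity) (mul_nonneg hI0 (hu0 t)))
        (mul_nonneg (by positivity) (hu0 t))]
    refine ENNReal.ofReal_le_ofReal ?_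
    refine (mul_le_mul_of_nonneg_right h (hu0 t)).trans (le_of_eq ?_)
    ring
  -- the inner mean values
  have hin : ∀ τ ∈ Set.Ioc (-L ^ 2) (L ^ 2), ∫⁻ t in Dm η T, ENNReal.ofReal (G t τ * u t) ≤
      ENNReal.ofReal M := by
    intro τ hτ
    have h1 : |(y + τ) / L| ≤ 2 * L := by
      rw [abs_div, abs_of_pos hL, div_le_iff₀ hL]
      have h2 : |τ| ≤ L ^ 2 := abs_le.2 ⟨hτ.1.le, hτ.2⟩
      have h3 := abs_add_le y τ
      nlinarith
    have h2 := hmean ((y + τ) / L) h1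
    rw [hG]
    exact h2
  have hmu : Measurable fun q : ℝ × ℝ => ENNReal.ofReal (k q.2) *
      ENNReal.ofReal (G q.1 q.2 * u q.1) :=
    (hkc.comp continuous_snd).measurable.ennreal_ofReal.mul
      (hGc.mul (hu.comp continuous_fst)).measurable.ennreal_ofReal
  have hDm : MeasurableSet (Dm η T) := measurableSet_Icc
  calc ∫⁻ t in Dm η T, ENNReal.ofReal (‖φ (pt T t (x + y * I))‖ ^ 2 * u t)
      ≤ ∫⁻ t in Dm η T, (ENNReal.ofReal (C * e) * (∫⁻ τ in Set.Ioc (-L ^ 2) (L ^ 2),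
          ENNReal.ofReal (k τ) * ENNReal.ofReal (G t τ * u t)) +
        ENNReal.ofReal (C * E2) * ENNReal.ofReal (u t)) := setLIntegral_mono' hDm hpt
    _ = ENNReal.ofReal (C * e) * (∫⁻ t in Dm η T, ∫⁻ τ in Set.Ioc (-L ^ 2) (L ^ 2),
          ENNReal.ofReal (k τ) * ENNReal.ofReal (G t τ * u t)) +
        ENNReal.ofReal (C * E2) * ∫⁻ t in Dm η T, ENNReal.ofReal (u t) := by
        rw [lintegral_add_right _ (hu.measurable.ennreal_ofReal.const_mul _),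
          lintegral_const_mul' _ _ ENNReal.ofReal_ne_top,
          lintegral_const_mul' _ _ ENNReal.ofReal_ne_top]
    _ ≤ ENNReal.ofReal (C * e) * (ENNReal.ofReal π * ENNReal.ofReal M) +
        ENNReal.ofReal (C * E2) * ENNReal.ofReal M' := by
        refine add_le_add (mul_le_mul_right ?_ _) (mul_le_mul_right hmass _)
        rw [lintegral_lintegral_swap hmu.aemeasurable]
        calc ∫⁻ τ in Set.Ioc (-L ^ 2) (L ^ 2), ∫⁻ t in Dm η T,
              ENNReal.ofReal (k τ) * ENNReal.ofReal (G t τ * u t)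
            ≤ ∫⁻ τ in Set.Ioc (-L ^ 2) (L ^ 2), ENNReal.ofReal (k τ) * ENNReal.ofReal M := by
              refine setLIntegral_mono' measurableSet_Ioc fun τ hτ => ?_
              rw [lintegral_const_mul' _ _ ENNReal.ofReal_ne_top]
              exact mul_le_mul_right (hin τ hτ) _
          _ = (∫⁻ τ in Set.Ioc (-L ^ 2) (L ^ 2), ENNReal.ofReal (k τ)) * ENNReal.ofReal M := by
              rw [lintegral_mul_const' _ _ ENNReal.ofReal_ne_top]
          _ ≤ (∫⁻ τ : ℝ, ENNReal.ofReal (k τ)) * ENNReal.ofReal M :=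
              mul_le_mul_left (setLIntegral_le_lintegral _ _) _
          _ = ENNReal.ofReal π * ENNReal.ofReal M := by rw [hk, D4_ker ha]
    _ = ENNReal.ofReal (C * (e * (π * M) + E2 * M')) := by
        rw [← ENNReal.ofReal_mul Real.pi_pos.le, ← ENNReal.ofReal_mul (by positivity),
          ← ENNReal.ofReal_mul (by positivity), ← ENNReal.ofReal_add (by positivity)
            (by positivity)]
        congr 1
        ring

private theorem D4_add3 {A : Set ℝ} {f1 f2 f3 : ℝ → ℝ} (h1 : ∀ t, 0 ≤ f1 t) (h2 : ∀ t, 0 ≤ f2 t)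
    (h3 : ∀ t, 0 ≤ f3 t) (m2 : Measurable f2) (m3 : Measurable f3) {c1 c2 c3 M1 M2 M3 : ℝ}
    (hc1 : 0 ≤ c1) (hc2 : 0 ≤ c2) (hc3 : 0 ≤ c3) (hM1 : 0 ≤ M1) (hM2 : 0 ≤ M2) (hM3 : 0 ≤ M3)
    (I1 : ∫⁻ t in A, ENNReal.ofReal (f1 t) ≤ ENNReal.ofReal M1)
    (I2 : ∫⁻ t in A, ENNReal.ofReal (f2 t) ≤ ENNReal.ofReal M2)
    (I3 : ∫⁻ t in A, ENNReal.ofReal (f3 t) ≤ ENNReal.ofReal M3) :
    ∫⁻ t in A, ENNReal.ofReal (c1 * f1 t + c2 * f2 t + c3 * f3 t) ≤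
      ENNReal.ofReal (c1 * M1 + c2 * M2 + c3 * M3) := by
  have e1 : ∀ t, ENNReal.ofReal (c1 * f1 t + c2 * f2 t + c3 * f3 t) =
      ENNReal.ofReal c1 * ENNReal.ofReal (f1 t) + ENNReal.ofReal c2 * ENNReal.ofReal (f2 t) +
        ENNReal.ofReal c3 * ENNReal.ofReal (f3 t) := by
    intro t
    rw [← ENNReal.ofReal_mul hc1, ← ENNReal.ofReal_mul hc2, ← ENNReal.ofReal_mul hc3,
      ← ENNReal.ofReal_add (mul_nonneg hc1 (h1 t)) (mul_nonneg hc2 (h2 t)),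
      ← ENNReal.ofReal_add (add_nonneg (mul_nonneg hc1 (h1 t)) (mul_nonneg hc2 (h2 t)))
        (mul_nonneg hc3 (h3 t))]
  simp_rw [e1]
  rw [lintegral_add_right _ (m3.ennreal_ofReal.const_mul _),
    lintegral_add_right _ (m2.ennreal_ofReal.const_mul _),
    lintegral_const_mul' _ _ ENNReal.ofReal_ne_top, lintegral_const_mul' _ _ ENNReal.ofReal_ne_top,
    lintegral_const_mul' _ _ ENNReal.ofReal_ne_top,
    ENNReal.ofReal_add (by positivity) (by positivity),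
    ENNReal.ofReal_add (by positivity) (by positivity), ENNReal.ofReal_mul hc1,
    ENNReal.ofReal_mul hc2, ENNReal.ofReal_mul hc3]
  exact add_le_add (add_le_add (mul_le_mul_right I1 _) (mul_le_mul_right I2 _))
    (mul_le_mul_right I3 _)

private theorem D4_shift {η T y : ℝ} (hη : 0 < η) (hT : 0 < T) (h1 : |y| ≤ η * T / 2)
    (h2 : |y| ≤ T / η) (f : ℝ → ENNReal) :
    ∫⁻ t in Dm η T, f (t + y) ≤ ∫⁻ t in Dm (η / 2) T, f t := by
  have hsub : Dm η T ⊆ (fun t : ℝ => t + y) ⁻¹' Dm (η / 2) T := by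
    intro t ht
    have h3 := abs_le.1 h1
    have h4 := abs_le.1 h2
    have h5 : T / (η / 2) = T / η + T / η := by field_simp; ring
    refine ⟨?_, ?_⟩
    · have := ht.1
      change η / 2 * T ≤ t + y
      linarith [h3.1]
    · have := ht.2
      change t + y ≤ T / (η / 2)
      rw [h5]
      linarith [h4.2]
  refine (lintegral_mono_set hsub).trans (le_of_eq ?_)
  exact (measurePreserving_add_right volume y).setLIntegral_comp_preimage_emb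
    (MeasurableEquiv.addRight y).measurableEmbedding f (Dm (η / 2) T)

private theorem D4_nC_cont {f : ℝ → ℂ} (hf : Continuous f) (n : ℕ) :
    Continuous fun t => nC (f t) n := by
  rcases eq_or_ne n 0 with rfl | hn
  · simp only [map_zero]; exact continuous_const
  · simp_rw [nC_apply _ hn]
    exact hf.neg.const_cpow (Or.inl (by exact_mod_cast hn))

private theorem D4_pt_cont (T : ℝ) (z : ℂ) : Continuous fun t : ℝ => pt T t z := by
  unfold pt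
  fun_prop

private theorem D4_DP_cont (T : ℝ) (z : ℂ) : Continuous fun t : ℝ => DP T (nC (pt T t z)) := by
  unfold DP
  exact continuous_finsetSum _ fun p _ => continuous_const.mul (D4_nC_cont (D4_pt_cont T z) p)

private theorem D4_ev (η : ℝ) (hη : 0 < η) : ∃ T0 : ℝ, ∀ T : ℝ, T0 ≤ T →
    1000 ≤ Real.log T ∧ 2 * Real.log T + 15 ≤ η * T ∧ 15 + Real.log T ≤ T / η ∧
    2 * Real.log T ≤ η * T / 2 ∧ 2 * Real.log T ≤ T / η ∧
    (16 * Real.log T) ^ 6 ≤ Real.exp (Real.log T / 500) := by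
  have h1 : ∀ᶠ T : ℝ in Filter.atTop, 1000 ≤ Real.log T :=
    Real.tendsto_log_atTop.eventually_ge_atTop 1000
  have h2 : ∀ c : ℝ, 0 < c → ∀ᶠ T : ℝ in Filter.atTop, Real.log T ≤ c * T := by
    intro c hc
    have h3 := Real.isLittleO_log_id_atTop.bound hc
    filter_upwards [h3, Filter.eventually_ge_atTop 1] with T hT hT1
    rw [id, Real.norm_eq_abs, Real.norm_eq_abs, abs_of_nonneg (Real.log_nonneg hT1),
      abs_of_nonneg (by linarith)] at hT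
    exact hT
  have h4 : ∀ᶠ u : ℝ in Filter.atTop, (16 * (500 * u)) ^ 6 ≤ Real.exp u := by
    have h5 := (Real.isLittleO_pow_exp_atTop (n := 6)).bound (c := 1 / (16 * 500) ^ 6) (by positivity)
    filter_upwards [h5, Filter.eventually_ge_atTop 0] with u hu hu0
    rw [Real.norm_of_nonneg (by positivity), Real.norm_of_nonneg (Real.exp_pos _).le] at hu
    have h6 : (16 * (500 * u)) ^ 6 = (16 * 500) ^ 6 * u ^ 6 := by ring
    rw [h6]
    calc (16 * 500 : ℝ) ^ 6 * u ^ 6 ≤ (16 * 500) ^ 6 * (1 / (16 * 500) ^ 6 * Real.exp u) := by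
          gcongr
      _ = Real.exp u := by field_simp
  have h7 : ∀ᶠ T : ℝ in Filter.atTop, (16 * Real.log T) ^ 6 ≤ Real.exp (Real.log T / 500) := by
    have h8 : Filter.Tendsto (fun T : ℝ => Real.log T / 500) Filter.atTop Filter.atTop :=
      Real.tendsto_log_atTop.atTop_div_const (by norm_num)
    filter_upwards [h8.eventually h4] with T hT
    have h9 : 16 * (500 * (Real.log T / 500)) = 16 * Real.log T := by ring
    rwa [h9] at hT
  have h10 := (((((h1.and (h2 (η / 8) (by positivity))).and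
    (h2 (1 / (8 * η)) (by positivity))).and h7).and
    (Filter.eventually_ge_atTop (30 / η))).and (Filter.eventually_ge_atTop (30 * η))).and
    (Filter.eventually_ge_atTop (0 : ℝ))
  obtain ⟨T0, hT0⟩ := Filter.eventually_atTop.1 h10
  refine ⟨T0, fun T hT => ?_⟩
  obtain ⟨⟨⟨⟨⟨⟨a1, a2⟩, a3⟩, a4⟩, a5⟩, a6⟩, a7⟩ := hT0 T hT
  have b1 : 30 ≤ η * T := by
    rw [div_le_iff₀ hη] at a5
    linarith
  have b2 : 30 ≤ T / η := by
    rw [le_div_iff₀ hη]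
    exact a6
  have b3 : 1 / (8 * η) * T = (T / η) / 8 := by field_simp
  rw [b3] at a3
  refine ⟨a1, ?_, ?_, ?_, ?_, a4⟩ <;> linarith

private theorem D4_exp {s : ℝ} (hs : 1 / 2 ≤ s) :
    Real.exp (-((s - 1 / 5) / 500)) ≤ 2 * 720 * 500 ^ 6 / s ^ 6 := by
  have h1 : (s / 500) ^ 6 / (Nat.factorial 6 : ℝ) ≤ Real.exp (s / 500) :=
    Real.pow_div_factorial_le_exp (s / 500) (by linarith) 6
  have h2 : Real.exp (-((s - 1 / 5) / 500)) = Real.exp (1 / 2500) * (Real.exp (s / 500))⁻¹ := by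
    rw [← Real.exp_neg, ← Real.exp_add]
    congr 1
    ring
  have h3 : Real.exp (1 / 2500) ≤ 2 := by
    have h4 : Real.exp (1 / 2500) ≤ Real.exp (Real.log 2) :=
      Real.exp_le_exp.2 (by linarith [Real.log_two_gt_d9])
    rwa [Real.exp_log (by norm_num)] at h4
  have h5 : (Real.exp (s / 500))⁻¹ ≤ 720 * 500 ^ 6 / s ^ 6 := by
    have h6 : 0 < s ^ 6 := by positivity
    have h7 : (Nat.factorial 6 : ℝ) = 720 := by norm_num [Nat.factorial]
    rw [h7, div_pow, div_div, div_le_iff₀ (by positivity)] at h1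
    rw [inv_eq_one_div, div_le_div_iff₀ (Real.exp_pos _) h6]
    linarith
  rw [h2]
  calc Real.exp (1 / 2500) * (Real.exp (s / 500))⁻¹ ≤ 2 * (720 * 500 ^ 6 / s ^ 6) :=
        mul_le_mul h3 h5 (by positivity) (by norm_num)
    _ = 2 * 720 * 500 ^ 6 / s ^ 6 := by ring

/-- the mean value of `ph1` on the left edge -/
private theorem D4_mean1 {S : BS} {lam η L K1 K4 : ℝ} (hη : 0 < η)
    (hL0 : 1000 ≤ L) (hT : 0 < S.T) (hK1 : 0 ≤ K1) (hK4 : 0 ≤ K4)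
    (hu : Continuous (uu S lam)) (he1 : 2 * L ≤ η * S.T / 2) (he2 : 2 * L ≤ S.T / η)
    (hR : ∀ (a : ℝ) (z1 z2 : ℂ), |a| ≤ 3 / L → ‖z1‖ ≤ 3 / L → z2.re = 0 →
      ∫⁻ t in Dm (η / 2) S.T, ENNReal.ofReal (‖riemannZeta (1 / 2 + a + t * I)‖ ^ 2 *
        ‖MO 0 S.T (nC (1 / 2 + t * I + z1))‖ ^ 2 * ‖RT S lam (nC (1 / 2 + t * I + z2))‖ ^ 2) ≤
      ENNReal.ofReal K1)
    (hM : ∫⁻ t in Dm η S.T, ENNReal.ofReal (uu S lam t) ≤ ENNReal.ofReal K4)
    (y : ℝ) (hy : |y| ≤ 2 * L) : ∫⁻ t in Dm η S.T, ENNReal.ofReal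
      (‖ph1 S.T ((1 / 2 - 2 / L : ℝ) + (t + y : ℝ) * I)‖ ^ 2 * uu S lam t) ≤
      ENNReal.ofReal (2 * K1 + 2 * K4) := by
  have hu0 : ∀ t, 0 ≤ uu S lam t := fun t => by unfold uu; positivity
  obtain ⟨F, hF⟩ : ∃ F : ℝ → ℝ, F = fun t : ℝ => ‖riemannZeta (1 / 2 + (-(2 / L) : ℝ) + t * I)‖ ^ 2 *
      ‖MO 0 S.T (nC (1 / 2 + t * I + (-(2 / L) : ℝ)))‖ ^ 2 *
      ‖RT S lam (nC (1 / 2 + t * I + (-(y : ℂ) * I)))‖ ^ 2 := ⟨_, rfl⟩
  have hF0 : ∀ t, 0 ≤ F t := fun t => by rw [hF]; positivity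
  have h1 : |-(2 / L)| ≤ 3 / L := by
    rw [abs_neg, abs_of_pos (by positivity)]
    gcongr
    norm_num
  have h2 : ∫⁻ t in Dm η S.T, ENNReal.ofReal (F (t + y)) ≤ ENNReal.ofReal K1 := by
    refine (D4_shift hη hT (hy.trans he1) (hy.trans he2) (fun t => ENNReal.ofReal (F t))).trans ?_
    rw [hF]
    refine hR (-(2 / L)) ((-(2 / L) : ℝ) : ℂ) (-(y : ℂ) * I) h1 ?_ (by simp)
    rw [Complex.norm_real, Real.norm_eq_abs]
    exact h1
  have h3 := D4_add3 (A := Dm η S.T) (f1 := fun t => F (t + y)) (f2 := uu S lam)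
    (f3 := uu S lam) (fun t => hF0 _) hu0 hu0 hu.measurable hu.measurable
    (c1 := 2) (c2 := 2) (c3 := 0) (M1 := K1) (M2 := K4) (M3 := K4) (by norm_num) (by norm_num)
    le_rfl hK1 hK4 hK4 h2 hM hM
  rw [zero_mul, add_zero] at h3
  refine le_trans (lintegral_mono fun t => ENNReal.ofReal_le_ofReal ?_) h3
  have e1 : (1 / 2 + ((-(2 / L) : ℝ) : ℂ) + ((t + y : ℝ) : ℂ) * I) =
      ((1 / 2 - 2 / L : ℝ) : ℂ) + ((t + y : ℝ) : ℂ) * I := by
    push_cast; ring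
  have e2 : (1 / 2 + ((t + y : ℝ) : ℂ) * I + ((-(2 / L) : ℝ) : ℂ)) =
      ((1 / 2 - 2 / L : ℝ) : ℂ) + ((t + y : ℝ) : ℂ) * I := by
    push_cast; ring
  have e3 : (1 / 2 + ((t + y : ℝ) : ℂ) * I + (-(y : ℂ) * I)) = 1 / 2 + (t : ℂ) * I := by
    push_cast; ring
  have h4 : ‖ph1 S.T ((1 / 2 - 2 / L : ℝ) + (t + y : ℝ) * I)‖ ^ 2 ≤
      2 * (‖riemannZeta (((1 / 2 - 2 / L : ℝ) : ℂ) + ((t + y : ℝ) : ℂ) * I)‖ ^ 2 *
        ‖MO 0 S.T (nC (((1 / 2 - 2 / L : ℝ) : ℂ) + ((t + y : ℝ) : ℂ) * I))‖ ^ 2) + 2 := by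
    unfold ph1
    refine (pow_le_pow_left₀ (norm_nonneg _) (norm_sub_le _ _) 2).trans ?_
    rw [norm_mul, norm_one, ← mul_pow]
    nlinarith [sq_nonneg (‖riemannZeta (((1 / 2 - 2 / L : ℝ) : ℂ) + ((t + y : ℝ) : ℂ) * I)‖ *
        ‖MO 0 S.T (nC (((1 / 2 - 2 / L : ℝ) : ℂ) + ((t + y : ℝ) : ℂ) * I))‖ - 1)]
  rw [hF]
  simp only [e1, e2, e3]
  refine (mul_le_mul_of_nonneg_right h4 (hu0 t)).trans (le_of_eq ?_)
  unfold uu
  ring

/-- the mean value of `ph2` on the left edge -/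
private theorem D4_mean2 {S : BS} {lam η L K2 K3 K4 Cd : ℝ} (hη : 0 < η)
    (hL : Real.log S.T = L) (hL0 : 1000 ≤ L) (hT : 0 < S.T) (hK2 : 0 ≤ K2) (hK3 : 0 ≤ K3)
    (hK4 : 0 ≤ K4) (hu : Continuous (uu S lam)) (he1 : 2 * L ≤ η * S.T / 2)
    (he2 : 2 * L ≤ S.T / η)
    (hR : ∀ (a : ℝ) (z1 z2 : ℂ), |a| ≤ 2 / L → ‖z1‖ ≤ 2 / L → z2.re = 0 →
      ∫⁻ t in Dm (η / 2) S.T, ENNReal.ofReal (‖deriv riemannZeta (1 / 2 + a + t * I) / (L : ℝ)‖ ^ 2 *
        ‖MO 0 S.T (nC (1 / 2 + t * I + z1))‖ ^ 2 * ‖RT S lam (nC (1 / 2 + t * I + z2))‖ ^ 2) ≤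
      ENNReal.ofReal K2)
    (hP : ∀ y : ℝ, ∫⁻ t in Dm η S.T, ENNReal.ofReal
      (‖DP S.T (nC (pt S.T t (-2 + y * I))) / (L : ℝ)‖ ^ 2 * uu S lam t) ≤ ENNReal.ofReal K3)
    (hM : ∫⁻ t in Dm η S.T, ENNReal.ofReal (uu S lam t) ≤ ENNReal.ofReal K4)
    (hD : ∀ t y : ℝ, ‖(DD S.T (nC (pt S.T t (-2 + y * I))) - DP S.T (nC (pt S.T t (-2 + y * I)))) /
      (L : ℝ)‖ ≤ Cd)
    (y : ℝ) (hy : |y| ≤ 2 * L) : ∫⁻ t in Dm η S.T, ENNReal.ofReal
      (‖ph2 S.T ((1 / 2 - 2 / L : ℝ) + (t + y : ℝ) * I)‖ ^ 2 * uu S lam t) ≤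
      ENNReal.ofReal (2 * K2 + 4 * K3 + 4 * Cd ^ 2 * K4) := by
  have hu0 : ∀ t, 0 ≤ uu S lam t := fun t => by unfold uu; positivity
  have hLne : L ≠ 0 := by linarith
  obtain ⟨F, hF⟩ : ∃ F : ℝ → ℝ, F = fun t : ℝ =>
      ‖deriv riemannZeta (1 / 2 + (-(2 / L) : ℝ) + t * I) / (L : ℝ)‖ ^ 2 *
      ‖MO 0 S.T (nC (1 / 2 + t * I + (-(2 / L) : ℝ)))‖ ^ 2 *
      ‖RT S lam (nC (1 / 2 + t * I + (-(y : ℂ) * I)))‖ ^ 2 := ⟨_, rfl⟩
  have hF0 : ∀ t, 0 ≤ F t := fun t => by rw [hF]; positivity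
  have h1 : |-(2 / L)| ≤ 2 / L := by
    rw [abs_neg, abs_of_pos (by positivity)]
  have h2 : ∫⁻ t in Dm η S.T, ENNReal.ofReal (F (t + y)) ≤ ENNReal.ofReal K2 := by
    refine (D4_shift hη hT (hy.trans he1) (hy.trans he2) (fun t => ENNReal.ofReal (F t))).trans ?_
    rw [hF]
    refine hR (-(2 / L)) ((-(2 / L) : ℝ) : ℂ) (-(y : ℂ) * I) h1 ?_ (by simp)
    rw [Complex.norm_real, Real.norm_eq_abs]
    exact h1
  obtain ⟨P, hPd⟩ : ∃ P : ℝ → ℝ, P = fun t : ℝ =>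
      ‖DP S.T (nC (pt S.T t (-2 + (L * y : ℝ) * I))) / (L : ℝ)‖ ^ 2 * uu S lam t := ⟨_, rfl⟩
  have hP0 : ∀ t, 0 ≤ P t := fun t => by rw [hPd]; exact mul_nonneg (by positivity) (hu0 t)
  have hPc : Continuous P := by
    rw [hPd]
    exact (((D4_DP_cont S.T _).div_const _).norm.pow 2).mul hu
  have h3 := D4_add3 (A := Dm η S.T) (f1 := fun t => F (t + y)) (f2 := P)
    (f3 := uu S lam) (fun t => hF0 _) hP0 hu0 hPc.measurable hu.measurable
    (c1 := 2) (c2 := 4) (c3 := 4 * Cd ^ 2) (M1 := K2) (M2 := K3) (M3 := K4) (by norm_num)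
    (by norm_num) (by positivity) hK2 hK3 hK4 h2 (by rw [hPd]; exact hP (L * y)) hM
  refine le_trans (lintegral_mono fun t => ENNReal.ofReal_le_ofReal ?_) h3
  obtain ⟨s, hs⟩ : ∃ s : ℂ, s = ((1 / 2 - 2 / L : ℝ) : ℂ) + ((t + y : ℝ) : ℂ) * I := ⟨_, rfl⟩
  have e1 : (1 / 2 + ((-(2 / L) : ℝ) : ℂ) + ((t + y : ℝ) : ℂ) * I) = s := by
    rw [hs]; push_cast; ring
  have e2 : (1 / 2 + ((t + y : ℝ) : ℂ) * I + ((-(2 / L) : ℝ) : ℂ)) = s := by
    rw [hs]; push_cast; ring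
  have e3 : (1 / 2 + ((t + y : ℝ) : ℂ) * I + (-(y : ℂ) * I)) = 1 / 2 + (t : ℂ) * I := by
    push_cast; ring
  have e4 : pt S.T t (-2 + (L * y : ℝ) * I) = s := by
    have : (L : ℂ) ≠ 0 := by exact_mod_cast hLne
    rw [hs, pt, hL]
    push_cast
    field_simp
    ring
  have hD' := hD t (L * y)
  rw [e4] at hD'
  rw [hF, hPd]
  simp only [e1, e2, e3, e4]
  rw [← hs]
  have h5 : ph2 S.T s = deriv riemannZeta s / (L : ℝ) * MO 0 S.T (nC s) +
      (DP S.T (nC s) / (L : ℝ) + (DD S.T (nC s) - DP S.T (nC s)) / (L : ℝ)) := by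
    unfold ph2
    rw [hL]
    ring
  have h6 : ‖ph2 S.T s‖ ≤ ‖deriv riemannZeta s / (L : ℝ)‖ * ‖MO 0 S.T (nC s)‖ +
      (‖DP S.T (nC s) / (L : ℝ)‖ + Cd) := by
    rw [h5, ← norm_mul]
    exact (norm_add_le _ _).trans (add_le_add le_rfl ((norm_add_le _ _).trans
      (add_le_add le_rfl hD')))
  have hCd : 0 ≤ Cd := (norm_nonneg _).trans hD'
  obtain ⟨p, hp⟩ : ∃ p : ℝ, p = ‖deriv riemannZeta s / (L : ℝ)‖ * ‖MO 0 S.T (nC s)‖ := ⟨_, rfl⟩
  obtain ⟨q, hq⟩ : ∃ q : ℝ, q = ‖DP S.T (nC s) / (L : ℝ)‖ := ⟨_, rfl⟩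
  have h7 : ‖ph2 S.T s‖ ^ 2 ≤ 2 * p ^ 2 + 4 * q ^ 2 + 4 * Cd ^ 2 := by
    refine (pow_le_pow_left₀ (norm_nonneg _) h6 2).trans ?_
    rw [← hp, ← hq]
    nlinarith [sq_nonneg (p - (q + Cd)), sq_nonneg (q - Cd)]
  refine (mul_le_mul_of_nonneg_right h7 (hu0 t)).trans (le_of_eq ?_)
  rw [hp, hq]
  unfold uu
  ring

theorem PHI (lam η : ℝ) (h0 : 0 < lam) (h1 : 0 < η) (h2 : η ≤ 1) : ∃ C0 K : ℝ, 1 ≤ K ∧
    ∀ {Ct θ D1 : ℝ} {N0 : ℕ}, C0 ≤ Ct → ∃ T0 : ℝ, ∀ {S : BS}, TG S Ct θ D1 N0 → T0 ≤ S.T →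
    ∀ z : ℂ, -(17 / 10) ≤ z.re → z.re ≤ 15 * Real.log S.T → |z.im| ≤ 15 * Real.log S.T →
    ∫⁻ t in Dm η S.T, ENNReal.ofReal ((‖ph1 S.T (pt S.T t z)‖ ^ 2 + ‖ph2 S.T (pt S.T t z)‖ ^ 2) *
      uu S lam t) ≤
    ENNReal.ofReal (K * (S.T * Lam S lam) / (z.re + 11 / 5) ^ 6) := by
  obtain ⟨C1, K1, hK1, hR1⟩ := TR1 lam (η / 2) h0 (by positivity) (by linarith)
  obtain ⟨C2, K2, hK2, hR2⟩ := TR2 lam (η / 2) h0 (by positivity) (by linarith)
  obtain ⟨C3, K3, hK3, hR3⟩ := TDM lam η h0 h1 h2 1 (by norm_num)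
  obtain ⟨C4, K4, hK4, hR4⟩ := TMass lam η h0 h1 h2
  obtain ⟨Cd, hCd, hDD⟩ := DD_DP
  obtain ⟨Cf, hCf, hfar⟩ := ph_far
  obtain ⟨C5, hC5, hfive⟩ := ph_five
  obtain ⟨Cc, hCc, hcore⟩ := D4_core
  obtain ⟨Tg, hTg⟩ := ph_grow η h1 h2
  obtain ⟨Te, hTe⟩ := D4_ev η h1
  obtain ⟨Km, hKm⟩ : ∃ Km : ℝ, Km = 2 * K1 + 2 * K4 + (2 * K2 + 4 * K3 + 4 * Cd ^ 2 * K4) :=
    ⟨_, rfl⟩
  obtain ⟨A, hA⟩ : ∃ A : ℝ, A = Cc * (2 * 720 * 500 ^ 6 * π * Km + (16 * C5 ^ 2 + 1) * K4) :=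
    ⟨_, rfl⟩
  have hKm0 : 0 ≤ Km := by rw [hKm]; positivity
  have hA0 : 0 ≤ A := by rw [hA]; positivity
  refine ⟨max (max C1 C2) (max C3 C4), 2 * A + 2 * Cf ^ 2 * K4 + 1, ?_, ?_⟩
  · have : 0 ≤ 2 * Cf ^ 2 * K4 := by positivity
    linarith
  intro Ct θ D1 N0 hCt
  obtain ⟨T1, hT1⟩ := hR1 (Ct := Ct) (θ := θ) (D1 := D1) (N0 := N0)
    (((le_max_left _ _).trans (le_max_left _ _)).trans hCt)
  obtain ⟨T2, hT2⟩ := hR2 (Ct := Ct) (θ := θ) (D1 := D1) (N0 := N0)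
    (((le_max_right _ _).trans (le_max_left _ _)).trans hCt)
  obtain ⟨T3, hT3⟩ := hR3 (Ct := Ct) (θ := θ) (D1 := D1) (N0 := N0)
    (((le_max_left _ _).trans (le_max_right _ _)).trans hCt)
  obtain ⟨T4, hT4⟩ := hR4 (Ct := Ct) (θ := θ) (D1 := D1) (N0 := N0)
    (((le_max_right _ _).trans (le_max_right _ _)).trans hCt)
  refine ⟨max (max (max T1 T2) (max T3 T4)) (max Tg Te), ?_⟩
  intro S hS hT z hz1 hz2 hz3
  have g1 : T1 ≤ S.T := (((le_max_left _ _).trans (le_max_left _ _)).trans (le_max_left _ _)).trans hT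
  have g2 : T2 ≤ S.T := (((le_max_right _ _).trans (le_max_left _ _)).trans (le_max_left _ _)).trans hT
  have g3 : T3 ≤ S.T := (((le_max_left _ _).trans (le_max_right _ _)).trans (le_max_left _ _)).trans hT
  have g4 : T4 ≤ S.T := (((le_max_right _ _).trans (le_max_right _ _)).trans (le_max_left _ _)).trans hT
  have g5 : Tg ≤ S.T := ((le_max_left _ _).trans (le_max_right _ _)).trans hT
  have g6 : Te ≤ S.T := ((le_max_right _ _).trans (le_max_right _ _)).trans hT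
  obtain ⟨e1, e2, e3, e4, e5, e6⟩ := hTe S.T g6
  have hTexp : Real.exp 1000 ≤ S.T := hS.T_ge
  have hTpos : 0 < S.T := (Real.exp_pos _).trans_le hTexp
  obtain ⟨L, hL⟩ : ∃ L : ℝ, Real.log S.T = L := ⟨_, rfl⟩
  rw [hL] at e1 e2 e3 e4 e5 e6 hz2 hz3
  have hLpos : 0 < L := by linarith
  have hexpL : Real.exp L = S.T := by rw [← hL, Real.exp_log hTpos]
  obtain ⟨Q, hQ⟩ : ∃ Q : ℝ, Q = S.T * Lam S lam := ⟨_, rfl⟩
  have hQ0 : 0 ≤ Q := by
    rw [hQ]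
    exact mul_nonneg hTpos.le (by unfold Lam; positivity)
  have hu : Continuous (uu S lam) := uu_continuous S lam fun j hj p hp =>
    (hS.prime j hj p hp).1.ne_zero
  have hu0 : ∀ t, 0 ≤ uu S lam t := fun t => by unfold uu; positivity
  have hmass : ∫⁻ t in Dm η S.T, ENNReal.ofReal (uu S lam t) ≤ ENNReal.ofReal (K4 * Q) := by
    rw [hQ]
    exact hT4 hS g4
  rw [← hQ]
  obtain ⟨d, hd⟩ : ∃ d : ℝ, d = z.re + 11 / 5 := ⟨_, rfl⟩
  have hd1 : 1 / 2 ≤ d := by rw [hd]; linarith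
  have hd2 : d ≤ 16 * L := by rw [hd]; linarith
  have hd6 : 0 < d ^ 6 := by positivity
  have hdexp : Real.exp (-(L / 500)) ≤ 1 / d ^ 6 := by
    have h3 : d ^ 6 ≤ Real.exp (L / 500) := (pow_le_pow_left₀ (by linarith) hd2 6).trans e6
    rw [Real.exp_neg, inv_eq_one_div]
    exact one_div_le_one_div_of_le hd6 h3
  rw [← hd]
  rcases le_total z.re (7 / 2 * L) with hx | hx
  · -- near
    have hx2 : 0 ≤ (z.re + 2) / L := div_nonneg (by linarith) hLpos.le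
    have hx4 : (z.re + 2) / L ≤ 4 := by
      rw [div_le_iff₀ hLpos]; linarith
    have hE2 : (Real.exp (L / 200) * ((z.re + 2) / L) * (C5 * S.T ^ (-(3 / 500) : ℝ))) ^ 2 +
        (Real.exp (-(L ^ 2 / 2)) * S.T ^ 4) ^ 2 ≤ (16 * C5 ^ 2 + 1) / d ^ 6 := by
      have h3 : (Real.exp (L / 200) * ((z.re + 2) / L) * (C5 * S.T ^ (-(3 / 500) : ℝ))) ^ 2 =
          ((z.re + 2) / L) ^ 2 * (C5 ^ 2 * Real.exp (-(L / 500))) := by
        have h4 : S.T ^ (-(3 / 500) : ℝ) = Real.exp (-(3 * L / 500)) := by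
          rw [Real.rpow_def_of_pos hTpos, hL]
          congr 1
          ring
        have h5 : Real.exp (-(L / 500)) = Real.exp (L / 200) ^ 2 * Real.exp (-(3 * L / 500)) ^ 2 := by
          rw [← Real.exp_nat_mul, ← Real.exp_nat_mul, ← Real.exp_add]
          congr 1
          push_cast
          ring
        rw [h4, h5]
        ring
      have h6 : (Real.exp (-(L ^ 2 / 2)) * S.T ^ 4) ^ 2 ≤ Real.exp (-(L / 500)) := by
        have h7 : (Real.exp (-(L ^ 2 / 2)) * S.T ^ 4) ^ 2 = Real.exp (-(L ^ 2) + 8 * L) := by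
          rw [← hexpL, ← Real.exp_nat_mul, ← Real.exp_add, ← Real.exp_nat_mul]
          congr 1
          push_cast
          ring
        rw [h7]
        exact Real.exp_le_exp.2 (by nlinarith)
      have h8 : ((z.re + 2) / L) ^ 2 ≤ 16 := by nlinarith
      rw [h3]
      calc ((z.re + 2) / L) ^ 2 * (C5 ^ 2 * Real.exp (-(L / 500))) +
            (Real.exp (-(L ^ 2 / 2)) * S.T ^ 4) ^ 2
          ≤ 16 * (C5 ^ 2 * Real.exp (-(L / 500))) + Real.exp (-(L / 500)) :=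
            add_le_add (mul_le_mul_of_nonneg_right h8 (by positivity)) h6
        _ = (16 * C5 ^ 2 + 1) * Real.exp (-(L / 500)) := by ring
        _ ≤ (16 * C5 ^ 2 + 1) * (1 / d ^ 6) := mul_le_mul_of_nonneg_left hdexp (by positivity)
        _ = (16 * C5 ^ 2 + 1) / d ^ 6 := by ring
    have hexp1 : Real.exp (-((z.re + 2) / 500)) ≤ 2 * 720 * 500 ^ 6 / d ^ 6 := by
      have h3 := D4_exp hd1
      have h4 : d - 1 / 5 = z.re + 2 := by rw [hd]; ring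
      rwa [h4] at h3
    have hfin : ∀ M : ℝ, 0 ≤ M → M ≤ Km * Q →
        Cc * (Real.exp (-((z.re + 2) / 500)) * (π * M) +
          ((Real.exp (L / 200) * ((z.re + 2) / L) * (C5 * S.T ^ (-(3 / 500) : ℝ))) ^ 2 +
            (Real.exp (-(L ^ 2 / 2)) * S.T ^ 4) ^ 2) * (K4 * Q)) ≤ A * Q / d ^ 6 := by
      intro M hM0 hM
      have h3 : π * M ≤ π * (Km * Q) := mul_le_mul_of_nonneg_left hM Real.pi_pos.le
      calc Cc * (Real.exp (-((z.re + 2) / 500)) * (π * M) +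
          ((Real.exp (L / 200) * ((z.re + 2) / L) * (C5 * S.T ^ (-(3 / 500) : ℝ))) ^ 2 +
            (Real.exp (-(L ^ 2 / 2)) * S.T ^ 4) ^ 2) * (K4 * Q))
          ≤ Cc * (2 * 720 * 500 ^ 6 / d ^ 6 * (π * (Km * Q)) +
            (16 * C5 ^ 2 + 1) / d ^ 6 * (K4 * Q)) := by
            refine mul_le_mul_of_nonneg_left (add_le_add ?_ ?_) (by linarith)
            · exact mul_le_mul hexp1 h3 (by positivity) (by positivity)
            · exact mul_le_mul_of_nonneg_right hE2 (by positivity)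
        _ = A * Q / d ^ 6 := by rw [hA]; ring
    have hz : z = (z.re : ℂ) + (z.im : ℂ) * I := (Complex.re_add_im z).symm
    have hmean1 := D4_mean1 (S := S) (lam := lam) (K1 := K1 * Q) (K4 := K4 * Q) h1 e1 hTpos
      (by positivity) (by positivity) hu e4 e5
      (fun a z1 z2 ha hz1 hz2 => by
        rw [hQ]
        refine hT1 hS g1 0 (by norm_num) a z1 z2 (by rw [hL]; exact ha) (by rw [hL]; exact hz1) ?_
        rw [hz2, abs_zero, hL]
        have := hS.th_pos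
        positivity) hmass
    have hmean2 := D4_mean2 (S := S) (lam := lam) (K2 := K2 * Q) (K3 := K3 * Q) (K4 := K4 * Q)
      (Cd := Cd) h1 hL e1 hTpos (by positivity) (by positivity) (by positivity) hu e4 e5
      (fun a z1 z2 ha hz1 hz2 => by
        have h3 := hT2 hS g2 0 (by norm_num) a z1 z2 (by rw [hL]; exact ha)
          (by rw [hL]; exact hz1) (by
            rw [hz2, abs_zero, hL]
            have := hS.th_pos
            positivity)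
        rw [hL, ← hQ] at h3
        exact h3)
      (fun y => by
        have h3 := hT3 hS g3 (-2 + y * I) (by simp) (by simp; rw [hL]; linarith)
        have h4 : (3 + (-2 + (y : ℂ) * I).re) = 1 := by simp; norm_num
        rw [hL, ← hQ, h4, one_pow, div_one] at h3
        simpa using h3) hmass
      (fun t y => by
        have h3 := hDD S.T t (-2 + y * I) hTexp (by simp) (by simp; rw [hL]; linarith)
        have h4 : (3 + (-2 + (y : ℂ) * I).re) = 1 := by simp; norm_num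
        rw [hL, h4, div_one] at h3
        exact h3)
    have hc1 := hcore S.T L η z.re z.im (uu S lam) (ph1 S.T) (C5 * S.T ^ (-(3 / 500) : ℝ))
      (2 * (K1 * Q) + 2 * (K4 * Q)) (K4 * Q) hL h1 e1 e2 e3 hz1 hx hz3 hu hu0
      (fun s hs => (ph_an S.T hs).1) (fun τ => (hfive S.T _ hTexp (by simp)).1)
      (fun s a1 a2 a3 a4 => (hTg S.T s g5 a1 a2 a3 a4).1) (by positivity) (by positivity)
      hmean1 hmass
    have hc2 := hcore S.T L η z.re z.im (uu S lam) (ph2 S.T) (C5 * S.T ^ (-(3 / 500) : ℝ))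
      (2 * (K2 * Q) + 4 * (K3 * Q) + 4 * Cd ^ 2 * (K4 * Q)) (K4 * Q) hL h1 e1 e2 e3 hz1 hx hz3 hu
      hu0 (fun s hs => (ph_an S.T hs).2) (fun τ => (hfive S.T _ hTexp (by simp)).2)
      (fun s a1 a2 a3 a4 => (hTg S.T s g5 a1 a2 a3 a4).2.1) (by positivity) (by positivity)
      hmean2 hmass
    rw [← hz] at hc1 hc2
    have hf1 := hfin (2 * (K1 * Q) + 2 * (K4 * Q)) (by positivity) (by
      rw [hKm]
      have : 0 ≤ (2 * K2 + 4 * K3 + 4 * Cd ^ 2 * K4) * Q := by positivity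
      linarith)
    have hf2 := hfin (2 * (K2 * Q) + 4 * (K3 * Q) + 4 * Cd ^ 2 * (K4 * Q)) (by positivity) (by
      rw [hKm]
      have : 0 ≤ (2 * K1 + 2 * K4) * Q := by positivity
      linarith)
    have hcont : ContinuousOn (fun t : ℝ => ‖ph2 S.T (pt S.T t z)‖ ^ 2 * uu S lam t)
        (Dm η S.T) := by
      intro t ht
      have him : (pt S.T t z).im = t + z.im / L := by
        rw [pt, hL]
        simp
      have hyL : |z.im / L| ≤ 15 := by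
        rw [abs_div, abs_of_pos hLpos, div_le_iff₀ hLpos]
        exact hz3
      have hne : pt S.T t z ≠ 1 := by
        intro h
        have h3 := congrArg Complex.im h
        rw [him, Complex.one_im] at h3
        linarith [(abs_le.1 hyL).1, ht.1]
      have h3 : ContinuousAt (fun t : ℝ => ph2 S.T (pt S.T t z)) t :=
        ContinuousAt.comp (f := fun t : ℝ => pt S.T t z) (ph_an S.T hne).2.continuousAt
          (D4_pt_cont S.T z).continuousAt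
      exact ((h3.norm.pow 2).mul hu.continuousAt).continuousWithinAt
    have hmeas : AEMeasurable (fun t : ℝ => ENNReal.ofReal (‖ph2 S.T (pt S.T t z)‖ ^ 2 *
        uu S lam t)) (volume.restrict (Dm η S.T)) :=
      (hcont.aemeasurable measurableSet_Icc).ennreal_ofReal
    have hsplit : ∫⁻ t in Dm η S.T, ENNReal.ofReal ((‖ph1 S.T (pt S.T t z)‖ ^ 2 +
        ‖ph2 S.T (pt S.T t z)‖ ^ 2) * uu S lam t) =
        (∫⁻ t in Dm η S.T, ENNReal.ofReal (‖ph1 S.T (pt S.T t z)‖ ^ 2 * uu S lam t)) +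
        ∫⁻ t in Dm η S.T, ENNReal.ofReal (‖ph2 S.T (pt S.T t z)‖ ^ 2 * uu S lam t) := by
      rw [← lintegral_add_right' _ hmeas]
      refine lintegral_congr fun t => ?_
      rw [add_mul, ENNReal.ofReal_add (mul_nonneg (by positivity) (hu0 t))
        (mul_nonneg (by positivity) (hu0 t))]
    rw [hsplit]
    refine (add_le_add (hc1.trans (ENNReal.ofReal_le_ofReal hf1))
      (hc2.trans (ENNReal.ofReal_le_ofReal hf2))).trans ?_
    rw [← ENNReal.ofReal_add (by positivity) (by positivity)]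
    refine ENNReal.ofReal_le_ofReal ?_
    have h3 : A * Q / d ^ 6 + A * Q / d ^ 6 = (2 * A) * Q / d ^ 6 := by ring
    rw [h3]
    have h4 : 2 * A ≤ 2 * A + 2 * Cf ^ 2 * K4 + 1 := by
      have : 0 ≤ 2 * Cf ^ 2 * K4 := by positivity
      linarith
    gcongr
  · -- far
    have hpt : ∀ t : ℝ, (‖ph1 S.T (pt S.T t z)‖ ^ 2 + ‖ph2 S.T (pt S.T t z)‖ ^ 2) * uu S lam t ≤
        (2 * Cf ^ 2 / d ^ 6) * uu S lam t := by
      intro t
      refine mul_le_mul_of_nonneg_right ?_ (hu0 t)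
      have hre : 4 ≤ (pt S.T t z).re := by
        have h3 : (pt S.T t z).re = 1 / 2 + z.re / L := by
          rw [pt, hL]
          simp
        rw [h3]
        have h4 : 7 / 2 ≤ z.re / L := by
          rw [le_div_iff₀ hLpos]; exact hx
        linarith
      obtain ⟨h3, h4⟩ := hfar S.T (pt S.T t z) hTexp hre
      have h5 : (Cf * S.T ^ (-(1 / 250) : ℝ)) ^ 2 ≤ Cf ^ 2 * (1 / d ^ 6) := by
        rw [mul_pow]
        refine mul_le_mul_of_nonneg_left ?_ (by positivity)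
        have h6 : (S.T ^ (-(1 / 250) : ℝ)) ^ 2 = Real.exp (-(L / 125)) := by
          rw [Real.rpow_def_of_pos hTpos, hL, ← Real.exp_nat_mul]
          congr 1
          push_cast
          ring
        rw [h6]
        exact (Real.exp_le_exp.2 (by linarith)).trans hdexp
      have h7 := (pow_le_pow_left₀ (norm_nonneg _) h3 2).trans h5
      have h8 := (pow_le_pow_left₀ (norm_nonneg _) h4 2).trans h5
      calc ‖ph1 S.T (pt S.T t z)‖ ^ 2 + ‖ph2 S.T (pt S.T t z)‖ ^ 2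
          ≤ Cf ^ 2 * (1 / d ^ 6) + Cf ^ 2 * (1 / d ^ 6) := add_le_add h7 h8
        _ = 2 * Cf ^ 2 / d ^ 6 := by ring
    calc ∫⁻ t in Dm η S.T, ENNReal.ofReal ((‖ph1 S.T (pt S.T t z)‖ ^ 2 +
          ‖ph2 S.T (pt S.T t z)‖ ^ 2) * uu S lam t)
        ≤ ∫⁻ t in Dm η S.T, ENNReal.ofReal (2 * Cf ^ 2 / d ^ 6) * ENNReal.ofReal (uu S lam t) := by
          refine lintegral_mono fun t => ?_
          rw [← ENNReal.ofReal_mul (by positivity)]
          exact ENNReal.ofReal_le_ofReal (hpt t)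
      _ = ENNReal.ofReal (2 * Cf ^ 2 / d ^ 6) * ∫⁻ t in Dm η S.T, ENNReal.ofReal (uu S lam t) :=
          lintegral_const_mul' _ _ ENNReal.ofReal_ne_top
      _ ≤ ENNReal.ofReal (2 * Cf ^ 2 / d ^ 6) * ENNReal.ofReal (K4 * Q) :=
          mul_le_mul_right hmass _
      _ = ENNReal.ofReal (2 * Cf ^ 2 / d ^ 6 * (K4 * Q)) := by
          rw [← ENNReal.ofReal_mul (by positivity)]
      _ ≤ ENNReal.ofReal ((2 * A + 2 * Cf ^ 2 * K4 + 1) * Q / d ^ 6) := by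
          refine ENNReal.ofReal_le_ofReal ?_
          have h3 : 2 * Cf ^ 2 / d ^ 6 * (K4 * Q) = (2 * Cf ^ 2 * K4) * Q / d ^ 6 := by ring
          rw [h3]
          have h4 : 2 * Cf ^ 2 * K4 ≤ 2 * A + 2 * Cf ^ 2 * K4 + 1 := by linarith
          gcongr

end Pool.Agent.LB
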