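import Pool.Agent.Lib.MP_69b2e4_nt.LB.D1
import Pool.Agent.Lib.MP_69b2e4_nt.LB.D3
import Pool.Agent.Lib.MP_69b2e4_nt.Mg.G036
import Pool.Agent.Lib.MP_69b2e4_nt.Mg.G035

/-! TASK D6. Crude moments on the good set `EE`. `L = log T`, `Dθ = D1 + 5 log(1/θ)`.
`TX4`: `mean5` with `RT_dp` (`|κ| ≤ C0 ≤ Ct`), random side: `full5` with `A = |κ|`, `M = ⌈T^{1/10}⌉₊`, `y = b = s = 0`, `c_p = κ p^{-1/2}` (`RT_nX`, `P_lt`): `≤ K exp(κ² ∑_P 1/p) = K Lam S |κ| ≤ K' (log T)^{κ²}` (`Lam_le` for `|κ| > 0`, trivial for `κ = 0`).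
`XB2`: `gd_uu` and `TX2`.
`XB4`: `XB2` and `ch_pt`.
`XB3`: `‖VV‖² ≤ 8‖ζ‖² + 2‖ζ'/L‖²` at `pt T t z` (`psiR_pt`: `‖1/2+psiR/L‖ ≤ 2`), and `ζ'(s)/L = (1/2π) ∫ ζ(s + e^{iϑ}/L) e^{-iϑ} dϑ`: `‖ζ'(pt z)/L‖² ≤ (1/2π) ∫ ‖ζ(pt (z + e^{iϑ}))‖² dϑ`. So it is enough to bound `∫_{EE} e^{-2 x0} ‖ζ(pt T t z')‖² uu` for `-1 ≤ Re z' ≤ w+1`, `|Im z'| ≤ w+1` (Tonelli), `e^{-2x0} uu ≤ 16‖RT (lam-1)‖²` (`gd_uu`).
 `dec m` with `v = 0`, `m = k + ⌈(lam-1)²⌉₊ + 2` (`k` from `TX3`), `w' = 2w + 6 ≥ 2(x+2)`, `x = Re z'`, `t1 = t + Im z'/L`, `φ = ζ`, `B5 = 2` (`norm_zeta_le_two`), `Bt = T^3` (`ph_grow`).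
 Left edge: `TX3` with `Im z' + τ` (`≤ 2L²`): `1 + |Im z' + τ| ≤ 2w'(1+|τ|/w')`, so the integral over `τ` is at most `K e^{Dθ} (2w')^k T Lam ∫ a/(a²+τ²) dτ`. Right edge: `((x+2)/L · (1+L/w')^{-m} · 2)² ≤ (w'/L)^{2m}·C` times `TX4` with `κ = lam-1`: `L^{(lam-1)²-2m} w'^{2m} → 0`, so `≤ T` for `T ≥ T0(w)` (`Lam ≥ 1`). Third term tiny. -/

set_option autoImplicit false

namespace Pool.Agent.LB

open Complex MeasureTheory Finset Pool.Agent.GH Pool.Agent.UH Pool.Agent.UV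
open scoped Real ComplexConjugate

private theorem D6_Lam_le (κ : ℝ) : ∃ K : ℝ, 1 ≤ K ∧
    ∀ {S : BS} {Ct θ D1 : ℝ} {N0 : ℕ}, TG S Ct θ D1 N0 →
    Real.exp (κ ^ 2 * ∑ p ∈ S.P, 1 / (p : ℝ)) ≤ K * Real.log S.T ^ (κ ^ 2) := by
  rcases eq_or_ne κ 0 with h | h
  · refine ⟨1, le_refl _, fun {S Ct θ D1 N0} hS => ?_⟩
    rw [h]
    simp
  · obtain ⟨K, hK, h1⟩ := Lam_le |κ| (abs_pos.2 h)
    refine ⟨K, hK, fun {S Ct θ D1 N0} hS => ?_⟩
    have h2 := h1 hS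
    unfold Lam at h2
    rw [sq_abs] at h2
    exact h2

private theorem D6_random (κ : ℝ) : ∃ C0 K : ℝ, 1 ≤ K ∧
    ∀ {S : BS} {Ct θ D1 : ℝ} {N0 : ℕ}, TG S Ct θ D1 N0 → C0 ≤ Ct →
    ∫ w, ‖RT S κ (nX 0 w)‖ ^ 2 ∂mu ≤ K * Real.log S.T ^ (κ ^ 2) := by
  obtain ⟨C0, Kf, hKf, hf⟩ := full5 |κ| (abs_nonneg κ)
  obtain ⟨KL, hKL, hL⟩ := D6_Lam_le κ
  refine ⟨C0, Kf * KL, by nlinarith, fun {S Ct θ D1 N0} hS hCt => ?_⟩
  set M : ℕ := ⌈S.T ^ (1 / 10 : ℝ)⌉₊ with hM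
  have hPM : S.P ⊆ Nat.primesBelow M := P_lt hS (Nat.le_ceil _)
  have hnorm : ∀ p : ℕ, p ≠ 0 → ‖(κ : ℂ) * (p : ℂ) ^ (-(1 / 2 + 0) : ℂ)‖ =
      |κ| * (p : ℝ) ^ (-(1 / 2) : ℝ) := by
    intro p hp
    have hp0 : (0 : ℝ) < p := Nat.cast_pos.2 (Nat.pos_of_ne_zero hp)
    rw [norm_mul, Complex.norm_real, Real.norm_eq_abs]
    congr 1
    rw [show ((p : ℂ)) = ((p : ℝ) : ℂ) by push_cast; rfl,
      Complex.norm_cpow_eq_rpow_re_of_pos hp0]
    congr 1
    simp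
  have h1 := hf hS hCt M hPM (fun _ => 0) (fun _ => 0) (fun _ => 0)
    (fun p => (κ : ℂ) * (p : ℂ) ^ (-(1 / 2 + 0) : ℂ)) (fun p hp => by
      have hp' := Nat.prime_of_mem_primesBelow hp
      have h0 : (0 : ℝ) ≤ (p : ℝ) ^ (-(1 / 2) : ℝ) := by positivity
      have h0' : (0 : ℝ) ≤ |κ| * (p : ℝ) ^ (-(1 / 2) : ℝ) := by positivity
      refine ⟨le_refl _, h0, by simpa using h0', by simpa using h0', fun _ => ?_⟩
      rw [hnorm p hp'.ne_zero])
  have h2 : ∀ w : Om, (∏ p ∈ Nat.primesBelow M, ‖(1 - (((fun _ => 0 : ℕ → ℝ) p : ℝ) : ℂ) *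
        X p w)⁻¹‖ ^ 2) *
      (∏ p ∈ Nat.primesBelow M, ‖1 - (fun _ => 0 : ℕ → ℂ) p * X p w‖ ^ 2) *
      Real.exp (2 * (∑ p ∈ Nat.primesBelow M, (fun _ => 0 : ℕ → ℂ) p * X p w).re) *
      (∏ j ∈ range (S.J + 1), ‖Ex (S.l j) (∑ p ∈ S.R j,
        (fun p : ℕ => (κ : ℂ) * (p : ℂ) ^ (-(1 / 2 + 0) : ℂ)) p * X p w)‖ ^ 2) =
      ‖RT S κ (nX 0 w)‖ ^ 2 := by
    intro w
    rw [RT_nX hS, norm_prod, ← Finset.prod_pow]
    simp
  rw [integral_congr_ae (Filter.Eventually.of_forall h2)] at h1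
  refine h1.trans ?_
  have h3 : ∑ p ∈ Nat.primesBelow M, ‖(((fun _ => 0 : ℕ → ℝ) p : ℝ) : ℂ) -
      (fun _ => 0 : ℕ → ℂ) p + (fun _ => 0 : ℕ → ℂ) p +
      (if p ∈ S.P then (fun p : ℕ => (κ : ℂ) * (p : ℂ) ^ (-(1 / 2 + 0) : ℂ)) p else 0)‖ ^ 2 =
      κ ^ 2 * ∑ p ∈ S.P, 1 / (p : ℝ) := by
    have e1 : ∀ p ∈ Nat.primesBelow M, ‖(((fun _ => 0 : ℕ → ℝ) p : ℝ) : ℂ) -
        (fun _ => 0 : ℕ → ℂ) p + (fun _ => 0 : ℕ → ℂ) p +
        (if p ∈ S.P then (fun p : ℕ => (κ : ℂ) * (p : ℂ) ^ (-(1 / 2 + 0) : ℂ)) p else 0)‖ ^ 2 =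
        if p ∈ S.P then κ ^ 2 * (1 / (p : ℝ)) else 0 := by
      intro p hp
      have hp' := Nat.prime_of_mem_primesBelow hp
      have hp0 : (0 : ℝ) < p := Nat.cast_pos.2 hp'.pos
      by_cases h : p ∈ S.P
      · simp only [if_pos h]
        have : ((((0 : ℝ)) : ℂ) - 0 + 0 + (κ : ℂ) * (p : ℂ) ^ (-(1 / 2 + 0) : ℂ)) =
          (κ : ℂ) * (p : ℂ) ^ (-(1 / 2 + 0) : ℂ) := by simp
        rw [this, hnorm p hp'.ne_zero, mul_pow, sq_abs]
        congr 1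
        rw [← Real.rpow_natCast, ← Real.rpow_mul hp0.le]
        norm_num
        rw [Real.rpow_neg_one]
      · simp only [if_neg h]
        simp
    rw [Finset.sum_congr rfl e1, ← Finset.sum_filter, Finset.mul_sum]
    congr 1
    ext p
    simp only [Finset.mem_filter]
    exact ⟨fun h => h.2, fun h => ⟨hPM h, h⟩⟩
  rw [h3]
  calc Kf * Real.exp (κ ^ 2 * ∑ p ∈ S.P, 1 / (p : ℝ)) ≤ Kf * (KL * Real.log S.T ^ (κ ^ 2)) := by
        have := hL hS
        gcongr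
    _ = _ := by ring

private theorem D6_logT {S : BS} {Ct θ D1 : ℝ} {N0 : ℕ} (hS : TG S Ct θ D1 N0) :
    0 < S.T ∧ 1 ≤ S.T ∧ 1000 ≤ Real.log S.T := by
  have h1 := hS.T_ge
  have h0 : 0 < S.T := lt_of_lt_of_le (Real.exp_pos _) h1
  refine ⟨h0, ?_, (Real.le_log_iff_exp_le h0).2 h1⟩
  exact le_trans (Real.one_le_exp (by norm_num)) h1

theorem TX4 (κ η : ℝ) (h1 : 0 < η) (h2 : η ≤ 1) : ∃ C0 K : ℝ, 1 ≤ K ∧
    ∀ {Ct θ D1 : ℝ} {N0 : ℕ}, C0 ≤ Ct → ∃ T0 : ℝ, ∀ {S : BS}, TG S Ct θ D1 N0 → T0 ≤ S.T →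
    ∫⁻ t in Dm η S.T, ENNReal.ofReal (‖RT S κ (nC (1 / 2 + t * I))‖ ^ 2) ≤
    ENNReal.ofReal (K * (S.T * Real.log S.T ^ (κ ^ 2))) := by
  obtain ⟨C, hC, hm⟩ := mean5 η h1 h2
  obtain ⟨C0, Kr, hKr, hr⟩ := D6_random κ
  refine ⟨max C0 |κ|, C * (Kr + 1), by nlinarith, fun {Ct θ D1 N0} hCt => ⟨1,
    fun {S} hS _ => ?_⟩⟩
  obtain ⟨hT0, hT1, hL⟩ := D6_logT hS
  have hκ : |κ| ≤ Ct := (le_max_right _ _).trans hCt
  have hC0 : C0 ≤ Ct := (le_max_left _ _).trans hCt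
  have hth : 7 * θ ^ 3 ≤ 1 / 4 := by
    have := pow_le_pow_left₀ hS.th_pos.le hS.th_le 3
    linarith [show ((1 : ℝ) / 100) ^ 3 = 1 / 1000000 by norm_num]
  have hth0 : 0 ≤ 7 * θ ^ 3 := by
    have := hS.th_pos
    positivity
  have hQ : 1 ≤ S.T ^ (7 * θ ^ 3) := Real.one_le_rpow hT1 hth0
  have h3 := hm (g := fun χ => RT S κ χ) hQ hT1 (RT_dp hS hκ)
  refine h3.trans (ENNReal.ofReal_le_ofReal ?_)
  have h4 := hr hS hC0
  have h5 : (S.T ^ (7 * θ ^ 3)) ^ 2 * (S.T ^ (7 * θ ^ 3)) ^ 2 ≤ S.T := by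
    have e1 : S.T ^ (7 * θ ^ 3) ≤ S.T ^ (1 / 4 : ℝ) := Real.rpow_le_rpow_of_exponent_le hT1 hth
    calc (S.T ^ (7 * θ ^ 3)) ^ 2 * (S.T ^ (7 * θ ^ 3)) ^ 2
        ≤ (S.T ^ (1 / 4 : ℝ)) ^ 2 * (S.T ^ (1 / 4 : ℝ)) ^ 2 := by gcongr
      _ = S.T := by
          rw [← pow_add, ← Real.rpow_natCast, ← Real.rpow_mul hT0.le]
          norm_num
  have h6 : 1 ≤ Real.log S.T ^ (κ ^ 2) := Real.one_le_rpow (by linarith) (by positivity)
  calc C * (S.T * (∫ v, ‖RT S κ (nX 0 v)‖ ^ 2 ∂mu) +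
        (S.T ^ (7 * θ ^ 3)) ^ 2 * (S.T ^ (7 * θ ^ 3)) ^ 2)
      ≤ C * (S.T * (Kr * Real.log S.T ^ (κ ^ 2)) + S.T * Real.log S.T ^ (κ ^ 2)) := by
        have e2 : S.T ≤ S.T * Real.log S.T ^ (κ ^ 2) := le_mul_of_one_le_right hT0.le h6
        have e3 : S.T * (∫ v, ‖RT S κ (nX 0 v)‖ ^ 2 ∂mu) ≤ S.T * (Kr * Real.log S.T ^ (κ ^ 2)) :=
          mul_le_mul_of_nonneg_left h4 hT0.le
        exact mul_le_mul_of_nonneg_left (add_le_add e3 (h5.trans e2)) (by linarith)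
    _ = _ := by ring

theorem XB2 (lam η : ℝ) (h0 : 0 < lam) (h1 : 0 < η) (h2 : η ≤ 1) : ∃ (C0 K : ℝ) (k : ℕ), 1 ≤ K ∧
    ∀ {Ct θ D1 : ℝ} {N0 : ℕ}, C0 ≤ Ct → ∃ T0 : ℝ, ∀ {S : BS}, TG S Ct θ D1 N0 → T0 ≤ S.T →
    ∀ z : ℂ, -2 ≤ z.re →
    ∫⁻ t in EE S lam η, ENNReal.ofReal (Real.exp (2 * x0 S t) * ‖MO 0 S.T (nC (pt S.T t z))‖ ^ 2 *
      uu S lam t) ≤
    ENNReal.ofReal (K * Real.exp (D1 + 5 * Real.log (1 / θ)) * (1 + ‖z‖) ^ k *
      (S.T * Lam S lam)) := by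
  obtain ⟨C0, K, k, hK, h⟩ := TX2 lam η h0 h1 h2
  refine ⟨C0, 16 * K, k, by linarith, fun {Ct θ D1 N0} hCt => ?_⟩
  obtain ⟨T0, h3⟩ := h (θ := θ) (D1 := D1) (N0 := N0) hCt
  refine ⟨T0, fun {S} hS hT z hz => ?_⟩
  have h4 := h3 hS hT z hz
  have hsub : EE S lam η ⊆ Dm η S.T := fun t ht => ht.1
  calc ∫⁻ t in EE S lam η, ENNReal.ofReal (Real.exp (2 * x0 S t) *
        ‖MO 0 S.T (nC (pt S.T t z))‖ ^ 2 * uu S lam t)
      ≤ ∫⁻ t in EE S lam η, ENNReal.ofReal 16 * ENNReal.ofReal (‖MO 0 S.T (nC (pt S.T t z))‖ ^ 2 *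
        ‖RT S (lam + 1) (nC (1 / 2 + t * I))‖ ^ 2) := by
        refine setLIntegral_mono' (EE_measurable S lam η ?_) fun t ht => ?_
        · intro j hj p hp
          exact (hS.prime j hj p hp).1.ne_zero
        · rw [← ENNReal.ofReal_mul (by norm_num)]
          refine ENNReal.ofReal_le_ofReal ?_
          have e1 := (gd_uu hS h0 ht.2).2.1
          calc Real.exp (2 * x0 S t) * ‖MO 0 S.T (nC (pt S.T t z))‖ ^ 2 * uu S lam t
              = ‖MO 0 S.T (nC (pt S.T t z))‖ ^ 2 * (Real.exp (2 * x0 S t) * uu S lam t) := by ring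
            _ ≤ ‖MO 0 S.T (nC (pt S.T t z))‖ ^ 2 *
                (16 * ‖RT S (lam + 1) (nC (1 / 2 + t * I))‖ ^ 2) := by gcongr
            _ = _ := by ring
    _ = ENNReal.ofReal 16 * ∫⁻ t in EE S lam η, ENNReal.ofReal (‖MO 0 S.T (nC (pt S.T t z))‖ ^ 2 *
        ‖RT S (lam + 1) (nC (1 / 2 + t * I))‖ ^ 2) :=
        lintegral_const_mul' _ _ ENNReal.ofReal_ne_top
    _ ≤ ENNReal.ofReal 16 * ∫⁻ t in Dm η S.T, ENNReal.ofReal (‖MO 0 S.T (nC (pt S.T t z))‖ ^ 2 *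
        ‖RT S (lam + 1) (nC (1 / 2 + t * I))‖ ^ 2) := by
        gcongr
    _ ≤ ENNReal.ofReal 16 * ENNReal.ofReal (K * Real.exp (D1 + 5 * Real.log (1 / θ)) *
        (1 + ‖z‖) ^ k * (S.T * Lam S lam)) := by gcongr
    _ = _ := by
        rw [← ENNReal.ofReal_mul (by norm_num)]
        congr 1
        ring

theorem XB4 (lam η : ℝ) (h0 : 0 < lam) (h1 : 0 < η) (h2 : η ≤ 1) : ∃ (C0 K : ℝ) (k : ℕ), 1 ≤ K ∧
    ∀ {Ct θ D1 : ℝ} {N0 : ℕ}, C0 ≤ Ct → ∃ T0 : ℝ, ∀ {S : BS}, TG S Ct θ D1 N0 → T0 ≤ S.T →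
    ∀ z : ℂ, -2 ≤ z.re → z.re ≤ 15 * Real.log S.T → |z.im| ≤ 15 * Real.log S.T →
    ∫⁻ t in EE S lam η, ENNReal.ofReal (Real.exp (2 * x0 S t) * ‖ch (pt S.T t z)‖ *
      ‖MO 0 S.T (nC (pt S.T t z))‖ ^ 2 * uu S lam t) ≤
    ENNReal.ofReal (K * Real.exp (D1 + 5 * Real.log (1 / θ)) * (1 + ‖z‖) ^ k *
      Real.exp (-(z.re / 2)) * (S.T * Lam S lam)) := by
  obtain ⟨C0, K, k, hK, h⟩ := XB2 lam η h0 h1 h2
  obtain ⟨T1, hch⟩ := ch_pt η h1 h2
  refine ⟨C0, 30 * K, k, by linarith, fun {Ct θ D1 N0} hCt => ?_⟩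
  obtain ⟨T0, h3⟩ := h (θ := θ) (D1 := D1) (N0 := N0) hCt
  refine ⟨max T0 T1, fun {S} hS hT z hz hz1 hz2 => ?_⟩
  have h4 := h3 hS ((le_max_left _ _).trans hT) z hz
  obtain ⟨hT0, hT1, hL⟩ := D6_logT hS
  have hne : ∀ j ≤ S.J, ∀ p ∈ S.R j, p ≠ 0 := fun j hj p hp => (hS.prime j hj p hp).1.ne_zero
  calc ∫⁻ t in EE S lam η, ENNReal.ofReal (Real.exp (2 * x0 S t) * ‖ch (pt S.T t z)‖ *
        ‖MO 0 S.T (nC (pt S.T t z))‖ ^ 2 * uu S lam t)
      ≤ ∫⁻ t in EE S lam η, ENNReal.ofReal (30 * Real.exp (-(z.re / 2))) *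
        ENNReal.ofReal (Real.exp (2 * x0 S t) * ‖MO 0 S.T (nC (pt S.T t z))‖ ^ 2 *
          uu S lam t) := by
        refine setLIntegral_mono' (EE_measurable S lam η hne) fun t ht => ?_
        rw [← ENNReal.ofReal_mul (by positivity)]
        refine ENNReal.ofReal_le_ofReal ?_
        have e1 := hch S.T t z ((le_max_right _ _).trans hT) ht.1 (by linarith) hz1
          (hz2.trans (by nlinarith))
        have hu : 0 ≤ uu S lam t := by unfold uu; positivity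
        calc Real.exp (2 * x0 S t) * ‖ch (pt S.T t z)‖ *
            ‖MO 0 S.T (nC (pt S.T t z))‖ ^ 2 * uu S lam t
            = ‖ch (pt S.T t z)‖ * (Real.exp (2 * x0 S t) *
              ‖MO 0 S.T (nC (pt S.T t z))‖ ^ 2 * uu S lam t) := by ring
          _ ≤ _ := by gcongr
    _ = ENNReal.ofReal (30 * Real.exp (-(z.re / 2))) * ∫⁻ t in EE S lam η,
        ENNReal.ofReal (Real.exp (2 * x0 S t) * ‖MO 0 S.T (nC (pt S.T t z))‖ ^ 2 *
          uu S lam t) := lintegral_const_mul' _ _ ENNReal.ofReal_ne_top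
    _ ≤ ENNReal.ofReal (30 * Real.exp (-(z.re / 2))) * ENNReal.ofReal (K *
        Real.exp (D1 + 5 * Real.log (1 / θ)) * (1 + ‖z‖) ^ k * (S.T * Lam S lam)) := by gcongr
    _ = _ := by
        rw [← ENNReal.ofReal_mul (by positivity)]
        congr 1
        ring


private theorem D6_zeta_meas : Measurable riemannZeta := by
  refine measurable_of_continuousOn_compl_singleton 1 fun s hs => ?_
  exact (differentiableAt_riemannZeta hs).continuousAt.continuousWithinAt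

/-- Jensen / Cauchy-Schwarz on the circle. -/
private theorem D6_avg {f : ℝ → ℝ} (hf : Continuous f) :
    ((2 * π)⁻¹ * ∫ ϑ in (0 : ℝ)..(2 * π), f ϑ) ^ 2 ≤
      (2 * π)⁻¹ * ∫ ϑ in (0 : ℝ)..(2 * π), f ϑ ^ 2 := by
  set a : ℝ := (2 * π)⁻¹ * ∫ ϑ in (0 : ℝ)..(2 * π), f ϑ with ha
  have hpi := Real.pi_pos
  have h0 : 0 ≤ ∫ ϑ in (0 : ℝ)..(2 * π), (f ϑ - a) ^ 2 :=
    intervalIntegral.integral_nonneg (by positivity) fun _ _ => by positivity
  have h1 : ∫ ϑ in (0 : ℝ)..(2 * π), (f ϑ - a) ^ 2 =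
      (∫ ϑ in (0 : ℝ)..(2 * π), f ϑ ^ 2) - 2 * a * (∫ ϑ in (0 : ℝ)..(2 * π), f ϑ) +
        2 * π * a ^ 2 := by
    have e1 : ∀ ϑ, (f ϑ - a) ^ 2 = (f ϑ ^ 2 - 2 * a * f ϑ) + a ^ 2 := fun ϑ => by ring
    simp_rw [e1]
    rw [intervalIntegral.integral_add, intervalIntegral.integral_sub,
      intervalIntegral.integral_const_mul, intervalIntegral.integral_const]
    · simp
    all_goals exact Continuous.intervalIntegrable (by fun_prop) _ _
  have h2 : ∫ ϑ in (0 : ℝ)..(2 * π), f ϑ = 2 * π * a := by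
    rw [ha, ← mul_assoc, mul_inv_cancel₀ (by positivity), one_mul]
  rw [h1, h2] at h0
  have h3 : 2 * π * a ^ 2 ≤ ∫ ϑ in (0 : ℝ)..(2 * π), f ϑ ^ 2 := by nlinarith
  calc a ^ 2 = (2 * π)⁻¹ * (2 * π * a ^ 2) := by field_simp
    _ ≤ _ := by gcongr

private theorem D6_cauchy {L : ℝ} (hL : 1 ≤ L) {s : ℂ} (hs : 2 ≤ s.im) :
    ENNReal.ofReal (‖deriv riemannZeta s / (L : ℝ)‖ ^ 2) ≤
    ENNReal.ofReal ((2 * π)⁻¹) * ∫⁻ ϑ in Set.Ioc 0 (2 * π),
      ENNReal.ofReal (‖riemannZeta (s + cexp (ϑ * I) / (L : ℝ))‖ ^ 2) := by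
  have hL0 : 0 < L := by linarith
  have hpi := Real.pi_pos
  have hR : 0 < 1 / L := by positivity
  have hR1 : 1 / L ≤ 1 := by
    rw [div_le_one hL0]
    exact hL
  have hdiff : ∀ z ∈ Metric.closedBall s (1 / L), DifferentiableAt ℂ riemannZeta z := by
    intro z hz
    refine differentiableAt_riemannZeta ?_
    rintro rfl
    have h1 : ‖(1 : ℂ) - s‖ ≤ 1 / L := by
      rw [← dist_eq_norm]
      exact hz
    have h2 := Complex.abs_im_le_norm ((1 : ℂ) - s)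
    have h3 : |((1 : ℂ) - s).im| = |s.im| := by
      simp
    rw [h3] at h2
    have := le_abs_self s.im
    linarith
  have hd : DiffContOnCl ℂ riemannZeta (Metric.ball s (1 / L)) := by
    refine DifferentiableOn.diffContOnCl fun z hz => ?_
    rw [closure_ball _ hR.ne'] at hz
    exact (hdiff z hz).differentiableWithinAt
  have h1 := hd.deriv_eq_smul_circleIntegral hR
  have hcm : ∀ ϑ : ℝ, circleMap s (1 / L) ϑ = s + cexp (ϑ * I) / (L : ℝ) := by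
    intro ϑ
    rw [circleMap]
    push_cast
    ring
  set f : ℝ → ℝ := fun ϑ => ‖riemannZeta (s + cexp (ϑ * I) / (L : ℝ))‖ with hf
  have hfc : Continuous f := by
    refine Continuous.norm ?_
    rw [continuous_iff_continuousAt]
    intro ϑ
    have h2 : ContinuousAt riemannZeta (s + cexp (ϑ * I) / (L : ℝ)) := by
      refine (hdiff _ ?_).continuousAt
      rw [← hcm]
      exact circleMap_mem_closedBall s hR.le ϑ
    have h3 : ContinuousAt (fun ϑ : ℝ => s + cexp (ϑ * I) / (L : ℝ)) ϑ := by fun_prop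
    exact ContinuousAt.comp (f := fun ϑ : ℝ => s + cexp (ϑ * I) / (L : ℝ)) h2 h3
  have h2 : ‖deriv riemannZeta s / (L : ℝ)‖ ≤ (2 * π)⁻¹ * ∫ ϑ in (0 : ℝ)..(2 * π), f ϑ := by
    have e1 : ‖(2 * π * I : ℂ)‖ = 2 * π := by
      rw [norm_mul, norm_mul, Complex.norm_I, Complex.norm_real, Real.norm_of_nonneg hpi.le]
      simp
    have e2 := congrArg norm h1
    rw [smul_eq_mul, norm_mul, e1] at e2
    have e3 : ‖∮ z in C(s, 1 / L), (1 / (z - s) ^ 2) • riemannZeta z‖ ≤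
        L * ∫ ϑ in (0 : ℝ)..(2 * π), f ϑ := by
      rw [circleIntegral, ← intervalIntegral.integral_const_mul]
      refine (intervalIntegral.norm_integral_le_integral_norm (by positivity)).trans (le_of_eq ?_)
      refine intervalIntegral.integral_congr fun ϑ _ => ?_
      simp only [hf]
      rw [norm_smul, norm_smul, deriv_circleMap, norm_mul, Complex.norm_I, mul_one,
        norm_circleMap_zero, norm_div, norm_pow, circleMap_sub_center, norm_circleMap_zero,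
        abs_of_pos hR, hcm, norm_one]
      field_simp
    rw [e2] at e3
    rw [norm_div, Complex.norm_real, Real.norm_of_nonneg hL0.le, div_le_iff₀ hL0]
    calc ‖deriv riemannZeta s‖ = (2 * π)⁻¹ * (2 * π * ‖deriv riemannZeta s‖) := by field_simp
      _ ≤ (2 * π)⁻¹ * (L * ∫ ϑ in (0 : ℝ)..(2 * π), f ϑ) := by gcongr
      _ = _ := by ring
  have h3 : ‖deriv riemannZeta s / (L : ℝ)‖ ^ 2 ≤
      (2 * π)⁻¹ * ∫ ϑ in (0 : ℝ)..(2 * π), f ϑ ^ 2 :=
    (pow_le_pow_left₀ (norm_nonneg _) h2 2).trans (D6_avg hfc)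
  refine (ENNReal.ofReal_le_ofReal h3).trans ?_
  rw [ENNReal.ofReal_mul (by positivity)]
  refine mul_le_mul_right ?_ _
  rw [intervalIntegral.integral_of_le (by positivity), ofReal_integral_eq_lintegral_ofReal]
  · exact (Continuous.integrableOn_Icc (by fun_prop)).mono_set Set.Ioc_subset_Icc_self
  · exact Filter.Eventually.of_forall fun ϑ => by positivity

/-- The Poisson kernel. -/
private theorem D6_poisson {a : ℝ} (ha : 0 < a) (s : Set ℝ) :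
    ∫⁻ τ in s, ENNReal.ofReal (a / (a ^ 2 + τ ^ 2)) ≤ ENNReal.ofReal π := by
  have h1 : ∀ τ : ℝ, a / (a ^ 2 + τ ^ 2) = a⁻¹ * (1 + (τ / a) ^ 2)⁻¹ := by
    intro τ
    field_simp
  have h2 : Integrable fun τ : ℝ => a / (a ^ 2 + τ ^ 2) := by
    simp_rw [h1]
    refine Integrable.const_mul ?_ _
    exact (integrable_inv_one_add_sq).comp_div ha.ne'
  have h3 : ∫ τ : ℝ, a / (a ^ 2 + τ ^ 2) = π := by
    simp_rw [h1]
    rw [integral_const_mul, MeasureTheory.Measure.integral_comp_div (fun x : ℝ => (1 + x ^ 2)⁻¹),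
      integral_univ_inv_one_add_sq, abs_of_pos ha, smul_eq_mul]
    field_simp
  calc ∫⁻ τ in s, ENNReal.ofReal (a / (a ^ 2 + τ ^ 2))
      ≤ ∫⁻ τ, ENNReal.ofReal (a / (a ^ 2 + τ ^ 2)) := setLIntegral_le_lintegral _ _
    _ = ENNReal.ofReal (∫ τ : ℝ, a / (a ^ 2 + τ ^ 2)) := by
        rw [ofReal_integral_eq_lintegral_ofReal h2]
        exact Filter.Eventually.of_forall fun τ => by positivity
    _ = _ := by rw [h3]


private theorem D6_pt (T t : ℝ) (z : ℂ) : (1 / 2 : ℂ) + ((z.re / Real.log T : ℝ) : ℂ) +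
    ((t + z.im / Real.log T : ℝ) : ℂ) * I = pt T t z := by
  unfold pt
  conv_rhs => rw [← Complex.re_add_im z]
  push_cast
  ring

private theorem D6_ne {S : BS} {Ct θ D1 : ℝ} {N0 : ℕ} (hS : TG S Ct θ D1 N0) :
    ∀ j ≤ S.J, ∀ p ∈ S.R j, p ≠ 0 := fun j hj p hp => (hS.prime j hj p hp).1.ne_zero

private theorem D6_small {η T : ℝ} (h1 : 0 < η) (hT0 : 0 < T) (hT : 36 / η ^ 2 ≤ T)
    (hL : 1000 ≤ Real.log T) : 2 * Real.log T + 1 ≤ η * T := by
  have e1 : Real.log T = 2 * Real.log (Real.sqrt T) := by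
    rw [Real.log_sqrt hT0.le]
    ring
  have e2 : Real.log (Real.sqrt T) ≤ Real.sqrt T := by
    have := Real.log_le_sub_one_of_pos (Real.sqrt_pos.2 hT0)
    linarith
  have e3 : 6 / η ≤ Real.sqrt T := by
    refine Real.le_sqrt_of_sq_le ?_
    rw [div_pow]
    norm_num
    exact hT
  have e4 : 6 ≤ η * Real.sqrt T := by
    rw [div_le_iff₀ h1] at e3
    linarith
  have e5 : Real.sqrt T * Real.sqrt T = T := Real.mul_self_sqrt hT0.le
  have e6 : 6 * Real.sqrt T ≤ η * Real.sqrt T * Real.sqrt T :=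
    mul_le_mul_of_nonneg_right e4 (Real.sqrt_nonneg T)
  rw [mul_assoc, e5] at e6
  linarith

/-- The error terms of the decay lemma. -/
private theorem D6_err {L w x : ℝ} {n0 m : ℕ} (hn : n0 ≤ m) (hL : 1000 ≤ L) (hw : 1 ≤ w)
    (hx : -1 ≤ x) (hx1 : x ≤ w + 1) :
    (((x + 2) / L / (1 + L / (2 * w + 6)) ^ m * 2) ^ 2 +
      (Real.exp (-(L ^ 2 / 2)) * Real.exp L ^ 3) ^ 2) * L ^ n0 ≤
    4 * 8 ^ (2 * m + 2) * w ^ (2 * m + 2) + n0.factorial := by
  have hL0 : 0 < L := by linarith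
  have hw' : 0 < 2 * w + 6 := by linarith
  rw [add_mul]
  refine add_le_add ?_ ?_
  · have e1 : (x + 2) / L / (1 + L / (2 * w + 6)) ^ m ≤ ((2 * w + 6) / L) ^ (m + 1) := by
      have f1 : (x + 2) / L ≤ (2 * w + 6) / L := div_le_div_of_nonneg_right (by linarith) hL0.le
      have f2 : (L / (2 * w + 6)) ^ m ≤ (1 + L / (2 * w + 6)) ^ m :=
        pow_le_pow_left₀ (by positivity) (by linarith) m
      have f3 : 0 < (L / (2 * w + 6)) ^ m := by positivity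
      have f4 : 0 ≤ (2 * w + 6) / L := by positivity
      calc (x + 2) / L / (1 + L / (2 * w + 6)) ^ m
          ≤ ((2 * w + 6) / L) / (L / (2 * w + 6)) ^ m := div_le_div₀ f4 f1 f3 f2
        _ = ((2 * w + 6) / L) ^ (m + 1) := by
            rw [pow_succ, div_eq_mul_inv, ← inv_pow, inv_div]
            ring
    have e0 : 0 ≤ (x + 2) / L / (1 + L / (2 * w + 6)) ^ m := by
      have : 0 ≤ x + 2 := by linarith
      positivity
    have e2 : ((x + 2) / L / (1 + L / (2 * w + 6)) ^ m * 2) ^ 2 ≤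
        (((2 * w + 6) / L) ^ (m + 1) * 2) ^ 2 :=
      pow_le_pow_left₀ (by positivity) (by linarith) 2
    have e3 : (((2 * w + 6) / L) ^ (m + 1) * 2) ^ 2 = 4 * (2 * w + 6) ^ (2 * m + 2) /
        L ^ (2 * m + 2) := by
      rw [mul_pow, ← pow_mul, div_pow, show (m + 1) * 2 = 2 * m + 2 by ring]
      ring
    have e4 : L ^ n0 ≤ L ^ (2 * m + 2) := pow_le_pow_right₀ (by linarith) (by omega)
    have e5 : (2 * w + 6) ^ (2 * m + 2) ≤ 8 ^ (2 * m + 2) * w ^ (2 * m + 2) := by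
      rw [← mul_pow]
      exact pow_le_pow_left₀ hw'.le (by linarith) _
    calc ((x + 2) / L / (1 + L / (2 * w + 6)) ^ m * 2) ^ 2 * L ^ n0
        ≤ (4 * (2 * w + 6) ^ (2 * m + 2) / L ^ (2 * m + 2)) * L ^ (2 * m + 2) := by
          rw [← e3]
          gcongr
      _ = 4 * (2 * w + 6) ^ (2 * m + 2) := by field_simp
      _ ≤ 4 * (8 ^ (2 * m + 2) * w ^ (2 * m + 2)) := by gcongr
      _ = _ := by ring
  · have e1 : L ^ n0 ≤ n0.factorial * Real.exp L := by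
      have := Real.pow_div_factorial_le_exp L hL0.le n0
      rw [div_le_iff₀ (by positivity)] at this
      linarith
    have e2 : (Real.exp (-(L ^ 2 / 2)) * Real.exp L ^ 3) ^ 2 * Real.exp L ≤ 1 := by
      rw [mul_pow, ← pow_mul, ← Real.exp_nat_mul, ← Real.exp_nat_mul, ← Real.exp_add,
        ← Real.exp_add]
      refine Real.exp_le_one_iff.2 ?_
      push_cast
      nlinarith
    calc (Real.exp (-(L ^ 2 / 2)) * Real.exp L ^ 3) ^ 2 * L ^ n0
        ≤ (Real.exp (-(L ^ 2 / 2)) * Real.exp L ^ 3) ^ 2 * (n0.factorial * Real.exp L) := by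
          gcongr
      _ = n0.factorial * ((Real.exp (-(L ^ 2 / 2)) * Real.exp L ^ 3) ^ 2 * Real.exp L) := by ring
      _ ≤ n0.factorial * 1 := by gcongr
      _ = _ := mul_one _

private theorem D6_offset {w y τ : ℝ} {k m : ℕ} (hk : k ≤ m) (hw : 1 ≤ w) (hy : |y| ≤ w + 1) :
    (1 + |y + τ|) ^ k ≤ (16 * w) ^ k * (1 + |τ| / (2 * w + 6)) ^ m := by
  have hw' : 0 < 2 * w + 6 := by linarith
  have h0 : 0 ≤ |τ| / (2 * w + 6) := by positivity
  have h1 : 1 + |y + τ| ≤ 16 * w * (1 + |τ| / (2 * w + 6)) := by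
    have e1 : |y + τ| ≤ |y| + |τ| := abs_add_le _ _
    have e2 : |τ| ≤ 16 * w * (|τ| / (2 * w + 6)) := by
      rw [mul_div_assoc', le_div_iff₀ hw']
      have := abs_nonneg τ
      nlinarith
    nlinarith
  calc (1 + |y + τ|) ^ k ≤ (16 * w * (1 + |τ| / (2 * w + 6))) ^ k :=
        pow_le_pow_left₀ (by positivity) h1 k
    _ = (16 * w) ^ k * (1 + |τ| / (2 * w + 6)) ^ k := mul_pow _ _ _
    _ ≤ (16 * w) ^ k * (1 + |τ| / (2 * w + 6)) ^ m := by
        have : (1 + |τ| / (2 * w + 6)) ^ k ≤ (1 + |τ| / (2 * w + 6)) ^ m :=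
          pow_le_pow_right₀ (by linarith) hk
        gcongr

private theorem D6_key (lam η : ℝ) (h0 : 0 < lam) (h1 : 0 < η) (h2 : η ≤ 1) :
    ∃ (C0 K : ℝ) (k : ℕ), 1 ≤ K ∧
    ∀ w : ℝ, 1 ≤ w →
    ∀ {Ct θ D1 : ℝ} {N0 : ℕ}, C0 ≤ Ct → ∃ T0 : ℝ, ∀ {S : BS}, TG S Ct θ D1 N0 → T0 ≤ S.T →
    ∀ z : ℂ, -1 ≤ z.re → z.re ≤ w + 1 → |z.im| ≤ w + 1 →
    ∫⁻ t in EE S lam η, ENNReal.ofReal (‖riemannZeta (pt S.T t z)‖ ^ 2) *
      ENNReal.ofReal (Real.exp (-(2 * x0 S t)) * uu S lam t) ≤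
    ENNReal.ofReal (K * Real.exp (D1 + 5 * Real.log (1 / θ)) * w ^ k * (S.T * Lam S lam)) := by
  obtain ⟨C3, K3, k3, hK3, hTX3⟩ := TX3 lam η h0 h1 h2
  obtain ⟨C4, K4, hK4, hTX4⟩ := TX4 (lam - 1) η h1 h2
  set n0 : ℕ := ⌈(lam - 1) ^ 2⌉₊ with hn0
  set m : ℕ := k3 + n0 with hm
  obtain ⟨Cd, hCd, hdec⟩ := dec m
  obtain ⟨Tg, hgrow⟩ := ph_grow η h1 h2
  have hpi := Real.pi_pos
  have hpi3 := Real.pi_gt_three
  refine ⟨max C3 C4, 16 * Cd * (K3 * 16 ^ k3 * π + (4 * 8 ^ (2 * m + 2) + n0.factorial) * K4),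
    2 * m + 2, ?_, fun w hw {Ct θ D1 N0} hCt => ?_⟩
  · have e1 : (1 : ℝ) ≤ 16 ^ k3 := one_le_pow₀ (by norm_num)
    have e2 : 1 ≤ K3 * 16 ^ k3 * π := by
      have : 1 ≤ K3 * 16 ^ k3 := by nlinarith
      nlinarith
    have e3 : 0 ≤ (4 * 8 ^ (2 * m + 2) + (n0.factorial : ℝ)) * K4 := by positivity
    nlinarith
  obtain ⟨T3, hT3⟩ := hTX3 (θ := θ) (D1 := D1) (N0 := N0) ((le_max_left _ _).trans hCt)
  obtain ⟨T4, hT4⟩ := hTX4 (θ := θ) (D1 := D1) (N0 := N0) ((le_max_right _ _).trans hCt)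
  refine ⟨max (max (max T3 T4) Tg) (max (Real.exp (w + 2)) (36 / η ^ 2)),
    fun {S} hS hT z hz1 hz2 hz3 => ?_⟩
  have hTa : T3 ≤ S.T := ((le_max_left _ _).trans ((le_max_left _ _).trans (le_max_left _ _))).trans hT
  have hTb : T4 ≤ S.T := ((le_max_right _ _).trans ((le_max_left _ _).trans (le_max_left _ _))).trans hT
  have hTc : Tg ≤ S.T := ((le_max_right _ _).trans (le_max_left _ _)).trans hT
  have hTd : Real.exp (w + 2) ≤ S.T := ((le_max_left _ _).trans (le_max_right _ _)).trans hT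
  have hTe : 36 / η ^ 2 ≤ S.T := ((le_max_right _ _).trans (le_max_right _ _)).trans hT
  obtain ⟨hT0, hT1, hL⟩ := D6_logT hS
  have hne := D6_ne hS
  have hw2 : w + 2 ≤ Real.log S.T := (Real.le_log_iff_exp_le hT0).2 hTd
  have hsm := D6_small h1 hT0 hTe hL
  have hLT : Real.log S.T + 1 ≤ S.T := by
    have := Real.log_le_sub_one_of_pos hT0
    linarith
  have hTη : S.T ≤ S.T / η := by
    rw [le_div_iff₀ h1]
    nlinarith
  have hexpL : Real.exp (Real.log S.T) = S.T := Real.exp_log hT0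
  set L := Real.log S.T with hLdef
  have hL0 : 0 < L := by linarith
  set a : ℝ := z.re + 2 with ha
  have ha0 : 0 < a := by rw [ha]; linarith
  set w' : ℝ := 2 * w + 6 with hw'
  have hw'0 : 0 < w' := by rw [hw']; linarith
  obtain ⟨Wt, hWt⟩ : ∃ Wt : ℝ → ℝ, ∀ τ, Wt τ = a / (a ^ 2 + τ ^ 2) / (1 + |τ| / w') ^ m :=
    ⟨_, fun _ => rfl⟩
  have hWt0 : ∀ τ, 0 ≤ Wt τ := fun τ => by rw [hWt]; positivity
  have hWtm : Measurable Wt := by
    have : Wt = fun τ => a / (a ^ 2 + τ ^ 2) / (1 + |τ| / w') ^ m := funext hWt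
    rw [this]
    fun_prop
  obtain ⟨F, hF⟩ : ∃ F : ℝ → ℝ → ℝ, ∀ t τ, F t τ = ‖riemannZeta ((1 / 2 - 2 / L : ℝ) +
    (t + (z.im + τ) / L : ℝ) * I)‖ ^ 2 := ⟨fun t τ => _, fun _ _ => rfl⟩
  have hF0 : ∀ t τ, 0 ≤ F t τ := fun t τ => by
    rw [hF]
    positivity
  have hFm : Measurable fun q : ℝ × ℝ => F q.1 q.2 := by
    have e1 : Measurable fun q : ℝ × ℝ => (((1 / 2 - 2 / L : ℝ) : ℂ) +
      ((q.1 + (z.im + q.2) / L : ℝ) : ℂ) * I) := by fun_prop
    have e2 := (D6_zeta_meas.comp e1).norm.pow_const 2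
    simp only [hF]
    exact e2
  have hFt : ∀ t, Measurable fun τ => F t τ := fun t => by
    have e1 : Measurable fun τ : ℝ => (((1 / 2 - 2 / L : ℝ) : ℂ) +
      ((t + (z.im + τ) / L : ℝ) : ℂ) * I) := by fun_prop
    have e2 := (D6_zeta_meas.comp e1).norm.pow_const 2
    simp only [hF]
    exact e2
  obtain ⟨Rq, hRq⟩ : ∃ Rq : ℝ → ℝ, ∀ t : ℝ, Rq t = ‖RT S (lam - 1) (nC (1 / 2 + t * I))‖ ^ 2 :=
    ⟨fun t => _, fun _ => rfl⟩
  have hRqc : Continuous Rq := by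
    have : Rq = uu S (lam - 1) := funext fun t => by rw [hRq, uu]
    rw [this]
    exact uu_continuous S (lam - 1) hne
  have hRq0 : ∀ t, 0 ≤ Rq t := fun t => by rw [hRq]; positivity
  obtain ⟨B, hB⟩ : ∃ B : ℝ, B = ((z.re + 2) / L / (1 + L / w') ^ m * 2) ^ 2 +
      (Real.exp (-(L ^ 2 / 2)) * Real.exp L ^ 3) ^ 2 := ⟨_, rfl⟩
  have hB0 : 0 ≤ B := by rw [hB]; positivity
  set A : Set ℝ := Set.Ioc (-L ^ 2) (L ^ 2) with hA
  have hzL : |z.im / L| ≤ 1 := by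
    rw [abs_div, abs_of_pos hL0, div_le_one hL0]
    linarith
  rw [abs_le] at hzL
  -- the pointwise bound
  have hpoint : ∀ t ∈ EE S lam η, ENNReal.ofReal (‖riemannZeta (pt S.T t z)‖ ^ 2) *
      ENNReal.ofReal (Real.exp (-(2 * x0 S t)) * uu S lam t) ≤
      ENNReal.ofReal (16 * Cd) * ((∫⁻ τ in A, ENNReal.ofReal (F t τ) * ENNReal.ofReal (Wt τ) *
        ENNReal.ofReal (Rq t)) + ENNReal.ofReal B * ENNReal.ofReal (Rq t)) := by
    intro t ht
    have ht1 : η * S.T ≤ t := ht.1.1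
    have ht2 : t ≤ S.T / η := ht.1.2
    have hd := hdec L 0 w' z.re (t + z.im / L) 2 (S.T ^ 3) riemannZeta hL (by linarith [hzL.1])
      le_rfl zero_le_one hw'0 (by linarith) (by linarith) (Or.inr (by rw [hw']; linarith))
      (fun s hs => differentiableAt_riemannZeta (by
        rintro rfl
        norm_num at hs))
      (fun τ _ => norm_zeta_le_two (by simp; norm_num))
      (fun s hs1 hs2 hs3 => by
        rw [abs_le] at hs3
        refine (hgrow S.T s hTc hs1 (by linarith) (by linarith [hzL.1, hs3.1]) ?_).2.2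
        calc s.im ≤ S.T / η + S.T / η := by linarith [hzL.2, hs3.2]
          _ = 2 * S.T / η := by ring)
    rw [D6_pt] at hd
    have hI : ENNReal.ofReal (∫ τ in (-L ^ 2)..(L ^ 2),
        ‖riemannZeta ((1 / 2 - 2 / L : ℝ) + (t + z.im / L + τ / L : ℝ) * I)‖ ^ 2 *
          ((z.re + 2) / ((z.re + 2) ^ 2 + τ ^ 2) / (1 + |τ| / w') ^ m)) ≤
        ∫⁻ τ in A, ENNReal.ofReal (F t τ) * ENNReal.ofReal (Wt τ) := by
      have e0 : ∀ τ : ℝ, ‖riemannZeta ((1 / 2 - 2 / L : ℝ) + (t + z.im / L + τ / L : ℝ) * I)‖ ^ 2 *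
          ((z.re + 2) / ((z.re + 2) ^ 2 + τ ^ 2) / (1 + |τ| / w') ^ m) = F t τ * Wt τ := by
        intro τ
        rw [hF, hWt, ha, show t + z.im / L + τ / L = t + (z.im + τ) / L by ring]
      simp_rw [e0]
      rw [intervalIntegral.integral_of_le (by nlinarith)]
      have e1 : Measurable fun τ => F t τ * Wt τ := (hFt t).mul hWtm
      have e2 : ∀ᵐ τ ∂(volume.restrict (Set.Ioc (-L ^ 2) (L ^ 2))), 0 ≤ F t τ * Wt τ :=
        Filter.Eventually.of_forall fun τ => mul_nonneg (hF0 t τ) (hWt0 τ)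
      rw [integral_eq_lintegral_of_nonneg_ae e2 e1.aestronglyMeasurable]
      refine ENNReal.ofReal_toReal_le.trans (le_of_eq ?_)
      refine lintegral_congr fun τ => ?_
      exact ENNReal.ofReal_mul (hF0 t τ)
    have hI0 : 0 ≤ ∫ τ in (-L ^ 2)..(L ^ 2),
        ‖riemannZeta ((1 / 2 - 2 / L : ℝ) + (t + z.im / L + τ / L : ℝ) * I)‖ ^ 2 *
          ((z.re + 2) / ((z.re + 2) ^ 2 + τ ^ 2) / (1 + |τ| / w') ^ m) := by
      refine intervalIntegral.integral_nonneg (by nlinarith) fun τ _ => ?_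
      have : 0 ≤ z.re + 2 := by linarith
      positivity
    obtain ⟨It, hIt⟩ : ∃ It : ℝ, It = ∫ τ in (-L ^ 2)..(L ^ 2),
        ‖riemannZeta ((1 / 2 - 2 / L : ℝ) + (t + z.im / L + τ / L : ℝ) * I)‖ ^ 2 *
          ((z.re + 2) / ((z.re + 2) ^ 2 + τ ^ 2) / (1 + |τ| / w') ^ m) := ⟨_, rfl⟩
    rw [← hIt] at hI hI0 hd
    have hd2 : ‖riemannZeta (pt S.T t z)‖ ^ 2 ≤ Cd * (It + B) := by
      refine hd.trans (le_of_eq ?_)
      rw [hB, hexpL]
      simp only [mul_zero, zero_mul, neg_zero, Real.exp_zero, one_mul]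
      ring
    have hg := (gd_uu hS h0 ht.2).2.2
    rw [← hRq] at hg
    calc ENNReal.ofReal (‖riemannZeta (pt S.T t z)‖ ^ 2) *
          ENNReal.ofReal (Real.exp (-(2 * x0 S t)) * uu S lam t)
        ≤ ENNReal.ofReal (Cd * (It + B)) * ENNReal.ofReal (16 * Rq t) := by
          gcongr
      _ = ENNReal.ofReal (16 * Cd) * (ENNReal.ofReal It * ENNReal.ofReal (Rq t) +
          ENNReal.ofReal B * ENNReal.ofReal (Rq t)) := by
          rw [← add_mul, ← ENNReal.ofReal_add hI0 hB0, ← ENNReal.ofReal_mul (by positivity),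
            ← ENNReal.ofReal_mul (by positivity), ← ENNReal.ofReal_mul (by positivity)]
          congr 1
          ring
      _ ≤ ENNReal.ofReal (16 * Cd) * ((∫⁻ τ in A, ENNReal.ofReal (F t τ) *
          ENNReal.ofReal (Wt τ)) * ENNReal.ofReal (Rq t) +
          ENNReal.ofReal B * ENNReal.ofReal (Rq t)) := by gcongr
      _ = _ := by
          rw [lintegral_mul_const' _ _ ENNReal.ofReal_ne_top]
  have hexp1 : 1 ≤ Real.exp (D1 + 5 * Real.log (1 / θ)) := by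
    refine Real.one_le_exp ?_
    have e1 := hS.D1_nonneg
    have e2 : 0 ≤ Real.log (1 / θ) := Real.log_nonneg (by
      rw [le_div_iff₀ hS.th_pos]
      linarith [hS.th_le])
    linarith
  have hLam := one_le_Lam S lam
  obtain ⟨E, hE⟩ : ∃ E : ℝ, E = Real.exp (D1 + 5 * Real.log (1 / θ)) := ⟨_, rfl⟩
  rw [← hE] at hexp1 ⊢
  have hmain : ∫⁻ t in Dm η S.T, ∫⁻ τ in A, ENNReal.ofReal (F t τ) * ENNReal.ofReal (Wt τ) *
      ENNReal.ofReal (Rq t) ≤
      ENNReal.ofReal (π * (K3 * E * (16 * w) ^ k3 * (S.T * Lam S lam))) := by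
    rw [lintegral_lintegral_swap]
    · have hin : ∀ τ ∈ A, ∫⁻ t in Dm η S.T, ENNReal.ofReal (F t τ) * ENNReal.ofReal (Wt τ) *
          ENNReal.ofReal (Rq t) ≤ ENNReal.ofReal (a / (a ^ 2 + τ ^ 2)) *
          ENNReal.ofReal (K3 * E * (16 * w) ^ k3 * (S.T * Lam S lam)) := by
        intro τ hτ
        have hτ1 : |τ| ≤ L ^ 2 := abs_le.2 ⟨by linarith [hτ.1], hτ.2⟩
        have hy : |z.im + τ| ≤ 2 * L ^ 2 := by
          have := abs_add_le z.im τ
          nlinarith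
        have h5 := hT3 hS hTa (z.im + τ) hy
        simp only [← hF, ← hRq, ← hE, ← hLdef] at h5
        calc ∫⁻ t in Dm η S.T, ENNReal.ofReal (F t τ) * ENNReal.ofReal (Wt τ) *
              ENNReal.ofReal (Rq t)
            = ∫⁻ t in Dm η S.T, ENNReal.ofReal (Wt τ) * ENNReal.ofReal (F t τ * Rq t) := by
              refine lintegral_congr fun t => ?_
              rw [ENNReal.ofReal_mul (hF0 t τ)]
              ring
          _ = ENNReal.ofReal (Wt τ) * ∫⁻ t in Dm η S.T, ENNReal.ofReal (F t τ * Rq t) :=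
              lintegral_const_mul' _ _ ENNReal.ofReal_ne_top
          _ ≤ ENNReal.ofReal (Wt τ) * ENNReal.ofReal (K3 * E * (1 + |z.im + τ|) ^ k3 *
              (S.T * Lam S lam)) := by gcongr
          _ ≤ _ := by
              rw [← ENNReal.ofReal_mul (hWt0 τ), ← ENNReal.ofReal_mul (by positivity)]
              refine ENNReal.ofReal_le_ofReal ?_
              have h6 := D6_offset (τ := τ) (k := k3) (m := m) (by omega) hw hz3
              rw [hWt]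
              have hP : 0 < (1 + |τ| / w') ^ m := by positivity
              have hTL : 0 ≤ K3 * E * (S.T * Lam S lam) := by positivity
              calc a / (a ^ 2 + τ ^ 2) / (1 + |τ| / w') ^ m *
                    (K3 * E * (1 + |z.im + τ|) ^ k3 * (S.T * Lam S lam))
                  = a / (a ^ 2 + τ ^ 2) * (K3 * E * (S.T * Lam S lam)) *
                    ((1 + |z.im + τ|) ^ k3 / (1 + |τ| / w') ^ m) := by ring
                _ ≤ a / (a ^ 2 + τ ^ 2) * (K3 * E * (S.T * Lam S lam)) * (16 * w) ^ k3 := by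
                    have : (1 + |z.im + τ|) ^ k3 / (1 + |τ| / w') ^ m ≤ (16 * w) ^ k3 := by
                      rw [div_le_iff₀ hP]
                      exact h6
                    gcongr
                _ = _ := by ring
      calc ∫⁻ τ in A, ∫⁻ t in Dm η S.T, ENNReal.ofReal (F t τ) * ENNReal.ofReal (Wt τ) *
            ENNReal.ofReal (Rq t)
          ≤ ∫⁻ τ in A, ENNReal.ofReal (a / (a ^ 2 + τ ^ 2)) *
            ENNReal.ofReal (K3 * E * (16 * w) ^ k3 * (S.T * Lam S lam)) :=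
            setLIntegral_mono' measurableSet_Ioc hin
        _ = (∫⁻ τ in A, ENNReal.ofReal (a / (a ^ 2 + τ ^ 2))) *
            ENNReal.ofReal (K3 * E * (16 * w) ^ k3 * (S.T * Lam S lam)) :=
            lintegral_mul_const' _ _ ENNReal.ofReal_ne_top
        _ ≤ ENNReal.ofReal π * ENNReal.ofReal (K3 * E * (16 * w) ^ k3 * (S.T * Lam S lam)) := by
            gcongr
            exact D6_poisson ha0 A
        _ = _ := by rw [← ENNReal.ofReal_mul hpi.le]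
    · refine Measurable.aemeasurable ?_
      have e1 : Measurable fun q : ℝ × ℝ => ENNReal.ofReal (F q.1 q.2) := hFm.ennreal_ofReal
      have e2 : Measurable fun q : ℝ × ℝ => ENNReal.ofReal (Wt q.2) :=
        (hWtm.comp measurable_snd).ennreal_ofReal
      have e3 : Measurable fun q : ℝ × ℝ => ENNReal.ofReal (Rq q.1) :=
        (hRqc.measurable.comp measurable_fst).ennreal_ofReal
      exact (e1.mul e2).mul e3
  have hsub : EE S lam η ⊆ Dm η S.T := fun t ht => ht.1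
  have hpwL : L ^ ((lam - 1) ^ 2) ≤ L ^ n0 := by
    rw [← Real.rpow_natCast L n0]
    exact Real.rpow_le_rpow_of_exponent_le (by linarith) (Nat.le_ceil _)
  have herr := D6_err (n0 := n0) (m := m) (by omega) hL hw hz1 hz2
  rw [← hw', ← hB] at herr
  have hT4' := hT4 hS hTb
  simp only [← hRq, ← hLdef] at hT4'
  calc ∫⁻ t in EE S lam η, ENNReal.ofReal (‖riemannZeta (pt S.T t z)‖ ^ 2) *
        ENNReal.ofReal (Real.exp (-(2 * x0 S t)) * uu S lam t)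
      ≤ ∫⁻ t in EE S lam η, ENNReal.ofReal (16 * Cd) * ((∫⁻ τ in A, ENNReal.ofReal (F t τ) *
        ENNReal.ofReal (Wt τ) * ENNReal.ofReal (Rq t)) +
          ENNReal.ofReal B * ENNReal.ofReal (Rq t)) :=
        setLIntegral_mono' (EE_measurable S lam η hne) hpoint
    _ ≤ ∫⁻ t in Dm η S.T, ENNReal.ofReal (16 * Cd) * ((∫⁻ τ in A, ENNReal.ofReal (F t τ) *
        ENNReal.ofReal (Wt τ) * ENNReal.ofReal (Rq t)) +
          ENNReal.ofReal B * ENNReal.ofReal (Rq t)) := lintegral_mono_set hsub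
    _ = ENNReal.ofReal (16 * Cd) * ((∫⁻ t in Dm η S.T, ∫⁻ τ in A, ENNReal.ofReal (F t τ) *
        ENNReal.ofReal (Wt τ) * ENNReal.ofReal (Rq t)) +
          ENNReal.ofReal B * ∫⁻ t in Dm η S.T, ENNReal.ofReal (Rq t)) := by
        rw [lintegral_const_mul' _ _ ENNReal.ofReal_ne_top, lintegral_add_right _
          (hRqc.measurable.ennreal_ofReal.const_mul _),
          lintegral_const_mul' _ _ ENNReal.ofReal_ne_top]
    _ ≤ ENNReal.ofReal (16 * Cd) * (ENNReal.ofReal (π * (K3 * E * (16 * w) ^ k3 *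
        (S.T * Lam S lam))) + ENNReal.ofReal B *
          ENNReal.ofReal (K4 * (S.T * L ^ ((lam - 1) ^ 2)))) := by
        gcongr
    _ = ENNReal.ofReal (16 * Cd * (π * (K3 * E * (16 * w) ^ k3 * (S.T * Lam S lam)) +
          B * (K4 * (S.T * L ^ ((lam - 1) ^ 2))))) := by
        rw [← ENNReal.ofReal_mul hB0, ← ENNReal.ofReal_add (by positivity) (by positivity),
          ← ENNReal.ofReal_mul (by positivity)]
    _ ≤ _ := by
        refine ENNReal.ofReal_le_ofReal ?_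
        have hwk : 1 ≤ w ^ (2 * m + 2) := one_le_pow₀ hw
        have g1 : (16 * w) ^ k3 ≤ 16 ^ k3 * w ^ (2 * m + 2) := by
          rw [mul_pow]
          have : w ^ k3 ≤ w ^ (2 * m + 2) := pow_le_pow_right₀ hw (by omega)
          gcongr
        have g2 : B * L ^ ((lam - 1) ^ 2) ≤ (4 * 8 ^ (2 * m + 2) + n0.factorial) *
            w ^ (2 * m + 2) := by
          calc B * L ^ ((lam - 1) ^ 2) ≤ B * L ^ n0 := by gcongr
            _ ≤ 4 * 8 ^ (2 * m + 2) * w ^ (2 * m + 2) + n0.factorial := herr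
            _ ≤ 4 * 8 ^ (2 * m + 2) * w ^ (2 * m + 2) + n0.factorial * w ^ (2 * m + 2) := by
                have : (n0.factorial : ℝ) ≤ n0.factorial * w ^ (2 * m + 2) :=
                  le_mul_of_one_le_right (by positivity) hwk
                linarith
            _ = _ := by ring
        have g3 : S.T ≤ E * (S.T * Lam S lam) := by
          have e1 : S.T ≤ S.T * Lam S lam := le_mul_of_one_le_right hT0.le hLam
          have e2 : S.T * Lam S lam ≤ E * (S.T * Lam S lam) :=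
            le_mul_of_one_le_left (by positivity) hexp1
          exact e1.trans e2
        have g4 : π * (K3 * E * (16 * w) ^ k3 * (S.T * Lam S lam)) ≤
            K3 * 16 ^ k3 * π * (E * w ^ (2 * m + 2) * (S.T * Lam S lam)) := by
          calc π * (K3 * E * (16 * w) ^ k3 * (S.T * Lam S lam)) ≤
              π * (K3 * E * (16 ^ k3 * w ^ (2 * m + 2)) * (S.T * Lam S lam)) := by gcongr
            _ = _ := by ring
        have g5 : B * (K4 * (S.T * L ^ ((lam - 1) ^ 2))) ≤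
            (4 * 8 ^ (2 * m + 2) + n0.factorial) * K4 *
              (E * w ^ (2 * m + 2) * (S.T * Lam S lam)) := by
          calc B * (K4 * (S.T * L ^ ((lam - 1) ^ 2))) =
                (B * L ^ ((lam - 1) ^ 2)) * (K4 * S.T) := by ring
            _ ≤ ((4 * 8 ^ (2 * m + 2) + n0.factorial) * w ^ (2 * m + 2)) *
                (K4 * (E * (S.T * Lam S lam))) := by gcongr
            _ = _ := by ring
        calc 16 * Cd * (π * (K3 * E * (16 * w) ^ k3 * (S.T * Lam S lam)) +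
              B * (K4 * (S.T * L ^ ((lam - 1) ^ 2))))
            ≤ 16 * Cd * (K3 * 16 ^ k3 * π * (E * w ^ (2 * m + 2) * (S.T * Lam S lam)) +
              (4 * 8 ^ (2 * m + 2) + n0.factorial) * K4 *
              (E * w ^ (2 * m + 2) * (S.T * Lam S lam))) := by gcongr
          _ = _ := by ring


theorem XB3 (lam η : ℝ) (h0 : 0 < lam) (h1 : 0 < η) (h2 : η ≤ 1) : ∃ (C0 K : ℝ) (k : ℕ), 1 ≤ K ∧
    ∀ w : ℝ, 1 ≤ w →
    ∀ {Ct θ D1 : ℝ} {N0 : ℕ}, C0 ≤ Ct → ∃ T0 : ℝ, ∀ {S : BS}, TG S Ct θ D1 N0 → T0 ≤ S.T →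
    ∀ z : ℂ, 0 ≤ z.re → z.re ≤ w → |z.im| ≤ w →
    ∫⁻ t in EE S lam η, ENNReal.ofReal (Real.exp (-(2 * x0 S t)) * ‖VV S.T (pt S.T t z)‖ ^ 2 *
      uu S lam t) ≤
    ENNReal.ofReal (K * Real.exp (D1 + 5 * Real.log (1 / θ)) * w ^ k * (S.T * Lam S lam)) := by
  obtain ⟨C0, K, k, hK, hkey⟩ := D6_key lam η h0 h1 h2
  obtain ⟨Cp, Tp, hCp, hpsi⟩ := psiR_pt η h1 h2
  have hpi := Real.pi_pos
  refine ⟨C0, 10 * K, k, by linarith, fun w hw {Ct θ D1 N0} hCt => ?_⟩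
  obtain ⟨Tk, hk⟩ := hkey w hw (θ := θ) (D1 := D1) (N0 := N0) hCt
  refine ⟨max (max Tk Tp) (max (Real.exp (w + 2)) (max (36 / η ^ 2) (Real.exp Cp))),
    fun {S} hS hT z hz1 hz2 hz3 => ?_⟩
  have hTa : Tk ≤ S.T := ((le_max_left _ _).trans (le_max_left _ _)).trans hT
  have hTb : Tp ≤ S.T := ((le_max_right _ _).trans (le_max_left _ _)).trans hT
  have hTd : Real.exp (w + 2) ≤ S.T := ((le_max_left _ _).trans (le_max_right _ _)).trans hT
  have hTe : 36 / η ^ 2 ≤ S.T :=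
    ((le_max_left _ _).trans ((le_max_right _ _).trans (le_max_right _ _))).trans hT
  have hTf : Real.exp Cp ≤ S.T :=
    ((le_max_right _ _).trans ((le_max_right _ _).trans (le_max_right _ _))).trans hT
  obtain ⟨hT0, hT1, hL⟩ := D6_logT hS
  have hne := D6_ne hS
  have hw2 : w + 2 ≤ Real.log S.T := (Real.le_log_iff_exp_le hT0).2 hTd
  have hCpL : Cp ≤ Real.log S.T := (Real.le_log_iff_exp_le hT0).2 hTf
  have hsm := D6_small h1 hT0 hTe hL
  have hL0 : 0 < Real.log S.T := by linarith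
  obtain ⟨E, hE⟩ : ∃ E : ℝ, E = Real.exp (D1 + 5 * Real.log (1 / θ)) := ⟨_, rfl⟩
  rw [← hE] at hk ⊢
  have hE0 : 0 < E := by rw [hE]; exact Real.exp_pos _
  obtain ⟨g, hg⟩ : ∃ g : ℝ → ℝ, ∀ t, g t = Real.exp (-(2 * x0 S t)) * uu S lam t :=
    ⟨fun t => _, fun _ => rfl⟩
  have hg0 : ∀ t, 0 ≤ g t := fun t => by
    rw [hg, uu]
    positivity
  have hgm : Measurable g := by
    have e1 : g = fun t => Real.exp (-(2 * x0 S t)) * uu S lam t := funext hg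
    rw [e1]
    have e2 := x0_continuous S hne
    have e3 := uu_continuous S lam hne
    exact (by fun_prop : Continuous fun t => Real.exp (-(2 * x0 S t)) * uu S lam t).measurable
  obtain ⟨Z, hZ⟩ : ∃ Z : ℝ → ℂ → ℝ, ∀ t z, Z t z = ‖riemannZeta (pt S.T t z)‖ ^ 2 :=
    ⟨fun t z => _, fun _ _ => rfl⟩
  have hZ0 : ∀ t z, 0 ≤ Z t z := fun t z => by rw [hZ]; positivity
  obtain ⟨Q, hQ⟩ : ∃ Q : ℝ, Q = K * E * w ^ k * (S.T * Lam S lam) := ⟨_, rfl⟩
  have hLam := one_le_Lam S lam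
  have hQ0 : 0 ≤ Q := by rw [hQ]; positivity
  have hk' : ∀ z' : ℂ, -1 ≤ z'.re → z'.re ≤ w + 1 → |z'.im| ≤ w + 1 →
      ∫⁻ t in EE S lam η, ENNReal.ofReal (Z t z') * ENNReal.ofReal (g t) ≤ ENNReal.ofReal Q := by
    intro z' h3 h4 h5
    have h6 := hk hS hTa z' h3 h4 h5
    rw [← hQ] at h6
    simp only [← hZ, ← hg] at h6
    exact h6
  have hcirc : ∀ ϑ : ℝ, ‖cexp (ϑ * I)‖ = 1 := fun ϑ => Complex.norm_exp_ofReal_mul_I ϑ
  have hpoint : ∀ t ∈ EE S lam η, ENNReal.ofReal (Real.exp (-(2 * x0 S t)) *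
      ‖VV S.T (pt S.T t z)‖ ^ 2 * uu S lam t) ≤
      ENNReal.ofReal 8 * (ENNReal.ofReal (Z t z) * ENNReal.ofReal (g t)) +
      ENNReal.ofReal (2 * (2 * π)⁻¹) * ∫⁻ ϑ in Set.Ioc 0 (2 * π),
        ENNReal.ofReal (Z t (z + cexp (ϑ * I))) * ENNReal.ofReal (g t) := by
    intro t ht
    have ht1 : η * S.T ≤ t := ht.1.1
    have hw15 : w ≤ 15 * Real.log S.T := by linarith
    have hp := hpsi S.T t z hTb ht.1 (by rw [abs_of_nonneg hz1]; linarith)
      (hz3.trans (by nlinarith))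
    have hzL : |z.im / Real.log S.T| ≤ 1 := by
      rw [abs_div, abs_of_pos hL0, div_le_one hL0]
      linarith
    rw [abs_le] at hzL
    have him : (pt S.T t z).im = t + z.im / Real.log S.T := by
      rw [← D6_pt]
      simp
    have hcz := D6_cauchy (L := Real.log S.T) (by linarith) (s := pt S.T t z)
      (by rw [him]; linarith [hzL.1])
    have hptz : ∀ ϑ : ℝ, pt S.T t z + cexp (ϑ * I) / (Real.log S.T : ℝ) =
        pt S.T t (z + cexp (ϑ * I)) := by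
      intro ϑ
      unfold pt
      ring
    simp only [hptz, ← hZ] at hcz
    obtain ⟨dz, hdz⟩ : ∃ dz : ℝ, dz = ‖deriv riemannZeta (pt S.T t z) / (Real.log S.T : ℝ)‖ ^ 2 :=
      ⟨_, rfl⟩
    have hdz0 : 0 ≤ dz := by rw [hdz]; positivity
    rw [← hdz] at hcz
    have hV : ‖VV S.T (pt S.T t z)‖ ^ 2 ≤ 8 * Z t z + 2 * dz := by
      have e1 : ‖1 / 2 + psiR (pt S.T t z) / (Real.log S.T : ℝ)‖ ≤ 2 := by
        have e2 : ‖psiR (pt S.T t z) / (Real.log S.T : ℝ) - 1 / 2‖ ≤ 1 := by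
          refine hp.2.trans ?_
          rw [div_le_one hL0]
          exact hCpL
        calc ‖1 / 2 + psiR (pt S.T t z) / (Real.log S.T : ℝ)‖
            = ‖(psiR (pt S.T t z) / (Real.log S.T : ℝ) - 1 / 2) + 1‖ := by
              congr 1
              ring
          _ ≤ ‖psiR (pt S.T t z) / (Real.log S.T : ℝ) - 1 / 2‖ + ‖(1 : ℂ)‖ := norm_add_le _ _
          _ ≤ 2 := by
              rw [norm_one]
              linarith
      have e3 : ‖VV S.T (pt S.T t z)‖ ≤ ‖riemannZeta (pt S.T t z)‖ * 2 +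
          ‖deriv riemannZeta (pt S.T t z) / (Real.log S.T : ℝ)‖ := by
        unfold VV
        refine (norm_add_le _ _).trans (add_le_add_left ?_ _)
        rw [norm_mul]
        gcongr
      rw [hZ, hdz]
      have e4 : ‖VV S.T (pt S.T t z)‖ ^ 2 ≤ (‖riemannZeta (pt S.T t z)‖ * 2 +
          ‖deriv riemannZeta (pt S.T t z) / (Real.log S.T : ℝ)‖) ^ 2 :=
        pow_le_pow_left₀ (norm_nonneg _) e3 2
      nlinarith [sq_nonneg (‖riemannZeta (pt S.T t z)‖ * 2 -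
          ‖deriv riemannZeta (pt S.T t z) / (Real.log S.T : ℝ)‖)]
    calc ENNReal.ofReal (Real.exp (-(2 * x0 S t)) * ‖VV S.T (pt S.T t z)‖ ^ 2 * uu S lam t)
        ≤ ENNReal.ofReal ((8 * Z t z + 2 * dz) * g t) := by
          refine ENNReal.ofReal_le_ofReal ?_
          have := hg0 t
          calc Real.exp (-(2 * x0 S t)) * ‖VV S.T (pt S.T t z)‖ ^ 2 * uu S lam t
              = ‖VV S.T (pt S.T t z)‖ ^ 2 * g t := by rw [hg]; ring
            _ ≤ _ := by gcongr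
      _ = ENNReal.ofReal 8 * (ENNReal.ofReal (Z t z) * ENNReal.ofReal (g t)) +
          ENNReal.ofReal 2 * (ENNReal.ofReal dz * ENNReal.ofReal (g t)) := by
          have := hg0 t
          have := hZ0 t z
          rw [add_mul, ENNReal.ofReal_add (by positivity) (by positivity), mul_assoc, mul_assoc,
            ENNReal.ofReal_mul (by norm_num), ENNReal.ofReal_mul (hZ0 t z),
            ENNReal.ofReal_mul (by norm_num), ENNReal.ofReal_mul hdz0]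
      _ ≤ ENNReal.ofReal 8 * (ENNReal.ofReal (Z t z) * ENNReal.ofReal (g t)) +
          ENNReal.ofReal 2 * ((ENNReal.ofReal ((2 * π)⁻¹) * ∫⁻ ϑ in Set.Ioc 0 (2 * π),
            ENNReal.ofReal (Z t (z + cexp (ϑ * I)))) * ENNReal.ofReal (g t)) := by gcongr
      _ = _ := by
          rw [lintegral_mul_const' _ _ ENNReal.ofReal_ne_top, ENNReal.ofReal_mul (by norm_num)]
          ring
  have hZm : Measurable fun q : ℝ × ℝ => Z q.1 (z + cexp (q.2 * I)) := by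
    simp only [hZ]
    have e1 : Measurable fun q : ℝ × ℝ => pt S.T q.1 (z + cexp (q.2 * I)) := by
      unfold pt
      exact (by fun_prop : Continuous fun q : ℝ × ℝ => (1 / 2 : ℂ) + q.1 * I +
        (z + cexp (q.2 * I)) / (Real.log S.T : ℝ)).measurable
    exact (D6_zeta_meas.comp e1).norm.pow_const 2
  have hGm : Measurable fun q : ℝ × ℝ => ENNReal.ofReal (Z q.1 (z + cexp (q.2 * I))) *
      ENNReal.ofReal (g q.1) :=
    hZm.ennreal_ofReal.mul (hgm.comp measurable_fst).ennreal_ofReal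
  have hsecond : ∫⁻ t in EE S lam η, ∫⁻ ϑ in Set.Ioc 0 (2 * π),
      ENNReal.ofReal (Z t (z + cexp (ϑ * I))) * ENNReal.ofReal (g t) ≤
      ENNReal.ofReal (2 * π) * ENNReal.ofReal Q := by
    rw [lintegral_lintegral_swap hGm.aemeasurable]
    calc ∫⁻ ϑ in Set.Ioc 0 (2 * π), ∫⁻ t in EE S lam η,
          ENNReal.ofReal (Z t (z + cexp (ϑ * I))) * ENNReal.ofReal (g t)
        ≤ ∫⁻ ϑ in Set.Ioc 0 (2 * π), ENNReal.ofReal Q := by
          refine lintegral_mono fun ϑ => ?_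
          have h3 := Complex.abs_re_le_norm (cexp (ϑ * I))
          have h4 := Complex.abs_im_le_norm (cexp (ϑ * I))
          rw [hcirc, abs_le] at h3 h4
          rw [abs_le] at hz3
          refine hk' _ ?_ ?_ ?_
          · rw [Complex.add_re]; linarith [h3.1]
          · rw [Complex.add_re]; linarith [h3.2]
          · rw [Complex.add_im, abs_le]; constructor <;> linarith [h4.1, h4.2, hz3.1, hz3.2]
      _ = _ := by
          rw [lintegral_const, Measure.restrict_apply_univ, Real.volume_Ioc, sub_zero, mul_comm]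
  have hGt : Measurable fun t : ℝ => ∫⁻ ϑ in Set.Ioc 0 (2 * π),
      ENNReal.ofReal (Z t (z + cexp (ϑ * I))) * ENNReal.ofReal (g t) :=
    hGm.lintegral_prod_right'
  calc ∫⁻ t in EE S lam η, ENNReal.ofReal (Real.exp (-(2 * x0 S t)) *
        ‖VV S.T (pt S.T t z)‖ ^ 2 * uu S lam t)
      ≤ ∫⁻ t in EE S lam η, (ENNReal.ofReal 8 * (ENNReal.ofReal (Z t z) * ENNReal.ofReal (g t)) +
        ENNReal.ofReal (2 * (2 * π)⁻¹) * ∫⁻ ϑ in Set.Ioc 0 (2 * π),
          ENNReal.ofReal (Z t (z + cexp (ϑ * I))) * ENNReal.ofReal (g t)) :=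
        setLIntegral_mono' (EE_measurable S lam η hne) hpoint
    _ = ENNReal.ofReal 8 * (∫⁻ t in EE S lam η, ENNReal.ofReal (Z t z) * ENNReal.ofReal (g t)) +
        ENNReal.ofReal (2 * (2 * π)⁻¹) * ∫⁻ t in EE S lam η, ∫⁻ ϑ in Set.Ioc 0 (2 * π),
          ENNReal.ofReal (Z t (z + cexp (ϑ * I))) * ENNReal.ofReal (g t) := by
        rw [lintegral_add_right _ (hGt.const_mul _), lintegral_const_mul' _ _ ENNReal.ofReal_ne_top,
          lintegral_const_mul' _ _ ENNReal.ofReal_ne_top]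
    _ ≤ ENNReal.ofReal 8 * ENNReal.ofReal Q +
        ENNReal.ofReal (2 * (2 * π)⁻¹) * (ENNReal.ofReal (2 * π) * ENNReal.ofReal Q) := by
        gcongr
        exact hk' z (by linarith) (by linarith) (by linarith)
    _ = ENNReal.ofReal (10 * K * E * w ^ k * (S.T * Lam S lam)) := by
        rw [← ENNReal.ofReal_mul (by norm_num), ← ENNReal.ofReal_mul (by positivity),
          ← ENNReal.ofReal_mul (by positivity), ← ENNReal.ofReal_add (by positivity)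
          (by positivity)]
        congr 1
        rw [hQ]
        field_simp
        ring

end Pool.Agent.LB
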