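import Pool.Agent.Lib.MP_69b2e4_nt.UV.Defs

/-! Definitions for the unconditional lower bounds of the discrete moments of `ζ'`, every real
`λ > 0` (campaign LB). This file is complete (NOT a task). -/

set_option autoImplicit false

namespace Pool.Agent.LB

open Complex MeasureTheory Finset Pool.Agent.GH Pool.Agent.UH Pool.Agent.UV
open scoped Real ComplexConjugate

/-! ### The mollifier -/

/-- A smooth bump on `[1/500, 9/20]`. -/
noncomputable def rho (s : ℝ) : ℝ :=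
  Real.smoothTransition (250 * (s - 1 / 500)) * Real.smoothTransition (250 * (9 / 20 - s))

/-- Its integral (at least `11/25`). -/
noncomputable def I0 : ℝ := ∫ s in (0 : ℝ)..1, rho s

/-- The cut-off function of the mollifier: `1` for `x ≤ 1/500`, `0` for `x ≥ 9/20`. -/
noncomputable def Pf (x : ℝ) : ℝ := (∫ s in x..1, rho s) / I0

/-- The coefficients of the mollifiers: `μ(m) (log m / log T)^i Pf(log m / log T)`. -/
noncomputable def am (i : ℕ) (T : ℝ) (m : ℕ) : ℝ :=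
  ((ArithmeticFunction.moebius m : ℤ) : ℝ) *
    ((Real.log m / Real.log T) ^ i * Pf (Real.log m / Real.log T))

/-- The mollifiers (of length `T^{9/20}`), as functions of a character. -/
noncomputable def MO (i : ℕ) (T : ℝ) (χ : ℕ →*₀ ℂ) : ℂ :=
  ∑ n ∈ Finset.Icc 1 ⌊T ^ (9 / 20 : ℝ)⌋₊, ((am i T n : ℝ) : ℂ) * χ n

/-! ### The tilt -/

/-- The product of the truncated exponentials of `κ ∑_{p ∈ R j} χ(p)`. -/
noncomputable def RT (S : BS) (κ : ℝ) (χ : ℕ →*₀ ℂ) : ℂ :=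
  ∏ j ∈ range (S.J + 1), Ex (S.l j) ((κ : ℂ) * PS (S.R j) χ)

/-- The size of everything. -/
noncomputable def Lam (S : BS) (lam : ℝ) : ℝ := Real.exp (lam ^ 2 * ∑ p ∈ S.P, 1 / (p : ℝ))

/-- The random mean square of the tilt. -/
noncomputable def ER (S : BS) (lam : ℝ) : ℝ := ∫ w, ‖RT S lam (nX 0 w)‖ ^ 2 ∂mu

/-- A good block system: `Ct` a large constant, `θ` small, `D1` a constant which does not depend
on `θ`, `N0` a lower bound for the lengths. -/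
structure TG (S : BS) (Ct θ D1 : ℝ) (N0 : ℕ) : Prop where
  Ct_ge : 10 ≤ Ct
  th_pos : 0 < θ
  th_le : θ ≤ 1 / 100
  D1_nonneg : 0 ≤ D1
  T_ge : Real.exp 1000 ≤ S.T
  prime : ∀ j ≤ S.J, ∀ p ∈ S.R j, p.Prime ∧ (p : ℝ) ≤ S.N j
  disj : ∀ i ≤ S.J, ∀ j ≤ S.J, i ≠ j → Disjoint (S.R i) (S.R j)
  N_ge : ∀ j ≤ S.J, 1 ≤ S.N j
  N_le : ∀ j ≤ S.J, Real.log (S.N j) ≤ θ ^ 5 * Real.log S.T
  l_ge : ∀ j ≤ S.J, N0 ≤ S.l j ∧ 1 ≤ S.l j
  trunc : ∑ j ∈ range (S.J + 1), (2 : ℝ)⁻¹ ^ (S.l j) * Real.exp (Ct * (sR (S.R j) + 1)) ≤ 1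
  len : ∑ j ∈ range (S.J + 1), ((S.l j : ℝ) * Real.log (S.N j) + Ct) ≤
    7 * θ ^ 3 * Real.log S.T
  out : ∀ M : ℕ, (M : ℝ) ≤ S.T ^ 2 →
    ∑ p ∈ Nat.primesBelow M \ S.P, 1 / (p : ℝ) ≤ D1 + 5 * Real.log (1 / θ)

/-! ### Functions of a complex variable -/

/-- The point `1/2 + it + z/log T`. -/
noncomputable def pt (T t : ℝ) (z : ℂ) : ℂ := 1 / 2 + t * I + z / (Real.log T : ℝ)

noncomputable def R0 : ℝ := 6 / 5

/-- The left abscissa `1/2 - R0/log T`. -/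
noncomputable def sg0 (T : ℝ) : ℝ := 1 / 2 - R0 / Real.log T

/-- `Γ_ℝ'/Γ_ℝ`. -/
noncomputable def psiR (s : ℂ) : ℂ := logDeriv Gammaℝ s

/-- `Γ_ℝ(1-s)/Γ_ℝ(s)`. -/
noncomputable def ch (s : ℂ) : ℂ := Gammaℝ (1 - s) / Gammaℝ s

/-- Levinson's function: `(Λ + (2/log T) Λ')/(2 Γ_ℝ)`. At a zero `ρ` of `ζ` it is `ζ'(ρ)/log T`. -/
noncomputable def VV (T : ℝ) (s : ℂ) : ℂ :=
  riemannZeta s * (1 / 2 + psiR s / (Real.log T : ℝ)) + deriv riemannZeta s / (Real.log T : ℝ)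

/-- `Λ + (2/log T) Λ'`. -/
noncomputable def fL (T : ℝ) (s : ℂ) : ℂ :=
  completedRiemannZeta s + (2 / Real.log T : ℝ) * deriv completedRiemannZeta s

/-- The weight on the line `Re s = sg0 T`. -/
noncomputable def Kw (T t : ℝ) : ℝ := ‖Gammaℝ ((sg0 T : ℝ) + t * I)‖ ^ 2 * Real.exp (ang T * t)

/-- The integral of the weight. -/
noncomputable def Kt (T : ℝ) : ℝ :=
  4 * π * Real.Gamma (sg0 T) * (2 * π * Real.sin (1 / T)) ^ (-(sg0 T))

/-- `∑_j Re P_j(1/2+it)`. -/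
noncomputable def x0 (S : BS) (t : ℝ) : ℝ :=
  ∑ j ∈ range (S.J + 1), (PS (S.R j) (nC (1 / 2 + t * I))).re

/-- All the prime polynomials are small at `t`. -/
def Gd (S : BS) (lam t : ℝ) : Prop :=
  ∀ j ≤ S.J, ‖PS (S.R j) (nC (1 / 2 + t * I))‖ ≤ S.l j / (8 * (lam + 2))

/-- The domain of `t`. -/
def Dm (η T : ℝ) : Set ℝ := Set.Icc (η * T) (T / η)

/-- The good set. -/
def EE (S : BS) (lam η : ℝ) : Set ℝ := {t | t ∈ Dm η S.T ∧ Gd S lam t}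

/-- The tilt on the line. -/
noncomputable def uu (S : BS) (lam t : ℝ) : ℝ := ‖RT S lam (nC (1 / 2 + t * I))‖ ^ 2

/-- The perturbed function `V² + δ² q² ch`, `q = exp (x0 t0)`, in the scaled variable. -/
noncomputable def Vd (S : BS) (δ t0 : ℝ) (z : ℂ) : ℂ :=
  VV S.T (pt S.T t0 z) ^ 2 + (δ ^ 2 * Real.exp (2 * x0 S t0) : ℝ) * ch (pt S.T t0 z)

/-- `G = V_δ M²`, in the scaled variable. -/
noncomputable def Gz (S : BS) (δ t0 : ℝ) (z : ℂ) : ℂ :=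
  Vd S δ t0 z * MO 0 S.T (nC (pt S.T t0 z)) ^ 2

/-- `F = V M`, in the scaled variable. -/
noncomputable def Fz (S : BS) (t0 : ℝ) (z : ℂ) : ℂ :=
  VV S.T (pt S.T t0 z) * MO 0 S.T (nC (pt S.T t0 z))

/-- The Dirichlet polynomial of `-ζ'/ζ` of length `T^{1/500}`. -/
noncomputable def DD (T : ℝ) (χ : ℕ →*₀ ℂ) : ℂ :=
  ∑ n ∈ Finset.Icc 1 ⌊T ^ (1 / 500 : ℝ)⌋₊, (ArithmeticFunction.vonMangoldt n : ℂ) * χ n

/-- Its prime part. -/
noncomputable def DP (T : ℝ) (χ : ℕ →*₀ ℂ) : ℂ :=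
  ∑ p ∈ (Finset.Icc 1 ⌊T ^ (1 / 500 : ℝ)⌋₊).filter Nat.Prime, (Real.log p : ℂ) * χ p

/-- `ζ M - 1`. -/
noncomputable def ph1 (T : ℝ) (s : ℂ) : ℂ := riemannZeta s * MO 0 T (nC s) - 1

/-- `(ζ' M + D)/log T`. -/
noncomputable def ph2 (T : ℝ) (s : ℂ) : ℂ :=
  (deriv riemannZeta s * MO 0 T (nC s) + DD T (nC s)) / (Real.log T : ℝ)

/-! ### The window -/

/-- The bump: `1` for `|x| ≤ 1/2`, `0` for `|x| ≥ 3/4`, even. -/
noncomputable def bu (x : ℝ) : ℝ := Real.smoothTransition (2 - 4 * x ^ 2)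

/-- The integral of the bump. -/
noncomputable def be0 : ℝ := ∫ x in (-1 : ℝ)..1, bu x

/-- The function `m(x) = R0 b(x/W) + x b(x/4B)`. -/
noncomputable def mB (B W x : ℝ) : ℝ := R0 * bu (x / W) + x * bu (x / (4 * B))

/-- The Laplacian of `m(x) b(y/W)`. -/
noncomputable def Lh (B W x y : ℝ) : ℝ :=
  deriv (deriv (mB B W)) x * bu (y / W) + mB B W x * (deriv (deriv bu) (y / W) / W ^ 2)

/-- The Laplacian of `b(x/W) b(y/W)`. -/
noncomputable def Lp (W x y : ℝ) : ℝ :=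
  (deriv (deriv bu) (x / W) * bu (y / W) + bu (x / W) * deriv (deriv bu) (y / W)) / W ^ 2

/-- The zeros of `ζ` on the critical line up to height `H`. -/
noncomputable def ZL (H : ℝ) : Finset ℝ :=
  open Classical in
  if h : {g : ℝ | riemannZeta (1 / 2 + g * I) = 0 ∧ 0 < g ∧ g ≤ H}.Finite then h.toFinset else ∅

/-- The number of good zeros in the window around `t0`, smoothly weighted. -/
noncomputable def Ng (S : BS) (δ W H t0 : ℝ) : ℝ :=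
  open Classical in
  ∑ g ∈ ZL H, if δ * Real.log S.T * Real.exp (x0 S t0) < ‖deriv riemannZeta (1 / 2 + g * I)‖ then
    bu (Real.log S.T * (g - t0) / W) else 0

/-! ### The sharp second moment -/

/-- `(n,1)` or `(1,n)`. -/
def qs (b : Bool) (n : ℕ) : ℕ × ℕ := if b then (n, 1) else (1, n)

/-- `1` or `-1`. -/
def sgn (b : Bool) : ℝ := if b then 1 else -1

/-- The index set of the polynomials. -/
noncomputable def GT (T : ℝ) : Finset ℕ := Finset.Icc 1 ⌊T ^ (23 / 50 : ℝ)⌋₊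

/-- The pairs. -/
noncomputable def Fb (b : Bool) (T : ℝ) : Finset (ℕ × ℕ) := (GT T).image (qs b)

/-- The weights `β(n) n^{-1/2}` at `(n,1)` resp. `(1,n)`. -/
noncomputable def wb (β : ℕ → ℝ) (q : ℕ × ℕ) : ℂ :=
  ((β (q.1 * q.2) * ((q.1 * q.2 : ℕ) : ℝ) ^ (-(1 / 2) : ℝ) : ℝ) : ℂ)

/-- The Dirichlet polynomial with the coefficients `β`. -/
noncomputable def DPo (T : ℝ) (β : ℕ → ℝ) (χ : ℕ →*₀ ℂ) : ℂ := ∑ n ∈ GT T, (β n : ℂ) * χ n

/-- The Dirichlet convolution. -/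
noncomputable def cv (f g : ℕ → ℝ) (n : ℕ) : ℝ := ∑ x ∈ n.divisorsAntidiagonal, f x.1 * g x.2

/-- The coefficient of the positive rational number `ρ`. -/
noncomputable def fcs (F : Finset (ℕ × ℕ)) (w : ℕ × ℕ → ℂ) (ρ : ℚ) : ℂ :=
  open Classical in
  ∑ q ∈ F, if ∃ l : ℕ, l ≠ 0 ∧ (l : ℚ) * q.1 = ρ * q.2 then wa (1 / 2) w q else 0

/-- `r` is the coefficient function of the tilt. -/
structure Rp (S : BS) (lam θ : ℝ) (r : ℕ → ℝ) : Prop where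
  supp : ∀ n, r n ≠ 0 → n ≠ 0 ∧ (n : ℝ) ≤ S.T ^ (7 * θ ^ 3)
  l1 : ∑ n ∈ Finset.Icc 1 ⌊S.T ^ (1 / 100 : ℝ)⌋₊, |r n| ≤ S.T ^ (7 * θ ^ 3)
  eq : ∀ χ : ℕ →*₀ ℂ, RT S lam χ = ∑ n ∈ Finset.Icc 1 ⌊S.T ^ (1 / 100 : ℝ)⌋₊, (r n : ℂ) * χ n

/-- The coefficients of `MO i · RT`. -/
noncomputable def bt (i : ℕ) (T : ℝ) (r : ℕ → ℝ) : ℕ → ℝ := cv (am i T) r

/-- The coefficients of `MO 0 · RT^{(1)}`, `RT^{(1)} = ∑ r(n) (log n / log T) n^{-s}`. -/
noncomputable def bt2 (T : ℝ) (r : ℕ → ℝ) : ℕ → ℝ :=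
  cv (am 0 T) (fun n => r n * (Real.log n / Real.log T))

/-- The sum of translates with the multiplier of `Λ + (2/log T)Λ'`. -/
noncomputable def HH (b : Bool) (T : ℝ) (β : ℕ → ℝ) (y : ℝ) : ℂ :=
  ∑ n ∈ GT T, ((β n * (n : ℝ) ^ (-(1 / 2) : ℝ) : ℝ) : ℂ) *
    (1 + (sgn b * (ang T / Real.log T) : ℝ) * I +
      (2 / Real.log T * (sgn b * y + Real.log n) : ℝ)) * gg T (y + sgn b * Real.log n)

/-- The polynomial `p = c P + d x P`. -/
noncomputable def pf (c d x : ℝ) : ℝ := c * Pf x + d * (x * Pf x)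

/-- The density of the limit measure. -/
noncomputable def dn (b : Bool) (c d v : ℝ) : ℝ :=
  if b then (if v ≤ 0 then 0 else ∫ x in (0 : ℝ)..v, deriv (pf c d) x ^ 2)
  else ∫ x in (max (-v) 0)..1, deriv (pf c d) x ^ 2

/-- The integral of `Ψ` against the limit measure. -/
noncomputable def Mu (b : Bool) (c d : ℝ) (Ψ : ℝ → ℝ) : ℝ :=
  (if b then c ^ 2 * Ψ 0 else 0) + ∫ v in (-1 : ℝ)..1, Ψ v * dn b c d v

/-- The Laplace transform of the limit measure. -/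
noncomputable def Xi (b : Bool) (α c d : ℝ) : ℝ :=
  (if b then c ^ 2 else 0) +
    1 / (2 * α) * ∫ x in (0 : ℝ)..1, Real.exp (-(2 * sgn b * α * x)) * deriv (pf c d) x ^ 2

/-- The cut-off of the two parts: `1` for `v ≤ 953/1000` (resp. `53/1000`), `0` for
`v ≥ 955/1000` (resp. `55/1000`). -/
noncomputable def cu (b : Bool) (v : ℝ) : ℝ :=
  Real.smoothTransition (500 * ((if b then 955 / 1000 else 55 / 1000) - v))

/-- The weight of the two parts. -/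
noncomputable def Ps (b : Bool) (v : ℝ) : ℝ :=
  Real.exp (-(2 * R0 * sgn b * (1 / 2 - v))) * cu b v

end Pool.Agent.LB
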