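import Pool.Agent.Lib.MP_69b2e4_nt.LB.Defs

/-! TASK E2. The area form of Jensen's inequality. For `0 < ρ' ≤ ρ`: `log ‖f c‖ ≤ (1/2π) ∫_0^{2π} log ‖f(c + ρ' e^{iϑ})‖ dϑ` (Jensen's formula in Mathlib, `MeromorphicOn.circleAverage_log_norm` for `f` analytic on a neighbourhood of the closed disc, `f c ≠ 0`: the zero terms are `≥ 0`; `circleIntegrable_log_norm_meromorphicOn`).
Multiply by `2πρ'` and integrate over `ρ' ∈ (0, ρ)` (polar coordinates: `Complex.lintegral_comp_polarCoord_symm`; separately for the positive and negative part of `log ‖f‖`): with `P = ∫⁻_{ball} (log ‖f‖)⁺ < ∞` (bounded) and `N = ∫⁻_{ball} (log ‖f‖)⁻`: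
 for each `ρ'`: `∫ (log‖f‖)⁻ dϑ ≤ ∫ (log‖f‖)⁺ dϑ - 2π log ‖f c‖`, all in `[0,∞)` after adding; so `N + (πρ² log‖f c‖)⁺ ≤ P + (-πρ² log ‖f c‖)⁺`. -/

set_option autoImplicit false

namespace Pool.Agent.LB

open Complex MeasureTheory Finset Pool.Agent.GH Pool.Agent.UH Pool.Agent.UV
open scoped Real ComplexConjugate

private theorem E2_log {f : ℂ → ℂ} {c : ℂ} {R : ℝ} (hR : 0 < R)
    (hf : AnalyticOnNhd ℂ f (Metric.closedBall c R)) (hc : f c ≠ 0) :
    Real.log ‖f c‖ ≤ Real.circleAverage (fun z => Real.log ‖f z‖) c R := by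
  have habs : |R| = R := abs_of_pos hR
  have hfR : AnalyticOnNhd ℂ f (Metric.closedBall c |R|) := by rwa [habs]
  have J := hfR.circleAverage_log_norm hR.ne' hc
  have h1 : 0 ≤ ∑ᶠ u, (MeromorphicOn.divisor f (Metric.closedBall c |R|) u : ℝ) * Real.log (R * ‖c - u‖⁻¹) := by
    apply finsum_nonneg
    intro u
    by_cases hu : u ∈ Metric.closedBall c |R|
    · apply mul_nonneg
      · exact_mod_cast MeromorphicOn.AnalyticOnNhd.divisor_nonneg hfR u
      · by_cases hcu : c = u
        · subst hcu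
          simp
        · apply Real.log_nonneg
          have h2 : 0 < ‖c - u‖ := norm_pos_iff.2 (sub_ne_zero.2 hcu)
          rw [← div_eq_mul_inv, one_le_div h2]
          rw [habs, Metric.mem_closedBall, dist_comm, dist_eq_norm] at hu
          exact hu
    · rw [Function.locallyFinsuppWithin.apply_eq_zero_of_notMem _ hu]
      simp
  rw [J]
  linarith

private theorem E2_int {f : ℂ → ℂ} {c : ℂ} {R : ℝ} (hR : 0 < R)
    (hf : AnalyticOnNhd ℂ f (Metric.closedBall c R)) :
    CircleIntegrable (fun z => Real.log ‖f z‖) c R := by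
  have habs : |R| = R := abs_of_pos hR
  have hfR : AnalyticOnNhd ℂ f (Metric.closedBall c |R|) := by rwa [habs]
  have hfS : AnalyticOnNhd ℂ f (Metric.sphere c |R|) := hfR.mono Metric.sphere_subset_closedBall
  exact hfS.meromorphicOn.circleIntegrable_log_norm

private theorem E2_inner {f : ℂ → ℂ} {c : ℂ} {R : ℝ} (hR : 0 < R)
    (hf : AnalyticOnNhd ℂ f (Metric.closedBall c R)) (hc : f c ≠ 0) :
    ∫⁻ θ in Set.Ioo (-π) π, ENNReal.ofReal (-Real.log ‖f (circleMap c R θ)‖) ≤
      (∫⁻ θ in Set.Ioo (-π) π, ENNReal.ofReal (Real.log ‖f (circleMap c R θ)‖)) +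
        ENNReal.ofReal (-(2 * π * Real.log ‖f c‖)) := by
  have h1 := E2_log hR hf hc
  rw [Real.circleAverage_eq_integral_add (-π)] at h1
  have h2 : (∫ θ in (0:ℝ)..2 * π, Real.log ‖f (circleMap c R (θ + -π))‖) =
      ∫ θ in (-π)..π, Real.log ‖f (circleMap c R θ)‖ := by
    rw [intervalIntegral.integral_comp_add_right (fun θ => Real.log ‖f (circleMap c R θ)‖)]
    congr 1 <;> ring
  rw [h2, smul_eq_mul] at h1
  have h3 : 2 * π * Real.log ‖f c‖ ≤ ∫ θ in (-π)..π, Real.log ‖f (circleMap c R θ)‖ := by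
    have h4 := mul_le_mul_of_nonneg_left h1 (by positivity : (0:ℝ) ≤ 2 * π)
    have h5 : 2 * π * ((2 * π)⁻¹ * ∫ θ in (-π)..π, Real.log ‖f (circleMap c R θ)‖) =
        ∫ θ in (-π)..π, Real.log ‖f (circleMap c R θ)‖ := by
      field_simp
    linarith
  have hper : Function.Periodic (fun θ : ℝ => Real.log ‖f (circleMap c R θ)‖) (2 * π) := by
    intro θ
    simp only []
    rw [periodic_circleMap c R θ]
  have hint : IntegrableOn (fun θ : ℝ => Real.log ‖f (circleMap c R θ)‖) (Set.Ioo (-π) π) := by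
    have h4 : IntervalIntegrable (fun θ : ℝ => Real.log ‖f (circleMap c R θ)‖) volume 0 (2 * π) :=
      E2_int hR hf
    have h5 := hper.intervalIntegrable₀ (by positivity) h4 (-π) π
    rw [intervalIntegrable_iff_integrableOn_Ioo_of_le (by linarith [Real.pi_pos])] at h5
    exact h5
  rw [intervalIntegral.integral_of_le (by linarith [Real.pi_pos]), integral_Ioc_eq_integral_Ioo,
    integral_eq_lintegral_pos_part_sub_lintegral_neg_part hint] at h3
  have hP : (∫⁻ θ in Set.Ioo (-π) π, ENNReal.ofReal (Real.log ‖f (circleMap c R θ)‖)) ≠ ⊤ := by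
    have := hint.2
    exact (hint.lintegral_lt_top).ne
  have hN : (∫⁻ θ in Set.Ioo (-π) π, ENNReal.ofReal (-Real.log ‖f (circleMap c R θ)‖)) ≠ ⊤ :=
    (hint.neg.lintegral_lt_top).ne
  rw [← ENNReal.ofReal_toReal hP, ← ENNReal.ofReal_toReal hN]
  rw [← ENNReal.ofReal_toReal hP, ← ENNReal.ofReal_toReal hN] at h3
  refine le_trans (ENNReal.ofReal_le_ofReal (q := (∫⁻ θ in Set.Ioo (-π) π,
    ENNReal.ofReal (Real.log ‖f (circleMap c R θ)‖)).toReal + -(2 * π * Real.log ‖f c‖)) ?_)
    ENNReal.ofReal_add_le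
  rw [ENNReal.toReal_ofReal ENNReal.toReal_nonneg, ENNReal.toReal_ofReal ENNReal.toReal_nonneg] at h3
  linarith

theorem jensen_area {f : ℂ → ℂ} {c : ℂ} {ρ : ℝ} (hρ : 0 < ρ)
    (hf : AnalyticOnNhd ℂ f (Metric.closedBall c ρ)) (h0 : f c ≠ 0) :
    ∫⁻ z in Metric.ball c ρ, ENNReal.ofReal (-Real.log ‖f z‖) ≤
      (∫⁻ z in Metric.ball c ρ, ENNReal.ofReal (Real.log ‖f z‖)) +
        ENNReal.ofReal (-(π * ρ ^ 2 * Real.log ‖f c‖)) := by
  classical
  obtain ⟨F, hF⟩ : ∃ F : ℂ → ℂ, F = (Metric.ball c ρ).piecewise f (fun _ => 0) := ⟨_, rfl⟩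
  have hFm : Measurable F := by
    rw [hF]
    apply ContinuousOn.measurable_piecewise _ _ Metric.isOpen_ball.measurableSet
    · intro z hz
      exact (hf z (Metric.ball_subset_closedBall hz)).continuousAt.continuousWithinAt
    · exact continuousOn_const
  have hFS : ∀ z ∈ Metric.ball c ρ, F z = f z := by
    intro z hz
    rw [hF, Set.piecewise_eq_of_mem _ _ _ hz]
  have hFn : ∀ z, z ∉ Metric.ball c ρ → F z = 0 := by
    intro z hz
    rw [hF, Set.piecewise_eq_of_notMem _ _ _ hz]
  -- a global form of the integrals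
  have hglob : ∀ s : ℝ, (∫⁻ z in Metric.ball c ρ, ENNReal.ofReal (s * Real.log ‖f z‖)) =
      ∫⁻ r in Set.Ioo (0:ℝ) ρ, ∫⁻ θ in Set.Ioo (-π) π,
        ENNReal.ofReal r * ENNReal.ofReal (s * Real.log ‖F (circleMap c r θ)‖) := by
    intro s
    obtain ⟨g, hg⟩ : ∃ g : ℂ → ENNReal, g = fun z => ENNReal.ofReal (s * Real.log ‖F z‖) := ⟨_, rfl⟩
    have hgm : Measurable g := by
      rw [hg]
      exact ENNReal.measurable_ofReal.comp ((Real.measurable_log.comp hFm.norm).const_mul s)
    have hgz : ∀ z, g z = ENNReal.ofReal (s * Real.log ‖F z‖) := fun z => by rw [hg]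
    have h1 : (∫⁻ z in Metric.ball c ρ, ENNReal.ofReal (s * Real.log ‖f z‖)) = ∫⁻ z : ℂ, g z := by
      rw [← lintegral_indicator Metric.isOpen_ball.measurableSet]
      apply lintegral_congr
      intro z
      by_cases hz : z ∈ Metric.ball c ρ
      · rw [Set.indicator_of_mem hz, hgz, hFS z hz]
      · rw [Set.indicator_of_notMem hz, hgz, hFn z hz]
        simp
    rw [h1]
    have hT : (∫⁻ z : ℂ, g z) = ∫⁻ z : ℂ, g (c + z) := (lintegral_add_left_eq_self g c).symm
    rw [hT, ← Complex.lintegral_comp_polarCoord_symm]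
    have hcm : ∀ r θ : ℝ, c + Complex.polarCoord.symm (r, θ) = circleMap c r θ := by
      intro r θ
      rw [Complex.polarCoord_symm_apply]
      unfold circleMap
      rw [Complex.exp_mul_I]
      push_cast
      ring
    have hgm2 : Measurable (fun p : ℝ × ℝ => ENNReal.ofReal p.1 • g (c + Complex.polarCoord.symm p)) := by
      have h1 : Measurable (fun p : ℝ × ℝ => (Complex.polarCoord.symm p : ℂ)) := by
        have : (fun p : ℝ × ℝ => (Complex.polarCoord.symm p : ℂ)) =
            fun p : ℝ × ℝ => (p.1 : ℂ) * (Real.cos p.2 + Real.sin p.2 * I) := by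
          funext p
          exact Complex.polarCoord_symm_apply p
        rw [this]
        fun_prop
      simp only [smul_eq_mul]
      exact (ENNReal.measurable_ofReal.comp measurable_fst).mul (hgm.comp (h1.const_add c))
    rw [polarCoord_target, Measure.volume_eq_prod, ← Measure.prod_restrict,
      lintegral_prod _ hgm2.aemeasurable]
    have h2 : (∫⁻ r in Set.Ioi (0:ℝ), ∫⁻ θ in Set.Ioo (-π) π,
        ENNReal.ofReal r • g (c + Complex.polarCoord.symm (r, θ))) =
        ∫⁻ r in Set.Ioi (0:ℝ), (Set.Ioo (0:ℝ) ρ).indicator (fun r => ∫⁻ θ in Set.Ioo (-π) π,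
          ENNReal.ofReal r * ENNReal.ofReal (s * Real.log ‖F (circleMap c r θ)‖)) r := by
      apply setLIntegral_congr_fun measurableSet_Ioi
      intro r hr
      simp only []
      by_cases hr2 : r ∈ Set.Ioo (0:ℝ) ρ
      · rw [Set.indicator_of_mem hr2]
        apply lintegral_congr
        intro θ
        rw [hcm, hgz, smul_eq_mul]
      · rw [Set.indicator_of_notMem hr2]
        rw [← lintegral_zero (α := ℝ) (μ := volume.restrict (Set.Ioo (-π) π))]
        apply lintegral_congr
        intro θ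
        have hr0 : 0 < r := hr
        have hrρ : ρ ≤ r := by
          by_contra h
          exact hr2 ⟨hr0, not_le.1 h⟩
        have : F (circleMap c r θ) = 0 := by
          apply hFn
          rw [Metric.mem_ball, dist_eq_norm, circleMap_sub_center, norm_circleMap_zero, abs_of_pos hr0]
          exact not_lt.2 hrρ
        rw [hcm, hgz, this]
        simp
    rw [h2, lintegral_indicator measurableSet_Ioo, Measure.restrict_restrict measurableSet_Ioo]
    congr 2
    apply Set.inter_eq_left.2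
    intro x hx
    exact hx.1
  have hA := hglob (-1)
  have hB := hglob 1
  simp only [neg_mul, one_mul] at hA hB
  rw [hA, hB]
  have hin : ∀ r ∈ Set.Ioo (0:ℝ) ρ,
      (∫⁻ θ in Set.Ioo (-π) π, ENNReal.ofReal r * ENNReal.ofReal (-Real.log ‖F (circleMap c r θ)‖)) ≤
      (∫⁻ θ in Set.Ioo (-π) π, ENNReal.ofReal r * ENNReal.ofReal (Real.log ‖F (circleMap c r θ)‖)) +
        ENNReal.ofReal (r * (2 * π * max 0 (-Real.log ‖f c‖))) := by
    intro r hr
    have hfr : AnalyticOnNhd ℂ f (Metric.closedBall c r) :=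
      hf.mono (Metric.closedBall_subset_closedBall hr.2.le)
    have h1 := E2_inner hr.1 hfr h0
    have hFf : ∀ θ, F (circleMap c r θ) = f (circleMap c r θ) := by
      intro θ
      apply hFS
      rw [Metric.mem_ball, dist_eq_norm, circleMap_sub_center, norm_circleMap_zero, abs_of_pos hr.1]
      exact hr.2
    simp only [hFf]
    rw [lintegral_const_mul' _ _ ENNReal.ofReal_ne_top, lintegral_const_mul' _ _ ENNReal.ofReal_ne_top,
      ENNReal.ofReal_mul hr.1.le, ← mul_add]
    gcongr
    refine h1.trans ?_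
    gcongr
    have h5 : -(2 * π * Real.log ‖f c‖) = 2 * π * (-Real.log ‖f c‖) := by ring
    rw [h5]
    exact mul_le_mul_of_nonneg_left (le_max_right _ _) (by positivity)
  refine (setLIntegral_mono' measurableSet_Ioo hin).trans ?_
  rw [lintegral_add_right]
  · gcongr
    rw [← ofReal_integral_eq_lintegral_ofReal]
    · rw [← integral_Ioc_eq_integral_Ioo, ← intervalIntegral.integral_of_le hρ.le,
        intervalIntegral.integral_mul_const, integral_id]
      by_cases hL : 0 ≤ -Real.log ‖f c‖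
      · rw [max_eq_right hL]
        apply ENNReal.ofReal_le_ofReal
        apply le_of_eq
        ring
      · rw [max_eq_left (not_le.1 hL).le]
        simp
    · have h1 : Continuous (fun r : ℝ => r * (2 * π * max 0 (-Real.log ‖f c‖))) := by fun_prop
      exact (h1.integrableOn_Icc).mono_set Set.Ioo_subset_Icc_self
    · refine (ae_restrict_iff' measurableSet_Ioo).2 (Filter.Eventually.of_forall fun r hr => ?_)
      have h5 := hr.1
      have h6 : 0 ≤ max 0 (-Real.log ‖f c‖) := le_max_left _ _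
      simp only [Pi.zero_apply]
      positivity
  · exact ENNReal.measurable_ofReal.comp (measurable_id.mul_const _)

end Pool.Agent.LB
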