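import Pool.Agent.Lib.MP_69b2e4_nt.LB.E2

/-! TASK E3. The chain of discs (deterministic). The discs are nested: `ball (cc k) (rr k) ⊆ ball (cc (k+1)) (rr (k+1))` (`‖cc (k+1) - cc k‖ = 2^{k+2} r = rr (k+1) - rr k`), all contain the cell: `(2^{k+2} r - r)² + (r/2)² < (2^{k+2} r - r/2)²`.
Let `k*` be the first `k ≤ K` with `‖G(cc k) - 1‖ ≤ 1/2`. `|log ‖G‖| = (log)⁺ + (log)⁻`, `jensen_area` on `ball (cc k*) (rr k*)`: the cell integral is at most `2 ∫⁻_{ball} (log‖G‖)⁺ + (-π rr² log ‖G(cc k*)‖)⁺`, and `-log ‖G‖ ≤ 2‖G-1‖ ≤ 1` if `‖G - 1‖ ≤ 1/2`. If `k* = 0` this is bounded by the first two terms, otherwise by the term `k*` of the sum (`‖G(cc (k*-1)) - 1‖ > 1/2`). -/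

set_option autoImplicit false

namespace Pool.Agent.LB

open Complex MeasureTheory Finset Pool.Agent.GH Pool.Agent.UH Pool.Agent.UV
open scoped Real ComplexConjugate

/-- The centres of the chain. -/
noncomputable def cc (r τ : ℝ) (k : ℕ) : ℂ := ((2 ^ (k + 2) * r - 11 / 5 : ℝ) : ℂ) + τ * I

/-- The radii of the chain. -/
noncomputable def rr (r : ℝ) (k : ℕ) : ℝ := 2 ^ (k + 2) * r - r / 2

/-- The cell. -/
def cellS (r τ : ℝ) : Set ℂ := {z | r ≤ z.re + 11 / 5 ∧ z.re + 11 / 5 ≤ 2 * r ∧ |z.im - τ| ≤ r / 2}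

private lemma E3_cell_sub {r τ : ℝ} (hr : 0 < r) (k : ℕ) :
    cellS r τ ⊆ Metric.ball (cc r τ k) (rr r k) := by
  intro z hz
  obtain ⟨h1, h2, h3⟩ := hz
  have hp : (4 : ℝ) ≤ 2 ^ (k + 2) := by
    have : (1 : ℝ) ≤ 2 ^ k := one_le_pow₀ (by norm_num)
    rw [pow_add]; linarith
  set R : ℝ := 2 ^ (k + 2) * r with hR
  have hR4 : 4 * r ≤ R := by rw [hR]; exact mul_le_mul_of_nonneg_right hp hr.le
  rw [Metric.mem_ball, dist_eq_norm]
  have hre : (z - cc r τ k).re = z.re + 11 / 5 - R := by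
    simp only [cc, sub_re, add_re, ofReal_re, mul_re, I_re, I_im, ofReal_im]
    rw [← hR]; ring
  have him : (z - cc r τ k).im = z.im - τ := by
    simp only [cc, sub_im, add_im, ofReal_im, mul_im, I_re, I_im, ofReal_re]
    ring
  have hrr : rr r k = R - r / 2 := by simp only [rr, hR]
  rw [hrr]
  have hpos : 0 < R - r / 2 := by linarith
  have hsq : ‖z - cc r τ k‖ ^ 2 < (R - r / 2) ^ 2 := by
    rw [← Complex.normSq_eq_norm_sq, Complex.normSq_apply, hre, him]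
    have ha : (z.im - τ) * (z.im - τ) ≤ (r / 2) ^ 2 := by
      have := sq_le_sq' (abs_le.mp h3).1 (abs_le.mp h3).2
      nlinarith [this]
    have hb : (z.re + 11 / 5 - R) * (z.re + 11 / 5 - R) ≤ (R - r) ^ 2 := by
      have h4 : 0 ≤ R - (z.re + 11 / 5) := by linarith
      have h5 : R - (z.re + 11 / 5) ≤ R - r := by linarith
      nlinarith [mul_le_mul h5 h5 h4 (by linarith)]
    nlinarith [ha, hb, mul_pos hr (by linarith : 0 < R - r)]
  exact lt_of_pow_lt_pow_left₀ 2 hpos.le hsq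

private lemma E3_nest {r τ : ℝ} (hr : 0 < r) {k K : ℕ} (hk : k ≤ K) :
    Metric.closedBall (cc r τ k) (rr r k) ⊆ Metric.closedBall (cc r τ K) (rr r K) := by
  apply Metric.closedBall_subset_closedBall'
  have hp : (2 : ℝ) ^ (k + 2) ≤ 2 ^ (K + 2) := pow_le_pow_right₀ (by norm_num) (by omega)
  have hm : (2 : ℝ) ^ (k + 2) * r ≤ 2 ^ (K + 2) * r := mul_le_mul_of_nonneg_right hp hr.le
  have hd : dist (cc r τ k) (cc r τ K) = 2 ^ (K + 2) * r - 2 ^ (k + 2) * r := by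
    rw [dist_eq_norm]
    have : cc r τ k - cc r τ K = ((-(2 ^ (K + 2) * r - 2 ^ (k + 2) * r) : ℝ) : ℂ) := by
      simp only [cc]; push_cast; ring
    rw [this, Complex.norm_real, norm_neg, Real.norm_of_nonneg (by linarith)]
  rw [hd, rr, rr]
  linarith

private lemma E3_neglog {w : ℂ} (h : ‖w - 1‖ ≤ 1 / 2) : -Real.log ‖w‖ ≤ 2 * ‖w - 1‖ := by
  have h1 : 1 - ‖w - 1‖ ≤ ‖w‖ := by
    have := norm_sub_norm_le (1 : ℂ) (1 - w)
    rw [norm_one, sub_sub_cancel, norm_sub_rev] at this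
    exact this
  have h2 : (1 : ℝ) / 2 ≤ ‖w‖ := by linarith
  have h3 : 0 < ‖w‖ := by linarith
  rw [← Real.log_inv]
  have h4 := Real.log_le_sub_one_of_pos (inv_pos.mpr h3)
  have h5 : ‖w‖⁻¹ - 1 ≤ 2 * ‖w - 1‖ := by
    rw [sub_le_iff_le_add, inv_le_iff_one_le_mul₀ h3]
    nlinarith [norm_nonneg (w - 1)]
  linarith

private lemma E3_ne {w : ℂ} (h : ‖w - 1‖ ≤ 1 / 2) : w ≠ 0 := by
  rintro rfl
  rw [zero_sub, norm_neg, norm_one] at h
  norm_num at h

private lemma E3_ball {G : ℂ → ℂ} {r τ : ℝ} (hr : 0 < r) {k K : ℕ} (hk : k ≤ K)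
    (hG : AnalyticOnNhd ℂ G (Metric.closedBall (cc r τ K) (rr r K)))
    (h : ‖G (cc r τ k) - 1‖ ≤ 1 / 2) :
    ∫⁻ z in cellS r τ, ENNReal.ofReal |Real.log ‖G z‖| ≤
      2 * (∫⁻ z in Metric.ball (cc r τ k) (rr r k), ENNReal.ofReal (Real.log ‖G z‖)) +
        ENNReal.ofReal (-(π * rr r k ^ 2 * Real.log ‖G (cc r τ k)‖)) := by
  have hG' : AnalyticOnNhd ℂ G (Metric.closedBall (cc r τ k) (rr r k)) :=
    fun z hz => hG z (E3_nest hr hk hz)
  have hrr : 0 < rr r k := by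
    have hp : (1 : ℝ) ≤ 2 ^ (k + 2) := one_le_pow₀ (by norm_num)
    have := mul_le_mul_of_nonneg_right hp hr.le
    rw [rr]; linarith
  have hJ := jensen_area hrr hG' (E3_ne h)
  have hmeas : AEMeasurable (fun z => ENNReal.ofReal (Real.log ‖G z‖))
      (volume.restrict (Metric.ball (cc r τ k) (rr r k))) := by
    have hc : ContinuousOn G (Metric.ball (cc r τ k) (rr r k)) :=
      hG'.continuousOn.mono Metric.ball_subset_closedBall
    have h1 : AEMeasurable G (volume.restrict (Metric.ball (cc r τ k) (rr r k))) :=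
      hc.aemeasurable Metric.isOpen_ball.measurableSet
    exact ENNReal.measurable_ofReal.comp_aemeasurable
      (Real.measurable_log.comp_aemeasurable h1.norm)
  calc ∫⁻ z in cellS r τ, ENNReal.ofReal |Real.log ‖G z‖|
      ≤ ∫⁻ z in Metric.ball (cc r τ k) (rr r k), ENNReal.ofReal |Real.log ‖G z‖| :=
        lintegral_mono_set (E3_cell_sub hr k)
    _ = ∫⁻ z in Metric.ball (cc r τ k) (rr r k),
          (ENNReal.ofReal (Real.log ‖G z‖) + ENNReal.ofReal (-Real.log ‖G z‖)) := by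
        apply lintegral_congr
        intro z
        rcases le_total 0 (Real.log ‖G z‖) with h0 | h0
        · rw [abs_of_nonneg h0, ENNReal.ofReal_of_nonpos (by linarith : -Real.log ‖G z‖ ≤ 0),
            add_zero]
        · rw [abs_of_nonpos h0, ENNReal.ofReal_of_nonpos h0, zero_add]
    _ = (∫⁻ z in Metric.ball (cc r τ k) (rr r k), ENNReal.ofReal (Real.log ‖G z‖)) +
          ∫⁻ z in Metric.ball (cc r τ k) (rr r k), ENNReal.ofReal (-Real.log ‖G z‖) :=
        lintegral_add_left' hmeas _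
    _ ≤ (∫⁻ z in Metric.ball (cc r τ k) (rr r k), ENNReal.ofReal (Real.log ‖G z‖)) +
          ((∫⁻ z in Metric.ball (cc r τ k) (rr r k), ENNReal.ofReal (Real.log ‖G z‖)) +
        ENNReal.ofReal (-(π * rr r k ^ 2 * Real.log ‖G (cc r τ k)‖))) := by gcongr
    _ = _ := by rw [← add_assoc, two_mul]

theorem chain {G : ℂ → ℂ} {r τ : ℝ} (hr : 0 < r) (K : ℕ)
    (hG : AnalyticOnNhd ℂ G (Metric.closedBall (cc r τ K) (rr r K)))
    (hK : ‖G (cc r τ K) - 1‖ ≤ 1 / 2) :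
    ∫⁻ z in cellS r τ, ENNReal.ofReal |Real.log ‖G z‖| ≤
      2 * (∫⁻ z in Metric.ball (cc r τ 0) (rr r 0), ENNReal.ofReal (Real.log ‖G z‖)) +
      ENNReal.ofReal (2 * π * rr r 0 ^ 2 * ‖G (cc r τ 0) - 1‖) +
      ∑ k ∈ range K, (open Classical in if 1 / 2 < ‖G (cc r τ k) - 1‖ then
        2 * (∫⁻ z in Metric.ball (cc r τ (k + 1)) (rr r (k + 1)),
          ENNReal.ofReal (Real.log ‖G z‖)) + ENNReal.ofReal (π * rr r (k + 1) ^ 2) else 0) := by
  classical
  have hex : ∃ k, k ≤ K ∧ ‖G (cc r τ k) - 1‖ ≤ 1 / 2 := ⟨K, le_rfl, hK⟩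
  obtain ⟨hkK, hks⟩ := Nat.find_spec hex
  have hmin : ∀ j < Nat.find hex, 1 / 2 < ‖G (cc r τ j) - 1‖ := by
    intro j hj
    have := Nat.find_min hex hj
    by_contra hcon
    exact this ⟨by omega, not_lt.mp hcon⟩
  generalize Nat.find hex = k at hkK hks hmin
  have hB := E3_ball hr hkK hG hks
  have hL := E3_neglog hks
  have hpi : 0 ≤ π * rr r k ^ 2 := by positivity
  rcases k with _ | j
  · refine hB.trans ?_
    refine le_trans ?_ (le_add_right le_rfl)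
    gcongr
    nlinarith [mul_le_mul_of_nonneg_left hL hpi]
  · refine hB.trans ?_
    refine le_trans ?_ (le_add_left (Finset.single_le_sum (fun _ _ => zero_le) (Finset.mem_range.mpr (by omega : j < K))))
    rw [if_pos (hmin j (Nat.lt_succ_self j))]
    gcongr
    nlinarith [mul_le_mul_of_nonneg_left hL hpi, mul_le_mul_of_nonneg_left hks hpi]

end Pool.Agent.LB
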