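import Pool.Agent.Lib.MP_69b2e4_nt.Mg.G032
import Pool.Agent.Lib.MP_69b2e4_nt.LB.E3

/-! TASK E4. The mean of `|log ‖G‖|` over one cell. `L = log T`. Let `K` be minimal with `2^{K+2} r ≥ 7L/2 + 11/5`; for `T ≥ T0(W)` `K ≥ 1` and `2^{K+2} r ≤ 7L + 22/5`, so all discs lie in `Re z ≤ 14L + 9 ≤ 15 L`, `|Im z| ≤ 3W + 7L + 5 ≤ 15L`, depth `z.re + 11/5 ≥ r/2 ≥ 1/2`; `‖G(cc K) - 1‖ ≤ 1/2` for every `t ∈ EE` (`far_good`). `G` is analytic there (`VV_an`, `ch_an`, `MO_an`; `Im (pt T t z) ≥ 1`). Apply `chain` for every `t ∈ EE`, multiply by `uu`, integrate, Tonelli (`Gz_meas`, `uu_continuous`).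
`Q(z) := δ² e^{Dθ} (1+‖z‖)^k e^{-Re z/2}`; for `z` in the disc of index `i` or its centre `‖z‖ ≤ 3W + 2·2^{i+2} r + 3`, so `Q(z) ≤ e^{2} δ0² e^{Dθ} (4+3W)^k (1 + 2^{i+3} r)^k e^{-(Re z + 11/5)/2}`: choose `δ0² e^{Dθ} (4+3W)^k e² ≤ 1`; then `Q(z) ≤ A_i := (1+2^{i+3} r)^k` on the disc, and at the centre `cc i`: `Q ≤ (1+2^{i+3} r)^k e^{-2^{i+1} r} ≤ C (2^i r)^{-6}`.
Terms: (a) `∫∫_{ball 0} (log‖G‖)⁺ uu ≤ ∫_{ball 0} (∫ ‖G-1‖ uu) ≤ π rr0² K (2/r + sup Q)`: here `r ≤ 2W` and `Q(z) ≤ e² δ0² e^{Dθ}(4+11W)^k`: make `δ0` so small that this is `≤ 1/(2W) ≤ 1/r`. (b) `rr0² ∫ ‖G(cc 0) - 1‖ uu ≤ 16 r² · K(2/(4r) + 1/r)`. Both `≤ C r`.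
(c) term `i ≥ 0` of the sum: `B_i := {t ∈ EE | ‖G(cc i) - 1‖ > 1/2}`, `∫_{B_i} uu ≤ C (2^i r)^{-6} T Lam`; for `z` in the disc `i+1`: `∫_{B_i} (log‖G z‖)⁺ uu ≤ (∫_{B_i} uu)^{1/2} (∫ ((log‖G z‖)⁺)² uu)^{1/2} ≤ C (2^i r)^{-3} (1 + log A_{i+1}) T Lam` (`GB` (3)); area `≤ C (2^i r)²`: total `≤ C (2^i r)^{-1} (1 + k log(1+2^{i+4} r)) ≤ C' 2^{-i/2} ≤ C' 2^{-i/2} r`; and `π rr² ∫_{B_i} uu ≤ C (2^i r)^{-4}`. Sum over `i` (geometric): `≤ C r`. All constants depend on `lam`, `η` only. -/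

set_option autoImplicit false

namespace Pool.Agent.LB

open Complex MeasureTheory Finset Pool.Agent.GH Pool.Agent.UH Pool.Agent.UV
open scoped Real ComplexConjugate

private theorem E4_geo {r τ W : ℝ} (hr : 1 ≤ r) (hτ : |τ| ≤ 3 * W) (j : ℕ) {z : ℂ}
    (hz : z ∈ Metric.closedBall (cc r τ j) (rr r j)) :
    r / 2 ≤ z.re + 11 / 5 ∧ z.re + 11 / 5 ≤ 2 * (2 ^ (j + 2) * r) ∧
    |z.im| ≤ 3 * W + 2 ^ (j + 2) * r ∧ ‖z‖ ≤ 2 * (2 ^ (j + 2) * r) + 3 * W := by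
  have hU : (4:ℝ) ≤ 2 ^ (j + 2) * r := by
    have h1 : (4:ℝ) ≤ 2 ^ (j + 2) := by
      rw [pow_add]
      have := one_le_pow₀ (one_le_two : (1:ℝ) ≤ 2) (n := j)
      linarith
    nlinarith
  rw [Metric.mem_closedBall, dist_eq_norm] at hz
  have h1 := Complex.abs_re_le_norm (z - cc r τ j)
  have h2 := Complex.abs_im_le_norm (z - cc r τ j)
  have hre : (cc r τ j).re = 2 ^ (j + 2) * r - 11 / 5 := by
    unfold cc
    simp only [Complex.add_re, Complex.ofReal_re, Complex.mul_re, Complex.I_re, Complex.ofReal_im,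
      Complex.I_im]
    ring
  have him : (cc r τ j).im = τ := by
    unfold cc
    simp only [Complex.add_im, Complex.ofReal_re, Complex.mul_im, Complex.I_re, Complex.ofReal_im,
      Complex.I_im]
    ring
  rw [Complex.sub_re, hre] at h1
  rw [Complex.sub_im, him] at h2
  unfold rr at hz
  have h3 := abs_le.1 (h1.trans hz)
  have h4 := abs_le.1 (h2.trans hz)
  have h5 := abs_le.1 hτ
  have h6 : ‖cc r τ j‖ ≤ 2 ^ (j + 2) * r + 3 * W := by
    have h7 := Complex.norm_le_abs_re_add_abs_im (cc r τ j)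
    rw [hre, him, abs_of_nonneg (by linarith)] at h7
    linarith
  have h8 : ‖z‖ ≤ ‖z - cc r τ j‖ + ‖cc r τ j‖ := by
    have := norm_add_le (z - cc r τ j) (cc r τ j)
    rwa [sub_add_cancel] at this
  refine ⟨by linarith [h3.1], by linarith [h3.2], ?_, by linarith⟩
  rw [abs_le]
  constructor <;> linarith [h4.1, h4.2, h5.1, h5.2]

private theorem E4_cc {r τ W : ℝ} (hr : 1 ≤ r) (hτ : |τ| ≤ 3 * W) (j : ℕ) :
    (cc r τ j).re + 11 / 5 = 2 ^ (j + 2) * r ∧ |(cc r τ j).im| ≤ 3 * W ∧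
    ‖cc r τ j‖ ≤ 2 ^ (j + 2) * r + 3 * W := by
  have hU : (4:ℝ) ≤ 2 ^ (j + 2) * r := by
    have h1 : (4:ℝ) ≤ 2 ^ (j + 2) := by
      rw [pow_add]
      have := one_le_pow₀ (one_le_two : (1:ℝ) ≤ 2) (n := j)
      linarith
    nlinarith
  have hre : (cc r τ j).re = 2 ^ (j + 2) * r - 11 / 5 := by
    unfold cc
    simp only [Complex.add_re, Complex.ofReal_re, Complex.mul_re, Complex.I_re, Complex.ofReal_im,
      Complex.I_im]
    ring
  have him : (cc r τ j).im = τ := by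
    unfold cc
    simp only [Complex.add_im, Complex.ofReal_re, Complex.mul_im, Complex.I_re, Complex.ofReal_im,
      Complex.I_im]
    ring
  refine ⟨by linarith, by rw [him]; exact hτ, ?_⟩
  have h7 := Complex.norm_le_abs_re_add_abs_im (cc r τ j)
  rw [hre, him, abs_of_nonneg (by linarith)] at h7
  linarith

private theorem E4_R1 (n : ℕ) : ∃ C : ℝ, 0 ≤ C ∧ ∀ u : ℝ, 0 < u →
    (1 + u) ^ n * Real.exp (-(u / 2)) ≤ C / u ^ 6 := by
  refine ⟨2 ^ (n + 6) * (n + 6).factorial * 2, by positivity, ?_⟩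
  intro u hu
  have h1 := Real.pow_div_factorial_le_exp (x := (1 + u) / 2) (by positivity) (n + 6)
  rw [div_le_iff₀ (by positivity)] at h1
  have h2 : Real.exp ((1 + u) / 2) ≤ 2 * Real.exp (u / 2) := by
    have h3 : (1 + u) / 2 = 1 / 2 + u / 2 := by ring
    rw [h3, Real.exp_add]
    apply mul_le_mul_of_nonneg_right _ (Real.exp_pos _).le
    have h4 : Real.exp (1 / 2) ^ 2 ≤ 2 ^ 2 := by
      rw [← Real.exp_nat_mul]
      have : ((2:ℕ):ℝ) * (1 / 2) = 1 := by norm_num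
      rw [this]
      linarith [Real.exp_one_lt_d9]
    exact le_of_sq_le_sq h4 (by norm_num)
  rw [le_div_iff₀ (by positivity), Real.exp_neg]
  have h5 : (1 + u) ^ n * (Real.exp (u / 2))⁻¹ * u ^ 6 ≤ (1 + u) ^ (n + 6) * (Real.exp (u / 2))⁻¹ := by
    rw [pow_add]
    have h6 : u ^ 6 ≤ (1 + u) ^ 6 := pow_le_pow_left₀ hu.le (by linarith) 6
    have h7 : 0 ≤ (1 + u) ^ n * (Real.exp (u / 2))⁻¹ := by positivity
    nlinarith [mul_le_mul_of_nonneg_left h6 h7]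
  refine h5.trans ?_
  rw [mul_inv_le_iff₀ (Real.exp_pos _)]
  have h8 : (1 + u) ^ (n + 6) = 2 ^ (n + 6) * ((1 + u) / 2) ^ (n + 6) := by
    rw [← mul_pow]
    congr 1
    ring
  rw [h8]
  have h9 : (2:ℝ) ^ (n + 6) * ((1 + u) / 2) ^ (n + 6) ≤
      2 ^ (n + 6) * (Real.exp ((1 + u) / 2) * (n + 6).factorial) :=
    mul_le_mul_of_nonneg_left h1 (by positivity)
  refine h9.trans ?_
  have h10 : (0:ℝ) ≤ 2 ^ (n + 6) * ((n + 6).factorial : ℝ) := by positivity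
  nlinarith [mul_le_mul_of_nonneg_left h2 h10]

private theorem E4_R2 (n : ℕ) {u : ℝ} (hu : 1 ≤ u) :
    (1 + n * Real.log (1 + 4 * u)) ^ 2 ≤ (1 + 4 * n) ^ 2 * √u := by
  obtain ⟨a, ha⟩ : ∃ a, a = √(√u) := ⟨_, rfl⟩
  have ha0 : 0 ≤ a := by rw [ha]; exact Real.sqrt_nonneg _
  have ha2 : a ^ 2 = √u := by rw [ha, Real.sq_sqrt (Real.sqrt_nonneg _)]
  have ha4 : a ^ 4 = u := by
    have : a ^ 4 = (a ^ 2) ^ 2 := by ring
    rw [this, ha2, Real.sq_sqrt (by linarith)]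
  have ha1 : 1 ≤ a := by
    by_contra h
    push Not at h
    have : a ^ 4 < 1 := pow_lt_one₀ ha0 h (by norm_num)
    linarith
  have hl : Real.log (1 + 4 * u) ≤ 4 * a := by
    have h1 : Real.log (1 + 4 * u) ≤ Real.log (5 * a ^ 4) := by
      apply Real.log_le_log (by linarith)
      rw [ha4]
      linarith
    rw [Real.log_mul (by norm_num) (by positivity), Real.log_pow] at h1
    have h2 := Real.log_le_sub_one_of_pos (by norm_num : (0:ℝ) < 5)
    have h3 := Real.log_le_sub_one_of_pos (by linarith : (0:ℝ) < a)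
    push_cast at h1
    linarith
  have hl0 : 0 ≤ Real.log (1 + 4 * u) := Real.log_nonneg (by linarith)
  have hn : (0:ℝ) ≤ n := Nat.cast_nonneg n
  rw [← ha2, ← mul_pow]
  apply pow_le_pow_left₀ (by positivity)
  nlinarith [mul_le_mul_of_nonneg_left hl hn]

private theorem E4_R3 {r : ℝ} (hr : 1 ≤ r) (j : ℕ) :
    (2 ^ (j + 2) * r) ⁻¹ * √(2 ^ (j + 2) * r) ≤ (3 / 4) ^ j ∧ (2 ^ (j + 2) * r)⁻¹ ≤ (3 / 4 : ℝ) ^ j := by
  have hU : (2:ℝ) ^ j ≤ 2 ^ (j + 2) * r := by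
    rw [pow_add]
    have := one_le_pow₀ (one_le_two : (1:ℝ) ≤ 2) (n := j)
    nlinarith
  have hj : (0:ℝ) < 2 ^ j := by positivity
  have hUpos : (0:ℝ) < 2 ^ (j + 2) * r := by linarith
  have h1 : (2 ^ (j + 2) * r)⁻¹ ≤ ((3 / 4 : ℝ) ^ j) ^ 2 := by
    have h2 : ((3 / 4 : ℝ) ^ j) ^ 2 = (9 / 16) ^ j := by
      rw [← pow_mul, mul_comm, pow_mul]
      norm_num
    rw [h2]
    refine (inv_anti₀ hj hU).trans ?_
    rw [← inv_pow]
    exact pow_le_pow_left₀ (by norm_num) (by norm_num) j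
  constructor
  · have h3 : (2 ^ (j + 2) * r)⁻¹ * √(2 ^ (j + 2) * r) = √((2 ^ (j + 2) * r)⁻¹) := by
      rw [Real.sqrt_inv]
      have h4 : √(2 ^ (j + 2) * r) ≠ 0 := (Real.sqrt_pos.2 hUpos).ne'
      have h5 : 2 ^ (j + 2) * r = √(2 ^ (j + 2) * r) * √(2 ^ (j + 2) * r) :=
        (Real.mul_self_sqrt hUpos.le).symm
      obtain ⟨q, hq⟩ : ∃ q, q = √(2 ^ (j + 2) * r) := ⟨_, rfl⟩
      rw [← hq] at h4 h5 ⊢
      rw [h5]
      field_simp
    rw [h3]
    exact Real.sqrt_le_iff.2 ⟨by positivity, h1⟩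
  · refine h1.trans ?_
    have h2 : (3 / 4 : ℝ) ^ j ≤ 1 := pow_le_one₀ (by norm_num) (by norm_num)
    have h3 : 0 ≤ (3 / 4 : ℝ) ^ j := by positivity
    nlinarith

private theorem E4_R4 (K : ℕ) : ∑ k ∈ range K, (3 / 4 : ℝ) ^ k ≤ 4 := by
  rw [geom_sum_eq (by norm_num)]
  have : 0 ≤ (3 / 4 : ℝ) ^ K := by positivity
  rw [div_le_iff_of_neg (by norm_num)]
  linarith

private theorem E4_pt_an (T t : ℝ) (z : ℂ) : AnalyticAt ℂ (pt T t) z := by
  have h : pt T t = fun z => 1 / 2 + t * I + z / (Real.log T : ℝ) := by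
    funext w
    rfl
  rw [h]
  exact analyticAt_const.add (analyticAt_id.div_const)

theorem Gz_an {S : BS} {Ct θ D1 : ℝ} {N0 : ℕ} (hS : TG S Ct θ D1 N0) (δ t : ℝ) {z : ℂ}
    (hz : (pt S.T t z).im ≠ 0) : AnalyticAt ℂ (Gz S δ t) z ∧ AnalyticAt ℂ (Vd S δ t) z ∧
    AnalyticAt ℂ (fun z => MO 0 S.T (nC (pt S.T t z))) z := by
  have hp := E4_pt_an S.T t z
  have h1 : AnalyticAt ℂ (fun z => VV S.T (pt S.T t z)) z :=
    (VV_an S.T hz).fun_comp hp
  have h2 : AnalyticAt ℂ (fun z => ch (pt S.T t z)) z := (ch_an hz).fun_comp hp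
  have h3 : AnalyticAt ℂ (fun s => MO 0 S.T (nC s)) (pt S.T t z) := (MO_an 0 S.T).analyticAt _
  have h4 : AnalyticAt ℂ (fun z => MO 0 S.T (nC (pt S.T t z))) z := AnalyticAt.fun_comp (g := fun s => MO 0 S.T (nC s)) h3 hp
  have h5 : AnalyticAt ℂ (Vd S δ t) z := by
    have : Vd S δ t = fun z => VV S.T (pt S.T t z) ^ 2 +
        (δ ^ 2 * Real.exp (2 * x0 S t) : ℝ) * ch (pt S.T t z) := by
      funext w
      rfl
    rw [this]
    exact (h1.pow 2).add (analyticAt_const.mul h2)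
  have h6 : AnalyticAt ℂ (Gz S δ t) z := by
    have : Gz S δ t = fun z => Vd S δ t z * MO 0 S.T (nC (pt S.T t z)) ^ 2 := by
      funext w
      rfl
    rw [this]
    exact h5.mul (h4.pow 2)
  exact ⟨h6, h5, h4⟩

/-- Tonelli -/
private theorem E4_swap {E : Set ℝ} {D : Set ℂ} {g : ℝ → ENNReal}
    {h : ℝ → ℂ → ENNReal} (hg : Measurable g) (hh : Measurable (fun q : ℝ × ℂ => h q.1 q.2)) :
    ∫⁻ t in E, (∫⁻ z in D, h t z) * g t = ∫⁻ z in D, ∫⁻ t in E, h t z * g t := by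
  have h1 : ∀ t, (∫⁻ z in D, h t z) * g t = ∫⁻ z in D, h t z * g t := by
    intro t
    rw [lintegral_mul_const]
    exact hh.comp (measurable_const.prodMk measurable_id)
  simp only [h1]
  rw [lintegral_lintegral_swap]
  exact (hh.mul (hg.comp measurable_fst)).aemeasurable

private theorem E4_vol (a : ℂ) {R : ℝ} (hR : 0 ≤ R) :
    volume (Metric.ball a R) = ENNReal.ofReal (π * R ^ 2) := by
  rw [Complex.volume_ball, ← ENNReal.ofReal_pow hR, ENNReal.ofReal_mul Real.pi_pos.le, mul_comm]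
  congr 1
  rw [← NNReal.coe_real_pi, ENNReal.ofReal_coe_nnreal]

private theorem E4_amgm {s m : ℝ} (hs : 0 < s) : m ≤ s / 2 * m ^ 2 + 1 / (2 * s) := by
  have h1 : 0 ≤ (s * m - 1) ^ 2 := sq_nonneg _
  have h2 : s / 2 * m ^ 2 + 1 / (2 * s) = (s ^ 2 * m ^ 2 + 1) / (2 * s) := by
    field_simp
  rw [h2, le_div_iff₀ (by positivity)]
  nlinarith

private theorem E4_Q {W q : ℝ} {n : ℕ} (hW : 1 ≤ W) (hq0 : 0 ≤ q)
    (hq : q * (4 * (23 * W) ^ n * (2 * W)) ≤ 1) :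
    (∀ z : ℂ, -(17 / 10) ≤ z.re → ‖z‖ ≤ 22 * W →
      q * (1 + ‖z‖) ^ n * Real.exp (-(z.re / 2)) ≤ 1 / (2 * W)) ∧
    (∀ (u : ℝ) (z : ℂ), 0 < u → -(17 / 10) ≤ z.re → ‖z‖ ≤ 4 * u + 3 * W →
      q * (1 + ‖z‖) ^ n * Real.exp (-(z.re / 2)) ≤ (1 + 4 * u) ^ n) ∧
    (∀ (u : ℝ) (z : ℂ), 0 < u → z.re + 11 / 5 = u → ‖z‖ ≤ u + 3 * W →
      q * (1 + ‖z‖) ^ n * Real.exp (-(z.re / 2)) ≤ (1 + u) ^ n * Real.exp (-(u / 2))) := by
  have hW0 : 0 < W := by linarith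
  have hPn : (0:ℝ) < (23 * W) ^ n := by positivity
  have hq1 : q * (4 * (23 * W) ^ n) ≤ 1 / (2 * W) := by
    rw [le_div_iff₀ (by positivity)]
    linarith
  have hq2 : q * (4 * (23 * W) ^ n) ≤ 1 := by
    refine hq1.trans ?_
    rw [div_le_one (by positivity)]
    linarith
  have he : ∀ x : ℝ, x ≤ 11 / 10 → Real.exp x ≤ 4 := by
    intro x hx
    have h3 : Real.exp x ≤ Real.exp (11 / 10) := Real.exp_le_exp.2 hx
    have h4 : Real.exp (11 / 10) = Real.exp 1 * Real.exp (1 / 10) := by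
      rw [← Real.exp_add]
      norm_num
    have h5 : Real.exp (1 / 10) ^ 10 ≤ (6 / 5) ^ 10 := by
      rw [← Real.exp_nat_mul]
      have : ((10:ℕ):ℝ) * (1 / 10) = 1 := by norm_num
      rw [this]
      have := Real.exp_one_lt_d9
      have h6 : (2.7182818286:ℝ) ≤ (6 / 5) ^ 10 := by norm_num
      linarith
    have h6 : Real.exp (1 / 10) ≤ 6 / 5 := le_of_pow_le_pow_left₀ (by norm_num) (by norm_num) h5
    have h7 := Real.exp_one_lt_d9
    have h8 : 0 < Real.exp (1 / 10) := Real.exp_pos _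
    have h9 : Real.exp 1 * Real.exp (1 / 10) ≤ 2.7182818286 * (6 / 5) :=
      mul_le_mul h7.le h6 h8.le (by norm_num)
    rw [h4] at h3
    refine h3.trans (h9.trans (by norm_num))
  refine ⟨?_, ?_, ?_⟩
  · intro z hz1 hz2
    have h3 : (1 + ‖z‖) ^ n ≤ (23 * W) ^ n :=
      pow_le_pow_left₀ (by positivity) (by linarith) n
    have h4 := he (-(z.re / 2)) (by linarith)
    refine le_trans ?_ hq1
    have h5 : (1 + ‖z‖) ^ n * Real.exp (-(z.re / 2)) ≤ (23 * W) ^ n * 4 :=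
      mul_le_mul h3 h4 (Real.exp_pos _).le hPn.le
    have h6 := mul_le_mul_of_nonneg_left h5 hq0
    linarith
  · intro u z hu hz1 hz2
    have h3 : (1 + ‖z‖) ^ n ≤ ((23 * W) * (1 + 4 * u)) ^ n := by
      apply pow_le_pow_left₀ (by positivity)
      nlinarith
    have h4 := he (-(z.re / 2)) (by linarith)
    rw [mul_pow] at h3
    have h5 : (1 + ‖z‖) ^ n * Real.exp (-(z.re / 2)) ≤ (23 * W) ^ n * (1 + 4 * u) ^ n * 4 :=
      mul_le_mul h3 h4 (Real.exp_pos _).le (by positivity)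
    have h6 := mul_le_mul_of_nonneg_left h5 hq0
    have h7 : q * ((23 * W) ^ n * (1 + 4 * u) ^ n * 4) = (q * (4 * (23 * W) ^ n)) * (1 + 4 * u) ^ n := by
      ring
    rw [h7] at h6
    have h8 : (q * (4 * (23 * W) ^ n)) * (1 + 4 * u) ^ n ≤ 1 * (1 + 4 * u) ^ n :=
      mul_le_mul_of_nonneg_right hq2 (by positivity)
    linarith
  · intro u z hu hz1 hz2
    have h3 : (1 + ‖z‖) ^ n ≤ ((23 * W) * (1 + u)) ^ n := by
      apply pow_le_pow_left₀ (by positivity)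
      nlinarith
    have h4 : Real.exp (-(z.re / 2)) ≤ 4 * Real.exp (-(u / 2)) := by
      have h5 : -(z.re / 2) = 11 / 10 + -(u / 2) := by linarith
      rw [h5, Real.exp_add]
      exact mul_le_mul_of_nonneg_right (he _ le_rfl) (Real.exp_pos _).le
    rw [mul_pow] at h3
    have h5 : (1 + ‖z‖) ^ n * Real.exp (-(z.re / 2)) ≤
        (23 * W) ^ n * (1 + u) ^ n * (4 * Real.exp (-(u / 2))) :=
      mul_le_mul h3 h4 (Real.exp_pos _).le (by positivity)
    have h6 := mul_le_mul_of_nonneg_left h5 hq0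
    have h7 : q * ((23 * W) ^ n * (1 + u) ^ n * (4 * Real.exp (-(u / 2)))) =
        (q * (4 * (23 * W) ^ n)) * ((1 + u) ^ n * Real.exp (-(u / 2))) := by
      ring
    rw [h7] at h6
    have h8 : (q * (4 * (23 * W) ^ n)) * ((1 + u) ^ n * Real.exp (-(u / 2))) ≤
        1 * ((1 + u) ^ n * Real.exp (-(u / 2))) :=
      mul_le_mul_of_nonneg_right hq2 (by positivity)
    linarith

/-- one term of the chain -/
private theorem E4_term {E : Set ℝ} {G : ℝ → ℂ → ℂ} {u : ℝ → ℝ} {c1 c2 : ℂ} {R M KG P2 P3 s : ℝ}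
    (hGm : Measurable (fun q : ℝ × ℂ => G q.1 q.2))
    (hum : Measurable (fun t => ENNReal.ofReal (u t))) (hu0 : ∀ t, 0 ≤ u t)
    (hR : 0 ≤ R) (hM : 0 ≤ M) (hKG : 0 ≤ KG) (hP2 : 0 ≤ P2) (hs : 0 < s)
    (h2 : ∫⁻ t in {t | t ∈ E ∧ 1 / 2 < ‖G t c1 - 1‖}, ENNReal.ofReal (u t) ≤
      ENNReal.ofReal (KG * P2 * M))
    (h3 : ∀ z ∈ Metric.ball c2 R, ∫⁻ t in E,
        ENNReal.ofReal (max 0 (Real.log ‖G t z‖) ^ 2 * u t) ≤
        ENNReal.ofReal (KG * P3 ^ 2 * M)) :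
    ∫⁻ t in E, (open Classical in if 1 / 2 < ‖G t c1 - 1‖ then
        2 * (∫⁻ z in Metric.ball c2 R, ENNReal.ofReal (Real.log ‖G t z‖)) +
          ENNReal.ofReal (π * R ^ 2) else 0) * ENNReal.ofReal (u t) ≤
    ENNReal.ofReal (π * R ^ 2 * KG * M * (s * P3 ^ 2 + (1 / s + 1) * P2)) := by
  classical
  obtain ⟨B, hB⟩ : ∃ B : Set ℝ, B = {t | t ∈ E ∧ 1 / 2 < ‖G t c1 - 1‖} := ⟨_, rfl⟩
  have hG1 : Measurable (fun t : ℝ => G t c1) :=
    hGm.comp (measurable_id.prodMk measurable_const)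
  have hPm : MeasurableSet {t : ℝ | 1 / 2 < ‖G t c1 - 1‖} :=
    measurableSet_lt measurable_const ((hG1.sub_const 1).norm)
  have hhm : Measurable (fun q : ℝ × ℂ => ENNReal.ofReal (Real.log ‖G q.1 q.2‖)) :=
    ENNReal.measurable_ofReal.comp (Real.measurable_log.comp hGm.norm)
  have hXm : Measurable (fun t : ℝ => ∫⁻ z in Metric.ball c2 R, ENNReal.ofReal (Real.log ‖G t z‖)) :=
    hhm.lintegral_prod_right'
  have e1 : ∫⁻ t in E, (if 1 / 2 < ‖G t c1 - 1‖ then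
        2 * (∫⁻ z in Metric.ball c2 R, ENNReal.ofReal (Real.log ‖G t z‖)) +
          ENNReal.ofReal (π * R ^ 2) else 0) * ENNReal.ofReal (u t) =
      ∫⁻ t in B, (2 * (∫⁻ z in Metric.ball c2 R, ENNReal.ofReal (Real.log ‖G t z‖)) +
          ENNReal.ofReal (π * R ^ 2)) * ENNReal.ofReal (u t) := by
    have e2 : ∀ t, (if 1 / 2 < ‖G t c1 - 1‖ then
        2 * (∫⁻ z in Metric.ball c2 R, ENNReal.ofReal (Real.log ‖G t z‖)) +
          ENNReal.ofReal (π * R ^ 2) else 0) * ENNReal.ofReal (u t) =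
        Set.indicator {t : ℝ | 1 / 2 < ‖G t c1 - 1‖} (fun t =>
          (2 * (∫⁻ z in Metric.ball c2 R, ENNReal.ofReal (Real.log ‖G t z‖)) +
          ENNReal.ofReal (π * R ^ 2)) * ENNReal.ofReal (u t)) t := by
      intro t
      by_cases ht : 1 / 2 < ‖G t c1 - 1‖
      · rw [if_pos ht, Set.indicator_of_mem (by exact ht)]
      · rw [if_neg ht, Set.indicator_of_notMem (by exact ht), zero_mul]
    simp only [e2]
    have e4 : {t : ℝ | 1 / 2 < ‖G t c1 - 1‖} ∩ E = B := by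
      rw [hB]
      ext t
      exact and_comm
    rw [lintegral_indicator hPm, Measure.restrict_restrict hPm, e4]
  rw [e1]
  have e3 : ∫⁻ t in B, (2 * (∫⁻ z in Metric.ball c2 R, ENNReal.ofReal (Real.log ‖G t z‖)) +
          ENNReal.ofReal (π * R ^ 2)) * ENNReal.ofReal (u t) =
      2 * (∫⁻ z in Metric.ball c2 R, ∫⁻ t in B, ENNReal.ofReal (Real.log ‖G t z‖) *
        ENNReal.ofReal (u t)) +
      ENNReal.ofReal (π * R ^ 2) * ∫⁻ t in B, ENNReal.ofReal (u t) := by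
    have hXu : Measurable (fun t : ℝ => (∫⁻ z in Metric.ball c2 R, ENNReal.ofReal (Real.log ‖G t z‖)) *
        ENNReal.ofReal (u t)) := hXm.mul hum
    have hXu2 : Measurable (fun t : ℝ => 2 * ((∫⁻ z in Metric.ball c2 R,
        ENNReal.ofReal (Real.log ‖G t z‖)) * ENNReal.ofReal (u t))) := hXu.const_mul 2
    rw [← E4_swap (h := fun t z => ENNReal.ofReal (Real.log ‖G t z‖)) hum hhm,
      ← lintegral_const_mul _ hXu, ← lintegral_const_mul _ hum,
      ← lintegral_add_left hXu2]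
    apply lintegral_congr
    intro t
    rw [add_mul, mul_assoc]
  rw [e3]
  have hcs : ∀ t z, ENNReal.ofReal (Real.log ‖G t z‖) * ENNReal.ofReal (u t) ≤
      ENNReal.ofReal (s / 2) * ENNReal.ofReal (max 0 (Real.log ‖G t z‖) ^ 2 * u t) +
      ENNReal.ofReal (1 / (2 * s)) * ENNReal.ofReal (u t) := by
    intro t z
    have hu0' := hu0 t
    rw [← ENNReal.ofReal_mul' hu0', ← ENNReal.ofReal_mul (by positivity),
      ← ENNReal.ofReal_mul (by positivity), ← ENNReal.ofReal_add (by positivity) (by positivity)]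
    apply ENNReal.ofReal_le_ofReal
    have h5 := E4_amgm hs (m := max 0 (Real.log ‖G t z‖))
    have h6 : Real.log ‖G t z‖ ≤ max 0 (Real.log ‖G t z‖) := le_max_right _ _
    have h7 := mul_le_mul_of_nonneg_right (h6.trans h5) hu0'
    linarith
  have hin : ∀ z ∈ Metric.ball c2 R, ∫⁻ t in B, ENNReal.ofReal (Real.log ‖G t z‖) *
        ENNReal.ofReal (u t) ≤
      ENNReal.ofReal (s / 2 * (KG * P3 ^ 2 * M) + 1 / (2 * s) * (KG * P2 * M)) := by
    intro z hz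
    have hBE : B ⊆ E := by
      rw [hB]
      intro t ht
      exact ht.1
    refine (lintegral_mono (fun t => hcs t z)).trans ?_
    rw [lintegral_add_right _ (hum.const_mul _), lintegral_const_mul' _ _ ENNReal.ofReal_ne_top,
      lintegral_const_mul _ hum, ENNReal.ofReal_add (by positivity) (by positivity),
      ENNReal.ofReal_mul (by positivity), ENNReal.ofReal_mul (p := 1 / (2 * s)) (by positivity)]
    refine add_le_add (mul_le_mul_right ?_ _) (mul_le_mul_right ?_ _)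
    · exact le_trans (lintegral_mono_set hBE) (h3 z hz)
    · rw [hB]
      exact h2
  have hin2 : (∫⁻ z in Metric.ball c2 R, ∫⁻ t in B, ENNReal.ofReal (Real.log ‖G t z‖) *
        ENNReal.ofReal (u t)) ≤
      ENNReal.ofReal ((s / 2 * (KG * P3 ^ 2 * M) + 1 / (2 * s) * (KG * P2 * M)) * (π * R ^ 2)) := by
    refine (setLIntegral_mono' Metric.isOpen_ball.measurableSet hin).trans ?_
    rw [setLIntegral_const, E4_vol c2 hR, ← ENNReal.ofReal_mul (by positivity)]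
  have h2' : ENNReal.ofReal (π * R ^ 2) * ∫⁻ t in B, ENNReal.ofReal (u t) ≤
      ENNReal.ofReal (π * R ^ 2 * (KG * P2 * M)) := by
    rw [ENNReal.ofReal_mul (p := π * R ^ 2) (by positivity), hB]
    exact mul_le_mul_right h2 _
  have h4 : (2 : ENNReal) = ENNReal.ofReal 2 := by simp
  refine (add_le_add (mul_le_mul_right hin2 2) h2').trans ?_
  rw [h4, ← ENNReal.ofReal_mul (by norm_num), ← ENNReal.ofReal_add (by positivity) (by positivity)]
  apply ENNReal.ofReal_le_ofReal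
  apply le_of_eq
  field_simp
  ring

private theorem E4_log_le (w : ℂ) : Real.log ‖w‖ ≤ ‖w - 1‖ := by
  by_cases h : w = 0
  · rw [h, norm_zero, Real.log_zero]
    exact norm_nonneg _
  · have h1 := Real.log_le_sub_one_of_pos (norm_pos_iff.2 h)
    have h2 := norm_sub_norm_le w 1
    rw [norm_one] at h2
    linarith

/-- all terms of the chain -/
private theorem E4_comb {E : Set ℝ} (hE : MeasurableSet E) {G : ℝ → ℂ → ℂ} {u : ℝ → ℝ} {D : Set ℂ}
    {N : ℕ} {c : ℕ → ℂ} {R : ℕ → ℝ} {A0 B0 : ℝ} {ck : ℕ → ℝ}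
    (hGm : Measurable (fun q : ℝ × ℂ => G q.1 q.2))
    (hum : Measurable (fun t => ENNReal.ofReal (u t))) (hu0 : ∀ t, 0 ≤ u t)
    (hR0 : 0 ≤ R 0) (hA0 : 0 ≤ A0) (hB0 : 0 ≤ B0) (hck : ∀ k, 0 ≤ ck k)
    (hchain : ∀ t ∈ E, ∫⁻ z in D, ENNReal.ofReal |Real.log ‖G t z‖| ≤
      2 * (∫⁻ z in Metric.ball (c 0) (R 0), ENNReal.ofReal (Real.log ‖G t z‖)) +
      ENNReal.ofReal (2 * π * R 0 ^ 2 * ‖G t (c 0) - 1‖) +
      ∑ k ∈ range N, (open Classical in if 1 / 2 < ‖G t (c k) - 1‖ then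
        2 * (∫⁻ z in Metric.ball (c (k + 1)) (R (k + 1)),
          ENNReal.ofReal (Real.log ‖G t z‖)) + ENNReal.ofReal (π * R (k + 1) ^ 2) else 0))
    (hA : ∀ z ∈ Metric.ball (c 0) (R 0), ∫⁻ t in E, ENNReal.ofReal (‖G t z - 1‖ * u t) ≤
      ENNReal.ofReal A0)
    (hB : ∫⁻ t in E, ENNReal.ofReal (‖G t (c 0) - 1‖ * u t) ≤ ENNReal.ofReal B0)
    (hC : ∀ k < N, ∫⁻ t in E, (open Classical in if 1 / 2 < ‖G t (c k) - 1‖ then
        2 * (∫⁻ z in Metric.ball (c (k + 1)) (R (k + 1)), ENNReal.ofReal (Real.log ‖G t z‖)) +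
          ENNReal.ofReal (π * R (k + 1) ^ 2) else 0) * ENNReal.ofReal (u t) ≤
      ENNReal.ofReal (ck k)) :
    ∫⁻ t in E, ∫⁻ z in D, ENNReal.ofReal (|Real.log ‖G t z‖| * u t) ≤
    ENNReal.ofReal (2 * (A0 * (π * R 0 ^ 2)) + 2 * π * R 0 ^ 2 * B0 + ∑ k ∈ range N, ck k) := by
  classical
  have hGc : ∀ c1 : ℂ, Measurable (fun t : ℝ => G t c1) := fun c1 =>
    hGm.comp (measurable_id.prodMk measurable_const)
  have hhm : Measurable (fun q : ℝ × ℂ => ENNReal.ofReal (Real.log ‖G q.1 q.2‖)) :=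
    ENNReal.measurable_ofReal.comp (Real.measurable_log.comp hGm.norm)
  have hXm : ∀ (c2 : ℂ) (R2 : ℝ), Measurable (fun t : ℝ => ∫⁻ z in Metric.ball c2 R2,
      ENNReal.ofReal (Real.log ‖G t z‖)) := fun c2 R2 => hhm.lintegral_prod_right'
  have hZm : ∀ k, Measurable (fun t : ℝ => if 1 / 2 < ‖G t (c k) - 1‖ then
        2 * (∫⁻ z in Metric.ball (c (k + 1)) (R (k + 1)), ENNReal.ofReal (Real.log ‖G t z‖)) +
          ENNReal.ofReal (π * R (k + 1) ^ 2) else 0) := by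
    intro k
    apply Measurable.ite
    · exact measurableSet_lt measurable_const (((hGc (c k)).sub_const 1).norm)
    · exact ((hXm _ _).const_mul 2).add_const _
    · exact measurable_const
  have hYm : Measurable (fun t : ℝ => ENNReal.ofReal (2 * π * R 0 ^ 2 * ‖G t (c 0) - 1‖)) :=
    ENNReal.measurable_ofReal.comp ((((hGc (c 0)).sub_const 1).norm).const_mul _)
  have e1 : ∫⁻ t in E, ∫⁻ z in D, ENNReal.ofReal (|Real.log ‖G t z‖| * u t) =
      ∫⁻ t in E, (∫⁻ z in D, ENNReal.ofReal |Real.log ‖G t z‖|) * ENNReal.ofReal (u t) := by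
    apply lintegral_congr
    intro t
    rw [← lintegral_mul_const' _ _ ENNReal.ofReal_ne_top]
    apply lintegral_congr
    intro z
    rw [ENNReal.ofReal_mul (abs_nonneg _)]
  rw [e1]
  refine (setLIntegral_mono' hE (fun t ht => mul_le_mul_left (hchain t ht) _)).trans ?_
  have hm1 : Measurable (fun t : ℝ => (2 * (∫⁻ z in Metric.ball (c 0) (R 0),
      ENNReal.ofReal (Real.log ‖G t z‖))) * ENNReal.ofReal (u t)) := ((hXm _ _).const_mul 2).mul hum
  have hm2 : Measurable (fun t : ℝ => ENNReal.ofReal (2 * π * R 0 ^ 2 * ‖G t (c 0) - 1‖) *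
      ENNReal.ofReal (u t)) := hYm.mul hum
  have hm12 : Measurable (fun t : ℝ => (2 * (∫⁻ z in Metric.ball (c 0) (R 0),
      ENNReal.ofReal (Real.log ‖G t z‖))) * ENNReal.ofReal (u t) +
      ENNReal.ofReal (2 * π * R 0 ^ 2 * ‖G t (c 0) - 1‖) * ENNReal.ofReal (u t)) := hm1.add hm2
  have hZu : ∀ k ∈ range N, Measurable (fun t : ℝ => (if 1 / 2 < ‖G t (c k) - 1‖ then
        2 * (∫⁻ z in Metric.ball (c (k + 1)) (R (k + 1)), ENNReal.ofReal (Real.log ‖G t z‖)) +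
          ENNReal.ofReal (π * R (k + 1) ^ 2) else 0) * ENNReal.ofReal (u t)) :=
    fun k _ => (hZm k).mul hum
  simp only [add_mul, Finset.sum_mul]
  rw [lintegral_add_left hm12, lintegral_add_left hm1, lintegral_finsetSum _ hZu]
  rw [ENNReal.ofReal_add (by positivity) (Finset.sum_nonneg fun k _ => hck k),
    ENNReal.ofReal_add (by positivity) (by positivity),
    ENNReal.ofReal_sum_of_nonneg (fun k _ => hck k)]
  refine add_le_add (add_le_add ?_ ?_) ?_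
  · have e2 : ∫⁻ t in E, 2 * (∫⁻ z in Metric.ball (c 0) (R 0),
        ENNReal.ofReal (Real.log ‖G t z‖)) * ENNReal.ofReal (u t) =
        2 * ∫⁻ z in Metric.ball (c 0) (R 0), ∫⁻ t in E,
          ENNReal.ofReal (Real.log ‖G t z‖) * ENNReal.ofReal (u t) := by
      have hXu : Measurable (fun t : ℝ => (∫⁻ z in Metric.ball (c 0) (R 0),
        ENNReal.ofReal (Real.log ‖G t z‖)) * ENNReal.ofReal (u t)) := (hXm _ _).mul hum
      rw [← E4_swap (h := fun t z => ENNReal.ofReal (Real.log ‖G t z‖)) hum hhm,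
        ← lintegral_const_mul _ hXu]
      apply lintegral_congr
      intro t
      rw [mul_assoc]
    rw [e2]
    have hin : ∀ z ∈ Metric.ball (c 0) (R 0), ∫⁻ t in E,
        ENNReal.ofReal (Real.log ‖G t z‖) * ENNReal.ofReal (u t) ≤ ENNReal.ofReal A0 := by
      intro z hz
      refine (lintegral_mono (fun t => ?_)).trans (hA z hz)
      rw [← ENNReal.ofReal_mul' (hu0 t)]
      exact ENNReal.ofReal_le_ofReal (mul_le_mul_of_nonneg_right (E4_log_le _) (hu0 t))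
    have hin2 := setLIntegral_mono' (μ := volume) Metric.isOpen_ball.measurableSet hin
    rw [setLIntegral_const, E4_vol (c 0) hR0, ← ENNReal.ofReal_mul hA0] at hin2
    have h4 : (2 : ENNReal) = ENNReal.ofReal 2 := by simp
    rw [ENNReal.ofReal_mul (by norm_num), ← h4]
    exact mul_le_mul_right hin2 _
  · have e2 : ∫⁻ t in E, ENNReal.ofReal (2 * π * R 0 ^ 2 * ‖G t (c 0) - 1‖) * ENNReal.ofReal (u t) =
        ENNReal.ofReal (2 * π * R 0 ^ 2) * ∫⁻ t in E, ENNReal.ofReal (‖G t (c 0) - 1‖ * u t) := by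
      rw [← lintegral_const_mul' _ _ ENNReal.ofReal_ne_top]
      apply lintegral_congr
      intro t
      rw [ENNReal.ofReal_mul (p := 2 * π * R 0 ^ 2) (by positivity), mul_assoc,
        ENNReal.ofReal_mul (norm_nonneg _)]
    rw [e2, ENNReal.ofReal_mul (p := 2 * π * R 0 ^ 2) (by positivity)]
    exact mul_le_mul_right hB _
  · apply Finset.sum_le_sum
    intro k hk
    exact hC k (Finset.mem_range.1 hk)

theorem cell_bound (lam η : ℝ) (h0 : 0 < lam) (h1 : 0 < η) (h2 : η ≤ 1) : ∃ C0 K : ℝ, 1 ≤ K ∧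
    ∀ {Ct θ D1 : ℝ} {N0 : ℕ}, C0 ≤ Ct → ∀ W : ℝ, 1 ≤ W → ∃ δ0 T0 : ℝ, 0 < δ0 ∧ δ0 ≤ 1 ∧
    ∀ {S : BS}, TG S Ct θ D1 N0 → T0 ≤ S.T → ∀ δ : ℝ, 0 ≤ δ → δ ≤ δ0 →
    ∀ r τ : ℝ, 1 ≤ r → r ≤ 2 * W → |τ| ≤ 3 * W →
    ∫⁻ t in EE S lam η, ∫⁻ z in cellS r τ,
      ENNReal.ofReal (|Real.log ‖Gz S δ t z‖| * uu S lam t) ≤
    ENNReal.ofReal (K * r * (S.T * Lam S lam)) := by
  obtain ⟨C0, KG, n, hKG, hGB⟩ := GB lam η h0 h1 h2
  obtain ⟨T1, hfar⟩ := far_good lam η h0 h1 h2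
  obtain ⟨Cn, hCn, hR1⟩ := E4_R1 n
  have hKG0 : 0 < KG := by linarith
  have hpi := Real.pi_gt_three
  refine ⟨C0, π * KG * (110 + 16 * ((1 + 4 * n) ^ 2 + 2 * (1 + Cn))), ?_, ?_⟩
  · have e1 : 1 ≤ π * KG := by nlinarith
    have e2 : (0:ℝ) ≤ 16 * ((1 + 4 * n) ^ 2 + 2 * (1 + Cn)) := by positivity
    nlinarith
  intro Ct θ D1 N0 hCt W hW
  obtain ⟨T2, hGB2⟩ := hGB (Ct := Ct) (θ := θ) (D1 := D1) (N0 := N0) hCt
  have hW0 : 0 < W := by linarith
  obtain ⟨B, hB⟩ : ∃ B, B = Real.exp (D1 + 5 * Real.log (1 / θ)) * (4 * (23 * W) ^ n * (2 * W)) := ⟨_, rfl⟩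
  have hB0 : 0 < B := by rw [hB]; positivity
  refine ⟨1 / (1 + B), max (max T1 T2) (max (Real.exp (8 * W)) (16 / η)), by positivity, ?_, ?_⟩
  · rw [div_le_one (by positivity)]
    linarith
  intro S hS hT δ hδ0 hδ r τ hr hrW hτ
  have hTa : T1 ≤ S.T := (le_max_left _ _).trans ((le_max_left _ _).trans hT)
  have hTb : T2 ≤ S.T := (le_max_right _ _).trans ((le_max_left _ _).trans hT)
  have hTc : Real.exp (8 * W) ≤ S.T := (le_max_left _ _).trans ((le_max_right _ _).trans hT)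
  have hTd : 16 / η ≤ S.T := (le_max_right _ _).trans ((le_max_right _ _).trans hT)
  have hTpos : 0 < S.T := (Real.exp_pos _).trans_le hS.T_ge
  have hT16 : 16 ≤ η * S.T := by
    rw [div_le_iff₀ h1] at hTd
    linarith
  obtain ⟨L, hL⟩ : ∃ L, L = Real.log S.T := ⟨_, rfl⟩
  have hL1 : 1000 ≤ L := by
    rw [hL, Real.le_log_iff_exp_le hTpos]
    exact hS.T_ge
  have hLW : 8 * W ≤ L := by
    rw [hL, Real.le_log_iff_exp_le hTpos]
    exact hTc
  have hδ1 : δ ≤ 1 := by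
    refine hδ.trans ?_
    rw [div_le_one (by positivity)]
    linarith
  have hδB : δ ^ 2 * B ≤ 1 := by
    have e1 : δ * (1 + B) ≤ 1 := by
      rw [le_div_iff₀ (by positivity)] at hδ
      exact hδ
    nlinarith [mul_nonneg hδ0 hB0.le]
  obtain ⟨q, hq⟩ : ∃ q, q = δ ^ 2 * Real.exp (D1 + 5 * Real.log (1 / θ)) := ⟨_, rfl⟩
  have hq0 : 0 ≤ q := by rw [hq]; positivity
  have hqB : q * (4 * (23 * W) ^ n * (2 * W)) ≤ 1 := by
    rw [hB] at hδB
    rw [hq]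
    linarith
  obtain ⟨hQ1, hQ2, hQ3⟩ := E4_Q (n := n) hW hq0 hqB
  have hM : 0 ≤ S.T * Lam S lam := by
    unfold Lam
    positivity
  obtain ⟨M, hMd⟩ : ∃ M, M = S.T * Lam S lam := ⟨_, rfl⟩
  rw [← hMd] at hM
  have hGB3 := hGB2 hS hTb δ hδ0 hδ1
  rw [← hL, ← hMd, ← hq] at hGB3
  -- the number of discs
  obtain ⟨N, hN1, hN2⟩ : ∃ N : ℕ, 7 / 2 * L + 11 / 5 ≤ 2 ^ (N + 2) * r ∧
      2 ^ (N + 2) * r ≤ 7 * L + 22 / 5 := by
    have e1 : 1 ≤ (7 / 2 * L + 11 / 5) / (4 * r) := by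
      rw [le_div_iff₀ (by linarith)]
      linarith
    obtain ⟨m, hm1, hm2⟩ := exists_nat_pow_near e1 one_lt_two
    rw [le_div_iff₀ (by linarith)] at hm1
    rw [div_lt_iff₀ (by linarith)] at hm2
    refine ⟨m + 1, ?_, ?_⟩
    · have e2 : (2:ℝ) ^ (m + 1 + 2) * r = 2 ^ (m + 1) * (4 * r) := by ring
      rw [e2]
      exact hm2.le
    · have e2 : (2:ℝ) ^ (m + 1 + 2) * r = 2 * (2 ^ m * (4 * r)) := by ring
      rw [e2]
      linarith
  have hU4 : ∀ j : ℕ, 4 ≤ (2:ℝ) ^ (j + 2) * r := by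
    intro j
    have e1 : (4:ℝ) ≤ 2 ^ (j + 2) := by
      rw [pow_add]
      have := one_le_pow₀ (one_le_two : (1:ℝ) ≤ 2) (n := j)
      linarith
    nlinarith
  have hmono : ∀ j ≤ N, (2:ℝ) ^ (j + 2) * r ≤ 7 * L + 22 / 5 := by
    intro j hj
    refine le_trans ?_ hN2
    apply mul_le_mul_of_nonneg_right _ (by linarith)
    exact pow_le_pow_right₀ one_le_two (by omega)
  have hrange : ∀ j ≤ N, ∀ z ∈ Metric.closedBall (cc r τ j) (rr r j),
      -(17 / 10) ≤ z.re ∧ z.re ≤ 15 * L ∧ |z.im| ≤ 15 * L := by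
    intro j hj z hz
    obtain ⟨g1, g2, g3, g4⟩ := E4_geo hr hτ j hz
    have g5 := hmono j hj
    refine ⟨by linarith, by linarith, by linarith⟩
  have hcmem : ∀ j, cc r τ j ∈ Metric.closedBall (cc r τ j) (rr r j) := by
    intro j
    apply Metric.mem_closedBall_self
    unfold rr
    have := hU4 j
    linarith [hU4 j, hrW, hr, (by
      have e3 : r ≤ (2:ℝ) ^ (j + 2) * r := by
        have e1 : (1:ℝ) ≤ 2 ^ (j + 2) := one_le_pow₀ one_le_two
        nlinarith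
      exact e3 : r ≤ (2:ℝ) ^ (j + 2) * r)]
  have hR0 : ∀ j, 0 ≤ rr r j := by
    intro j
    unfold rr
    have e1 : (1:ℝ) ≤ 2 ^ (j + 2) := one_le_pow₀ one_le_two
    nlinarith
  have hRne : ∀ j ≤ S.J, ∀ p ∈ S.R j, p ≠ 0 := fun j hj p hp => (hS.prime j hj p hp).1.ne_zero
  have hum : Measurable (fun t => ENNReal.ofReal (uu S lam t)) :=
    ENNReal.measurable_ofReal.comp (uu_continuous S lam hRne).measurable
  have hu0 : ∀ t, 0 ≤ uu S lam t := fun t => sq_nonneg _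
  have hGm := (Gz_meas hS δ).1
  have hrr0 : rr r 0 = 7 / 2 * r := by
    unfold rr
    ring
  -- the chain
  have hchain : ∀ t ∈ EE S lam η, ∫⁻ z in cellS r τ, ENNReal.ofReal |Real.log ‖Gz S δ t z‖| ≤
      2 * (∫⁻ z in Metric.ball (cc r τ 0) (rr r 0), ENNReal.ofReal (Real.log ‖Gz S δ t z‖)) +
      ENNReal.ofReal (2 * π * rr r 0 ^ 2 * ‖Gz S δ t (cc r τ 0) - 1‖) +
      ∑ k ∈ range N, (open Classical in if 1 / 2 < ‖Gz S δ t (cc r τ k) - 1‖ then
        2 * (∫⁻ z in Metric.ball (cc r τ (k + 1)) (rr r (k + 1)),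
          ENNReal.ofReal (Real.log ‖Gz S δ t z‖)) + ENNReal.ofReal (π * rr r (k + 1) ^ 2) else 0) := by
    intro t ht
    apply chain (by linarith) N
    · intro z hz
      obtain ⟨g1, g2, g3⟩ := hrange N le_rfl z hz
      apply (Gz_an hS δ t _).1
      have e1 : (pt S.T t z).im = t + z.im / L := by
        unfold pt
        rw [← hL]
        simp only [Complex.add_im, Complex.div_ofReal_im, Complex.mul_im, Complex.ofReal_re,
          Complex.I_im, Complex.ofReal_im, Complex.I_re]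
        norm_num
      rw [e1]
      have e2 : η * S.T ≤ t := ht.1.1
      have e3 : -15 ≤ z.im / L := by
        rw [le_div_iff₀ (by linarith)]
        have := (abs_le.1 g3).1
        linarith
      linarith
    · obtain ⟨g1, g2, g3⟩ := E4_cc hr hτ N
      apply hfar hS hTa t ht δ hδ0 hδ1
      · rw [← hL]
        linarith
      · rw [← hL]
        linarith
      · rw [← hL]
        nlinarith
  -- the two simple terms
  have hir : 1 / (2 * W) ≤ 1 / r := one_div_le_one_div_of_le (by linarith) hrW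
  have hA : ∀ z ∈ Metric.ball (cc r τ 0) (rr r 0),
      ∫⁻ t in EE S lam η, ENNReal.ofReal (‖Gz S δ t z - 1‖ * uu S lam t) ≤
      ENNReal.ofReal (KG * (3 / r) * M) := by
    intro z hz
    have hz' := Metric.ball_subset_closedBall hz
    obtain ⟨g1, g2, g3, g4⟩ := E4_geo hr hτ 0 hz'
    obtain ⟨g5, g6, g7⟩ := hrange 0 (Nat.zero_le _) z hz'
    refine ((hGB3 z g5 g6 g7).1).trans (ENNReal.ofReal_le_ofReal ?_)
    have e1 : 1 / (z.re + 11 / 5) ≤ 2 / r := by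
      have : 1 / (z.re + 11 / 5) ≤ 1 / (r / 2) := one_div_le_one_div_of_le (by linarith) g1
      rwa [one_div_div] at this
    have e2 := (hQ1 z g5 (by norm_num at g4; linarith)).trans hir
    have e3 : 1 / (z.re + 11 / 5) + q * (1 + ‖z‖) ^ n * Real.exp (-(z.re / 2)) ≤ 3 / r := by
      have : 3 / r = 2 / r + 1 / r := by ring
      rw [this]
      exact add_le_add e1 e2
    exact mul_le_mul_of_nonneg_right (mul_le_mul_of_nonneg_left e3 hKG0.le) hM
  have hB : ∫⁻ t in EE S lam η, ENNReal.ofReal (‖Gz S δ t (cc r τ 0) - 1‖ * uu S lam t) ≤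
      ENNReal.ofReal (KG * (5 / 4 / r) * M) := by
    obtain ⟨g1, g2, g3⟩ := E4_cc hr hτ 0
    obtain ⟨g5, g6, g7⟩ := hrange 0 (Nat.zero_le _) _ (hcmem 0)
    refine ((hGB3 _ g5 g6 g7).1).trans (ENNReal.ofReal_le_ofReal ?_)
    have e1 : 1 / ((cc r τ 0).re + 11 / 5) = 1 / (4 * r) := by
      rw [g1]
      norm_num
    have e2 := (hQ1 _ g5 (by norm_num at g3; linarith)).trans hir
    have e3 : 1 / ((cc r τ 0).re + 11 / 5) + q * (1 + ‖cc r τ 0‖) ^ n *
        Real.exp (-((cc r τ 0).re / 2)) ≤ 5 / 4 / r := by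
      rw [e1]
      have : 5 / 4 / r = 1 / (4 * r) + 1 / r := by
        field_simp
        norm_num
      rw [this]
      exact add_le_add le_rfl e2
    exact mul_le_mul_of_nonneg_right (mul_le_mul_of_nonneg_left e3 hKG0.le) hM
  -- the terms of the sum
  have hC : ∀ k < N, ∫⁻ t in EE S lam η, (open Classical in
      if 1 / 2 < ‖Gz S δ t (cc r τ k) - 1‖ then
        2 * (∫⁻ z in Metric.ball (cc r τ (k + 1)) (rr r (k + 1)),
          ENNReal.ofReal (Real.log ‖Gz S δ t z‖)) +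
          ENNReal.ofReal (π * rr r (k + 1) ^ 2) else 0) * ENNReal.ofReal (uu S lam t) ≤
      ENNReal.ofReal (4 * π * KG * M * ((1 + 4 * n) ^ 2 + 2 * (1 + Cn)) * (3 / 4) ^ k) := by
    intro k hk
    obtain ⟨u, hu⟩ : ∃ u, u = (2:ℝ) ^ (k + 2) * r := ⟨_, rfl⟩
    have hu4 : 4 ≤ u := by rw [hu]; exact hU4 k
    have hupos : 0 < u := by linarith
    have hu2 : (2:ℝ) ^ (k + 1 + 2) * r = 2 * u := by
      rw [hu]
      ring
    have hs : 0 < 1 / u ^ 3 := by positivity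
    have hP2 : 0 ≤ (1 + Cn) / u ^ 6 := by positivity
    obtain ⟨r1, r2⟩ := E4_R3 hr k
    rw [← hu] at r1 r2
    refine (E4_term (E := EE S lam η) (G := Gz S δ) (u := uu S lam) (c1 := cc r τ k)
      (c2 := cc r τ (k + 1)) (R := rr r (k + 1)) (M := M) (KG := KG) (P2 := (1 + Cn) / u ^ 6)
      (P3 := 1 + n * Real.log (1 + 4 * u)) (s := 1 / u ^ 3) hGm hum hu0 (hR0 _) hM hKG0.le hP2 hs
      ?_ ?_).trans (ENNReal.ofReal_le_ofReal ?_)
    · obtain ⟨g1, g2, g3⟩ := E4_cc hr hτ k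
      obtain ⟨g5, g6, g7⟩ := hrange k hk.le _ (hcmem k)
      refine ((hGB3 _ g5 g6 g7).2.1).trans (ENNReal.ofReal_le_ofReal ?_)
      rw [← hu] at g1 g3
      have e2 := (hQ3 u (cc r τ k) hupos g1 g3).trans (hR1 u hupos)
      rw [g1]
      have e3 : 1 / u ^ 6 + q * (1 + ‖cc r τ k‖) ^ n * Real.exp (-((cc r τ k).re / 2)) ≤
          (1 + Cn) / u ^ 6 := by
        rw [add_div]
        exact add_le_add le_rfl e2
      exact mul_le_mul_of_nonneg_right (mul_le_mul_of_nonneg_left e3 hKG0.le) hM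
    · intro z hz
      have hz' := Metric.ball_subset_closedBall hz
      obtain ⟨g1, g2, g3, g4⟩ := E4_geo hr hτ (k + 1) hz'
      obtain ⟨g5, g6, g7⟩ := hrange (k + 1) hk z hz'
      rw [hu2] at g2 g3 g4
      have e2 := hQ2 u z hupos g5 (by linarith)
      have e3 : (1:ℝ) ≤ (1 + 4 * u) ^ n := one_le_pow₀ (by linarith)
      have e4 := (hGB3 z g5 g6 g7).2.2 ((1 + 4 * u) ^ n) e3 e2
      rw [Real.log_pow] at e4
      exact e4
    · -- the numerical bound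
      have e1 : rr r (k + 1) ^ 2 ≤ 4 * u ^ 2 := by
        have : rr r (k + 1) ≤ 2 * u := by
          unfold rr
          rw [hu2]
          linarith
        have e5 := pow_le_pow_left₀ (hR0 (k + 1)) this 2
        linarith
      obtain ⟨P, hP⟩ : ∃ P, P = (1 + n * Real.log (1 + 4 * u)) ^ 2 := ⟨_, rfl⟩
      have hP0 : 0 ≤ P := by rw [hP]; positivity
      have hPle : P ≤ (1 + 4 * n) ^ 2 * √u := by
        rw [hP]
        exact E4_R2 n (by linarith)
      rw [← hP]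
      have e6 : 1 / u ^ 3 * P + (1 / (1 / u ^ 3) + 1) * ((1 + Cn) / u ^ 6) =
          (P + (1 + Cn)) / u ^ 3 + (1 + Cn) / u ^ 6 := by
        field_simp
        ring
      rw [e6]
      have e7 : 0 ≤ (P + (1 + Cn)) / u ^ 3 + (1 + Cn) / u ^ 6 := by positivity
      have e8 : u ^ 2 * ((P + (1 + Cn)) / u ^ 3 + (1 + Cn) / u ^ 6) ≤
          ((1 + 4 * n) ^ 2 + 2 * (1 + Cn)) * (3 / 4) ^ k := by
        have f1 : u ^ 2 * ((P + (1 + Cn)) / u ^ 3 + (1 + Cn) / u ^ 6) =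
            u⁻¹ * P + (1 + Cn) * u⁻¹ + (1 + Cn) * (u ^ 4)⁻¹ := by
          field_simp
        rw [f1]
        have f2 : (u ^ 4)⁻¹ ≤ u⁻¹ := by
          apply inv_anti₀ hupos
          have : 1 ≤ u ^ 3 := one_le_pow₀ (by linarith)
          nlinarith
        have f3 : u⁻¹ * P ≤ (1 + 4 * n) ^ 2 * (3 / 4) ^ k := by
          have f4 : u⁻¹ * P ≤ u⁻¹ * ((1 + 4 * n) ^ 2 * √u) :=
            mul_le_mul_of_nonneg_left hPle (by positivity)
          refine f4.trans ?_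
          have f5 : u⁻¹ * ((1 + 4 * n) ^ 2 * √u) = (1 + 4 * n) ^ 2 * (u⁻¹ * √u) := by ring
          rw [f5]
          exact mul_le_mul_of_nonneg_left r1 (by positivity)
        have f6 : (1 + Cn) * u⁻¹ ≤ (1 + Cn) * (3 / 4) ^ k :=
          mul_le_mul_of_nonneg_left r2 (by positivity)
        have f7 : (1 + Cn) * (u ^ 4)⁻¹ ≤ (1 + Cn) * (3 / 4) ^ k :=
          mul_le_mul_of_nonneg_left (f2.trans r2) (by positivity)
        linarith
      have e9 : π * rr r (k + 1) ^ 2 * KG * M ≤ 4 * π * KG * M * u ^ 2 := by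
        have f1 : 0 ≤ π * KG * M := by positivity
        have f2 := mul_le_mul_of_nonneg_left e1 f1
        linarith
      have e10 := mul_le_mul_of_nonneg_right e9 e7
      have e11 : 0 ≤ 4 * π * KG * M := by positivity
      have e12 := mul_le_mul_of_nonneg_left e8 e11
      linarith
  have hfin := E4_comb (E := EE S lam η) (EE_measurable S lam η hRne) (G := Gz S δ) (u := uu S lam)
    (D := cellS r τ) (N := N) (c := cc r τ) (R := rr r) (A0 := KG * (3 / r) * M)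
    (B0 := KG * (5 / 4 / r) * M)
    (ck := fun k => 4 * π * KG * M * ((1 + 4 * n) ^ 2 + 2 * (1 + Cn)) * (3 / 4) ^ k)
    hGm hum hu0 (hR0 0) (by positivity) (by positivity) (fun k => by positivity) hchain hA hB hC
  refine hfin.trans (ENNReal.ofReal_le_ofReal ?_)
  rw [← Finset.mul_sum, hrr0, ← hMd]
  have e1 := E4_R4 N
  have e2 : 0 ≤ 4 * π * KG * M * ((1 + 4 * n) ^ 2 + 2 * (1 + Cn)) := by positivity
  have e3 := mul_le_mul_of_nonneg_left e1 e2
  have e4 : 2 * (KG * (3 / r) * M * (π * (7 / 2 * r) ^ 2)) + 2 * π * (7 / 2 * r) ^ 2 *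
      (KG * (5 / 4 / r) * M) = π * KG * (833 / 8) * r * M := by
    field_simp
    ring
  rw [e4]
  have e5 : 0 ≤ π * KG * M := by positivity
  have e6 : 0 ≤ 16 * ((1 + 4 * (n:ℝ)) ^ 2 + 2 * (1 + Cn)) * (r - 1) := by
    have : 0 ≤ r - 1 := by linarith
    positivity
  have e7 := mul_nonneg e5 e6
  have e8 : 0 ≤ π * KG * M * r := by positivity
  nlinarith [e3, e7, e8]

end Pool.Agent.LB
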