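import Pool.Agent.Lib.MP_69b2e4_nt.LB.E4

/-! TASK E5. The strips: `strip j W = {2^j ≤ x + 11/5 ≤ 2^{j+1}, |y| ≤ W}` with `r = 2^j ≤ 2W` is covered by the cells with `τ_i = -W + (i + 1/2) r`, `0 ≤ i < ⌈2W/r⌉₊ ≤ 2W/r + 1`, `|τ_i| ≤ W + r ≤ 3W`; `(2W/r + 1) K r ≤ 4 K W`.
`area_bound`: for a rectangle `-6/5 ≤ x ≤ X`, `|y| ≤ W` (`1 ≤ X ≤ W`) the number of strips is at most `2 + log(X + 3)/log 2`... `≤ C (1 + log X)`. `band_bound`: `2B ≤ x ≤ 3B`: at most 4 strips. -/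

set_option autoImplicit false

namespace Pool.Agent.LB

open Complex MeasureTheory Finset Pool.Agent.GH Pool.Agent.UH Pool.Agent.UV
open scoped Real ComplexConjugate

private lemma E5_fin {ι : Type*} (s : Finset ι) (A : ι → Set ℂ) (f : ℂ → ENNReal) :
    ∫⁻ z in ⋃ i ∈ s, A i, f z ≤ ∑ i ∈ s, ∫⁻ z in A i, f z := by
  classical
  induction s using Finset.induction_on with
  | empty => simp
  | insert a s ha ih =>
    rw [Finset.set_biUnion_insert, Finset.sum_insert ha]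
    exact (lintegral_union_le _ _ _).trans (add_le_add le_rfl ih)

private lemma E5_cover {S : BS} {Ct θ D1 : ℝ} {N0 : ℕ} (hS : TG S Ct θ D1 N0) (δ lam : ℝ)
    (E : Set ℝ) {ι : Type*} (s : Finset ι) (A : ι → Set ℂ) (Z : Set ℂ) (hZ : Z ⊆ ⋃ i ∈ s, A i)
    {a : ℝ} (ha : 0 ≤ a) {n b : ℝ} (hs : (s.card : ℝ) ≤ n) (hab : n * a ≤ b)
    (h : ∀ i ∈ s, ∫⁻ t in E, ∫⁻ z in A i, ENNReal.ofReal (|Real.log ‖Gz S δ t z‖| * uu S lam t) ≤
      ENNReal.ofReal a) :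
    ∫⁻ t in E, ∫⁻ z in Z, ENNReal.ofReal (|Real.log ‖Gz S δ t z‖| * uu S lam t) ≤
      ENNReal.ofReal b := by
  have hu : Measurable (uu S lam) :=
    (uu_continuous S lam fun j hj p hp => (hS.prime j hj p hp).1.ne_zero).measurable
  have hF : Measurable (fun q : ℝ × ℂ =>
      ENNReal.ofReal (|Real.log ‖Gz S δ q.1 q.2‖| * uu S lam q.1)) := by
    refine ENNReal.measurable_ofReal.comp ?_
    refine Measurable.mul ?_ (hu.comp measurable_fst)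
    exact (Real.measurable_log.comp (Gz_meas hS δ).1.norm).abs
  have hm : ∀ i, Measurable fun t : ℝ => ∫⁻ z in A i,
      ENNReal.ofReal (|Real.log ‖Gz S δ t z‖| * uu S lam t) := fun i =>
    Measurable.lintegral_prod_right' hF
  calc ∫⁻ t in E, ∫⁻ z in Z, ENNReal.ofReal (|Real.log ‖Gz S δ t z‖| * uu S lam t)
      ≤ ∫⁻ t in E, ∑ i ∈ s, ∫⁻ z in A i,
        ENNReal.ofReal (|Real.log ‖Gz S δ t z‖| * uu S lam t) :=
        lintegral_mono fun t => (lintegral_mono_set hZ).trans (E5_fin s A _)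
    _ = ∑ i ∈ s, ∫⁻ t in E, ∫⁻ z in A i,
        ENNReal.ofReal (|Real.log ‖Gz S δ t z‖| * uu S lam t) :=
        lintegral_finsetSum _ (fun i _ => hm i)
    _ ≤ ∑ i ∈ s, ENNReal.ofReal a := Finset.sum_le_sum h
    _ = ENNReal.ofReal (∑ i ∈ s, a) := (ENNReal.ofReal_sum_of_nonneg fun _ _ => ha).symm
    _ ≤ _ := by
      refine ENNReal.ofReal_le_ofReal ?_
      rw [Finset.sum_const, nsmul_eq_mul]
      exact (mul_le_mul_of_nonneg_right hs ha).trans hab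

private lemma E5_TL {S : BS} {Ct θ D1 : ℝ} {N0 : ℕ} (hS : TG S Ct θ D1 N0) (lam : ℝ) :
    0 ≤ S.T * Lam S lam := by
  have h1 : 0 < S.T := (Real.exp_pos _).trans_le hS.T_ge
  have h2 : 0 < Lam S lam := Real.exp_pos _
  positivity

/-- The dyadic strip of a positive number. -/
private lemma E5_dy {v : ℝ} (hv : 1 ≤ v) :
    (2 : ℝ) ^ (Nat.log 2 ⌊v⌋₊) ≤ v ∧ v ≤ 2 ^ (Nat.log 2 ⌊v⌋₊ + 1) := by
  have h1 : ⌊v⌋₊ ≠ 0 := (Nat.floor_pos.2 hv).ne'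
  have h2 : 2 ^ (Nat.log 2 ⌊v⌋₊) ≤ ⌊v⌋₊ := Nat.pow_log_le_self 2 h1
  have h3 : ⌊v⌋₊ < 2 ^ (Nat.log 2 ⌊v⌋₊ + 1) := Nat.lt_pow_succ_log_self (by norm_num) _
  constructor
  · have h4 : ((2 ^ (Nat.log 2 ⌊v⌋₊) : ℕ) : ℝ) ≤ ⌊v⌋₊ := by exact_mod_cast h2
    push_cast at h4
    exact h4.trans (Nat.floor_le (by linarith))
  · have h4 : ((⌊v⌋₊ + 1 : ℕ) : ℝ) ≤ ((2 ^ (Nat.log 2 ⌊v⌋₊ + 1) : ℕ) : ℝ) := by
      exact_mod_cast h3
    push_cast at h4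
    exact (Nat.lt_floor_add_one v).le.trans h4

theorem strip_bound (lam η : ℝ) (h0 : 0 < lam) (h1 : 0 < η) (h2 : η ≤ 1) : ∃ C0 K : ℝ, 1 ≤ K ∧
    ∀ {Ct θ D1 : ℝ} {N0 : ℕ}, C0 ≤ Ct → ∀ W : ℝ, 1 ≤ W → ∃ δ0 T0 : ℝ, 0 < δ0 ∧ δ0 ≤ 1 ∧
    ∀ {S : BS}, TG S Ct θ D1 N0 → T0 ≤ S.T → ∀ δ : ℝ, 0 ≤ δ → δ ≤ δ0 →
    ∀ j : ℕ, (2 : ℝ) ^ j ≤ 2 * W →
    ∫⁻ t in EE S lam η, ∫⁻ z in {z : ℂ | 2 ^ j ≤ z.re + 11 / 5 ∧ z.re + 11 / 5 ≤ 2 ^ (j + 1) ∧
        |z.im| ≤ W}, ENNReal.ofReal (|Real.log ‖Gz S δ t z‖| * uu S lam t) ≤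
    ENNReal.ofReal (K * W * (S.T * Lam S lam)) := by
  obtain ⟨C0, K, hK, hcell⟩ := cell_bound lam η h0 h1 h2
  refine ⟨C0, 4 * K, by linarith, ?_⟩
  intro Ct θ D1 N0 hC W hW
  obtain ⟨δ0, T0, hδ0, hδ1, hc⟩ := hcell hC W hW
  refine ⟨δ0, T0, hδ0, hδ1, ?_⟩
  intro S hS hT δ hδ hδδ j hj
  have hTL := E5_TL hS lam
  set X : ℝ := S.T * Lam S lam with hX
  set r : ℝ := 2 ^ j with hr
  have hr1 : 1 ≤ r := one_le_pow₀ (by norm_num)
  have hr0 : 0 < r := by linarith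
  have hfl : ((⌊2 * W / r⌋₊ : ℕ) : ℝ) ≤ 2 * W / r := Nat.floor_le (by positivity)
  refine E5_cover hS δ lam (EE S lam η) (range (⌊2 * W / r⌋₊ + 1))
    (fun i : ℕ => cellS r (-W + (i + 1 / 2) * r)) _ ?_ (a := K * r * X) (by positivity)
    (n := 2 * W / r + 1) ?_ ?_ ?_
  · intro z hz
    obtain ⟨hz1, hz2, hz3⟩ := hz
    rw [abs_le] at hz3
    rw [Set.mem_iUnion₂]
    have hy0 : 0 ≤ (z.im + W) / r := div_nonneg (by linarith) hr0.le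
    refine ⟨⌊(z.im + W) / r⌋₊, ?_, ?_⟩
    · rw [Finset.mem_range, Nat.lt_succ_iff]
      refine Nat.floor_le_floor ?_
      exact div_le_div_of_nonneg_right (by linarith) hr0.le
    · have h3 := Nat.floor_le hy0
      have h4 := Nat.lt_floor_add_one ((z.im + W) / r)
      rw [le_div_iff₀ hr0] at h3
      rw [div_lt_iff₀ hr0] at h4
      refine ⟨hz1, ?_, ?_⟩
      · rw [pow_succ] at hz2
        rw [hr]
        linarith
      · rw [abs_le]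
        constructor <;> linarith
  · rw [Finset.card_range]
    push_cast
    linarith
  · have e1 : (2 * W / r + 1) * (K * r * X) = K * X * (2 * W + r) := by
      field_simp
    rw [e1]
    have e2 : K * X * (2 * W + r) ≤ K * X * (4 * W) :=
      mul_le_mul_of_nonneg_left (by linarith) (by positivity)
    linarith
  · intro i hi
    have hi' : (i : ℝ) ≤ 2 * W / r := by
      have h3 : (i : ℝ) ≤ (⌊2 * W / r⌋₊ : ℕ) := by
        exact_mod_cast Nat.lt_succ_iff.1 (Finset.mem_range.1 hi)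
      exact h3.trans hfl
    rw [le_div_iff₀ hr0] at hi'
    have hi0 : 0 ≤ (i : ℝ) * r := by positivity
    refine hc hS hT δ hδ hδδ r (-W + (i + 1 / 2) * r) hr1 hj ?_
    rw [abs_le]
    constructor <;> linarith

theorem area_bound (lam η : ℝ) (h0 : 0 < lam) (h1 : 0 < η) (h2 : η ≤ 1) : ∃ C0 K : ℝ, 1 ≤ K ∧
    ∀ {Ct θ D1 : ℝ} {N0 : ℕ}, C0 ≤ Ct → ∀ W : ℝ, 10 ≤ W → ∃ δ0 T0 : ℝ, 0 < δ0 ∧ δ0 ≤ 1 ∧
    ∀ {S : BS}, TG S Ct θ D1 N0 → T0 ≤ S.T → ∀ δ : ℝ, 0 ≤ δ → δ ≤ δ0 →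
    (∀ X : ℝ, 1 ≤ X → X ≤ W →
    ∫⁻ t in EE S lam η, ∫⁻ z in {z : ℂ | -(6 / 5) ≤ z.re ∧ z.re ≤ X ∧ |z.im| ≤ W},
        ENNReal.ofReal (|Real.log ‖Gz S δ t z‖| * uu S lam t) ≤
      ENNReal.ofReal (K * (1 + Real.log X) * W * (S.T * Lam S lam))) ∧
    (∀ B : ℝ, 1 ≤ B → 8 * B ≤ W →
    ∫⁻ t in EE S lam η, ∫⁻ z in {z : ℂ | 2 * B ≤ z.re ∧ z.re ≤ 3 * B ∧ |z.im| ≤ W},
        ENNReal.ofReal (|Real.log ‖Gz S δ t z‖| * uu S lam t) ≤
      ENNReal.ofReal (K * W * (S.T * Lam S lam))) := by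
  obtain ⟨C0, K, hK, hstrip⟩ := strip_bound lam η h0 h1 h2
  refine ⟨C0, 3 * K, by linarith, ?_⟩
  intro Ct θ D1 N0 hC W hW
  obtain ⟨δ0, T0, hδ0, hδ1, hc⟩ := hstrip hC W (by linarith)
  refine ⟨δ0, T0, hδ0, hδ1, ?_⟩
  intro S hS hT δ hδ hδδ
  have hTL := E5_TL hS lam
  set Y : ℝ := S.T * Lam S lam with hY
  have hKWY : 0 ≤ K * W * Y := by positivity
  constructor
  · intro X hX1 hXW
    have hXv : (1 : ℝ) ≤ X + 11 / 5 := by linarith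
    obtain ⟨hJ1, hJ2⟩ := E5_dy hXv
    set J : ℕ := Nat.log 2 ⌊X + 11 / 5⌋₊ with hJ
    have hlogX : 0 ≤ Real.log X := Real.log_nonneg hX1
    have hJle : (J : ℝ) ≤ 2 + 2 * Real.log X := by
      have h3 : (2 : ℝ) ^ J ≤ 4 * X := hJ1.trans (by linarith)
      have h4 : Real.log ((2 : ℝ) ^ J) ≤ Real.log (4 * X) := Real.log_le_log (by positivity) h3
      have h5 : Real.log 4 = 2 * Real.log 2 := by
        rw [show (4 : ℝ) = 2 ^ 2 by norm_num, Real.log_pow]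
        norm_num
      rw [Real.log_pow, Real.log_mul (by norm_num) (by linarith), h5] at h4
      have h6 : 1 / 2 ≤ Real.log 2 := by
        have := Real.log_two_gt_d9
        linarith
      have h7 : ((J : ℝ) - 2) * Real.log 2 ≤ Real.log X := by linarith
      by_contra hcon
      rw [not_le] at hcon
      have h8 : 2 * Real.log X < (J : ℝ) - 2 := by linarith
      have h9 : (2 * Real.log X) * Real.log 2 < ((J : ℝ) - 2) * Real.log 2 :=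
        mul_lt_mul_of_pos_right h8 (by linarith)
      nlinarith
    refine E5_cover hS δ lam (EE S lam η) (range (J + 1))
      (fun j : ℕ => {z : ℂ | 2 ^ j ≤ z.re + 11 / 5 ∧ z.re + 11 / 5 ≤ 2 ^ (j + 1) ∧
        |z.im| ≤ W}) _ ?_ (a := K * W * Y) hKWY (n := 3 + 2 * Real.log X) ?_ ?_ ?_
    · intro z hz
      obtain ⟨hz1, hz2, hz3⟩ := hz
      have hv : (1 : ℝ) ≤ z.re + 11 / 5 := by linarith
      obtain ⟨h3, h4⟩ := E5_dy hv
      rw [Set.mem_iUnion₂]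
      refine ⟨Nat.log 2 ⌊z.re + 11 / 5⌋₊, ?_, h3, h4, hz3⟩
      rw [Finset.mem_range, Nat.lt_succ_iff]
      exact Nat.log_mono_right (Nat.floor_le_floor (by linarith))
    · rw [Finset.card_range]
      push_cast
      linarith
    · have e2 : (3 + 2 * Real.log X) * (K * W * Y) ≤ (3 * (1 + Real.log X)) * (K * W * Y) :=
        mul_le_mul_of_nonneg_right (by linarith) hKWY
      linarith
    · intro j hj
      refine hc hS hT δ hδ hδδ j ?_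
      have hj' : j ≤ J := Nat.lt_succ_iff.1 (Finset.mem_range.1 hj)
      have h3 : (2 : ℝ) ^ j ≤ 2 ^ J := pow_le_pow_right₀ (by norm_num) hj'
      linarith
  · intro B hB1 hBW
    have hv0 : (1 : ℝ) ≤ 2 * B + 11 / 5 := by linarith
    obtain ⟨hJ1, hJ2⟩ := E5_dy hv0
    set J : ℕ := Nat.log 2 ⌊2 * B + 11 / 5⌋₊ with hJ
    refine E5_cover hS δ lam (EE S lam η) ({J, J + 1} : Finset ℕ)
      (fun j : ℕ => {z : ℂ | 2 ^ j ≤ z.re + 11 / 5 ∧ z.re + 11 / 5 ≤ 2 ^ (j + 1) ∧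
        |z.im| ≤ W}) _ ?_ (a := K * W * Y) hKWY (n := 2) ?_ ?_ ?_
    · intro z hz
      obtain ⟨hz1, hz2, hz3⟩ := hz
      rw [Set.mem_iUnion₂]
      have e1 : (2 : ℝ) ^ (J + 1 + 1) = 2 * 2 ^ (J + 1) := by ring
      rcases le_total (z.re + 11 / 5) ((2 : ℝ) ^ (J + 1)) with h3 | h3
      · exact ⟨J, by simp, by linarith, h3, hz3⟩
      · refine ⟨J + 1, by simp, h3, ?_, hz3⟩
        rw [e1]
        linarith
    · have h3 : ({J, J + 1} : Finset ℕ).card ≤ 2 := Finset.card_le_two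
      exact_mod_cast h3
    · have : 2 * (K * W * Y) ≤ 3 * (K * W * Y) :=
        mul_le_mul_of_nonneg_right (by norm_num) hKWY
      linarith
    · intro j hj
      refine hc hS hT δ hδ hδδ j ?_
      have hj' : j ≤ J + 1 := by
        rw [Finset.mem_insert, Finset.mem_singleton] at hj
        omega
      have h3 : (2 : ℝ) ^ j ≤ 2 ^ (J + 1) := pow_le_pow_right₀ (by norm_num) hj'
      have e1 : (2 : ℝ) ^ (J + 1) = 2 * 2 ^ J := by ring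
      linarith

end Pool.Agent.LB
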