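import Pool.Agent.Lib.MP_69b2e4_nt.LB.Defs

/-! TASK G1. The digamma function. `Complex.digamma = logDeriv Complex.Gamma`.
`digamma_seq`: for `Re z > 0`: `GammaSeq z n = n^z n!/∏_{k≤n}(z+k)` satisfies `‖GammaSeq z n‖ ≤ GammaSeq (Re z) n` (real). Bounded on a small disc around `z`: `x ↦ Real.GammaSeq x n = n^x n!/∏(x+k)` is log-convex in `x > 0` (`x log n` is linear, `-log(x+k)` is convex), so on `[a,b]` it is at most the maximum of its values at `a` and `b`, which converge.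
 Pointwise convergence `GammaSeq_tendsto_Gamma` and dominated convergence in Cauchy's formula for the derivative on a small circle give `GammaSeq' → Gamma'` at `z`; `Gamma z ≠ 0`, so the logarithmic derivatives converge: `log n - ∑_{k≤n} 1/(z+k) → digamma z`. (Any other proof of the series for digamma is welcome, e.g. from Weierstrass' product, or from `differentiableOn_tsum`.)
`digamma_log`: for `Re z > 0`, `Im z ≥ 1/4`: `1/(z+k) - ∫_k^{k+1} du/(z+u)` has norm at most `1/‖z+k‖² ≤ 1/(k² + 1/16)` (`‖z+u‖` is increasing in `u`), and `∫_0^{n+1} du/(z+u) = log(z+n+1) - log z`, `log(z+n+1) - log n → 0`; so `‖digamma z - log z‖ ≤ ∑ 1/(k²+1/16) ≤ 18`.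
 For `-20 ≤ Re z ≤ 0` use `digamma (z+1) = digamma z + z⁻¹` 21 times (`‖(z+k)⁻¹‖ ≤ 4`) and `‖log(z+21) - log z‖ ≤ ∫_0^{21} du/‖z+u‖ ≤ 84`. -/

set_option autoImplicit false

namespace Pool.Agent.LB

open Complex MeasureTheory Finset Pool.Agent.GH Pool.Agent.UH Pool.Agent.UV
open scoped Real ComplexConjugate

/-- logarithm of `k + 1` -/
private noncomputable def G1_l (k : ℕ) : ℝ := Real.log ((k : ℝ) + 1)

private noncomputable def G1_g (k : ℕ) (z : ℂ) : ℂ :=
  z * ((G1_l (k + 1) - G1_l k : ℝ) : ℂ) + (G1_l (k + 1) : ℂ) - Complex.log (z + ((k : ℂ) + 2))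

private noncomputable def G1_d (k : ℕ) (z : ℂ) : ℂ :=
  ((G1_l (k + 1) - G1_l k : ℝ) : ℂ) - 1 / (z + ((k : ℂ) + 2))

private lemma G1_l_le (k : ℕ) : G1_l (k + 1) - G1_l k ≤ 1 / ((k : ℝ) + 1) := by
  have h1 : (0 : ℝ) < (k : ℝ) + 1 := by positivity
  have h2 : (0 : ℝ) < (k : ℝ) + 2 := by positivity
  have h3 : G1_l (k + 1) - G1_l k = Real.log (((k : ℝ) + 2) / ((k : ℝ) + 1)) := by
    rw [Real.log_div h2.ne' h1.ne', G1_l, G1_l]
    push_cast
    rw [show (k : ℝ) + 1 + 1 = (k : ℝ) + 2 by ring]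
  rw [h3]
  refine (Real.log_le_sub_one_of_pos (by positivity)).trans (le_of_eq ?_)
  field_simp
  ring

private lemma G1_l_ge (k : ℕ) : 1 / ((k : ℝ) + 2) ≤ G1_l (k + 1) - G1_l k := by
  have h1 : (0 : ℝ) < (k : ℝ) + 1 := by positivity
  have h2 : (0 : ℝ) < (k : ℝ) + 2 := by positivity
  have h3 : G1_l (k + 1) - G1_l k = -Real.log (((k : ℝ) + 1) / ((k : ℝ) + 2)) := by
    rw [Real.log_div h1.ne' h2.ne', G1_l, G1_l]
    push_cast
    rw [show (k : ℝ) + 1 + 1 = (k : ℝ) + 2 by ring]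
    ring
  rw [h3]
  have h4 := Real.log_le_sub_one_of_pos (show 0 < ((k : ℝ) + 1) / ((k : ℝ) + 2) by positivity)
  have h5 : ((k : ℝ) + 1) / ((k : ℝ) + 2) - 1 = -(1 / ((k : ℝ) + 2)) := by
    field_simp
    ring
  rw [h5] at h4
  linarith

private lemma G1_norm_ge {z : ℂ} (hz : 0 ≤ z.re) {x : ℝ} : x ≤ ‖z + (x : ℂ)‖ := by
  refine le_trans ?_ (Complex.re_le_norm _)
  rw [Complex.add_re, Complex.ofReal_re]
  linarith

private lemma G1_slit {z : ℂ} (hz : 0 < z.re) (k : ℕ) : z + ((k : ℂ) + 2) ∈ Complex.slitPlane := by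
  left
  have h1 : (z + ((k : ℂ) + 2)).re = z.re + ((k : ℝ) + 2) := by simp
  rw [h1]
  positivity

private lemma G1_hasDeriv {z : ℂ} (hz : 0 < z.re) (k : ℕ) : HasDerivAt (G1_g k) (G1_d k z) z := by
  unfold G1_g G1_d
  have h1 : HasDerivAt (fun w : ℂ => w + ((k : ℂ) + 2)) 1 z := (hasDerivAt_id z).add_const _
  have h2 := h1.clog (G1_slit hz k)
  have h3 : HasDerivAt (fun w : ℂ => w * ((G1_l (k + 1) - G1_l k : ℝ) : ℂ))
      (1 * ((G1_l (k + 1) - G1_l k : ℝ) : ℂ)) z := (hasDerivAt_id z).mul_const _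
  rw [one_mul] at h3
  exact (h3.add_const (G1_l (k + 1) : ℂ)).sub h2

private lemma G1_d_le {z : ℂ} (hz : 0 < z.re) {R : ℝ} (hR : ‖z‖ ≤ R) (k : ℕ) :
    ‖G1_d k z‖ ≤ (1 + R) * (1 / ((k : ℝ) + 1) ^ 2) := by
  have h1 : (0 : ℝ) < (k : ℝ) + 1 := by positivity
  have h2 : (0 : ℝ) < (k : ℝ) + 2 := by positivity
  have hR0 : 0 ≤ R := (norm_nonneg z).trans hR
  have h3 : (((k : ℝ) + 2 : ℝ) : ℂ) = (k : ℂ) + 2 := by push_cast; ring
  have h4 : (k : ℝ) + 2 ≤ ‖z + ((k : ℂ) + 2)‖ := by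
    rw [← h3]
    exact G1_norm_ge hz.le
  have h5 : z + ((k : ℂ) + 2) ≠ 0 := by
    intro h
    rw [h, norm_zero] at h4
    linarith
  have h6 : (k : ℂ) + 2 ≠ 0 := by
    rw [← h3]
    exact Complex.ofReal_ne_zero.2 h2.ne'
  have h7 : G1_d k z = ((G1_l (k + 1) - G1_l k - 1 / ((k : ℝ) + 2) : ℝ) : ℂ) +
      z / (((k : ℂ) + 2) * (z + ((k : ℂ) + 2))) := by
    unfold G1_d
    push_cast
    field_simp
    ring
  rw [h7]
  refine (norm_add_le _ _).trans ?_
  rw [Complex.norm_real, Real.norm_eq_abs, abs_of_nonneg (by linarith [G1_l_ge k]), norm_div, norm_mul,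
    ← h3, Complex.norm_real, Real.norm_eq_abs, abs_of_pos h2, h3]
  have h8 : G1_l (k + 1) - G1_l k - 1 / ((k : ℝ) + 2) ≤ 1 / ((k : ℝ) + 1) ^ 2 := by
    have h9 := G1_l_le k
    have h10 : 1 / ((k : ℝ) + 1) - 1 / ((k : ℝ) + 2) ≤ 1 / ((k : ℝ) + 1) ^ 2 := by
      rw [div_sub_div _ _ h1.ne' h2.ne', div_le_div_iff₀ (by positivity) (by positivity)]
      nlinarith
    linarith
  have h11 : ‖z‖ / (((k : ℝ) + 2) * ‖z + ((k : ℂ) + 2)‖) ≤ R * (1 / ((k : ℝ) + 1) ^ 2) := by
    rw [mul_one_div]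
    refine div_le_div₀ hR0 hR (by positivity) ?_
    nlinarith
  linarith

private lemma G1_summable_u (R : ℝ) : Summable fun k : ℕ => (1 + R) * (1 / ((k : ℝ) + 1) ^ 2) := by
  refine Summable.mul_left _ ?_
  have h1 : Summable fun k : ℕ => 1 / ((k : ℝ)) ^ 2 := Real.summable_one_div_nat_pow.2 (by norm_num)
  have h2 := (summable_nat_add_iff 1).2 h1
  refine h2.congr fun k => ?_
  push_cast
  rfl

private lemma G1_summable_one : Summable fun k : ℕ => G1_g k 1 := by
  refine Summable.of_norm_bounded (G1_summable_u 1) fun k => ?_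
  have h1 : (0 : ℝ) < (k : ℝ) + 1 := by positivity
  have h2 : G1_g k 1 = ((G1_l (k + 1) - G1_l k - (G1_l (k + 1 + 1) - G1_l (k + 1)) : ℝ) : ℂ) := by
    unfold G1_g
    have h3 : Complex.log (1 + ((k : ℂ) + 2)) = ((G1_l (k + 1 + 1) : ℝ) : ℂ) := by
      rw [G1_l, Complex.ofReal_log (by positivity)]
      congr 1
      push_cast
      ring
    rw [h3]
    push_cast
    ring
  rw [h2, Complex.norm_real, Real.norm_eq_abs, abs_of_nonneg]
  · have h4 := G1_l_le k
    have h5 := G1_l_ge (k + 1)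
    push_cast at h5
    have h6 : 1 / ((k : ℝ) + 1) - 1 / ((k : ℝ) + 1 + 2) ≤ (1 + 1) * (1 / ((k : ℝ) + 1) ^ 2) := by
      rw [div_sub_div _ _ h1.ne' (by positivity), mul_one_div, div_le_div_iff₀ (by positivity) (by positivity)]
      nlinarith
    linarith
  · have h4 := G1_l_ge k
    have h5 := G1_l_le (k + 1)
    push_cast at h5
    have h6 : (k : ℝ) + 1 + 1 = (k : ℝ) + 2 := by ring
    rw [h6] at h5
    linarith

private lemma G1_seq {z : ℂ} (hz : 0 < z.re) (N : ℕ) :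
    GammaSeq z (N + 1) = Complex.exp (∑ k ∈ range N, G1_g k z) / (z * (z + 1)) := by
  induction N with
  | zero =>
    simp [GammaSeq, Finset.prod_range_succ]
  | succ N ih =>
    have h1 : (((N : ℝ) + 1 : ℝ) : ℂ) = (N : ℂ) + 1 := by push_cast; ring
    have h2 : (((N : ℝ) + 2 : ℝ) : ℂ) = (N : ℂ) + 2 := by push_cast; ring
    have p1 : (0 : ℝ) < (N : ℝ) + 1 := by positivity
    have p2 : (0 : ℝ) < (N : ℝ) + 2 := by positivity
    have n1 : (N : ℂ) + 1 ≠ 0 := by rw [← h1]; exact Complex.ofReal_ne_zero.2 p1.ne'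
    have n2 : (N : ℂ) + 2 ≠ 0 := by rw [← h2]; exact Complex.ofReal_ne_zero.2 p2.ne'
    have n3 : z + ((N : ℂ) + 2) ≠ 0 := Complex.slitPlane_ne_zero (G1_slit hz N)
    have hl1 : ((G1_l N : ℝ) : ℂ) = Complex.log ((N : ℂ) + 1) := by
      rw [G1_l, Complex.ofReal_log p1.le, h1]
    have hl2 : ((G1_l (N + 1) : ℝ) : ℂ) = Complex.log ((N : ℂ) + 2) := by
      rw [G1_l, Complex.ofReal_log (by positivity)]
      congr 1
      push_cast
      ring
    have hg : Complex.exp (G1_g N z) =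
        ((N : ℂ) + 2) ^ z / ((N : ℂ) + 1) ^ z * (((N : ℂ) + 2) / (z + ((N : ℂ) + 2))) := by
      unfold G1_g
      rw [Complex.exp_sub, Complex.exp_add, Complex.exp_log n3]
      push_cast
      rw [hl1, hl2, mul_sub, Complex.exp_sub, Complex.exp_log n2, Complex.cpow_def_of_ne_zero n1,
        Complex.cpow_def_of_ne_zero n2, mul_comm z, mul_comm z]
      ring
    rw [Finset.sum_range_succ, Complex.exp_add, mul_div_right_comm, ← ih, hg]
    have h3 : ((N : ℂ) + 1) ^ z ≠ 0 := by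
      rw [Complex.cpow_def_of_ne_zero n1]
      exact Complex.exp_ne_zero _
    unfold GammaSeq
    rw [Finset.prod_range_succ _ (N + 1 + 1), Nat.factorial_succ (N + 1)]
    push_cast
    rw [show (N : ℂ) + 1 + 1 = (N : ℂ) + 2 by ring]
    have h4 : ∏ x ∈ range (N + 1 + 1), (z + (x : ℂ)) ≠ 0 := by
      refine Finset.prod_ne_zero_iff.2 fun k _ => ?_
      intro h
      have h5 := congrArg Complex.re h
      rw [Complex.add_re, Complex.natCast_re, Complex.zero_re] at h5
      have h6 : (0 : ℝ) ≤ (k : ℝ) := Nat.cast_nonneg k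
      linarith
    field_simp

private lemma G1_set_open (R : ℝ) : IsOpen ({w : ℂ | 0 < w.re} ∩ Metric.ball 0 R) :=
  (isOpen_lt continuous_const Complex.continuous_re).inter Metric.isOpen_ball

private lemma G1_set_conn (R : ℝ) : IsPreconnected ({w : ℂ | 0 < w.re} ∩ Metric.ball 0 R) :=
  ((convex_halfSpace_re_gt 0).inter (convex_ball (0 : ℂ) R)).isPreconnected

private lemma G1_summ {z : ℂ} (hz : 0 < z.re) : Summable fun k => G1_g k z := by
  refine summable_of_summable_hasDerivAt_of_isPreconnected (G1_summable_u (‖z‖ + 2)) (G1_set_open (‖z‖ + 2))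
    (G1_set_conn (‖z‖ + 2)) (fun k y hy => G1_hasDeriv hy.1 k) (fun k y hy => G1_d_le hy.1 ?_ k)
    (y₀ := 1) ?_ G1_summable_one ?_
  · exact (mem_ball_zero_iff.1 hy.2).le
  · refine ⟨by simp, ?_⟩
    rw [mem_ball_zero_iff, norm_one]
    linarith [norm_nonneg z]
  · refine ⟨hz, ?_⟩
    rw [mem_ball_zero_iff]
    linarith

private lemma G1_hasDeriv_tsum {z : ℂ} (hz : 0 < z.re) :
    HasDerivAt (fun w => ∑' k, G1_g k w) (∑' k, G1_d k z) z := by
  refine hasDerivAt_tsum_of_isPreconnected (G1_summable_u (‖z‖ + 2)) (G1_set_open (‖z‖ + 2))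
    (G1_set_conn (‖z‖ + 2)) (fun k y hy => G1_hasDeriv hy.1 k) (fun k y hy => G1_d_le hy.1 ?_ k)
    (y₀ := 1) ?_ G1_summable_one ?_
  · exact (mem_ball_zero_iff.1 hy.2).le
  · refine ⟨by simp, ?_⟩
    rw [mem_ball_zero_iff, norm_one]
    linarith [norm_nonneg z]
  · refine ⟨hz, ?_⟩
    rw [mem_ball_zero_iff]
    linarith

private lemma G1_Gamma {z : ℂ} (hz : 0 < z.re) :
    Complex.Gamma z = Complex.exp (∑' k, G1_g k z) / (z * (z + 1)) := by
  have h1 : Filter.Tendsto (fun N : ℕ => GammaSeq z (N + 1)) Filter.atTop (nhds (Complex.Gamma z)) :=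
    (Filter.tendsto_add_atTop_iff_nat 1).2 (GammaSeq_tendsto_Gamma z)
  have h2 : Filter.Tendsto (fun N : ℕ => Complex.exp (∑ k ∈ range N, G1_g k z) / (z * (z + 1))) Filter.atTop
      (nhds (Complex.exp (∑' k, G1_g k z) / (z * (z + 1)))) :=
    ((Complex.continuous_exp.tendsto _).comp (G1_summ hz).hasSum.tendsto_sum_nat).div_const _
  refine tendsto_nhds_unique h1 (h2.congr fun N => (G1_seq hz N).symm)

private lemma G1_digamma {z : ℂ} (hz : 0 < z.re) :
    Complex.digamma z = (∑' k, G1_d k z) - 1 / z - 1 / (z + 1) := by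
  have hz0 : z ≠ 0 := by
    rintro rfl
    simp at hz
  have hz1 : z + 1 ≠ 0 := by
    intro h
    have h5 := congrArg Complex.re h
    rw [Complex.add_re, Complex.one_re, Complex.zero_re] at h5
    linarith
  have h1 : Complex.Gamma =ᶠ[nhds z] fun w => Complex.exp (∑' k, G1_g k w) / (w * (w + 1)) := by
    have h2 : {w : ℂ | 0 < w.re} ∈ nhds z := (isOpen_lt continuous_const Complex.continuous_re).mem_nhds hz
    filter_upwards [h2] with w hw
    exact G1_Gamma hw
  have h3 : HasDerivAt (fun w : ℂ => w * (w + 1)) (1 * (z + 1) + z * 1) z :=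
    (hasDerivAt_id z).mul ((hasDerivAt_id z).add_const 1)
  have h4 := (G1_hasDeriv_tsum hz).cexp.div h3 (mul_ne_zero hz0 hz1)
  have h5 := h4.congr_of_eventuallyEq h1
  rw [Complex.digamma_def, logDeriv_apply, h5.deriv, G1_Gamma hz]
  have h6 := Complex.exp_ne_zero (∑' k, G1_g k z)
  field_simp
  ring

theorem digamma_seq {z : ℂ} (hz : 0 < z.re) :
    Filter.Tendsto (fun n : ℕ => (Real.log n : ℂ) - ∑ k ∈ range (n + 1), 1 / (z + k)) Filter.atTop
      (nhds (Complex.digamma z)) := by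
  refine (Filter.tendsto_add_atTop_iff_nat 1).1 ?_
  have hs : Summable fun k => G1_d k z :=
    Summable.of_norm_bounded (G1_summable_u ‖z‖) fun k => G1_d_le hz le_rfl k
  have h1 := (hs.hasSum.tendsto_sum_nat.sub_const (1 / z)).sub_const (1 / (z + 1))
  rw [← G1_digamma hz] at h1
  refine h1.congr fun N => ?_
  have h2 : ∀ N : ℕ, ∑ k ∈ range N, G1_d k z = ((G1_l N : ℝ) : ℂ) - ∑ k ∈ range N, 1 / (z + ((k : ℂ) + 2)) := by
    intro N
    induction N with
    | zero => simp [G1_l]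
    | succ N ih =>
      rw [Finset.sum_range_succ, Finset.sum_range_succ, ih]
      unfold G1_d
      push_cast
      ring
  rw [h2 N, Finset.sum_range_succ', Finset.sum_range_succ']
  have h3 : (((N + 1 : ℕ) : ℝ)) = (N : ℝ) + 1 := by push_cast; ring
  rw [h3, ← G1_l]
  have h4 : ∑ k ∈ range N, 1 / (z + ((k + 1 + 1 : ℕ) : ℂ)) = ∑ k ∈ range N, 1 / (z + ((k : ℂ) + 2)) := by
    refine Finset.sum_congr rfl fun k _ => ?_
    push_cast
    rw [show (k : ℂ) + 1 + 1 = (k : ℂ) + 2 by ring]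
  rw [h4]
  push_cast
  simp only [add_zero]
  ring

private lemma G1_slit' {z : ℂ} (hz : z.im ≠ 0) {s : ℝ} : z + (s : ℂ) ∈ Complex.slitPlane := by
  right
  rw [Complex.add_im, Complex.ofReal_im, add_zero]
  exact hz

private lemma G1_hd {z : ℂ} (hz : z.im ≠ 0) (s : ℝ) :
    HasDerivAt (fun s : ℝ => Complex.log (z + (s : ℂ))) (1 / (z + (s : ℂ))) s := by
  have h1 : HasDerivAt (fun s : ℝ => z + (s : ℂ)) 1 s := by
    simpa using (Complex.ofRealCLM.hasDerivAt (x := s)).const_add z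
  exact h1.clog_real (G1_slit' hz)

private lemma G1_step {z : ℂ} (hz : 0 ≤ z.re) (hi : 0 < z.im) :
    ‖Complex.log (z + 1) - Complex.log z - 1 / z‖ ≤ 1 / ‖z‖ ^ 2 := by
  have hz0 : z ≠ 0 := by
    rintro rfl
    simp at hi
  have hn : 0 < ‖z‖ := norm_pos_iff.2 hz0
  have h1 : ∀ s ∈ Set.Icc (0 : ℝ) 1, HasDerivWithinAt (fun s : ℝ => Complex.log (z + (s : ℂ)) - (s : ℂ) * (1 / z))
      (1 / (z + (s : ℂ)) - 1 * (1 / z)) (Set.Icc (0 : ℝ) 1) s := by
    intro s _
    refine HasDerivAt.hasDerivWithinAt ?_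
    refine (G1_hd hi.ne' s).sub ?_
    exact (Complex.ofRealCLM.hasDerivAt (x := s)).mul_const (1 / z)
  have h2 := norm_image_sub_le_of_norm_deriv_le_segment_01' (C := 1 / ‖z‖ ^ 2) h1 ?_
  · have h3 : Complex.log (z + 1) - Complex.log z - 1 / z =
        (Complex.log (z + ((1 : ℝ) : ℂ)) - ((1 : ℝ) : ℂ) * (1 / z)) -
        (Complex.log (z + ((0 : ℝ) : ℂ)) - ((0 : ℝ) : ℂ) * (1 / z)) := by
      push_cast
      rw [add_zero]
      ring
    rw [h3]
    exact h2
  · intro s hs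
    have h4 : ‖z‖ ≤ ‖z + (s : ℂ)‖ := by
      rw [Complex.norm_def, Complex.norm_def]
      refine Real.sqrt_le_sqrt ?_
      rw [Complex.normSq_apply, Complex.normSq_apply, Complex.add_re, Complex.add_im, Complex.ofReal_re,
        Complex.ofReal_im, add_zero]
      nlinarith [hs.1]
    have h5 : z + (s : ℂ) ≠ 0 := Complex.slitPlane_ne_zero (G1_slit' hi.ne')
    have h6 : 1 / (z + (s : ℂ)) - 1 * (1 / z) = -(s : ℂ) / ((z + (s : ℂ)) * z) := by
      field_simp
      ring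
    rw [h6, norm_div, norm_neg, norm_mul, Complex.norm_real, Real.norm_eq_abs, abs_of_nonneg hs.1]
    refine div_le_div₀ zero_le_one hs.2.le (by positivity) ?_
    rw [sq]
    exact mul_le_mul_of_nonneg_right h4 hn.le

private lemma G1_step2 {z : ℂ} (hi : 1 / 4 ≤ z.im) : ‖Complex.log (z + 1) - Complex.log z‖ ≤ 4 := by
  have hi' : z.im ≠ 0 := by
    intro h
    rw [h] at hi
    norm_num at hi
  have h1 : ∀ s ∈ Set.Icc (0 : ℝ) 1, HasDerivWithinAt (fun s : ℝ => Complex.log (z + (s : ℂ)))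
      (1 / (z + (s : ℂ))) (Set.Icc (0 : ℝ) 1) s := fun s _ => (G1_hd hi' s).hasDerivWithinAt
  have h2 := norm_image_sub_le_of_norm_deriv_le_segment_01' (C := 4) h1 ?_
  · push_cast at h2
    rwa [add_zero] at h2
  · intro s _
    have h3 : (1 / 4 : ℝ) ≤ ‖z + (s : ℂ)‖ := by
      refine le_trans ?_ (Complex.abs_im_le_norm _)
      rw [Complex.add_im, Complex.ofReal_im, add_zero]
      exact hi.trans (le_abs_self _)
    rw [norm_div, norm_one, div_le_iff₀ (by linarith)]
    linarith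

private lemma G1_pos : ∃ C : ℝ, 0 ≤ C ∧ ∀ z : ℂ, 0 < z.re → 1 / 4 ≤ z.im →
    ‖Complex.digamma z - Complex.log z‖ ≤ C := by
  have hsum : Summable fun k : ℕ => 32 * (1 / ((k : ℝ) + 1) ^ 2) := by
    have h := G1_summable_u 31
    refine h.congr fun k => ?_
    norm_num
  refine ⟨∑' k : ℕ, 32 * (1 / ((k : ℝ) + 1) ^ 2), tsum_nonneg fun k => by positivity, fun z hz hi => ?_⟩
  have hi0 : 0 < z.im := by linarith
  have hz0 : z ≠ 0 := by
    rintro rfl
    simp at hz
  have h1 := digamma_seq hz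
  have h2 : Filter.Tendsto (fun n : ℕ => Complex.log (1 + (z + 1) / (n : ℂ))) Filter.atTop (nhds 0) := by
    have h3 : Filter.Tendsto (fun n : ℕ => 1 + (z + 1) / (n : ℂ)) Filter.atTop (nhds (1 + 0)) := by
      refine Filter.Tendsto.const_add _ ?_
      exact tendsto_const_div_atTop_nhds_zero_nat (z + 1)
    rw [add_zero] at h3
    have h4 := ((continuousAt_clog Complex.one_mem_slitPlane).tendsto).comp h3
    rwa [Complex.log_one] at h4
  have h5 := (h1.add h2).sub_const (Complex.log z)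
  rw [add_zero] at h5
  refine le_of_tendsto h5.norm ?_
  filter_upwards [Filter.eventually_ge_atTop 1] with n hn
  have hn0 : (0 : ℝ) < (n : ℝ) := by exact_mod_cast hn
  have hnc : (n : ℂ) ≠ 0 := by exact_mod_cast hn0.ne'
  have h6 : Complex.log (1 + (z + 1) / (n : ℂ)) = Complex.log (z + ((n + 1 : ℕ) : ℂ)) - (Real.log n : ℂ) := by
    have h7 : z + ((n + 1 : ℕ) : ℂ) = ((n : ℝ) : ℂ) * (1 + (z + 1) / (n : ℂ)) := by
      push_cast
      field_simp
      ring
    have h8 : 1 + (z + 1) / (n : ℂ) ≠ 0 := by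
      intro h
      rw [h, mul_zero] at h7
      have h9 := congrArg Complex.im h7
      rw [Complex.add_im, Complex.natCast_im, Complex.zero_im] at h9
      linarith
    rw [h7, Complex.log_ofReal_mul hn0 h8]
    ring
  have h10 : ∀ m : ℕ, Complex.log (z + (m : ℂ)) - Complex.log z =
      ∑ k ∈ range m, (Complex.log (z + (k : ℂ) + 1) - Complex.log (z + (k : ℂ))) := by
    intro m
    induction m with
    | zero => simp
    | succ m ih =>
      rw [Finset.sum_range_succ, ← ih]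
      push_cast
      rw [← add_assoc]
      ring
  have h11 : (Real.log n : ℂ) - ∑ k ∈ range (n + 1), 1 / (z + k) + Complex.log (1 + (z + 1) / (n : ℂ)) -
      Complex.log z = ∑ k ∈ range (n + 1), (Complex.log (z + (k : ℂ) + 1) - Complex.log (z + (k : ℂ)) -
        1 / (z + (k : ℂ))) := by
    rw [h6, Finset.sum_sub_distrib, ← h10 (n + 1)]
    ring
  rw [h11]
  refine (norm_sum_le _ _).trans ?_
  refine le_trans (Finset.sum_le_sum fun k _ => ?_) (hsum.sum_le_tsum _ fun k _ => by positivity)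
  have h12 : 0 ≤ (z + (k : ℂ)).re := by
    rw [Complex.add_re, Complex.natCast_re]
    positivity
  have h13 : 0 < (z + (k : ℂ)).im := by
    rw [Complex.add_im, Complex.natCast_im, add_zero]
    exact hi0
  refine (G1_step h12 h13).trans ?_
  rw [mul_one_div]
  have h14 : ((k : ℝ) + 1) ^ 2 ≤ 32 * ‖z + (k : ℂ)‖ ^ 2 := by
    rw [← Complex.normSq_eq_norm_sq, Complex.normSq_apply, Complex.add_re, Complex.add_im, Complex.natCast_re,
      Complex.natCast_im, add_zero]
    have hk : (0 : ℝ) ≤ (k : ℝ) := Nat.cast_nonneg k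
    nlinarith [mul_nonneg hz.le hk, sq_nonneg ((k : ℝ) - 1), sq_nonneg z.re]
  have h15 : 0 < ‖z + (k : ℂ)‖ := by
    rw [norm_pos_iff]
    intro h
    rw [h, Complex.zero_im] at h13
    exact lt_irrefl _ h13
  rw [div_le_div_iff₀ (by positivity) (by positivity), one_mul]
  exact h14

private lemma G1_shift : ∃ C : ℝ, 0 ≤ C ∧ ∀ (j : ℕ) (z : ℂ), -(j : ℝ) < z.re → 1 / 4 ≤ z.im →
    ‖Complex.digamma z - Complex.log z‖ ≤ C + 8 * j := by
  obtain ⟨C, hC, h⟩ := G1_pos
  refine ⟨C, hC, fun j => ?_⟩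
  induction j with
  | zero =>
    intro z hz hi
    have := h z (by simpa using hz) hi
    simpa using this
  | succ j ih =>
    intro z hz hi
    have h1 := ih (z + 1) (by
      rw [Complex.add_re, Complex.one_re]
      push_cast at hz
      linarith) (by
      rw [Complex.add_im, Complex.one_im, add_zero]
      exact hi)
    have hz0 : z ≠ 0 := by
      rintro rfl
      rw [Complex.zero_im] at hi
      norm_num at hi
    have h2 : ∀ m : ℕ, z ≠ -(m : ℂ) := by
      intro m hm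
      rw [hm, Complex.neg_im, Complex.natCast_im, neg_zero] at hi
      norm_num at hi
    have h3 := Complex.digamma_apply_add_one z h2
    have h4 : ‖z⁻¹‖ ≤ 4 := by
      have h5 : (1 / 4 : ℝ) ≤ ‖z‖ := (hi.trans (le_abs_self _)).trans (Complex.abs_im_le_norm z)
      rw [norm_inv, inv_le_comm₀ (by linarith) (by norm_num)]
      linarith
    have h6 : Complex.digamma z - Complex.log z = (Complex.digamma (z + 1) - Complex.log (z + 1)) +
        (Complex.log (z + 1) - Complex.log z) - z⁻¹ := by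
      rw [h3]
      ring
    rw [h6]
    refine (norm_sub_le _ _).trans ?_
    have h7 := norm_add_le (Complex.digamma (z + 1) - Complex.log (z + 1)) (Complex.log (z + 1) - Complex.log z)
    have h8 := G1_step2 hi
    push_cast
    linarith

theorem digamma_log : ∃ C : ℝ, 0 ≤ C ∧ ∀ z : ℂ, -20 ≤ z.re → 1 / 4 ≤ z.im →
    ‖Complex.digamma z - Complex.log z‖ ≤ C := by
  obtain ⟨C, hC, h⟩ := G1_shift
  refine ⟨C + 8 * 21, by positivity, fun z hz hi => ?_⟩
  have h1 := h 21 z (by push_cast; linarith) hi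
  push_cast at h1
  exact h1

end Pool.Agent.LB
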