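import Pool.Agent.Lib.MP_69b2e4_nt.LB.G1
import Pool.Agent.Lib.MP_69b2e4_nt.Mg.G002

/-! TASK G2. `psiR = Gammaℝ'/Gammaℝ` and `ch(s) = Gammaℝ(1-s)/Gammaℝ(s)`. `Gammaℝ s = π^{-s/2} Γ(s/2)`, so for `Im s ≠ 0` it is analytic and nonzero (`Gamma_ne_zero`, `differentiableAt_Gamma`), `psiR s = -(log π)/2 + digamma(s/2)/2`.
`psiR_bound`: `digamma_log` for `z = s/2` (`Im z ≥ 1/2`, `Re z ≥ -10`); `Complex.log(s/2) = log(Im s) + log(i + Re s/Im s) - log 2`-like: `|log ‖s/2‖ - log Im s| ≤ C` as `Im s/2 ≤ ‖s/2‖ ≤ 11 Im s`, `|arg| ≤ π`.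
`ch_line`: `1 - (1/2+it) = conj (1/2+it)`, `Gammaℝ (conj s) = conj (Gammaℝ s)` (`Gamma_conj`).
`psiR_conj`: from `Gammaℝ (conj s) = conj Gammaℝ s` (`deriv` of `conj ∘ f ∘ conj`). `ch_logDeriv`: `logDeriv ch s = -psiR(1-s) - psiR(s)`, `1 - s = conj(1 - conj s)`, `psiR(1-s) = conj(psiR(1 - conj s))`.
`ch_bound`: `g(σ) = log ‖ch(σ+it)‖`, `g(1/2) = 0`, `g'(σ) = Re(logDeriv ch)(σ+it) = -Re psiR(1-conj s) - Re psiR(s)`, within `2C` of `-log t` (`psiR_bound` for both, `|Re| ≤ 20`); mean value theorem.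
`ch_left_right`: consequences for `‖ch‖` (exponentiate; `ch s ≠ 0`). -/

set_option autoImplicit false

namespace Pool.Agent.LB

open Complex MeasureTheory Finset Pool.Agent.GH Pool.Agent.UH Pool.Agent.UV
open scoped Real ComplexConjugate

theorem GR_ne {s : ℂ} (hs : s.im ≠ 0) : Gammaℝ s ≠ 0 := by
  rw [Ne, Gammaℝ_eq_zero_iff]
  rintro ⟨n, h⟩
  apply hs
  rw [h]
  simp

theorem GR_an {s : ℂ} (hs : s.im ≠ 0) : AnalyticAt ℂ Gammaℝ s := by
  have h1 : AnalyticAt ℂ (fun s => (Gammaℝ s)⁻¹) s := differentiable_Gammaℝ_inv.analyticAt s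
  have h2 := h1.inv (inv_ne_zero (GR_ne hs))
  have h3 : (fun s => (Gammaℝ s)⁻¹)⁻¹ = Gammaℝ := by
    funext z
    rw [Pi.inv_apply, inv_inv]
  rwa [h3] at h2

theorem psiR_an {s : ℂ} (hs : s.im ≠ 0) : AnalyticAt ℂ psiR s := by
  have h := GR_an hs
  exact h.deriv.div h (GR_ne hs)

private theorem G2_GR_conj (s : ℂ) : Gammaℝ (conj s) = conj (Gammaℝ s) := by
  rw [Gammaℝ_def, Gammaℝ_def, map_mul, ← Complex.Gamma_conj]
  have e1 : conj s / 2 = conj (s / 2) := by rw [map_div₀, map_ofNat]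
  have e2 : -conj s / 2 = conj (-s / 2) := by rw [map_div₀, map_ofNat, map_neg]
  rw [e1, e2, Complex.cpow_conj _ _ (by
    rw [Complex.arg_ofReal_of_nonneg Real.pi_pos.le]
    exact Real.pi_pos.ne), Complex.conj_ofReal]

private theorem G2_psiR_eq {s : ℂ} (hs : s.im ≠ 0) :
    psiR s = -(Real.log π : ℂ) / 2 + digamma (s / 2) / 2 := by
  have him : (s / 2).im ≠ 0 := by
    rw [Complex.div_ofNat_im]
    exact div_ne_zero hs two_ne_zero
  have hn : ∀ m : ℕ, s / 2 ≠ -m := by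
    intro m h
    apply him
    rw [h]
    simp
  have hpi : (π : ℂ) ≠ 0 := by exact_mod_cast Real.pi_ne_zero
  have hd1 : HasDerivAt (fun z : ℂ => (π : ℂ) ^ (-z / 2))
      ((π : ℂ) ^ (-s / 2) * Complex.log π * (-1 / 2)) s := by
    have h1 : HasDerivAt (fun z : ℂ => -z / 2) (-1 / 2) s := (hasDerivAt_id s).neg.div_const 2
    exact h1.const_cpow (Or.inl hpi)
  have hd2 : HasDerivAt (fun z : ℂ => Complex.Gamma (z / 2))
      (deriv Complex.Gamma (s / 2) * (1 / 2)) s := by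
    have h1 : HasDerivAt (fun z : ℂ => z / 2) (1 / 2) s := (hasDerivAt_id s).div_const 2
    exact HasDerivAt.comp s (Complex.differentiableAt_Gamma _ hn).hasDerivAt h1
  have hd : HasDerivAt Gammaℝ ((π : ℂ) ^ (-s / 2) * Complex.log π * (-1 / 2) * Complex.Gamma (s / 2) +
      (π : ℂ) ^ (-s / 2) * (deriv Complex.Gamma (s / 2) * (1 / 2))) s := hd1.mul hd2
  have hne1 : (π : ℂ) ^ (-s / 2) ≠ 0 := by
    rw [Ne, Complex.cpow_eq_zero_iff]
    exact fun h => hpi h.1
  have hne2 : Complex.Gamma (s / 2) ≠ 0 := Complex.Gamma_ne_zero hn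
  have hlog : Complex.log π = (Real.log π : ℂ) := (Complex.ofReal_log Real.pi_pos.le).symm
  rw [psiR, logDeriv_apply, hd.deriv, digamma_def, logDeriv_apply, Gammaℝ_def, hlog]
  field_simp

theorem psiR_bound : ∃ C : ℝ, 0 ≤ C ∧ ∀ s : ℂ, |s.re| ≤ 20 → 1 ≤ s.im →
    ‖psiR s - (Real.log s.im / 2 : ℝ)‖ ≤ C := by
  obtain ⟨C, hC0, hC⟩ := digamma_log
  refine ⟨C + 20, by linarith, fun s hre him => ?_⟩
  have him0 : 0 < s.im := by linarith
  have hz := hC (s / 2) (by rw [Complex.div_ofNat_re]; linarith [(abs_le.1 hre).1])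
    (by rw [Complex.div_ofNat_im]; linarith)
  rw [G2_psiR_eq him0.ne']
  have hzim : (s / 2).im = s.im / 2 := Complex.div_ofNat_im s 2
  have hn1 : s.im / 2 ≤ ‖s / 2‖ := by
    rw [← hzim]
    exact (le_abs_self _).trans (Complex.abs_im_le_norm _)
  have hn2 : ‖s / 2‖ ≤ 11 * s.im := by
    rw [norm_div, Complex.norm_ofNat]
    have h1 := Complex.norm_le_abs_re_add_abs_im s
    rw [abs_of_pos him0] at h1
    linarith
  have hn0 : 0 < ‖s / 2‖ := by linarith
  have hl1 : |Real.log ‖s / 2‖ - Real.log s.im| ≤ 10 := by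
    rw [← Real.log_div hn0.ne' him0.ne']
    have hr1 : 1 / 2 ≤ ‖s / 2‖ / s.im := by
      rw [le_div_iff₀ him0]
      linarith
    have hr2 : ‖s / 2‖ / s.im ≤ 11 := by
      rw [div_le_iff₀ him0]
      linarith
    have hr0 : 0 < ‖s / 2‖ / s.im := by positivity
    have h1 := Real.log_le_sub_one_of_pos hr0
    have h2 := Real.one_sub_inv_le_log_of_pos hr0
    have h3 : (‖s / 2‖ / s.im)⁻¹ ≤ 2 := by
      rw [inv_le_comm₀ hr0 two_pos]
      linarith
    rw [abs_le]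
    constructor <;> linarith
  have hl2 : ‖Complex.log (s / 2) - (Real.log s.im : ℝ)‖ ≤ 14 := by
    have h1 := Complex.norm_le_abs_re_add_abs_im (Complex.log (s / 2) - (Real.log s.im : ℝ))
    rw [Complex.sub_re, Complex.sub_im, Complex.ofReal_re, Complex.ofReal_im, sub_zero,
      Complex.log_re, Complex.log_im] at h1
    have h2 := Complex.abs_arg_le_pi (s / 2)
    have h3 := Real.pi_le_four
    linarith
  have hpi : ‖(Real.log π : ℂ)‖ ≤ 3 := by
    rw [Complex.norm_real, Real.norm_of_nonneg (Real.log_nonneg (by linarith [Real.pi_gt_three]))]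
    have := Real.log_le_sub_one_of_pos Real.pi_pos
    linarith [Real.pi_le_four]
  have e : -(Real.log π : ℂ) / 2 + digamma (s / 2) / 2 - ((Real.log s.im / 2 : ℝ) : ℂ) =
      (-(Real.log π : ℂ) + (digamma (s / 2) - Complex.log (s / 2)) +
        (Complex.log (s / 2) - (Real.log s.im : ℝ))) / 2 := by
    push_cast
    ring
  rw [e, norm_div, Complex.norm_ofNat]
  have h1 := norm_add_le (-(Real.log π : ℂ) + (digamma (s / 2) - Complex.log (s / 2)))
    (Complex.log (s / 2) - (Real.log s.im : ℝ))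
  have h2 := norm_add_le (-(Real.log π : ℂ)) (digamma (s / 2) - Complex.log (s / 2))
  rw [norm_neg] at h2
  linarith

theorem psiR_conj (s : ℂ) : psiR (conj s) = conj (psiR s) := by
  have h1 : (conj ∘ Gammaℝ ∘ conj : ℂ → ℂ) = Gammaℝ := by
    funext z
    simp only [Function.comp_apply, G2_GR_conj, Complex.conj_conj]
  have h2 : deriv Gammaℝ (conj s) = conj (deriv Gammaℝ s) := by
    have h3 : deriv (conj ∘ Gammaℝ ∘ conj : ℂ → ℂ) = conj ∘ deriv Gammaℝ ∘ conj := deriv_conj_conj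
    rw [h1] at h3
    have h4 := congrFun h3 (conj s)
    simpa only [Function.comp_apply, Complex.conj_conj] using h4
  rw [psiR, psiR, logDeriv_apply, logDeriv_apply, h2, G2_GR_conj, map_div₀]

private theorem G2_im {s : ℂ} (hs : s.im ≠ 0) : (1 - s).im ≠ 0 := by
  rw [Complex.sub_im, Complex.one_im, zero_sub]
  exact neg_ne_zero.2 hs

theorem ch_an {s : ℂ} (hs : s.im ≠ 0) : AnalyticAt ℂ ch s := by
  have h1 : AnalyticAt ℂ (fun z : ℂ => 1 - z) s := analyticAt_const.sub analyticAt_id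
  have h2 : AnalyticAt ℂ (fun z : ℂ => Gammaℝ (1 - z)) s :=
    AnalyticAt.fun_comp (GR_an (G2_im hs)) h1
  exact h2.div (GR_an hs) (GR_ne hs)

theorem ch_ne {s : ℂ} (hs : s.im ≠ 0) : ch s ≠ 0 :=
  div_ne_zero (GR_ne (G2_im hs)) (GR_ne hs)

private theorem G2_line (t : ℝ) : (1 : ℂ) - (1 / 2 + t * I) = conj (1 / 2 + t * I) := by
  apply Complex.ext
  · simp
    norm_num
  · simp

theorem ch_line (t : ℝ) : ‖ch (1 / 2 + t * I)‖ = 1 := by
  have h1 : Gammaℝ (1 / 2 + t * I) ≠ 0 := Gammaℝ_ne_zero_of_re_pos (by simp)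
  rw [ch, G2_line, G2_GR_conj, norm_div, Complex.norm_conj, div_self (norm_ne_zero_iff.2 h1)]

private theorem G2_logDeriv {s : ℂ} (hs : s.im ≠ 0) :
    logDeriv ch s = -psiR (1 - s) - psiR s := by
  have hd1 : HasDerivAt (fun z : ℂ => Gammaℝ (1 - z)) (deriv Gammaℝ (1 - s) * (-1)) s := by
    have h1 : HasDerivAt (fun z : ℂ => 1 - z) (-1) s := (hasDerivAt_id s).const_sub 1
    exact HasDerivAt.comp s (GR_an (G2_im hs)).differentiableAt.hasDerivAt h1
  have h2 := logDeriv_div (f := fun z : ℂ => Gammaℝ (1 - z)) (g := Gammaℝ) s (GR_ne (G2_im hs))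
    (GR_ne hs) hd1.differentiableAt (GR_an hs).differentiableAt
  have h3 : (fun z : ℂ => Gammaℝ (1 - z) / Gammaℝ z) = ch := rfl
  rw [h3] at h2
  rw [h2]
  simp only [psiR, logDeriv_apply]
  rw [hd1.deriv]
  ring

/-- `ch'/ch = -2 Re psiR` on the critical line. -/
theorem ch_logDeriv {t : ℝ} (ht : t ≠ 0) :
    logDeriv ch (1 / 2 + t * I) = ((-(2 * (psiR (1 / 2 + t * I)).re) : ℝ) : ℂ) := by
  have him : ((1 / 2 : ℂ) + t * I).im ≠ 0 := by simpa using ht
  rw [G2_logDeriv him, G2_line, psiR_conj]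
  have h := Complex.add_conj (psiR (1 / 2 + t * I))
  push_cast at h ⊢
  linear_combination -h

private theorem G2_deriv {t : ℝ} (ht : 0 < t) (x : ℝ) :
    HasDerivAt (fun σ : ℝ => Real.log ‖ch (σ + t * I)‖) (logDeriv ch (x + t * I)).re x := by
  have him : ((x : ℂ) + t * I).im ≠ 0 := by simpa using ht.ne'
  have hne := ch_ne him
  have hd := (ch_an him).differentiableAt.hasDerivAt
  have h1 : HasDerivAt (fun z : ℂ => z + t * I) 1 (x : ℂ) := (hasDerivAt_id (x : ℂ)).add_const (t * I : ℂ)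
  have h0 := HasDerivAt.comp (h₂ := ch) (x : ℂ) hd h1
  rw [mul_one] at h0
  have h2 : HasDerivAt (fun σ : ℝ => ch ((σ : ℂ) + t * I)) (deriv ch (x + t * I)) x := h0.comp_ofReal
  have hre : HasDerivAt (fun σ : ℝ => (ch ((σ : ℂ) + t * I)).re) (deriv ch (x + t * I)).re x := by
    exact Complex.reCLM.hasFDerivAt.comp_hasDerivAt x h2
  have him' : HasDerivAt (fun σ : ℝ => (ch ((σ : ℂ) + t * I)).im) (deriv ch (x + t * I)).im x := by
    exact Complex.imCLM.hasFDerivAt.comp_hasDerivAt x h2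
  set a := (ch ((x : ℂ) + t * I)).re with ha
  set b := (ch ((x : ℂ) + t * I)).im with hb
  set a' := (deriv ch (x + t * I)).re with ha'
  set b' := (deriv ch (x + t * I)).im with hb'
  have hN : 0 < a * a + b * b := by
    have h3 : Complex.normSq (ch ((x : ℂ) + t * I)) = a * a + b * b := Complex.normSq_apply _
    rw [← h3]
    exact Complex.normSq_pos.2 hne
  have h4 : HasDerivAt (fun σ : ℝ => (ch ((σ : ℂ) + t * I)).re * (ch ((σ : ℂ) + t * I)).re +
      (ch ((σ : ℂ) + t * I)).im * (ch ((σ : ℂ) + t * I)).im)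
      ((a' * a + a * a') + (b' * b + b * b')) x := (hre.mul hre).add (him'.mul him')
  have h5 := (h4.log hN.ne').const_mul (1 / 2)
  have h6 : (fun σ : ℝ => Real.log ‖ch (σ + t * I)‖) =
      fun σ : ℝ => 1 / 2 * Real.log ((ch ((σ : ℂ) + t * I)).re * (ch ((σ : ℂ) + t * I)).re +
        (ch ((σ : ℂ) + t * I)).im * (ch ((σ : ℂ) + t * I)).im) := by
    funext σ
    rw [← Complex.normSq_apply, Complex.normSq_eq_norm_sq, Real.log_pow]
    push_cast
    ring
  rw [h6]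
  refine h5.congr_deriv ?_
  rw [logDeriv_apply, Complex.div_re, Complex.normSq_apply, ← ha, ← hb, ← ha', ← hb']
  field_simp
  ring

theorem ch_bound : ∃ C : ℝ, 0 ≤ C ∧ ∀ s : ℂ, |s.re| ≤ 18 → 1 ≤ s.im →
    |Real.log ‖ch s‖ + (s.re - 1 / 2) * Real.log s.im| ≤ C * |s.re - 1 / 2| := by
  obtain ⟨C, hC0, hC⟩ := psiR_bound
  refine ⟨2 * C, by linarith, fun s hre him => ?_⟩
  set t := s.im with ht
  have ht0 : 0 < t := by linarith
  have hs : s = (s.re : ℂ) + t * I := (Complex.re_add_im s).symm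
  have hd : ∀ x ∈ Set.Icc (-18 : ℝ) 18,
      HasDerivWithinAt (fun σ : ℝ => Real.log ‖ch (σ + t * I)‖ + (σ - 1 / 2) * Real.log t)
        ((logDeriv ch (x + t * I)).re + Real.log t) (Set.Icc (-18 : ℝ) 18) x := by
    intro x _
    have h1 : HasDerivAt (fun σ : ℝ => (σ - 1 / 2) * Real.log t) (Real.log t) x := by
      have h0 := ((hasDerivAt_id x).sub_const (1 / 2)).mul_const (Real.log t)
      rw [one_mul] at h0
      exact h0
    exact ((G2_deriv ht0 x).add h1).hasDerivWithinAt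
  have hb : ∀ x ∈ Set.Icc (-18 : ℝ) 18, ‖(logDeriv ch (x + t * I)).re + Real.log t‖ ≤ 2 * C := by
    intro x hx
    have hxim : ((x : ℂ) + t * I).im = t := by simp
    have hxre : ((x : ℂ) + t * I).re = x := by simp
    have hxim' : ((x : ℂ) + t * I).im ≠ 0 := by
      rw [hxim]
      exact ht0.ne'
    rw [G2_logDeriv hxim']
    have e1 : (1 : ℂ) - (x + t * I) = conj ((1 - x : ℝ) + t * I) := by
      apply Complex.ext <;> simp
    have hyim : (((1 - x : ℝ) : ℂ) + t * I).im = t := by simp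
    have hyre : (((1 - x : ℝ) : ℂ) + t * I).re = 1 - x := by simp
    have h1 := hC (x + t * I) (by rw [hxre, abs_le]; constructor <;> linarith [hx.1, hx.2])
      (by rw [hxim]; exact him)
    have h2 := hC ((1 - x : ℝ) + t * I) (by rw [hyre, abs_le]; constructor <;> linarith [hx.1, hx.2])
      (by rw [hyim]; exact him)
    rw [hxim] at h1
    rw [hyim] at h2
    have h3 := (Complex.abs_re_le_norm _).trans h1
    have h4 := (Complex.abs_re_le_norm _).trans h2
    rw [Complex.sub_re, Complex.ofReal_re] at h3 h4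
    rw [e1, psiR_conj, Complex.sub_re, Complex.neg_re, Complex.conj_re, Real.norm_eq_abs]
    rw [abs_le] at h3 h4 ⊢
    constructor <;> linarith [h3.1, h3.2, h4.1, h4.2]
  have hmv := Convex.norm_image_sub_le_of_norm_hasDerivWithin_le hd hb (convex_Icc _ _)
    (show (1 / 2 : ℝ) ∈ Set.Icc (-18 : ℝ) 18 by constructor <;> norm_num)
    (show s.re ∈ Set.Icc (-18 : ℝ) 18 from ⟨(abs_le.1 hre).1, (abs_le.1 hre).2⟩)
  have hl : Real.log ‖ch (((1 / 2 : ℝ) : ℂ) + t * I)‖ = 0 := by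
    have h1 := ch_line t
    have h2 : (((1 / 2 : ℝ) : ℂ) + t * I) = 1 / 2 + t * I := by push_cast; rfl
    rw [h2, h1, Real.log_one]
  beta_reduce at hmv
  rw [hl, sub_self, zero_mul, add_zero, sub_zero, ← hs, Real.norm_eq_abs, Real.norm_eq_abs] at hmv
  exact hmv

theorem ch_le : ∃ C : ℝ, 0 ≤ C ∧ ∀ s : ℂ, |s.re| ≤ 18 → 1 ≤ s.im →
    ‖ch s‖ ≤ Real.exp (C * |s.re - 1 / 2|) * s.im ^ (1 / 2 - s.re) := by
  obtain ⟨C, hC0, hC⟩ := ch_bound
  refine ⟨C, hC0, fun s hre him => ?_⟩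
  have him0 : 0 < s.im := by linarith
  have hne := ch_ne him0.ne'
  have h1 := (abs_le.1 (hC s hre him)).2
  have h2 : ‖ch s‖ = Real.exp (Real.log ‖ch s‖) := (Real.exp_log (norm_pos_iff.2 hne)).symm
  rw [h2, Real.rpow_def_of_pos him0, ← Real.exp_add]
  refine Real.exp_le_exp.2 ?_
  nlinarith

end Pool.Agent.LB
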