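import Pool.Agent.Lib.MP_69b2e4_nt.Mg.G023
import Pool.Agent.Lib.MP_69b2e4_nt.Mg.G006

/-! TASK M2. One block of primes. COPY UV/R3.lean (its lemmas are private). `u_p = p^{-1/2} ≤ 3/4`, `s = sR R`.
`main_block5`: `indep_primes` and `one_prime5`.
`block5`: `norm_Ex_le_mul` (GH/ExBound): with `Y = ∑ c_p X_p`: `‖Ex l Y‖² ≤ e^{2 Re Y}(1 + 3·2^{-l} e^{6‖Y‖})` (as `R3_ex`). First term: `main_block5` with `s + c` in place of `s` (constant `2A`). Second term: pointwise `‖(1-yX)⁻¹‖² ≤ exp(2 Re(yX) + 72/p)`, `‖1-bX‖² ≤ exp(-2 Re(bX) + ‖b‖²)`, so everything is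
`≤ exp(Re ∑ a_p X_p + K s) e^{6‖Y‖}`, `‖a_p‖ ≤ K p^{-1/2}`, and by Cauchy-Schwarz and `R3_mom` (exponential moments of the norm of a linear form) at most `exp(K'(s+1))`.
`block5_low`: `‖Ex l Y‖² ≥ e^{2 Re Y} - 2·2^{-l} e^{3‖Y‖}·(..)`: from `norm_Ex_sub_exp` `|‖Ex‖² - ‖e^Y‖²| ≤ ‖Ex - e^Y‖(‖Ex‖ + ‖e^Y‖) ≤ 2·2^{-l} e^{3‖Y‖}`; `one_prime_low`, `‖c‖⁴ ≤ A⁴ p^{-2}`, and `R3_mom`; the main term is `≥ exp(-C ∑ p^{-2}) ≥ e^{-C}` so the error can be put into the second factor.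
`block5_bad`: for `κ1 > 0`: `x^{2l} ≤ (2l)! κ1^{-2l} e^{κ1 x} ≤ (2l/κ1)^{2l} e^{κ1 x}`; with `κ1 = 8κ`: `(κ x/l)^{2l} ≤ (1/4)^{2l} e^{8κ x} ≤ 2^{-2l} e^{8κx}`, and `‖Ex l Y‖² ≤ e^{2‖Y‖}`, then `R3_mom`. -/

set_option autoImplicit false

namespace Pool.Agent.LB

open Complex MeasureTheory Finset Pool.Agent.GH Pool.Agent.UH Pool.Agent.UV
open scoped Real ComplexConjugate

private theorem M2_u {p : ℕ} (hp : p.Prime) :
    0 ≤ (p : ℝ) ^ (-(1 / 2) : ℝ) ∧ (p : ℝ) ^ (-(1 / 2) : ℝ) ≤ 3 / 4 ∧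
      ((p : ℝ) ^ (-(1 / 2) : ℝ)) ^ 2 = 1 / (p : ℝ) ∧
      ((p : ℝ) ^ (-(1 / 2) : ℝ)) ^ 4 = (p : ℝ) ^ (-2 : ℝ) := by
  have hp0 : (0 : ℝ) < p := by exact_mod_cast hp.pos
  have hp2 : (2 : ℝ) ≤ p := by exact_mod_cast hp.two_le
  have h0 : 0 ≤ (p : ℝ) ^ (-(1 / 2) : ℝ) := Real.rpow_nonneg hp0.le _
  have h2 : ((p : ℝ) ^ (-(1 / 2) : ℝ)) ^ 2 = 1 / (p : ℝ) := by
    rw [← Real.rpow_natCast, ← Real.rpow_mul hp0.le]
    have : (-(1 / 2) : ℝ) * ((2 : ℕ) : ℝ) = -1 := by norm_num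
    rw [this, Real.rpow_neg_one, one_div]
  have h4 : ((p : ℝ) ^ (-(1 / 2) : ℝ)) ^ 4 = (p : ℝ) ^ (-2 : ℝ) := by
    rw [← Real.rpow_natCast, ← Real.rpow_mul hp0.le]
    have : (-(1 / 2) : ℝ) * ((4 : ℕ) : ℝ) = -2 := by norm_num
    rw [this]
  refine ⟨h0, ?_, h2, h4⟩
  have h5 : 1 / (p : ℝ) ≤ 1 / 2 := one_div_le_one_div_of_le (by norm_num) hp2
  nlinarith

private theorem M2_circ : Continuous fun x : UnitAddCircle => (AddCircle.toCircle x : ℂ) :=
  continuous_subtype_val.comp AddCircle.continuous_toCircle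

private theorem M2_inv (z : ℂ) (hz : ‖z‖ ≤ 3 / 4) :
    ‖(1 - z)⁻¹‖ ^ 2 ≤ Real.exp (2 * z.re + 72 * ‖z‖ ^ 2) := by
  have h1 : ‖1 - z‖ ^ 2 = 1 - 2 * z.re + ‖z‖ ^ 2 := by
    rw [← Complex.normSq_eq_norm_sq, ← Complex.normSq_eq_norm_sq, Complex.normSq_apply,
      Complex.normSq_apply]
    simp only [Complex.sub_re, Complex.one_re, Complex.sub_im, Complex.one_im]
    ring
  have hr0 := norm_nonneg z
  have ha := abs_le.mp (Complex.abs_re_le_norm z)
  rw [norm_inv, inv_pow, h1]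
  set r := ‖z‖ with hr
  set a := z.re with haa
  have hy : 1 / 16 ≤ 1 - 2 * a + r ^ 2 := by nlinarith
  have hy0 : 0 < 1 - 2 * a + r ^ 2 := by linarith
  have h2 := Real.add_one_le_exp ((1 - 2 * a + r ^ 2)⁻¹ - 1)
  rw [sub_add_cancel] at h2
  refine h2.trans (Real.exp_le_exp.mpr ?_)
  rw [sub_le_iff_le_add, inv_eq_one_div, div_le_iff₀ hy0]
  have h3 : a ^ 2 ≤ r ^ 2 := sq_le_sq' ha.1 ha.2
  have h4 : (0 : ℝ) ≤ r ^ 2 := sq_nonneg r
  have h5 : 72 * r ^ 2 * (1 / 16) ≤ 72 * r ^ 2 * (1 - 2 * a + r ^ 2) :=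
    mul_le_mul_of_nonneg_left hy (by positivity)
  nlinarith [mul_nonneg h4 (by linarith : (0 : ℝ) ≤ 3 / 4 - a)]

private theorem M2_lin (z : ℂ) :
    ‖1 - z‖ ^ 2 ≤ Real.exp (-(2 * z.re) + ‖z‖ ^ 2) := by
  have h1 : ‖1 - z‖ ^ 2 = 1 - 2 * z.re + ‖z‖ ^ 2 := by
    rw [← Complex.normSq_eq_norm_sq, ← Complex.normSq_eq_norm_sq, Complex.normSq_apply,
      Complex.normSq_apply]
    simp only [Complex.sub_re, Complex.one_re, Complex.sub_im, Complex.one_im]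
    ring
  have h2 := Real.add_one_le_exp (-(2 * z.re) + ‖z‖ ^ 2)
  rw [h1]
  linarith

private theorem M2_add2 {f g : Om → ℝ} (hf : Integrable f mu) (hg : Integrable g mu) :
    Integrable (fun w => f w + g w) mu ∧ ∫ w, (f w + g w) ∂mu = ∫ w, f w ∂mu + ∫ w, g w ∂mu :=
  ⟨hf.add hg, integral_add hf hg⟩

private theorem M2_contS (R : Finset ℕ) (a : ℕ → ℂ) :
    Continuous fun w => ∑ p ∈ R, a p * X p w :=
  continuous_finsetSum _ fun p _ => continuous_const.mul (continuous_X p)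

/-- Exponential moments of the norm of a linear form. -/
private theorem M2_mom (R : Finset ℕ) (a : ℕ → ℂ) (c : ℝ) :
    ∫ w, Real.exp (c * ‖∑ p ∈ R, a p * X p w‖) ∂mu ≤
      4 * Real.exp (4 * c ^ 2 * ∑ p ∈ R, ‖a p‖ ^ 2) := by
  have hdir : ∀ κ : ℂ, ‖κ‖ ≤ 1 →
      Integrable (fun w => Real.exp ((∑ p ∈ R, (2 * c * κ * a p) * X p w).re)) mu ∧
      ∫ w, Real.exp ((∑ p ∈ R, (2 * c * κ * a p) * X p w).re) ∂mu ≤
        Real.exp (4 * c ^ 2 * ∑ p ∈ R, ‖a p‖ ^ 2) := by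
    intro κ hκ
    refine ⟨integrable_of_continuous (Real.continuous_exp.comp
      (Complex.continuous_re.comp (M2_contS R _))), ?_⟩
    refine (UH.lin_exp R fun p => 2 * c * κ * a p).trans (Real.exp_le_exp.mpr ?_)
    rw [Finset.mul_sum]
    refine Finset.sum_le_sum fun p _ => ?_
    rw [norm_mul, norm_mul, norm_mul, Complex.norm_ofNat, Complex.norm_real, Real.norm_eq_abs]
    have h1 : (2 * |c| * ‖κ‖ * ‖a p‖) ^ 2 = 4 * c ^ 2 * ‖a p‖ ^ 2 * ‖κ‖ ^ 2 := by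
      rw [mul_pow, mul_pow, mul_pow, sq_abs]; ring
    rw [h1]
    have h2 : ‖κ‖ ^ 2 ≤ 1 := pow_le_one₀ (norm_nonneg _) hκ
    calc 4 * c ^ 2 * ‖a p‖ ^ 2 * ‖κ‖ ^ 2 ≤ 4 * c ^ 2 * ‖a p‖ ^ 2 * 1 :=
          mul_le_mul_of_nonneg_left h2 (by positivity)
      _ = _ := mul_one _
  obtain ⟨i1, b1⟩ := hdir 1 (by simp)
  obtain ⟨i2, b2⟩ := hdir (-1) (by simp)
  obtain ⟨i3, b3⟩ := hdir I (by simp)
  obtain ⟨i4, b4⟩ := hdir (-I) (by simp)
  have hc : Continuous fun w => Real.exp (c * ‖∑ p ∈ R, a p * X p w‖) :=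
    Real.continuous_exp.comp (continuous_const.mul (continuous_norm.comp (M2_contS R a)))
  have hpt : ∀ w, Real.exp (c * ‖∑ p ∈ R, a p * X p w‖) ≤
      ((Real.exp ((∑ p ∈ R, (2 * c * 1 * a p) * X p w).re) +
        Real.exp ((∑ p ∈ R, (2 * c * (-1) * a p) * X p w).re)) +
        Real.exp ((∑ p ∈ R, (2 * c * I * a p) * X p w).re)) +
        Real.exp ((∑ p ∈ R, (2 * c * (-I) * a p) * X p w).re) := by
    intro w
    set y := ∑ p ∈ R, a p * X p w with hy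
    have hs : ∀ κ : ℂ, ∑ p ∈ R, (2 * c * κ * a p) * X p w = ((2 * c : ℝ) : ℂ) * (κ * y) := by
      intro κ
      rw [hy, Finset.mul_sum, Finset.mul_sum]
      refine Finset.sum_congr rfl fun p _ => ?_
      push_cast
      ring
    rw [hs, hs, hs, hs, Complex.re_ofReal_mul, Complex.re_ofReal_mul, Complex.re_ofReal_mul,
      Complex.re_ofReal_mul]
    have r1 : ((1 : ℂ) * y).re = y.re := by simp
    have r2 : ((-1 : ℂ) * y).re = -y.re := by simp
    have r3 : (I * y).re = -y.im := by simp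
    have r4 : (-I * y).re = y.im := by simp
    rw [r1, r2, r3, r4]
    have hn : ‖y‖ ≤ |y.re| + |y.im| := Complex.norm_le_abs_re_add_abs_im y
    have p1 := Real.exp_pos (2 * c * y.re)
    have p2 := Real.exp_pos (2 * c * -y.re)
    have p3 := Real.exp_pos (2 * c * -y.im)
    have p4 := Real.exp_pos (2 * c * y.im)
    rcases le_or_gt 0 c with h0 | h0
    · rcases le_total |y.re| |y.im| with h | h
      · have h5 : c * ‖y‖ ≤ 2 * c * |y.im| := by nlinarith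
        rcases abs_choice y.im with h6 | h6
        · rw [h6] at h5
          linarith [Real.exp_le_exp.mpr h5]
        · rw [h6] at h5
          linarith [Real.exp_le_exp.mpr h5]
      · have h5 : c * ‖y‖ ≤ 2 * c * |y.re| := by nlinarith
        rcases abs_choice y.re with h6 | h6
        · rw [h6] at h5
          linarith [Real.exp_le_exp.mpr h5]
        · rw [h6] at h5
          linarith [Real.exp_le_exp.mpr h5]
    · have h5 : c * ‖y‖ ≤ 0 := mul_nonpos_of_nonpos_of_nonneg h0.le (norm_nonneg _)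
      have h6 : Real.exp (c * ‖y‖) ≤ 1 := Real.exp_le_one_iff.mpr h5
      rcases le_total 0 y.re with h | h
      · have : 0 ≤ 2 * c * -y.re := by nlinarith
        linarith [Real.one_le_exp this]
      · have : 0 ≤ 2 * c * y.re := by nlinarith
        linarith [Real.one_le_exp this]
  refine (integral_mono (integrable_of_continuous hc) (((i1.add i2).add i3).add i4) hpt).trans ?_
  have e4 : ∫ w, (((Real.exp ((∑ p ∈ R, (2 * c * 1 * a p) * X p w).re) +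
        Real.exp ((∑ p ∈ R, (2 * c * (-1) * a p) * X p w).re)) +
        Real.exp ((∑ p ∈ R, (2 * c * I * a p) * X p w).re)) +
        Real.exp ((∑ p ∈ R, (2 * c * (-I) * a p) * X p w).re)) ∂mu =
      ((∫ w, Real.exp ((∑ p ∈ R, (2 * c * 1 * a p) * X p w).re) ∂mu +
        ∫ w, Real.exp ((∑ p ∈ R, (2 * c * (-1) * a p) * X p w).re) ∂mu) +
        ∫ w, Real.exp ((∑ p ∈ R, (2 * c * I * a p) * X p w).re) ∂mu) +
        ∫ w, Real.exp ((∑ p ∈ R, (2 * c * (-I) * a p) * X p w).re) ∂mu := by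
    obtain ⟨j1, s1⟩ := M2_add2 i1 i2
    obtain ⟨j2, s2⟩ := M2_add2 j1 i3
    obtain ⟨j3, s3⟩ := M2_add2 j2 i4
    rw [s3, s2, s1]
  refine le_trans (le_of_eq e4) ?_
  linarith


private theorem M2_prod (R : Finset ℕ) (y : ℕ → ℝ) (b s : ℕ → ℂ) (w : Om) :
    (∏ p ∈ R, ‖(1 - (y p : ℂ) * X p w)⁻¹‖ ^ 2) * (∏ p ∈ R, ‖1 - b p * X p w‖ ^ 2) *
      Real.exp (2 * (∑ p ∈ R, s p * X p w).re) =
    ∏ p ∈ R, (‖(1 - (y p : ℂ) * (AddCircle.toCircle (w p) : ℂ))⁻¹‖ ^ 2 *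
      ‖1 - b p * (AddCircle.toCircle (w p) : ℂ)‖ ^ 2 *
      Real.exp (2 * (s p * (AddCircle.toCircle (w p) : ℂ)).re)) := by
  rw [Finset.prod_mul_distrib, Finset.prod_mul_distrib]
  have h2 : Real.exp (2 * (∑ p ∈ R, s p * X p w).re) =
      ∏ p ∈ R, Real.exp (2 * (s p * (AddCircle.toCircle (w p) : ℂ)).re) := by
    rw [← Real.exp_sum, Complex.re_sum, Finset.mul_sum]
    rfl
  rw [h2]
  rfl

private theorem M2_ex (l : ℕ) (Y : ℂ) :
    ‖Ex l Y‖ ^ 2 ≤ Real.exp (2 * Y.re) +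
      3 * (2 : ℝ)⁻¹ ^ l * (Real.exp (2 * Y.re) * Real.exp (6 * ‖Y‖)) := by
  have h1 := norm_Ex_le_mul l Y
  rw [Complex.norm_exp] at h1
  set y := ‖Y‖ with hy
  have hy0 : 0 ≤ y := norm_nonneg _
  set q : ℝ := (2 : ℝ)⁻¹ ^ l with hq
  have hq0 : 0 < q := by positivity
  have hq1 : q ≤ 1 := pow_le_one₀ (by norm_num) (by norm_num)
  set E := Real.exp Y.re with hE
  set Z := Real.exp (3 * y) with hZ
  have hE0 : 0 < E := Real.exp_pos _
  have hZ1 : 1 ≤ Z := Real.one_le_exp (by linarith)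
  have e1 : Real.exp (2 * Y.re) = E ^ 2 := by
    rw [hE, ← Real.exp_nat_mul]; congr 1
  have e2 : Real.exp (6 * y) = Z ^ 2 := by
    rw [hZ, ← Real.exp_nat_mul]; congr 1; push_cast; ring
  rw [e1, e2]
  have h5 : ‖Ex l Y‖ ^ 2 ≤ (E * (1 + q * Z)) ^ 2 :=
    pow_le_pow_left₀ (norm_nonneg _) h1 2
  refine h5.trans ?_
  have h6 : (1 + q * Z) ^ 2 ≤ 1 + 3 * q * Z ^ 2 := by
    have a1 : q * Z ≤ q * Z ^ 2 := by
      apply mul_le_mul_of_nonneg_left _ hq0.le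
      nlinarith
    have a2 : q ^ 2 * Z ^ 2 ≤ q * Z ^ 2 := by
      apply mul_le_mul_of_nonneg_right _ (by positivity)
      nlinarith
    nlinarith
  calc (E * (1 + q * Z)) ^ 2 = E ^ 2 * (1 + q * Z) ^ 2 := by ring
    _ ≤ E ^ 2 * (1 + 3 * q * Z ^ 2) := mul_le_mul_of_nonneg_left h6 (by positivity)
    _ = _ := by ring

private theorem M2_contEx (l : ℕ) : Continuous fun x : ℂ => Ex l x := by
  unfold Ex
  exact continuous_finsetSum _ fun i _ => (continuous_id.pow i).div_const _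

private theorem M2_sq (R : Finset ℕ) (hR : ∀ p ∈ R, p.Prime) (K : ℝ) (f : ℕ → ℂ)
    (hf : ∀ p ∈ R, ‖f p‖ ≤ K * (p : ℝ) ^ (-(1 / 2) : ℝ)) :
    ∑ p ∈ R, ‖f p‖ ^ 2 ≤ K ^ 2 * sR R := by
  rw [sR, Finset.mul_sum]
  refine Finset.sum_le_sum fun p hp => ?_
  rw [← (M2_u (hR p hp)).2.2.1, ← mul_pow]
  exact pow_le_pow_left₀ (norm_nonneg _) (hf p hp) 2

theorem main_block5 (A : ℝ) (hA : 0 ≤ A) : ∃ C : ℝ, 0 ≤ C ∧ ∀ (R : Finset ℕ) (y : ℕ → ℝ) (b s : ℕ → ℂ),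
    (∀ p ∈ R, p.Prime ∧ 0 ≤ y p ∧ y p ≤ (p : ℝ) ^ (-(1 / 2) : ℝ) ∧
      ‖b p‖ ≤ A * (p : ℝ) ^ (-(1 / 2) : ℝ) ∧ ‖s p‖ ≤ A * (p : ℝ) ^ (-(1 / 2) : ℝ)) →
    ∫ w, (∏ p ∈ R, ‖(1 - (y p : ℂ) * X p w)⁻¹‖ ^ 2) * (∏ p ∈ R, ‖1 - b p * X p w‖ ^ 2) *
      Real.exp (2 * (∑ p ∈ R, s p * X p w).re) ∂mu ≤
    Real.exp (∑ p ∈ R, ‖(y p : ℂ) - b p + s p‖ ^ 2 + C * ∑ p ∈ R, (p : ℝ) ^ (-2 : ℝ)) := by
  obtain ⟨C, hC0, hC⟩ := one_prime5 A hA
  refine ⟨C, hC0, fun R y b s h => ?_⟩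
  simp_rw [M2_prod R y b s]
  rw [indep_primes (𝕜 := ℝ) R (fun p x =>
    ‖(1 - (y p : ℂ) * (AddCircle.toCircle x : ℂ))⁻¹‖ ^ 2 *
      ‖1 - b p * (AddCircle.toCircle x : ℂ)‖ ^ 2 *
      Real.exp (2 * (s p * (AddCircle.toCircle x : ℂ)).re))
    (fun p _ => by
      have hm := M2_circ.measurable
      refine Measurable.mul (Measurable.mul ?_ ?_) ?_
      · exact ((measurable_const.sub (measurable_const.mul hm)).inv).norm.pow_const 2
      · exact (measurable_const.sub (measurable_const.mul hm)).norm.pow_const 2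
      · exact Real.measurable_exp.comp (measurable_const.mul
          (Complex.measurable_re.comp (measurable_const.mul hm))))]
  have hle : ∀ p ∈ R, ∫ x, ‖(1 - (y p : ℂ) * (AddCircle.toCircle x : ℂ))⁻¹‖ ^ 2 *
      ‖1 - b p * (AddCircle.toCircle x : ℂ)‖ ^ 2 *
      Real.exp (2 * (s p * (AddCircle.toCircle x : ℂ)).re)
      ∂(AddCircle.haarAddCircle : Measure UnitAddCircle) ≤
      Real.exp (‖(y p : ℂ) - b p + s p‖ ^ 2 + C * ((p : ℝ) ^ (-(1 / 2) : ℝ)) ^ 4) := by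
    intro p hp
    obtain ⟨hpp, h0, h1, h2, h3⟩ := h p hp
    exact hC _ (y p) (b p) (s p) h0 h1 (M2_u hpp).2.1 h2 h3
  refine (Finset.prod_le_prod (fun p _ => integral_nonneg fun x => by positivity) hle).trans ?_
  rw [← Real.exp_sum]
  refine Real.exp_le_exp.mpr (le_of_eq ?_)
  rw [Finset.sum_add_distrib, Finset.mul_sum]
  congr 1
  exact Finset.sum_congr rfl fun p hp => by rw [(M2_u (h p hp).1).2.2.2]

private theorem M2_contG (R : Finset ℕ) (y : ℕ → ℝ) (b : ℕ → ℂ) (hR : ∀ p ∈ R, p.Prime)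
    (hy : ∀ p ∈ R, 0 ≤ y p ∧ y p ≤ (p : ℝ) ^ (-(1 / 2) : ℝ)) :
    Continuous fun w => (∏ p ∈ R, ‖(1 - (y p : ℂ) * X p w)⁻¹‖ ^ 2) *
      (∏ p ∈ R, ‖1 - b p * X p w‖ ^ 2) := by
  refine Continuous.mul ?_ ?_
  · refine continuous_finsetProd _ fun p hp => ?_
    refine (continuous_norm.comp ((continuous_const.sub
      (continuous_const.mul (continuous_X p))).inv₀ fun w h0 => ?_)).pow 2
    have h1 : (y p : ℂ) * X p w = 1 := (sub_eq_zero.1 h0).symm
    have h2 : ‖(y p : ℂ) * X p w‖ = y p := by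
      rw [norm_mul, norm_X, mul_one, Complex.norm_real, Real.norm_of_nonneg (hy p hp).1]
    rw [h1, norm_one] at h2
    have h3 := (hy p hp).2.trans (M2_u (hR p hp)).2.1
    linarith
  · refine continuous_finsetProd _ fun p _ => ?_
    exact (continuous_norm.comp
      (continuous_const.sub (continuous_const.mul (continuous_X p)))).pow 2

private theorem M2_bound (A : ℝ) (hA : 0 ≤ A) (R : Finset ℕ) (y : ℕ → ℝ) (b : ℕ → ℂ)
    (hR : ∀ p ∈ R, p.Prime)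
    (hy : ∀ p ∈ R, 0 ≤ y p ∧ y p ≤ (p : ℝ) ^ (-(1 / 2) : ℝ))
    (hb : ∀ p ∈ R, ‖b p‖ ≤ A * (p : ℝ) ^ (-(1 / 2) : ℝ)) (w : Om) :
    (∏ p ∈ R, ‖(1 - (y p : ℂ) * X p w)⁻¹‖ ^ 2) * (∏ p ∈ R, ‖1 - b p * X p w‖ ^ 2) ≤
      Real.exp (2 * (∑ p ∈ R, ((y p : ℂ) - b p) * X p w).re + (72 + A ^ 2) * sR R) := by
  rw [← Finset.prod_mul_distrib]
  have h2 : 2 * (∑ p ∈ R, ((y p : ℂ) - b p) * X p w).re + (72 + A ^ 2) * sR R =
      ∑ p ∈ R, (2 * (((y p : ℂ) - b p) * X p w).re + (72 + A ^ 2) * (1 / (p : ℝ))) := by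
    rw [Complex.re_sum, Finset.sum_add_distrib, sR, Finset.mul_sum, Finset.mul_sum]
  rw [h2, Real.exp_sum]
  refine Finset.prod_le_prod (fun p _ => by positivity) fun p hp => ?_
  obtain ⟨hu0, hu1, hu2, -⟩ := M2_u (hR p hp)
  set u := (p : ℝ) ^ (-(1 / 2) : ℝ) with hu
  have hn : ‖(y p : ℂ) * X p w‖ = y p := by
    rw [norm_mul, norm_X, mul_one, Complex.norm_real, Real.norm_of_nonneg (hy p hp).1]
  have hn2 : ‖b p * X p w‖ = ‖b p‖ := by
    rw [norm_mul, norm_X, mul_one]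
  have k1 := M2_inv ((y p : ℂ) * X p w) (by rw [hn]; exact (hy p hp).2.trans hu1)
  have k2 := M2_lin (b p * X p w)
  rw [hn] at k1
  rw [hn2] at k2
  refine (mul_le_mul k1 k2 (by positivity) (by positivity)).trans ?_
  rw [← Real.exp_add]
  refine Real.exp_le_exp.mpr ?_
  have h3 : ‖b p‖ ^ 2 ≤ (A * u) ^ 2 := pow_le_pow_left₀ (norm_nonneg _) (hb p hp) 2
  have h3' : (y p) ^ 2 ≤ u ^ 2 := pow_le_pow_left₀ (hy p hp).1 (hy p hp).2 2
  have h4 : (((y p : ℂ) - b p) * X p w).re =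
      ((y p : ℂ) * X p w).re - (b p * X p w).re := by
    rw [sub_mul, Complex.sub_re]
  rw [h4, ← hu2]
  nlinarith

theorem block5 (A : ℝ) (hA : 0 ≤ A) : ∃ C : ℝ, 0 ≤ C ∧ ∀ (R : Finset ℕ) (y : ℕ → ℝ) (b s c : ℕ → ℂ)
    (l : ℕ), (∀ p ∈ R, p.Prime ∧ 0 ≤ y p ∧ y p ≤ (p : ℝ) ^ (-(1 / 2) : ℝ) ∧
      ‖b p‖ ≤ A * (p : ℝ) ^ (-(1 / 2) : ℝ) ∧ ‖s p‖ ≤ A * (p : ℝ) ^ (-(1 / 2) : ℝ) ∧
      ‖c p‖ ≤ A * (p : ℝ) ^ (-(1 / 2) : ℝ)) →
    ∫ w, (∏ p ∈ R, ‖(1 - (y p : ℂ) * X p w)⁻¹‖ ^ 2) * (∏ p ∈ R, ‖1 - b p * X p w‖ ^ 2) *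
      Real.exp (2 * (∑ p ∈ R, s p * X p w).re) * ‖Ex l (∑ p ∈ R, c p * X p w)‖ ^ 2 ∂mu ≤
    Real.exp (∑ p ∈ R, ‖(y p : ℂ) - b p + s p + c p‖ ^ 2 + C * ∑ p ∈ R, (p : ℝ) ^ (-2 : ℝ)) *
      (1 + (2 : ℝ)⁻¹ ^ l * Real.exp (C * (sR R + 1))) := by
  obtain ⟨C1, hC10, hC1⟩ := main_block5 (2 * A) (by positivity)
  set K : ℝ := 72 + A ^ 2 + 16 * (1 + 3 * A) ^ 2 + 576 * A ^ 2 with hK
  have hK0 : 0 ≤ K := by positivity
  refine ⟨C1 + K + 10, by positivity, fun R y b s c l h => ?_⟩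
  have hR : ∀ p ∈ R, p.Prime := fun p hp => (h p hp).1
  have hs0 : 0 ≤ sR R := Finset.sum_nonneg fun p _ => by positivity
  have hmain := hC1 R y b (fun p => s p + c p) (fun p hp => by
    obtain ⟨hpp, h0, h1, h2, h3, h4⟩ := h p hp
    have hu := (M2_u hpp).1
    refine ⟨hpp, h0, h1, ?_, ?_⟩
    · nlinarith [mul_nonneg hA hu]
    · refine (norm_add_le _ _).trans ?_
      nlinarith)
  set G : Om → ℝ := fun w => (∏ p ∈ R, ‖(1 - (y p : ℂ) * X p w)⁻¹‖ ^ 2) *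
      (∏ p ∈ R, ‖1 - b p * X p w‖ ^ 2) with hG
  have hGc : Continuous G := M2_contG R y b hR fun p hp => ⟨(h p hp).2.1, (h p hp).2.2.1⟩
  have hG0 : ∀ w, 0 ≤ G w := fun w => by
    simp only [hG]
    exact mul_nonneg (Finset.prod_nonneg fun p _ => by positivity)
      (Finset.prod_nonneg fun p _ => by positivity)
  set Y : Om → ℂ := fun w => ∑ p ∈ R, c p * X p w with hY
  set Q : Om → ℂ := fun w => ∑ p ∈ R, s p * X p w with hQ
  have hYc : Continuous Y := M2_contS R c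
  have hQc : Continuous Q := M2_contS R s
  set a : ℕ → ℂ := fun p => 4 * ((y p : ℂ) - b p + s p + c p) with ha
  have hLc : Continuous fun w => Real.exp ((∑ p ∈ R, a p * X p w).re) :=
    Real.continuous_exp.comp (Complex.continuous_re.comp (M2_contS R a))
  have hQe : Continuous fun w => Real.exp (2 * (Q w).re) :=
    Real.continuous_exp.comp (continuous_const.mul (Complex.continuous_re.comp hQc))
  have hYe : Continuous fun w => Real.exp (2 * (Y w).re) :=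
    Real.continuous_exp.comp (continuous_const.mul (Complex.continuous_re.comp hYc))
  have hN6 : Continuous fun w => Real.exp (6 * ‖Y w‖) :=
    Real.continuous_exp.comp (continuous_const.mul (continuous_norm.comp hYc))
  have hN12 : Continuous fun w => Real.exp (12 * ‖Y w‖) :=
    Real.continuous_exp.comp (continuous_const.mul (continuous_norm.comp hYc))
  have hXc : Continuous fun w => ‖Ex l (Y w)‖ ^ 2 :=
    (continuous_norm.comp ((M2_contEx l).comp hYc)).pow 2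
  have hcomb : ∀ w, Real.exp (2 * (Q w).re) * Real.exp (2 * (Y w).re) =
      Real.exp (2 * (∑ p ∈ R, (s p + c p) * X p w).re) := by
    intro w
    rw [← Real.exp_add]
    congr 1
    have : ∑ p ∈ R, (s p + c p) * X p w = Q w + Y w := by
      simp only [hQ, hY]
      rw [← Finset.sum_add_distrib]
      exact Finset.sum_congr rfl fun p _ => by ring
    rw [this, Complex.add_re]
    ring
  -- the second term
  have hsec : ∫ w, G w * Real.exp (2 * (Q w).re) *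
      (Real.exp (2 * (Y w).re) * Real.exp (6 * ‖Y w‖)) ∂mu ≤ 5 / 2 * Real.exp (K * sR R) := by
    have hpt : ∀ w, G w * Real.exp (2 * (Q w).re) *
        (Real.exp (2 * (Y w).re) * Real.exp (6 * ‖Y w‖)) ≤
        Real.exp ((72 + A ^ 2) * sR R) * (1 / 2 * Real.exp ((∑ p ∈ R, a p * X p w).re) +
          1 / 2 * Real.exp (12 * ‖Y w‖)) := by
      intro w
      have b1 := M2_bound A hA R y b hR (fun p hp => ⟨(h p hp).2.1, (h p hp).2.2.1⟩)
        (fun p hp => (h p hp).2.2.2.1) w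
      rw [Real.exp_add] at b1
      set L := 2 * (∑ p ∈ R, ((y p : ℂ) - b p) * X p w).re with hL
      set L2 := L + 2 * (Q w).re + 2 * (Y w).re with hL2
      have hL3 : (∑ p ∈ R, a p * X p w).re = L2 + L2 := by
        have : ∑ p ∈ R, a p * X p w = ((4 : ℝ) : ℂ) * ((∑ p ∈ R,
            ((y p : ℂ) - b p) * X p w) + Q w + Y w) := by
          simp only [hQ, hY, ha]
          rw [← Finset.sum_add_distrib, ← Finset.sum_add_distrib, Finset.mul_sum]
          refine Finset.sum_congr rfl fun p _ => ?_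
          push_cast
          ring
        rw [this, Complex.re_ofReal_mul, Complex.add_re, Complex.add_re, hL2, hL]
        ring
      have e12 : Real.exp (12 * ‖Y w‖) = Real.exp (6 * ‖Y w‖) ^ 2 := by
        rw [← Real.exp_nat_mul]; congr 1; push_cast; ring
      rw [hL3, Real.exp_add, e12]
      have p3 : 0 < Real.exp ((72 + A ^ 2) * sR R) := Real.exp_pos _
      have eL : Real.exp L2 = Real.exp L * Real.exp (2 * (Q w).re) * Real.exp (2 * (Y w).re) := by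
        rw [hL2, Real.exp_add, Real.exp_add]
      set x1 := Real.exp (6 * ‖Y w‖) with hx1
      have p1 : 0 < Real.exp L2 := Real.exp_pos _
      have p2 : 0 < x1 := Real.exp_pos _
      have b1' : G w ≤ Real.exp L * Real.exp ((72 + A ^ 2) * sR R) := b1
      calc G w * Real.exp (2 * (Q w).re) * (Real.exp (2 * (Y w).re) * x1)
          ≤ (Real.exp L * Real.exp ((72 + A ^ 2) * sR R)) * Real.exp (2 * (Q w).re) *
              (Real.exp (2 * (Y w).re) * x1) := by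
            refine mul_le_mul_of_nonneg_right (mul_le_mul_of_nonneg_right b1' ?_) ?_
            · exact (Real.exp_pos _).le
            · exact mul_nonneg (Real.exp_pos _).le p2.le
        _ = Real.exp ((72 + A ^ 2) * sR R) * (Real.exp L2 * x1) := by rw [eL]; ring
        _ ≤ _ := by
          apply mul_le_mul_of_nonneg_left _ p3.le
          nlinarith [sq_nonneg (Real.exp L2 - x1)]
    have iL := integrable_of_continuous hLc
    have iA := integrable_of_continuous hN12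
    have hint := integral_mono
      (integrable_of_continuous ((hGc.mul hQe).mul (hYe.mul hN6)))
      (((iL.const_mul (1 / 2)).add (iA.const_mul (1 / 2))).const_mul
        (Real.exp ((72 + A ^ 2) * sR R))) hpt
    refine hint.trans ?_
    have hsplit : ∫ w, Real.exp ((72 + A ^ 2) * sR R) *
          (1 / 2 * Real.exp ((∑ p ∈ R, a p * X p w).re) + 1 / 2 * Real.exp (12 * ‖Y w‖)) ∂mu =
        Real.exp ((72 + A ^ 2) * sR R) *
          (1 / 2 * ∫ w, Real.exp ((∑ p ∈ R, a p * X p w).re) ∂mu +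
          1 / 2 * ∫ w, Real.exp (12 * ‖Y w‖) ∂mu) := by
      obtain ⟨j1, s1⟩ := M2_add2 (iL.const_mul (1 / 2)) (iA.const_mul (1 / 2))
      rw [integral_const_mul, s1, integral_const_mul, integral_const_mul]
    refine le_trans (le_of_eq hsplit) ?_
    have hl := UH.lin_exp R a
    have hl2 : ∑ p ∈ R, ‖a p‖ ^ 2 ≤ (4 * (1 + 3 * A)) ^ 2 * sR R := by
      refine M2_sq R hR _ a fun p hp => ?_
      obtain ⟨hpp, h0, h1, h2, h3, h4⟩ := h p hp
      simp only [ha]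
      rw [norm_mul, Complex.norm_ofNat]
      have c1 : ‖(y p : ℂ) - b p + s p + c p‖ ≤ y p + ‖b p‖ + ‖s p‖ + ‖c p‖ := by
        refine (norm_add_le _ _).trans ?_
        have c2 := norm_add_le ((y p : ℂ) - b p) (s p)
        have c3 := norm_sub_le (y p : ℂ) (b p)
        rw [Complex.norm_real, Real.norm_of_nonneg h0] at c3
        linarith
      nlinarith
    have hl3 : ∫ w, Real.exp ((∑ p ∈ R, a p * X p w).re) ∂mu ≤
        Real.exp ((16 * (1 + 3 * A) ^ 2 + 576 * A ^ 2) * sR R) := by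
      refine hl.trans (Real.exp_le_exp.mpr (hl2.trans ?_))
      nlinarith [mul_nonneg (sq_nonneg A) hs0]
    have hm3 : ∫ w, Real.exp (12 * ‖Y w‖) ∂mu ≤
        4 * Real.exp ((16 * (1 + 3 * A) ^ 2 + 576 * A ^ 2) * sR R) := by
      refine (M2_mom R c 12).trans (mul_le_mul_of_nonneg_left (Real.exp_le_exp.mpr ?_)
        (by norm_num))
      have := M2_sq R hR A c fun p hp => (h p hp).2.2.2.2.2
      nlinarith [mul_nonneg (sq_nonneg (1 + 3 * A)) hs0]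
    have he : Real.exp (K * sR R) = Real.exp ((72 + A ^ 2) * sR R) *
        Real.exp ((16 * (1 + 3 * A) ^ 2 + 576 * A ^ 2) * sR R) := by
      rw [← Real.exp_add]; congr 1; rw [hK]; ring
    have p3 : 0 < Real.exp ((72 + A ^ 2) * sR R) := Real.exp_pos _
    rw [he]
    calc Real.exp ((72 + A ^ 2) * sR R) *
          (1 / 2 * ∫ w, Real.exp ((∑ p ∈ R, a p * X p w).re) ∂mu +
          1 / 2 * ∫ w, Real.exp (12 * ‖Y w‖) ∂mu)
        ≤ Real.exp ((72 + A ^ 2) * sR R) *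
          (5 / 2 * Real.exp ((16 * (1 + 3 * A) ^ 2 + 576 * A ^ 2) * sR R)) := by
          apply mul_le_mul_of_nonneg_left _ p3.le
          linarith
      _ = _ := by ring
  -- the sum
  have hfirst : ∫ w, G w * Real.exp (2 * (Q w).re) * Real.exp (2 * (Y w).re) ∂mu ≤
      Real.exp (∑ p ∈ R, ‖(y p : ℂ) - b p + s p + c p‖ ^ 2 +
        C1 * ∑ p ∈ R, (p : ℝ) ^ (-2 : ℝ)) := by
    have e1 : ∀ w, G w * Real.exp (2 * (Q w).re) * Real.exp (2 * (Y w).re) =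
        (∏ p ∈ R, ‖(1 - (y p : ℂ) * X p w)⁻¹‖ ^ 2) * (∏ p ∈ R, ‖1 - b p * X p w‖ ^ 2) *
          Real.exp (2 * (∑ p ∈ R, (s p + c p) * X p w).re) := by
      intro w
      rw [mul_assoc, hcomb w]
    simp_rw [e1]
    refine hmain.trans (le_of_eq ?_)
    congr 2
    exact Finset.sum_congr rfl fun p _ => by rw [← add_assoc]
  have htot : ∫ w, G w * Real.exp (2 * (Q w).re) * ‖Ex l (Y w)‖ ^ 2 ∂mu ≤
      ∫ w, G w * Real.exp (2 * (Q w).re) * Real.exp (2 * (Y w).re) ∂mu + 3 * (2 : ℝ)⁻¹ ^ l *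
        ∫ w, G w * Real.exp (2 * (Q w).re) *
          (Real.exp (2 * (Y w).re) * Real.exp (6 * ‖Y w‖)) ∂mu := by
    have i1 : Integrable (fun w => G w * Real.exp (2 * (Q w).re) *
        Real.exp (2 * (Y w).re)) mu :=
      integrable_of_continuous ((hGc.mul hQe).mul hYe)
    have i2 : Integrable (fun w => 3 * (2 : ℝ)⁻¹ ^ l *
        (G w * Real.exp (2 * (Q w).re) *
          (Real.exp (2 * (Y w).re) * Real.exp (6 * ‖Y w‖)))) mu :=
      integrable_of_continuous (continuous_const.mul ((hGc.mul hQe).mul (hYe.mul hN6)))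
    rw [← integral_const_mul, ← integral_add i1 i2]
    refine integral_mono (integrable_of_continuous ((hGc.mul hQe).mul hXc))
      (integrable_of_continuous (((hGc.mul hQe).mul hYe).add (continuous_const.mul
        ((hGc.mul hQe).mul (hYe.mul hN6))))) fun w => ?_
    have b1 := M2_ex l (Y w)
    have b2 := mul_le_mul_of_nonneg_left b1 (mul_nonneg (hG0 w) (Real.exp_pos (2 * (Q w).re)).le)
    simp only
    linarith
  refine htot.trans ?_
  set q : ℝ := (2 : ℝ)⁻¹ ^ l with hq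
  have hq0 : 0 < q := by positivity
  set S : ℝ := ∑ p ∈ R, ‖(y p : ℂ) - b p + s p + c p‖ ^ 2 with hS
  set V : ℝ := ∑ p ∈ R, (p : ℝ) ^ (-2 : ℝ) with hV
  have hS0 : 0 ≤ S := Finset.sum_nonneg fun p _ => by positivity
  have hV0 : 0 ≤ V := Finset.sum_nonneg fun p _ => Real.rpow_nonneg (Nat.cast_nonneg p) _
  have k1 : Real.exp (S + C1 * V) ≤ Real.exp (S + (C1 + K + 10) * V) := by
    refine Real.exp_le_exp.mpr ?_
    nlinarith [mul_nonneg hK0 hV0]
  have k2 : 1 ≤ Real.exp (S + (C1 + K + 10) * V) := by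
    refine Real.one_le_exp ?_
    have := mul_nonneg (by positivity : (0 : ℝ) ≤ C1 + K + 10) hV0
    linarith
  have k3 : 15 / 2 * Real.exp (K * sR R) ≤
      Real.exp ((C1 + K + 10) * (sR R + 1)) := by
    have c1 : (15 / 2 : ℝ) ≤ Real.exp (10 : ℝ) := by
      have := Real.add_one_le_exp (10 : ℝ)
      linarith
    have c2 : Real.exp ((C1 + K + 10) * (sR R + 1)) =
        Real.exp (10 : ℝ) * Real.exp ((C1 + K + 10) * (sR R + 1) - 10) := by
      rw [← Real.exp_add]; congr 1; ring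
    rw [c2]
    refine mul_le_mul c1 (Real.exp_le_exp.mpr ?_) (Real.exp_pos _).le (Real.exp_pos _).le
    nlinarith [mul_nonneg hC10 hs0, mul_nonneg hK0 hs0]
  set W := Real.exp ((C1 + K + 10) * (sR R + 1)) with hW
  have hW0 : 0 < W := Real.exp_pos _
  set M := Real.exp (S + (C1 + K + 10) * V) with hM
  have k4 : 3 * q * ∫ w, G w * Real.exp (2 * (Q w).re) *
      (Real.exp (2 * (Y w).re) * Real.exp (6 * ‖Y w‖)) ∂mu ≤ q * W := by
    calc 3 * q * ∫ w, G w * Real.exp (2 * (Q w).re) *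
          (Real.exp (2 * (Y w).re) * Real.exp (6 * ‖Y w‖)) ∂mu
        ≤ 3 * q * (5 / 2 * Real.exp (K * sR R)) :=
          mul_le_mul_of_nonneg_left hsec (by positivity)
      _ = q * (15 / 2 * Real.exp (K * sR R)) := by ring
      _ ≤ q * W := mul_le_mul_of_nonneg_left k3 hq0.le
  have k5 : q * W ≤ M * (q * W) := by
    nlinarith [mul_pos hq0 hW0]
  calc ∫ w, G w * Real.exp (2 * (Q w).re) * Real.exp (2 * (Y w).re) ∂mu + 3 * q *
        ∫ w, G w * Real.exp (2 * (Q w).re) *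
          (Real.exp (2 * (Y w).re) * Real.exp (6 * ‖Y w‖)) ∂mu
      ≤ M + M * (q * W) := add_le_add (hfirst.trans k1) (k4.trans k5)
    _ = M * (1 + q * W) := by ring

theorem block5_low (A : ℝ) (hA : 0 ≤ A) : ∃ C : ℝ, 0 ≤ C ∧ ∀ (R : Finset ℕ) (c : ℕ → ℂ) (l : ℕ),
    (∀ p ∈ R, p.Prime ∧ ‖c p‖ ≤ A * (p : ℝ) ^ (-(1 / 2) : ℝ)) →
    Real.exp (∑ p ∈ R, ‖c p‖ ^ 2 - C * ∑ p ∈ R, (p : ℝ) ^ (-2 : ℝ)) *
      (1 - (2 : ℝ)⁻¹ ^ l * Real.exp (C * (sR R + 1))) ≤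
    ∫ w, ‖Ex l (∑ p ∈ R, c p * X p w)‖ ^ 2 ∂mu := by
  refine ⟨A ^ 4 + 72 * A ^ 2 + 8, by positivity, fun R c l h => ?_⟩
  have hR : ∀ p ∈ R, p.Prime := fun p hp => (h p hp).1
  have hs0 : 0 ≤ sR R := Finset.sum_nonneg fun p _ => by positivity
  set C : ℝ := A ^ 4 + 72 * A ^ 2 + 8 with hCd
  have hC0 : 0 ≤ C := by positivity
  set Y : Om → ℂ := fun w => ∑ p ∈ R, c p * X p w with hY
  have hYc : Continuous Y := M2_contS R c
  have hYe : Continuous fun w => Real.exp (2 * (Y w).re) :=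
    Real.continuous_exp.comp (continuous_const.mul (Complex.continuous_re.comp hYc))
  have hN3 : Continuous fun w => Real.exp (3 * ‖Y w‖) :=
    Real.continuous_exp.comp (continuous_const.mul (continuous_norm.comp hYc))
  have hXc : Continuous fun w => ‖Ex l (Y w)‖ ^ 2 :=
    (continuous_norm.comp ((M2_contEx l).comp hYc)).pow 2
  set q : ℝ := (2 : ℝ)⁻¹ ^ l with hq
  have hq0 : 0 < q := by positivity
  -- the main term
  have hmain : Real.exp (∑ p ∈ R, ‖c p‖ ^ 2 - ∑ p ∈ R, ‖c p‖ ^ 4) ≤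
      ∫ w, Real.exp (2 * (Y w).re) ∂mu := by
    have h1 : ∀ w : Om, Real.exp (2 * (Y w).re) =
        ∏ p ∈ R, Real.exp (2 * (c p * (AddCircle.toCircle (w p) : ℂ)).re) := by
      intro w
      simp only [hY]
      rw [← Real.exp_sum, Complex.re_sum, Finset.mul_sum]
      rfl
    simp_rw [h1]
    rw [indep_primes (𝕜 := ℝ) R (fun p x => Real.exp (2 * (c p *
      (AddCircle.toCircle x : ℂ)).re)) (fun p _ => by
        have hm := M2_circ.measurable
        exact Real.measurable_exp.comp (measurable_const.mul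
          (Complex.measurable_re.comp (measurable_const.mul hm))))]
    rw [← Finset.sum_sub_distrib, Real.exp_sum]
    exact Finset.prod_le_prod (fun p _ => (Real.exp_pos _).le) fun p _ => one_prime_low (c p)
  have hc4 : ∑ p ∈ R, ‖c p‖ ^ 4 ≤ A ^ 4 * ∑ p ∈ R, (p : ℝ) ^ (-2 : ℝ) := by
    rw [Finset.mul_sum]
    refine Finset.sum_le_sum fun p hp => ?_
    rw [← (M2_u (hR p hp)).2.2.2, ← mul_pow]
    exact pow_le_pow_left₀ (norm_nonneg _) (h p hp).2 4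
  -- the error term
  have hpt : ∀ w, Real.exp (2 * (Y w).re) - 2 * q * Real.exp (3 * ‖Y w‖) ≤
      ‖Ex l (Y w)‖ ^ 2 := by
    intro w
    have a1 : ‖Ex l (Y w) - cexp (Y w)‖ ≤ q * Real.exp (2 * ‖Y w‖) := norm_Ex_sub_exp l (Y w)
    have a2 := norm_Ex_le l (Y w)
    have a3 : ‖cexp (Y w)‖ ≤ Real.exp ‖Y w‖ := by
      rw [Complex.norm_exp]
      exact Real.exp_le_exp.mpr (Complex.re_le_norm _)
    have a4 : ‖cexp (Y w)‖ ≤ ‖Ex l (Y w)‖ + ‖Ex l (Y w) - cexp (Y w)‖ := by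
      have := norm_sub_le (Ex l (Y w)) (Ex l (Y w) - cexp (Y w))
      rwa [sub_sub_cancel] at this
    have e1 : Real.exp (2 * (Y w).re) = ‖cexp (Y w)‖ ^ 2 := by
      rw [Complex.norm_exp, ← Real.exp_nat_mul]; congr 1
    have e3 : Real.exp (3 * ‖Y w‖) = Real.exp (2 * ‖Y w‖) * Real.exp ‖Y w‖ := by
      rw [← Real.exp_add]; congr 1; ring
    rw [e1, e3]
    set z := Real.exp ‖Y w‖ with hz
    set z2 := Real.exp (2 * ‖Y w‖) with hz2
    have hz0 : 0 < z := Real.exp_pos _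
    have hz20 : 0 < z2 := Real.exp_pos _
    set m := ‖cexp (Y w)‖ with hm
    set n := ‖Ex l (Y w)‖ with hn
    have hm0 : 0 ≤ m := norm_nonneg _
    have hn0 : 0 ≤ n := norm_nonneg _
    have d1 : m - n ≤ q * z2 := by linarith
    have d2 : (m - n) * (m + n) ≤ q * z2 * (2 * z) := by
      rcases le_or_gt (m - n) 0 with h0 | h0
      · have : (m - n) * (m + n) ≤ 0 := mul_nonpos_of_nonpos_of_nonneg h0 (by linarith)
        have p1 : 0 < q * z2 * (2 * z) := by positivity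
        linarith
      · exact mul_le_mul d1 (by linarith) (by linarith) (by positivity)
    nlinarith
  have herr : ∫ w, 2 * q * Real.exp (3 * ‖Y w‖) ∂mu ≤ 8 * q * Real.exp (36 * A ^ 2 * sR R) := by
    rw [integral_const_mul]
    have h1 := M2_mom R c 3
    have h2 := M2_sq R hR A c fun p hp => (h p hp).2
    have h3 : Real.exp (4 * 3 ^ 2 * ∑ p ∈ R, ‖c p‖ ^ 2) ≤ Real.exp (36 * A ^ 2 * sR R) := by
      refine Real.exp_le_exp.mpr ?_
      nlinarith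
    calc 2 * q * ∫ w, Real.exp (3 * ‖Y w‖) ∂mu
        ≤ 2 * q * (4 * Real.exp (36 * A ^ 2 * sR R)) :=
          mul_le_mul_of_nonneg_left (by linarith) (by positivity)
      _ = _ := by ring
  have htot : ∫ w, Real.exp (2 * (Y w).re) ∂mu - ∫ w, 2 * q * Real.exp (3 * ‖Y w‖) ∂mu ≤
      ∫ w, ‖Ex l (Y w)‖ ^ 2 ∂mu := by
    have i1 : Integrable (fun w => Real.exp (2 * (Y w).re)) mu := integrable_of_continuous hYe
    have i2 : Integrable (fun w => 2 * q * Real.exp (3 * ‖Y w‖)) mu :=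
      integrable_of_continuous (continuous_const.mul hN3)
    rw [← integral_sub i1 i2]
    exact integral_mono (i1.sub i2) (integrable_of_continuous hXc) hpt
  set S : ℝ := ∑ p ∈ R, ‖c p‖ ^ 2 with hS
  set V : ℝ := ∑ p ∈ R, (p : ℝ) ^ (-2 : ℝ) with hV
  have hS0 : 0 ≤ S := Finset.sum_nonneg fun p _ => by positivity
  have hV0 : 0 ≤ V := Finset.sum_nonneg fun p _ => Real.rpow_nonneg (Nat.cast_nonneg p) _
  have hVs : V ≤ 1 / 2 * sR R := by
    rw [hV, sR, Finset.mul_sum]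
    refine Finset.sum_le_sum fun p hp => ?_
    have hp2 : (2 : ℝ) ≤ p := by exact_mod_cast (hR p hp).two_le
    have e1 : (p : ℝ) ^ (-2 : ℝ) = 1 / (p : ℝ) * (1 / (p : ℝ)) := by
      rw [Real.rpow_neg (by linarith), Real.rpow_two]
      field_simp
    rw [e1]
    have e2 : 1 / (p : ℝ) ≤ 1 / 2 := one_div_le_one_div_of_le (by norm_num) hp2
    exact mul_le_mul_of_nonneg_right e2 (by positivity)
  have m1 : Real.exp (S - C * V) ≤ ∫ w, Real.exp (2 * (Y w).re) ∂mu := by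
    refine le_trans (Real.exp_le_exp.mpr ?_) hmain
    nlinarith [mul_nonneg (sq_nonneg A) hV0]
  have m2 : 8 * q * Real.exp (36 * A ^ 2 * sR R) ≤
      Real.exp (S - C * V) * (q * Real.exp (C * (sR R + 1))) := by
    have c1 : (8 : ℝ) ≤ Real.exp (8 : ℝ) := by
      have := Real.add_one_le_exp (8 : ℝ)
      linarith
    have c2 : Real.exp (S - C * V) * (q * Real.exp (C * (sR R + 1))) =
        q * (Real.exp (8 : ℝ) * Real.exp (S - C * V + C * (sR R + 1) - 8)) := by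
      rw [← Real.exp_add]
      have : Real.exp (S - C * V) * (q * Real.exp (C * (sR R + 1))) =
        q * (Real.exp (S - C * V) * Real.exp (C * (sR R + 1))) := by ring
      rw [this, ← Real.exp_add]
      congr 2
      ring
    rw [c2]
    have c3 : 8 * q * Real.exp (36 * A ^ 2 * sR R) = q * (8 * Real.exp (36 * A ^ 2 * sR R)) := by
      ring
    rw [c3]
    refine mul_le_mul_of_nonneg_left (mul_le_mul c1 (Real.exp_le_exp.mpr ?_) (Real.exp_pos _).le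
      (Real.exp_pos _).le) hq0.le
    have c4 : C * V ≤ C * (1 / 2 * sR R) := mul_le_mul_of_nonneg_left hVs hC0
    have c5 : 36 * A ^ 2 * sR R ≤ C * (1 / 2 * sR R) := by
      rw [hCd]
      nlinarith [mul_nonneg (by positivity : (0 : ℝ) ≤ A ^ 4) hs0]
    have c6 : 8 ≤ C := by rw [hCd]; nlinarith [sq_nonneg A, sq_nonneg (A ^ 2)]
    nlinarith
  calc Real.exp (S - C * V) * (1 - q * Real.exp (C * (sR R + 1)))
      = Real.exp (S - C * V) - Real.exp (S - C * V) * (q * Real.exp (C * (sR R + 1))) := by ring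
    _ ≤ ∫ w, Real.exp (2 * (Y w).re) ∂mu - ∫ w, 2 * q * Real.exp (3 * ‖Y w‖) ∂mu := by
        linarith
    _ ≤ _ := htot

theorem block5_bad (A κ : ℝ) (hA : 0 ≤ A) (hκ : 0 < κ) : ∃ C : ℝ, 0 ≤ C ∧ ∀ (R : Finset ℕ)
    (c : ℕ → ℂ) (l : ℕ), 1 ≤ l → (∀ p ∈ R, p.Prime ∧ ‖c p‖ ≤ A * (p : ℝ) ^ (-(1 / 2) : ℝ)) →
    ∫ w, ‖Ex l (∑ p ∈ R, c p * X p w)‖ ^ 2 * (κ * ‖PX R 0 w‖ / l) ^ (2 * l) ∂mu ≤
    (2 : ℝ)⁻¹ ^ (2 * l) * Real.exp (C * (sR R + 1)) := by
  refine ⟨64 * A ^ 2 + 1024 * κ ^ 2 + 4, by positivity, fun R c l hl h => ?_⟩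
  have hR : ∀ p ∈ R, p.Prime := fun p hp => (h p hp).1
  have hs0 : 0 ≤ sR R := Finset.sum_nonneg fun p _ => by positivity
  set a : ℕ → ℂ := fun p => (p : ℂ) ^ (-(1 / 2 + (0 : ℂ))) with ha
  have hPX : ∀ w, PX R 0 w = ∑ p ∈ R, a p * X p w := fun w => PX_eq R hR 0 w
  simp_rw [hPX]
  set Y : Om → ℂ := fun w => ∑ p ∈ R, c p * X p w with hY
  set Z : Om → ℂ := fun w => ∑ p ∈ R, a p * X p w with hZ
  have hYc : Continuous Y := M2_contS R c
  have hZc : Continuous Z := M2_contS R a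
  have han : ∀ p ∈ R, ‖a p‖ ≤ 1 * (p : ℝ) ^ (-(1 / 2) : ℝ) := by
    intro p hp
    have hp0 : (0 : ℝ) < p := by exact_mod_cast (hR p hp).pos
    simp only [ha]
    rw [one_mul, Complex.norm_natCast_cpow_of_pos (hR p hp).pos]
    refine le_of_eq ?_
    congr 1
    simp
  have hN4 : Continuous fun w => Real.exp (4 * ‖Y w‖) :=
    Real.continuous_exp.comp (continuous_const.mul (continuous_norm.comp hYc))
  have hN16 : Continuous fun w => Real.exp (16 * κ * ‖Z w‖) :=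
    Real.continuous_exp.comp (continuous_const.mul (continuous_norm.comp hZc))
  have hXc : Continuous fun w => ‖Ex l (Y w)‖ ^ 2 * (κ * ‖Z w‖ / l) ^ (2 * l) :=
    ((continuous_norm.comp ((M2_contEx l).comp hYc)).pow 2).mul
      (((continuous_const.mul (continuous_norm.comp hZc)).div_const _).pow _)
  have hl0 : (0 : ℝ) < l := by exact_mod_cast hl
  set q : ℝ := (2 : ℝ)⁻¹ ^ (2 * l) with hq
  have hq0 : 0 < q := by positivity
  have hpt : ∀ w, ‖Ex l (Y w)‖ ^ 2 * (κ * ‖Z w‖ / l) ^ (2 * l) ≤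
      q * (1 / 2 * Real.exp (4 * ‖Y w‖) + 1 / 2 * Real.exp (16 * κ * ‖Z w‖)) := by
    intro w
    have a2 := norm_Ex_le l (Y w)
    set x := ‖Z w‖ with hx
    have hx0 : 0 ≤ x := norm_nonneg _
    have b1 : (8 * κ * x) ^ (2 * l) / ((2 * l).factorial : ℝ) ≤ Real.exp (8 * κ * x) :=
      Real.pow_div_factorial_le_exp (8 * κ * x) (by positivity) (2 * l)
    have b2 : (8 * κ * x) ^ (2 * l) ≤ Real.exp (8 * κ * x) * (2 * l : ℝ) ^ (2 * l) := by
      rw [div_le_iff₀ (by positivity)] at b1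
      refine b1.trans (mul_le_mul_of_nonneg_left ?_ (Real.exp_pos _).le)
      have := Nat.factorial_le_pow (2 * l)
      calc ((2 * l).factorial : ℝ) ≤ (((2 * l) ^ (2 * l) : ℕ) : ℝ) := by exact_mod_cast this
        _ = _ := by push_cast; ring
    have b3 : (κ * x / l) ^ (2 * l) ≤ q * Real.exp (8 * κ * x) := by
      have e1 : κ * x / l = (8 * κ * x) * ((2 * l : ℝ)⁻¹ * (1 / 4)) := by
        rw [mul_inv]
        ring
      rw [e1, mul_pow (8 * κ * x), mul_pow (2 * l : ℝ)⁻¹]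
      calc (8 * κ * x) ^ (2 * l) * ((2 * l : ℝ)⁻¹ ^ (2 * l) * (1 / 4) ^ (2 * l))
          ≤ (Real.exp (8 * κ * x) * (2 * l : ℝ) ^ (2 * l)) *
              ((2 * l : ℝ)⁻¹ ^ (2 * l) * (1 / 4) ^ (2 * l)) :=
            mul_le_mul_of_nonneg_right b2 (by positivity)
        _ = Real.exp (8 * κ * x) * (1 / 4) ^ (2 * l) := by
            rw [inv_pow]
            field_simp
        _ ≤ Real.exp (8 * κ * x) * q := by
            refine mul_le_mul_of_nonneg_left ?_ (Real.exp_pos _).le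
            rw [hq]
            exact pow_le_pow_left₀ (by norm_num) (by norm_num) _
        _ = q * Real.exp (8 * κ * x) := mul_comm _ _
    have e4 : Real.exp (4 * ‖Y w‖) = (Real.exp ‖Y w‖ ^ 2) ^ 2 := by
      rw [← pow_mul, ← Real.exp_nat_mul]; norm_num
    have e16 : Real.exp (16 * κ * x) = Real.exp (8 * κ * x) ^ 2 := by
      rw [← Real.exp_nat_mul]; congr 1; push_cast; ring
    rw [e4, e16]
    have b4 : ‖Ex l (Y w)‖ ^ 2 ≤ Real.exp ‖Y w‖ ^ 2 := pow_le_pow_left₀ (norm_nonneg _) a2 2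
    set x1 := Real.exp ‖Y w‖ ^ 2 with hx1
    set x2 := Real.exp (8 * κ * x) with hx2
    have p2 : 0 < x2 := Real.exp_pos _
    calc ‖Ex l (Y w)‖ ^ 2 * (κ * x / l) ^ (2 * l) ≤ x1 * (q * x2) :=
          mul_le_mul b4 b3 (by positivity) (by positivity)
      _ = q * (x1 * x2) := by ring
      _ ≤ _ := mul_le_mul_of_nonneg_left (by nlinarith [sq_nonneg (x1 - x2)]) hq0.le
  have iA := integrable_of_continuous hN4
  have iB := integrable_of_continuous hN16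
  refine (integral_mono (integrable_of_continuous hXc)
    (((iA.const_mul (1 / 2)).add (iB.const_mul (1 / 2))).const_mul q) hpt).trans ?_
  have hsplit : ∫ w, q * (1 / 2 * Real.exp (4 * ‖Y w‖) + 1 / 2 * Real.exp (16 * κ * ‖Z w‖)) ∂mu =
      q * (1 / 2 * ∫ w, Real.exp (4 * ‖Y w‖) ∂mu +
        1 / 2 * ∫ w, Real.exp (16 * κ * ‖Z w‖) ∂mu) := by
    obtain ⟨j1, s1⟩ := M2_add2 (iA.const_mul (1 / 2)) (iB.const_mul (1 / 2))
    rw [integral_const_mul, s1, integral_const_mul, integral_const_mul]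
  refine le_trans (le_of_eq hsplit) (mul_le_mul_of_nonneg_left ?_ hq0.le)
  set K : ℝ := 64 * A ^ 2 + 1024 * κ ^ 2 with hK
  have hm1 : ∫ w, Real.exp (4 * ‖Y w‖) ∂mu ≤ 4 * Real.exp (K * sR R) := by
    refine (M2_mom R c 4).trans (mul_le_mul_of_nonneg_left (Real.exp_le_exp.mpr ?_)
      (by norm_num))
    have := M2_sq R hR A c fun p hp => (h p hp).2
    nlinarith [mul_nonneg (sq_nonneg κ) hs0]
  have hm2 : ∫ w, Real.exp (16 * κ * ‖Z w‖) ∂mu ≤ 4 * Real.exp (K * sR R) := by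
    refine (M2_mom R a (16 * κ)).trans (mul_le_mul_of_nonneg_left (Real.exp_le_exp.mpr ?_)
      (by norm_num))
    have h1 := M2_sq R hR 1 a han
    have h2 : 4 * (16 * κ) ^ 2 * ∑ p ∈ R, ‖a p‖ ^ 2 ≤ 4 * (16 * κ) ^ 2 * (1 ^ 2 * sR R) :=
      mul_le_mul_of_nonneg_left h1 (by positivity)
    nlinarith [mul_nonneg (sq_nonneg A) hs0]
  have k3 : 4 * Real.exp (K * sR R) ≤ Real.exp ((K + 4) * (sR R + 1)) := by
    have c1 : (4 : ℝ) ≤ Real.exp (4 : ℝ) := by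
      have := Real.add_one_le_exp (4 : ℝ)
      linarith
    have c2 : Real.exp ((K + 4) * (sR R + 1)) =
        Real.exp (4 : ℝ) * Real.exp ((K + 4) * (sR R + 1) - 4) := by
      rw [← Real.exp_add]; congr 1; ring
    rw [c2]
    have hK0 : 0 ≤ K := by positivity
    refine mul_le_mul c1 (Real.exp_le_exp.mpr ?_) (Real.exp_pos _).le (Real.exp_pos _).le
    nlinarith [mul_nonneg hK0 hs0]
  linarith

end Pool.Agent.LB
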