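import Pool.Agent.Lib.MP_69b2e4_nt.LB.Defs
import Pool.Agent.Lib.MP_69b2e4_nt.GH.SysEx
import Pool.Agent.Lib.MP_69b2e4_nt.Mg.G041

/-! TASK M5. Existence of the block system. COPY UV/S1.lean (`S1_sys` gives `Good (SysEx_S 1 θ T p0) C' c` for every `θ ≤ θ0(C', p0)` and `T ≥ T0(θ)`; take `p0 = 2`, `k = 1`) and GH/SysEx.lean.
The system is `R j = SysEx_S.R j`, `l j = ⌈e^{j/2}/θ²⌉₊`, `N j = exp(θ^5 e^{-j} log T)`, `J = ⌈4 log log log T⌉₊`. `l_ge`: `l_j ≥ 1/θ² ≥ N0` for `θ ≤ θ0`. `trunc`: each `2^{-l_j} exp(C'(s_j+1)) ≤ 1` (`Good`) with `C'` twice `Ct` gives `2^{-l_j} exp(Ct(s_j+1)) ≤ 2^{-l_j/2}` and `∑_j 2^{-l_j/2} ≤ 1` for small `θ` (`SysEx_half`), or use `S1_trunc`.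
`len`: `∑ l_j log N_j ≤ ∑ 2 e^{j/2} θ^{-2} θ^5 e^{-j} log T ≤ 6 θ³ log T`, and `(J+1) Ct ≤ θ³ log T` for `T ≥ T0(θ)`.
`out`: a prime `p < M ≤ T² + 1` with `p ∉ P` has `p ≤ 2` or `θ^5 log T < log p ≤ 2 log T + 1`: the sum of `1/p` is at most `1/2 + log(2 log T/(θ^5 log T)) + C/..  ≤ 5 log(1/θ) + D1` with an absolute `D1` (`mertens_inv`, for `T ≥ T0(θ)` the error term `C/(θ^5 log T)` is `≤ 1`; the blocks cover all primes in `(2, exp(θ^5 log T)]`, see `SysEx_tele` / the definition of `SysEx_S.R`). -/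

set_option autoImplicit false

namespace Pool.Agent.LB

open Complex MeasureTheory Finset Pool.Agent.GH Pool.Agent.UH Pool.Agent.UV
open scoped Real ComplexConjugate

private lemma M5_sys (k C : ℝ) (p0 : ℕ) (hk : 0 < k) (hC : 0 ≤ C) (hp0 : 2 ≤ p0) :
    ∃ θ0 : ℝ, 0 < θ0 ∧ ∀ θ : ℝ, 0 < θ → θ ≤ θ0 → ∃ c T0 : ℝ, 0 < c ∧ ∀ T : ℝ, T0 ≤ T →
      Good (SysEx_S k θ T p0) C c := by
  obtain ⟨C1, hC1, hm1⟩ := mertens_inv
  obtain ⟨C2, hC2, hm2⟩ := mertens_log
  have hlp0 : 0 < Real.log p0 := Real.log_pos (by exact_mod_cast (by omega : 1 < p0))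
  have hlog2 : 0 < Real.log 2 := Real.log_pos (by norm_num)
  set C' : ℝ := max C1 C2 with hC'
  have hC'0 : 0 ≤ C' := hC1.trans (le_max_left _ _)
  have hm : ∀ y z : ℕ, 2 ≤ y → y ≤ z →
      |∑ p ∈ (Finset.Ioc y z).filter Nat.Prime, 1 / (p : ℝ) -
        Real.log (Real.log z / Real.log y)| ≤ C' / Real.log y := by
    intro y z hy hz
    refine (hm1 y z hy hz).trans ?_
    have : 0 < Real.log y := Real.log_pos (by exact_mod_cast (by omega : 1 < y))
    exact div_le_div_of_nonneg_right (le_max_left _ _) this.le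
  have hml : ∀ y z : ℕ, 1 ≤ y → y ≤ z →
      |∑ p ∈ (Finset.Ioc y z).filter Nat.Prime, Real.log p / p -
        (Real.log z - Real.log y)| ≤ C' := fun y z hy hz =>
    (hm2 y z hy hz).trans (le_max_right _ _)
  refine ⟨min (1 / 100) (min (1 / (30 * (k + 1))) (min (Real.exp (-(3 * C)) / 20)
    (1 / (2000 * (11 * C + 1)) ^ 2))), ?_, ?_⟩
  · refine lt_min (by norm_num) (lt_min (by positivity) (lt_min (by positivity) (by positivity)))
  intro θ hθ hθ0
  have h1 : θ ≤ 1 / 100 := hθ0.trans (min_le_left _ _)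
  have h2' : θ ≤ 1 / (30 * (k + 1)) := (hθ0.trans (min_le_right _ _)).trans (min_le_left _ _)
  have h3' : θ ≤ Real.exp (-(3 * C)) / 20 :=
    ((hθ0.trans (min_le_right _ _)).trans (min_le_right _ _)).trans (min_le_left _ _)
  have h4 : θ ≤ 1 / (2000 * (11 * C + 1)) ^ 2 :=
    ((hθ0.trans (min_le_right _ _)).trans (min_le_right _ _)).trans (min_le_right _ _)
  have h2 : 800 * (k + 1) ^ 2 * θ ^ 2 ≤ 1 := by
    rw [le_div_iff₀ (by positivity)] at h2'
    have h5 : (θ * (30 * (k + 1))) ^ 2 ≤ 1 := pow_le_one₀ (by positivity) h2'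
    have h6 : 0 ≤ (k + 1) ^ 2 * θ ^ 2 := by positivity
    nlinarith
  have h3 : θ ^ 2 ≤ Real.exp (-(3 * C)) / 20 := by
    have : θ ^ 2 ≤ θ := by nlinarith
    linarith
  set D : ℝ := |Real.log (Real.log p0)| + C' / Real.log p0 with hD
  have hD0 : 0 ≤ D := by positivity
  set K : ℝ := 2 * Real.log 2 + 20 * C' + Real.log p0 with hK
  have hK0 : 0 < K := by positivity
  set X0 : ℝ := 1 + 2 * (C + 1) + |C * (D + 1) + Real.log (2 / θ ^ 2)| + D + 800 * (k + 1) ^ 2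
    with hX0
  set ε : ℝ := min (θ ^ 5 / (3 * K)) (1 / (48000 * (k + 10))) with hε
  have hε0 : 0 < ε := lt_min (by positivity) (by positivity)
  have hev1 : ∀ᶠ T : ℝ in Filter.atTop, X0 ≤ Real.log (Real.log T) :=
    (Real.tendsto_log_atTop.comp Real.tendsto_log_atTop).eventually_ge_atTop X0
  have hev2 : ∀ᶠ T : ℝ in Filter.atTop, 1 / θ ^ 10 ≤ Real.log T :=
    Real.tendsto_log_atTop.eventually_ge_atTop _
  have hev3 : ∀ᶠ T : ℝ in Filter.atTop, ‖Real.log (Real.log T) ^ 4‖ ≤ ε * ‖id (Real.log T)‖ :=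
    Real.tendsto_log_atTop.eventually
      ((Real.isLittleO_pow_log_id_atTop (n := 4)).bound hε0)
  obtain ⟨T0, hT0⟩ := Filter.eventually_atTop.1
    ((hev1.and hev2).and (hev3.and (Filter.eventually_ge_atTop (1 : ℝ))))
  refine ⟨_, T0, Real.exp_pos
    (-(k ^ 2 * (Real.log (2 * Real.log p0 / θ ^ 5) + C' / Real.log p0))), ?_⟩
  intro T hT
  obtain ⟨⟨ha, hb⟩, hc, hd⟩ := hT0 T hT
  have hL0 : 0 < Real.log T := lt_of_lt_of_le (by positivity) hb
  have hab := neg_abs_le (C * (D + 1) + Real.log (2 / θ ^ 2))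
  have hab' := le_abs_self (C * (D + 1) + Real.log (2 / θ ^ 2))
  have habn := abs_nonneg (C * (D + 1) + Real.log (2 / θ ^ 2))
  have hk8 : 0 ≤ 800 * (k + 1) ^ 2 := by positivity
  have hX1 : 1 ≤ Real.log (Real.log T) := by linarith
  have hc' : Real.log (Real.log T) ^ 4 ≤ ε * Real.log T := by
    rw [Real.norm_of_nonneg (by positivity), id, Real.norm_of_nonneg hL0.le] at hc
    exact hc
  refine SysEx_main k C C' D K (Real.log (Real.log T)) θ T p0 hk hC hC'0 hp0 hm hml hθ h1 h2 h3 h4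
    hD (by linarith) (by linarith) (by linarith) rfl hX1 (by linarith) (by linarith) (by linarith)
    (by linarith) hd hb ?_ ?_
  · have h5 : ε ≤ θ ^ 5 / (3 * K) := min_le_left _ _
    have h6 : Real.log (Real.log T) ^ 4 ≤ θ ^ 5 / (3 * K) * Real.log T :=
      hc'.trans (mul_le_mul_of_nonneg_right h5 hL0.le)
    calc 3 * K * Real.log (Real.log T) ^ 4 ≤ 3 * K * (θ ^ 5 / (3 * K) * Real.log T) :=
          mul_le_mul_of_nonneg_left h6 (by positivity)
      _ = θ ^ 5 * Real.log T := by field_simp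
  · have h5 : ε ≤ 1 / (48000 * (k + 10)) := min_le_right _ _
    have h6 : Real.log (Real.log T) ^ 4 ≤ 1 / (48000 * (k + 10)) * Real.log T :=
      hc'.trans (mul_le_mul_of_nonneg_right h5 hL0.le)
    calc 48000 * (k + 10) * Real.log (Real.log T) ^ 4 ≤
        48000 * (k + 10) * (1 / (48000 * (k + 10)) * Real.log T) :=
          mul_le_mul_of_nonneg_left h6 (by positivity)
      _ = Real.log T := by field_simp

private lemma M5_log_ge {x : ℝ} (hx : 2 * Real.log 2 ≤ x) :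
    x / 2 ≤ Real.log (⌊Real.exp x⌋₊ : ℝ) := by
  have h2 : 0 < Real.log 2 := Real.log_pos (by norm_num)
  have h1 : Real.exp x / 2 ≤ (⌊Real.exp x⌋₊ : ℝ) := by
    have h3 : Real.exp x < (⌊Real.exp x⌋₊ : ℝ) + 1 := Nat.lt_floor_add_one _
    have h4 : (2 : ℝ) ≤ Real.exp x := by
      rw [← Real.log_le_iff_le_exp (by norm_num)]; linarith
    linarith
  have h5 : Real.log (Real.exp x / 2) ≤ Real.log (⌊Real.exp x⌋₊ : ℝ) :=
    Real.log_le_log (by positivity) h1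
  rw [Real.log_div (Real.exp_pos x).ne' (by norm_num), Real.log_exp] at h5
  linarith

/-- The length of the system. -/
private lemma M5_len {θ T X c : ℝ} (hc : 0 ≤ c) (hθ : 0 < θ) (h1 : θ ≤ 1) (hX : X = Real.log (Real.log T))
    (hX1 : 1 ≤ X) (hLp : 0 < Real.log T) :
    ∑ j ∈ range (SysEx_J T + 1), ((((SysEx_S 1 θ T 2).l j : ℕ) : ℝ) *
      Real.log ((SysEx_S 1 θ T 2).N j) + c) ≤ 6 * θ ^ 3 * Real.log T + 6 * c * X ^ 4 := by
  have hterm : ∀ j ∈ range (SysEx_J T + 1),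
      ((((SysEx_S 1 θ T 2).l j : ℕ) : ℝ) * Real.log ((SysEx_S 1 θ T 2).N j) + c) ≤
      2 * θ ^ 3 * Real.log T * (2 / 3) ^ j + c := by
    intro j hj
    have hN : Real.log ((SysEx_S 1 θ T 2).N j) = SysEx_x θ T j := Real.log_exp _
    rw [hN]
    have hl : (((SysEx_S 1 θ T 2).l j : ℕ) : ℝ) ≤ Real.exp ((j : ℝ) / 2) / θ ^ 2 + 1 :=
      (Nat.ceil_lt_add_one (by positivity)).le
    have hl' : Real.exp ((j : ℝ) / 2) / θ ^ 2 + 1 ≤ 2 * (Real.exp ((j : ℝ) / 2) / θ ^ 2) := by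
      have : 1 ≤ Real.exp ((j : ℝ) / 2) / θ ^ 2 := by
        rw [le_div_iff₀ (by positivity)]
        have h5 : 1 ≤ Real.exp ((j : ℝ) / 2) := Real.one_le_exp (by positivity)
        have h6 : θ ^ 2 ≤ 1 := pow_le_one₀ hθ.le (by linarith)
        linarith
      linarith
    have hxp : 0 ≤ SysEx_x θ T j := by unfold SysEx_x; positivity
    have h5 : (((SysEx_S 1 θ T 2).l j : ℕ) : ℝ) * SysEx_x θ T j ≤
        2 * (Real.exp ((j : ℝ) / 2) / θ ^ 2) * SysEx_x θ T j :=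
      mul_le_mul_of_nonneg_right (hl.trans hl') hxp
    have h6 : 2 * (Real.exp ((j : ℝ) / 2) / θ ^ 2) * SysEx_x θ T j =
        2 * θ ^ 3 * Real.log T * Real.exp (-(j : ℝ) / 2) := by
      unfold SysEx_x
      have h7 : Real.exp (-(j : ℝ) / 2) = Real.exp ((j : ℝ) / 2) * Real.exp (-(j : ℝ)) := by
        rw [← Real.exp_add]; ring_nf
      rw [h7]
      field_simp
    have h8 : Real.exp (-(j : ℝ) / 2) ≤ (2 / 3) ^ j := by
      have h9 : Real.exp (-(j : ℝ) / 2) = (Real.exp (-(1 / 2))) ^ j := by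
        rw [← Real.exp_nat_mul]; ring_nf
      rw [h9]
      apply pow_le_pow_left₀ (Real.exp_pos _).le
      rw [Real.exp_neg]
      have h10 : (3 / 2 : ℝ) ≤ Real.exp (1 / 2) := by
        have := Real.add_one_le_exp (1 / 2 : ℝ); linarith
      calc (Real.exp (1 / 2))⁻¹ ≤ (3 / 2 : ℝ)⁻¹ := inv_anti₀ (by norm_num) h10
        _ = 2 / 3 := by norm_num
    have h11 : 2 * θ ^ 3 * Real.log T * Real.exp (-(j : ℝ) / 2) ≤
        2 * θ ^ 3 * Real.log T * (2 / 3) ^ j := mul_le_mul_of_nonneg_left h8 (by positivity)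
    linarith
  have hsum := sum_le_sum hterm
  have hrhs : ∑ j ∈ range (SysEx_J T + 1), (2 * θ ^ 3 * Real.log T * (2 / 3) ^ j + c) =
      2 * θ ^ 3 * Real.log T * ∑ j ∈ range (SysEx_J T + 1), (2 / 3 : ℝ) ^ j +
        ((SysEx_J T + 1 : ℕ) : ℝ) * c := by
    rw [sum_add_distrib, ← mul_sum, sum_const, card_range, nsmul_eq_mul]
  rw [hrhs] at hsum
  have hg' : ∑ j ∈ range (SysEx_J T + 1), (2 / 3 : ℝ) ^ j ≤ 3 := by
    calc ∑ j ∈ range (SysEx_J T + 1), (2 / 3 : ℝ) ^ j ≤ ∑' j : ℕ, (2 / 3 : ℝ) ^ j :=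
          (summable_geometric_of_lt_one (by norm_num) (by norm_num)).sum_le_tsum _
            (fun i _ => pow_nonneg (by norm_num) i)
      _ = (1 - (2 / 3 : ℝ))⁻¹ := tsum_geometric_of_lt_one (by norm_num) (by norm_num)
      _ = 3 := by norm_num
  have h12 : 2 * θ ^ 3 * Real.log T * ∑ j ∈ range (SysEx_J T + 1), (2 / 3 : ℝ) ^ j ≤
      2 * θ ^ 3 * Real.log T * 3 := mul_le_mul_of_nonneg_left hg' (by positivity)
  have h14 : ((SysEx_J T : ℕ) : ℝ) ≤ 4 * Real.log X + 1 := by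
    unfold SysEx_J
    rw [← hX]
    exact (Nat.ceil_lt_add_one (by have := Real.log_nonneg hX1; linarith)).le
  have h15 : Real.log X ≤ X - 1 := Real.log_le_sub_one_of_pos (by linarith)
  have h17 : (((SysEx_J T + 1 : ℕ)) : ℝ) ≤ 6 * X ^ 4 := by
    push_cast
    have h18 : X ≤ X ^ 4 := le_self_pow₀ hX1 (by norm_num)
    linarith
  have hX4 : 0 ≤ X ^ 4 := by positivity
  have h20 : ((SysEx_J T + 1 : ℕ) : ℝ) * c ≤ 6 * X ^ 4 * c := mul_le_mul_of_nonneg_right h17 hc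
  linarith

theorem tg_exists (Ct : ℝ) (N0 : ℕ) (hC : 10 ≤ Ct) : ∃ D1 θ0 : ℝ, 0 ≤ D1 ∧ 0 < θ0 ∧
    ∀ θ : ℝ, 0 < θ → θ ≤ θ0 → ∃ T0 : ℝ, ∀ T : ℝ, T0 ≤ T →
      ∃ S : BS, S.T = T ∧ TG S Ct θ D1 N0 := by
  have hlog2 : 0 < Real.log 2 := Real.log_pos (by norm_num)
  have hC0 : 0 ≤ Ct := by linarith
  obtain ⟨C2, hC2, hm⟩ := mertens_inv
  obtain ⟨θ0, hθ0, hsys⟩ := M5_sys 1 Ct 2 one_pos hC0 le_rfl
  have hlog4 : 0 ≤ Real.log 4 := Real.log_nonneg (by norm_num)
  refine ⟨1 / 2 + Real.log 4 + C2 / Real.log 2, min θ0 (min (1 / (N0 + 1)) (1 / 100)),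
    by positivity, lt_min hθ0 (lt_min (by positivity) (by norm_num)), ?_⟩
  intro θ hθ hθle
  have t0 : θ ≤ θ0 := hθle.trans (min_le_left _ _)
  have t1 : θ ≤ 1 / (N0 + 1) := hθle.trans ((min_le_right _ _).trans (min_le_left _ _))
  have t5 : θ ≤ 1 / 100 := hθle.trans ((min_le_right _ _).trans (min_le_right _ _))
  have hθ1 : θ ≤ 1 := by linarith
  have hθsq : θ ^ 2 ≤ θ := by nlinarith
  obtain ⟨c, T0, hc, hgood⟩ := hsys θ hθ t0
  have hθ5 : 0 < θ ^ 5 := by positivity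
  have hθ5' : θ ^ 5 ≤ θ := by
    calc θ ^ 5 = θ ^ 4 * θ := by ring
      _ ≤ 1 * θ := by
        refine mul_le_mul_of_nonneg_right ?_ hθ.le
        exact pow_le_one₀ hθ.le hθ1
      _ = θ := one_mul θ
  have hev1 : ∀ᶠ T : ℝ in Filter.atTop, 1 ≤ Real.log (Real.log T) :=
    (Real.tendsto_log_atTop.comp Real.tendsto_log_atTop).eventually_ge_atTop 1
  have hev3 : ∀ᶠ T : ℝ in Filter.atTop,
      ‖Real.log (Real.log T) ^ 4‖ ≤ (θ ^ 3 / (6 * Ct)) * ‖id (Real.log T)‖ :=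
    Real.tendsto_log_atTop.eventually
      ((Real.isLittleO_pow_log_id_atTop (n := 4)).bound (by positivity))
  obtain ⟨T1, hT1⟩ := Filter.eventually_atTop.1 (hev1.and hev3)
  refine ⟨max (max T0 (Real.exp 1000)) T1, fun T hT' => ?_⟩
  have hT : max T0 (Real.exp 1000) ≤ T := (le_max_left _ _).trans hT'
  obtain ⟨hXone, hXsmall⟩ := hT1 T ((le_max_right _ _).trans hT')
  have hG := hgood T ((le_max_left _ _).trans hT)
  have hTe : Real.exp 1000 ≤ T := (le_max_right _ _).trans hT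
  have hTpos : 0 < T := lt_of_lt_of_le (Real.exp_pos 1000) hTe
  set S' : Sys := SysEx_S 1 θ T 2 with hS'
  have hL1 : 1 / θ ^ 10 ≤ Real.log T := hG.L_ge
  have hL0 : 0 < Real.log T := lt_of_lt_of_le (by positivity) hL1
  have hθL : 2 * Real.log 2 ≤ θ ^ 5 * Real.log T := by
    have h2 : (100 : ℝ) ≤ 1 / θ ^ 5 := by
      rw [le_div_iff₀ hθ5]
      linarith
    have h4 : 1 / θ ^ 5 ≤ θ ^ 5 * Real.log T := by
      have h5 := mul_le_mul_of_nonneg_left hL1 hθ5.le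
      have h6 : θ ^ 5 * (1 / θ ^ 10) = 1 / θ ^ 5 := by field_simp
      rwa [h6] at h5
    have := Real.log_two_lt_d9
    linarith
  have hlj : ∀ j : ℕ, 1 / θ ≤ (S'.l j : ℝ) := by
    intro j
    change _ ≤ ((⌈Real.exp ((j : ℝ) / 2) / θ ^ 2⌉₊ : ℕ) : ℝ)
    refine le_trans ?_ (Nat.le_ceil _)
    rw [div_le_div_iff₀ hθ (by positivity)]
    have h1 : 1 ≤ Real.exp ((j : ℝ) / 2) := Real.one_le_exp (by positivity)
    nlinarith
  refine ⟨⟨T, S'.J, S'.R, S'.l, S'.N⟩, rfl, ?_⟩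
  refine ⟨hC, hθ, t5, by positivity, hTe, ?_, hG.disj, hG.N_ge, ?_, ?_, ?_, ?_, ?_⟩
  · -- prime
    intro j hj p hp
    obtain ⟨hp1, hp2, hp3, hp4⟩ := hG.prime j hj p hp
    exact ⟨hp1, hp4⟩
  · -- N_le
    intro j _
    change Real.log (Real.exp (SysEx_x θ T j)) ≤ θ ^ 5 * Real.log T
    rw [Real.log_exp]
    unfold SysEx_x
    have h1 : Real.exp (-(j : ℝ)) ≤ 1 := Real.exp_le_one_iff.mpr (by
      have : (0 : ℝ) ≤ j := Nat.cast_nonneg j
      linarith)
    have h2 : θ ^ 5 * Real.exp (-(j : ℝ)) ≤ θ ^ 5 * 1 := mul_le_mul_of_nonneg_left h1 hθ5.le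
    have h3 := mul_le_mul_of_nonneg_right h2 hL0.le
    linarith
  · -- l_ge
    intro j hj
    refine ⟨?_, hG.l_ge j hj⟩
    have h2 : (N0 : ℝ) ≤ S'.l j := by
      refine le_trans ?_ (hlj j)
      rw [le_div_iff₀ hθ]
      rw [le_div_iff₀ (by positivity)] at t1
      nlinarith
    exact_mod_cast h2
  · -- trunc
    have h2 := hG.trunc
    have h4 : S'.θ ^ 2 ≤ 1 := by
      change θ ^ 2 ≤ 1
      linarith
    exact h2.trans h4
  · -- len
    have hlen := M5_len (X := Real.log (Real.log T)) hC0 hθ hθ1 rfl hXone hL0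
    change ∑ j ∈ range (SysEx_J T + 1), ((((SysEx_S 1 θ T 2).l j : ℕ) : ℝ) *
      Real.log ((SysEx_S 1 θ T 2).N j) + Ct) ≤ 7 * θ ^ 3 * Real.log T
    refine hlen.trans ?_
    rw [Real.norm_of_nonneg (by positivity), id, Real.norm_of_nonneg hL0.le] at hXsmall
    have h1 : 6 * Ct * Real.log (Real.log T) ^ 4 ≤
        6 * Ct * (θ ^ 3 / (6 * Ct) * Real.log T) :=
      mul_le_mul_of_nonneg_left hXsmall (by positivity)
    have h2 : 6 * Ct * (θ ^ 3 / (6 * Ct) * Real.log T) = θ ^ 3 * Real.log T := by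
      field_simp
    linarith
  · -- out
    intro M hM
    change (M : ℝ) ≤ T ^ 2 at hM
    set n0 : ℕ := ⌊Real.exp (θ ^ 5 * Real.log T)⌋₊ with hn0
    set z : ℕ := ⌊T ^ 2⌋₊ with hz
    have hMz : M ≤ z := Nat.le_floor hM
    have hn0log : θ ^ 5 * Real.log T / 2 ≤ Real.log (n0 : ℝ) := M5_log_ge hθL
    have hn02 : 2 ≤ n0 := by
      rw [hn0, Nat.le_floor_iff (Real.exp_pos _).le, ← Real.log_le_iff_le_exp (by norm_num)]
      push_cast
      linarith
    have hn0z : n0 ≤ z := by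
      apply Nat.floor_mono
      have h1 : Real.exp (Real.log T) = T := Real.exp_log hTpos
      have h2 : Real.exp (θ ^ 5 * Real.log T) ≤ Real.exp (Real.log T) := by
        apply Real.exp_le_exp.2
        have := mul_le_mul_of_nonneg_right (hθ5'.trans hθ1) hL0.le
        linarith
      have h3 : 1 ≤ T := by
        have := Real.one_le_exp (show (0 : ℝ) ≤ 1000 by norm_num)
        linarith
      rw [h1] at h2
      nlinarith
    have hsub : Nat.primesBelow M \ (range (S'.J + 1)).biUnion S'.R ⊆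
        insert 2 ((Finset.Ioc n0 z).filter Nat.Prime) := by
      intro p hp
      rw [mem_sdiff] at hp
      obtain ⟨hp1, hp2⟩ := hp
      rw [Nat.mem_primesBelow] at hp1
      obtain ⟨hp1, hpp⟩ := hp1
      rw [mem_insert]
      by_cases hp2' : p = 2
      · exact Or.inl hp2'
      right
      rw [mem_filter, mem_Ioc]
      have h2p : 2 < p := lt_of_le_of_ne hpp.two_le (Ne.symm hp2')
      refine ⟨⟨?_, by omega⟩, hpp⟩
      by_contra hlt
      rw [not_lt, hn0, Nat.le_floor_iff (Real.exp_pos _).le,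
        ← Real.log_le_iff_le_exp (by exact_mod_cast hpp.pos)] at hlt
      obtain ⟨j, hj, hpj⟩ := hG.cover p hpp h2p hlt
      exact hp2 (mem_biUnion.2 ⟨j, mem_range.2 (Nat.lt_succ_of_le hj), hpj⟩)
    have h5 := (abs_le.1 (hm n0 z hn02 hn0z)).2
    have h6 : ∑ p ∈ Nat.primesBelow M \ (range (S'.J + 1)).biUnion S'.R, 1 / (p : ℝ) ≤
        ∑ p ∈ insert 2 ((Finset.Ioc n0 z).filter Nat.Prime), 1 / (p : ℝ) :=
      sum_le_sum_of_subset_of_nonneg hsub fun p _ _ => by positivity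
    have h7 : ∑ p ∈ insert 2 ((Finset.Ioc n0 z).filter Nat.Prime), 1 / (p : ℝ) ≤
        1 / 2 + ∑ p ∈ (Finset.Ioc n0 z).filter Nat.Prime, 1 / (p : ℝ) := by
      rw [sum_insert]
      · norm_num
      · rw [mem_filter, mem_Ioc]
        omega
    have hn0pos : 0 < Real.log (n0 : ℝ) := by
      have : 0 < θ ^ 5 * Real.log T / 2 := by positivity
      linarith
    have hzlog : Real.log (z : ℝ) ≤ 2 * Real.log T := by
      have hz1 : 0 < z := by omega
      have h8 : (z : ℝ) ≤ T ^ 2 := Nat.floor_le (by positivity)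
      have h9 := Real.log_le_log (by exact_mod_cast hz1) h8
      rw [Real.log_pow] at h9
      push_cast at h9
      linarith
    have hzpos : 0 < Real.log (z : ℝ) := Real.log_pos (by exact_mod_cast (by omega : 1 < z))
    have h8 : Real.log (Real.log z / Real.log n0) ≤ Real.log 4 + 5 * Real.log (1 / θ) := by
      have e0 : Real.log 4 + 5 * Real.log (1 / θ) = Real.log (4 / θ ^ 5) := by
        rw [Real.log_div (by norm_num) hθ5.ne', Real.log_pow, one_div, Real.log_inv]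
        push_cast
        ring
      rw [e0]
      apply Real.log_le_log (by positivity)
      rw [div_le_div_iff₀ hn0pos (by positivity)]
      have e1 : Real.log (z : ℝ) * θ ^ 5 ≤ 2 * Real.log T * θ ^ 5 :=
        mul_le_mul_of_nonneg_right hzlog (by positivity)
      linarith
    have h9 : C2 / Real.log n0 ≤ C2 / Real.log 2 := by
      apply div_le_div_of_nonneg_left hC2 hlog2
      linarith
    change ∑ p ∈ Nat.primesBelow M \ (range (S'.J + 1)).biUnion S'.R, 1 / (p : ℝ) ≤ _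
    linarith

end Pool.Agent.LB
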