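import Pool.Agent.Lib.MP_69b2e4_nt.LB.E5
import Pool.Agent.Lib.MP_69b2e4_nt.Mg.G023

/-! TASK Z1. The two area terms of `window`, averaged over the good set. `Dθ = D1 + 5 log(1/θ) ≥ 0`.
`avg_Lh`: `Lh_int` with `Φ = ENNReal.ofReal |log ‖Gz S δ t ·‖|` for each `t` (`Gz_meas`), then `area_bound`: band `≤ K W`, `x ≤ 3B`: `≤ K(1 + log (3B)) W`, `x ≤ W`: `≤ K(1+log W) W` (`QW W = {-R0 ≤ x ≤ W, |y| ≤ W}`, `R0 = 6/5`): total `≤ C(W/B + B(1+log 3B)/W + (1 + log W)/W) ≤ C'(W/B + B²/W + 1)`.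
`avg_Lp`: `|Lp| ≤ C/W²`. For `t ∈ EE`, `0 ≤ x ≤ W`, `q = e^{x0}`, at points with `G ≠ 0` (then `V_δ ≠ 0`, `M ≠ 0`): `|V_δ| q^{-2} = |G|/(|M|²q²)` gives `-log(|V_δ| q^{-2}) ≤ |log|G|| + log(1 + |M|²q²)`; `|V_δ| ≤ |V|² + δ²q²|ch|`, `δ²|ch| ≤ 30 δ0² ≤ 1` (`ch_pt`) gives `log(|V_δ|q^{-2}) ≤ log(1 + |V|²q^{-2})`. So `|log|V_δ| - 2x0| ≤ |log|G|| + log(1+|M|²q²) + log(1+|V|²q^{-2})` outside the zeros of `G(t, ·)`, which form a null set in `z` (`G(t,·)` is analytic on the connected set `{-R0 - 1 < x < 15L, |y| < L²}` and not identically zero by `far_good`, `Gz_an`).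
 `∫∫ |log|G||`: `area_bound` with `X = W`: `≤ K(1+log W) W T Lam ≤ K W² T Lam`. The other two: for each `z` Jensen for the concave function `log(1+x)` (tangent line argument as in E1; total mass `≤ m' = K T Lam`, `TMass`): `∫ log(1+X) uu ≤ m' log(1 + ∫ X uu/m')`, and `∫ X uu ≤ K e^{Dθ} (1+2W)^k T Lam` (`XB2`, `XB3` with `w = W`), so `≤ C(1 + Dθ + log W) T Lam`; area `2W²`. (Tonelli; `Gz_meas`, `uu_continuous`, `x0_continuous`.) -/

set_option autoImplicit false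

namespace Pool.Agent.LB

open Complex MeasureTheory Finset Pool.Agent.GH Pool.Agent.UH Pool.Agent.UV
open scoped Real ComplexConjugate

/-- a rectangle -/
private def Z1_S (a b W : ℝ) : Set ℂ := {z : ℂ | a ≤ z.re ∧ z.re ≤ b ∧ |z.im| ≤ W}

private lemma Z1_S_eq (a b W : ℝ) :
    Z1_S a b W = Complex.measurableEquivRealProd ⁻¹' (Set.Icc a b ×ˢ Set.Icc (-W) W) := by
  ext z
  simp only [Z1_S, Set.mem_ofPred_eq, Set.mem_preimage, Set.mem_prod, Set.mem_Icc,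
    Complex.measurableEquivRealProd_apply, abs_le]
  tauto

private lemma Z1_S_meas (a b W : ℝ) : MeasurableSet (Z1_S a b W) := by
  rw [Z1_S_eq]
  exact Complex.measurableEquivRealProd.measurable (measurableSet_Icc.prod measurableSet_Icc)

private lemma Z1_S_conv (a b W : ℝ) : Convex ℝ (Z1_S a b W) := by
  have h1 : Z1_S a b W = ({z : ℂ | a ≤ z.re} ∩ {z : ℂ | z.re ≤ b}) ∩
      ({z : ℂ | -W ≤ z.im} ∩ {z : ℂ | z.im ≤ W}) := by
    ext z
    simp only [Z1_S, Set.mem_ofPred_eq, Set.mem_inter_iff, abs_le]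
    tauto
  rw [h1]
  exact ((convex_halfSpace_re_ge a).inter (convex_halfSpace_re_le b)).inter
    ((convex_halfSpace_im_ge (-W)).inter (convex_halfSpace_im_le W))

private lemma Z1_S_vol {W : ℝ} (hW : 0 ≤ W) :
    volume (Z1_S 0 W W) = ENNReal.ofReal (2 * W ^ 2) := by
  rw [Z1_S_eq, Complex.volume_preserving_equiv_real_prod.measure_preimage
    (measurableSet_Icc.prod measurableSet_Icc).nullMeasurableSet, Measure.volume_eq_prod,
    Measure.prod_prod, Real.volume_Icc, Real.volume_Icc, ← ENNReal.ofReal_mul (by linarith)]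
  congr 1
  ring

private lemma Z1_ae {f : ℂ → ℂ} {a b W : ℝ} (hf : AnalyticOnNhd ℂ f (Z1_S a b W))
    (h : ∃ z ∈ Z1_S a b W, f z ≠ 0) : ∀ᵐ z ∂(volume.restrict (Z1_S a b W)), f z ≠ 0 := by
  obtain ⟨z, hz, hfz⟩ := h
  have h1 := hf.preimage_zero_mem_codiscreteWithin hfz hz
    ⟨⟨z, hz⟩, (Z1_S_conv a b W).isPreconnected⟩
  exact ae_restrict_le_codiscreteWithin (Z1_S_meas a b W) h1

private lemma Z1_pull {E : Set ℝ} {A : Set ℂ} {f : ℝ × ℂ → ℝ} {u : ℝ → ℝ} (hf : Measurable f)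
    (h0 : ∀ q, 0 ≤ f q) :
    ∫⁻ t in E, (∫⁻ z in A, ENNReal.ofReal (f (t, z))) * ENNReal.ofReal (u t) =
      ∫⁻ t in E, ∫⁻ z in A, ENNReal.ofReal (f (t, z) * u t) := by
  refine lintegral_congr fun t => ?_
  have hm : Measurable fun z => ENNReal.ofReal (f (t, z)) :=
    (hf.comp measurable_prodMk_left).ennreal_ofReal
  rw [← lintegral_mul_const _ hm]
  refine lintegral_congr fun z => ?_
  rw [ENNReal.ofReal_mul (h0 _)]

private lemma Z1_sum3 {α : Type} [MeasureSpace α] {E : Set α} {f g h : α → ENNReal}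
    {a b c : ENNReal} (hf : Measurable f) (hg : Measurable g) (hh : Measurable h) :
    ∫⁻ t in E, (a * f t + b * g t + c * h t) =
      a * (∫⁻ t in E, f t) + b * (∫⁻ t in E, g t) + c * ∫⁻ t in E, h t := by
  rw [lintegral_add_right _ (hh.const_mul c), lintegral_add_right _ (hg.const_mul b),
    lintegral_const_mul _ hf, lintegral_const_mul _ hg, lintegral_const_mul _ hh]

/-- Jensen's inequality by the tangent line. -/
private lemma Z1_jen {E : Set ℝ} {u X : ℝ → ℝ} {m a b : ℝ} (hu : Measurable u)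
    (hu0 : ∀ t, 0 ≤ u t) (hX : Measurable X) (hX0 : ∀ t, 0 ≤ X t) (ha : 0 ≤ a) (hb : 0 ≤ b)
    (hm : 0 ≤ m) (h1 : ∫⁻ t in E, ENNReal.ofReal (u t) ≤ ENNReal.ofReal m)
    (h2 : ∫⁻ t in E, ENNReal.ofReal (X t * u t) ≤ ENNReal.ofReal (a * b)) :
    ∫⁻ t in E, ENNReal.ofReal (Real.log (1 + X t) * u t) ≤
      ENNReal.ofReal (Real.log (1 + a) * m + b) := by
  have hla : 0 ≤ Real.log (1 + a) := Real.log_nonneg (by linarith)
  have key : ∀ t, ENNReal.ofReal (Real.log (1 + X t) * u t) ≤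
      ENNReal.ofReal (Real.log (1 + a)) * ENNReal.ofReal (u t) +
        ENNReal.ofReal (1 / (1 + a)) * ENNReal.ofReal (X t * u t) := by
    intro t
    have k0 := hX0 t
    have k1 := hu0 t
    have k2 : Real.log (1 + X t) ≤ Real.log (1 + a) + 1 / (1 + a) * X t := by
      have k3 : Real.log ((1 + X t) / (1 + a)) ≤ (1 + X t) / (1 + a) - 1 :=
        Real.log_le_sub_one_of_pos (by positivity)
      rw [Real.log_div (by positivity) (by positivity)] at k3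
      have k4 : (1 + X t) / (1 + a) ≤ 1 + 1 / (1 + a) * X t := by
        rw [div_le_iff₀ (by positivity), add_mul, one_mul]
        have : 1 / (1 + a) * X t * (1 + a) = X t := by
          field_simp
        rw [this]
        linarith
      linarith
    rw [← ENNReal.ofReal_mul hla, ← ENNReal.ofReal_mul (by positivity),
      ← ENNReal.ofReal_add (by positivity) (by positivity)]
    refine ENNReal.ofReal_le_ofReal ?_
    calc Real.log (1 + X t) * u t ≤ (Real.log (1 + a) + 1 / (1 + a) * X t) * u t := by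
          gcongr
      _ = _ := by ring
  have hXu : Measurable fun t => ENNReal.ofReal (X t * u t) := (hX.mul hu).ennreal_ofReal
  refine (lintegral_mono key).trans ?_
  rw [lintegral_add_left (hu.ennreal_ofReal.const_mul _), lintegral_const_mul _ hu.ennreal_ofReal,
    lintegral_const_mul _ hXu]
  refine (add_le_add (mul_le_mul_right h1 _) (mul_le_mul_right h2 _)).trans ?_
  rw [← ENNReal.ofReal_mul hla, ← ENNReal.ofReal_mul (by positivity),
      ← ENNReal.ofReal_add (by positivity) (by positivity)]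
  refine ENNReal.ofReal_le_ofReal ?_
  have : 1 / (1 + a) * (a * b) ≤ b := by
    rw [one_div, inv_mul_le_iff₀ (by positivity)]
    nlinarith
  linarith

private lemma Z1_dbl {E : Set ℝ} {W c : ℝ} {F : ℝ × ℂ → ℝ} (hF : Measurable F) (hW : 0 ≤ W)
    (h : ∀ z ∈ Z1_S 0 W W, ∫⁻ t in E, ENNReal.ofReal (F (t, z)) ≤ ENNReal.ofReal c) :
    ∫⁻ t in E, ∫⁻ z in Z1_S 0 W W, ENNReal.ofReal (F (t, z)) ≤
      ENNReal.ofReal (2 * W ^ 2 * c) := by
  rw [lintegral_lintegral_swap (f := fun t z => ENNReal.ofReal (F (t, z)))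
    hF.ennreal_ofReal.aemeasurable]
  refine (setLIntegral_mono measurable_const h).trans ?_
  rw [setLIntegral_const, Z1_S_vol hW, mul_comm, ← ENNReal.ofReal_mul (by positivity)]

private lemma Z1_pt {S : BS} {δ t : ℝ} {z : ℂ} (hG : Gz S δ t z ≠ 0)
    (hc : δ ^ 2 * ‖ch (pt S.T t z)‖ ≤ 1) :
    |Real.log ‖Vd S δ t z‖ - 2 * x0 S t| ≤ |Real.log ‖Gz S δ t z‖| +
      Real.log (1 + Real.exp (2 * x0 S t) * ‖MO 0 S.T (nC (pt S.T t z))‖ ^ 2) +
      Real.log (1 + Real.exp (-(2 * x0 S t)) * ‖VV S.T (pt S.T t z)‖ ^ 2) := by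
  obtain ⟨V, hV⟩ : ∃ V, V = Vd S δ t z := ⟨_, rfl⟩
  obtain ⟨M, hM⟩ : ∃ M, M = MO 0 S.T (nC (pt S.T t z)) := ⟨_, rfl⟩
  obtain ⟨v, hv⟩ : ∃ v, v = VV S.T (pt S.T t z) := ⟨_, rfl⟩
  obtain ⟨x, hx⟩ : ∃ x, x = 2 * x0 S t := ⟨_, rfl⟩
  have hGz : Gz S δ t z = V * M ^ 2 := by
    unfold Gz
    rw [hV, hM]
  rw [hGz] at hG ⊢
  rw [← hV, ← hM, ← hv, ← hx]
  have hV0 : V ≠ 0 := left_ne_zero_of_mul hG
  have hM0 : M ≠ 0 := fun h => hG (by rw [h]; simp)
  have hVp : 0 < ‖V‖ := norm_pos_iff.2 hV0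
  have hMp : 0 < ‖M‖ := norm_pos_iff.2 hM0
  have hex : 0 < Real.exp x := Real.exp_pos x
  have hl1 : Real.log ‖V * M ^ 2‖ = Real.log ‖V‖ + Real.log (‖M‖ ^ 2) := by
    rw [norm_mul, norm_pow, Real.log_mul hVp.ne' (by positivity)]
  have hl2 : x + Real.log (‖M‖ ^ 2) ≤ Real.log (1 + Real.exp x * ‖M‖ ^ 2) := by
    have k1 : Real.log (Real.exp x * ‖M‖ ^ 2) = x + Real.log (‖M‖ ^ 2) := by
      rw [Real.log_mul hex.ne' (by positivity), Real.log_exp]
    rw [← k1]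
    exact Real.log_le_log (by positivity) (by linarith)
  have hl3 : Real.log ‖V‖ - x ≤ Real.log (1 + Real.exp (-x) * ‖v‖ ^ 2) := by
    have k1 : Real.log (Real.exp (-x) * ‖V‖) = Real.log ‖V‖ - x := by
      rw [Real.log_mul (Real.exp_pos _).ne' hVp.ne', Real.log_exp]
      ring
    rw [← k1]
    refine Real.log_le_log (by positivity) ?_
    have k2 : ‖V‖ ≤ ‖v‖ ^ 2 + Real.exp x := by
      rw [hV]
      unfold Vd
      rw [← hv, ← hx]
      refine (norm_add_le _ _).trans ?_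
      rw [norm_pow, norm_mul, Complex.norm_real, Real.norm_eq_abs, abs_of_nonneg (by positivity)]
      have k3 : δ ^ 2 * Real.exp x * ‖ch (pt S.T t z)‖ ≤ 1 * Real.exp x := by
        calc δ ^ 2 * Real.exp x * ‖ch (pt S.T t z)‖ = δ ^ 2 * ‖ch (pt S.T t z)‖ * Real.exp x := by
              ring
          _ ≤ 1 * Real.exp x := by gcongr
      linarith
    calc Real.exp (-x) * ‖V‖ ≤ Real.exp (-x) * (‖v‖ ^ 2 + Real.exp x) := by gcongr
      _ = 1 + Real.exp (-x) * ‖v‖ ^ 2 := by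
        rw [mul_add, ← Real.exp_add]
        simp
        ring
  have hn1 : 0 ≤ Real.log (1 + Real.exp x * ‖M‖ ^ 2) := Real.log_nonneg (by
    have : 0 ≤ Real.exp x * ‖M‖ ^ 2 := by positivity
    linarith)
  have hn2 : 0 ≤ Real.log (1 + Real.exp (-x) * ‖v‖ ^ 2) := Real.log_nonneg (by
    have : 0 ≤ Real.exp (-x) * ‖v‖ ^ 2 := by positivity
    linarith)
  have ha := neg_abs_le (Real.log ‖V * M ^ 2‖)
  have hb := abs_nonneg (Real.log ‖V * M ^ 2‖)
  have hc' := le_abs_self (Real.log ‖V * M ^ 2‖)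
  rw [abs_le]
  constructor
  · linarith
  · linarith

private lemma Z1_log {W D : ℝ} (hW : 10 ≤ W) (hD : 0 ≤ D) (k : ℕ) :
    Real.log (1 + Real.exp D * (1 + 2 * W) ^ k) ≤ (1 + 2 * k) * (1 + Real.log W + D) := by
  have hlW : 0 ≤ Real.log W := Real.log_nonneg (by linarith)
  have h1 : 1 ≤ (1 + 2 * W) ^ k := one_le_pow₀ (by linarith)
  have h2 : 1 ≤ Real.exp D := Real.one_le_exp hD
  have h3 : 1 ≤ Real.exp D * (1 + 2 * W) ^ k := by
    nlinarith
  have h4 : 1 + Real.exp D * (1 + 2 * W) ^ k ≤ Real.exp 1 * (Real.exp D * (1 + 2 * W) ^ k) := by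
    have h5 : 2 ≤ Real.exp 1 := by
      have := Real.add_one_le_exp (1 : ℝ)
      linarith
    nlinarith
  have h6 : Real.log (1 + 2 * W) ≤ 2 + Real.log W := by
    have h7 : 1 + 2 * W ≤ Real.exp 2 * W := by
      have := Real.add_one_le_exp (2 : ℝ)
      nlinarith
    calc Real.log (1 + 2 * W) ≤ Real.log (Real.exp 2 * W) := Real.log_le_log (by linarith) h7
      _ = 2 + Real.log W := by
        rw [Real.log_mul (Real.exp_pos 2).ne' (by linarith), Real.log_exp]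
  have hk : (0 : ℝ) ≤ k := Nat.cast_nonneg k
  calc Real.log (1 + Real.exp D * (1 + 2 * W) ^ k) ≤
        Real.log (Real.exp 1 * (Real.exp D * (1 + 2 * W) ^ k)) :=
          Real.log_le_log (by positivity) h4
    _ = 1 + (D + k * Real.log (1 + 2 * W)) := by
        rw [Real.log_mul (Real.exp_pos 1).ne' (by positivity), Real.log_exp,
          Real.log_mul (Real.exp_pos D).ne' (by positivity), Real.log_exp, Real.log_pow]
    _ ≤ 1 + (D + k * (2 + Real.log W)) := by gcongr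
    _ ≤ _ := by nlinarith [mul_nonneg hk hlW, mul_nonneg hk hD]

theorem avg_Lh (lam η : ℝ) (h0 : 0 < lam) (h1 : 0 < η) (h2 : η ≤ 1) : ∃ C0 K : ℝ, 1 ≤ K ∧
    ∀ {Ct θ D1 : ℝ} {N0 : ℕ}, C0 ≤ Ct → ∀ B W : ℝ, 1 ≤ B → 8 * B ≤ W → 10 ≤ W →
    ∃ δ0 T0 : ℝ, 0 < δ0 ∧ δ0 ≤ 1 ∧ ∀ {S : BS}, TG S Ct θ D1 N0 → T0 ≤ S.T →
    ∀ δ : ℝ, 0 < δ → δ ≤ δ0 →
    ∫⁻ t in EE S lam η, (∫⁻ z in QW W,
        ENNReal.ofReal (|Real.log ‖Gz S δ t z‖| * |Lh B W z.re z.im|)) *
      ENNReal.ofReal (uu S lam t) ≤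
    ENNReal.ofReal (K * (W / B + B ^ 2 / W + 1) * (S.T * Lam S lam)) := by
  obtain ⟨C0, K, hK, hA⟩ := area_bound lam η h0 h1 h2
  obtain ⟨C, hC, hL⟩ := Lh_int
  refine ⟨C0, 3 * (C * K), by nlinarith, ?_⟩
  intro Ct θ D1 N0 hCt B W hB hBW hW
  obtain ⟨δ0, T0, hδ0, hδ1, hA2⟩ := hA (θ := θ) (D1 := D1) (N0 := N0) hCt W hW
  refine ⟨δ0, T0, hδ0, hδ1, ?_⟩
  intro S hS hT δ hδ hδ'
  obtain ⟨hA3, hA4⟩ := hA2 hS hT δ hδ.le hδ'
  have hR : ∀ j ≤ S.J, ∀ p ∈ S.R j, p ≠ 0 := fun j hj p hp => (hS.prime j hj p hp).1.ne_zero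
  have hum : Measurable (uu S lam) := (uu_continuous S lam hR).measurable
  have hGm := (Gz_meas hS δ).1
  have hfm : Measurable fun q : ℝ × ℂ => |Real.log ‖Gz S δ q.1 q.2‖| :=
    (Real.measurable_log.comp hGm.norm).abs
  obtain ⟨f, hf⟩ : ∃ f : ℝ × ℂ → ℝ, f = fun q : ℝ × ℂ => |Real.log ‖Gz S δ q.1 q.2‖| := ⟨_, rfl⟩
  rw [← hf] at hfm
  have hf0 : ∀ q, 0 ≤ f q := fun q => by
    rw [hf]
    exact abs_nonneg _
  obtain ⟨I, hI⟩ : ∃ I : Set ℂ → ℝ → ENNReal, I = fun A t => ∫⁻ z in A, ENNReal.ofReal (f (t, z)) :=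
    ⟨_, rfl⟩
  have hIm : ∀ A, Measurable fun t => I A t * ENNReal.ofReal (uu S lam t) := by
    intro A
    rw [hI]
    exact (hfm.ennreal_ofReal.lintegral_prod_right').mul hum.ennreal_ofReal
  have hpull : ∀ A, ∫⁻ t in EE S lam η, I A t * ENNReal.ofReal (uu S lam t) =
      ∫⁻ t in EE S lam η, ∫⁻ z in A, ENNReal.ofReal (|Real.log ‖Gz S δ t z‖| * uu S lam t) := by
    intro A
    rw [hI]
    exact (Z1_pull hfm hf0).trans (by rw [hf])
  obtain ⟨A1, hA1⟩ : ∃ A : Set ℂ, A = {z : ℂ | 2 * B ≤ z.re ∧ z.re ≤ 3 * B ∧ |z.im| ≤ W} := ⟨_, rfl⟩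
  obtain ⟨A2, hA2⟩ : ∃ A : Set ℂ, A = {z : ℂ | -R0 ≤ z.re ∧ z.re ≤ 3 * B ∧ |z.im| ≤ W} := ⟨_, rfl⟩
  obtain ⟨A3, hA3'⟩ : ∃ A : Set ℂ, A = {z : ℂ | -R0 ≤ z.re ∧ z.re ≤ W ∧ |z.im| ≤ W} := ⟨_, rfl⟩
  obtain ⟨a, ha⟩ : ∃ a, a = ENNReal.ofReal (C / B) := ⟨_, rfl⟩
  obtain ⟨b, hb⟩ : ∃ b, b = ENNReal.ofReal (C * B / W ^ 2) := ⟨_, rfl⟩
  obtain ⟨c, hc⟩ : ∃ c, c = ENNReal.ofReal (C / W ^ 2) := ⟨_, rfl⟩
  have hR0 : R0 = 6 / 5 := rfl
  have hpt : ∀ t, (∫⁻ z in QW W, ENNReal.ofReal (|Real.log ‖Gz S δ t z‖| * |Lh B W z.re z.im|)) *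
      ENNReal.ofReal (uu S lam t) ≤ a * (I A1 t * ENNReal.ofReal (uu S lam t)) +
      b * (I A2 t * ENNReal.ofReal (uu S lam t)) + c * (I A3 t * ENNReal.ofReal (uu S lam t)) := by
    intro t
    have k1 := hL B W hB hBW (fun z => ENNReal.ofReal (f (t, z)))
      (hfm.comp measurable_prodMk_left).ennreal_ofReal
    have k2 : ∫⁻ z in QW W, ENNReal.ofReal (|Real.log ‖Gz S δ t z‖| * |Lh B W z.re z.im|) =
        ∫⁻ z in {z : ℂ | -R0 ≤ z.re ∧ z.re ≤ W ∧ |z.im| ≤ W},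
          ENNReal.ofReal (f (t, z)) * ENNReal.ofReal |Lh B W z.re z.im| := by
      unfold QW
      refine lintegral_congr fun z => ?_
      rw [hf, ENNReal.ofReal_mul (abs_nonneg _)]
    rw [k2]
    refine (mul_le_mul_left k1 _).trans (le_of_eq ?_)
    rw [hI, ha, hb, hc, hA1, hA2, hA3']
    ring
  refine (lintegral_mono hpt).trans ?_
  rw [Z1_sum3 (hIm A1) (hIm A2) (hIm A3), hpull, hpull, hpull]
  have hMp : 0 ≤ S.T * Lam S lam := by
    have k1 := one_le_Lam S lam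
    have k2 := hS.T_ge
    have k3 := Real.exp_pos 1000
    have : 0 ≤ S.T := by linarith
    exact mul_nonneg this (by linarith)
  obtain ⟨M, hM⟩ : ∃ M, M = S.T * Lam S lam := ⟨_, rfl⟩
  rw [← hM] at hA3 hA4 hMp ⊢
  have e1 := hA4 B hB hBW
  have e2 := hA3 (3 * B) (by linarith) (by linarith)
  have e3 := hA3 W (by linarith) le_rfl
  rw [← hR0] at e2 e3
  rw [← hA1] at e1
  rw [← hA2] at e2
  rw [← hA3'] at e3
  refine (add_le_add (add_le_add (mul_le_mul_right e1 a) (mul_le_mul_right e2 b))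
    (mul_le_mul_right e3 c)).trans ?_
  have hWp : 0 < W := by linarith
  have hBp : 0 < B := by linarith
  have l1 : 0 ≤ Real.log (3 * B) := Real.log_nonneg (by linarith)
  have l2 : Real.log (3 * B) ≤ 3 * B - 1 := Real.log_le_sub_one_of_pos (by linarith)
  have l3 : 0 ≤ Real.log W := Real.log_nonneg (by linarith)
  have l4 : Real.log W ≤ W - 1 := Real.log_le_sub_one_of_pos hWp
  rw [ha, hb, hc, ← ENNReal.ofReal_mul (by positivity), ← ENNReal.ofReal_mul (by positivity),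
    ← ENNReal.ofReal_mul (by positivity), ← ENNReal.ofReal_add (by positivity) (by positivity),
    ← ENNReal.ofReal_add (by positivity) (by positivity)]
  refine ENNReal.ofReal_le_ofReal ?_
  have m1 : C / B * (K * W * M) = C * K * (W / B) * M := by ring
  have m2 : C * B / W ^ 2 * (K * (1 + Real.log (3 * B)) * W * M) ≤ 3 * (C * K) * (B ^ 2 / W) * M := by
    calc C * B / W ^ 2 * (K * (1 + Real.log (3 * B)) * W * M) =
          C * K * M * (B / W) * (1 + Real.log (3 * B)) := by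
            field_simp
      _ ≤ C * K * M * (B / W) * (3 * B) := by
            gcongr
            linarith
      _ = _ := by ring
  have m3 : C / W ^ 2 * (K * (1 + Real.log W) * W * M) ≤ C * K * M := by
    calc C / W ^ 2 * (K * (1 + Real.log W) * W * M) =
          C * K * M * ((1 + Real.log W) / W) := by
            field_simp
      _ ≤ C * K * M * 1 := by
            gcongr
            rw [div_le_one hWp]
            linarith
      _ = _ := by ring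
  have m4 : 0 ≤ C * K * (W / B) * M := by positivity
  have m5 : 0 ≤ C * K * M := by positivity
  rw [m1]
  calc _ ≤ C * K * (W / B) * M + 3 * (C * K) * (B ^ 2 / W) * M + C * K * M := by
        linarith
    _ ≤ _ := by
        have : 3 * (C * K) * (W / B + B ^ 2 / W + 1) * M = 3 * (C * K * (W / B) * M) +
          3 * (C * K) * (B ^ 2 / W) * M + 3 * (C * K * M) := by ring
        rw [this]
        linarith

theorem avg_Lp (lam η : ℝ) (h0 : 0 < lam) (h1 : 0 < η) (h2 : η ≤ 1) : ∃ C0 K : ℝ, 1 ≤ K ∧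
    ∀ {Ct θ D1 : ℝ} {N0 : ℕ}, C0 ≤ Ct → 0 ≤ D1 → 0 < θ → θ ≤ 1 → ∀ W : ℝ, 10 ≤ W →
    ∃ δ0 T0 : ℝ, 0 < δ0 ∧ δ0 ≤ 1 ∧ ∀ {S : BS}, TG S Ct θ D1 N0 → T0 ≤ S.T →
    ∀ δ : ℝ, 0 < δ → δ ≤ δ0 →
    ∫⁻ t in EE S lam η, (∫⁻ z in {z : ℂ | 0 ≤ z.re ∧ z.re ≤ W ∧ |z.im| ≤ W},
        ENNReal.ofReal (|Real.log ‖Vd S δ t z‖ - 2 * x0 S t| * |Lp W z.re z.im|)) *
      ENNReal.ofReal (uu S lam t) ≤
    ENNReal.ofReal (K * (1 + Real.log W + (D1 + 5 * Real.log (1 / θ))) * (S.T * Lam S lam)) := by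
  obtain ⟨C1, K1, hK1, hA⟩ := area_bound lam η h0 h1 h2
  obtain ⟨C2, K2, p2, hK2, hX2⟩ := XB2 lam η h0 h1 h2
  obtain ⟨C3, K3, p3, hK3, hX3⟩ := XB3 lam η h0 h1 h2
  obtain ⟨C4, K4, hK4, hTM⟩ := TMass lam η h0 h1 h2
  obtain ⟨C, hC, hL⟩ := Lp_le
  obtain ⟨T5, hch⟩ := ch_pt η h1 h2
  obtain ⟨T6, hfar⟩ := far_good lam η h0 h1 h2
  obtain ⟨C7, T7, hC7, hps⟩ := psiR_pt η h1 h2
  refine ⟨max C1 (max C2 (max C3 C4)), C * K1 + 2 * C * ((1 + 2 * p2) * K4 + K2) +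
    2 * C * ((1 + 2 * p3) * K4 + K3), ?_, ?_⟩
  · have e1 : 1 ≤ C * K1 := by nlinarith
    have e2 : 0 ≤ 2 * C * ((1 + 2 * p2) * K4 + K2) := by positivity
    have e3 : 0 ≤ 2 * C * ((1 + 2 * p3) * K4 + K3) := by positivity
    linarith
  intro Ct θ D1 N0 hCt hD1 hθ hθ1 W hW
  have hC1 : C1 ≤ Ct := (le_max_left _ _).trans hCt
  have hCt' := (le_max_right _ _).trans hCt
  have hC2 : C2 ≤ Ct := (le_max_left _ _).trans hCt'
  have hCt'' := (le_max_right _ _).trans hCt'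
  have hC3 : C3 ≤ Ct := (le_max_left _ _).trans hCt''
  have hC4 : C4 ≤ Ct := (le_max_right _ _).trans hCt''
  obtain ⟨δ1, T1, hδ1, hδ1', hA2⟩ := hA (θ := θ) (D1 := D1) (N0 := N0) hC1 W hW
  obtain ⟨T2, hX2'⟩ := hX2 (θ := θ) (D1 := D1) (N0 := N0) hC2
  obtain ⟨T3, hX3'⟩ := hX3 W (by linarith) (θ := θ) (D1 := D1) (N0 := N0) hC3
  obtain ⟨T4, hTM'⟩ := hTM (θ := θ) (D1 := D1) (N0 := N0) hC4
  refine ⟨min δ1 (1 / 6), max T1 (max T2 (max T3 (max T4 (max T5 (max T6 (max T7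
    (Real.exp W))))))), lt_min hδ1 (by norm_num), (min_le_left _ _).trans hδ1', ?_⟩
  intro S hS hT δ hδ hδ'
  simp only [max_le_iff] at hT
  obtain ⟨hT1, hT2, hT3, hT4, hT5, hT6, hT7, hT8⟩ := hT
  have hd1 : δ ≤ δ1 := hδ'.trans (min_le_left _ _)
  have hd2 : δ ≤ 1 / 6 := hδ'.trans (min_le_right _ _)
  have hTge := hS.T_ge
  have hTpos : 0 < S.T := (Real.exp_pos _).trans_le hTge
  have hLW : W ≤ Real.log S.T := by
    rw [← Real.log_exp W]
    exact Real.log_le_log (Real.exp_pos W) hT8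
  have hL1 : 1000 ≤ Real.log S.T := by
    rw [← Real.log_exp 1000]
    exact Real.log_le_log (Real.exp_pos _) hTge
  have hLL : Real.log S.T ≤ Real.log S.T ^ 2 := by nlinarith
  have hWp : 0 < W := by linarith
  obtain ⟨D, hD⟩ : ∃ D, D = D1 + 5 * Real.log (1 / θ) := ⟨_, rfl⟩
  have hD0 : 0 ≤ D := by
    have : 0 ≤ Real.log (1 / θ) := Real.log_nonneg (by rw [le_div_iff₀ hθ]; linarith)
    rw [hD]
    linarith
  have hMp : 0 ≤ S.T * Lam S lam := by
    have k1 := one_le_Lam S lam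
    exact mul_nonneg hTpos.le (by linarith)
  have hX2'' := hX2' hS hT2
  have hX3'' := hX3' hS hT3
  have hTM'' := hTM' hS hT4
  obtain ⟨hA3, -⟩ := hA2 hS hT1 δ hδ.le hd1
  have hA4 := hA3 W (by linarith) le_rfl
  obtain ⟨M, hM⟩ : ∃ M, M = S.T * Lam S lam := ⟨_, rfl⟩
  rw [← hM] at hA4 hMp hX2'' hX3'' hTM'' ⊢
  rw [← hD] at hX2'' hX3'' ⊢
  have hR : ∀ j ≤ S.J, ∀ p ∈ S.R j, p ≠ 0 := fun j hj p hp => (hS.prime j hj p hp).1.ne_zero
  have hum : Measurable (uu S lam) := (uu_continuous S lam hR).measurable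
  have hu0 : ∀ t, 0 ≤ uu S lam t := fun t => by
    unfold uu
    positivity
  have hxm : Measurable (x0 S) := (x0_continuous S hR).measurable
  have hEm : MeasurableSet (EE S lam η) := EE_measurable S lam η hR
  obtain ⟨hGm, -, hVm, hMm⟩ := Gz_meas hS δ
  obtain ⟨f1, hf1⟩ : ∃ f : ℝ × ℂ → ℝ, f = fun q : ℝ × ℂ => |Real.log ‖Gz S δ q.1 q.2‖| := ⟨_, rfl⟩
  obtain ⟨g2, hg2⟩ : ∃ f : ℝ × ℂ → ℝ, f = fun q : ℝ × ℂ =>
    Real.exp (2 * x0 S q.1) * ‖MO 0 S.T (nC (pt S.T q.1 q.2))‖ ^ 2 := ⟨_, rfl⟩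
  obtain ⟨g3, hg3⟩ : ∃ f : ℝ × ℂ → ℝ, f = fun q : ℝ × ℂ =>
    Real.exp (-(2 * x0 S q.1)) * ‖VV S.T (pt S.T q.1 q.2)‖ ^ 2 := ⟨_, rfl⟩
  have hf1m : Measurable f1 := by
    rw [hf1]
    exact (Real.measurable_log.comp hGm.norm).abs
  have hxm2 : Measurable fun q : ℝ × ℂ => x0 S q.1 := hxm.comp measurable_fst
  have hg2m : Measurable g2 := by
    rw [hg2]
    exact ((hxm2.const_mul 2).exp).mul (hMm.norm.pow_const 2)
  have hg3m : Measurable g3 := by
    rw [hg3]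
    exact ((hxm2.const_mul 2).neg.exp).mul (hVm.norm.pow_const 2)
  have hg20 : ∀ q, 0 ≤ g2 q := fun q => by
    rw [hg2]
    positivity
  have hg30 : ∀ q, 0 ≤ g3 q := fun q => by
    rw [hg3]
    positivity
  have hf10 : ∀ q, 0 ≤ f1 q := fun q => by
    rw [hf1]
    exact abs_nonneg _
  have hl2m : Measurable fun q => Real.log (1 + g2 q) := (hg2m.const_add 1).log
  have hl3m : Measurable fun q => Real.log (1 + g3 q) := (hg3m.const_add 1).log
  have hl20 : ∀ q, 0 ≤ Real.log (1 + g2 q) := fun q => Real.log_nonneg (by linarith [hg20 q])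
  have hl30 : ∀ q, 0 ≤ Real.log (1 + g3 q) := fun q => Real.log_nonneg (by linarith [hg30 q])
  obtain ⟨I, hI⟩ : ∃ I : (ℝ × ℂ → ℝ) → ℝ → ENNReal,
    I = fun f t => ∫⁻ z in Z1_S 0 W W, ENNReal.ofReal (f (t, z)) := ⟨_, rfl⟩
  have hIm : ∀ f : ℝ × ℂ → ℝ, Measurable f →
      Measurable fun t => I f t * ENNReal.ofReal (uu S lam t) := by
    intro f hf
    rw [hI]
    exact (hf.ennreal_ofReal.lintegral_prod_right').mul hum.ennreal_ofReal
  have hpull : ∀ f : ℝ × ℂ → ℝ, Measurable f → (∀ q, 0 ≤ f q) →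
      ∫⁻ t in EE S lam η, I f t * ENNReal.ofReal (uu S lam t) =
      ∫⁻ t in EE S lam η, ∫⁻ z in Z1_S 0 W W, ENNReal.ofReal (f (t, z) * uu S lam t) := by
    intro f hf hf0
    rw [hI]
    exact Z1_pull hf hf0
  obtain ⟨c, hc⟩ : ∃ c, c = ENNReal.ofReal (C / W ^ 2) := ⟨_, rfl⟩
  have hpt : ∀ t ∈ EE S lam η, (∫⁻ z in {z : ℂ | 0 ≤ z.re ∧ z.re ≤ W ∧ |z.im| ≤ W},
        ENNReal.ofReal (|Real.log ‖Vd S δ t z‖ - 2 * x0 S t| * |Lp W z.re z.im|)) *
      ENNReal.ofReal (uu S lam t) ≤ c * (I f1 t * ENNReal.ofReal (uu S lam t)) +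
      c * (I (fun q => Real.log (1 + g2 q)) t * ENNReal.ofReal (uu S lam t)) +
      c * (I (fun q => Real.log (1 + g3 q)) t * ENNReal.ofReal (uu S lam t)) := by
    intro t ht
    have himt : ∀ z ∈ Z1_S 0 (5 * Real.log S.T) W, (pt S.T t z).im ≠ 0 := by
      intro z hz
      have := (hps S.T t z hT7 ht.1 (abs_le.2 ⟨by linarith [hz.1], by linarith [hz.2.1]⟩)
        (hz.2.2.trans (by linarith))).1
      linarith
    have hz4 : ((4 * Real.log S.T : ℝ) : ℂ) ∈ Z1_S 0 (5 * Real.log S.T) W := by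
      refine ⟨?_, ?_, ?_⟩
      · rw [Complex.ofReal_re]; linarith
      · rw [Complex.ofReal_re]; linarith
      · rw [Complex.ofReal_im, abs_zero]; linarith
    have hG4 : Gz S δ t ((4 * Real.log S.T : ℝ) : ℂ) ≠ 0 := by
      intro h
      have k1 := hfar hS hT6 t ht δ hδ.le (by linarith) ((4 * Real.log S.T : ℝ) : ℂ)
        (by rw [Complex.ofReal_re]; linarith) (by rw [Complex.ofReal_re]; linarith)
        (by rw [Complex.ofReal_im, abs_zero]; positivity)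
      rw [h, zero_sub, norm_neg, norm_one] at k1
      linarith
    have hae0 := Z1_ae (f := Gz S δ t) (fun z hz => (Gz_an hS δ t (himt z hz)).1) ⟨_, hz4, hG4⟩
    have hsub : Z1_S 0 W W ⊆ Z1_S 0 (5 * Real.log S.T) W := fun z hz =>
      ⟨hz.1, hz.2.1.trans (by linarith), hz.2.2⟩
    have hae := ae_restrict_of_ae_restrict_of_subset hsub hae0
    have hin : ∫⁻ z in Z1_S 0 W W,
        ENNReal.ofReal (|Real.log ‖Vd S δ t z‖ - 2 * x0 S t| * |Lp W z.re z.im|) ≤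
        ∫⁻ z in Z1_S 0 W W, (c * ENNReal.ofReal (f1 (t, z)) +
          c * ENNReal.ofReal (Real.log (1 + g2 (t, z))) +
          c * ENNReal.ofReal (Real.log (1 + g3 (t, z)))) := by
      refine lintegral_mono_ae ?_
      filter_upwards [hae, ae_restrict_mem (Z1_S_meas 0 W W)] with z hz hzS
      have k1 : δ ^ 2 * ‖ch (pt S.T t z)‖ ≤ 1 := by
        have k2 := hch S.T t z hT5 ht.1 (by linarith [hzS.1]) (by linarith [hzS.2.1])
          (hzS.2.2.trans (by linarith))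
        have k3 : Real.exp (-(z.re / 2)) ≤ 1 := Real.exp_le_one_iff.2 (by linarith [hzS.1])
        have k4 : ‖ch (pt S.T t z)‖ ≤ 30 := by linarith
        have k5 : δ ^ 2 ≤ (1 / 6) ^ 2 := pow_le_pow_left₀ hδ.le hd2 2
        calc δ ^ 2 * ‖ch (pt S.T t z)‖ ≤ (1 / 6) ^ 2 * 30 := by gcongr
          _ ≤ 1 := by norm_num
      have k6 := Z1_pt hz k1
      have k7 := hL W z.re z.im (by linarith)
      have k8 : |Real.log ‖Gz S δ t z‖| = f1 (t, z) := by rw [hf1]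
      have k9 : Real.exp (2 * x0 S t) * ‖MO 0 S.T (nC (pt S.T t z))‖ ^ 2 = g2 (t, z) := by rw [hg2]
      have k10 : Real.exp (-(2 * x0 S t)) * ‖VV S.T (pt S.T t z)‖ ^ 2 = g3 (t, z) := by rw [hg3]
      rw [k8, k9, k10] at k6
      rw [hc, ← mul_add, ← mul_add, ← ENNReal.ofReal_add (hf10 _) (hl20 _),
        ← ENNReal.ofReal_add (add_nonneg (hf10 _) (hl20 _)) (hl30 _),
        ← ENNReal.ofReal_mul (by positivity)]
      refine ENNReal.ofReal_le_ofReal ?_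
      rw [mul_comm (C / W ^ 2)]
      refine mul_le_mul k6 k7 (abs_nonneg _) ?_
      exact add_nonneg (add_nonneg (hf10 _) (hl20 _)) (hl30 _)
    have n1 : Measurable fun z => ENNReal.ofReal (f1 (t, z)) :=
      (hf1m.comp measurable_prodMk_left).ennreal_ofReal
    have n2 : Measurable fun z => ENNReal.ofReal (Real.log (1 + g2 (t, z))) :=
      (hl2m.comp measurable_prodMk_left).ennreal_ofReal
    have n3 : Measurable fun z => ENNReal.ofReal (Real.log (1 + g3 (t, z))) :=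
      (hl3m.comp measurable_prodMk_left).ennreal_ofReal
    rw [Z1_sum3 n1 n2 n3] at hin
    refine (mul_le_mul_left hin _).trans (le_of_eq ?_)
    rw [hI]
    ring
  refine (setLIntegral_mono' hEm hpt).trans ?_
  rw [Z1_sum3 (hIm _ hf1m) (hIm _ hl2m) (hIm _ hl3m), hpull _ hf1m hf10, hpull _ hl2m hl20,
    hpull _ hl3m hl30]
  have hmass : ∫⁻ t in EE S lam η, ENNReal.ofReal (uu S lam t) ≤ ENNReal.ofReal (K4 * M) :=
    (lintegral_mono_set fun t ht => ht.1).trans hTM''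
  have hnz : ∀ z ∈ Z1_S 0 W W, 1 + ‖z‖ ≤ 1 + 2 * W := by
    intro z hz
    have k1 := Complex.norm_le_abs_re_add_abs_im z
    have k2 : |z.re| ≤ W := abs_le.2 ⟨by linarith [hz.1], hz.2.1⟩
    linarith [hz.2.2]
  have e1 : ∫⁻ t in EE S lam η, ∫⁻ z in Z1_S 0 W W, ENNReal.ofReal (f1 (t, z) * uu S lam t) ≤
      ENNReal.ofReal (K1 * (1 + Real.log W) * W * M) := by
    refine le_trans ?_ hA4
    refine lintegral_mono fun t => ?_
    rw [hf1]
    exact lintegral_mono_set fun z hz => ⟨by linarith [hz.1], hz.2.1, hz.2.2⟩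
  have e2 : ∫⁻ t in EE S lam η, ∫⁻ z in Z1_S 0 W W,
      ENNReal.ofReal (Real.log (1 + g2 (t, z)) * uu S lam t) ≤
      ENNReal.ofReal (2 * W ^ 2 * (Real.log (1 + Real.exp D * (1 + 2 * W) ^ p2) * (K4 * M) +
        K2 * M)) := by
    refine Z1_dbl (F := fun q => Real.log (1 + g2 q) * uu S lam q.1)
      (hl2m.mul (hum.comp measurable_fst)) hWp.le fun z hz => ?_
    refine Z1_jen (X := fun t => g2 (t, z)) hum hu0 (hg2m.comp measurable_prodMk_right)
      (fun t => hg20 _) (by positivity) (by positivity) (by positivity) hmass ?_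
    have k1 := hX2'' z (by linarith [hz.1])
    have k2 : ∀ t, Real.exp (2 * x0 S t) * ‖MO 0 S.T (nC (pt S.T t z))‖ ^ 2 = g2 (t, z) :=
      fun t => by rw [hg2]
    simp only [k2] at k1
    refine k1.trans (ENNReal.ofReal_le_ofReal ?_)
    have k3 : (1 + ‖z‖) ^ p2 ≤ (1 + 2 * W) ^ p2 :=
      pow_le_pow_left₀ (by positivity) (hnz z hz) _
    calc K2 * Real.exp D * (1 + ‖z‖) ^ p2 * M ≤ K2 * Real.exp D * (1 + 2 * W) ^ p2 * M := by
          gcongr
      _ = _ := by ring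
  have e3 : ∫⁻ t in EE S lam η, ∫⁻ z in Z1_S 0 W W,
      ENNReal.ofReal (Real.log (1 + g3 (t, z)) * uu S lam t) ≤
      ENNReal.ofReal (2 * W ^ 2 * (Real.log (1 + Real.exp D * (1 + 2 * W) ^ p3) * (K4 * M) +
        K3 * M)) := by
    refine Z1_dbl (F := fun q => Real.log (1 + g3 q) * uu S lam q.1)
      (hl3m.mul (hum.comp measurable_fst)) hWp.le fun z hz => ?_
    refine Z1_jen (X := fun t => g3 (t, z)) hum hu0 (hg3m.comp measurable_prodMk_right)
      (fun t => hg30 _) (by positivity) (by positivity) (by positivity) hmass ?_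
    have k1 := hX3'' z hz.1 hz.2.1 hz.2.2
    have k2 : ∀ t, Real.exp (-(2 * x0 S t)) * ‖VV S.T (pt S.T t z)‖ ^ 2 = g3 (t, z) :=
      fun t => by rw [hg3]
    simp only [k2] at k1
    refine k1.trans (ENNReal.ofReal_le_ofReal ?_)
    have k3 : W ^ p3 ≤ (1 + 2 * W) ^ p3 :=
      pow_le_pow_left₀ hWp.le (by linarith) _
    calc K3 * Real.exp D * W ^ p3 * M ≤ K3 * Real.exp D * (1 + 2 * W) ^ p3 * M := by
          gcongr
      _ = _ := by ring
  refine (add_le_add (add_le_add (mul_le_mul_right e1 c) (mul_le_mul_right e2 c))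
    (mul_le_mul_right e3 c)).trans ?_
  have l2 := Z1_log hW hD0 p2
  have l3 := Z1_log hW hD0 p3
  obtain ⟨a2, ha2⟩ : ∃ a, a = Real.log (1 + Real.exp D * (1 + 2 * W) ^ p2) := ⟨_, rfl⟩
  obtain ⟨a3, ha3⟩ : ∃ a, a = Real.log (1 + Real.exp D * (1 + 2 * W) ^ p3) := ⟨_, rfl⟩
  have ha20 : 0 ≤ a2 := by
    rw [ha2]
    exact Real.log_nonneg (by
      have : 0 ≤ Real.exp D * (1 + 2 * W) ^ p2 := by positivity
      linarith)
  have ha30 : 0 ≤ a3 := by
    rw [ha3]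
    exact Real.log_nonneg (by
      have : 0 ≤ Real.exp D * (1 + 2 * W) ^ p3 := by positivity
      linarith)
  rw [← ha2] at l2 ⊢
  rw [← ha3] at l3 ⊢
  have hlW : 0 ≤ Real.log W := Real.log_nonneg (by linarith)
  rw [hc, ← ENNReal.ofReal_mul (by positivity), ← ENNReal.ofReal_mul (by positivity),
    ← ENNReal.ofReal_mul (by positivity), ← ENNReal.ofReal_add (by positivity) (by positivity),
    ← ENNReal.ofReal_add (by positivity) (by positivity)]
  refine ENNReal.ofReal_le_ofReal ?_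
  obtain ⟨Y, hY⟩ : ∃ Y, Y = 1 + Real.log W + D := ⟨_, rfl⟩
  rw [← hY] at l2 l3 ⊢
  have hY1 : 1 ≤ Y := by linarith
  have m1 : C / W ^ 2 * (K1 * (1 + Real.log W) * W * M) ≤ C * K1 * Y * M := by
    calc C / W ^ 2 * (K1 * (1 + Real.log W) * W * M) = C * K1 * (1 + Real.log W) * M * (1 / W) := by
          field_simp
      _ ≤ C * K1 * (1 + Real.log W) * M * 1 := by
          gcongr
          rw [div_le_one hWp]
          linarith
      _ ≤ C * K1 * Y * M * 1 := by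
          gcongr
          linarith
      _ = _ := by ring
  have m2 : ∀ (k : ℕ) (K' a : ℝ), 1 ≤ K' → 0 ≤ a → a ≤ (1 + 2 * k) * Y →
      C / W ^ 2 * (2 * W ^ 2 * (a * (K4 * M) + K' * M)) ≤ 2 * C * ((1 + 2 * k) * K4 + K') * Y * M := by
    intro k K' a hK' ha hak
    calc C / W ^ 2 * (2 * W ^ 2 * (a * (K4 * M) + K' * M)) = 2 * C * (a * K4 + K') * M := by
          field_simp
      _ ≤ 2 * C * ((1 + 2 * k) * Y * K4 + K' * Y) * M := by
          gcongr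
          nlinarith
      _ = _ := by ring
  have m3 := m2 p2 K2 a2 hK2 ha20 l2
  have m4 := m2 p3 K3 a3 hK3 ha30 l3
  calc _ ≤ C * K1 * Y * M + 2 * C * ((1 + 2 * p2) * K4 + K2) * Y * M +
        2 * C * ((1 + 2 * p3) * K4 + K3) * Y * M := add_le_add (add_le_add m1 m3) m4
    _ = _ := by ring

end Pool.Agent.LB
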