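import Pool.Agent.Lib.MP_69b2e4_nt.LB.Z1
import Pool.Agent.Lib.MP_69b2e4_nt.Mg.G022
import Pool.Agent.Lib.MP_69b2e4_nt.LB.C7
import Pool.Agent.Lib.MP_69b2e4_nt.Mg.G035

/-! TASK Z3. The integrated inequality. `m0 = Kt ER`, `Dθ = D1 + 5 log(1/θ)`. Multiply `window` (`ε = 1/100`, `η`, `B`, `W`) by `Kw(t) uu(t)` and integrate over `EE` (a.e. `t` is generic by hypothesis; `EE ⊆ Dm`).
Left: `a := (99/100 - (log(29/10) - 1)/R0) be0 W - 2π`, `(log 2.9 - 1)/1.2 ≤ .054` (`e^{1.0648} ≥ 2.9`), so `a ≥ .936 be0 W - 2π`; if `a ≥ 0` the left side is `ofReal a · ∫ Kw uu ≥ .98 a m0` (`mass_lower`), if `a < 0` then also `9W/100 - 7 < 0`.. (if `9W/100 - 7 ≤ 0` the claim is trivial; otherwise `W ≥ 77` and `a > 0`).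
Right: (1) `2π ∫ Kw uu Ng`. (2) `1/(1.2·2.9) ∫_{|y|≤W} bu(y/W) ∫ Kw uu ‖Gz(-R0+iy)‖`: `Gz_eq`: `‖Gz‖ ≤ ‖Fz‖² + δ²e^{2x0}‖ch‖‖MO‖²`, `T1` (`57/20 m0`), `XB4` with `Kw ≤ C_η T^{-1/2}` (`Kw_dm`): `≤ δ0² C_η K e^{Dθ}(2+W)^k e T^{1/2} Lam ≤ m0/100` for small `δ0` (`m0_bounds`); `∫ bu(y/W) = be0 W`: total `≤ 2.86/3.48 be0 W m0 ≤ .8219 be0 W m0`. (3) and (4): `avg_Lh`, `avg_Lp` and `Kw ≤ C_η T^{-1/2}`, `T^{1/2} Lam ≤ C m0`.
`.98(.936 be0 W - 2π) - .8219 be0 W ≥ .095 be0 W - 6.16 ≥ .09 W - 7` (`be0 ≥ 1`). Move the finite terms to the other side (they are finite; if `∫ Kw uu Ng = ∞` the claim is trivial). Choose `δ0` as the minimum of all the `δ0`. -/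

set_option autoImplicit false

namespace Pool.Agent.LB

open Complex MeasureTheory Finset Pool.Agent.GH Pool.Agent.UH Pool.Agent.UV
open scoped Real ComplexConjugate

private lemma Z3_log29 : Real.log (29 / 10) ≤ 10648 / 10000 := by
  rw [Real.log_le_iff_le_exp (by norm_num)]
  have h1 : (10648 / 10000 : ℝ) = 1 + 648 / 10000 := by norm_num
  rw [h1, Real.exp_add]
  have h2 := Real.exp_one_gt_d9
  have h3 := Real.quadratic_le_exp_of_nonneg (x := 648 / 10000) (by norm_num)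
  nlinarith

private lemma Z3_uu0 (S : BS) (lam t : ℝ) : 0 ≤ uu S lam t := by
  unfold uu
  positivity

private lemma Z3_R {S : BS} {Ct θ D1 : ℝ} {N0 : ℕ} (hS : TG S Ct θ D1 N0) :
    ∀ j ≤ S.J, ∀ p ∈ S.R j, p ≠ 0 := fun j hj p hp => (hS.prime j hj p hp).1.ne_zero

private lemma Z3_J {S : BS} {lam η c m : ℝ} {J : ℝ → ENNReal}
    (hKw : ∀ t ∈ EE S lam η, Kw S.T t ≤ c) (hc : 0 ≤ c) (hEm : MeasurableSet (EE S lam η))
    (h : ∫⁻ t in EE S lam η, J t * ENNReal.ofReal (uu S lam t) ≤ ENNReal.ofReal m) :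
    ∫⁻ t in EE S lam η, J t * ENNReal.ofReal (Kw S.T t * uu S lam t) ≤
      ENNReal.ofReal (c * m) := by
  have h1 : ∀ t ∈ EE S lam η, J t * ENNReal.ofReal (Kw S.T t * uu S lam t) ≤
      ENNReal.ofReal c * (J t * ENNReal.ofReal (uu S lam t)) := by
    intro t ht
    have k1 : ENNReal.ofReal (Kw S.T t * uu S lam t) ≤
        ENNReal.ofReal c * ENNReal.ofReal (uu S lam t) := by
      rw [← ENNReal.ofReal_mul hc]
      exact ENNReal.ofReal_le_ofReal (mul_le_mul_of_nonneg_right (hKw t ht) (Z3_uu0 S lam t))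
    calc J t * ENNReal.ofReal (Kw S.T t * uu S lam t) ≤
          J t * (ENNReal.ofReal c * ENNReal.ofReal (uu S lam t)) := mul_le_mul_right k1 _
      _ = _ := by ring
  refine (setLIntegral_mono' hEm h1).trans ?_
  rw [lintegral_const_mul' _ _ ENNReal.ofReal_ne_top, ENNReal.ofReal_mul hc]
  exact mul_le_mul_right h _

private lemma Z3_Gz {S : BS} {Ct θ D1 : ℝ} {N0 : ℕ} (hS : TG S Ct θ D1 N0) {lam η δ c m1 m2 : ℝ}
    {z : ℂ} (hc : 0 ≤ c) (hKw : ∀ t ∈ EE S lam η, Kw S.T t ≤ c) (hm1 : 0 ≤ m1) (hm2 : 0 ≤ m2)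
    (h1 : ∫⁻ t in EE S lam η, ENNReal.ofReal (Kw S.T t * uu S lam t * ‖Fz S t z‖ ^ 2) ≤
      ENNReal.ofReal m1)
    (h2 : ∫⁻ t in EE S lam η, ENNReal.ofReal (Real.exp (2 * x0 S t) * ‖ch (pt S.T t z)‖ *
      ‖MO 0 S.T (nC (pt S.T t z))‖ ^ 2 * uu S lam t) ≤ ENNReal.ofReal m2) :
    ∫⁻ t in EE S lam η, ENNReal.ofReal (Kw S.T t * uu S lam t * ‖Gz S δ t z‖) ≤
      ENNReal.ofReal (m1 + c * δ ^ 2 * m2) := by
  have hEm : MeasurableSet (EE S lam η) := EE_measurable S lam η (Z3_R hS)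
  have hum : Measurable (uu S lam) := (uu_continuous S lam (Z3_R hS)).measurable
  have hKm : Measurable (Kw S.T) := (Kw_continuous hS.T_ge).measurable
  obtain ⟨-, -, hVm, hMm⟩ := Gz_meas hS δ
  have hptm : Measurable fun t : ℝ => ((t, z) : ℝ × ℂ) := measurable_id.prodMk measurable_const
  have hFm : Measurable fun t => Fz S t z := by
    have k1 := hVm.comp hptm
    have k2 := hMm.comp hptm
    simp only [Function.comp_def] at k1 k2
    unfold Fz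
    exact k1.mul k2
  have hm : Measurable fun t => ENNReal.ofReal (Kw S.T t * uu S lam t * ‖Fz S t z‖ ^ 2) :=
    ((hKm.mul hum).mul (hFm.norm.pow_const 2)).ennreal_ofReal
  have key : ∀ t ∈ EE S lam η, ENNReal.ofReal (Kw S.T t * uu S lam t * ‖Gz S δ t z‖) ≤
      ENNReal.ofReal (Kw S.T t * uu S lam t * ‖Fz S t z‖ ^ 2) + ENNReal.ofReal (c * δ ^ 2) *
        ENNReal.ofReal (Real.exp (2 * x0 S t) * ‖ch (pt S.T t z)‖ *
          ‖MO 0 S.T (nC (pt S.T t z))‖ ^ 2 * uu S lam t) := by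
    intro t ht
    have hu := Z3_uu0 S lam t
    have hK := (Kw_pos hS.T_ge t).le
    have hK2 := hKw t ht
    obtain ⟨E, hE⟩ : ∃ E, E = Real.exp (2 * x0 S t) * ‖ch (pt S.T t z)‖ *
          ‖MO 0 S.T (nC (pt S.T t z))‖ ^ 2 := ⟨_, rfl⟩
    have hE0 : 0 ≤ E := by
      rw [hE]
      positivity
    have k1 : ‖Gz S δ t z‖ ≤ ‖Fz S t z‖ ^ 2 + δ ^ 2 * E := by
      rw [Gz_eq]
      refine (norm_add_le _ _).trans ?_
      rw [norm_pow, norm_mul, norm_mul, Complex.norm_real, Real.norm_eq_abs,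
        abs_of_nonneg (by positivity), norm_pow, hE]
      refine le_of_eq ?_
      ring
    rw [← hE, ← ENNReal.ofReal_mul (by positivity), ← ENNReal.ofReal_add (by positivity)
      (by positivity)]
    refine ENNReal.ofReal_le_ofReal ?_
    calc Kw S.T t * uu S lam t * ‖Gz S δ t z‖ ≤
          Kw S.T t * uu S lam t * (‖Fz S t z‖ ^ 2 + δ ^ 2 * E) := by gcongr
      _ = Kw S.T t * uu S lam t * ‖Fz S t z‖ ^ 2 + Kw S.T t * (uu S lam t * δ ^ 2 * E) := by ring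
      _ ≤ Kw S.T t * uu S lam t * ‖Fz S t z‖ ^ 2 + c * (uu S lam t * δ ^ 2 * E) := by gcongr
      _ = _ := by ring
  refine (setLIntegral_mono' hEm key).trans ?_
  rw [lintegral_add_left hm, lintegral_const_mul' _ _ ENNReal.ofReal_ne_top,
    ENNReal.ofReal_add hm1 (by positivity), ENNReal.ofReal_mul (p := c * δ ^ 2) (by positivity)]
  exact add_le_add h1 (mul_le_mul_right h2 _)

private lemma Z3_be {W : ℝ} (hW : 0 < W) :
    ∫⁻ y in Set.Icc (-W) W, ENNReal.ofReal (bu (y / W)) = ENNReal.ofReal (be0 * W) := by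
  have hb1 : Continuous fun y : ℝ => bu (y / W) := bu_contDiff.continuous.comp (by fun_prop)
  rw [← be0_scale hW, intervalIntegral.integral_of_le (by linarith), ← integral_Icc_eq_integral_Ioc,
    ofReal_integral_eq_lintegral_ofReal]
  · exact hb1.continuousOn.integrableOn_compact isCompact_Icc
  · exact Filter.Eventually.of_forall fun y => (bu_mem (y / W)).1

private lemma Z3_ptm : Measurable fun q : ℝ × ℝ => ((q.1, -(R0 : ℂ) + q.2 * I) : ℝ × ℂ) := by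
  refine measurable_fst.prodMk ?_
  have : Continuous fun q : ℝ × ℝ => -(R0 : ℂ) + (q.2 : ℂ) * I := by fun_prop
  exact this.measurable

private lemma Z3_F1m {S : BS} {Ct θ D1 : ℝ} {N0 : ℕ} (hS : TG S Ct θ D1 N0) (δ W : ℝ) :
    Measurable fun q : ℝ × ℝ => bu (q.2 / W) * ‖Gz S δ q.1 (-(R0 : ℂ) + q.2 * I)‖ := by
  have h1 : Measurable fun q : ℝ × ℝ => bu (q.2 / W) :=
    (bu_contDiff.continuous.comp (by fun_prop : Continuous fun q : ℝ × ℝ => q.2 / W)).measurable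
  exact h1.mul ((Gz_meas hS δ).1.comp Z3_ptm).norm

private lemma Z3_edge {S : BS} {Ct θ D1 : ℝ} {N0 : ℕ} (hS : TG S Ct θ D1 N0) {lam η δ W m : ℝ}
    (hW : 0 < W)
    (h : ∀ y : ℝ, |y| ≤ W → ∫⁻ t in EE S lam η, ENNReal.ofReal (Kw S.T t * uu S lam t *
      ‖Gz S δ t (-(R0 : ℂ) + y * I)‖) ≤ ENNReal.ofReal m) :
    ∫⁻ t in EE S lam η, (∫⁻ y in Set.Icc (-W) W,
        ENNReal.ofReal (bu (y / W) * ‖Gz S δ t (-(R0 : ℂ) + y * I)‖)) *
      ENNReal.ofReal (Kw S.T t * uu S lam t) ≤ ENNReal.ofReal (be0 * W) * ENNReal.ofReal m := by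
  have hum : Measurable (uu S lam) := (uu_continuous S lam (Z3_R hS)).measurable
  have hKm : Measurable (Kw S.T) := (Kw_continuous hS.T_ge).measurable
  have hFm := Z3_F1m hS δ W
  obtain ⟨F, hF⟩ : ∃ F : ℝ × ℝ → ℝ, F = fun q : ℝ × ℝ =>
    bu (q.2 / W) * ‖Gz S δ q.1 (-(R0 : ℂ) + q.2 * I)‖ := ⟨_, rfl⟩
  rw [← hF] at hFm
  have hF0 : ∀ q, 0 ≤ F q := fun q => by
    rw [hF]
    exact mul_nonneg (bu_mem _).1 (norm_nonneg _)
  have e1 : ∫⁻ t in EE S lam η, (∫⁻ y in Set.Icc (-W) W,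
        ENNReal.ofReal (bu (y / W) * ‖Gz S δ t (-(R0 : ℂ) + y * I)‖)) *
      ENNReal.ofReal (Kw S.T t * uu S lam t) = ∫⁻ t in EE S lam η, ∫⁻ y in Set.Icc (-W) W,
        ENNReal.ofReal (F (t, y) * (Kw S.T t * uu S lam t)) := by
    refine lintegral_congr fun t => ?_
    have k1 : Measurable fun y => ENNReal.ofReal (F (t, y)) :=
      (hFm.comp measurable_prodMk_left).ennreal_ofReal
    have k2 : ∀ y : ℝ, bu (y / W) * ‖Gz S δ t (-(R0 : ℂ) + y * I)‖ = F (t, y) := fun y => by rw [hF]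
    simp only [k2]
    rw [← lintegral_mul_const _ k1]
    refine lintegral_congr fun y => ?_
    rw [ENNReal.ofReal_mul (hF0 _)]
  have hm : Measurable fun q : ℝ × ℝ => F q * (Kw S.T q.1 * uu S lam q.1) :=
    hFm.mul ((hKm.mul hum).comp measurable_fst)
  rw [e1, lintegral_lintegral_swap (f := fun t y => ENNReal.ofReal (F (t, y) *
    (Kw S.T t * uu S lam t))) hm.ennreal_ofReal.aemeasurable, ← Z3_be hW,
    ← lintegral_mul_const' _ _ ENNReal.ofReal_ne_top]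
  refine setLIntegral_mono' measurableSet_Icc fun y hy => ?_
  have e2 : ∫⁻ t in EE S lam η, ENNReal.ofReal (F (t, y) * (Kw S.T t * uu S lam t)) =
      ENNReal.ofReal (bu (y / W)) * ∫⁻ t in EE S lam η, ENNReal.ofReal (Kw S.T t * uu S lam t *
      ‖Gz S δ t (-(R0 : ℂ) + y * I)‖) := by
    rw [← lintegral_const_mul' _ _ ENNReal.ofReal_ne_top]
    refine lintegral_congr fun t => ?_
    rw [← ENNReal.ofReal_mul (bu_mem _).1, hF]
    congr 1
    ring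
  rw [e2]
  exact mul_le_mul_right (h y (abs_le.2 hy)) _

private lemma Z3_num {W be a m0 P Q K K' : ℝ} (hm0 : 0 ≤ m0) (hbe : 1 ≤ be) (hW : 10 ≤ W)
    (ha : a = (1 - 1 / 100 - (Real.log (29 / 10) - 1) / R0) * (be * W) - 2 * π)
    (hP : 0 ≤ P) (hPQ : P ≤ Q) (hK : 0 ≤ K) (hKK : K ≤ K') :
    (9 / 100 * W - 7 - K' * Q) * m0 ≤
      98 / 100 * a * m0 - (1 / (R0 * (29 / 10)) * (be * W * (286 / 100 * m0)) + K * P * m0) := by
  have h1 := Z3_log29
  have h2 : R0 = 6 / 5 := rfl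
  rw [h2] at ha ⊢
  have h3 := Real.pi_lt_d2
  have h4 : 0 ≤ be * W := by positivity
  have h5 : 936 / 1000 * (be * W) - 2 * π ≤ a := by
    rw [ha]
    have : 936 / 1000 ≤ 1 - 1 / 100 - (Real.log (29 / 10) - 1) / (6 / 5) := by
      linarith
    nlinarith
  have h6 : W ≤ be * W := by nlinarith
  have h7 : K * P ≤ K' * Q := mul_le_mul hKK hPQ hP (hK.trans hKK)
  have h8 : (9 / 100 * W - 7 - K' * Q) ≤ 98 / 100 * a - (1 / (6 / 5 * (29 / 10)) *
      (be * W * (286 / 100)) + K * P) := by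
    linarith
  calc (9 / 100 * W - 7 - K' * Q) * m0 ≤ (98 / 100 * a - (1 / (6 / 5 * (29 / 10)) *
      (be * W * (286 / 100)) + K * P)) * m0 := mul_le_mul_of_nonneg_right h8 hm0
    _ = _ := by ring

theorem integrated (lam : ℝ) (h0 : 0 < lam) : ∃ η : ℝ, 0 < η ∧ η ≤ 1 ∧ ∃ (C0 K κ0 θ1 : ℝ) (N00 : ℕ),
    1 ≤ K ∧ 0 < κ0 ∧ 0 < θ1 ∧ θ1 ≤ 1 ∧
    ∀ {Ct θ D1 : ℝ} {N0 : ℕ}, C0 ≤ Ct → N00 ≤ N0 → 0 ≤ D1 → 0 < θ → θ ≤ θ1 →
    ∀ B W : ℝ, 1 ≤ B → 8 * B ≤ W → 10 ≤ W → 7 * θ ^ 3 * W ≤ κ0 →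
    ∃ δ0 T0 : ℝ, 0 < δ0 ∧ δ0 ≤ 1 ∧ ∀ {S : BS}, TG S Ct θ D1 N0 → T0 ≤ S.T →
    ∀ δ : ℝ, 0 < δ → δ ≤ δ0 →
    (∀ᵐ t0 : ℝ, ∀ g ∈ ZL (2 * S.T / η), ‖deriv riemannZeta (1 / 2 + g * I)‖ ≠
      δ * Real.log S.T * Real.exp (x0 S t0)) →
    ENNReal.ofReal ((9 / 100 * W - 7 - K * (W / B + B ^ 2 / W + 1 + Real.log W +
      (D1 + 5 * Real.log (1 / θ)))) * (Kt S.T * ER S lam)) ≤
    ENNReal.ofReal (2 * π) * ∫⁻ t in EE S lam η, ENNReal.ofReal (Kw S.T t * uu S lam t *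
      Ng S δ W (2 * S.T / η) t) := by
  obtain ⟨η, hη0, hη1, hml⟩ := mass_lower lam h0
  obtain ⟨N00, C1, hml1⟩ := hml η hη0 le_rfl
  obtain ⟨C2, c, C2', hc, hC2', hm0b⟩ := m0_bounds lam h0
  obtain ⟨C3, κ0, θ1, hκ0, hθ1, hT1⟩ := T1 lam η h0 hη0 hη1
  obtain ⟨C4, K4, p4, hK4, hX4⟩ := XB4 lam η h0 hη0 hη1
  obtain ⟨c5, C5, T5, hc5, hC5, hKw⟩ := Kw_dm η hη0 hη1
  obtain ⟨C6, K6, hK6, hLh⟩ := avg_Lh lam η h0 hη0 hη1
  obtain ⟨C7, K7, hK7, hLp⟩ := avg_Lp lam η h0 hη0 hη1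
  refine ⟨η, hη0, hη1, max C1 (max C2 (max C3 (max C4 (max C6 C7)))), 1 + C5 * (K6 + K7) / c, κ0,
    min θ1 1, N00, ?_, hκ0, lt_min hθ1 one_pos, min_le_right _ _, ?_⟩
  · have : 0 ≤ C5 * (K6 + K7) / c := by positivity
    linarith
  intro Ct θ D1 N0 hCt hN hD1 hθ hθθ B W hB hBW hW hθW
  simp only [max_le_iff] at hCt
  obtain ⟨hCt1, hCt2, hCt3, hCt4, hCt6, hCt7⟩ := hCt
  have hθ1' : θ ≤ θ1 := hθθ.trans (min_le_left _ _)
  have hθ1'' : θ ≤ 1 := hθθ.trans (min_le_right _ _)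
  have hWp : 0 < W := by linarith
  obtain ⟨T1', hml2⟩ := hml1 (θ := θ) (D1 := D1) hCt1 hN
  obtain ⟨T3, hT1'⟩ := hT1 (D1 := D1) (N0 := N0) hCt3 hθ hθ1' W (by linarith) hθW
  obtain ⟨T4, hX4'⟩ := hX4 (θ := θ) (D1 := D1) (N0 := N0) hCt4
  obtain ⟨δ6, T6, hδ6, hδ6', hLh'⟩ := hLh (θ := θ) (D1 := D1) (N0 := N0) hCt6 B W hB hBW hW
  obtain ⟨δ7, T7, hδ7, hδ7', hLp'⟩ := hLp (N0 := N0) hCt7 hD1 hθ hθ1'' W hW
  obtain ⟨T8, hwin⟩ := window η B W (1 / 100) hη0 hη1 hB hBW (by norm_num)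
  obtain ⟨D, hD⟩ : ∃ D, D = D1 + 5 * Real.log (1 / θ) := ⟨_, rfl⟩
  have hD0 : 0 ≤ D := by
    have : 0 ≤ Real.log (1 / θ) := Real.log_nonneg (by rw [le_div_iff₀ hθ]; linarith)
    rw [hD]
    linarith
  rw [← hD] at hX4' hLp'
  rw [← hD]
  obtain ⟨A, hA⟩ : ∃ A, A = C5 * (K4 * Real.exp D * (1 + 2 * W) ^ p4 * 3) / c := ⟨_, rfl⟩
  have hA0 : 0 < A := by
    rw [hA]
    positivity
  refine ⟨min (1 / (100 * (A + 1))) (min δ6 δ7), max T1' (max T3 (max T4 (max T5 (max T6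
    (max T7 (max T8 (Real.exp W))))))), lt_min (by positivity) (lt_min hδ6 hδ7),
    (min_le_right _ _).trans ((min_le_left _ _).trans hδ6'), ?_⟩
  intro S hS hT δ hδ hδ' hgen
  simp only [max_le_iff] at hT
  obtain ⟨hTa, hTb, hTc, hTd, hTe, hTf, hTg, hTh⟩ := hT
  simp only [le_min_iff] at hδ'
  obtain ⟨hda, hdb, hdc⟩ := hδ'
  have hTge := hS.T_ge
  have hTpos : 0 < S.T := (Real.exp_pos _).trans_le hTge
  have hLW : W ≤ Real.log S.T := by
    rw [← Real.log_exp W]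
    exact Real.log_le_log (Real.exp_pos W) hTh
  have hR := Z3_R hS
  have hEm : MeasurableSet (EE S lam η) := EE_measurable S lam η hR
  have hum : Measurable (uu S lam) := (uu_continuous S lam hR).measurable
  have hKm : Measurable (Kw S.T) := (Kw_continuous hS.T_ge).measurable
  have hxm : Measurable (x0 S) := (x0_continuous S hR).measurable
  obtain ⟨m0, hm0⟩ : ∃ m, m = Kt S.T * ER S lam := ⟨_, rfl⟩
  obtain ⟨M, hM⟩ : ∃ M, M = S.T * Lam S lam := ⟨_, rfl⟩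
  obtain ⟨r, hr⟩ : ∃ r, r = S.T ^ (-(1 / 2) : ℝ) := ⟨_, rfl⟩
  have hr0 : 0 ≤ r := by
    rw [hr]
    positivity
  have hLam := one_le_Lam S lam
  have hM0 : 0 ≤ M := by
    rw [hM]
    exact mul_nonneg hTpos.le (by linarith)
  have hrM : r * M ≤ m0 / c := by
    rw [le_div_iff₀ hc, mul_comm]
    refine le_trans (le_of_eq ?_) (hm0 ▸ (hm0b hS hCt2).1)
    have k1 : S.T ^ (-(1 / 2) : ℝ) * S.T = S.T ^ (1 / 2 : ℝ) := by
      calc S.T ^ (-(1 / 2) : ℝ) * S.T = S.T ^ (-(1 / 2) : ℝ) * S.T ^ (1 : ℝ) := by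
            rw [Real.rpow_one]
        _ = S.T ^ (1 / 2 : ℝ) := by
            rw [← Real.rpow_add hTpos]
            norm_num
    rw [← k1, hr, hM]
    ring
  have hm00 : 0 ≤ m0 := by
    have k1 : 0 ≤ m0 / c := le_trans (by positivity) hrM
    by_contra hcon
    push Not at hcon
    have := div_neg_of_neg_of_pos hcon hc
    linarith
  have hKwt : ∀ t ∈ EE S lam η, Kw S.T t ≤ C5 * r := by
    intro t ht
    rw [hr]
    refine (hKw S.T t hTd ?_).2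
    refine ⟨?_, ?_⟩
    · refine le_trans ?_ ht.1.1
      nlinarith
    · refine ht.1.2.trans ?_
      exact div_le_div_of_nonneg_left hTpos.le (by positivity) (by linarith)
  -- the three averages
  have hml3 := hml2 hS hTa
  rw [← hm0] at hml3
  have hLh3 := hLh' hS hTe δ hδ hdb
  have hLp3 := hLp' hS hTf δ hδ hdc
  rw [← hM] at hLh3 hLp3
  have hJ2 := Z3_J hKwt (by positivity) hEm hLh3
  have hJ3 := Z3_J hKwt (by positivity) hEm hLp3
  have hJ1 := Z3_edge hS (lam := lam) (η := η) (δ := δ) (m := 286 / 100 * m0) hWp (by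
    intro y hy
    have k1 := (lintegral_mono_set fun t (ht : t ∈ EE S lam η) => ht.1).trans (hT1' hS hTb y hy)
    rw [← hm0] at k1
    have hre : (-(R0 : ℂ) + y * I).re = -(6 / 5) := by
      have : R0 = 6 / 5 := rfl
      simp [this]
    have him : (-(R0 : ℂ) + y * I).im = y := by simp
    have k2 := hX4' hS hTc (-(R0 : ℂ) + y * I) (by rw [hre]; norm_num) (by rw [hre]; linarith)
      (by rw [him]; linarith)
    rw [← hM] at k2
    refine (Z3_Gz hS (by positivity) hKwt (by positivity) (by positivity) k1 k2).trans ?_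
    refine ENNReal.ofReal_le_ofReal ?_
    rw [hre]
    have k3 : Real.exp (-(-(6 / 5) / 2)) ≤ 3 := by
      have e1 := Real.exp_one_lt_d9
      have e2 : Real.exp (-(-(6 / 5) / 2)) ≤ Real.exp 1 := Real.exp_le_exp.2 (by norm_num)
      linarith
    have k4 : (1 + ‖-(R0 : ℂ) + y * I‖) ^ p4 ≤ (1 + 2 * W) ^ p4 := by
      refine pow_le_pow_left₀ (by positivity) ?_ _
      have e1 := Complex.norm_le_abs_re_add_abs_im (-(R0 : ℂ) + y * I)
      rw [hre, him, abs_neg, abs_of_nonneg (by norm_num : (0 : ℝ) ≤ 6 / 5)] at e1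
      linarith
    have k5 : δ ^ 2 * A ≤ 1 / 100 := by
      have e1 : δ ≤ 1 := hdb.trans hδ6'
      have e2 : δ ^ 2 ≤ δ := by nlinarith
      have e3 : δ * (A + 1) ≤ 1 / 100 := by
        rw [le_div_iff₀ (by positivity)] at hda
        linarith
      nlinarith
    have k6 : C5 * r * δ ^ 2 * (K4 * Real.exp D * (1 + ‖-(R0 : ℂ) + y * I‖) ^ p4 *
        Real.exp (-(-(6 / 5) / 2)) * M) ≤ 1 / 100 * m0 := by
      calc C5 * r * δ ^ 2 * (K4 * Real.exp D * (1 + ‖-(R0 : ℂ) + y * I‖) ^ p4 *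
            Real.exp (-(-(6 / 5) / 2)) * M) ≤
            C5 * r * δ ^ 2 * (K4 * Real.exp D * (1 + 2 * W) ^ p4 * 3 * M) := by gcongr
        _ = C5 * δ ^ 2 * (K4 * Real.exp D * (1 + 2 * W) ^ p4 * 3) * (r * M) := by ring
        _ ≤ C5 * δ ^ 2 * (K4 * Real.exp D * (1 + 2 * W) ^ p4 * 3) * (m0 / c) := by gcongr
        _ = δ ^ 2 * A * m0 := by
            rw [hA]
            field_simp
        _ ≤ 1 / 100 * m0 := by gcongr
    linarith)
  -- the pointwise inequality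
  obtain ⟨a, ha⟩ : ∃ a, a = (1 - 1 / 100 - (Real.log (29 / 10) - 1) / R0) * (be0 * W) - 2 * π :=
    ⟨_, rfl⟩
  obtain ⟨w, hw⟩ : ∃ w : ℝ → ENNReal, w = fun t => ENNReal.ofReal (Kw S.T t * uu S lam t) :=
    ⟨_, rfl⟩
  obtain ⟨J1, hJ1d⟩ : ∃ J : ℝ → ENNReal, J = fun t => ∫⁻ y in Set.Icc (-W) W,
        ENNReal.ofReal (bu (y / W) * ‖Gz S δ t (-(R0 : ℂ) + y * I)‖) := ⟨_, rfl⟩
  obtain ⟨J2, hJ2d⟩ : ∃ J : ℝ → ENNReal, J = fun t => ∫⁻ z in QW W,
        ENNReal.ofReal (|Real.log ‖Gz S δ t z‖| * |Lh B W z.re z.im|) := ⟨_, rfl⟩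
  obtain ⟨J3, hJ3d⟩ : ∃ J : ℝ → ENNReal, J = fun t =>
      ∫⁻ z in {z : ℂ | 0 ≤ z.re ∧ z.re ≤ W ∧ |z.im| ≤ W},
        ENNReal.ofReal (|Real.log ‖Vd S δ t z‖ - 2 * x0 S t| * |Lp W z.re z.im|) := ⟨_, rfl⟩
  have hwm : Measurable w := by
    rw [hw]
    exact (hKm.mul hum).ennreal_ofReal
  have hJ1m : Measurable J1 := by
    rw [hJ1d]
    exact (Z3_F1m hS δ W).ennreal_ofReal.lintegral_prod_right'
  have hri : Measurable fun q : ℝ × ℂ => ((q.2.re, q.2.im) : ℝ × ℝ) :=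
    (Complex.measurable_re.comp measurable_snd).prodMk (Complex.measurable_im.comp measurable_snd)
  have hJ2m : Measurable J2 := by
    have k1 : Measurable fun q : ℝ × ℂ => Lh B W q.2.re q.2.im := by
      have := (Lh_continuous B W).measurable.comp hri
      simpa only [Function.comp_def] using this
    have k2 : Measurable fun q : ℝ × ℂ => |Real.log ‖Gz S δ q.1 q.2‖| * |Lh B W q.2.re q.2.im| :=
      (Real.measurable_log.comp (Gz_meas hS δ).1.norm).abs.mul k1.abs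
    rw [hJ2d]
    exact k2.ennreal_ofReal.lintegral_prod_right'
  have hJ3m : Measurable J3 := by
    have k1 : Measurable fun q : ℝ × ℂ => Lp W q.2.re q.2.im := by
      have := (Lp_continuous W).measurable.comp hri
      simpa only [Function.comp_def] using this
    have k2 : Measurable fun q : ℝ × ℂ => |Real.log ‖Vd S δ q.1 q.2‖ - 2 * x0 S q.1| *
        |Lp W q.2.re q.2.im| :=
      ((Real.measurable_log.comp (Gz_meas hS δ).2.1.norm).sub
        ((hxm.comp measurable_fst).const_mul 2)).abs.mul k1.abs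
    rw [hJ3d]
    exact k2.ennreal_ofReal.lintegral_prod_right'
  have hpt : ∀ᵐ t ∂(volume.restrict (EE S lam η)), ENNReal.ofReal a * w t ≤
      ENNReal.ofReal (2 * π) * ENNReal.ofReal (Kw S.T t * uu S lam t * Ng S δ W (2 * S.T / η) t) +
      ENNReal.ofReal (1 / (R0 * (29 / 10))) * (J1 t * w t) + ENNReal.ofReal (1 / R0) * (J2 t * w t) +
      J3 t * w t := by
    filter_upwards [ae_restrict_of_ae hgen, ae_restrict_mem hEm] with t ht htE
    have k1 := hwin hS hTg δ t hδ htE.1 ht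
    rw [← ha] at k1
    refine (mul_le_mul_left k1 (w t)).trans (le_of_eq ?_)
    have k2 : ENNReal.ofReal (2 * π * Ng S δ W (2 * S.T / η) t) * w t =
        ENNReal.ofReal (2 * π) *
          ENNReal.ofReal (Kw S.T t * uu S lam t * Ng S δ W (2 * S.T / η) t) := by
      rw [hw, ENNReal.ofReal_mul (by positivity),
        ENNReal.ofReal_mul (mul_nonneg (Kw_pos hS.T_ge t).le (Z3_uu0 S lam t))]
      ring
    rw [add_mul, add_mul, add_mul, k2, hJ1d, hJ2d, hJ3d]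
    ring
  have hp1 : Measurable fun t => J1 t * w t := hJ1m.mul hwm
  have hp2 : Measurable fun t => J2 t * w t := hJ2m.mul hwm
  have hp3 : Measurable fun t => J3 t * w t := hJ3m.mul hwm
  obtain ⟨X, hX⟩ : ∃ X, X = ENNReal.ofReal (2 * π) * ∫⁻ t in EE S lam η,
    ENNReal.ofReal (Kw S.T t * uu S lam t * Ng S δ W (2 * S.T / η) t) := ⟨_, rfl⟩
  have hint : ENNReal.ofReal a * ∫⁻ t in EE S lam η, w t ≤ X +
      ENNReal.ofReal (1 / (R0 * (29 / 10))) * (∫⁻ t in EE S lam η, J1 t * w t) +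
      ENNReal.ofReal (1 / R0) * (∫⁻ t in EE S lam η, J2 t * w t) +
      ∫⁻ t in EE S lam η, J3 t * w t := by
    rw [← lintegral_const_mul' _ _ ENNReal.ofReal_ne_top]
    refine (lintegral_mono_ae hpt).trans (le_of_eq ?_)
    rw [lintegral_add_right _ hp3, lintegral_add_right _ (hp2.const_mul _),
      lintegral_add_right _ (hp1.const_mul _), lintegral_const_mul' _ _ ENNReal.ofReal_ne_top,
      lintegral_const_mul _ hp1, lintegral_const_mul _ hp2, hX]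
  have hR06 : R0 = 6 / 5 := rfl
  have hR00 : 0 < R0 := by
    rw [hR06]
    norm_num
  obtain ⟨Q, hQ⟩ : ∃ Q, Q = W / B + B ^ 2 / W + 1 + Real.log W + D := ⟨_, rfl⟩
  have hBp : 0 < B := by linarith
  have hlW : 0 ≤ Real.log W := Real.log_nonneg (by linarith)
  have hq1 : 0 ≤ W / B := by positivity
  have hq2 : 0 ≤ B ^ 2 / W := by positivity
  have hQ0 : 0 ≤ Q := by
    rw [hQ]
    positivity
  rw [← hQ, ← hm0, ← hX]
  by_cases hneg : 9 / 100 * W - 7 - (1 + C5 * (K6 + K7) / c) * Q ≤ 0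
  · rw [ENNReal.ofReal_of_nonpos (mul_nonpos_of_nonpos_of_nonneg hneg hm00)]
    exact zero_le
  push Not at hneg
  have hK00 : 0 ≤ C5 * (K6 + K7) / c := by positivity
  have hW77 : 77 ≤ W := by
    have : 0 ≤ (1 + C5 * (K6 + K7) / c) * Q := by positivity
    linarith
  have hbe := be0_mem
  have ha0 : 0 ≤ a := by
    have k1 := Z3_log29
    have k2 : 936 / 1000 ≤ 1 - 1 / 100 - (Real.log (29 / 10) - 1) / R0 := by
      rw [hR06]
      linarith
    have k3 : 77 ≤ be0 * W := by nlinarith [hbe.1]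
    have k4 := Real.pi_lt_d2
    rw [ha]
    nlinarith
  have hnum := Z3_num (K := C5 * (K6 + K7) / c) (K' := 1 + C5 * (K6 + K7) / c) (P := Q) (Q := Q)
    hm00 hbe.1 hW ha hQ0 le_rfl hK00 (by linarith)
  refine (ENNReal.ofReal_le_ofReal hnum).trans ?_
  have hbe0 : 0 ≤ be0 * W := mul_nonneg (by linarith [hbe.1]) hWp.le
  rw [ENNReal.ofReal_sub _ (by positivity), tsub_le_iff_right]
  have l1 : ENNReal.ofReal (98 / 100 * a * m0) ≤ ENNReal.ofReal a * ∫⁻ t in EE S lam η, w t := by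
    have : 98 / 100 * a * m0 = a * (98 / 100 * m0) := by ring
    rw [this, ENNReal.ofReal_mul ha0]
    refine mul_le_mul_right ?_ _
    rw [hw]
    exact hml3
  refine l1.trans (hint.trans ?_)
  rw [add_assoc, add_assoc]
  refine add_le_add le_rfl ?_
  have e1 : ∫⁻ t in EE S lam η, J1 t * w t ≤ ENNReal.ofReal (be0 * W) *
      ENNReal.ofReal (286 / 100 * m0) := by
    rw [hJ1d, hw]
    exact hJ1
  have e2 : ∫⁻ t in EE S lam η, J2 t * w t ≤
      ENNReal.ofReal (C5 * r * (K6 * (W / B + B ^ 2 / W + 1) * M)) := by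
    rw [hJ2d, hw]
    exact hJ2
  have e3 : ∫⁻ t in EE S lam η, J3 t * w t ≤
      ENNReal.ofReal (C5 * r * (K7 * (1 + Real.log W + D) * M)) := by
    rw [hJ3d, hw]
    exact hJ3
  refine (add_le_add (mul_le_mul_right e1 _) (add_le_add (mul_le_mul_right e2 _) e3)).trans ?_
  rw [← ENNReal.ofReal_mul hbe0, ← ENNReal.ofReal_mul (by positivity),
    ← ENNReal.ofReal_mul (by positivity), ← ENNReal.ofReal_add (by positivity) (by positivity),
    ← ENNReal.ofReal_add (by positivity) (by positivity)]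
  refine ENNReal.ofReal_le_ofReal ?_
  refine add_le_add le_rfl ?_
  have f1 : 1 / R0 ≤ 1 := by
    rw [hR06]
    norm_num
  have f2 : 1 / R0 * (C5 * r * (K6 * (W / B + B ^ 2 / W + 1) * M)) ≤ C5 * K6 * Q * (m0 / c) := by
    calc 1 / R0 * (C5 * r * (K6 * (W / B + B ^ 2 / W + 1) * M)) ≤
          1 * (C5 * r * (K6 * Q * M)) := by
            gcongr
            rw [hQ]
            linarith
      _ = C5 * K6 * Q * (r * M) := by ring
      _ ≤ C5 * K6 * Q * (m0 / c) := by gcongr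
  have f3 : C5 * r * (K7 * (1 + Real.log W + D) * M) ≤ C5 * K7 * Q * (m0 / c) := by
    calc C5 * r * (K7 * (1 + Real.log W + D) * M) ≤ C5 * r * (K7 * Q * M) := by
            gcongr
            rw [hQ]
            linarith
      _ = C5 * K7 * Q * (r * M) := by ring
      _ ≤ C5 * K7 * Q * (m0 / c) := by gcongr
  calc _ ≤ C5 * K6 * Q * (m0 / c) + C5 * K7 * Q * (m0 / c) := add_le_add f2 f3
    _ = _ := by ring

end Pool.Agent.LB
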