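import Pool.Agent.Lib.MP_69b2e4_nt.LB.Z3
import Pool.Agent.Lib.MP_69b2e4_nt.Mg.G022
import Pool.Agent.Lib.MP_69b2e4_nt.LB.M5

/-! TASK Z4. Choice of the parameters. From `integrated`: `η, C0, K, κ0, θ1, N00`. Put `Ct = max C0 (C0 of m0_bounds) 10`, `N0 = N00`; `tg_exists Ct N0` gives `D1, θ0`. `B = max 1 (100 K)`. For `θ → 0`: `W = κ0/(7θ³) → ∞` and `K(B²/W + 1 + log W + D1 + 5 log(1/θ)) + 7 ≤ W/100` (all are `O(log W)`), so the bracket is `≥ (9/100 - 1/100 - 1/100) W ≥ 7 W/100 ≥ 2π` for a suitable small `θ ≤ min θ0 θ1` with `W ≥ 8B`, `W ≥ 100`. Fix it. `integrated` gives `δ0, T0`. For `T ≥ T0'`: the system `S` from `tg_exists`, `δ ∈ [δ0/2, δ0]` from `generic` with `H = 2T/η`. Conclusion: `ofReal(2π m0) ≤ ofReal(2π) ∫ ..`, and `m0 = Kt ER ≥ c T^{1/2} Lam ≥ c' T^{1/2} (log T)^{lam²}` (`m0_bounds`, `Lam_ge`; `θ`, `D1` are fixed). -/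

set_option autoImplicit false

namespace Pool.Agent.LB

open Complex MeasureTheory Finset Pool.Agent.GH Pool.Agent.UH Pool.Agent.UV
open scoped Real ComplexConjugate

/-- The choice of `θ` and `W`. -/
theorem Z4_choice {K κ0 θ1 θ0 D1 B : ℝ} (hK : 1 ≤ K) (hκ : 0 < κ0) (h1 : 0 < θ1) (h0 : 0 < θ0)
    (hD : 0 ≤ D1) (hB1 : 1 ≤ B) (hBK : 100 * K ≤ B) :
    ∃ θ W : ℝ, 0 < θ ∧ θ ≤ θ1 ∧ θ ≤ θ0 ∧ 8 * B ≤ W ∧ 100 ≤ W ∧ 7 * θ ^ 3 * W ≤ κ0 ∧
      2 * π ≤ 9 / 100 * W - 7 - K * (W / B + B ^ 2 / W + 1 + Real.log W +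
        (D1 + 5 * Real.log (1 / θ))) := by
  set A : ℝ := K * (B + 1 + |Real.log (κ0 / 7)| + D1) + 7 with hA
  have hA0 : 0 ≤ A := by
    have := abs_nonneg (Real.log (κ0 / 7))
    have h2 : 0 ≤ K * (B + 1 + |Real.log (κ0 / 7)| + D1) :=
      mul_nonneg (by linarith) (by linarith)
    linarith
  obtain ⟨x, hx⟩ : ∃ x : ℝ, 1 ≤ x ∧ 1 / θ1 ≤ x ∧ 1 / θ0 ≤ x ∧ 700 * (A + 8 * K) / κ0 ≤ x ∧
      56 * B / κ0 ≤ x ∧ 700 / κ0 ≤ x := by
    refine ⟨max 1 (max (1 / θ1) (max (1 / θ0) (max (700 * (A + 8 * K) / κ0)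
      (max (56 * B / κ0) (700 / κ0))))), ?_, ?_, ?_, ?_, ?_, ?_⟩ <;> simp
  obtain ⟨hx1, hx2, hx3, hx4, hx5, hx6⟩ := hx
  have hx0 : 0 < x := by linarith
  have hxx : x ≤ x ^ 2 := by nlinarith
  have hx23 : x ^ 2 ≤ x ^ 3 := by nlinarith [sq_nonneg x]
  have hW8 : 8 * B ≤ κ0 * x ^ 3 / 7 := by
    rw [div_le_iff₀ hκ] at hx5
    nlinarith
  have hW100 : 100 ≤ κ0 * x ^ 3 / 7 := by
    rw [div_le_iff₀ hκ] at hx6
    nlinarith
  have hA8 : A + 8 * K * x ≤ κ0 * x ^ 3 / 700 := by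
    rw [div_le_iff₀ hκ] at hx4
    have h2 : A + 8 * K * x ≤ (A + 8 * K) * x := by nlinarith
    have h3 : (A + 8 * K) * x ≤ (κ0 * x / 700) * x :=
      mul_le_mul_of_nonneg_right (by linarith) hx0.le
    have h4 : (κ0 * x / 700) * x = κ0 * x ^ 2 / 700 := by ring
    have h5 : κ0 * x ^ 2 ≤ κ0 * x ^ 3 := mul_le_mul_of_nonneg_left hx23 hκ.le
    linarith
  have hWpos : 0 < κ0 * x ^ 3 / 7 := by linarith
  have hlogx : Real.log x ≤ x := by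
    have := Real.log_le_sub_one_of_pos hx0
    linarith
  have hlogW : Real.log (κ0 * x ^ 3 / 7) ≤ |Real.log (κ0 / 7)| + 3 * x := by
    have e1 : κ0 * x ^ 3 / 7 = (κ0 / 7) * x ^ 3 := by ring
    rw [e1, Real.log_mul (by positivity) (by positivity), Real.log_pow]
    have := le_abs_self (Real.log (κ0 / 7))
    push_cast
    linarith
  refine ⟨1 / x, κ0 * x ^ 3 / 7, by positivity, ?_, ?_, hW8, hW100, ?_, ?_⟩
  · rw [div_le_iff₀ h1] at hx2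
    rw [div_le_iff₀ hx0]
    linarith
  · rw [div_le_iff₀ h0] at hx3
    rw [div_le_iff₀ hx0]
    linarith
  · apply le_of_eq
    field_simp
  · rw [one_div_one_div]
    set W : ℝ := κ0 * x ^ 3 / 7 with hW
    have hWB : K * (W / B) ≤ W / 100 := by
      have : W / B ≤ W / (100 * K) := by
        apply div_le_div_of_nonneg_left hWpos.le (by linarith) hBK
      calc K * (W / B) ≤ K * (W / (100 * K)) := mul_le_mul_of_nonneg_left this (by linarith)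
        _ = W / 100 := by field_simp
    have hB2 : B ^ 2 / W ≤ B := by
      rw [div_le_iff₀ hWpos]
      nlinarith
    have hrest : K * (B ^ 2 / W + 1 + Real.log W + (D1 + 5 * Real.log x)) + 7 ≤ W / 100 := by
      have h2 : B ^ 2 / W + 1 + Real.log W + (D1 + 5 * Real.log x) ≤
          (B + 1 + |Real.log (κ0 / 7)| + D1) + 8 * x := by linarith
      have h3 := mul_le_mul_of_nonneg_left h2 (show (0 : ℝ) ≤ K by linarith)
      have h4 : κ0 * x ^ 3 / 700 = W / 100 := by rw [hW]; ring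
      rw [← h4]
      refine le_trans ?_ hA8
      rw [hA]
      nlinarith
    have hpi := Real.pi_lt_d2
    have h5 : K * (W / B + B ^ 2 / W + 1 + Real.log W + (D1 + 5 * Real.log x)) =
        K * (W / B) + K * (B ^ 2 / W + 1 + Real.log W + (D1 + 5 * Real.log x)) := by ring
    rw [h5]
    have : 100 ≤ W := hW100
    norm_num at hpi
    linarith

theorem Ng_lower (lam : ℝ) (h0 : 0 < lam) : ∃ (η θ Ct D1 W δ0 c T0 : ℝ) (N0 : ℕ), 0 < η ∧ η ≤ 1 ∧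
    0 < δ0 ∧ 1 ≤ W ∧ 0 < c ∧ ∀ T : ℝ, T0 ≤ T → ∃ (S : BS) (δ : ℝ), S.T = T ∧ TG S Ct θ D1 N0 ∧
    δ0 / 2 ≤ δ ∧ ENNReal.ofReal (c * (T ^ (1 / 2 : ℝ) * Real.log T ^ (lam ^ 2))) ≤
    ∫⁻ t in EE S lam η, ENNReal.ofReal (Kw T t * uu S lam t * Ng S δ W (2 * T / η) t) := by
  obtain ⟨η, hη, hη1, C0, K, κ0, θ1, N00, hK, hκ, hθ1, hθ11, hint⟩ := integrated lam h0
  obtain ⟨C0', c1, C1, hc1, hC1, hm0⟩ := m0_bounds lam h0
  obtain ⟨c2, hc2, hLam⟩ := Lam_ge lam h0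
  set Ct : ℝ := max (max C0 C0') 10 with hCt
  have hCt1 : C0 ≤ Ct := le_trans (le_max_left _ _) (le_max_left _ _)
  have hCt2 : C0' ≤ Ct := le_trans (le_max_right _ _) (le_max_left _ _)
  have hCt3 : 10 ≤ Ct := le_max_right _ _
  obtain ⟨D1, θ0, hD1, hθ0, htg⟩ := tg_exists Ct N00 hCt3
  set B : ℝ := max 1 (100 * K) with hB
  have hB1 : 1 ≤ B := le_max_left _ _
  have hB2 : 100 * K ≤ B := le_max_right _ _
  obtain ⟨θ, W, hθ, hθa, hθb, hW8, hW100, hW7, hbr⟩ :=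
    Z4_choice hK hκ hθ1 hθ0 hD1 hB1 hB2
  obtain ⟨T1, hT1⟩ := htg θ hθ hθb
  obtain ⟨δ0, T2, hδ0, hδ01, hmain⟩ := hint hCt1 le_rfl hD1 hθ hθa B W hB1 hW8
    (by linarith) hW7 (N0 := N00)
  refine ⟨η, θ, Ct, D1, W, δ0,
    c1 * (c2 * Real.exp (-(lam ^ 2 * (D1 + 5 * Real.log (1 / θ))))), max T1 T2, N00,
    hη, hη1, hδ0, by linarith, by positivity, ?_⟩
  intro T hT
  obtain ⟨S, hST, hTG⟩ := hT1 T (le_trans (le_max_left _ _) hT)
  subst hST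
  obtain ⟨δ, hδa, hδb, hgen⟩ := generic hTG hδ0 (2 * S.T / η)
  refine ⟨S, δ, rfl, hTG, hδa, ?_⟩
  have h3 := hmain hTG (le_trans (le_max_right _ _) hT) δ (by linarith) hδb hgen
  obtain ⟨hm1, -⟩ := hm0 hTG hCt2
  have hL := hLam hTG
  have hTpos : 0 < S.T := lt_of_lt_of_le (Real.exp_pos _) hTG.T_ge
  have hT12 : 0 ≤ S.T ^ (1 / 2 : ℝ) := Real.rpow_nonneg hTpos.le _
  have hLam0 : 0 ≤ Lam S lam := (Real.exp_pos _).le
  have hm00 : 0 ≤ Kt S.T * ER S lam :=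
    le_trans (mul_nonneg hc1.le (mul_nonneg hT12 hLam0)) hm1
  have h4 : ENNReal.ofReal (2 * π) * ENNReal.ofReal (Kt S.T * ER S lam) ≤
      ENNReal.ofReal (2 * π) * ∫⁻ t in EE S lam η, ENNReal.ofReal (Kw S.T t * uu S lam t *
      Ng S δ W (2 * S.T / η) t) := by
    refine le_trans ?_ h3
    rw [← ENNReal.ofReal_mul (by positivity)]
    exact ENNReal.ofReal_le_ofReal (mul_le_mul_of_nonneg_right hbr hm00)
  have h5 : ENNReal.ofReal (Kt S.T * ER S lam) ≤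
      ∫⁻ t in EE S lam η, ENNReal.ofReal (Kw S.T t * uu S lam t *
      Ng S δ W (2 * S.T / η) t) := by
    have h6 : ENNReal.ofReal (2 * π) ≠ 0 := by
      rw [Ne, ENNReal.ofReal_eq_zero, not_le]
      positivity
    exact (ENNReal.mul_le_mul_iff_right h6 ENNReal.ofReal_ne_top).1 h4
  refine le_trans (ENNReal.ofReal_le_ofReal ?_) h5
  refine le_trans ?_ hm1
  have h7 : c1 * (c2 * Real.exp (-(lam ^ 2 * (D1 + 5 * Real.log (1 / θ))))) *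
      (S.T ^ (1 / 2 : ℝ) * Real.log S.T ^ lam ^ 2) =
      c1 * (S.T ^ (1 / 2 : ℝ) * (c2 * Real.exp (-(lam ^ 2 * (D1 + 5 * Real.log (1 / θ)))) *
        Real.log S.T ^ lam ^ 2)) := by ring
  rw [h7]
  exact mul_le_mul_of_nonneg_left (mul_le_mul_of_nonneg_left hL hT12) hc1.le

end Pool.Agent.LB
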