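import Pool.Agent.Lib.MP_69b2e4_nt.LB.Z4
import Pool.Agent.Lib.MP_69b2e4_nt.Mg.G022

/-! TASK Z6. The lower bound. Let `T` be large, `T' = ηT/2`, so `2T'/η = T`. `Ng_lower` at `T'` and `end_upper` with `H = T`: `c T'^{1/2} L'^{lam²} ≤ C (W/L') (δL')^{-2lam} T'^{-1/2} ∑_{g ∈ ZL T} ‖ζ'‖^{2lam}`, `L' = log T'`, `δ ≥ δ0/2`: `∑ ≥ c' T' L'^{lam² + 1 + 2lam}`, `lam² + 2 lam + 1 = (lam+1)²`, `T' = ηT/2`, `L' ≥ L/2`. -/

set_option autoImplicit false

namespace Pool.Agent.LB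

open Complex MeasureTheory Finset Pool.Agent.GH Pool.Agent.UH Pool.Agent.UV
open scoped Real ComplexConjugate

theorem lower_final (lam : ℝ) (h0 : 0 < lam) : ∃ c T0 : ℝ, 0 < c ∧ ∀ T : ℝ, T0 ≤ T →
    c * (T * Real.log T ^ ((lam + 1) ^ 2)) ≤
      ∑ g ∈ ZL T, ‖deriv riemannZeta (1 / 2 + g * I)‖ ^ (2 * lam) := by
  obtain ⟨η, θ, Ct, D1, W, δ0, c, T0, N0, hη, hη1, hδ0, hW, hc, hlow⟩ := Ng_lower lam h0
  obtain ⟨C, T1, hC, hup⟩ := end_upper lam η h0 hη hη1
  have hCpos : 0 < C := by linarith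
  have hWpos : 0 < W := by linarith
  set k : ℝ := c / (C * W) * (η / 2) * (δ0 / 2) ^ (2 * lam) * (1 / 2 : ℝ) ^ ((lam + 1) ^ 2) with hk
  have hkpos : 0 < k := by
    rw [hk]
    have h1 : 0 < (δ0 / 2) ^ (2 * lam) := Real.rpow_pos_of_pos (by linarith) _
    have h2 : 0 < (1 / 2 : ℝ) ^ ((lam + 1) ^ 2) := Real.rpow_pos_of_pos (by norm_num) _
    positivity
  refine ⟨k, max (max (2 / η * (|T0| + |T1| + 3)) ((2 / η) ^ 2)) 3, hkpos, fun T hT => ?_⟩
  have hTa : 2 / η * (|T0| + |T1| + 3) ≤ T := le_trans (le_trans (le_max_left _ _) (le_max_left _ _)) hT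
  have hTb : (2 / η) ^ 2 ≤ T := le_trans (le_trans (le_max_right _ _) (le_max_left _ _)) hT
  have hTc : 3 ≤ T := le_trans (le_max_right _ _) hT
  have hTpos : 0 < T := by linarith
  set T' : ℝ := η * T / 2 with hT'
  have hT'ge : |T0| + |T1| + 3 ≤ T' := by
    have h1 : η / 2 * (2 / η * (|T0| + |T1| + 3)) ≤ η / 2 * T :=
      mul_le_mul_of_nonneg_left hTa (by positivity)
    have h2 : η / 2 * (2 / η * (|T0| + |T1| + 3)) = |T0| + |T1| + 3 := by
      field_simp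
    rw [h2] at h1
    rw [hT']; linarith
  have hT'0 : T0 ≤ T' := by
    have := le_abs_self T0
    have := abs_nonneg T1
    linarith
  have hT'1 : T1 ≤ T' := by
    have := le_abs_self T1
    have := abs_nonneg T0
    linarith
  have hT'3 : 3 ≤ T' := by
    have := abs_nonneg T1
    have := abs_nonneg T0
    linarith
  have hT'pos : 0 < T' := by linarith
  obtain ⟨S, δ, hST, hTG, hδ, hle⟩ := hlow T' hT'0
  have hδpos : 0 < δ := by linarith
  have h2T : 2 * T' / η = T := by rw [hT']; field_simp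
  have hup' := hup hTG (by rw [hST]; exact hT'1) δ W T hδpos hW
  rw [hST] at hup'
  rw [h2T] at hle
  have hcomb := le_trans hle hup'
  set L' : ℝ := Real.log T' with hL'
  have hL'pos : 0 < L' := Real.log_pos (by linarith)
  set Sg : ℝ := ∑ g ∈ ZL T, ‖deriv riemannZeta (1 / 2 + g * I)‖ ^ (2 * lam) with hSg
  have hSg0 : 0 ≤ Sg := Finset.sum_nonneg fun g _ => Real.rpow_nonneg (norm_nonneg _) _
  have hR0 : 0 ≤ C * (W / L') * (δ * L') ^ (-(2 * lam)) * (T' ^ (-(1 / 2) : ℝ) * Sg) := by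
    have h1 : 0 < (δ * L') ^ (-(2 * lam)) := Real.rpow_pos_of_pos (by positivity) _
    have h2 : 0 < T' ^ (-(1 / 2) : ℝ) := Real.rpow_pos_of_pos hT'pos _
    positivity
  have hreal := (ENNReal.ofReal_le_ofReal_iff hR0).1 hcomb
  -- multiply out
  have hq : (δ * L') ^ (-(2 * lam)) * (δ * L') ^ (2 * lam) = 1 := by
    rw [← Real.rpow_add (by positivity)]
    simp
  have hr : T' ^ (-(1 / 2) : ℝ) * T' ^ (1 / 2 : ℝ) = 1 := by
    rw [← Real.rpow_add hT'pos]
    simp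
  have hrr : T' ^ (1 / 2 : ℝ) * T' ^ (1 / 2 : ℝ) = T' := by
    rw [← Real.rpow_add hT'pos]
    norm_num
  set A : ℝ := (δ * L') ^ (2 * lam) with hA
  set B : ℝ := T' ^ (1 / 2 : ℝ) with hB
  have hApos : 0 < A := Real.rpow_pos_of_pos (by positivity) _
  have hBpos : 0 < B := Real.rpow_pos_of_pos hT'pos _
  have hmul : c * (B * L' ^ (lam ^ 2)) * (B * L' * A) ≤
      (C * (W / L') * (δ * L') ^ (-(2 * lam)) * (T' ^ (-(1 / 2) : ℝ) * Sg)) * (B * L' * A) :=
    mul_le_mul_of_nonneg_right hreal (by positivity)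
  have hRHS : (C * (W / L') * (δ * L') ^ (-(2 * lam)) * (T' ^ (-(1 / 2) : ℝ) * Sg)) * (B * L' * A) =
      C * W * Sg := by
    have : (C * (W / L') * (δ * L') ^ (-(2 * lam)) * (T' ^ (-(1 / 2) : ℝ) * Sg)) * (B * L' * A) =
        C * W * Sg * ((δ * L') ^ (-(2 * lam)) * A) * (T' ^ (-(1 / 2) : ℝ) * B) * (L' / L') := by
      ring
    rw [this, hq, hr, div_self hL'pos.ne']
    ring
  have hLHS : c * (B * L' ^ (lam ^ 2)) * (B * L' * A) = c * T' * (L' ^ (lam ^ 2) * L') * A := by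
    have : c * (B * L' ^ (lam ^ 2)) * (B * L' * A) = c * (B * B) * (L' ^ (lam ^ 2) * L') * A := by
      ring
    rw [this, hrr]
  rw [hRHS, hLHS] at hmul
  -- lower bounds for the factors
  have hA1 : (δ0 / 2) ^ (2 * lam) * L' ^ (2 * lam) ≤ A := by
    rw [hA, ← Real.mul_rpow (by linarith) hL'pos.le]
    exact Real.rpow_le_rpow (by positivity) (mul_le_mul_of_nonneg_right hδ hL'pos.le) (by linarith)
  have hLpos : 0 < Real.log T := Real.log_pos (by linarith)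
  have hLL : 1 / 2 * Real.log T ≤ L' := by
    have h1 : Real.log T' = Real.log T + Real.log (η / 2) := by
      rw [← Real.log_mul hTpos.ne' (by positivity), hT']
      congr 1
      ring
    have h2 : Real.log ((2 / η) ^ 2) ≤ Real.log T := Real.log_le_log (by positivity) hTb
    rw [Real.log_pow] at h2
    have h3 : Real.log (2 / η) = -Real.log (η / 2) := by
      rw [← Real.log_inv]
      congr 1
      field_simp
    rw [h3] at h2
    push_cast at h2
    rw [hL', h1]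
    linarith
  have hpow : L' ^ (lam ^ 2) * L' * L' ^ (2 * lam) = L' ^ ((lam + 1) ^ 2) := by
    have h1 : L' ^ (lam ^ 2) * L' = L' ^ (lam ^ 2 + 1) := by
      rw [Real.rpow_add hL'pos, Real.rpow_one]
    rw [h1, ← Real.rpow_add hL'pos]
    congr 1
    ring
  have hpow2 : (1 / 2 : ℝ) ^ ((lam + 1) ^ 2) * Real.log T ^ ((lam + 1) ^ 2) ≤
      L' ^ ((lam + 1) ^ 2) := by
    rw [← Real.mul_rpow (by norm_num) hLpos.le]
    exact Real.rpow_le_rpow (by positivity) hLL (by positivity)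
  have hd0 : 0 < (δ0 / 2) ^ (2 * lam) := Real.rpow_pos_of_pos (by linarith) _
  have hfin : c * T' * ((δ0 / 2) ^ (2 * lam) *
      ((1 / 2 : ℝ) ^ ((lam + 1) ^ 2) * Real.log T ^ ((lam + 1) ^ 2))) ≤ C * W * Sg := by
    refine le_trans ?_ hmul
    have h1 : c * T' * (L' ^ (lam ^ 2) * L') * ((δ0 / 2) ^ (2 * lam) * L' ^ (2 * lam)) ≤
        c * T' * (L' ^ (lam ^ 2) * L') * A := by
      have : 0 < L' ^ (lam ^ 2) := Real.rpow_pos_of_pos hL'pos _
      exact mul_le_mul_of_nonneg_left hA1 (by positivity)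
    refine le_trans ?_ h1
    have h2 : c * T' * (L' ^ (lam ^ 2) * L') * ((δ0 / 2) ^ (2 * lam) * L' ^ (2 * lam)) =
        c * T' * ((δ0 / 2) ^ (2 * lam) * (L' ^ (lam ^ 2) * L' * L' ^ (2 * lam))) := by ring
    rw [h2, hpow]
    exact mul_le_mul_of_nonneg_left (mul_le_mul_of_nonneg_left hpow2 hd0.le) (by positivity)
  have hkeq : C * W * (k * (T * Real.log T ^ ((lam + 1) ^ 2))) = c * T' * ((δ0 / 2) ^ (2 * lam) *
      ((1 / 2 : ℝ) ^ ((lam + 1) ^ 2) * Real.log T ^ ((lam + 1) ^ 2))) := by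
    have h1 : C * W * (c / (C * W)) = c := by field_simp
    calc C * W * (k * (T * Real.log T ^ ((lam + 1) ^ 2)))
        = (C * W * (c / (C * W))) * (η * T / 2) * ((δ0 / 2) ^ (2 * lam) *
          ((1 / 2 : ℝ) ^ ((lam + 1) ^ 2) * Real.log T ^ ((lam + 1) ^ 2))) := by
          rw [hk]; ring
      _ = _ := by rw [h1]
  rw [← hkeq] at hfin
  exact le_of_mul_le_mul_left hfin (by positivity)

end Pool.Agent.LB
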